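import Pool.Agent.H47.ST.RKa

/-!
# The Tate total complex: elementary exactness lemmas
-/

set_option autoImplicit false

namespace Pool.Agent.H47.ST

variable {F E : Type*} [Field F] [AddCommGroup E] [Module F E] {d τ ν : E →ₗ[F] E}

theorem TKb_the_two (τ ν : E →ₗ[F] E) (m : ℕ) : the τ ν (m + 2) = the τ ν m := by
  unfold the
  simp [Nat.even_add]

theorem TKb_the_the (h : Ops d τ ν) (m : ℕ) (x : E) : the τ ν (m + 1) (the τ ν m x) = 0 := by
  unfold the
  by_cases hm : Even m
  · have h1 : ¬ Even (m + 1) := by rw [Nat.even_add_one]; exact not_not.2 hm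
    rw [if_pos hm, if_neg h1]
    exact h.nt x
  · have h1 : Even (m + 1) := by rw [Nat.even_add_one]; exact hm
    rw [if_neg hm, if_pos h1]
    exact h.tn x

theorem TKb_the_d (h : Ops d τ ν) (m : ℕ) (x : E) : d (the τ ν m x) = the τ ν m (d x) := by
  unfold the
  split_ifs
  · exact h.dt x
  · exact h.dn x

theorem TKb_the_mem {B : ℕ → Submodule F E} (hB : Sub d τ ν B) (m j : ℕ) {x : E}
    (hx : x ∈ B j) : the τ ν m x ∈ B j := by
  unfold the
  split_ifs
  · exact hB.t j x hx
  · exact hB.n j x hx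

theorem TKb_zero (d τ ν : E →ₗ[F] E) (k : ℕ) (x : ℕ → E) :
    del d τ ν k x 0 = the τ ν k (x 0) := by
  change (0 : E) + (-1 : F) ^ 0 • the τ ν (k + 0) (x 0) = _
  simp

theorem TKb_succ (d τ ν : E →ₗ[F] E) (k : ℕ) (x : ℕ → E) (j : ℕ) :
    del d τ ν k x (j + 1) = d (x j) + (-1 : F) ^ (j + 1) • the τ ν (k + (j + 1)) (x (j + 1)) :=
  rfl

theorem TKb_d_del (h : Ops d τ ν) (k : ℕ) (x : ℕ → E) (j : ℕ) :
    d (del d τ ν k x j) = (-1 : F) ^ j • the τ ν (k + j) (d (x j)) := by
  cases j with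
  | zero => rw [TKb_zero, TKb_the_d h]; simp
  | succ j => rw [TKb_succ, map_add, h.dd, zero_add, map_smul, TKb_the_d h]

theorem del_del (h : Ops d τ ν) (k : ℕ) (x : ℕ → E) : del d τ ν (k + 1) (del d τ ν k x) = 0 := by
  ext j
  cases j with
  | zero =>
    rw [TKb_zero, TKb_zero, TKb_the_the h]
    rfl
  | succ j =>
    rw [TKb_succ, TKb_d_del h, TKb_succ, map_add, map_smul,
      show k + 1 + (j + 1) = k + (j + 1) + 1 by ring, TKb_the_the h, smul_zero, add_zero,
      show k + (j + 1) + 1 = k + j + 2 by ring, TKb_the_two, pow_succ]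
    simp

/-- the differentials depend on the parity only -/
theorem del_two (d τ ν : E →ₗ[F] E) (k : ℕ) : del d τ ν (k + 2) = del d τ ν k := by
  ext x j
  cases j with
  | zero => rw [TKb_zero, TKb_zero, TKb_the_two]
  | succ j =>
    rw [TKb_succ, TKb_succ, show k + 2 + (j + 1) = k + (j + 1) + 2 by ring, TKb_the_two]

theorem mem_sq {B : ℕ → Submodule F E} {x : ℕ → E} : x ∈ sq B ↔ ∀ j, x j ∈ B j := by
  unfold sq
  rw [Submodule.mem_pi]
  simp

theorem Sub.del {B : ℕ → Submodule F E} (hB : Sub d τ ν B) (k : ℕ) {x : ℕ → E} (hx : x ∈ sq B) :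
    ST.del d τ ν k x ∈ sq B := by
  rw [mem_sq] at hx ⊢
  intro j
  cases j with
  | zero =>
    rw [TKb_zero]
    exact TKb_the_mem hB _ _ (hx 0)
  | succ j =>
    rw [TKb_succ]
    exact (B (j + 1)).add_mem (hB.d j _ (hx j))
      ((B (j + 1)).smul_mem _ (TKb_the_mem hB _ _ (hx (j + 1))))

theorem TKb_sq_mono {A B : ℕ → Submodule F E} (hAB : ∀ j, A j ≤ B j) : sq A ≤ sq B := by
  intro x hx
  rw [mem_sq] at hx ⊢
  exact fun j => hAB j (hx j)

theorem TKb_del_del' (h : Ops d τ ν) (k : ℕ) (x : ℕ → E) :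
    del d τ ν k (del d τ ν (k + 1) x) = 0 := by
  rw [← del_two d τ ν k]
  exact del_del h (k + 1) x

/-- transitivity -/
theorem TK.trans (h : Ops d τ ν) {A B C : ℕ → Submodule F E} (hA : Sub d τ ν A)
    (hAB : ∀ j, A j ≤ B j) (hBC : ∀ j, B j ≤ C j) {k r s : ℕ} (h1 : TK d τ ν k C B r)
    (h2 : TK d τ ν k B A s) : TK d τ ν k C A (r + s) :=
  RK.trans h1 h2 (TKb_sq_mono hAB) (TKb_sq_mono hBC) fun y _ => by
    rw [TKb_del_del' h]
    exact (sq A).zero_mem

/-- dividing by an exact subcomplex -/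
theorem TK.quot (h : Ops d τ ν) {A B C : ℕ → Submodule F E} (hA : Sub d τ ν A)
    (hAB : ∀ j, A j ≤ B j) (hBC : ∀ j, B j ≤ C j) {k r : ℕ} (h1 : TK d τ ν (k + 1) B A 0)
    (h2 : TK d τ ν k C A r) : TK d τ ν k C B r := by
  unfold TK at h1 h2 ⊢
  rw [show k + 1 + 1 = k + 2 by ring, del_two] at h1
  refine RK.quot h1 h2 (fun x _ => ?_) (TKb_sq_mono hBC) (TKb_sq_mono hAB)
  rw [del_del h]
  exact (sq A).zero_mem

/-- passing to a subcomplex with exact quotient -/
theorem TK.sub (h : Ops d τ ν) {A B C : ℕ → Submodule F E} (hB : Sub d τ ν B)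
    (hAB : ∀ j, A j ≤ B j) (hBC : ∀ j, B j ≤ C j) {k r : ℕ} (h1 : TK d τ ν (k + 1) C B 0)
    (h2 : TK d τ ν k C A r) : TK d τ ν k B A r := by
  unfold TK at h1 h2 ⊢
  exact RK.sub h1 h2 (TKb_sq_mono hBC) (TKb_sq_mono hAB) fun y _ => TKb_del_del' h (k + 1) y

/-- the total differential of a sequence concentrated in one degree -/
theorem TKb_single (d τ ν : E →ₗ[F] E) (k i : ℕ) (y : E) (j : ℕ) :
    del d τ ν k (Pi.single i y) j =
      (Pi.single i ((-1 : F) ^ i • the τ ν (k + i) y) : ℕ → E) j +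
        (Pi.single (i + 1) (d y) : ℕ → E) j := by
  cases j with
  | zero =>
    rw [TKb_zero]
    by_cases hi : i = 0
    · subst hi
      simp
    · rw [Pi.single_eq_of_ne (Ne.symm hi), Pi.single_eq_of_ne (Ne.symm hi),
        Pi.single_eq_of_ne (by omega)]
      simp
  | succ j =>
    rw [TKb_succ]
    by_cases h1 : j = i
    · subst h1
      rw [Pi.single_eq_same, Pi.single_eq_same, Pi.single_eq_of_ne (by omega),
        Pi.single_eq_of_ne (by omega)]
      simp
    · rw [Pi.single_eq_of_ne h1, Pi.single_eq_of_ne (i := i + 1) (by omega)]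
      by_cases h2 : j + 1 = i
      · subst h2
        rw [Pi.single_eq_same, Pi.single_eq_same]
        simp
      · rw [Pi.single_eq_of_ne h2, Pi.single_eq_of_ne h2]
        simp

/-- the filtration by the degree -/
noncomputable def TKb_S (d : E →ₗ[F] E) (B A : ℕ → Submodule F E) (i : ℕ) :
    ℕ → Submodule F E := fun j =>
  if j + 1 < i then B j else if j + 1 = i then B j ⊓ (A (j + 1)).comap d else A j

theorem TKb_S_lt (d : E →ₗ[F] E) (B A : ℕ → Submodule F E) {i j : ℕ} (h : j + 1 < i) :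
    TKb_S d B A i j = B j := by
  simp [TKb_S, h]

theorem TKb_S_eq (d : E →ₗ[F] E) (B A : ℕ → Submodule F E) (j : ℕ) :
    TKb_S d B A (j + 1) j = B j ⊓ (A (j + 1)).comap d := by
  simp [TKb_S]

theorem TKb_S_gt (d : E →ₗ[F] E) (B A : ℕ → Submodule F E) {i j : ℕ} (h : i ≤ j) :
    TKb_S d B A i j = A j := by
  unfold TKb_S
  rw [if_neg (by omega), if_neg (by omega)]

theorem TKb_A_le_S {A B : ℕ → Submodule F E} (hA : Sub d τ ν A) (hAB : ∀ j, A j ≤ B j)
    (i j : ℕ) : A j ≤ TKb_S d B A i j := by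
  rcases lt_trichotomy (j + 1) i with h1 | h1 | h1
  · rw [TKb_S_lt d B A h1]
    exact hAB j
  · subst h1
    rw [TKb_S_eq]
    exact le_inf (hAB j) fun x hx => hA.d j x hx
  · rw [TKb_S_gt d B A (by omega)]

theorem TKb_S_le {A B : ℕ → Submodule F E} (hA : Sub d τ ν A) (hAB : ∀ j, A j ≤ B j)
    (i j : ℕ) : TKb_S d B A i j ≤ TKb_S d B A (i + 1) j := by
  rcases lt_trichotomy (j + 1) i with h1 | h1 | h1
  · rw [TKb_S_lt d B A h1, TKb_S_lt d B A (by omega)]
  · subst h1
    rw [TKb_S_eq, TKb_S_lt d B A (by omega)]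
    exact inf_le_left
  · rw [TKb_S_gt d B A (by omega)]
    exact TKb_A_le_S hA hAB _ _

theorem TKb_S_top {A B : ℕ → Submodule F E} (hB : Sub d τ ν B)
    (hAB : ∀ j, A j ≤ B j) (J : ℕ) (hJ : ∀ j, J ≤ j → B j ≤ A j) : TKb_S d B A J = B := by
  funext j
  rcases lt_trichotomy (j + 1) J with h1 | h1 | h1
  · rw [TKb_S_lt d B A h1]
  · subst h1
    rw [TKb_S_eq]
    exact inf_eq_left.2 fun x hx => hJ _ le_rfl (hB.d j x hx)
  · rw [TKb_S_gt d B A (by omega)]
    exact le_antisymm (hAB j) (hJ j (by omega))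

theorem TKb_refl (A : ℕ → Submodule F E) (k : ℕ) : TK d τ ν k A A 0 := by
  unfold TK
  rw [RK_zero]
  intro x hx _
  exact ⟨0, (sq A).zero_mem, by simpa using hx⟩

theorem TKb_S_step (h : Ops d τ ν) {A B : ℕ → Submodule F E} (hA : Sub d τ ν A)
    (hB : Sub d τ ν B) (i r : ℕ) (hr : HK d B A i r) (k : ℕ) :
    TK d τ ν k (TKb_S d B A (i + 1)) (TKb_S d B A i) r := by
  obtain ⟨ℓ, hℓ⟩ := hr
  refine ⟨ℓ.comp (LinearMap.proj i), fun x hx hx2 h0 => ?_⟩
  rw [mem_sq] at hx hx2
  have hxi := hx i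
  rw [TKb_S_eq] at hxi
  obtain ⟨y, hy, hxy⟩ := hℓ (x i) hxi.1 hxi.2 h0
  cases i with
  | zero =>
    have hy0 : y = 0 := by simpa [pr] using hy
    subst hy0
    refine ⟨0, Submodule.zero_mem _, ?_⟩
    rw [mem_sq]
    intro j
    rw [TKb_S_gt d B A (Nat.zero_le _), map_zero, sub_zero]
    cases j with
    | zero => simpa using hxy
    | succ j =>
      have := hx (j + 1)
      rwa [TKb_S_gt d B A (by omega)] at this
  | succ i =>
    have hy' : y ∈ B i := hy
    have hdd : del d τ ν k (x - del d τ ν (k + 1) (Pi.single i y)) = del d τ ν k x := by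
      rw [map_sub, TKb_del_del' h, sub_zero]
    set x' : ℕ → E := x - del d τ ν (k + 1) (Pi.single i y) with hx'
    have e1 : x' (i + 1) = x (i + 1) - d y := by
      rw [hx', Pi.sub_apply, TKb_single, Pi.single_eq_of_ne (by omega), Pi.single_eq_same,
        zero_add]
    have e2 : x' i = x i - (-1 : F) ^ i • the τ ν (k + 1 + i) y := by
      rw [hx', Pi.sub_apply, TKb_single, Pi.single_eq_same, Pi.single_eq_of_ne (by omega),
        add_zero]
    have e3 : ∀ j, j ≠ i → j ≠ i + 1 → x' j = x j := by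
      intro j h1 h2
      rw [hx', Pi.sub_apply, TKb_single, Pi.single_eq_of_ne h1, Pi.single_eq_of_ne h2, add_zero,
        sub_zero]
    have hA1 : x' (i + 1) ∈ A (i + 1) := by rw [e1]; exact hxy
    have hB1 : x' i ∈ B i := by
      have h3 := hx i
      rw [TKb_S_lt d B A (by omega)] at h3
      rw [e2]
      exact (B i).sub_mem h3 ((B i).smul_mem _ (TKb_the_mem hB _ _ hy'))
    have hA2 : d (x' i) ∈ A (i + 1) := by
      have h3 := hx2 (i + 1)
      rw [TKb_S_gt d B A le_rfl, ← hdd, TKb_succ] at h3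
      have h4 := (A (i + 1)).smul_mem ((-1 : F) ^ (i + 1))
        (TKb_the_mem hA (k + (i + 1)) _ hA1)
      have h5 := (A (i + 1)).sub_mem h3 h4
      rwa [add_sub_cancel_right] at h5
    refine ⟨Pi.single i y, ?_, ?_⟩
    · rw [mem_sq]
      intro j
      by_cases hj : j = i
      · subst hj
        rw [Pi.single_eq_same, TKb_S_lt d B A (by omega)]
        exact hy'
      · rw [Pi.single_eq_of_ne hj]
        exact Submodule.zero_mem _
    · rw [← hx', mem_sq]
      intro j
      rcases lt_trichotomy (j + 1) (i + 1) with h1 | h1 | h1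
      · rw [TKb_S_lt d B A h1, e3 j (by omega) (by omega)]
        have := hx j
        rwa [TKb_S_lt d B A (by omega)] at this
      · obtain rfl : j = i := by omega
        rw [TKb_S_eq]
        exact ⟨hB1, hA2⟩
      · rw [TKb_S_gt d B A (by omega)]
        by_cases h2 : j = i + 1
        · subst h2
          exact hA1
        · rw [e3 j (by omega) h2]
          have := hx j
          rwa [TKb_S_gt d B A (by omega)] at this

/-- The rank of the Tate cohomology is at most the sum of the ranks in the single degrees. -/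
theorem TK_of_HK (h : Ops d τ ν) {A B : ℕ → Submodule F E} (hA : Sub d τ ν A) (hB : Sub d τ ν B)
    (hAB : ∀ j, A j ≤ B j) (J : ℕ) (hJ : ∀ j, J ≤ j → B j ≤ A j) (r : ℕ → ℕ)
    (hr : ∀ j < J, HK d B A j (r j)) (k : ℕ) : TK d τ ν k B A (∑ j ∈ Finset.range J, r j) := by
  have key : ∀ n ≤ J, TK d τ ν k (TKb_S d B A n) A (∑ j ∈ Finset.range n, r j) := by
    intro n
    induction n with
    | zero =>
      intro _
      have h0 : TKb_S d B A 0 = A := funext fun j => TKb_S_gt d B A (Nat.zero_le j)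
      rw [h0]
      exact TKb_refl A k
    | succ n ih =>
      intro hn
      have h1 := TK.trans h hA (TKb_A_le_S hA hAB n) (TKb_S_le hA hAB n)
        (TKb_S_step h hA hB n (r n) (hr n (by omega)) k) (ih (by omega))
      rw [Finset.sum_range_succ, add_comm (∑ x ∈ Finset.range n, r x) (r n)]
      exact h1
  have h1 := key J le_rfl
  rwa [TKb_S_top hB hAB J hJ] at h1

/-- the filtration from above -/
noncomputable def TKb_U (B A : ℕ → Submodule F E) (m : ℕ) : ℕ → Submodule F E := fun j =>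
  if j < m then A j else B j

theorem TKb_U_lt (B A : ℕ → Submodule F E) {m j : ℕ} (h : j < m) : TKb_U B A m j = A j := by
  simp [TKb_U, h]

theorem TKb_U_ge (B A : ℕ → Submodule F E) {m j : ℕ} (h : m ≤ j) : TKb_U B A m j = B j := by
  unfold TKb_U
  rw [if_neg (by omega)]

theorem TKb_U_step {A B : ℕ → Submodule F E} (hA : Sub d τ ν A)
    (hB : Sub d τ ν B)
    (h1 : ∀ j, ∀ x ∈ B j, τ x ∈ A j → ∃ y ∈ B j, x - ν y ∈ A j)
    (h2 : ∀ j, ∀ x ∈ B j, ν x ∈ A j → ∃ y ∈ B j, x - τ y ∈ A j) (m k : ℕ) :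
    TK d τ ν k (TKb_U B A m) (TKb_U B A (m + 1)) 0 := by
  unfold TK
  rw [RK_zero]
  intro x hx hx2
  rw [mem_sq] at hx hx2
  have hxm : x m ∈ B m := by
    have := hx m
    rwa [TKb_U_ge B A le_rfl] at this
  have hth : the τ ν (k + m) (x m) ∈ A m := by
    have h3 := hx2 m
    rw [TKb_U_lt B A (by omega)] at h3
    cases m with
    | zero => rwa [TKb_zero] at h3
    | succ m =>
      rw [TKb_succ] at h3
      have h4 := hx m
      rw [TKb_U_lt B A (by omega)] at h4
      have h5 := (A (m + 1)).sub_mem h3 (hA.d m _ h4)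
      rw [add_sub_cancel_left] at h5
      have h6 := (A (m + 1)).smul_mem ((-1 : F) ^ (m + 1)) h5
      rw [smul_smul, ← mul_pow] at h6
      simpa using h6
  obtain ⟨y, hy, hxy⟩ : ∃ y ∈ B m, x m - the τ ν (k + m + 1) y ∈ A m := by
    unfold the at hth ⊢
    by_cases hm : Even (k + m)
    · have h3 : ¬ Even (k + m + 1) := by rw [Nat.even_add_one]; exact not_not.2 hm
      rw [if_pos hm] at hth
      rw [if_neg h3]
      exact h1 m _ hxm hth
    · have h3 : Even (k + m + 1) := by rw [Nat.even_add_one]; exact hm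
      rw [if_neg hm] at hth
      rw [if_pos h3]
      exact h2 m _ hxm hth
  refine ⟨Pi.single m ((-1 : F) ^ m • y), ?_, ?_⟩
  · rw [mem_sq]
    intro j
    by_cases hj : j = m
    · subst hj
      rw [Pi.single_eq_same, TKb_U_ge B A le_rfl]
      exact (B j).smul_mem _ hy
    · rw [Pi.single_eq_of_ne hj]
      exact Submodule.zero_mem _
  · rw [mem_sq]
    intro j
    rw [Pi.sub_apply, TKb_single]
    by_cases hj : j = m
    · subst hj
      rw [Pi.single_eq_same, Pi.single_eq_of_ne (by omega), add_zero, TKb_U_lt B A (by omega),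
        map_smul, smul_smul, ← mul_pow, show k + 1 + j = k + j + 1 by ring]
      simpa using hxy
    · rw [Pi.single_eq_of_ne hj, zero_add]
      by_cases hj2 : j = m + 1
      · subst hj2
        rw [Pi.single_eq_same, TKb_U_ge B A le_rfl]
        have h3 := hx (m + 1)
        rw [TKb_U_ge B A (by omega)] at h3
        exact (B (m + 1)).sub_mem h3 (hB.d m _ ((B m).smul_mem _ hy))
      · rw [Pi.single_eq_of_ne hj2, sub_zero]
        have h3 := hx j
        rcases lt_or_ge j m with h4 | h4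
        · rw [TKb_U_lt B A h4] at h3
          rwa [TKb_U_lt B A (by omega)]
        · rw [TKb_U_ge B A h4] at h3
          rwa [TKb_U_ge B A (by omega)]

/-- Tate exactness in each degree. -/
theorem TK_of_free (h : Ops d τ ν) {A B : ℕ → Submodule F E} (hA : Sub d τ ν A)
    (hB : Sub d τ ν B) (hAB : ∀ j, A j ≤ B j) (J : ℕ) (hJ : ∀ j, J ≤ j → B j ≤ A j)
    (h1 : ∀ j, ∀ x ∈ B j, τ x ∈ A j → ∃ y ∈ B j, x - ν y ∈ A j)
    (h2 : ∀ j, ∀ x ∈ B j, ν x ∈ A j → ∃ y ∈ B j, x - τ y ∈ A j) (k : ℕ) :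
    TK d τ ν k B A 0 := by
  have hAU : ∀ m j, A j ≤ TKb_U B A m j := by
    intro m j
    rcases lt_or_ge j m with h4 | h4
    · rw [TKb_U_lt B A h4]
    · rw [TKb_U_ge B A h4]
      exact hAB j
  have hUU : ∀ m j, TKb_U B A (m + 1) j ≤ TKb_U B A m j := by
    intro m j
    rcases lt_or_ge j (m + 1) with h4 | h4
    · rw [TKb_U_lt B A h4]
      exact hAU m j
    · rw [TKb_U_ge B A h4, TKb_U_ge B A (by omega)]
  have key : ∀ n m, m + n = J → TK d τ ν k (TKb_U B A m) A 0 := by
    intro n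
    induction n with
    | zero =>
      intro m hm
      have h0 : TKb_U B A m = A := by
        funext j
        rcases lt_or_ge j m with h4 | h4
        · rw [TKb_U_lt B A h4]
        · rw [TKb_U_ge B A h4]
          exact le_antisymm (hJ j (by omega)) (hAB j)
      rw [h0]
      exact TKb_refl A k
    | succ n ih =>
      intro m hm
      exact TK.trans h hA (hAU (m + 1)) (hUU m) (TKb_U_step hA hB h1 h2 m k)
        (ih (m + 1) (by omega))
  have h3 := key J 0 (by omega)
  have h0 : TKb_U B A 0 = B := funext fun j => TKb_U_ge B A (Nat.zero_le j)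
  rwa [h0] at h3

end Pool.Agent.H47.ST
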