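import Pool.Agent.H47.ST.StarC

/-!
# Filtration by the values of a function on the vertices
-/

set_option autoImplicit false

namespace Pool.Agent.H47.ST

variable {ι : Type*} [Fintype ι] [DecidableEq ι] {F : Type*} [Field F]

/-- `v` is a regular vertex of the function `g` in `B \ A`. -/
def RegV (A B : Set (ι → ℤ)) (g : (ι → ℤ) → ℝ) (v : ι → ℤ) : Prop :=
  ∃ (i : ι) (s : Bool), ∀ w, Nr v w → sz s * (w i - v i) ≤ 0 →
    (w = v ∨ w ∈ A ∨ (w ∈ B ∧ g w ≤ g v)) →
      (w + Pi.single i (sz s) ∈ A ∨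
        (w + Pi.single i (sz s) ∈ B ∧ g (w + Pi.single i (sz s)) < g v))

/-- `v` is a critical vertex with the sign pattern `e` of the function `g` in `B \ A`. -/
def CriV (A B : Set (ι → ℤ)) (g : (ι → ℤ) → ℝ) (v : ι → ℤ) (e : ι → Bool) : Prop :=
  (∀ w, Nr v w → w ∈ B ∧ w ∉ A) ∧
  (∀ i, e i = true → ∀ s, g v < g (v + Pi.single i (sz s))) ∧
  (∀ w, Nr v w → ∀ i, e i = true → w i ≠ v i → g (Function.update w i (v i)) < g w) ∧
  (∀ w, Nr v w → w ≠ v → (∀ i, e i = true → w i = v i) → g w < g v)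

/-- extension of a cochain on the star of `v` to an invariant one -/
noncomputable def Lev_ext (L : AddSubgroup (ι → ℤ)) (v : ι → ℤ) (b : Co ι F) : Co ι F :=
  open Classical in fun σ =>
    if h : ∃ l ∈ L, v + l ∈ σ then b (tr (-(Classical.choose h)) σ) else 0

omit [DecidableEq ι] in
theorem Lev_unique {L : AddSubgroup (ι → ℤ)} (hW : Wide L) {v : ι → ℤ} {σ : Finset (ι → ℤ)}
    (hS : Simp σ) {l l' : ι → ℤ} (hl : l ∈ L) (hl' : l' ∈ L) (h : v + l ∈ σ)
    (h' : v + l' ∈ σ) : l = l' := by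
  have h1 := StarR_near (hS _ h _ h')
  have h2 : l' - l = 0 := by
    refine hW _ (L.sub_mem hl' hl) fun i => ?_
    have h3 := h1 i
    simp only [Pi.add_apply, add_sub_add_left_eq_sub] at h3
    exact h3
  exact (sub_eq_zero.1 h2).symm

omit [DecidableEq ι] in
theorem Lev_ext_eq {L : AddSubgroup (ι → ℤ)} (hW : Wide L) {v : ι → ℤ} {b : Co ι F}
    (hb : ∀ σ, b σ ≠ 0 → Simp σ) {σ : Finset (ι → ℤ)} {l : ι → ℤ} (hl : l ∈ L)
    (h : v + l ∈ σ) : Lev_ext L v b σ = b (tr (-l) σ) := by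
  have h' : ∃ l ∈ L, v + l ∈ σ := ⟨l, hl, h⟩
  have e1 : Lev_ext L v b σ = b (tr (-(Classical.choose h')) σ) := by
    unfold Lev_ext
    rw [dif_pos h']
  rw [e1]
  by_cases hS : Simp σ
  · rw [Lev_unique hW hS (Classical.choose_spec h').1 hl (Classical.choose_spec h').2 h]
  · have h2 : ∀ m : ι → ℤ, b (tr m σ) = 0 := by
      intro m
      by_contra h3
      exact hS (CellA_tr_Simp.1 (hb _ h3))
    rw [h2, h2]

omit [DecidableEq ι] in
theorem Lev_ext_zero {L : AddSubgroup (ι → ℤ)} {v : ι → ℤ} {b : Co ι F}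
    {σ : Finset (ι → ℤ)} (h : ∀ l ∈ L, v + l ∉ σ) : Lev_ext L v b σ = 0 := by
  unfold Lev_ext
  rw [dif_neg]
  rintro ⟨l, hl, h1⟩
  exact h l hl h1

omit [Fintype ι] [DecidableEq ι] in
theorem Lev_tr_tr (a b : ι → ℤ) (σ : Finset (ι → ℤ)) : tr a (tr b σ) = tr (b + a) σ := by
  ext w
  simp only [CellA_tr_mem]
  constructor
  · rintro ⟨u, ⟨x, hx, rfl⟩, rfl⟩
    exact ⟨x, hx, (add_assoc _ _ _).symm⟩
  · rintro ⟨x, hx, rfl⟩
    exact ⟨x + b, ⟨x, hx, rfl⟩, add_assoc _ _ _⟩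

omit [Fintype ι] [DecidableEq ι] in
theorem Lev_tr_zero (σ : Finset (ι → ℤ)) : tr 0 σ = σ := by
  ext w
  simp only [CellA_tr_mem, add_zero, exists_eq_right]

/-- the extension is an invariant cochain -/
theorem Lev_ext_mem {L : AddSubgroup (ι → ℤ)} (hW : Wide L) {A B : Set (ι → ℤ)} (hA : Inv L A)
    {v : ι → ℤ} (hv : v ∉ A) (hB : ∀ w, w ∈ B ↔ w ∈ A ∨ w - v ∈ L) {j : ℕ} {b : Co ι F}
    (hb : b ∈ su F (LS A v) j) : Lev_ext L v b ∈ co (F := F) L B A j := by
  have hS : ∀ σ, b σ ≠ 0 → Simp σ := fun σ hσ => (hb σ hσ).1.1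
  refine ⟨fun m hm σ => ?_, fun σ hσ => ?_⟩
  · by_cases h : ∃ l ∈ L, v + l ∈ σ
    · obtain ⟨l, hl, h1⟩ := h
      have h2 : v + (l + m) ∈ tr m σ := CellA_tr_mem.2 ⟨v + l, h1, add_assoc _ _ _⟩
      rw [Lev_ext_eq hW hS hl h1, Lev_ext_eq hW hS (L.add_mem hl hm) h2, Lev_tr_tr]
      congr 2
      abel
    · have h1 : ∀ l ∈ L, v + l ∉ σ := fun l hl h2 => h ⟨l, hl, h2⟩
      rw [Lev_ext_zero h1, Lev_ext_zero]
      intro l hl h2
      obtain ⟨w, hw, he⟩ := CellA_tr_mem.1 h2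
      refine h1 (l - m) (L.sub_mem hl hm) ?_
      have h3 : v + (l - m) = w := by
        rw [← add_sub_assoc, ← he, add_sub_cancel_right]
      rw [h3]
      exact hw
  · have h : ∃ l ∈ L, v + l ∈ σ := by
      by_contra h
      exact hσ (Lev_ext_zero fun l hl h2 => h ⟨l, hl, h2⟩)
    obtain ⟨l, hl, h1⟩ := h
    rw [Lev_ext_eq hW hS hl h1] at hσ
    obtain ⟨h2, h3⟩ := hb _ hσ
    refine ⟨⟨CellA_tr_Simp.1 h2.1, fun w hw => ?_⟩, fun h4 => ?_, ?_⟩
    · rw [hB]
      by_cases hwv : w + -l = v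
      · right
        rw [← hwv]
        have : w - (w + -l) = l := by abel
        rw [this]
        exact hl
      · left
        have h4 := h2.2.2 (w + -l) (CellA_tr_mem.2 ⟨w, hw, rfl⟩) hwv
        exact (hA (-l) (L.neg_mem hl) w).2 h4
    · exact hv ((hA l hl v).2 (h4 _ h1))
    · rw [← h3]
      exact (Finset.card_map _).symm

/-- One level: `B` is `A` together with the orbit of `v`. -/
theorem HR_level (L : AddSubgroup (ι → ℤ)) (hW : Wide L) (A B : Set (ι → ℤ)) (hA : Inv L A)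
    (v : ι → ℤ) (hv : v ∉ A) (hB : ∀ w, w ∈ B ↔ w ∈ A ∨ w - v ∈ L) (j r : ℕ)
    (h : EX F (LS A v) j r) : HR F L B A j r := by
  classical
  have hIB : Inv L B := by
    intro l hl w
    rw [hB, hB, ← hA l hl w]
    refine or_congr_right ?_
    have : w + l - v = (w - v) + l := by abel
    rw [this]
    exact (L.add_mem_cancel_right hl).symm
  have hvB : v ∈ B := (hB v).2 (Or.inr (by rw [sub_self]; exact L.zero_mem))
  have hAB : A ⊆ B := fun w hw => (hB w).2 (Or.inl hw)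
  have hInB : ∀ σ, LS A v σ → In B σ := fun σ hσ => ⟨hσ.1, fun w hw => by
    by_cases hwv : w = v
    · rw [hwv]; exact hvB
    · exact hAB (hσ.2.2 w hw hwv)⟩
  obtain ⟨ℓ, h⟩ := h
  refine ⟨ℓ.comp (cut (LS A v)), fun c hc hdc h0 => ?_⟩
  rw [Submodule.mem_bot] at hdc
  obtain ⟨hc1, hc2⟩ := id hc
  have hcA : ∀ σ : Finset (ι → ℤ), (∀ w ∈ σ, w ∈ A) → c σ = 0 := by
    intro σ hσ
    by_contra h1
    exact (hc2 σ h1).2.1 hσ
  have herA : ∀ σ, LS A v σ → ∀ w ∈ σ.erase v, w ∈ A := fun σ hσ w hw =>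
    hσ.2.2 w (Finset.mem_of_mem_erase hw) (Finset.ne_of_mem_erase hw)
  have herL : ∀ σ, LS A v σ → ∀ w, w ≠ v → LS A v (σ.erase w) := fun σ hσ w hwv =>
    ⟨hσ.1.mono (Finset.erase_subset _ _), Finset.mem_erase.2 ⟨hwv.symm, hσ.2.1⟩,
      fun u hu hne => hσ.2.2 u (Finset.mem_of_mem_erase hu) hne⟩
  have hnL : ∀ σ : Finset (ι → ℤ), ¬ LS A v (σ.erase v) := fun σ hσ =>
    absurd hσ.2.1 (Finset.notMem_erase v σ)
  have h1 : cut (LS A v) c ∈ su F (LS A v) (j + 1) := by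
    intro σ hσ
    rw [cut_apply] at hσ
    by_cases h2 : LS A v σ
    · rw [if_pos h2] at hσ
      exact ⟨h2, (hc2 σ hσ).2.2⟩
    · rw [if_neg h2] at hσ
      exact absurd rfl hσ
  have h2 : dS (LS A v) (cut (LS A v) c) ∈ (⊥ : Submodule F (Co ι F)) := by
    rw [Submodule.mem_bot]
    ext σ
    rw [dS_apply]
    split_ifs with h3
    · have h4 : dX B c σ = 0 := by rw [hdc]; rfl
      rw [dX_apply, if_pos (hInB σ h3)] at h4
      rw [Pi.zero_apply, ← h4]
      refine Finset.sum_congr rfl fun w _ => ?_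
      by_cases hwv : w = v
      · subst hwv
        rw [cut_apply, if_neg (hnL σ), hcA _ (herA σ h3)]
      · rw [cut_apply, if_pos (herL σ h3 w hwv)]
    · rfl
  obtain ⟨b, hb, hcb⟩ := h _ h1 h2 h0
  rw [Submodule.mem_bot, sub_eq_zero] at hcb
  have hS : ∀ σ, b σ ≠ 0 → Simp σ := fun σ hσ => (hb σ hσ).1.1
  have hbm := Lev_ext_mem hW hA hv hB hb
  refine ⟨_, hbm, ?_⟩
  have he : c - dX B (Lev_ext L v b) ∈ co (F := F) L B A (j + 1) :=
    Submodule.sub_mem _ hc (dX_mem hIB hbm)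
  rw [Submodule.mem_bot]
  ext σ
  by_contra hσ
  obtain ⟨h3, h4, -⟩ := he.2 σ hσ
  obtain ⟨w, hw, hwA⟩ : ∃ w ∈ σ, w ∉ A := by
    by_contra h5
    exact h4 fun w hw => by
      by_contra h6
      exact h5 ⟨w, hw, h6⟩
  have hl : w - v ∈ L := ((hB w).1 (h3.2 w hw)).resolve_left hwA
  have h5 := he.1 (-(w - v)) (L.neg_mem hl) σ
  rw [← h5] at hσ
  set τ := tr (-(w - v)) σ with hτ
  have hvτ : v ∈ τ := CellA_tr_mem.2 ⟨w, hw, by abel⟩
  have hInτ : In B τ := (CellA_tr_In hIB (L.neg_mem hl)).2 h3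
  have hLS : LS A v τ := by
    refine ⟨hInτ.1, hvτ, fun u hu hne => ?_⟩
    rcases (hB u).1 (hInτ.2 u hu) with h6 | h6
    · exact h6
    · exfalso
      apply hne
      have h7 := Lev_unique (v := v) hW hInτ.1 L.zero_mem h6 (by rwa [add_zero])
        (by rwa [add_sub_cancel])
      exact (sub_eq_zero.1 h7.symm)
  apply hσ
  have h6 := congrFun hcb τ
  rw [cut_apply, if_pos hLS, dS_apply, if_pos hLS] at h6
  rw [Pi.sub_apply, dX_apply, if_pos hInτ, h6, Pi.zero_apply, sub_eq_zero]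
  refine Finset.sum_congr rfl fun u hu => ?_
  by_cases huv : u = v
  · subst huv
    have h7 : b (τ.erase u) = 0 := by
      by_contra h8
      exact hnL τ (hb _ h8).1
    rw [h7, Lev_ext_zero]
    intro l hl h8
    exact hv ((hA l hl u).2 (herA τ hLS _ h8))
  · rw [Lev_ext_eq hW hS L.zero_mem (by
      rw [add_zero]
      exact Finset.mem_erase.2 ⟨Ne.symm huv, hvτ⟩), neg_zero, Lev_tr_zero]

/-- composition of two bands -/
theorem HR.comp {L : AddSubgroup (ι → ℤ)} {A B C : Set (ι → ℤ)} (hB : Inv L B) (hC : Inv L C)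
    (hAB : A ⊆ B) (hBC : B ⊆ C) {j r s : ℕ} (h1 : HR F L B A j r) (h2 : HR F L C B j s) :
    HR F L C A j (r + s) := by
  have h3 := HR.rel hC hB hAB hBC h1
  exact RK.trans h3 h2 bot_le (co_anti hAB j) fun y _ => by
    rw [dX_dX]
    exact Submodule.zero_mem _

theorem Lev_self (L : AddSubgroup (ι → ℤ)) (A : Set (ι → ℤ)) (j r : ℕ) : HR F L A A j r := by
  refine ⟨0, fun x hx _ _ => ⟨0, Submodule.zero_mem _, ?_⟩⟩
  rw [co_self, Submodule.mem_bot] at hx
  rw [hx, map_zero, sub_zero]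
  exact Submodule.zero_mem _

omit [Fintype ι] in
theorem Lev_near_single (d : ι → ℤ) (i : ι) (s : Bool) : Nr d (d + Pi.single i (sz s)) := by
  intro k
  rw [Pi.add_apply, add_sub_cancel_left]
  by_cases hk : k = i
  · subst hk
    rw [Pi.single_eq_same]
    cases s <;> simp [sz]
  · rw [Pi.single_eq_of_ne hk]
    simp

omit [Fintype ι] in
theorem Lev_near_update {d w : ι → ℤ} (h : Nr d w) (i : ι) :
    Nr d (Function.update w i (d i)) := by
  intro k
  by_cases hk : k = i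
  · subst hk
    rw [Function.update_self, sub_self, abs_zero]
    exact zero_le_one
  · rw [Function.update_of_ne hk]
    exact h k

open Classical in
theorem Lev_empty (L : AddSubgroup (ι → ℤ)) (A B : Set (ι → ℤ))
    (hA : Inv L A) (D : Finset (ι → ℤ)) (hD : ∀ v ∈ B, v ∉ A → ∃ l ∈ L, v + l ∈ D)
    (B' : Set (ι → ℤ)) (hAB' : A ⊆ B') (hB'B : B' ⊆ B) (hI : Inv L B')
    (hn : (D.filter fun d => d ∈ B' ∧ d ∉ A) = ∅) (j r : ℕ) : HR F L B' A j r := by
  have h1 : B' = A := by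
    refine Set.Subset.antisymm (fun v hv => ?_) hAB'
    by_contra hvA
    obtain ⟨l, hl, h2⟩ := hD v (hB'B hv) hvA
    have h4 : v + l ∈ D.filter fun d => d ∈ B' ∧ d ∉ A :=
      Finset.mem_filter.2 ⟨h2, (hI l hl v).1 hv, fun h5 => hvA ((hA l hl v).2 h5)⟩
    rw [hn] at h4
    exact absurd h4 (Finset.notMem_empty _)
  rw [h1]
  exact Lev_self L A j r

open Classical in
/-- the induction over the orbits -/
theorem Lev_band (L : AddSubgroup (ι → ℤ)) (hW : Wide L) (A B : Set (ι → ℤ))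
    (hA : Inv L A) (D : Finset (ι → ℤ)) (hD : ∀ v ∈ B, v ∉ A → ∃ l ∈ L, v + l ∈ D)
    (g : (ι → ℤ) → ℝ)
    (hg : ∀ l ∈ L, ∀ v, g (v + l) = g v) (Cr : Finset (ι → ℤ)) (e : (ι → ℤ) → ι → Bool)
    (h : ∀ v ∈ B, v ∉ A → RegV A B g v ∨ ∃ c ∈ Cr, v - c ∈ L ∧ CriV A B g v (e c)) (j : ℕ)
    (n : ℕ) : ∀ B' : Set (ι → ℤ), A ⊆ B' → B' ⊆ B → Inv L B' →
      (∀ w ∈ B', w ∉ A → ∀ w' ∈ B, g w' < g w → w' ∈ B') →
      (D.filter fun d => d ∈ B' ∧ d ∉ A).card ≤ n →
      ∀ r : ℕ, (Cr.filter fun c => nm (e c) = j ∧ c ∈ B' ∧ c ∉ A).card ≤ r →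
      HR F L B' A j r := by
  induction n with
  | zero =>
    intro B' hAB' hB'B hI hdown hn r hr
    exact Lev_empty L A B hA D hD B' hAB' hB'B hI (Finset.card_eq_zero.1 (Nat.le_zero.1 hn)) j r
  | succ n ih =>
    intro B' hAB' hB'B hI hdown hn r hr
    rcases (D.filter fun d => d ∈ B' ∧ d ∉ A).eq_empty_or_nonempty with hn0 | hne
    · exact Lev_empty L A B hA D hD B' hAB' hB'B hI hn0 j r
    obtain ⟨d, hd, hmax⟩ := Finset.exists_max_image _ g hne
    rw [Finset.mem_filter] at hd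
    obtain ⟨hdD, hdB', hdA⟩ := hd
    have hmax' : ∀ w ∈ B', w ∉ A → g w ≤ g d := by
      intro w hw hwA
      obtain ⟨l, hl, h2⟩ := hD w (hB'B hw) hwA
      rw [← hg l hl w]
      exact hmax _ (Finset.mem_filter.2 ⟨h2, (hI l hl w).1 hw, fun h5 => hwA ((hA l hl w).2 h5)⟩)
    set B'' : Set (ι → ℤ) := {w | w ∈ B' ∧ w - d ∉ L} with hB''
    have horb : ∀ w, g w < g d → w - d ∉ L := by
      intro w hw hl
      have h2 := hg _ hl d
      rw [add_sub_cancel] at h2
      rw [h2] at hw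
      exact lt_irrefl _ hw
    have hdB'' : d ∉ B'' := by
      rintro ⟨-, h2⟩
      rw [sub_self] at h2
      exact h2 L.zero_mem
    have hsub : B'' ⊆ B' := fun w hw => hw.1
    have hAB'' : A ⊆ B'' := by
      intro w hw
      refine ⟨hAB' hw, fun hl => hdA ?_⟩
      have h2 := (hA _ (L.neg_mem hl) w).1 hw
      have h3 : w + -(w - d) = d := by abel
      rwa [h3] at h2
    have hI'' : Inv L B'' := by
      intro l hl w
      show (w ∈ B' ∧ w - d ∉ L) ↔ (w + l ∈ B' ∧ w + l - d ∉ L)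
      rw [← hI l hl w]
      have : w + l - d = (w - d) + l := by abel
      rw [this, L.add_mem_cancel_right hl]
    have hdown'' : ∀ w ∈ B'', w ∉ A → ∀ w' ∈ B, g w' < g w → w' ∈ B'' := by
      intro w hw hwA w' hw' hlt
      exact ⟨hdown w hw.1 hwA w' hw' hlt, horb w' (lt_of_lt_of_le hlt (hmax' w hw.1 hwA))⟩
    have hbelow : ∀ w ∈ B, g w < g d → w ∈ B'' := fun w hw hlt =>
      ⟨hdown d hdB' hdA w hw hlt, horb w hlt⟩
    have hlev : ∀ w, w ∈ B' ↔ w ∈ B'' ∨ w - d ∈ L := by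
      intro w
      constructor
      · intro hw
        by_cases hl : w - d ∈ L
        · exact Or.inr hl
        · exact Or.inl ⟨hw, hl⟩
      · rintro (hw | hl)
        · exact hw.1
        · have h2 := (hI _ hl d).1 hdB'
          rwa [add_sub_cancel] at h2
    have hmem : ∀ w, w ∈ B'' ↔ w ∈ B' ∧ w - d ∉ L := fun w => Iff.rfl
    clear_value B''
    have hcard : (D.filter fun d => d ∈ B'' ∧ d ∉ A).card ≤ n := by
      have h2 : (D.filter fun d => d ∈ B'' ∧ d ∉ A) ⊆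
          (D.filter fun d => d ∈ B' ∧ d ∉ A).erase d := by
        intro w hw
        rw [Finset.mem_filter] at hw
        exact Finset.mem_erase.2 ⟨fun h3 => hdB'' (h3 ▸ hw.2.1),
          Finset.mem_filter.2 ⟨hw.1, hsub hw.2.1, hw.2.2⟩⟩
      have h3 := Finset.card_le_card h2
      rw [Finset.card_erase_of_mem (Finset.mem_filter.2 ⟨hdD, hdB', hdA⟩)] at h3
      omega
    rcases h d (hB'B hdB') hdA with hR | ⟨c, hc, hcd, hC⟩
    · -- a regular orbit
      obtain ⟨i, s, hR⟩ := hR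
      have hEX : EX F (LS B'' d) j 0 := by
        refine EX_regular B'' d i s hdB'' (fun w hw1 hw2 hw3 => ?_) j
        have h2 : w = d ∨ w ∈ A ∨ (w ∈ B ∧ g w ≤ g d) := by
          rcases hw3 with hw3 | hw3
          · exact Or.inl hw3
          · by_cases hwA : w ∈ A
            · exact Or.inr (Or.inl hwA)
            · exact Or.inr (Or.inr ⟨hB'B (hsub hw3), hmax' w (hsub hw3) hwA⟩)
        rcases hR w hw1 hw2 h2 with h3 | ⟨h3, h4⟩
        · exact hAB'' h3
        · exact hbelow _ h3 h4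
      have h2 := HR_level L hW B'' B' hI'' d hdB'' hlev j 0 hEX
      have h3 := ih B'' hAB'' (hsub.trans hB'B) hI'' hdown'' hcard r
        ((Finset.card_le_card fun x hx => by
          rw [Finset.mem_filter] at hx ⊢
          exact ⟨hx.1, hx.2.1, hsub hx.2.2.1, hx.2.2.2⟩).trans hr)
      exact HR.comp hI'' hI hAB'' hsub h3 h2
    · -- a critical orbit
      obtain ⟨hC1, hC2, hC3, hC4⟩ := hC
      have hEX : EX F (LS B'' d) j (if j = nm (e c) then 1 else 0) := by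
        refine EX_critical B'' d (e c) hdB'' (fun i hi s hm => ?_) (fun w hw hwB i hi hne => ?_)
          (fun w hw hne hwe => ?_) j
        · have h2 := hC1 (d + Pi.single i (sz s)) (Lev_near_single d i s)
          exact absurd (hmax' _ (hsub hm) h2.2) (not_le.2 (hC2 i hi s))
        · have h2 := hC3 w hw i hi hne
          have h3 := hC1 _ (Lev_near_update hw i)
          exact hbelow _ h3.1 (lt_of_lt_of_le h2 (hmax' w (hsub hwB) (hC1 w hw).2))
        · exact hbelow w (hC1 w hw).1 (hC4 w hw hne hwe)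
      have h2 := HR_level L hW B'' B' hI'' d hdB'' hlev j _ hEX
      have hcB' : c ∈ B' ∧ c ∉ A := by
        have h3 : d + -(d - c) = c := by abel
        constructor
        · have h4 := (hI _ (L.neg_mem hcd) d).1 hdB'
          rwa [h3] at h4
        · intro h5
          apply hdA
          rw [hA _ (L.neg_mem hcd) d, h3]
          exact h5
      have hcB'' : c ∉ B'' := fun h3 => ((hmem c).1 h3).2 (by
        rw [← neg_sub]
        exact L.neg_mem hcd)
      have h3 : (Cr.filter fun c => nm (e c) = j ∧ c ∈ B'' ∧ c ∉ A).card +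
          (if j = nm (e c) then 1 else 0) ≤ r := by
        refine le_trans ?_ hr
        by_cases hj : j = nm (e c)
        · rw [if_pos hj]
          have h4 : (Cr.filter fun c => nm (e c) = j ∧ c ∈ B'' ∧ c ∉ A) ⊆
              (Cr.filter fun c => nm (e c) = j ∧ c ∈ B' ∧ c ∉ A).erase c := by
            intro x hx
            rw [Finset.mem_filter] at hx
            exact Finset.mem_erase.2 ⟨fun h5 => hcB'' (h5 ▸ hx.2.2.1),
              Finset.mem_filter.2 ⟨hx.1, hx.2.1, hsub hx.2.2.1, hx.2.2.2⟩⟩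
          have h5 := Finset.card_le_card h4
          have h6 : c ∈ Cr.filter fun c => nm (e c) = j ∧ c ∈ B' ∧ c ∉ A :=
            Finset.mem_filter.2 ⟨hc, hj.symm, hcB'.1, hcB'.2⟩
          have h7 := Finset.card_pos.2 ⟨c, h6⟩
          rw [Finset.card_erase_of_mem h6] at h5
          omega
        · rw [if_neg hj, add_zero]
          refine Finset.card_le_card fun x hx => ?_
          rw [Finset.mem_filter] at hx ⊢
          exact ⟨hx.1, hx.2.1, hsub hx.2.2.1, hx.2.2.2⟩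
      have h4 := ih B'' hAB'' (hsub.trans hB'B) hI'' hdown'' hcard _ le_rfl
      have h5 := HR.comp hI'' hI hAB'' hsub h4 h2
      exact h5.mono_r h3

/-- **Band theorem.** The cohomology of the band in dimension `j` has rank at most the number of
critical vertices with `j` minus signs. -/
theorem band_HR (L : AddSubgroup (ι → ℤ)) (hW : Wide L) (A B : Set (ι → ℤ)) (hAB : A ⊆ B)
    (hA : Inv L A) (hB : Inv L B) (hfin : FinMod L B A) (g : (ι → ℤ) → ℝ)
    (hg : ∀ l ∈ L, ∀ v, g (v + l) = g v) (Cr : Finset (ι → ℤ)) (e : (ι → ℤ) → ι → Bool)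
    (h : ∀ v ∈ B, v ∉ A → RegV A B g v ∨ ∃ c ∈ Cr, v - c ∈ L ∧ CriV A B g v (e c)) (j : ℕ) :
    HR F L B A j (Cr.filter fun c => nm (e c) = j).card := by
  classical
  obtain ⟨D, hD⟩ := hfin
  refine Lev_band L hW A B hA D hD g hg Cr e h j _ B hAB subset_rfl hB (fun _ _ _ w' hw' _ => hw')
    le_rfl _ (Finset.card_le_card fun x hx => ?_)
  rw [Finset.mem_filter] at hx ⊢
  exact ⟨hx.1, hx.2.1⟩

end Pool.Agent.H47.ST
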