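import Pool.Agent.H47.ST.ShiftD
import Pool.Agent.H47.ST.TKb

/-!
# Tate exactness on the simplices which are not fixed
-/

set_option autoImplicit false

namespace Pool.Agent.H47.ST

variable {ι : Type*} [Fintype ι]

/-! ### the action on finite sets -/

/-- the action of a permutation on finite sets of vertices -/
def Free_mp (π : Equiv.Perm ι) (σ : Finset (ι → ℤ)) : Finset (ι → ℤ) :=
  σ.map (pe π).toEmbedding

omit [Fintype ι] in
theorem Free_mem {π : Equiv.Perm ι} {σ : Finset (ι → ℤ)} {w : ι → ℤ} :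
    w ∈ Free_mp π σ ↔ ∃ v ∈ σ, v ∘ π = w := Finset.mem_map

omit [Fintype ι] in
theorem Free_mul (π ρ : Equiv.Perm ι) (σ : Finset (ι → ℤ)) :
    Free_mp (π * ρ) σ = Free_mp ρ (Free_mp π σ) := by
  ext w
  simp only [Free_mem]
  constructor
  · rintro ⟨v, hv, rfl⟩
    exact ⟨v ∘ π, ⟨v, hv, rfl⟩, rfl⟩
  · rintro ⟨u, ⟨v, hv, rfl⟩, rfl⟩
    exact ⟨v, hv, rfl⟩

omit [Fintype ι] in
theorem Free_one (σ : Finset (ι → ℤ)) : Free_mp (1 : Equiv.Perm ι) σ = σ := by
  ext w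
  simp only [Free_mem]
  constructor
  · rintro ⟨v, hv, rfl⟩
    exact hv
  · intro hw
    exact ⟨w, hw, rfl⟩

omit [Fintype ι] in
theorem Free_card (π : Equiv.Perm ι) (σ : Finset (ι → ℤ)) : (Free_mp π σ).card = σ.card :=
  Finset.card_map _

omit [Fintype ι] in
theorem Free_inj {π : Equiv.Perm ι} {σ τ : Finset (ι → ℤ)} (h : Free_mp π σ = Free_mp π τ) :
    σ = τ := Finset.map_injective _ h

omit [Fintype ι] in
theorem Free_le (π : Equiv.Perm ι) {v w : ι → ℤ} : v ∘ π ≤ w ∘ π ↔ v ≤ w := by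
  constructor
  · intro h i
    have := h (π.symm i)
    simpa using this
  · intro h i
    exact h (π i)

omit [Fintype ι] in
theorem Free_lt (π : Equiv.Perm ι) {v w : ι → ℤ} : v ∘ π < w ∘ π ↔ v < w := by
  rw [lt_iff_le_not_ge, lt_iff_le_not_ge, Free_le, Free_le]

omit [Fintype ι] in
theorem Free_Adj (π : Equiv.Perm ι) {v w : ι → ℤ} : Adj (v ∘ π) (w ∘ π) ↔ Adj v w := by
  have h1 : ∀ u : ι → ℤ, u ∘ π + 1 = (u + 1) ∘ π := fun u => rfl
  unfold Adj
  rw [h1, h1, Free_le, Free_le, Free_le, Free_le]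

omit [Fintype ι] in
theorem Free_Simp (π : Equiv.Perm ι) {σ : Finset (ι → ℤ)} : Simp (Free_mp π σ) ↔ Simp σ := by
  constructor
  · intro h v hv w hw
    exact (Free_Adj π).1 (h _ (Free_mem.2 ⟨v, hv, rfl⟩) _ (Free_mem.2 ⟨w, hw, rfl⟩))
  · intro h v hv w hw
    obtain ⟨v', hv', rfl⟩ := Free_mem.1 hv
    obtain ⟨w', hw', rfl⟩ := Free_mem.1 hw
    exact (Free_Adj π).2 (h v' hv' w' hw')

omit [Fintype ι] in
theorem Free_all {π : Equiv.Perm ι} {X : Set (ι → ℤ)} (hX : PInv π X) {σ : Finset (ι → ℤ)} :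
    (∀ v ∈ Free_mp π σ, v ∈ X) ↔ ∀ v ∈ σ, v ∈ X := by
  constructor
  · intro h v hv
    exact (hX v).2 (h _ (Free_mem.2 ⟨v, hv, rfl⟩))
  · intro h w hw
    obtain ⟨v, hv, rfl⟩ := Free_mem.1 hw
    exact (hX v).1 (h v hv)

omit [Fintype ι] in
theorem Free_In {π : Equiv.Perm ι} {X : Set (ι → ℤ)} (hX : PInv π X) {σ : Finset (ι → ℤ)} :
    In X (Free_mp π σ) ↔ In X σ := by
  unfold In
  rw [Free_Simp, Free_all hX]

omit [Fintype ι] in
theorem Free_sgn (F : Type*) [Field F] (π : Equiv.Perm ι) (σ : Finset (ι → ℤ)) (v : ι → ℤ) :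
    sgn F (Free_mp π σ) (v ∘ π) = sgn F σ v := by
  classical
  have h : (Free_mp π σ).filter (fun w => w < v ∘ π) = Free_mp π (σ.filter (fun w => w < v)) := by
    ext w
    simp only [Finset.mem_filter, Free_mem]
    constructor
    · rintro ⟨⟨u, hu, rfl⟩, h⟩
      exact ⟨u, ⟨hu, (Free_lt π).1 h⟩, rfl⟩
    · rintro ⟨u, ⟨hu, h⟩, rfl⟩
      exact ⟨⟨u, hu, rfl⟩, (Free_lt π).2 h⟩
  have h' : ((Free_mp π σ).filter (fun w => w < v ∘ π)).card =
      (σ.filter (fun w => w < v)).card := by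
    rw [h]
    exact Free_card π _
  unfold sgn
  rw [h']

theorem Free_erase (π : Equiv.Perm ι) (σ : Finset (ι → ℤ)) (v : ι → ℤ) :
    (Free_mp π σ).erase (v ∘ π) = Free_mp π (σ.erase v) := by
  ext w
  simp only [Finset.mem_erase, Free_mem]
  constructor
  · rintro ⟨h, u, hu, rfl⟩
    exact ⟨u, ⟨fun h' => h (by rw [h']), hu⟩, rfl⟩
  · rintro ⟨u, ⟨h, hu⟩, rfl⟩
    exact ⟨fun h' => h ((pe π).injective h'), u, hu, rfl⟩

omit [Fintype ι] in
theorem Free_tr {π : Equiv.Perm ι} {l : ι → ℤ} (hl : l ∘ π = l) (σ : Finset (ι → ℤ)) :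
    Free_mp π (tr l σ) = tr l (Free_mp π σ) := by
  have h1 : ∀ v : ι → ℤ, (v + l) ∘ π = v ∘ π + l := by
    intro v
    conv_rhs => rw [← hl]
    rfl
  ext w
  simp only [Free_mem, CellA_tr_mem]
  constructor
  · rintro ⟨u, ⟨v, hv, rfl⟩, rfl⟩
    exact ⟨v ∘ π, ⟨v, hv, rfl⟩, (h1 v).symm⟩
  · rintro ⟨u, ⟨v, hv, rfl⟩, rfl⟩
    exact ⟨v + l, ⟨v, hv, rfl⟩, h1 v⟩

omit [Fintype ι] in
theorem Free_fixed {π : Equiv.Perm ι} {σ : Finset (ι → ℤ)} (h : ∀ v ∈ σ, v ∘ π = v) :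
    Free_mp π σ = σ := by
  ext w
  rw [Free_mem]
  constructor
  · rintro ⟨v, hv, rfl⟩
    rw [h v hv]
    exact hv
  · intro hw
    exact ⟨w, hw, h w hw⟩

omit [Fintype ι] in
theorem Free_tr_tr (l m : ι → ℤ) (σ : Finset (ι → ℤ)) : tr m (tr l σ) = tr (l + m) σ := by
  ext w
  simp only [CellA_tr_mem]
  constructor
  · rintro ⟨u, ⟨v, hv, rfl⟩, rfl⟩
    exact ⟨v, hv, (add_assoc _ _ _).symm⟩
  · rintro ⟨v, hv, rfl⟩
    exact ⟨v + l, ⟨v, hv, rfl⟩, add_assoc _ _ _⟩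

omit [Fintype ι] in
theorem Free_tr_zero (σ : Finset (ι → ℤ)) : tr 0 σ = σ := by
  ext w
  simp [CellA_tr_mem]

omit [Fintype ι] in
theorem Free_pow_fix {π : Equiv.Perm ι} {l : ι → ℤ} (hl : l ∘ π = l) (i : ℕ) :
    l ∘ ⇑(π ^ i) = l := by
  induction i with
  | zero => rfl
  | succ i ih =>
    rw [pow_succ']
    change (l ∘ π) ∘ ⇑(π ^ i) = l
    rw [hl, ih]

/-! ### the action on cochains -/

section field

variable {F : Type*} [Field F]

omit [Fintype ι] in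
theorem Free_Tp (π : Equiv.Perm ι) (c : Co ι F) (σ : Finset (ι → ℤ)) :
    Tp π c σ = c (Free_mp π σ) := rfl

omit [Fintype ι] in
theorem Free_pow (π : Equiv.Perm ι) (i : ℕ) (c : Co ι F) (σ : Finset (ι → ℤ)) :
    ((Tp π) ^ i) c σ = c (Free_mp (π ^ i) σ) := by
  induction i generalizing σ with
  | zero =>
    rw [pow_zero, pow_zero, Free_one]
    rfl
  | succ i ih =>
    rw [pow_succ', pow_succ', Free_mul, Module.End.mul_apply, Free_Tp, ih]

omit [Fintype ι] in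
theorem Free_pow_p {π : Equiv.Perm ι} {p : ℕ} (h : π ^ p = 1) :
    (Tp (F := F) π) ^ p = 1 := by
  refine LinearMap.ext fun c => ?_
  ext σ
  rw [Free_pow, h, Free_one]
  rfl

theorem Free_dT {π : Equiv.Perm ι} {X : Set (ι → ℤ)} (hX : PInv π X) (c : Co ι F) :
    dX X (Tp π c) = Tp π (dX X c) := by
  ext σ
  rw [Free_Tp, dX_apply, dX_apply]
  by_cases h : In X σ
  · rw [if_pos h, if_pos ((Free_In hX).2 h)]
    conv_rhs => rw [Free_mp]
    rw [Finset.sum_map]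
    refine Finset.sum_congr rfl fun v _ => ?_
    change _ = sgn F (Free_mp π σ) (v ∘ π) * c ((Free_mp π σ).erase (v ∘ π))
    rw [Free_sgn, Free_erase, Free_Tp]
  · rw [if_neg h, if_neg (fun h' => h ((Free_In hX).1 h'))]

theorem Free_dT_pow {π : Equiv.Perm ι} {X : Set (ι → ℤ)} (hX : PInv π X) (i : ℕ) (c : Co ι F) :
    dX X (((Tp π) ^ i) c) = ((Tp π) ^ i) (dX X c) := by
  induction i with
  | zero => rfl
  | succ i ih =>
    rw [pow_succ', Module.End.mul_apply, Module.End.mul_apply, Free_dT hX, ih]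

omit [Fintype ι] in
theorem Free_nu_apply (π : Equiv.Perm ι) (p : ℕ) (c : Co ι F) :
    nu F π p c = ∑ i ∈ Finset.range p, ((Tp π) ^ i) c := by
  unfold nu
  rw [LinearMap.sum_apply]

omit [Fintype ι] in
theorem Free_nu_apply' (π : Equiv.Perm ι) (p : ℕ) (c : Co ι F) (σ : Finset (ι → ℤ)) :
    nu F π p c σ = ∑ i ∈ Finset.range p, c (Free_mp (π ^ i) σ) := by
  rw [Free_nu_apply, Finset.sum_apply]
  exact Finset.sum_congr rfl fun i _ => Free_pow π i c σ

omit [Fintype ι] in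
theorem Free_ta_apply (π : Equiv.Perm ι) (c : Co ι F) : ta F π c = Tp π c - c := rfl

theorem Free_ops {π : Equiv.Perm ι} {p : ℕ} (hp : π ^ p = 1) {X : Set (ι → ℤ)}
    (hX : PInv π X) : Ops (dX (F := F) X) (ta F π) (nu F π p) where
  dd := dX_dX X
  dt x := by rw [Free_ta_apply, Free_ta_apply, map_sub, Free_dT hX]
  dn x := by
    rw [Free_nu_apply, Free_nu_apply, map_sum]
    exact Finset.sum_congr rfl fun i _ => Free_dT_pow hX i x
  tn x := by
    have h := mul_geom_sum (Tp (F := F) π) p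
    rw [Free_pow_p hp, sub_self] at h
    exact LinearMap.congr_fun h x
  nt x := by
    have h := geom_sum_mul (Tp (F := F) π) p
    rw [Free_pow_p hp, sub_self] at h
    exact LinearMap.congr_fun h x

omit [Fintype ι] in
theorem Free_T_mem {π : Equiv.Perm ι} {L : AddSubgroup (ι → ℤ)} (hL : ∀ l ∈ L, l ∘ π = l)
    {X A : Set (ι → ℤ)} (hX : PInv π X) (hA : PInv π A) {j : ℕ} {c : Co ι F}
    (hc : c ∈ co (F := F) L X A j) : Tp π c ∈ co (F := F) L X A j := by
  refine ⟨fun l hl σ => ?_, fun σ hσ => ?_⟩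
  · rw [Free_Tp, Free_Tp, Free_tr (hL l hl), hc.1 l hl]
  · rw [Free_Tp] at hσ
    obtain ⟨h1, h2, h3⟩ := hc.2 _ hσ
    rw [Free_card] at h3
    rw [Free_all hA] at h2
    exact ⟨(Free_In hX).1 h1, h2, h3⟩

omit [Fintype ι] in
theorem Free_T_vz {π : Equiv.Perm ι} {c : Co ι F} (hc : c ∈ vz F π) : Tp π c ∈ vz F π := by
  intro σ hσ
  rw [Free_Tp, Free_fixed hσ]
  exact hc σ hσ

theorem Free_d_vz {π : Equiv.Perm ι} {X : Set (ι → ℤ)} {c : Co ι F} (hc : c ∈ vz F π) :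
    dX X c ∈ vz F π := by
  intro σ hσ
  rw [dX_apply]
  split_ifs with h
  · refine Finset.sum_eq_zero fun v _ => ?_
    rw [hc (σ.erase v) (fun u hu => hσ u (Finset.mem_of_mem_erase hu)), mul_zero]
  · rfl

omit [Fintype ι] in
/-- a submodule stable under `T` is stable under `T - 1` and `N` -/
theorem Free_stable {π : Equiv.Perm ι} (p : ℕ) {B : Submodule F (Co ι F)}
    (h : ∀ c ∈ B, Tp π c ∈ B) :
    (∀ c ∈ B, ta F π c ∈ B) ∧ (∀ i, ∀ c ∈ B, ((Tp π) ^ i) c ∈ B) ∧ (∀ c ∈ B, nu F π p c ∈ B) := by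
  have h2 : ∀ i, ∀ c ∈ B, ((Tp π) ^ i) c ∈ B := by
    intro i
    induction i with
    | zero => exact fun c hc => hc
    | succ i ih =>
      intro c hc
      rw [pow_succ', Module.End.mul_apply]
      exact h _ (ih c hc)
  refine ⟨fun c hc => B.sub_mem (h c hc) hc, h2, fun c hc => ?_⟩
  rw [Free_nu_apply]
  exact B.sum_mem fun i _ => h2 i c hc

theorem Free_Pv_T {π : Equiv.Perm ι} {L : AddSubgroup (ι → ℤ)} (hL : ∀ l ∈ L, l ∘ π = l)
    {X A B : Set (ι → ℤ)} (hX : PInv π X) (hA : PInv π A) (hB : PInv π B) {j : ℕ} {c : Co ι F}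
    (hc : c ∈ Pv F π L X A B j) : Tp π c ∈ Pv F π L X A B j := by
  obtain ⟨u, hu, y, hy, rfl⟩ := Submodule.mem_sup.1 hc
  rw [map_add]
  exact Submodule.add_mem_sup (Free_T_mem hL hX hB hu)
    ⟨Free_T_mem hL hX hA hy.1, Free_T_vz hy.2⟩

theorem Free_Pv_d {π : Equiv.Perm ι} {L : AddSubgroup (ι → ℤ)}
    {X A B : Set (ι → ℤ)} (hXL : Inv L X) {j : ℕ} {c : Co ι F}
    (hc : c ∈ Pv F π L X A B j) : dX X c ∈ Pv F π L X A B (j + 1) := by
  obtain ⟨u, hu, y, hy, rfl⟩ := Submodule.mem_sup.1 hc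
  rw [map_add]
  exact Submodule.add_mem_sup (dX_mem hXL hu) ⟨dX_mem hXL hy.1, Free_d_vz hy.2⟩

omit [Fintype ι] in
theorem Free_T_mul (π : Equiv.Perm ι) (i : ℕ) (a b : Co ι F) :
    ((Tp π) ^ i) (a * b) = ((Tp π) ^ i) a * ((Tp π) ^ i) b := by
  ext σ
  rw [Free_pow, Pi.mul_apply, Pi.mul_apply, Free_pow, Free_pow]

omit [Fintype ι] in
theorem Free_mul_mem {L : AddSubgroup (ι → ℤ)} {X A : Set (ι → ℤ)} {j : ℕ} {a c : Co ι F}
    (ha : ∀ l ∈ L, ∀ σ, a (tr l σ) = a σ) (hc : c ∈ co (F := F) L X A j) :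
    a * c ∈ co (F := F) L X A j := by
  refine ⟨fun l hl σ => ?_, fun σ hσ => ?_⟩
  · rw [Pi.mul_apply, Pi.mul_apply, ha l hl, hc.1 l hl]
  · exact hc.2 σ (right_ne_zero_of_mul hσ)

omit [Fintype ι] in
theorem Free_mul_vz {π : Equiv.Perm ι} {a c : Co ι F} (hc : c ∈ vz F π) : a * c ∈ vz F π := by
  intro σ hσ
  rw [Pi.mul_apply, hc σ hσ, mul_zero]

/-- the part of an element of `Pv` on the simplices in `B` -/
theorem Free_part {π : Equiv.Perm ι} {L : AddSubgroup (ι → ℤ)} {X A B : Set (ι → ℤ)}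
    (hBL : Inv L B) (hBX : B ⊆ X) {j : ℕ} {x : Co ι F}
    (hx : x ∈ Pv F π L X A B j) : ∃ y, y ∈ co (F := F) L X A j ⊓ vz F π ∧
      x - y ∈ co (F := F) L X B j ∧ ∀ σ, y σ ≠ 0 → In B σ := by
  classical
  obtain ⟨u, hu, y, hy, rfl⟩ := Submodule.mem_sup.1 hx
  have hIn : ∀ σ : Finset (ι → ℤ), In B σ → In X σ :=
    fun σ hσ => ⟨hσ.1, fun v hv => hBX (hσ.2 v hv)⟩
  have hcut : ∀ l ∈ L, ∀ σ, cut (In B) y (tr l σ) = cut (In B) y σ := by
    intro l hl σ
    rw [cut_apply, cut_apply]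
    by_cases h1 : In B σ
    · rw [if_pos h1, if_pos ((CellA_tr_In hBL hl).2 h1), hy.1.1 l hl]
    · rw [if_neg h1, if_neg (fun h' => h1 ((CellA_tr_In hBL hl).1 h'))]
  have hne : ∀ σ, cut (In B) y σ ≠ 0 → In B σ ∧ y σ ≠ 0 := by
    intro σ hσ
    rw [cut_apply] at hσ
    have h1 : In B σ := by
      by_contra h'
      exact hσ (if_neg h')
    rw [if_pos h1] at hσ
    exact ⟨h1, hσ⟩
  refine ⟨cut (In B) y, ⟨⟨hcut, fun σ hσ => ?_⟩, fun σ hσ => ?_⟩, ?_, fun σ hσ => (hne σ hσ).1⟩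
  · obtain ⟨h1, h2⟩ := hne σ hσ
    exact ⟨hIn σ h1, (hy.1.2 σ h2).2⟩
  · by_contra h1
    exact (hne σ h1).2 (hy.2 σ hσ)
  · rw [add_sub_assoc]
    refine Submodule.add_mem _ hu ⟨fun l hl σ => ?_, fun σ hσ => ?_⟩
    · rw [Pi.sub_apply, Pi.sub_apply, hcut l hl, hy.1.1 l hl]
    · rw [Pi.sub_apply, cut_apply] at hσ
      have h1 : ¬ In B σ := by
        intro h'
        rw [if_pos h', sub_self] at hσ
        exact hσ rfl
      rw [if_neg h1, sub_zero] at hσ
      obtain ⟨h2, -, h3⟩ := hy.1.2 σ hσ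
      exact ⟨h2, fun h4 => h1 ⟨h2.1, h4⟩, h3⟩

omit [Fintype ι] in
/-- an operator value in `co L X B` of a function supported on the simplices in `B` vanishes -/
theorem Free_zero {π : Equiv.Perm ι} {L : AddSubgroup (ι → ℤ)} {X B : Set (ι → ℤ)}
    (hB : PInv π B) {j : ℕ} {y : Co ι F} (hy : ∀ σ, y σ ≠ 0 → In B σ) (p : ℕ) :
    (ta F π y ∈ co (F := F) L X B j → ta F π y = 0) ∧
      (nu F π p y ∈ co (F := F) L X B j → nu F π p y = 0) := by
  have hI : ∀ i (σ : Finset (ι → ℤ)), In B (Free_mp (π ^ i) σ) → In B σ := by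
    intro i
    induction i with
    | zero => intro σ h; rwa [pow_zero, Free_one] at h
    | succ i ih =>
      intro σ h
      rw [pow_succ', Free_mul] at h
      exact (Free_In hB).1 (ih _ h)
  constructor
  · intro h
    ext σ
    by_contra h1
    have h2 := h.2 σ h1
    refine h2.2.1 ?_
    rw [Free_ta_apply, Pi.sub_apply, Free_Tp] at h1
    by_cases h3 : y σ = 0
    · rw [h3, sub_zero] at h1
      exact ((Free_In hB).1 (hy _ h1)).2
    · exact (hy σ h3).2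
  · intro h
    ext σ
    by_contra h1
    have h2 := h.2 σ h1
    refine h2.2.1 ?_
    rw [Free_nu_apply'] at h1
    obtain ⟨i, _, hi⟩ := Finset.exists_ne_zero_of_sum_ne_zero h1
    exact (hI i σ (hy _ hi)).2

omit [Fintype ι] in
/-- the homotopy -/
theorem Free_homotopy (π : Equiv.Perm ι) (p : ℕ) (hp : π ^ p = 1) (w y : Co ι F)
    (hw : nu F π p w * y = y) (hy : nu F π p y = 0) :
    ta F π (-∑ j ∈ Finset.range p, ((Tp π) ^ j) w *
      ∑ i ∈ Finset.range j, ((Tp π) ^ i) y) = y := by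
  set s : ℕ → Co ι F := fun j => ∑ i ∈ Finset.range j, ((Tp π) ^ i) y with hs
  have hs0 : s 0 = 0 := by simp [hs]
  have hsp : s p = 0 := by
    rw [← hy, Free_nu_apply]
  have hTs : ∀ j, Tp π (s j) = s (j + 1) - y := by
    intro j
    simp only [hs]
    rw [Finset.sum_range_succ', map_sum]
    have : ∀ i ∈ Finset.range j, Tp π (((Tp π) ^ i) y) = ((Tp π) ^ (i + 1)) y := by
      intro i _
      rw [pow_succ', Module.End.mul_apply]
    rw [Finset.sum_congr rfl this, pow_zero, Module.End.one_apply, add_sub_cancel_right]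
  have hTm : ∀ a b : Co ι F, Tp π (a * b) = Tp π a * Tp π b := fun a b => rfl
  have hTw : ∀ j, Tp π (((Tp π) ^ j) w) = ((Tp π) ^ (j + 1)) w := by
    intro j
    rw [pow_succ', Module.End.mul_apply]
  have hwp : ((Tp π) ^ p) w = w := by rw [Free_pow_p hp]; rfl
  have h1 : Tp π (∑ j ∈ Finset.range p, ((Tp π) ^ j) w * s j) =
      ∑ j ∈ Finset.range p, (((Tp π) ^ (j + 1)) w * s (j + 1)) -
        ∑ j ∈ Finset.range p, (((Tp π) ^ (j + 1)) w * y) := by
    rw [map_sum, ← Finset.sum_sub_distrib]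
    refine Finset.sum_congr rfl fun j _ => ?_
    rw [hTm, hTw, hTs, mul_sub]
  have h2 : ∑ j ∈ Finset.range p, (((Tp π) ^ (j + 1)) w * s (j + 1)) =
      ∑ j ∈ Finset.range p, (((Tp π) ^ j) w * s j) := by
    have h3 := Finset.sum_range_succ (fun j => ((Tp π) ^ j) w * s j) p
    rw [Finset.sum_range_succ' (fun j => ((Tp π) ^ j) w * s j) p, hs0, hsp, mul_zero, mul_zero,
      add_zero, add_zero] at h3
    exact h3
  have h4 : ∑ j ∈ Finset.range p, (((Tp π) ^ (j + 1)) w * y) = y := by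
    rw [← Finset.sum_mul]
    have h5 : ∑ j ∈ Finset.range p, ((Tp π) ^ (j + 1)) w =
        ∑ j ∈ Finset.range p, ((Tp π) ^ j) w := by
      have h3 := Finset.sum_range_succ (fun j => ((Tp π) ^ j) w) p
      rw [Finset.sum_range_succ' (fun j => ((Tp π) ^ j) w) p, pow_zero, Module.End.one_apply,
        hwp] at h3
      exact add_right_cancel h3
    rw [h5, ← Free_nu_apply]
    exact hw
  rw [map_neg, Free_ta_apply, h1, h2, h4]
  abel

end field

/-! ### the results -/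

variable {p : ℕ} [Fact p.Prime]

theorem Cyc_ops {π : Equiv.Perm ι} {L : AddSubgroup (ι → ℤ)} (h : Cyc π p L)
    {X : Set (ι → ℤ)} (hX : PInv π X) :
    Ops (dX (F := ZMod p) X) (ta (ZMod p) π) (nu (ZMod p) π p) := Free_ops h.pow hX

theorem Cyc_sub {π : Equiv.Perm ι} {L : AddSubgroup (ι → ℤ)} (h : Cyc π p L)
    {X A : Set (ι → ℤ)} (hX : PInv π X) (hA : PInv π A) (hXL : Inv L X) :
    Sub (dX (F := ZMod p) X) (ta (ZMod p) π) (nu (ZMod p) π p) (co (F := ZMod p) L X A) where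
  d _ _ hx := dX_mem hXL hx
  t _ x hx := (Free_stable p fun c hc => Free_T_mem h.fix hX hA hc).1 x hx
  n _ x hx := (Free_stable p fun c hc => Free_T_mem h.fix hX hA hc).2.2 x hx

theorem Cyc_subP {π : Equiv.Perm ι} {L : AddSubgroup (ι → ℤ)} (h : Cyc π p L)
    {X A B : Set (ι → ℤ)} (hX : PInv π X) (hA : PInv π A) (hB : PInv π B) (hXL : Inv L X) :
    Sub (dX (F := ZMod p) X) (ta (ZMod p) π) (nu (ZMod p) π p) (Pv (ZMod p) π L X A B) where
  d _ _ hx := Free_Pv_d hXL hx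
  t _ x hx := (Free_stable p fun c hc => Free_Pv_T h.fix hX hA hB hc).1 x hx
  n _ x hx := (Free_stable p fun c hc => Free_Pv_T h.fix hX hA hB hc).2.2 x hx

omit [Fintype ι] [Fact p.Prime] in
/-- a translate which is an image under a power of the symmetry: the simplex is fixed -/
theorem Free_unique {π : Equiv.Perm ι} {L : AddSubgroup (ι → ℤ)} (h : Cyc π p L)
    {σ : Finset (ι → ℤ)} (hσ : Simp σ) {m : ι → ℤ} (hm : m ∈ L) {k : ℕ} (hk0 : 0 < k)
    (hkp : k < p) (he : Free_mp (π ^ k) σ = tr m σ) : ∀ v ∈ σ, v ∘ π = v := by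
  intro v hv
  have h1 : v ∘ ⇑(π ^ k) = v + m := by
    have h2 : v ∘ ⇑(π ^ k) ∈ tr m σ := he ▸ Free_mem.2 ⟨v, hv, rfl⟩
    obtain ⟨w, hw, hw'⟩ := CellA_tr_mem.1 h2
    have h3 : w = v ∘ ⇑(π ^ k) + -m := by rw [← hw', add_neg_cancel_right]
    have h4 := h.sep v w (-m) k (hσ v hv w hw) (L.neg_mem hm) h3
    rw [← hw', h4]
  have hmk : m ∘ ⇑(π ^ k) = m := Free_pow_fix (h.fix m hm) k
  have h5 : ∀ j : ℕ, v ∘ ⇑((π ^ k) ^ j) = v + (j : ℤ) • m := by
    intro j
    induction j with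
    | zero =>
      rw [Nat.cast_zero, zero_smul, add_zero]
      rfl
    | succ j ih =>
      rw [pow_succ]
      change (v ∘ ⇑((π ^ k) ^ j)) ∘ ⇑(π ^ k) = _
      rw [ih]
      change v ∘ ⇑(π ^ k) + (j : ℤ) • (m ∘ ⇑(π ^ k)) = _
      rw [h1, hmk]
      push_cast
      rw [add_smul, one_smul]
      abel
  have h6 : m = 0 := by
    have h7 := h5 p
    rw [← pow_mul, mul_comm, pow_mul, h.pow, one_pow] at h7
    have h8 : (p : ℤ) • m = 0 := by
      have h9 : v + 0 = v + (p : ℤ) • m := by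
        rw [add_zero]
        exact h7
      exact (add_left_cancel h9).symm
    rcases smul_eq_zero.1 h8 with h9 | h9
    · exact absurd (Int.natCast_eq_zero.1 h9) h.prime.ne_zero
    · exact h9
  have h7 : v ∘ ⇑(π ^ k) = v := by rw [h1, h6, add_zero]
  have hcop : Nat.Coprime k p := by
    rw [Nat.coprime_comm]
    exact (Nat.Prime.coprime_iff_not_dvd h.prime).2 (Nat.not_dvd_of_pos_of_lt hk0 hkp)
  obtain ⟨a, -, ha⟩ := Nat.exists_mul_mod_eq_one_of_coprime hcop h.prime.one_lt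
  have h8 : (π ^ k) ^ a = π := by
    rw [← pow_mul, ← Nat.div_add_mod (k * a) p, ha, pow_add, pow_mul, h.pow, one_pow, one_mul,
      pow_one]
  have h9 : v ∘ ⇑((π ^ k) ^ a) = v := Free_pow_fix h7 a
  rwa [h8] at h9

/-- simplices related by the symmetry and the translations -/
def Free_rel (π : Equiv.Perm ι) (L : AddSubgroup (ι → ℤ)) (σ τ : Finset (ι → ℤ)) : Prop :=
  ∃ i : ℕ, ∃ l ∈ L, τ = tr l (Free_mp (π ^ i) σ)

omit [Fintype ι] [Fact p.Prime] in
theorem Free_rel_equiv {π : Equiv.Perm ι} {L : AddSubgroup (ι → ℤ)} (h : Cyc π p L) :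
    Equivalence (Free_rel π L) where
  refl σ := ⟨0, 0, L.zero_mem, by rw [pow_zero, Free_one, Free_tr_zero]⟩
  symm := by
    rintro σ τ ⟨i, l, hl, rfl⟩
    refine ⟨(p - 1) * i, -l, L.neg_mem hl, ?_⟩
    have hp := h.prime.one_lt
    have h1 : i + (p - 1) * i = p * i := by
      obtain ⟨q, rfl⟩ : ∃ q, p = q + 1 := ⟨p - 1, by omega⟩
      simp only [Nat.add_sub_cancel]
      ring
    rw [Free_tr (Free_pow_fix (h.fix l hl) _), ← Free_mul, ← pow_add, h1, pow_mul, h.pow, one_pow,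
      Free_one, Free_tr_tr, add_neg_cancel, Free_tr_zero]
  trans := by
    rintro σ τ υ ⟨i, l, hl, rfl⟩ ⟨i', l', hl', rfl⟩
    refine ⟨i + i', l + l', L.add_mem hl hl', ?_⟩
    rw [Free_tr (Free_pow_fix (h.fix l hl) _), ← Free_mul, ← pow_add, Free_tr_tr]

/-- A weight on the simplices which are not fixed: `∑_j T^j w = 1`. -/
theorem exists_weight {π : Equiv.Perm ι} {L : AddSubgroup (ι → ℤ)} (h : Cyc π p L) :
    ∃ w : Co ι (ZMod p), (∀ l ∈ L, ∀ σ, w (tr l σ) = w σ) ∧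
      ∀ σ : Finset (ι → ℤ), Simp σ → ¬ (∀ v ∈ σ, v ∘ π = v) → nu (ZMod p) π p w σ = 1 := by
  classical
  let S : Setoid (Finset (ι → ℤ)) := ⟨Free_rel π L, Free_rel_equiv h⟩
  let rep : Finset (ι → ℤ) → Finset (ι → ℤ) := fun σ => (Quotient.mk S σ).out
  have hrep : ∀ σ, Free_rel π L σ (rep σ) := fun σ =>
    (Free_rel_equiv h).symm (Quotient.exact (Quotient.out_eq (Quotient.mk S σ)))
  have hrep' : ∀ σ τ, Free_rel π L σ τ → rep τ = rep σ := by
    intro σ τ hστ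
    change (Quotient.mk S τ).out = (Quotient.mk S σ).out
    rw [Quotient.sound (s := S) (a := σ) (b := τ) hστ]
  have hLrel : ∀ l ∈ L, ∀ σ, Free_rel π L σ (tr l σ) := fun l hl σ =>
    ⟨0, l, hl, by rw [pow_zero, Free_one]⟩
  have hmrel : ∀ i σ, Free_rel π L σ (Free_mp (π ^ i) σ) := fun i σ =>
    ⟨i, 0, L.zero_mem, by rw [Free_tr_zero]⟩
  refine ⟨fun σ => if ∃ l ∈ L, σ = tr l (rep σ) then 1 else 0, fun l hl σ => ?_,
    fun σ hσ hnf => ?_⟩
  · have h1 : (∃ m ∈ L, tr l σ = tr m (rep (tr l σ))) ↔ ∃ m ∈ L, σ = tr m (rep σ) := by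
      rw [hrep' σ (tr l σ) (hLrel l hl σ)]
      constructor
      · rintro ⟨m, hm, hm'⟩
        refine ⟨m + -l, L.add_mem hm (L.neg_mem hl), ?_⟩
        rw [← Free_tr_tr, ← hm', Free_tr_tr, add_neg_cancel, Free_tr_zero]
      · rintro ⟨m, hm, hm'⟩
        refine ⟨m + l, L.add_mem hm hl, ?_⟩
        rw [← Free_tr_tr, ← hm']
    simp only [h1]
  · rw [Free_nu_apply']
    obtain ⟨i0, l0, hl0, hρ⟩ := hrep σ
    have hpos : 0 < p := h.prime.pos
    set i1 := i0 % p with hi1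
    have hi1p : i1 < p := Nat.mod_lt _ hpos
    have hpow : π ^ i0 = π ^ i1 := by
      conv_lhs => rw [← Nat.div_add_mod i0 p]
      rw [pow_add, pow_mul, h.pow, one_pow, one_mul]
    rw [hpow] at hρ
    have hone : ∃ l ∈ L, Free_mp (π ^ i1) σ = tr l (rep (Free_mp (π ^ i1) σ)) := by
      refine ⟨-l0, L.neg_mem hl0, ?_⟩
      rw [hrep' _ _ (hmrel i1 σ), hρ, Free_tr_tr, add_neg_cancel, Free_tr_zero]
    rw [Finset.sum_eq_single i1]
    · simp only [if_pos hone]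
    · intro i hi hne
      rw [if_neg]
      rintro ⟨l, hl, hil⟩
      rw [hrep' _ _ (hmrel i σ), hρ, Free_tr_tr] at hil
      have hip : i < p := Finset.mem_range.1 hi
      set m := l0 + l with hm
      have hmL : m ∈ L := L.add_mem hl0 hl
      rcases lt_or_gt_of_ne hne with hlt | hlt
      · -- i < i1
        apply hnf
        have h2 : Free_mp (π ^ (i1 - i)) σ = tr (-m) σ := by
          have h3 : Free_mp (π ^ i) (Free_mp (π ^ (i1 - i)) σ) =
              Free_mp (π ^ i) (tr (-m) σ) := by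
            rw [← Free_mul, ← pow_add, Nat.sub_add_cancel hlt.le,
              Free_tr (Free_pow_fix (h.fix _ (L.neg_mem hmL)) _), hil, Free_tr_tr,
              add_neg_cancel, Free_tr_zero]
          exact Free_inj h3
        exact Free_unique h hσ (L.neg_mem hmL) (Nat.sub_pos_of_lt hlt) (by omega) h2
      · apply hnf
        have h2 : Free_mp (π ^ (i - i1)) σ = tr m σ := by
          have h3 : Free_mp (π ^ i1) (Free_mp (π ^ (i - i1)) σ) =
              Free_mp (π ^ i1) (tr m σ) := by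
            rw [← Free_mul, ← pow_add, Nat.sub_add_cancel hlt.le,
              Free_tr (Free_pow_fix (h.fix _ hmL) _), hil]
          exact Free_inj h3
        exact Free_unique h hσ hmL (Nat.sub_pos_of_lt hlt) (by omega) h2
    · intro h1
      exact absurd (Finset.mem_range.2 hi1p) h1

/-- The functions on the simplices in `B`, not in `A`, which are not fixed, form a Tate exact
complex. -/
theorem free_TK {π : Equiv.Perm ι} {L : AddSubgroup (ι → ℤ)} (h : Cyc π p L)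
    {X A B : Set (ι → ℤ)} (hX : PInv π X) (hA : PInv π A) (hB : PInv π B) (hXL : Inv L X)
    (hAL : Inv L A) (hBL : Inv L B) (hAB : A ⊆ B) (hBX : B ⊆ X) (k : ℕ) :
    TK (dX (F := ZMod p) X) (ta (ZMod p) π) (nu (ZMod p) π p) k (Pv (ZMod p) π L X A B)
      (co (F := ZMod p) L X B) 0 := by
  obtain ⟨w, hwL, hw1⟩ := exists_weight h
  have hwT : ∀ i, ∀ l ∈ L, ∀ σ, (((Tp π) ^ i) w) (tr l σ) = (((Tp π) ^ i) w) σ := by
    intro i l hl σ
    rw [Free_pow, Free_pow, Free_tr (Free_pow_fix (h.fix l hl) i), hwL l hl]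
  have hstab := fun j => Free_stable (π := π) p (B := co (F := ZMod p) L X A j ⊓ vz (ZMod p) π)
    fun c hc => ⟨Free_T_mem h.fix hX hA hc.1, Free_T_vz hc.2⟩
  have hstabB := fun j => Free_stable (π := π) p (B := co (F := ZMod p) L X B j)
    fun c hc => Free_T_mem h.fix hX hB hc
  have hwy : ∀ j, ∀ y ∈ co (F := ZMod p) L X A j ⊓ vz (ZMod p) π,
      nu (ZMod p) π p w * y = y := by
    intro j y hy
    ext σ
    rw [Pi.mul_apply]
    by_cases h0 : y σ = 0
    · rw [h0, mul_zero]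
    · rw [hw1 σ (hy.1.2 σ h0).1.1 (fun h1 => h0 (hy.2 σ h1)), one_mul]
  refine TK_of_free (Cyc_ops h hX) (Cyc_sub h hX hB hXL) (Cyc_subP h hX hA hB hXL)
    (fun j => le_sup_left) (Fintype.card ι + 2) (fun j hj => ?_) (fun j x hx hx2 => ?_)
    (fun j x hx hx2 => ?_) k
  · refine sup_le le_rfl ?_
    rw [co_big L X A (by omega), bot_inf_eq]
    exact bot_le
  · obtain ⟨y, hy, hxy, hyB⟩ := Free_part (π := π) hBL hBX hx
    have h1 : ta (ZMod p) π y ∈ co (F := ZMod p) L X B j := by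
      have h2 := (co (F := ZMod p) L X B j).sub_mem hx2 ((hstabB j).1 _ hxy)
      rwa [map_sub, sub_sub_cancel] at h2
    have h2 := (Free_zero (L := L) (X := X) (j := j) hB hyB p).1 h1
    have hTy : ∀ i, ((Tp π) ^ i) y = y := by
      intro i
      induction i with
      | zero => rfl
      | succ i ih =>
        rw [pow_succ', Module.End.mul_apply, ih]
        rw [Free_ta_apply, sub_eq_zero] at h2
        exact h2
    refine ⟨w * y, Submodule.mem_sup_right ⟨Free_mul_mem hwL hy.1, Free_mul_vz hy.2⟩, ?_⟩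
    have h3 : nu (ZMod p) π p (w * y) = y := by
      rw [Free_nu_apply]
      have h4 : ∀ i ∈ Finset.range p, ((Tp π) ^ i) (w * y) = ((Tp π) ^ i) w * y := by
        intro i _
        rw [Free_T_mul, hTy i]
      rw [Finset.sum_congr rfl h4, ← Finset.sum_mul, ← Free_nu_apply]
      exact hwy j y hy
    rw [h3]
    exact hxy
  · obtain ⟨y, hy, hxy, hyB⟩ := Free_part (π := π) hBL hBX hx
    have h1 : nu (ZMod p) π p y ∈ co (F := ZMod p) L X B j := by
      have h2 := (co (F := ZMod p) L X B j).sub_mem hx2 ((hstabB j).2.2 _ hxy)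
      rwa [map_sub, sub_sub_cancel] at h2
    have h2 := (Free_zero (L := L) (X := X) (j := j) hB hyB p).2 h1
    refine ⟨-∑ j' ∈ Finset.range p, ((Tp π) ^ j') w * ∑ i ∈ Finset.range j', ((Tp π) ^ i) y,
      Submodule.mem_sup_right ?_, ?_⟩
    · refine Submodule.neg_mem _ (Submodule.sum_mem _ fun j' _ => ?_)
      have h3 : ∑ i ∈ Finset.range j', ((Tp π) ^ i) y ∈
          co (F := ZMod p) L X A j ⊓ vz (ZMod p) π :=
        Submodule.sum_mem _ fun i _ => (hstab j).2.1 i y hy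
      exact ⟨Free_mul_mem (hwT j') h3.1, Free_mul_vz h3.2⟩
    · rw [Free_homotopy π p h.pow w y (hwy j y hy) h2]
      exact hxy

end Pool.Agent.H47.ST
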