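import Pool.Agent.H47.ST.RKa

/-!
# Supertrace of an involution of a complex
-/

set_option autoImplicit false

namespace Pool.Agent.H47.ST

/-- The trace of an involution of a space of dimension at most `r` over `ZMod p` is the class of an
integer of absolute value at most `r`. -/
theorem trace_involution {p : ℕ} [Fact p.Prime] (hp : p ≠ 2) {H : Type*} [AddCommGroup H]
    [Module (ZMod p) H] [FiniteDimensional (ZMod p) H] (A : H →ₗ[ZMod p] H)
    (hA : ∀ x, A (A x) = x) :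
    ∃ m : ℤ, |m| ≤ Module.finrank (ZMod p) H ∧ LinearMap.trace (ZMod p) H A = (m : ZMod p) := by
  have h2 : (2 : ZMod p) ≠ 0 := by
    have h := Fact.out (p := p.Prime)
    intro h0
    have h1 : ((2 : ℕ) : ZMod p) = 0 := by exact_mod_cast h0
    rw [ZMod.natCast_eq_zero_iff] at h1
    exact hp ((Nat.prime_dvd_prime_iff_eq h Nat.prime_two).1 h1)
  set P : H →ₗ[ZMod p] H := (2 : ZMod p)⁻¹ • (LinearMap.id - A) with hP
  have hPP : ∀ x, P (P x) = P x := by
    intro x
    have h1 : P (P x) = (2 : ZMod p)⁻¹ • ((2 : ZMod p)⁻¹ • (x - A x) -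
        (2 : ZMod p)⁻¹ • (A x - A (A x))) := by
      rw [← smul_sub]
      simp [hP]
    have h3 : P x = (2 : ZMod p)⁻¹ • (x - A x) := by simp [hP]
    rw [h1, h3, hA]
    congr 1
    rw [← smul_sub]
    have h4 : x - A x - (A x - x) = (2 : ZMod p) • (x - A x) := by
      rw [two_smul]; abel
    rw [h4, smul_smul, inv_mul_cancel₀ h2, one_smul]
  have hproj : LinearMap.IsProj (LinearMap.range P) P := by
    refine ⟨fun x => ⟨x, rfl⟩, ?_⟩
    rintro _ ⟨y, rfl⟩
    exact hPP y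
  have htr := hproj.trace
  have hAP : A = LinearMap.id - (2 : ZMod p) • P := by
    rw [hP, smul_smul, mul_inv_cancel₀ h2, one_smul]
    abel
  refine ⟨(Module.finrank (ZMod p) H : ℤ) -
    2 * (Module.finrank (ZMod p) (LinearMap.range P) : ℤ), ?_, ?_⟩
  · have h5 : Module.finrank (ZMod p) (LinearMap.range P) ≤ Module.finrank (ZMod p) H :=
      Submodule.finrank_le _
    rw [abs_le]
    constructor <;> omega
  · rw [hAP, map_sub, map_smul, htr, LinearMap.trace_id, smul_eq_mul]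
    push_cast
    ring

/-- A chain map `ε R` of a finite dimensional complex with `ε d = - d ε`, `R d = d R`,
`(ε R)^2 = 1`, whose cohomology has dimension at most `r`: the trace of `ε R` is an integer of
absolute value at most `r`. -/
theorem trace_bound {p : ℕ} [Fact p.Prime] (hp : p ≠ 2) {W : Type*} [AddCommGroup W]
    [Module (ZMod p) W] [FiniteDimensional (ZMod p) W] (d ε R : W →ₗ[ZMod p] W)
    (hd : ∀ x, d (d x) = 0) (he : ∀ x, ε (ε x) = x) (hR : ∀ x, R (R x) = x)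
    (hed : ∀ x, ε (d x) = -(d (ε x))) (hRd : ∀ x, R (d x) = d (R x))
    (heR : ∀ x, ε (R x) = R (ε x)) {r : ℕ} (hr : RK d d ⊤ ⊤ ⊥ ⊥ r) :
    ∃ m : ℤ, |m| ≤ r ∧ LinearMap.trace (ZMod p) W (ε ∘ₗ R) = (m : ZMod p) := by
  -- a generalized inverse of `d`
  obtain ⟨s, hs⟩ := LinearMap.exists_rightInverse_of_surjective d.rangeRestrict
    (LinearMap.range_eq_top.2 d.surjective_rangeRestrict)
  obtain ⟨h, hh⟩ := LinearMap.exists_extend s
  have hdh : ∀ x, d (h (d x)) = d x := by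
    intro x
    have h1 : h (d x) = s ⟨d x, x, rfl⟩ := LinearMap.congr_fun hh ⟨d x, x, rfl⟩
    have h2 := congrArg Subtype.val (LinearMap.congr_fun hs ⟨d x, x, rfl⟩)
    rw [h1]
    exact h2
  set B : W →ₗ[ZMod p] W := ε ∘ₗ R with hB
  have hBd : ∀ x, B (d x) = -(d (B x)) := by
    intro x
    show ε (R (d x)) = -(d (ε (R x)))
    rw [hRd, hed]
  have hBB : ∀ x, B (B x) = x := by
    intro x
    show ε (R (ε (R x))) = x
    rw [← heR, he, hR]
  set π : W →ₗ[ZMod p] W := LinearMap.id - d ∘ₗ h - h ∘ₗ d with hπ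
  have hπx : ∀ x, π x = x - d (h x) - h (d x) := fun x => rfl
  have hdπ : ∀ x, d (π x) = 0 := by
    intro x
    rw [hπx, map_sub, map_sub, hd, hdh, sub_zero, sub_self]
  have hπd : ∀ x, π (d x) = 0 := by
    intro x
    rw [hπx, hdh, hd, map_zero, sub_zero, sub_self]
  -- the traces
  have ht1 : LinearMap.trace (ZMod p) W (B ∘ₗ (h ∘ₗ d)) =
      -LinearMap.trace (ZMod p) W (B ∘ₗ (d ∘ₗ h)) := by
    have h1 : B ∘ₗ (h ∘ₗ d) = (B ∘ₗ h) ∘ₗ d := rfl
    have h2 : d ∘ₗ (B ∘ₗ h) = -(B ∘ₗ (d ∘ₗ h)) := by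
      ext x
      show d (B (h x)) = -(B (d (h x)))
      rw [hBd, neg_neg]
    rw [h1, LinearMap.trace_comp_comm', h2, map_neg]
  have ht2 : LinearMap.trace (ZMod p) W B = LinearMap.trace (ZMod p) W (B ∘ₗ π) := by
    have h1 : B ∘ₗ π = B - B ∘ₗ (d ∘ₗ h) - B ∘ₗ (h ∘ₗ d) := by
      ext x
      show B (x - d (h x) - h (d x)) = B x - B (d (h x)) - B (h (d x))
      rw [map_sub, map_sub]
    rw [h1, map_sub, map_sub, ht1]
    ring
  set K : Submodule (ZMod p) W := LinearMap.ker d with hK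
  have hBπ : ∀ x, (B ∘ₗ π) x ∈ K := by
    intro x
    rw [hK, LinearMap.mem_ker]
    show d (B (π x)) = 0
    have h1 := hBd (π x)
    rw [hdπ, map_zero] at h1
    exact neg_eq_zero.1 h1.symm
  set f : W →ₗ[ZMod p] K := (B ∘ₗ π).codRestrict K hBπ with hf
  have hfx : ∀ x, (f x : W) = B (π x) := fun x => rfl
  set D : Submodule (ZMod p) K := (LinearMap.range d).comap K.subtype with hD
  have hfD : D ≤ LinearMap.ker (f ∘ₗ K.subtype) := by
    rintro ⟨x, hx⟩ hxD
    obtain ⟨w, hw⟩ := hxD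
    have hw' : d w = x := hw
    rw [LinearMap.mem_ker]
    apply Subtype.ext
    show B (π x) = 0
    rw [← hw', hπd, map_zero]
  set g : (K ⧸ D) →ₗ[ZMod p] K := D.liftQ (f ∘ₗ K.subtype) hfD with hg
  have hgf : g ∘ₗ D.mkQ = f ∘ₗ K.subtype := D.liftQ_mkQ _ hfD
  have ht3 : LinearMap.trace (ZMod p) W (B ∘ₗ π) =
      LinearMap.trace (ZMod p) (K ⧸ D) (D.mkQ ∘ₗ g) := by
    have h1 : B ∘ₗ π = K.subtype ∘ₗ f := by
      ext x
      rfl
    rw [h1, LinearMap.trace_comp_comm', ← hgf, LinearMap.trace_comp_comm']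
  have hinv : ∀ x, (D.mkQ ∘ₗ g) ((D.mkQ ∘ₗ g) x) = x := by
    intro x
    obtain ⟨y, rfl⟩ := D.mkQ_surjective x
    have h1 : ∀ y : K, (D.mkQ ∘ₗ g) (D.mkQ y) = D.mkQ (f (y : W)) := by
      intro y
      show D.mkQ (g (D.mkQ y)) = D.mkQ (f (y : W))
      have := LinearMap.congr_fun hgf y
      exact congrArg D.mkQ this
    rw [h1, h1]
    rw [← sub_eq_zero, ← map_sub]
    show Submodule.Quotient.mk _ = (0 : K ⧸ D)
    rw [Submodule.Quotient.mk_eq_zero]
    show ((f (f (y : W) : W) - y : K) : W) ∈ LinearMap.range d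
    have hy : d (y : W) = 0 := y.2
    have hB' : ∀ z : W, d z = 0 → B (π z) = B z + d (B (h z)) := by
      intro z hz
      rw [hπx, hz, map_zero, sub_zero, map_sub, hBd]
      abel
    have hfy : d (f (y : W) : W) = 0 := (f (y : W)).2
    have h2 : ((f (f (y : W) : W) - y : K) : W) =
        d (B (h (f (y : W) : W)) - B (B (h (y : W)))) := by
      show (f (f (y : W) : W) : W) - (y : W) = _
      rw [hfx (f (y : W) : W), hB' _ hfy]
      have h3 : B (f (y : W) : W) = (y : W) - d (B (B (h (y : W)))) := by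
        rw [hfx, hB' _ hy, map_add, hBB, hBd]
        abel
      rw [h3, map_sub]
      abel
    rw [h2]
    exact ⟨_, rfl⟩
  obtain ⟨m, hm1, hm2⟩ := trace_involution hp (D.mkQ ∘ₗ g) hinv
  refine ⟨m, hm1.trans ?_, ?_⟩
  · obtain ⟨ℓ, hℓ⟩ := hr
    have hker : LinearMap.ker (ℓ ∘ₗ K.subtype) ≤ D := by
      rintro ⟨x, hx⟩ hx0
      have hx0' : ℓ x = 0 := hx0
      obtain ⟨y, -, hy⟩ := hℓ x trivial (by
        rw [Submodule.mem_bot]
        exact hx) hx0'
      rw [Submodule.mem_bot, sub_eq_zero] at hy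
      exact ⟨y, hy.symm⟩
    have h1 := Submodule.finrank_mono hker
    have h2 := LinearMap.finrank_range_add_finrank_ker (ℓ ∘ₗ K.subtype)
    have h3 := D.finrank_quotient_add_finrank
    have h4 : Module.finrank (ZMod p) (LinearMap.range (ℓ ∘ₗ K.subtype)) ≤ r := by
      have h5 := Submodule.finrank_le (LinearMap.range (ℓ ∘ₗ K.subtype))
      simpa using h5
    have h6 : Module.finrank (ZMod p) (K ⧸ D) ≤ r := by omega
    exact_mod_cast h6
  · rw [ht2, ht3, hm2]

end Pool.Agent.H47.ST
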