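import Pool.Agent.H47.ST.TransN
import Pool.Agent.H47.ST.Tr

/-!
# The reflection `v ↦ -v`
-/

set_option autoImplicit false

namespace Pool.Agent.H47.ST

variable {κ : Type*} [Fintype κ]

/-! ### Translations -/

theorem Sym_mem_tr (l v : κ → ℤ) (σ : Finset (κ → ℤ)) : v ∈ tr l σ ↔ v - l ∈ σ := by
  unfold tr
  rw [Finset.mem_map]
  constructor
  · rintro ⟨w, hw, rfl⟩
    have h : (Equiv.addRight l).toEmbedding w - l = w := add_sub_cancel_right w l
    rw [h]
    exact hw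
  · intro h
    exact ⟨v - l, h, sub_add_cancel v l⟩

theorem Sym_adj_add (v w l : κ → ℤ) : Adj (v + l) (w + l) ↔ Adj v w := by
  unfold Adj
  have h1 : ∀ a b : κ → ℤ, a + l ≤ b + l + 1 ↔ a ≤ b + 1 := by
    intro a b
    rw [add_right_comm, add_le_add_iff_right]
  rw [h1, h1, add_le_add_iff_right, add_le_add_iff_right]

theorem Sym_simp_tr (l : κ → ℤ) (σ : Finset (κ → ℤ)) : Simp (tr l σ) ↔ Simp σ := by
  constructor
  · intro h v hv w hw
    have h1 := h (v + l) (by rw [Sym_mem_tr, add_sub_cancel_right]; exact hv) (w + l)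
      (by rw [Sym_mem_tr, add_sub_cancel_right]; exact hw)
    exact (Sym_adj_add v w l).1 h1
  · intro h v hv w hw
    rw [Sym_mem_tr] at hv hw
    have h1 := (Sym_adj_add (v - l) (w - l) l).2 (h _ hv _ hw)
    rw [sub_add_cancel, sub_add_cancel] at h1
    exact h1

theorem Sym_all_tr {L : AddSubgroup (κ → ℤ)} {B : Set (κ → ℤ)} (hB : Inv L B) {l : κ → ℤ}
    (hl : l ∈ L) (σ : Finset (κ → ℤ)) : (∀ v ∈ tr l σ, v ∈ B) ↔ ∀ v ∈ σ, v ∈ B := by
  constructor
  · intro h v hv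
    exact (hB l hl v).2 (h (v + l) (by rw [Sym_mem_tr, add_sub_cancel_right]; exact hv))
  · intro h v hv
    rw [Sym_mem_tr] at hv
    have h1 := (hB l hl (v - l)).1 (h _ hv)
    rw [sub_add_cancel] at h1
    exact h1

theorem Sym_In_tr {L : AddSubgroup (κ → ℤ)} {X : Set (κ → ℤ)} (hX : Inv L X) {l : κ → ℤ}
    (hl : l ∈ L) (σ : Finset (κ → ℤ)) : In X (tr l σ) ↔ In X σ := by
  unfold In
  rw [Sym_simp_tr, Sym_all_tr hX hl]

theorem Sym_tr_zero (σ : Finset (κ → ℤ)) : tr 0 σ = σ := by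
  ext v
  rw [Sym_mem_tr, sub_zero]

theorem Sym_tr_tr (l l' : κ → ℤ) (σ : Finset (κ → ℤ)) : tr l' (tr l σ) = tr (l + l') σ := by
  ext v
  rw [Sym_mem_tr, Sym_mem_tr, Sym_mem_tr, sub_sub, add_comm l' l]

theorem Sym_card_tr (l : κ → ℤ) (σ : Finset (κ → ℤ)) : (tr l σ).card = σ.card :=
  Finset.card_map _

theorem Sym_sgn_tr (F : Type*) [Field F] (l : κ → ℤ) (σ : Finset (κ → ℤ)) (v : κ → ℤ) :
    sgn F (tr l σ) (v + l) = sgn F σ v := by
  classical
  unfold sgn
  congr 1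
  unfold tr
  rw [Finset.filter_map, Finset.card_map]
  congr 1
  apply Finset.filter_congr
  intro w _
  show w + l < v + l ↔ w < v
  exact add_lt_add_iff_right l

theorem Sym_erase_tr (l : κ → ℤ) (σ : Finset (κ → ℤ)) (v : κ → ℤ) :
    (tr l σ).erase (v + l) = tr l (σ.erase v) := by
  ext w
  rw [Finset.mem_erase, Sym_mem_tr, Sym_mem_tr, Finset.mem_erase]
  constructor
  · rintro ⟨h1, h2⟩
    refine ⟨fun h => h1 ?_, h2⟩
    rw [← h, sub_add_cancel]
  · rintro ⟨h1, h2⟩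
    refine ⟨fun h => h1 ?_, h2⟩
    rw [h, add_sub_cancel_right]

theorem Sym_dX_tr {F : Type*} [Field F] {L : AddSubgroup (κ → ℤ)} {X : Set (κ → ℤ)}
    (hX : Inv L X) {c : Co κ F} (hc : ∀ l ∈ L, ∀ σ, c (tr l σ) = c σ) {l : κ → ℤ} (hl : l ∈ L)
    (σ : Finset (κ → ℤ)) : dX X c (tr l σ) = dX X c σ := by
  classical
  rw [dX_apply, dX_apply]
  by_cases h : In X σ
  · rw [if_pos h, if_pos ((Sym_In_tr hX hl σ).2 h)]
    have h1 : ∑ v ∈ tr l σ, sgn F (tr l σ) v * c ((tr l σ).erase v) =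
        ∑ v ∈ σ, sgn F (tr l σ) (v + l) * c ((tr l σ).erase (v + l)) :=
      Finset.sum_map σ (Equiv.addRight l).toEmbedding _
    rw [h1]
    refine Finset.sum_congr rfl fun v _ => ?_
    rw [Sym_sgn_tr, Sym_erase_tr, hc l hl]
  · rw [if_neg h, if_neg (fun h1 => h ((Sym_In_tr hX hl σ).1 h1))]

theorem Sym_dX_cot {F : Type*} [Field F] {L : AddSubgroup (κ → ℤ)} {X A : Set (κ → ℤ)}
    (hX : Inv L X) : ∀ c ∈ cot F L X A, dX X c ∈ cot F L X A := by
  classical
  intro c hc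
  refine ⟨fun l hl σ => Sym_dX_tr hX hc.1 hl σ, fun σ h => ?_⟩
  rw [dX_apply] at h
  by_cases h1 : In X σ
  · refine ⟨h1, fun h2 => h ?_⟩
    rw [if_pos h1]
    refine Finset.sum_eq_zero fun v _ => ?_
    have h3 : c (σ.erase v) = 0 := by
      by_contra h4
      exact (hc.2 _ h4).2 fun w hw => h2 w (Finset.mem_of_mem_erase hw)
    rw [h3, mul_zero]
  · rw [if_neg h1] at h
    exact absurd rfl h

/-! ### The reflection -/

/-- the image of a finite set under `v ↦ -v` -/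
def Sym_ng (σ : Finset (κ → ℤ)) : Finset (κ → ℤ) := σ.map (Equiv.neg (κ → ℤ)).toEmbedding

theorem Sym_mem_ng (v : κ → ℤ) (σ : Finset (κ → ℤ)) : v ∈ Sym_ng σ ↔ -v ∈ σ := by
  unfold Sym_ng
  rw [Finset.mem_map]
  constructor
  · rintro ⟨w, hw, rfl⟩
    have h : -((Equiv.neg (κ → ℤ)).toEmbedding w) = w := neg_neg w
    rw [h]
    exact hw
  · intro h
    exact ⟨-v, h, neg_neg v⟩

theorem Sym_ng_ng (σ : Finset (κ → ℤ)) : Sym_ng (Sym_ng σ) = σ := by
  ext v
  rw [Sym_mem_ng, Sym_mem_ng, neg_neg]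

theorem Sym_ng_tr (l : κ → ℤ) (σ : Finset (κ → ℤ)) :
    Sym_ng (tr l σ) = tr (-l) (Sym_ng σ) := by
  ext v
  rw [Sym_mem_ng, Sym_mem_tr, Sym_mem_tr, Sym_mem_ng]
  have h : -(v - -l) = -v - l := by ring
  rw [h]

theorem Sym_card_ng (σ : Finset (κ → ℤ)) : (Sym_ng σ).card = σ.card := Finset.card_map _

theorem Sym_adj_neg (v w : κ → ℤ) : Adj (-v) (-w) ↔ Adj v w := by
  unfold Adj
  have h1 : ∀ a b : κ → ℤ, -a ≤ -b + 1 ↔ b ≤ a + 1 := by
    intro a b
    rw [← sub_nonneg, ← sub_nonneg (a := a + 1)]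
    have h : -b + 1 - -a = a + 1 - b := by ring
    rw [h]
  rw [h1, h1, neg_le_neg_iff, neg_le_neg_iff]
  tauto

theorem Sym_simp_ng (σ : Finset (κ → ℤ)) : Simp (Sym_ng σ) ↔ Simp σ := by
  have h0 : ∀ τ : Finset (κ → ℤ), Simp τ → Simp (Sym_ng τ) := by
    intro τ h v hv w hw
    rw [Sym_mem_ng] at hv hw
    exact (Sym_adj_neg v w).1 (h _ hv _ hw)
  constructor
  · intro h
    have h1 := h0 _ h
    rw [Sym_ng_ng] at h1
    exact h1
  · exact h0 σ

theorem Sym_all_ng {B : Set (κ → ℤ)} (hB : ∀ v, v ∈ B ↔ -v ∈ B) (σ : Finset (κ → ℤ)) :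
    (∀ v ∈ Sym_ng σ, v ∈ B) ↔ ∀ v ∈ σ, v ∈ B := by
  constructor
  · intro h v hv
    exact (hB v).2 (h (-v) (by rw [Sym_mem_ng, neg_neg]; exact hv))
  · intro h v hv
    rw [Sym_mem_ng] at hv
    exact (hB v).2 (h _ hv)

theorem Sym_In_ng {X : Set (κ → ℤ)} (hX : ∀ v, v ∈ X ↔ -v ∈ X) (σ : Finset (κ → ℤ)) :
    In X (Sym_ng σ) ↔ In X σ := by
  unfold In
  rw [Sym_simp_ng, Sym_all_ng hX]

theorem Sym_erase_ng (σ : Finset (κ → ℤ)) (v : κ → ℤ) :
    (Sym_ng σ).erase (-v) = Sym_ng (σ.erase v) := by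
  ext w
  rw [Finset.mem_erase, Sym_mem_ng, Sym_mem_ng, Finset.mem_erase]
  constructor
  · rintro ⟨h1, h2⟩
    refine ⟨fun h => h1 ?_, h2⟩
    rw [← h, neg_neg]
  · rintro ⟨h1, h2⟩
    refine ⟨fun h => h1 ?_, h2⟩
    rw [h, neg_neg]

open Classical in
theorem Sym_count {σ : Finset (κ → ℤ)} (h : Simp σ) {v : κ → ℤ} (hv : v ∈ σ) :
    (σ.filter (fun w => w < v)).card + (σ.filter (fun w => v < w)).card + 1 = σ.card := by
  have h1 : σ = insert v (σ.filter (fun w => w < v) ∪ σ.filter (fun w => v < w)) := by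
    ext w
    rw [Finset.mem_insert, Finset.mem_union, Finset.mem_filter, Finset.mem_filter]
    constructor
    · intro hw
      by_cases hwv : w = v
      · exact Or.inl hwv
      · rcases h w hw v hv with h2 | h2
        · exact Or.inr (Or.inl ⟨hw, lt_of_le_of_ne h2.1 hwv⟩)
        · exact Or.inr (Or.inr ⟨hw, lt_of_le_of_ne h2.1 (Ne.symm hwv)⟩)
    · rintro (h2 | h2 | h2)
      · rw [h2]
        exact hv
      · exact h2.1
      · exact h2.1
  have h2 : v ∉ σ.filter (fun w => w < v) ∪ σ.filter (fun w => v < w) := by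
    rw [Finset.mem_union, Finset.mem_filter, Finset.mem_filter]
    rintro (h3 | h3)
    · exact lt_irrefl _ h3.2
    · exact lt_irrefl _ h3.2
  have h3 : Disjoint (σ.filter (fun w => w < v)) (σ.filter (fun w => v < w)) := by
    rw [Finset.disjoint_left]
    intro w h4 h5
    rw [Finset.mem_filter] at h4 h5
    exact lt_asymm h4.2 h5.2
  conv_rhs => rw [h1]
  rw [Finset.card_insert_of_notMem h2, Finset.card_union_of_disjoint h3]

theorem Sym_sgn_ng (F : Type*) [Field F] {σ : Finset (κ → ℤ)} (h : Simp σ) {v : κ → ℤ}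
    (hv : v ∈ σ) : sgn F (Sym_ng σ) (-v) = (-1) ^ (σ.card - 1) * sgn F σ v := by
  classical
  unfold sgn
  have h1 : ((Sym_ng σ).filter (fun w => w < -v)).card = (σ.filter (fun w => v < w)).card := by
    unfold Sym_ng
    rw [Finset.filter_map, Finset.card_map]
    congr 1
    apply Finset.filter_congr
    intro w _
    show -w < -v ↔ v < w
    exact neg_lt_neg_iff
  have h2 := Sym_count h hv
  rw [h1]
  have h3 : σ.card - 1 = (σ.filter (fun w => w < v)).card + (σ.filter (fun w => v < w)).card := by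
    omega
  rw [h3, pow_add, mul_right_comm, ← pow_add, ← two_mul, pow_mul]
  simp

/-- the reflection of cochains -/
noncomputable def Sym_R (F : Type*) [Field F] : Co κ F →ₗ[F] Co κ F where
  toFun c σ := (-1) ^ (σ.card * (σ.card - 1) / 2) * c (Sym_ng σ)
  map_add' a b := by
    ext σ
    simp only [Pi.add_apply, mul_add]
  map_smul' a b := by
    ext σ
    simp only [Pi.smul_apply, smul_eq_mul, RingHom.id_apply]
    ring

theorem Sym_R_apply {F : Type*} [Field F] (c : Co κ F) (σ : Finset (κ → ℤ)) :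
    Sym_R F c σ = (-1) ^ (σ.card * (σ.card - 1) / 2) * c (Sym_ng σ) := rfl

/-- the sign of the degree -/
noncomputable def Sym_e (F : Type*) [Field F] : Co κ F →ₗ[F] Co κ F where
  toFun c σ := (-1) ^ σ.card * c σ
  map_add' a b := by
    ext σ
    simp only [Pi.add_apply, mul_add]
  map_smul' a b := by
    ext σ
    simp only [Pi.smul_apply, smul_eq_mul, RingHom.id_apply]
    ring

theorem Sym_e_apply {F : Type*} [Field F] (c : Co κ F) (σ : Finset (κ → ℤ)) :
    Sym_e F c σ = (-1) ^ σ.card * c σ := rfl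

theorem Sym_sq {F : Type*} [Field F] (n : ℕ) : ((-1 : F) ^ n) * (-1) ^ n = 1 := by
  rw [← pow_add, ← two_mul, pow_mul]
  simp

theorem Sym_R_R {F : Type*} [Field F] (c : Co κ F) : Sym_R F (Sym_R F c) = c := by
  ext σ
  rw [Sym_R_apply, Sym_R_apply, Sym_card_ng, Sym_ng_ng, ← mul_assoc, Sym_sq, one_mul]

theorem Sym_e_e {F : Type*} [Field F] (c : Co κ F) : Sym_e F (Sym_e F c) = c := by
  ext σ
  rw [Sym_e_apply, Sym_e_apply, ← mul_assoc, Sym_sq, one_mul]

theorem Sym_e_R {F : Type*} [Field F] (c : Co κ F) : Sym_e F (Sym_R F c) = Sym_R F (Sym_e F c) := by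
  ext σ
  rw [Sym_e_apply, Sym_R_apply, Sym_R_apply, Sym_e_apply, Sym_card_ng]
  ring

theorem Sym_e_d {F : Type*} [Field F] (X : Set (κ → ℤ)) (c : Co κ F) :
    Sym_e F (dX X c) = -(dX X (Sym_e F c)) := by
  classical
  ext σ
  rw [Sym_e_apply, Pi.neg_apply, dX_apply, dX_apply]
  by_cases h : In X σ
  · rw [if_pos h, if_pos h, Finset.mul_sum, ← Finset.sum_neg_distrib]
    refine Finset.sum_congr rfl fun v hv => ?_
    rw [Sym_e_apply]
    have h1 : σ.card = (σ.erase v).card + 1 := (Finset.card_erase_add_one hv).symm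
    rw [h1, pow_succ]
    ring
  · rw [if_neg h, if_neg h]
    simp

theorem Sym_R_d {F : Type*} [Field F] {X : Set (κ → ℤ)} (hX : ∀ v, v ∈ X ↔ -v ∈ X)
    (c : Co κ F) : Sym_R F (dX X c) = dX X (Sym_R F c) := by
  classical
  ext σ
  rw [Sym_R_apply, dX_apply, dX_apply]
  by_cases h : In X σ
  · rw [if_pos h, if_pos ((Sym_In_ng hX σ).2 h)]
    have h1 : ∑ v ∈ Sym_ng σ, sgn F (Sym_ng σ) v * c ((Sym_ng σ).erase v) =
        ∑ v ∈ σ, sgn F (Sym_ng σ) (-v) * c ((Sym_ng σ).erase (-v)) :=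
      Finset.sum_map σ (Equiv.neg (κ → ℤ)).toEmbedding _
    rw [h1, Finset.mul_sum]
    refine Finset.sum_congr rfl fun v hv => ?_
    rw [Sym_sgn_ng F h.1 hv, Sym_erase_ng, Sym_R_apply]
    have h2 : σ.card = (σ.erase v).card + 1 := (Finset.card_erase_add_one hv).symm
    obtain ⟨m, hm⟩ : ∃ m, (σ.erase v).card = m := ⟨_, rfl⟩
    rw [h2, hm, Nat.triangle_succ, Nat.add_sub_cancel, pow_add]
    have h3 := Sym_sq (F := F) m
    calc (-1 : F) ^ (m * (m - 1) / 2) * (-1) ^ m * ((-1) ^ m * sgn F σ v * c (Sym_ng (σ.erase v)))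
        = ((-1 : F) ^ m * (-1) ^ m) *
          (sgn F σ v * ((-1) ^ (m * (m - 1) / 2) * c (Sym_ng (σ.erase v)))) := by ring
      _ = _ := by rw [h3, one_mul]
  · rw [if_neg h, if_neg (fun h1 => h ((Sym_In_ng hX σ).1 h1)), mul_zero]

theorem Sym_R_cot {F : Type*} [Field F] {L : AddSubgroup (κ → ℤ)} {X A : Set (κ → ℤ)}
    (hXs : ∀ v, v ∈ X ↔ -v ∈ X) (hAs : ∀ v, v ∈ A ↔ -v ∈ A) :
    ∀ c ∈ cot F L X A, Sym_R F c ∈ cot F L X A := by
  intro c hc
  refine ⟨fun l hl σ => ?_, fun σ h => ?_⟩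
  · rw [Sym_R_apply, Sym_R_apply, Sym_card_tr, Sym_ng_tr, hc.1 _ (L.neg_mem hl)]
  · have h1 := hc.2 _ (right_ne_zero_of_mul h)
    rw [Sym_In_ng hXs, Sym_all_ng hAs] at h1
    exact h1

theorem Sym_e_cot {F : Type*} [Field F] {L : AddSubgroup (κ → ℤ)} {X A : Set (κ → ℤ)} :
    ∀ c ∈ cot F L X A, Sym_e F c ∈ cot F L X A := by
  intro c hc
  refine ⟨fun l hl σ => ?_, fun σ h => ?_⟩
  · rw [Sym_e_apply, Sym_e_apply, Sym_card_tr, hc.1 _ hl]
  · exact hc.2 _ (right_ne_zero_of_mul h)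

/-! ### Classes of simplices -/

/-- equivalence of simplices modulo `L` -/
def Sym_st (L : AddSubgroup (κ → ℤ)) (X A : Set (κ → ℤ)) :
    Setoid {σ : Finset (κ → ℤ) // In X σ ∧ ¬ ∀ v ∈ σ, v ∈ A} where
  r σ τ := ∃ l ∈ L, tr l σ.1 = τ.1
  iseqv := by
    refine ⟨fun σ => ⟨0, L.zero_mem, Sym_tr_zero _⟩, ?_, ?_⟩
    · rintro σ τ ⟨l, hl, h⟩
      refine ⟨-l, L.neg_mem hl, ?_⟩
      rw [← h, Sym_tr_tr, add_neg_cancel, Sym_tr_zero]
    · rintro σ τ ρ ⟨l, hl, h⟩ ⟨l', hl', h'⟩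
      refine ⟨l + l', L.add_mem hl hl', ?_⟩
      rw [← Sym_tr_tr, h, h']

open Classical in
/-- invariant cochains are the functions on the classes of simplices -/
noncomputable def Sym_eq (F : Type*) [Field F] {L : AddSubgroup (κ → ℤ)} {X A : Set (κ → ℤ)}
    (hX : Inv L X) (hA : Inv L A) : cot F L X A ≃ₗ[F] (Quotient (Sym_st L X A) → F) where
  toFun c := Quotient.lift (fun σ => c.1 σ.1) (by
    rintro σ τ ⟨l, hl, h⟩
    show c.1 σ.1 = c.1 τ.1
    rw [← h]
    exact (c.2.1 l hl σ.1).symm)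
  map_add' c c' := by
    funext q
    induction q using Quotient.inductionOn
    rfl
  map_smul' a c := by
    funext q
    induction q using Quotient.inductionOn
    rfl
  invFun f := ⟨fun σ => if h : In X σ ∧ ¬ ∀ v ∈ σ, v ∈ A then f (Quotient.mk _ ⟨σ, h⟩) else 0, by
    refine ⟨fun l hl σ => ?_, fun σ h => ?_⟩
    · by_cases h : In X σ ∧ ¬ ∀ v ∈ σ, v ∈ A
      · have h' : In X (tr l σ) ∧ ¬ ∀ v ∈ tr l σ, v ∈ A := by
          rw [Sym_In_tr hX hl, Sym_all_tr hA hl]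
          exact h
        beta_reduce
        rw [dif_pos h, dif_pos h']
        congr 1
        apply Quotient.sound
        exact (Sym_st L X A).symm ⟨l, hl, rfl⟩
      · have h' : ¬ (In X (tr l σ) ∧ ¬ ∀ v ∈ tr l σ, v ∈ A) := by
          rw [Sym_In_tr hX hl, Sym_all_tr hA hl]
          exact h
        beta_reduce
        rw [dif_neg h, dif_neg h']
    · by_contra h1
      exact h (dif_neg h1)⟩
  left_inv c := by
    apply Subtype.ext
    funext σ
    by_cases h : In X σ ∧ ¬ ∀ v ∈ σ, v ∈ A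
    · exact dif_pos h
    · have h1 : c.1 σ = 0 := by
        by_contra h2
        exact h (c.2.2 σ h2)
      rw [h1]
      exact dif_neg h
  right_inv f := by
    funext q
    induction q using Quotient.inductionOn with
    | h σ => exact dif_pos σ.2

theorem Sym_eq_mk {F : Type*} [Field F] {L : AddSubgroup (κ → ℤ)} {X A : Set (κ → ℤ)}
    (hX : Inv L X) (hA : Inv L A) (c : cot F L X A)
    (σ : {σ : Finset (κ → ℤ) // In X σ ∧ ¬ ∀ v ∈ σ, v ∈ A}) :
    Sym_eq F hX hA c (Quotient.mk _ σ) = c.1 σ.1 := rfl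

theorem Sym_eq_symm {F : Type*} [Field F] {L : AddSubgroup (κ → ℤ)} {X A : Set (κ → ℤ)}
    (hX : Inv L X) (hA : Inv L A) (f : Quotient (Sym_st L X A) → F)
    (σ : {σ : Finset (κ → ℤ) // In X σ ∧ ¬ ∀ v ∈ σ, v ∈ A}) :
    ((Sym_eq F hX hA).symm f).1 σ.1 = f (Quotient.mk _ σ) := by
  rw [← Sym_eq_mk hX hA, LinearEquiv.apply_symm_apply]

theorem Sym_finite {L : AddSubgroup (κ → ℤ)} {X A : Set (κ → ℤ)} (hX : Inv L X)
    (hA : Inv L A) (hfin : FinMod L X A) : Finite (Quotient (Sym_st L X A)) := by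
  classical
  obtain ⟨D, hD⟩ := hfin
  let P : Finset (Finset (κ → ℤ)) := (D.biUnion fun u => Finset.Icc (u - 1) (u + 1)).powerset
  let T : Type _ := {σ : {σ : Finset (κ → ℤ) // In X σ ∧ ¬ ∀ v ∈ σ, v ∈ A} // σ.1 ∈ P}
  have hT : Finite T := Finite.of_injective (fun σ : T => (⟨σ.1.1, σ.2⟩ : P)) (by
    intro σ τ h
    apply Subtype.ext
    apply Subtype.ext
    have h1 := congrArg Subtype.val h
    exact h1)
  apply Finite.of_surjective (fun σ : T => (Quotient.mk (Sym_st L X A) σ.1))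
  intro q
  induction q using Quotient.inductionOn with
  | h σ =>
    obtain ⟨σ, hσ⟩ := σ
    have h1 := hσ.2
    push Not at h1
    obtain ⟨v, hv, hvA⟩ := h1
    obtain ⟨l, hl, hlD⟩ := hD v (hσ.1.2 v hv) hvA
    have h' : In X (tr l σ) ∧ ¬ ∀ v ∈ tr l σ, v ∈ A := by
      rw [Sym_In_tr hX hl, Sym_all_tr hA hl]
      exact hσ
    refine ⟨⟨⟨tr l σ, h'⟩, ?_⟩, ?_⟩
    · show tr l σ ∈ P
      rw [Finset.mem_powerset]
      intro w hw
      rw [Finset.mem_biUnion]
      refine ⟨v + l, hlD, ?_⟩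
      rw [Sym_mem_tr] at hw
      rw [Finset.mem_Icc]
      have h2 := hσ.1.1 _ hw _ hv
      constructor
      · intro i
        rcases h2 with ⟨h3, h4⟩ | ⟨h3, h4⟩
        · have h5 := h4 i
          simp only [Pi.add_apply, Pi.sub_apply, Pi.one_apply] at h5 ⊢
          omega
        · have h5 := h3 i
          simp only [Pi.add_apply, Pi.sub_apply, Pi.one_apply] at h5 ⊢
          omega
      · intro i
        rcases h2 with ⟨h3, h4⟩ | ⟨h3, h4⟩
        · have h5 := h3 i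
          simp only [Pi.add_apply, Pi.sub_apply, Pi.one_apply] at h5 ⊢
          omega
        · have h5 := h4 i
          simp only [Pi.add_apply, Pi.sub_apply, Pi.one_apply] at h5 ⊢
          omega
    · apply Quotient.sound
      exact (Sym_st L X A).symm ⟨l, hl, rfl⟩

/-- the reflection of the classes -/
def Sym_nu {L : AddSubgroup (κ → ℤ)} {X A : Set (κ → ℤ)} (hXs : ∀ v, v ∈ X ↔ -v ∈ X)
    (hAs : ∀ v, v ∈ A ↔ -v ∈ A) : Quotient (Sym_st L X A) → Quotient (Sym_st L X A) :=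
  Quotient.map (fun σ => ⟨Sym_ng σ.1, by
    rw [Sym_In_ng hXs, Sym_all_ng hAs]
    exact σ.2⟩) (by
    rintro σ τ ⟨l, hl, h⟩
    refine ⟨-l, L.neg_mem hl, ?_⟩
    show tr (-l) (Sym_ng σ.1) = Sym_ng τ.1
    rw [← h, Sym_ng_tr])

/-- the diagonal coefficients -/
def Sym_t (F : Type*) [Field F] (L : AddSubgroup (κ → ℤ)) (X A : Set (κ → ℤ)) :
    Quotient (Sym_st L X A) → F :=
  Quotient.lift (fun σ => (-1 : F) ^ σ.1.card * (-1) ^ (σ.1.card * (σ.1.card - 1) / 2)) (by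
    rintro σ τ ⟨l, hl, h⟩
    show (-1 : F) ^ σ.1.card * (-1) ^ (σ.1.card * (σ.1.card - 1) / 2) =
      (-1 : F) ^ τ.1.card * (-1) ^ (τ.1.card * (τ.1.card - 1) / 2)
    rw [← h, Sym_card_tr])

/-- the trace of a weighted substitution operator -/
theorem Sym_trace {F Q : Type*} [Field F] [Fintype Q] [DecidableEq Q]
    (T : (Q → F) →ₗ[F] (Q → F)) (ν : Q → Q) (t : Q → F) (hT : ∀ f q, T f q = t q * f (ν q)) :
    LinearMap.trace F (Q → F) T = ∑ q, if ν q = q then t q else 0 := by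
  rw [LinearMap.trace_eq_matrix_trace F (Pi.basisFun F Q), Matrix.trace]
  refine Finset.sum_congr rfl fun q _ => ?_
  rw [Matrix.diag_apply, LinearMap.toMatrix_apply, Pi.basisFun_repr, Pi.basisFun_apply, hT]
  by_cases h : ν q = q
  · rw [if_pos h, h, Pi.single_eq_same, mul_one]
  · rw [if_neg h, Pi.single_eq_of_ne h, mul_zero]

/-- the fixed classes are the vertices `v` with `2 v ∈ L` -/
theorem Sym_fixed {L : AddSubgroup (κ → ℤ)} (heven : ∀ l ∈ L, ∀ i, Even (l i))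
    {X A : Set (κ → ℤ)} (hXs : ∀ v, v ∈ X ↔ -v ∈ X) (hAs : ∀ v, v ∈ A ↔ -v ∈ A)
    (σ : {σ : Finset (κ → ℤ) // In X σ ∧ ¬ ∀ v ∈ σ, v ∈ A})
    (h : Sym_nu (L := L) hXs hAs (Quotient.mk _ σ) = Quotient.mk _ σ) :
    ∃ v, σ.1 = {v} ∧ v + v ∈ L := by
  obtain ⟨l, hl, h1⟩ := Quotient.exact h
  have h1' : tr l (Sym_ng σ.1) = σ.1 := h1
  have h2 : ∀ v ∈ σ.1, v + v = l := by
    intro v hv
    have h3 : l - v ∈ σ.1 := by
      rw [← h1', Sym_mem_tr, Sym_mem_ng] at hv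
      have h4 : -(v - l) = l - v := by ring
      rw [h4] at hv
      exact hv
    have h5 := σ.2.1.1 v hv _ h3
    funext i
    obtain ⟨a, ha⟩ := heven l hl i
    rcases h5 with ⟨h6, h7⟩ | ⟨h6, h7⟩
    · have h8 := h6 i
      have h9 := h7 i
      simp only [Pi.add_apply, Pi.sub_apply, Pi.one_apply] at h8 h9 ⊢
      omega
    · have h8 := h6 i
      have h9 := h7 i
      simp only [Pi.add_apply, Pi.sub_apply, Pi.one_apply] at h8 h9 ⊢
      omega
  have h3 := σ.2.2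
  push Not at h3
  obtain ⟨v, hv, -⟩ := h3
  refine ⟨v, ?_, ?_⟩
  · ext w
    rw [Finset.mem_singleton]
    constructor
    · intro hw
      have h4 : w + w = v + v := by rw [h2 w hw, h2 v hv]
      funext i
      have h5 := congrFun h4 i
      simp only [Pi.add_apply] at h5
      omega
    · intro hw
      rw [hw]
      exact hv
  · rw [h2 v hv]
    exact hl

/-- **Lower bound for the total cohomology** of a symmetric pair: at least the number of classes of
vertices with `2 v ∈ L`. -/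
theorem sym_bound {p : ℕ} [Fact p.Prime] {L : AddSubgroup (κ → ℤ)} (hW : Wide L)
    (heven : ∀ l ∈ L, ∀ i, Even (l i)) {X A : Set (κ → ℤ)} (hAX : A ⊆ X) (hX : Inv L X)
    (hA : Inv L A) (hXs : ∀ v, v ∈ X ↔ -v ∈ X) (hAs : ∀ v, v ∈ A ↔ -v ∈ A)
    (hfin : FinMod L X A) (D : Finset (κ → ℤ)) (hD : ∀ v ∈ D, v + v ∈ L)
    (hD' : ∀ v, v + v ∈ L → ∃ c ∈ D, v - c ∈ L)
    (hDd : ∀ v ∈ D, ∀ c ∈ D, v - c ∈ L → v = c)
    (hDX : ∀ v, v + v ∈ L → v ∈ X ∧ v ∉ A) (hp : 2 * D.card < p) {r : ℕ}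
    (hr : RK (dX X) (dX X) (cot (ZMod p) L X A) (cot (ZMod p) L X A) ⊥ ⊥ r) : D.card ≤ r := by
  classical
  let F := ZMod p
  have hQ : Finite (Quotient (Sym_st L X A)) := Sym_finite hX hA hfin
  have hQf : Fintype (Quotient (Sym_st L X A)) := Fintype.ofFinite _
  let W := cot (ZMod p) L X A
  let Φ := Sym_eq (ZMod p) hX hA
  have hWf : FiniteDimensional (ZMod p) W := Module.Finite.equiv Φ.symm
  let d : W →ₗ[ZMod p] W := (dX X).restrict (Sym_dX_cot hX)
  let ε : W →ₗ[ZMod p] W := (Sym_e (ZMod p)).restrict Sym_e_cot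
  let R : W →ₗ[ZMod p] W := (Sym_R (ZMod p)).restrict (Sym_R_cot hXs hAs)
  have h0 : (0 : κ → ℤ) + 0 ∈ L := by
    rw [add_zero]
    exact L.zero_mem
  have hD1 : 1 ≤ D.card := by
    obtain ⟨c, hc, -⟩ := hD' 0 h0
    exact Finset.card_pos.2 ⟨c, hc⟩
  have hp2 : p ≠ 2 := by omega
  have hr' : RK d d ⊤ ⊤ ⊥ ⊥ r := by
    obtain ⟨ℓ, hℓ⟩ := hr
    refine ⟨ℓ.comp W.subtype, fun x _ hx hx' => ?_⟩
    have h1 : dX X x.1 ∈ (⊥ : Submodule (ZMod p) (Co κ (ZMod p))) := by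
      rw [Submodule.mem_bot] at hx ⊢
      exact congrArg Subtype.val hx
    obtain ⟨y, hy, hxy⟩ := hℓ x.1 x.2 h1 hx'
    refine ⟨⟨y, hy⟩, Submodule.mem_top, ?_⟩
    rw [Submodule.mem_bot] at hxy ⊢
    exact Subtype.ext hxy
  obtain ⟨m, hm, htr⟩ := trace_bound hp2 d ε R
    (fun x => Subtype.ext (dX_dX X x.1)) (fun x => Subtype.ext (Sym_e_e x.1))
    (fun x => Subtype.ext (Sym_R_R x.1)) (fun x => Subtype.ext (Sym_e_d X x.1))
    (fun x => Subtype.ext (Sym_R_d hXs x.1)) (fun x => Subtype.ext (Sym_e_R x.1)) hr'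
  -- the trace
  have hT : ∀ f q, (Φ.conj (ε ∘ₗ R)) f q = Sym_t (ZMod p) L X A q * f (Sym_nu hXs hAs q) := by
    intro f q
    induction q using Quotient.inductionOn with
    | h σ =>
      have h1 : (Φ.conj (ε ∘ₗ R)) f (Quotient.mk _ σ) = (-1 : ZMod p) ^ σ.1.card *
          ((-1) ^ (σ.1.card * (σ.1.card - 1) / 2) * (Φ.symm f).1 (Sym_ng σ.1)) := rfl
      have hσ : In X (Sym_ng σ.1) ∧ ¬ ∀ v ∈ Sym_ng σ.1, v ∈ A := by
        rw [Sym_In_ng hXs, Sym_all_ng hAs]
        exact σ.2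
      have h2 : (Φ.symm f).1 (Sym_ng σ.1) = f (Quotient.mk _ ⟨Sym_ng σ.1, hσ⟩) :=
        Sym_eq_symm hX hA f ⟨Sym_ng σ.1, hσ⟩
      rw [h1, h2, ← mul_assoc]
      rfl
  have htr2 := Sym_trace (Φ.conj (ε ∘ₗ R)) (Sym_nu hXs hAs) (Sym_t (ZMod p) L X A) hT
  rw [LinearMap.trace_conj', htr] at htr2
  have hcount : (Finset.univ.filter fun q : Quotient (Sym_st L X A) =>
      Sym_nu hXs hAs q = q).card = D.card := by
    symm
    have hS : ∀ v, v + v ∈ L → In X {v} ∧ ¬ ∀ w ∈ ({v} : Finset (κ → ℤ)), w ∈ A := by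
      intro v hv
      have h1 := hDX v hv
      refine ⟨⟨?_, ?_⟩, ?_⟩
      · intro a ha b hb
        rw [Finset.mem_singleton] at ha hb
        rw [ha, hb]
        refine Or.inl ⟨le_rfl, ?_⟩
        intro i
        simp only [Pi.add_apply, Pi.one_apply]
        omega
      · intro w hw
        rw [Finset.mem_singleton] at hw
        rw [hw]
        exact h1.1
      · intro h2
        exact h1.2 (h2 v (Finset.mem_singleton_self v))
    have htr1 : ∀ l v : κ → ℤ, tr l {v} = {v + l} := fun l v => Finset.map_singleton _ _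
    refine Finset.card_bij (fun v hv => Quotient.mk _ ⟨{v}, hS v (hD v hv)⟩) ?_ ?_ ?_
    · intro v hv
      rw [Finset.mem_filter]
      refine ⟨Finset.mem_univ _, ?_⟩
      apply Quotient.sound
      refine ⟨v + v, hD v hv, ?_⟩
      show tr (v + v) (Sym_ng {v}) = {v}
      have h1 : Sym_ng {v} = {-v} := Finset.map_singleton _ _
      rw [h1, htr1]
      congr 1
      ring
    · intro v hv c hc h
      obtain ⟨l, hl, h1⟩ := Quotient.exact h
      have h2 : tr l {v} = {c} := h1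
      rw [htr1, Finset.singleton_inj] at h2
      apply hDd v hv c hc
      rw [← h2]
      have h3 : v - (v + l) = -l := by ring
      rw [h3]
      exact L.neg_mem hl
    · intro q hq
      rw [Finset.mem_filter] at hq
      induction q using Quotient.inductionOn with
      | h σ =>
        obtain ⟨v, hv, hvL⟩ := Sym_fixed heven hXs hAs σ hq.2
        obtain ⟨c, hc, hcv⟩ := hD' v hvL
        refine ⟨c, hc, ?_⟩
        apply Quotient.sound
        refine ⟨v - c, hcv, ?_⟩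
        show tr (v - c) {c} = σ.1
        rw [hv, htr1]
        congr 1
        ring
  have hsum : (∑ q, if Sym_nu hXs hAs q = q then Sym_t (ZMod p) L X A q else 0) =
      -(D.card : ZMod p) := by
    rw [← Finset.sum_filter, ← hcount]
    have h1 : ∀ q ∈ Finset.univ.filter (fun q : Quotient (Sym_st L X A) =>
        Sym_nu hXs hAs q = q), Sym_t (ZMod p) L X A q = -1 := by
      intro q hq
      rw [Finset.mem_filter] at hq
      induction q using Quotient.inductionOn with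
      | h σ =>
        obtain ⟨v, hv, hvL⟩ := Sym_fixed heven hXs hAs σ hq.2
        show (-1 : ZMod p) ^ σ.1.card * (-1) ^ (σ.1.card * (σ.1.card - 1) / 2) = -1
        rw [hv, Finset.card_singleton]
        simp
    rw [Finset.sum_congr rfl h1, Finset.sum_const, nsmul_eq_mul, mul_neg, mul_one]
  rw [hsum] at htr2
  by_contra hcon
  have h1 : ((m + D.card : ℤ) : ZMod p) = 0 := by
    push_cast
    rw [htr2]
    ring
  rw [ZMod.intCast_zmod_eq_zero_iff_dvd] at h1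
  have h2 : m + (D.card : ℤ) = 0 := by
    apply Int.eq_zero_of_abs_lt_dvd h1
    have h3 := abs_le.1 hm
    rw [abs_lt]
    constructor
    · push_cast at h3 ⊢
      omega
    · push_cast at h3 ⊢
      omega
  have h3 := abs_le.1 hm
  omega

end Pool.Agent.H47.ST
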