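import Pool.Agent.H47.ST.CellA

/-!
# Cyclic symmetry: operators on the cochains
-/

set_option autoImplicit false

namespace Pool.Agent.H47.ST

variable {ι : Type*} [Fintype ι] {F : Type*} [Field F]

/-- the action of a permutation of the coordinates on the vertices: `v ↦ v ∘ π` -/
def pe (π : Equiv.Perm ι) : Equiv.Perm (ι → ℤ) where
  toFun v := v ∘ π
  invFun v := v ∘ π.symm
  left_inv v := by ext i; simp
  right_inv v := by ext i; simp

/-- the action on cochains -/
noncomputable def Tp (π : Equiv.Perm ι) : Co ι F →ₗ[F] Co ι F where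
  toFun c σ := c (σ.map (pe π).toEmbedding)
  map_add' _ _ := rfl
  map_smul' _ _ := rfl

/-- `τ = T - 1` -/
noncomputable def ta (F : Type*) [Field F] (π : Equiv.Perm ι) : Co ι F →ₗ[F] Co ι F :=
  Tp π - LinearMap.id

/-- `N = 1 + T + … + T^(p-1)` -/
noncomputable def nu (F : Type*) [Field F] (π : Equiv.Perm ι) (p : ℕ) : Co ι F →ₗ[F] Co ι F :=
  ∑ i ∈ Finset.range p, (Tp π) ^ i

/-- The lattice `L` and the permutation `π` of prime order `p`. -/
structure Cyc (π : Equiv.Perm ι) (p : ℕ) (L : AddSubgroup (ι → ℤ)) : Prop where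
  prime : p.Prime
  pow : π ^ p = 1
  fix : ∀ l ∈ L, l ∘ π = l
  wide : Wide L
  sep : ∀ (v w l : ι → ℤ) (i : ℕ), Adj v w → l ∈ L → w = v ∘ ⇑(π ^ i) + l → w = v

/-- invariance of a set of vertices under the permutation -/
def PInv (π : Equiv.Perm ι) (X : Set (ι → ℤ)) : Prop := ∀ v, v ∈ X ↔ v ∘ π ∈ X

/-- functions vanishing on the simplices with `π`-invariant vertices -/
def vz (F : Type*) [Field F] (π : Equiv.Perm ι) : Submodule F (Co ι F) where
  carrier := {c | ∀ σ, (∀ v ∈ σ, v ∘ π = v) → c σ = 0}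
  zero_mem' := fun _ _ => rfl
  add_mem' := by
    intro a b ha hb σ h
    rw [Pi.add_apply, ha σ h, hb σ h, add_zero]
  smul_mem' := by
    intro t a ha σ h
    rw [Pi.smul_apply, ha σ h, smul_zero]

/-- functions on the simplices in `X`, not in `A`, which vanish on the invariant simplices in `B` -/
noncomputable def Pv (F : Type*) [Field F] (π : Equiv.Perm ι) (L : AddSubgroup (ι → ℤ))
    (X A B : Set (ι → ℤ)) (j : ℕ) : Submodule F (Co ι F) :=
  co (F := F) L X B j ⊔ (co (F := F) L X A j ⊓ vz F π)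

end Pool.Agent.H47.ST
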