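
import Pool.Agent.H47.ST.ShiftD

/-!
# Transfer of the fixed simplices to a smaller grid
-/

set_option autoImplicit false
set_option linter.unusedSectionVars false

namespace Pool.Agent.H47.ST

variable {ι κ : Type*} [Fintype ι] [Fintype κ]

/-- The invariant vertices of the `ι`-grid are the vertices `y ∘ s` of the `κ`-grid. -/
structure Fold (π : Equiv.Perm ι) (s : ι → κ) (L : AddSubgroup (ι → ℤ))
    (L' : AddSubgroup (κ → ℤ)) : Prop where
  surj : Function.Surjective s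
  fix : ∀ v : ι → ℤ, v ∘ π = v ↔ ∃ y : κ → ℤ, v = y ∘ s
  lat : ∀ l : ι → ℤ, l ∈ L ↔ ∃ l' ∈ L', l = l' ∘ s

/-- the vertices of the `κ`-grid in `X` -/
def fo (s : ι → κ) (X : Set (ι → ℤ)) : Set (κ → ℤ) := {y | y ∘ s ∈ X}

/-! ### The embedding of the grids -/

/-- the embedding `y ↦ y ∘ s` of the vertices -/
def TransN_em {s : ι → κ} (hs : Function.Surjective s) : (κ → ℤ) ↪ (ι → ℤ) where
  toFun y := y ∘ s
  inj' y z h := by
    funext k
    obtain ⟨i, rfl⟩ := hs k
    exact congrFun h i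

theorem TransN_em_apply {s : ι → κ} (hs : Function.Surjective s) (y : κ → ℤ) :
    TransN_em hs y = y ∘ s := rfl

theorem TransN_le {s : ι → κ} (hs : Function.Surjective s) {y z : κ → ℤ} :
    y ∘ s ≤ z ∘ s ↔ y ≤ z := by
  constructor
  · intro h k
    obtain ⟨i, rfl⟩ := hs k
    exact h i
  · intro h i
    exact h (s i)

theorem TransN_lt {s : ι → κ} (hs : Function.Surjective s) {y z : κ → ℤ} :
    y ∘ s < z ∘ s ↔ y < z := by
  rw [lt_iff_le_not_ge, lt_iff_le_not_ge, TransN_le hs, TransN_le hs]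

theorem TransN_adj {s : ι → κ} (hs : Function.Surjective s) {y z : κ → ℤ} :
    Adj (y ∘ s) (z ∘ s) ↔ Adj y z := by
  have h1 : ∀ y z : κ → ℤ, z ∘ s ≤ y ∘ s + 1 ↔ z ≤ y + 1 := by
    intro y z
    have h2 : y ∘ s + 1 = (y + 1) ∘ s := rfl
    rw [h2, TransN_le hs]
  unfold Adj
  rw [TransN_le hs, TransN_le hs, h1, h1]

theorem TransN_all {s : ι → κ} (hs : Function.Surjective s) (X : Set (ι → ℤ))
    (σ : Finset (κ → ℤ)) : (∀ v ∈ σ.map (TransN_em hs), v ∈ X) ↔ ∀ v ∈ σ, v ∈ fo s X := by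
  constructor
  · intro h v hv
    exact h _ (Finset.mem_map_of_mem _ hv)
  · intro h v hv
    obtain ⟨w, hw, rfl⟩ := Finset.mem_map.1 hv
    exact h w hw

theorem TransN_simp {s : ι → κ} (hs : Function.Surjective s) (σ : Finset (κ → ℤ)) :
    Simp (σ.map (TransN_em hs)) ↔ Simp σ := by
  constructor
  · intro h v hv w hw
    exact (TransN_adj hs).1 (h _ (Finset.mem_map_of_mem _ hv) _ (Finset.mem_map_of_mem _ hw))
  · intro h v hv w hw
    obtain ⟨v', hv', rfl⟩ := Finset.mem_map.1 hv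
    obtain ⟨w', hw', rfl⟩ := Finset.mem_map.1 hw
    exact (TransN_adj hs).2 (h v' hv' w' hw')

theorem TransN_In {s : ι → κ} (hs : Function.Surjective s) (X : Set (ι → ℤ))
    (σ : Finset (κ → ℤ)) : In X (σ.map (TransN_em hs)) ↔ In (fo s X) σ := by
  unfold In
  rw [TransN_simp, TransN_all]

theorem TransN_sgn {s : ι → κ} (hs : Function.Surjective s) {F : Type*} [Field F]
    (σ : Finset (κ → ℤ)) (v : κ → ℤ) :
    sgn F (σ.map (TransN_em hs)) (TransN_em hs v) = sgn F σ v := by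
  classical
  unfold sgn
  congr 1
  rw [Finset.filter_map, Finset.card_map]
  congr 1
  apply Finset.filter_congr
  intro w _
  exact TransN_lt hs

theorem TransN_erase {s : ι → κ} (hs : Function.Surjective s) (σ : Finset (κ → ℤ))
    (v : κ → ℤ) :
    (σ.map (TransN_em hs)).erase (TransN_em hs v) = (σ.erase v).map (TransN_em hs) := by
  rw [Finset.map_erase]

/-- restriction to the fixed simplices -/
def TransN_res {s : ι → κ} (hs : Function.Surjective s) (F : Type*) [Field F] :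
    Co ι F →ₗ[F] Co κ F where
  toFun c σ := c (σ.map (TransN_em hs))
  map_add' _ _ := rfl
  map_smul' _ _ := rfl

theorem TransN_dd {s : ι → κ} (hs : Function.Surjective s) {F : Type*} [Field F] (c : Co ι F)
    (σ : Finset (κ → ℤ)) : dd c (σ.map (TransN_em hs)) = dd (TransN_res hs F c) σ := by
  rw [dd_apply, dd_apply, Finset.sum_map]
  refine Finset.sum_congr rfl fun v _ => ?_
  rw [TransN_sgn, TransN_erase]
  rfl

theorem TransN_dX {s : ι → κ} (hs : Function.Surjective s) {F : Type*} [Field F]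
    (X : Set (ι → ℤ)) (c : Co ι F) (σ : Finset (κ → ℤ)) :
    dX X c (σ.map (TransN_em hs)) = dX (fo s X) (TransN_res hs F c) σ := by
  classical
  change cut (In X) (dd c) (σ.map (TransN_em hs)) =
    cut (In (fo s X)) (dd (TransN_res hs F c)) σ
  rw [cut_apply, cut_apply, TransN_dd]
  simp only [TransN_In]

theorem TransN_tr {s : ι → κ} (hs : Function.Surjective s) (l : κ → ℤ) (σ : Finset (κ → ℤ)) :
    tr (l ∘ s) (σ.map (TransN_em hs)) = (tr l σ).map (TransN_em hs) := by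
  unfold tr
  rw [Finset.map_map, Finset.map_map]
  congr 1

theorem TransN_fixed {π : Equiv.Perm ι} {s : ι → κ} {L : AddSubgroup (ι → ℤ)}
    {L' : AddSubgroup (κ → ℤ)} (h : Fold π s L L') (σ : Finset (ι → ℤ)) :
    (∀ v ∈ σ, v ∘ π = v) ↔ ∃ σ' : Finset (κ → ℤ), σ'.map (TransN_em h.surj) = σ := by
  classical
  constructor
  · intro hσ
    refine ⟨σ.preimage (TransN_em h.surj) (TransN_em h.surj).injective.injOn, ?_⟩
    ext v
    rw [Finset.mem_map]
    constructor
    · rintro ⟨y, hy, rfl⟩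
      exact Finset.mem_preimage.1 hy
    · intro hv
      obtain ⟨y, hy⟩ := (h.fix v).1 (hσ v hv)
      exact ⟨y, Finset.mem_preimage.2 (by rw [TransN_em_apply, ← hy]; exact hv),
        by rw [TransN_em_apply, ← hy]⟩
  · rintro ⟨σ', rfl⟩ v hv
    obtain ⟨y, _, rfl⟩ := Finset.mem_map.1 hv
    exact (h.fix _).2 ⟨y, rfl⟩

/-- extension by zero from the fixed simplices -/
noncomputable def TransN_ext {s : ι → κ} (hs : Function.Surjective s) (F : Type*) [Field F] :
    Co κ F →ₗ[F] Co ι F where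
  toFun c := Function.extend (fun σ => σ.map (TransN_em hs)) c 0
  map_add' a b := by
    have h := Function.extend_add (fun σ : Finset (κ → ℤ) => σ.map (TransN_em hs)) a b
      (0 : Co ι F) 0
    rw [add_zero] at h
    exact h
  map_smul' t a := by
    have h := Function.extend_smul t (fun σ : Finset (κ → ℤ) => σ.map (TransN_em hs)) a
      (0 : Co ι F)
    rw [smul_zero] at h
    exact h

theorem TransN_ext_map {s : ι → κ} (hs : Function.Surjective s) {F : Type*} [Field F]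
    (c : Co κ F) (σ : Finset (κ → ℤ)) :
    TransN_ext hs F c (σ.map (TransN_em hs)) = c σ :=
  (Finset.map_injective (TransN_em hs)).extend_apply c 0 σ

theorem TransN_ext_ne {s : ι → κ} (hs : Function.Surjective s) {F : Type*} [Field F]
    {c : Co κ F} {σ : Finset (ι → ℤ)} (h : TransN_ext hs F c σ ≠ 0) :
    ∃ σ' : Finset (κ → ℤ), σ'.map (TransN_em hs) = σ ∧ c σ' ≠ 0 := by
  by_cases h1 : ∃ σ' : Finset (κ → ℤ), σ'.map (TransN_em hs) = σ
  · obtain ⟨σ', rfl⟩ := h1
    rw [TransN_ext_map] at h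
    exact ⟨σ', rfl, h⟩
  · exact absurd (Function.extend_apply' c (0 : Co ι F) σ h1) h

theorem TransN_ext_tr {π : Equiv.Perm ι} {s : ι → κ} {L : AddSubgroup (ι → ℤ)}
    {L' : AddSubgroup (κ → ℤ)} (h : Fold π s L L') {F : Type*} [Field F] {c : Co κ F}
    (hc : ∀ l ∈ L', ∀ σ, c (tr l σ) = c σ) {l : ι → ℤ} (hl : l ∈ L) (σ : Finset (ι → ℤ)) :
    TransN_ext h.surj F c (tr l σ) = TransN_ext h.surj F c σ := by
  obtain ⟨l', hl', rfl⟩ := (h.lat l).1 hl
  by_cases h1 : ∃ σ' : Finset (κ → ℤ), σ'.map (TransN_em h.surj) = σ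
  · obtain ⟨σ', rfl⟩ := h1
    rw [TransN_tr, TransN_ext_map, TransN_ext_map, hc l' hl']
  · have h2 : ¬ ∃ σ' : Finset (κ → ℤ), σ'.map (TransN_em h.surj) = tr (l' ∘ s) σ := by
      rintro ⟨σ', hσ'⟩
      apply h1
      refine ⟨tr (-l') σ', ?_⟩
      rw [← TransN_tr, hσ']
      unfold tr
      rw [Finset.map_map]
      convert Finset.map_refl
      ext v i
      simp
    have h3 := Function.extend_apply' c (0 : Co ι F) _ h1
    have h4 := Function.extend_apply' c (0 : Co ι F) _ h2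
    exact h4.trans h3.symm

/-- functions in `Pv` vanish on the fixed simplices in `B` -/
theorem TransN_Pv_zero {F : Type*} [Field F] {π : Equiv.Perm ι} {L : AddSubgroup (ι → ℤ)}
    {X A B : Set (ι → ℤ)} {j : ℕ} {c : Co ι F} (hc : c ∈ Pv F π L X A B j)
    {σ : Finset (ι → ℤ)} (hσ : ∀ v ∈ σ, v ∘ π = v) (hB : ∀ v ∈ σ, v ∈ B) : c σ = 0 := by
  obtain ⟨a, ha, b, hb, rfl⟩ := Submodule.mem_sup.1 hc
  have h1 : a σ = 0 := by
    by_contra h
    exact (ha.2 σ h).2.1 hB
  have h2 : b σ = 0 := hb.2 σ hσ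
  rw [Pi.add_apply, h1, h2, add_zero]

theorem TransN_tr_all {L : AddSubgroup (ι → ℤ)} {B : Set (ι → ℤ)} (hB : Inv L B) {l : ι → ℤ}
    (hl : l ∈ L) (σ : Finset (ι → ℤ)) : (∀ v ∈ tr l σ, v ∈ B) ↔ ∀ v ∈ σ, v ∈ B := by
  unfold tr
  constructor
  · intro h v hv
    exact (hB l hl v).2 (h _ (Finset.mem_map_of_mem _ hv))
  · intro h v hv
    obtain ⟨w, hw, rfl⟩ := Finset.mem_map.1 hv
    exact (hB l hl w).1 (h w hw)

theorem TransN_erase_In {X : Set (κ → ℤ)} {σ : Finset (κ → ℤ)} (h : In X σ) (v : κ → ℤ) :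
    In X (σ.erase v) :=
  ⟨h.1.mono (Finset.erase_subset v σ), fun w hw => h.2 w (Finset.mem_of_mem_erase hw)⟩

theorem TransN_fo_mono (s : ι → κ) {X Y : Set (ι → ℤ)} (h : X ⊆ Y) : fo s X ⊆ fo s Y :=
  fun _ hy => h hy

theorem TransN_In_mono {X Y : Set (κ → ℤ)} (h : X ⊆ Y) {σ : Finset (κ → ℤ)} (hσ : In X σ) :
    In Y σ := ⟨hσ.1, fun v hv => h (hσ.2 v hv)⟩

/-- Cohomology of the fixed simplices in `B`, not in `A`. -/
theorem HR.fold {F : Type*} [Field F] {π : Equiv.Perm ι} {s : ι → κ} {L : AddSubgroup (ι → ℤ)}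
    {L' : AddSubgroup (κ → ℤ)} (h : Fold π s L L') (hW : Wide L) {X A B : Set (ι → ℤ)}
    (hX : Inv L X) (hA : Inv L A) (hB : Inv L B) (hAB : A ⊆ B) (hBX : B ⊆ X) {j r : ℕ}
    (hr : HR F L' (fo s B) (fo s A) j r) :
    HK (dX X) (co (F := F) L X A) (Pv F π L X A B) (j + 1) r := by
  classical
  obtain ⟨ℓ, hℓ⟩ := hr
  -- the restriction
  let R : Co ι F →ₗ[F] Co κ F := (cut (In (fo s B))).comp (TransN_res h.surj F)
  have hR : ∀ c σ, R c σ = if In (fo s B) σ then c (σ.map (TransN_em h.surj)) else 0 :=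
    fun c σ => rfl
  refine ⟨ℓ.comp R, fun x hx hdx hℓx => ?_⟩
  have hx1 : R x ∈ co (F := F) L' (fo s B) (fo s A) (j + 1) := by
    refine ⟨fun l hl σ => ?_, fun σ hσ => ?_⟩
    · rw [hR, hR]
      have h1 : (l ∘ s) ∈ L := (h.lat _).2 ⟨l, hl, rfl⟩
      have h2 : In (fo s B) (tr l σ) ↔ In (fo s B) σ := by
        rw [← TransN_In h.surj, ← TransN_In h.surj, ← TransN_tr]
        unfold In
        rw [TransN_tr_all hB h1]
        have h3 : ∀ (a : ι → ℤ) (τ : Finset (ι → ℤ)), Simp τ → Simp (tr a τ) := by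
          intro a τ hτ v hv w hw
          obtain ⟨v', hv', rfl⟩ := Finset.mem_map.1 hv
          obtain ⟨w', hw', rfl⟩ := Finset.mem_map.1 hw
          have h4 := hτ v' hv' w' hw'
          rcases h4 with h4 | h4
          · left
            refine ⟨fun i => ?_, fun i => ?_⟩
            · have := h4.1 i
              simp; exact this
            · have := h4.2 i
              simp at this ⊢; linarith
          · right
            refine ⟨fun i => ?_, fun i => ?_⟩
            · have := h4.1 i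
              simp; exact this
            · have := h4.2 i
              simp at this ⊢; linarith
        have h5 : ∀ (a : ι → ℤ) (τ : Finset (ι → ℤ)), tr (-a) (tr a τ) = τ := by
          intro a τ
          unfold tr
          rw [Finset.map_map]
          convert Finset.map_refl
          ext v i
          simp
        constructor
        · rintro ⟨h6, h7⟩
          exact ⟨by rw [← h5 (l ∘ s) (σ.map (TransN_em h.surj))]; exact h3 _ _ h6, h7⟩
        · rintro ⟨h6, h7⟩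
          exact ⟨h3 _ _ h6, h7⟩
      rw [← TransN_tr, hx.1 _ h1]
      simp only [h2]
    · rw [hR] at hσ
      by_cases h1 : In (fo s B) σ
      · rw [if_pos h1] at hσ
        have h2 := hx.2 _ hσ
        refine ⟨h1, fun h3 => h2.2.1 ((TransN_all h.surj A σ).2 h3), ?_⟩
        rw [← h2.2.2, Finset.card_map]
      · rw [if_neg h1] at hσ
        exact absurd rfl hσ
  have hx2 : dX (fo s B) (R x) ∈ (⊥ : Submodule F (Co κ F)) := by
    rw [Submodule.mem_bot]
    funext σ
    rw [dX_apply]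
    by_cases h1 : In (fo s B) σ
    · rw [if_pos h1]
      have h2 : ∑ v ∈ σ, sgn F σ v * R x (σ.erase v) =
          dX X x (σ.map (TransN_em h.surj)) := by
        rw [TransN_dX, dX_apply, if_pos (TransN_In_mono (TransN_fo_mono s hBX) h1)]
        refine Finset.sum_congr rfl fun v _ => ?_
        rw [hR, if_pos (TransN_erase_In h1 v)]
        rfl
      rw [h2]
      exact TransN_Pv_zero hdx ((TransN_fixed h _).2 ⟨σ, rfl⟩)
        ((TransN_all h.surj B σ).2 h1.2)
    · rw [if_neg h1]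
      rfl
  obtain ⟨y', hy', hxy⟩ := hℓ (R x) hx1 hx2 hℓx
  rw [Submodule.mem_bot] at hxy
  have hy : TransN_ext h.surj F y' ∈ co (F := F) L X A j := by
    refine ⟨fun l hl σ => TransN_ext_tr h hy'.1 hl σ, fun σ hσ => ?_⟩
    obtain ⟨σ', rfl, h1⟩ := TransN_ext_ne h.surj hσ
    have h2 := hy'.2 σ' h1
    refine ⟨(TransN_In h.surj X σ').2 (TransN_In_mono (TransN_fo_mono s hBX) h2.1),
      fun h3 => h2.2.1 ((TransN_all h.surj A σ').1 h3), ?_⟩
    rw [Finset.card_map, h2.2.2]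
  refine ⟨TransN_ext h.surj F y', hy, ?_⟩
  have hz : x - dX X (TransN_ext h.surj F y') ∈ co (F := F) L X A (j + 1) :=
    Submodule.sub_mem _ hx (dX_mem hX hy)
  set z : Co ι F := x - dX X (TransN_ext h.surj F y') with hzdef
  rw [Pv, Submodule.mem_sup]
  refine ⟨cut (fun σ => ¬ ∀ v ∈ σ, v ∈ B) z, ⟨fun l hl σ => ?_, fun σ hσ => ?_⟩,
    cut (fun σ => ∀ v ∈ σ, v ∈ B) z, ⟨⟨fun l hl σ => ?_, fun σ hσ => ?_⟩, fun σ hσ => ?_⟩, ?_⟩
  · rw [cut_apply, cut_apply, hz.1 l hl]
    by_cases h1 : ∀ v ∈ σ, v ∈ B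
    · rw [if_neg (not_not.2 ((TransN_tr_all hB hl σ).2 h1)), if_neg (not_not.2 h1)]
    · rw [if_pos (fun h2 => h1 ((TransN_tr_all hB hl σ).1 h2)), if_pos h1]
  · rw [cut_apply] at hσ
    by_cases h1 : ∀ v ∈ σ, v ∈ B
    · rw [if_neg (not_not.2 h1)] at hσ
      exact absurd rfl hσ
    · rw [if_pos h1] at hσ
      exact ⟨(hz.2 σ hσ).1, h1, (hz.2 σ hσ).2.2⟩
  · rw [cut_apply, cut_apply, hz.1 l hl]
    by_cases h1 : ∀ v ∈ σ, v ∈ B
    · rw [if_pos ((TransN_tr_all hB hl σ).2 h1), if_pos h1]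
    · rw [if_neg (fun h2 => h1 ((TransN_tr_all hB hl σ).1 h2)), if_neg h1]
  · rw [cut_apply] at hσ
    by_cases h1 : ∀ v ∈ σ, v ∈ B
    · rw [if_pos h1] at hσ
      exact hz.2 σ hσ
    · rw [if_neg h1] at hσ
      exact absurd rfl hσ
  · rw [cut_apply]
    by_cases h1 : ∀ v ∈ σ, v ∈ B
    · rw [if_pos h1]
      by_contra h2
      obtain ⟨σ', rfl⟩ := (TransN_fixed h σ).1 hσ
      have h3 := (hz.2 _ h2).1
      have h4 : In (fo s B) σ' := (TransN_In h.surj B σ').1 ⟨h3.1, h1⟩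
      have h5 := congrFun hxy σ'
      rw [Pi.sub_apply, hR, if_pos h4, dX_apply, if_pos h4] at h5
      apply h2
      rw [hzdef, Pi.sub_apply, TransN_dX, dX_apply,
        if_pos (TransN_In_mono (TransN_fo_mono s hBX) h4)]
      have h6 : TransN_res h.surj F (TransN_ext h.surj F y') = y' := by
        funext τ
        exact TransN_ext_map h.surj y' τ
      rw [h6]
      exact h5
    · rw [if_neg h1]
  · funext σ
    rw [Pi.add_apply, cut_apply, cut_apply]
    by_cases h1 : ∀ v ∈ σ, v ∈ B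
    · rw [if_neg (not_not.2 h1), if_pos h1, zero_add]
    · rw [if_pos h1, if_neg h1, add_zero]

/-- `L`-invariant functions on all simplices in `X`, not in `A`. -/
def cot (F : Type*) [Field F] (L : AddSubgroup (ι → ℤ)) (X A : Set (ι → ℤ)) :
    Submodule F (Co ι F) where
  carrier := {c | (∀ l ∈ L, ∀ σ, c (tr l σ) = c σ) ∧ ∀ σ, c σ ≠ 0 → In X σ ∧ ¬ (∀ v ∈ σ, v ∈ A)}
  zero_mem' := ⟨fun _ _ _ => rfl, fun _ h => absurd rfl h⟩
  add_mem' := by
    rintro a b ⟨ha, ha'⟩ ⟨hb, hb'⟩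
    refine ⟨fun l hl σ => ?_, fun σ h => ?_⟩
    · rw [Pi.add_apply, Pi.add_apply, ha l hl, hb l hl]
    · by_cases h1 : a σ = 0
      · refine hb' σ fun h2 => h ?_
        rw [Pi.add_apply, h1, h2, add_zero]
      · exact ha' σ h1
  smul_mem' := by
    rintro t a ⟨ha, ha'⟩
    refine ⟨fun l hl σ => ?_, fun σ h => ?_⟩
    · rw [Pi.smul_apply, Pi.smul_apply, ha l hl]
    · refine ha' σ fun h2 => h ?_
      rw [Pi.smul_apply, h2, smul_zero]

/-! ### The action on the fixed simplices -/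

theorem TransN_map_pe {π : Equiv.Perm ι} {σ : Finset (ι → ℤ)} (h : ∀ v ∈ σ, v ∘ π = v) :
    σ.map (pe π).toEmbedding = σ := by
  have h1 : σ.map (pe π).toEmbedding ⊆ σ := by
    intro v hv
    obtain ⟨w, hw, rfl⟩ := Finset.mem_map.1 hv
    have h2 : (pe π).toEmbedding w = w := h w hw
    rw [h2]
    exact hw
  exact Finset.eq_of_subset_of_card_le h1 (by rw [Finset.card_map])

theorem TransN_map_pe_fixed {π : Equiv.Perm ι} {σ : Finset (ι → ℤ)}
    (h : ∀ v ∈ σ.map (pe π).toEmbedding, v ∘ π = v) : ∀ v ∈ σ, v ∘ π = v := by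
  intro v hv
  have h1 : (v ∘ π) ∘ π = v ∘ π := h (v ∘ π) (Finset.mem_map_of_mem (pe π).toEmbedding hv)
  funext i
  have h2 := congrFun h1 (π.symm i)
  simpa using h2

theorem TransN_Tp_fixed {F : Type*} [Field F] {π : Equiv.Perm ι} (x : Co ι F)
    {σ : Finset (ι → ℤ)} (h : ∀ v ∈ σ, v ∘ π = v) (n : ℕ) : ((Tp π) ^ n) x σ = x σ := by
  induction n generalizing x with
  | zero => rfl
  | succ n ih =>
    rw [pow_succ, Module.End.mul_apply, ih]
    change x (σ.map (pe π).toEmbedding) = x σ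
    rw [TransN_map_pe h]

theorem TransN_ta_fixed {F : Type*} [Field F] {π : Equiv.Perm ι} (x : Co ι F)
    {σ : Finset (ι → ℤ)} (h : ∀ v ∈ σ, v ∘ π = v) : ta F π x σ = 0 := by
  have h1 := TransN_Tp_fixed x h 1
  rw [pow_one] at h1
  change Tp π x σ - x σ = 0
  rw [h1, sub_self]

theorem TransN_nu_fixed {p : ℕ} [Fact p.Prime] {π : Equiv.Perm ι} (x : Co ι (ZMod p))
    {σ : Finset (ι → ℤ)} (h : ∀ v ∈ σ, v ∘ π = v) : nu (ZMod p) π p x σ = 0 := by
  unfold nu
  rw [LinearMap.sum_apply, Finset.sum_apply]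
  rw [Finset.sum_congr rfl fun i _ => TransN_Tp_fixed x h i, Finset.sum_const,
    Finset.card_range, nsmul_eq_mul, CharP.cast_eq_zero, zero_mul]

theorem TransN_the_fixed {p : ℕ} [Fact p.Prime] {π : Equiv.Perm ι} (x : Co ι (ZMod p))
    {σ : Finset (ι → ℤ)} (h : ∀ v ∈ σ, v ∘ π = v) (m : ℕ) :
    the (ta (ZMod p) π) (nu (ZMod p) π p) m x σ = 0 := by
  unfold the
  split_ifs
  · exact TransN_ta_fixed x h
  · exact TransN_nu_fixed x h

/-- a function with support in the fixed simplices is invariant -/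
theorem TransN_Tp_supp {F : Type*} [Field F] {π : Equiv.Perm ι} {x : Co ι F}
    (h : ∀ σ, x σ ≠ 0 → ∀ v ∈ σ, v ∘ π = v) : Tp π x = x := by
  funext σ
  by_cases h1 : ∀ v ∈ σ, v ∘ π = v
  · have h2 := TransN_Tp_fixed x h1 1
    rw [pow_one] at h2
    exact h2
  · have h2 : x σ = 0 := by
      by_contra h3
      exact h1 (h σ h3)
    have h4 : x (σ.map (pe π).toEmbedding) = 0 := by
      by_contra h3
      exact h1 (TransN_map_pe_fixed (h _ h3))
    change x (σ.map (pe π).toEmbedding) = x σ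
    rw [h2, h4]

theorem TransN_the_supp {p : ℕ} [Fact p.Prime] {π : Equiv.Perm ι} {x : Co ι (ZMod p)}
    (h : ∀ σ, x σ ≠ 0 → ∀ v ∈ σ, v ∘ π = v) (m : ℕ) :
    the (ta (ZMod p) π) (nu (ZMod p) π p) m x = 0 := by
  have h1 := TransN_Tp_supp h
  unfold the
  split_ifs
  · unfold ta
    rw [LinearMap.sub_apply, h1, LinearMap.id_apply, sub_self]
  · unfold nu
    rw [LinearMap.sum_apply]
    have h2 : ∀ i : ℕ, ((Tp π) ^ i) x = x := by
      intro i
      induction i with
      | zero => rfl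
      | succ i ih => rw [pow_succ, Module.End.mul_apply, h1, ih]
    rw [Finset.sum_congr rfl fun i _ => h2 i, Finset.sum_const, Finset.card_range]
    funext σ
    rw [Pi.smul_apply, nsmul_eq_mul, CharP.cast_eq_zero, zero_mul]
    rfl

/-- From the Tate cohomology of the quotient by the functions vanishing on the fixed simplices to
the total cohomology of the `κ`-grid. -/
theorem tot_of_TK {p : ℕ} [Fact p.Prime] {π : Equiv.Perm ι} {s : ι → κ}
    {L : AddSubgroup (ι → ℤ)} {L' : AddSubgroup (κ → ℤ)} (h : Fold π s L L') (hW : Wide L)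
    (hpi : π ^ p = 1) {X A : Set (ι → ℤ)} (hX : Inv L X) (hA : Inv L A) (hAX : A ⊆ X) {r : ℕ}
    (hr : TK (dX (F := ZMod p) X) (ta (ZMod p) π) (nu (ZMod p) π p) 0 (co (F := ZMod p) L X A)
      (Pv (ZMod p) π L X A X) r) :
    RK (dX (fo s X)) (dX (fo s X)) (cot (ZMod p) L' (fo s X) (fo s A))
      (cot (ZMod p) L' (fo s X) (fo s A)) ⊥ ⊥ r := by
  classical
  obtain ⟨ℓ, hℓ⟩ := hr
  let Φ : Co κ (ZMod p) →ₗ[ZMod p] (ℕ → Co ι (ZMod p)) :=
    LinearMap.pi fun j => (cut (fun σ : Finset (ι → ℤ) => σ.card = j)).comp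
      (TransN_ext h.surj (ZMod p))
  have hΦ : ∀ c j σ, Φ c j σ = if σ.card = j then TransN_ext h.surj (ZMod p) c σ else 0 := by
    intro c j σ
    change cut (fun σ : Finset (ι → ℤ) => σ.card = j) (TransN_ext h.surj (ZMod p) c) σ = _
    rw [cut_apply]
    by_cases h1 : σ.card = j
    · rw [if_pos h1, if_pos h1]
    · rw [if_neg h1, if_neg h1]
  have hΦm : ∀ c j (σ : Finset (κ → ℤ)), Φ c j (σ.map (TransN_em h.surj)) =
      if σ.card = j then c σ else 0 := by
    intro c j σ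
    rw [hΦ, Finset.card_map, TransN_ext_map]
  have hΦs : ∀ c j σ, Φ c j σ ≠ 0 → ∃ σ' : Finset (κ → ℤ), σ'.map (TransN_em h.surj) = σ ∧
      c σ' ≠ 0 ∧ σ.card = j := by
    intro c j σ hσ
    rw [hΦ] at hσ
    by_cases h1 : σ.card = j
    · rw [if_pos h1] at hσ
      obtain ⟨σ', h2, h3⟩ := TransN_ext_ne h.surj hσ
      exact ⟨σ', h2, h3, h1⟩
    · rw [if_neg h1] at hσ
      exact absurd rfl hσ
  refine ⟨ℓ.comp Φ, fun c hc hdc hℓc => ?_⟩
  rw [Submodule.mem_bot] at hdc
  -- the components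
  have hco : ∀ j, Φ c j ∈ co (F := ZMod p) L X A j := by
    intro j
    refine ⟨fun l hl σ => ?_, fun σ hσ => ?_⟩
    · rw [hΦ, hΦ, TransN_ext_tr h hc.1 hl]
      have h1 : (tr l σ).card = σ.card := Finset.card_map _
      rw [h1]
    · obtain ⟨σ', rfl, h1, h2⟩ := hΦs c j σ hσ
      have h3 := hc.2 σ' h1
      exact ⟨(TransN_In h.surj X σ').2 h3.1,
        fun h4 => h3.2 ((TransN_all h.surj A σ').1 h4), h2⟩
  have hfix : ∀ j σ, Φ c j σ ≠ 0 → ∀ v ∈ σ, v ∘ π = v := by
    intro j σ hσ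
    obtain ⟨σ', h1, _⟩ := hΦs c j σ hσ
    exact (TransN_fixed h σ).2 ⟨σ', h1⟩
  have hsq : Φ c ∈ sq (co (F := ZMod p) L X A) := by
    intro j _
    exact hco j
  have hdel : del (dX (F := ZMod p) X) (ta (ZMod p) π) (nu (ZMod p) π p) 0 (Φ c) ∈
      sq (Pv (ZMod p) π L X A X) := by
    intro j _
    cases j with
    | zero =>
      rw [del_zero, TransN_the_supp (hfix 0)]
      exact Submodule.zero_mem _
    | succ j =>
      rw [del_succ, TransN_the_supp (hfix (j + 1)), smul_zero, add_zero]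
      apply Submodule.mem_sup_right
      refine ⟨dX_mem hX (hco j), fun σ hσ => ?_⟩
      obtain ⟨σ', rfl⟩ := (TransN_fixed h σ).1 hσ
      rw [TransN_dX, dX_apply]
      by_cases h1 : In (fo s X) σ'
      · rw [if_pos h1]
        by_cases h2 : σ'.card = j + 1
        · have h3 := congrFun hdc σ'
          rw [dX_apply, if_pos h1, Pi.zero_apply] at h3
          rw [← h3]
          refine Finset.sum_congr rfl fun v hv => ?_
          change sgn (ZMod p) σ' v * Φ c j ((σ'.erase v).map (TransN_em h.surj)) = _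
          rw [hΦm, if_pos (by rw [Finset.card_erase_of_mem hv, h2]; rfl)]
        · apply Finset.sum_eq_zero
          intro v hv
          change sgn (ZMod p) σ' v * Φ c j ((σ'.erase v).map (TransN_em h.surj)) = _
          have h3 : 0 < σ'.card := Finset.card_pos.2 ⟨v, hv⟩
          rw [hΦm, if_neg (by rw [Finset.card_erase_of_mem hv]; omega), mul_zero]
      · rw [if_neg h1]
  obtain ⟨y, hy, hyc⟩ := hℓ (Φ c) hsq hdel hℓc
  have hy1 : ∀ j, y j ∈ co (F := ZMod p) L X A j := fun j => hy j (Set.mem_univ j)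
  refine ⟨fun σ' => y σ'.card (σ'.map (TransN_em h.surj)), ⟨fun l hl σ' => ?_,
    fun σ' hσ' => ?_⟩, ?_⟩
  · have h1 : (l ∘ s) ∈ L := (h.lat _).2 ⟨l, hl, rfl⟩
    have h2 : (tr l σ').card = σ'.card := Finset.card_map _
    change y (tr l σ').card ((tr l σ').map (TransN_em h.surj)) = _
    rw [← TransN_tr, (hy1 _).1 _ h1, h2]
  · have h1 := (hy1 _).2 _ hσ'
    exact ⟨(TransN_In h.surj X σ').1 h1.1, fun h2 => h1.2.1 ((TransN_all h.surj A σ').2 h2)⟩
  · rw [Submodule.mem_bot]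
    funext σ'
    rw [Pi.sub_apply, Pi.zero_apply, sub_eq_zero, dX_apply]
    have hfx : ∀ v ∈ σ'.map (TransN_em h.surj), v ∘ π = v :=
      (TransN_fixed h _).2 ⟨σ', rfl⟩
    by_cases h1 : In (fo s X) σ'
    · rw [if_pos h1]
      have h2 := TransN_Pv_zero (hyc σ'.card (Set.mem_univ _)) hfx
        ((TransN_all h.surj X σ').2 h1.2)
      rw [Pi.sub_apply, Pi.sub_apply, sub_eq_zero, hΦm, if_pos rfl] at h2
      rw [h2]
      rcases Nat.eq_zero_or_pos σ'.card with h3 | h3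
      · have h4 : σ' = ∅ := Finset.card_eq_zero.1 h3
        subst h4
        rw [Finset.sum_empty, Finset.card_empty, del_zero, TransN_the_fixed _ hfx]
      · obtain ⟨k, hk⟩ := Nat.exists_eq_succ_of_ne_zero h3.ne'
        rw [hk, del_succ, Pi.add_apply, Pi.smul_apply, TransN_the_fixed _ hfx, smul_zero,
          add_zero, TransN_dX, dX_apply, if_pos h1]
        refine Finset.sum_congr rfl fun v hv => ?_
        have h5 : (σ'.erase v).card = k := by rw [Finset.card_erase_of_mem hv, hk]; rfl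
        rw [h5]
        rfl
    · rw [if_neg h1]
      by_contra h2
      exact h1 (hc.2 σ' h2).1

end Pool.Agent.H47.ST
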