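import Pool.Agent.H47.ST.DomD

/-!
# The domain
-/

set_option autoImplicit false

namespace Pool.Agent.H47.ST

open Pool.Agent.H47.QG (sg neg)

variable {n K : ℕ} [NeZero K]

theorem DomK_sum (g : Iz n K → ℝ) :
    ∑ a, g a = ∑ i : Fin n, ∑ j : Fin K, (g (j, Sum.inl i) + g (j, Sum.inr i)) := by
  rw [Fintype.sum_prod_type, Finset.sum_comm]
  rw [Fintype.sum_sum_type, ← Finset.sum_add_distrib]
  exact Finset.sum_congr rfl fun i _ => by rw [← Finset.sum_add_distrib]

theorem DomK_shift (g : Fin K → ℝ) : ∑ j, g (j + 1) = ∑ j, g j :=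
  Equiv.sum_comp (Equiv.addRight (1 : Fin K)) g

theorem DomK_shift' (g : Fin K → ℝ) : ∑ j, g (j - 1) = ∑ j, g j :=
  Equiv.sum_comp (Equiv.subRight (1 : Fin K)) g

theorem DomK_inl (t : Iz n K → ℝ) (j : Fin K) (i : Fin n) :
    DK n K t (j, Sum.inl i) = t (j - 1, Sum.inr i) - t (j, Sum.inr i) := rfl

theorem DomK_inr (t : Iz n K → ℝ) (j : Fin K) (i : Fin n) :
    DK n K t (j, Sum.inr i) = t (j + 1, Sum.inl i) - t (j, Sum.inl i) := rfl

/-- `DK` as a linear map -/
def DomK_L (n K : ℕ) [NeZero K] : (Iz n K → ℝ) →ₗ[ℝ] (Iz n K → ℝ) where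
  toFun := DK n K
  map_add' t u := by
    funext a
    rcases a with ⟨j, i | i⟩
    · simp only [DomK_inl, Pi.add_apply]; ring
    · simp only [DomK_inr, Pi.add_apply]; ring
  map_smul' c t := by
    funext a
    rcases a with ⟨j, i | i⟩
    · simp only [DomK_inl, Pi.smul_apply, smul_eq_mul, RingHom.id_apply]; ring
    · simp only [DomK_inr, Pi.smul_apply, smul_eq_mul, RingHom.id_apply]; ring

theorem DomK_L_apply (t : Iz n K → ℝ) : DomK_L n K t = DK n K t := rfl

theorem DomK_add (t u : Iz n K → ℝ) (a : Iz n K) :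
    DK n K (t + u) a = DK n K t a + DK n K u a := by
  have := congrFun ((DomK_L n K).map_add t u) a
  exact this

/-- `DK` is symmetric -/
theorem DomK_adj (t u : Iz n K → ℝ) :
    ∑ a, DK n K t a * u a = ∑ a, t a * DK n K u a := by
  rw [DomK_sum, DomK_sum]
  refine Finset.sum_congr rfl fun i _ => ?_
  simp only [DomK_inl, DomK_inr]
  have h1 := DomK_shift (fun j => t (j - 1, Sum.inr i) * u (j, Sum.inl i))
  have h2 := DomK_shift (fun j => t (j, Sum.inl i) * u (j - 1, Sum.inr i))
  simp only [add_sub_cancel_right] at h1 h2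
  have e1 : ∑ j : Fin K, ((t (j - 1, Sum.inr i) - t (j, Sum.inr i)) * u (j, Sum.inl i) +
      (t (j + 1, Sum.inl i) - t (j, Sum.inl i)) * u (j, Sum.inr i)) =
      ∑ j : Fin K, t (j - 1, Sum.inr i) * u (j, Sum.inl i) -
        ∑ j : Fin K, t (j, Sum.inr i) * u (j, Sum.inl i) +
        (∑ j : Fin K, t (j + 1, Sum.inl i) * u (j, Sum.inr i) -
          ∑ j : Fin K, t (j, Sum.inl i) * u (j, Sum.inr i)) := by
    rw [← Finset.sum_sub_distrib, ← Finset.sum_sub_distrib, ← Finset.sum_add_distrib]
    exact Finset.sum_congr rfl fun j _ => by ring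
  have e2 : ∑ j : Fin K, (t (j, Sum.inl i) * (u (j - 1, Sum.inr i) - u (j, Sum.inr i)) +
      t (j, Sum.inr i) * (u (j + 1, Sum.inl i) - u (j, Sum.inl i))) =
      ∑ j : Fin K, t (j, Sum.inl i) * u (j - 1, Sum.inr i) -
        ∑ j : Fin K, t (j, Sum.inl i) * u (j, Sum.inr i) +
        (∑ j : Fin K, t (j, Sum.inr i) * u (j + 1, Sum.inl i) -
          ∑ j : Fin K, t (j, Sum.inr i) * u (j, Sum.inl i)) := by
    rw [← Finset.sum_sub_distrib, ← Finset.sum_sub_distrib, ← Finset.sum_add_distrib]
    exact Finset.sum_congr rfl fun j _ => by ring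
  rw [e1, e2, ← h1, ← h2]
  ring

/-- Euler identity -/
theorem DomK_euler (t : Iz n K → ℝ) : QK n K t = (∑ a, DK n K t a * t a) / 2 := by
  rw [DomK_sum, QK, Finset.sum_comm, eq_div_iff (two_ne_zero), Finset.sum_mul]
  refine Finset.sum_congr rfl fun i _ => ?_
  simp only [DomK_inl, DomK_inr]
  have h1 := DomK_shift (fun j => t (j - 1, Sum.inr i) * t (j, Sum.inl i))
  simp only [add_sub_cancel_right] at h1
  have e1 : ∑ j : Fin K, ((t (j - 1, Sum.inr i) - t (j, Sum.inr i)) * t (j, Sum.inl i) +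
      (t (j + 1, Sum.inl i) - t (j, Sum.inl i)) * t (j, Sum.inr i)) =
      ∑ j : Fin K, t (j - 1, Sum.inr i) * t (j, Sum.inl i) -
        ∑ j : Fin K, t (j, Sum.inr i) * t (j, Sum.inl i) +
        (∑ j : Fin K, t (j, Sum.inr i) * t (j + 1, Sum.inl i) -
          ∑ j : Fin K, t (j, Sum.inr i) * t (j, Sum.inl i)) := by
    rw [← Finset.sum_sub_distrib, ← Finset.sum_sub_distrib, ← Finset.sum_add_distrib]
    exact Finset.sum_congr rfl fun j _ => by ring
  have e2 : ∑ j : Fin K, t (j, Sum.inr i) * (t (j + 1, Sum.inl i) - t (j, Sum.inl i)) =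
      ∑ j : Fin K, t (j, Sum.inr i) * t (j + 1, Sum.inl i) -
          ∑ j : Fin K, t (j, Sum.inr i) * t (j, Sum.inl i) := by
    rw [← Finset.sum_sub_distrib]
    exact Finset.sum_congr rfl fun j _ => by ring
  rw [e1, e2, ← h1]
  ring

theorem DomK_D2 (u : Iz n K → ℝ) : ∑ a, DK n K u a ^ 2 ≤ 4 * ∑ a, u a ^ 2 := by
  rw [DomK_sum, DomK_sum, Finset.mul_sum]
  refine Finset.sum_le_sum fun i _ => ?_
  simp only [DomK_inl, DomK_inr]
  have h1 := DomK_shift' (fun j => u (j, Sum.inr i) ^ 2)
  have h2 := DomK_shift (fun j => u (j, Sum.inl i) ^ 2)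
  calc ∑ j : Fin K, ((u (j - 1, Sum.inr i) - u (j, Sum.inr i)) ^ 2 +
      (u (j + 1, Sum.inl i) - u (j, Sum.inl i)) ^ 2)
      ≤ ∑ j : Fin K, (2 * u (j - 1, Sum.inr i) ^ 2 + 2 * u (j, Sum.inr i) ^ 2 +
        (2 * u (j + 1, Sum.inl i) ^ 2 + 2 * u (j, Sum.inl i) ^ 2)) := by
        refine Finset.sum_le_sum fun j _ => ?_
        nlinarith [sq_nonneg (u (j - 1, Sum.inr i) + u (j, Sum.inr i)),
          sq_nonneg (u (j + 1, Sum.inl i) + u (j, Sum.inl i))]
    _ = 4 * ∑ j : Fin K, (u (j, Sum.inl i) ^ 2 + u (j, Sum.inr i) ^ 2) := by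
        simp only [Finset.sum_add_distrib, ← Finset.mul_sum]
        rw [h1, h2]
        ring

/-- the derivative of one component -/
noncomputable def DomK_C (n K : ℕ) [NeZero K] (b : Iz n K) : (Iz n K → ℝ) →L[ℝ] ℝ :=
  LinearMap.toContinuousLinearMap ((LinearMap.proj b).comp (DomK_L n K))

theorem DomK_C_apply (b : Iz n K) (t : Iz n K → ℝ) : DomK_C n K b t = DK n K t b := rfl

theorem DomK_hasD (b : Iz n K) (t : Iz n K → ℝ) :
    HasFDerivAt (fun t => DK n K t b) (DomK_C n K b) t :=
  (DomK_C n K b).hasFDerivAt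

theorem DomK_hasQ (t : Iz n K → ℝ) : ∃ A : (Iz n K → ℝ) →L[ℝ] ℝ, HasFDerivAt (QK n K) A t ∧
    ∀ u, A u = ∑ a, DK n K t a * u a := by
  have h1 : ∀ a, HasFDerivAt (fun t => DK n K t a * t a)
      (DK n K t a • ContinuousLinearMap.proj a + t a • DomK_C n K a) t :=
    fun a => (DomK_hasD a t).mul (hasFDerivAt_apply a t)
  have h2 := (HasFDerivAt.fun_sum (u := Finset.univ) fun a _ => h1 a).const_mul (1 / 2 : ℝ)
  refine ⟨_, h2.congr_of_eventuallyEq (Filter.Eventually.of_forall fun y => ?_), fun u => ?_⟩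
  · simp only [DomK_euler]
    ring
  · have h3 := DomK_adj t u
    simp only [smul_apply, sum_apply,
      add_apply, ContinuousLinearMap.proj_apply, DomK_C_apply, smul_eq_mul,
      Finset.sum_add_distrib]
    rw [← h3]
    ring

theorem QK_fderiv (t : Iz n K → ℝ) (a : Iz n K) :
    fderiv ℝ (QK n K) t (Pi.single a 1) = DK n K t a := by
  obtain ⟨A, h1, h2⟩ := DomK_hasQ t
  rw [h1.fderiv, h2]
  simp [Pi.single_apply]

theorem DomK_hasq (t : Iz n K → ℝ) : ∃ A : (Iz n K → ℝ) →L[ℝ] ℝ, HasFDerivAt (qK n K) A t ∧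
    ∀ u, A u = ∑ a, (2 * DK n K t a + DK n K (DK n K t) a / 2) * u a := by
  obtain ⟨A, h1, h2⟩ := DomK_hasQ t
  have h3 : ∀ a, HasFDerivAt (fun t => DK n K t a * DK n K t a)
      (DK n K t a • DomK_C n K a + DK n K t a • DomK_C n K a) t :=
    fun a => (DomK_hasD a t).mul (DomK_hasD a t)
  have h4 := (h1.const_mul 2).add
    ((HasFDerivAt.fun_sum (u := Finset.univ) fun a _ => h3 a).const_mul (1 / 4 : ℝ))
  refine ⟨_, h4.congr_of_eventuallyEq (Filter.Eventually.of_forall fun y => ?_), fun u => ?_⟩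
  · have e0 : ∑ a, DK n K y a ^ 2 = ∑ a, DK n K y a * DK n K y a :=
      Finset.sum_congr rfl fun a _ => pow_two _
    simp only [qK, Pi.add_apply, e0]
    ring
  · have h5 := DomK_adj (DK n K t) u
    simp only [smul_apply, sum_apply,
      add_apply, DomK_C_apply, smul_eq_mul, h2]
    have e1 : ∑ a, (2 * DK n K t a + DK n K (DK n K t) a / 2) * u a =
        2 * ∑ a, DK n K t a * u a + (∑ a, DK n K (DK n K t) a * u a) / 2 := by
      rw [Finset.mul_sum, Finset.sum_div, ← Finset.sum_add_distrib]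
      exact Finset.sum_congr rfl fun a _ => by ring
    have e2 : ∑ a, (DK n K t a * DK n K u a + DK n K t a * DK n K u a) =
        2 * ∑ a, DK n K t a * DK n K u a := by
      rw [Finset.mul_sum]
      exact Finset.sum_congr rfl fun a _ => by ring
    rw [e1, e2, h5]
    ring

theorem DomK_qderiv (s : ℝ) (t : Iz n K → ℝ) (a : Iz n K) :
    fderiv ℝ (fun t => s * qK n K t) t (Pi.single a 1) =
      s * (2 * DK n K t a + DK n K (DK n K t) a / 2) := by
  obtain ⟨A, h1, h2⟩ := DomK_hasq t
  rw [(h1.const_mul s).fderiv, smul_apply, h2, smul_eq_mul]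
  simp [Pi.single_apply]

theorem DomK_Qderiv (s : ℝ) (t : Iz n K → ℝ) (a : Iz n K) :
    fderiv ℝ (fun t => s * QK n K t) t (Pi.single a 1) = s * DK n K t a := by
  obtain ⟨A, h1, h2⟩ := DomK_hasQ t
  rw [(h1.const_mul s).fderiv, smul_apply, h2, smul_eq_mul]
  simp [Pi.single_apply]

theorem DomK_diff (t : Iz n K → ℝ) {d : ℝ} (hd : ∀ a, |DK n K t a| ≤ d) (j : Fin K)
    (b : Fin n ⊕ Fin n) : |t (j, b) - t (0, b)| ≤ K * d := by
  have hd0 : 0 ≤ d := (abs_nonneg _).trans (hd (j, b))
  have key : ∀ m : ℕ, ∀ j : Fin K, j.val = m → |t (j, b) - t (0, b)| ≤ m * d := by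
    intro m
    induction m with
    | zero =>
      intro j hj
      have : j = 0 := Fin.ext (by simpa using hj)
      subst this
      simp
    | succ m ih =>
      intro j hj
      have hj0 : j ≠ 0 := by
        intro h
        rw [h] at hj
        simp at hj
      have h1 : (j - 1).val = m := by
        rw [Fin.val_sub_one_of_ne_zero hj0, hj]
        simp
      have h2 := ih (j - 1) h1
      have h3 : |t (j, b) - t (j - 1, b)| ≤ d := by
        rcases b with i | i
        · have := hd (j - 1, Sum.inr i)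
          rw [DomK_inr, sub_add_cancel] at this
          exact this
        · have := hd (j, Sum.inl i)
          rw [DomK_inl, abs_sub_comm] at this
          exact this
      have e : t (j, b) - t (0, b) = (t (j, b) - t (j - 1, b)) + (t (j - 1, b) - t (0, b)) := by
        ring
      rw [e]
      refine (abs_add_le _ _).trans ?_
      push_cast
      linarith
  refine (key j.val j rfl).trans ?_
  have h1 : (j.val : ℝ) ≤ K := by exact_mod_cast j.isLt.le
  exact mul_le_mul_of_nonneg_right h1 hd0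

theorem DomK_Qbound (t : Iz n K → ℝ) {d : ℝ} (hd : ∀ a, |DK n K t a| ≤ d) :
    |QK n K t| ≤ K * (n * (K * d * d)) := by
  have e : QK n K t = ∑ j : Fin K, ∑ i : Fin n,
      (t (j, Sum.inr i) - t (0, Sum.inr i)) * (t (j + 1, Sum.inl i) - t (j, Sum.inl i)) := by
    have h1 : ∑ j : Fin K, ∑ i : Fin n,
        t (0, Sum.inr i) * (t (j + 1, Sum.inl i) - t (j, Sum.inl i)) = 0 := by
      rw [Finset.sum_comm]
      refine Finset.sum_eq_zero fun i _ => ?_
      rw [← Finset.mul_sum, Finset.sum_sub_distrib]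
      have := DomK_shift (fun j => t (j, Sum.inl i))
      rw [this, sub_self, mul_zero]
    rw [QK, ← sub_zero (∑ j : Fin K, ∑ i : Fin n,
      t (j, Sum.inr i) * (t (j + 1, Sum.inl i) - t (j, Sum.inl i))), ← h1,
      ← Finset.sum_sub_distrib]
    refine Finset.sum_congr rfl fun j _ => ?_
    rw [← Finset.sum_sub_distrib]
    exact Finset.sum_congr rfl fun i _ => by ring
  rw [e]
  have h2 : ∀ j : Fin K, ∀ i : Fin n, |(t (j, Sum.inr i) - t (0, Sum.inr i)) *
      (t (j + 1, Sum.inl i) - t (j, Sum.inl i))| ≤ K * d * d := by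
    intro j i
    rw [abs_mul]
    have h3 := DomK_diff t hd j (Sum.inr i)
    have h4 := hd (j, Sum.inr i)
    rw [DomK_inr] at h4
    exact mul_le_mul h3 h4 (abs_nonneg _) ((abs_nonneg _).trans h3)
  calc |∑ j : Fin K, ∑ i : Fin n,
      (t (j, Sum.inr i) - t (0, Sum.inr i)) * (t (j + 1, Sum.inl i) - t (j, Sum.inl i))|
      ≤ ∑ j : Fin K, ∑ i : Fin n, |(t (j, Sum.inr i) - t (0, Sum.inr i)) *
        (t (j + 1, Sum.inl i) - t (j, Sum.inl i))| :=
        (Finset.abs_sum_le_sum_abs _ _).trans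
          (Finset.sum_le_sum fun j _ => Finset.abs_sum_le_sum_abs _ _)
    _ ≤ ∑ j : Fin K, ∑ i : Fin n, K * d * d :=
        Finset.sum_le_sum fun j _ => Finset.sum_le_sum fun i _ => h2 j i
    _ = K * (n * (K * d * d)) := by simp

theorem DomK_const (t u : Iz n K → ℝ) (hu : ∀ a, DK n K u a = 0) :
    QK n K (t + u) = QK n K t ∧ ∀ a, DK n K (t + u) a = DK n K t a := by
  have h1 : ∀ a, DK n K (t + u) a = DK n K t a := fun a => by rw [DomK_add, hu, add_zero]
  refine ⟨?_, h1⟩
  rw [DomK_euler, DomK_euler]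
  congr 1
  have h2 := DomK_adj t u
  simp only [hu, mul_zero, Finset.sum_const_zero] at h2
  have h3 : ∑ a, DK n K (t + u) a * (t + u) a = ∑ a, DK n K t a * t a + ∑ a, DK n K t a * u a := by
    rw [← Finset.sum_add_distrib]
    refine Finset.sum_congr rfl fun a _ => ?_
    rw [h1, Pi.add_apply]
    ring
  rw [h3, h2, add_zero]

/-- `K`-grid domain, all quantities scaled by `s` -/
theorem dom_Dm (n K : ℕ) [NeZero K] {s : ℝ} (hs : 0 < s) (R a : ℝ) :
    Dm (Lc n K) (fun t => s * qK n K t) (fun t => s * QK n K t) R a := by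
  have hD : ∀ b, ContDiff ℝ 1 (fun t => DK n K t b) := fun b => (DomK_C n K b).contDiff
  have hQ : ContDiff ℝ 1 (QK n K) := by
    unfold QK
    fun_prop
  have hl : ∀ l ∈ Lc n K, ∀ a, DK n K (rl l) a = 0 := by
    rintro l ⟨c, hc⟩ a
    rcases a with ⟨j, i | i⟩
    · simp [DomK_inl, rl, hc]
    · simp [DomK_inr, rl, hc]
  refine ⟨?_, ?_, ?_, ?_, ?_⟩
  · unfold qK
    have h1 : ContDiff ℝ 1 (fun t : Iz n K → ℝ => ∑ a, DK n K t a ^ 2) :=
      ContDiff.sum fun a _ => (hD a).pow 2
    exact contDiff_const.mul ((contDiff_const.mul hQ).add (h1.div_const 4))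
  · exact contDiff_const.mul hQ
  · intro l hl' y
    have h1 := DomK_const y (rl l) (hl l hl')
    simp only [qK, h1.1, h1.2]
  · intro l hl' y
    simp only [(DomK_const y (rl l) (hl l hl')).1]
  · set d : ℝ := Real.sqrt (4 * (R + 2 * a) / s) with hd
    refine ⟨Metric.closedBall 0 (1 + K * d), isCompact_closedBall _ _, fun y h1 h2 => ?_⟩
    have h3 : ∑ b, DK n K y b ^ 2 ≤ 4 * (R + 2 * a) / s := by
      rw [le_div_iff₀ hs]
      simp only [qK] at h1
      nlinarith
    have h4 : ∀ b, |DK n K y b| ≤ d := by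
      intro b
      apply Real.abs_le_sqrt
      exact (Finset.single_le_sum (f := fun b => DK n K y b ^ 2) (fun c _ => sq_nonneg _)
        (Finset.mem_univ b)).trans h3
    refine ⟨fun p => -⌊y (0, p.2)⌋, ⟨fun b => -⌊y (0, b)⌋, fun j b => rfl⟩, ?_⟩
    have hd0 : 0 ≤ d := Real.sqrt_nonneg _
    rw [mem_closedBall_zero_iff, pi_norm_le_iff_of_nonneg (by positivity)]
    rintro ⟨j, b⟩
    have h5 := DomK_diff y h4 j b
    rw [Real.norm_eq_abs]
    have e : (y + rl fun p : Iz n K => -⌊y (0, p.2)⌋) (j, b) =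
        (y (j, b) - y (0, b)) + Int.fract (y (0, b)) := by
      simp only [Pi.add_apply, rl, Int.cast_neg, Int.fract]
      ring
    rw [e]
    refine (abs_add_le _ _).trans ?_
    rw [abs_of_nonneg (Int.fract_nonneg (y (0, b)))]
    have := (Int.fract_lt_one (y (0, b))).le
    linarith

/-- the boundary condition for functions with gradient close to `s D` -/
theorem dom_Bd (n K : ℕ) [NeZero K] {s : ℝ} (hs : 0 < s) (C : ℝ) :
    ∃ R₀ : ℝ, 0 < R₀ ∧ ∀ R ≥ R₀, ∀ a ≥ R₀, ∀ f : (Iz n K → ℝ) → ℝ, Differentiable ℝ f →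
      (∀ y b, |fderiv ℝ f y (Pi.single b 1) - s * DK n K y b| ≤ C) →
      Bd (fun t => s * qK n K t) (fun t => s * QK n K t) R a f ∧
      ∀ y, fderiv ℝ f y = 0 → s * qK n K y < R ∧ -a < s * QK n K y := by
  set N : ℝ := (Fintype.card (Iz n K) : ℝ) with hN
  have hN0 : 0 ≤ N := Nat.cast_nonneg _
  set d : ℝ := 3 * N * |C| / s + 1 with hd
  have hd1 : 1 ≤ d := by
    have : 0 ≤ 3 * N * |C| / s := by positivity
    linarith
  set R₀ : ℝ := s * (2 * (K * (n * (K * d * d))) + d ^ 2 / 4) + 1 with hR₀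
  have hR₀pos : 0 < R₀ := by positivity
  -- small gradient
  have small : ∀ y : Iz n K → ℝ, ∑ b, DK n K y b ^ 2 < d ^ 2 →
      s * qK n K y < R₀ ∧ -R₀ < s * QK n K y := by
    intro y hy
    have h1 : ∀ b, |DK n K y b| ≤ d := by
      intro b
      refine abs_le_of_sq_le_sq ?_ (by linarith)
      exact ((Finset.single_le_sum (f := fun b => DK n K y b ^ 2) (fun c _ => sq_nonneg _)
        (Finset.mem_univ b)).trans hy.le)
    have h2 := abs_le.1 (DomK_Qbound y h1)
    constructor
    · have h3 : qK n K y ≤ 2 * (K * (n * (K * d * d))) + d ^ 2 / 4 := by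
        unfold qK
        linarith [h2.2]
      have h4 := mul_le_mul_of_nonneg_left h3 hs.le
      linarith
    · have h3 : -(2 * (K * (n * (K * d * d))) + d ^ 2 / 4) ≤ QK n K y := by
        have h5 : (0 : ℝ) ≤ K * (n * (K * d * d)) := by positivity
        have h6 : (0 : ℝ) ≤ d ^ 2 / 4 := by positivity
        linarith [h2.1]
      have h4 := mul_le_mul_of_nonneg_left h3 hs.le
      linarith
  refine ⟨R₀, hR₀pos, fun R hR a ha f _ hf => ⟨?_, ?_⟩⟩
  · intro y _ _ h3
    -- the gradient is large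
    have hlarge : d ^ 2 ≤ ∑ b, DK n K y b ^ 2 := by
      by_contra h4
      obtain ⟨h5, h6⟩ := small y (not_le.1 h4)
      rcases h3 with h3 | h3
      · simp only at h3
        linarith
      · simp only at h3
        linarith
    set S : ℝ := ∑ b, DK n K y b ^ 2 with hS
    have hSpos : 0 < S := by nlinarith
    have hne : (Finset.univ : Finset (Iz n K)).Nonempty := by
      by_contra h4
      rw [Finset.not_nonempty_iff_eq_empty] at h4
      rw [hS, h4, Finset.sum_empty] at hSpos
      exact lt_irrefl _ hSpos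
    have hNpos : 0 < N := by
      rw [hN]
      exact_mod_cast Finset.card_pos.2 hne
    have hDD : ∑ b, DK n K (DK n K y) b ^ 2 ≤ 4 * S := DomK_D2 (DK n K y)
    have hsum : ∑ _b : Iz n K, S / N ≤
        ∑ b, DK n K y b * (2 * DK n K y b + DK n K (DK n K y) b / 2) := by
      have h5 : ∑ _b : Iz n K, S / N = S := by
        rw [Finset.sum_const, Finset.card_univ, nsmul_eq_mul, ← hN]
        field_simp
      rw [h5]
      have h6 : ∑ b, (DK n K y b ^ 2 * (3 / 2) - DK n K (DK n K y) b ^ 2 / 8) ≤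
          ∑ b, DK n K y b * (2 * DK n K y b + DK n K (DK n K y) b / 2) := by
        refine Finset.sum_le_sum fun b _ => ?_
        nlinarith [sq_nonneg (2 * DK n K y b + DK n K (DK n K y) b)]
      refine le_trans ?_ h6
      rw [Finset.sum_sub_distrib, ← Finset.sum_mul, ← Finset.sum_div]
      linarith
    obtain ⟨b, -, hb⟩ := Finset.exists_le_of_sum_le hne hsum
    -- the size of the component
    have hSd : Real.sqrt S ^ 2 = S := Real.sq_sqrt hSpos.le
    have hδ : d ≤ Real.sqrt S := Real.le_sqrt_of_sq_le hlarge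
    have hδpos : 0 < Real.sqrt S := by linarith
    have hDb : |DK n K y b| ≤ Real.sqrt S := by
      apply Real.abs_le_sqrt
      exact Finset.single_le_sum (f := fun b => DK n K y b ^ 2) (fun c _ => sq_nonneg _)
        (Finset.mem_univ b)
    have hDDb : |DK n K (DK n K y) b| ≤ 2 * Real.sqrt S := by
      refine abs_le_of_sq_le_sq ?_ (by positivity)
      rw [mul_pow, hSd]
      norm_num
      exact (Finset.single_le_sum (f := fun b => DK n K (DK n K y) b ^ 2)
        (fun c _ => sq_nonneg _) (Finset.mem_univ b)).trans hDD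
    have hqb : |2 * DK n K y b + DK n K (DK n K y) b / 2| ≤ 3 * Real.sqrt S := by
      refine (abs_add_le _ _).trans ?_
      rw [abs_mul, abs_div, abs_two]
      linarith
    have hprod : S / N ≤ |DK n K y b| * (3 * Real.sqrt S) := by
      refine hb.trans ((le_abs_self _).trans ?_)
      rw [abs_mul]
      exact mul_le_mul_of_nonneg_left hqb (abs_nonneg _)
    have hDbig : |C| < s * |DK n K y b| := by
      have h5 : S ≤ N * |DK n K y b| * (3 * Real.sqrt S) := by
        rw [div_le_iff₀ hNpos] at hprod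
        linarith
      have h6 : Real.sqrt S ≤ N * |DK n K y b| * 3 := by
        by_contra h7
        rw [not_le] at h7
        have h8 : N * |DK n K y b| * 3 * Real.sqrt S < Real.sqrt S * Real.sqrt S :=
          mul_lt_mul_of_pos_right h7 hδpos
        rw [Real.mul_self_sqrt hSpos.le] at h8
        linarith
      have h7 : d ≤ N * |DK n K y b| * 3 := hδ.trans h6
      have h8 : 3 * N * |C| / s < N * |DK n K y b| * 3 := by linarith
      rw [div_lt_iff₀ hs] at h8
      have h9 : (3 * N) * |C| < (3 * N) * (s * |DK n K y b|) := by linarith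
      exact lt_of_mul_lt_mul_left h9 (by positivity)
    have hSN : 0 < S / N := div_pos hSpos hNpos
    have hfb := hf y b
    have hCC : C ≤ |C| := le_abs_self C
    rcases lt_trichotomy (DK n K y b) 0 with h5 | h5 | h5
    · refine ⟨b, true, ?_, ?_, ?_⟩
      · rw [abs_of_neg h5] at hDbig
        have := (abs_le.1 hfb).2
        simp only [Pool.Agent.H47.QG.sg, if_true, one_mul]
        linarith
      · rw [DomK_qderiv]
        have h6 : 2 * DK n K y b + DK n K (DK n K y) b / 2 < 0 := by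
          by_contra h7
          rw [not_lt] at h7
          have := mul_nonpos_of_nonpos_of_nonneg h5.le h7
          linarith
        simp only [Pool.Agent.H47.QG.sg, if_true, one_mul]
        exact mul_neg_of_pos_of_neg hs h6
      · rw [DomK_Qderiv]
        simp only [Pool.Agent.H47.QG.sg, if_true, one_mul]
        exact mul_neg_of_pos_of_neg hs h5
    · rw [h5, zero_mul] at hb
      exact absurd hb (not_le.2 hSN)
    · refine ⟨b, false, ?_, ?_, ?_⟩
      · rw [abs_of_pos h5] at hDbig
        have := (abs_le.1 hfb).1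
        simp only [Pool.Agent.H47.QG.sg]
        norm_num
        linarith
      · rw [DomK_qderiv]
        have h6 : 0 < 2 * DK n K y b + DK n K (DK n K y) b / 2 := by
          by_contra h7
          rw [not_lt] at h7
          have := mul_nonpos_of_nonneg_of_nonpos h5.le h7
          linarith
        have h7 := mul_pos hs h6
        simp only [Pool.Agent.H47.QG.sg]
        norm_num
        linarith
      · rw [DomK_Qderiv]
        have h7 := mul_pos hs h5
        simp only [Pool.Agent.H47.QG.sg]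
        norm_num
        linarith
  · intro y hy
    have h1 : ∀ b, s * |DK n K y b| ≤ |C| := by
      intro b
      have h2 := hf y b
      rw [hy] at h2
      simp only [zero_apply, zero_sub, abs_neg, abs_mul, abs_of_pos hs] at h2
      exact h2.trans (le_abs_self C)
    have h2 : ∑ b, DK n K y b ^ 2 < d ^ 2 := by
      have h3 : ∑ b, DK n K y b ^ 2 ≤ N * (|C| / s) ^ 2 := by
        calc ∑ b, DK n K y b ^ 2 ≤ ∑ _b : Iz n K, (|C| / s) ^ 2 := by
              refine Finset.sum_le_sum fun b _ => ?_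
              rw [← sq_abs]
              refine pow_le_pow_left₀ (abs_nonneg _) ?_ 2
              rw [le_div_iff₀ hs]
              linarith [h1 b]
          _ = N * (|C| / s) ^ 2 := by
              rw [Finset.sum_const, Finset.card_univ, nsmul_eq_mul, ← hN]
      set x : ℝ := |C| / s with hx
      have hx0 : 0 ≤ x := by positivity
      have e : d = 3 * N * x + 1 := by
        rw [hd, hx]
        ring
      have h4 : N * x ^ 2 ≤ (3 * N * x) ^ 2 := by
        rcases Nat.eq_zero_or_pos (Fintype.card (Iz n K)) with h5 | h5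
        · have : N = 0 := by rw [hN, h5]; simp
          rw [this]
          simp
        · have h6 : 1 ≤ N := by rw [hN]; exact_mod_cast h5
          have h7 : N * x ^ 2 ≤ N ^ 2 * x ^ 2 := by
            refine mul_le_mul_of_nonneg_right ?_ (sq_nonneg x)
            nlinarith
          nlinarith [sq_nonneg (N * x)]
      rw [e]
      have h5 : 0 ≤ 3 * N * x := by positivity
      nlinarith
    obtain ⟨h3, h4⟩ := small y h2
    exact ⟨by linarith, by linarith⟩

end Pool.Agent.H47.ST
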