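import Pool.Agent.H47.ST.Win
import Pool.Agent.H47.ST.DomK
import Pool.Agent.H47.QG.IdxA
import Pool.Agent.H47.QG.IdxS
import Pool.Agent.H47.QG.ActC

/-!
# Total cohomology
-/

set_option autoImplicit false

namespace Pool.Agent.H47.ST

open Filter Topology QuadraticForm
open Pool.Agent.H47.QG (sg neg hess LD)

variable {ι : Type*} [Fintype ι] [DecidableEq ι]

/-- below all values of `f` in the domain -/
theorem Lv_low {L : AddSubgroup (ι → ℤ)} {q Q f : (ι → ℝ) → ℝ} {R a : ℝ} (h : Dm L q Q R a)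
    (hf : Continuous f) (hfp : PerL L f) : ∃ α₀ : ℝ, ∀ α ≤ α₀,
      (∀ y, q y ≤ R → -a ≤ Q y → α < f y) ∧ ∀ m, Lv q Q f R a α m = Am q Q R a m := by
  obtain ⟨K, hK, hc⟩ := h.cpt
  obtain ⟨B, hB⟩ := (hK.image hf).bddBelow
  have hlow : ∀ y, q y ≤ R → -a ≤ Q y → B ≤ f y := by
    intro y h1 h2
    obtain ⟨l, hl, hy⟩ := hc y h1 h2
    rw [← hfp l hl y]
    exact hB ⟨_, hy, rfl⟩
  refine ⟨B - 1, fun α hα => ⟨fun y h1 h2 => by linarith [hlow y h1 h2], fun m => ?_⟩⟩
  ext v
  simp only [Lv, Am, Set.mem_setOf_eq]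
  constructor
  · rintro ⟨h1, h2 | h2⟩
    · exact ⟨h1, h2⟩
    · refine ⟨h1, ?_⟩
      by_contra h3
      rw [not_le] at h3
      linarith [hlow _ h1 h3.le]
  · rintro ⟨h1, h2⟩
    exact ⟨h1, Or.inl h2⟩

/-- above all values of `f` in the domain -/
theorem Lv_high {L : AddSubgroup (ι → ℤ)} {q Q f : (ι → ℝ) → ℝ} {R a : ℝ} (h : Dm L q Q R a)
    (hf : Continuous f) (hfp : PerL L f) : ∃ β₀ : ℝ, ∀ β ≥ β₀,
      (∀ y, q y ≤ R → -a ≤ Q y → f y < β) ∧ ∀ m, Lv q Q f R a β m = Xm q R m := by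
  obtain ⟨K, hK, hc⟩ := h.cpt
  obtain ⟨B, hB⟩ := (hK.image hf).bddAbove
  have hhi : ∀ y, q y ≤ R → -a ≤ Q y → f y ≤ B := by
    intro y h1 h2
    obtain ⟨l, hl, hy⟩ := hc y h1 h2
    rw [← hfp l hl y]
    exact hB ⟨_, hy, rfl⟩
  refine ⟨B + 1, fun β hβ => ⟨fun y h1 h2 => by linarith [hhi y h1 h2], fun m => ?_⟩⟩
  ext v
  simp only [Lv, Xm, Set.mem_setOf_eq]
  constructor
  · rintro ⟨h1, _⟩
    exact h1
  · intro h1
    refine ⟨h1, ?_⟩
    by_cases h3 : Q (ps m v) ≤ -a
    · exact Or.inl h3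
    · rw [not_le] at h3
      exact Or.inr (by linarith [hhi _ h1 h3.le])

/-! ### The function -/

/-- the last index -/
def Model_la (K : ℕ) [NeZero K] : Fin K := ⟨K - 1, Nat.sub_lt (NeZero.pos K) one_pos⟩

/-- the periodic part of the model function -/
noncomputable def Model_P (n K : ℕ) [NeZero K] (t : Iz n K → ℝ) : ℝ :=
  ∑ i : Fin n, (Real.cos (2 * Real.pi * t (0, Sum.inl i)) +
    Real.cos (2 * Real.pi * t (Model_la K, Sum.inr i)))

/-- the model function -/
noncomputable def Model_f (n K : ℕ) [NeZero K] (t : Iz n K → ℝ) : ℝ := QK n K t + Model_P n K t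

/-- gradient of the periodic part -/
noncomputable def Model_G (n K : ℕ) [NeZero K] (t : Iz n K → ℝ) : Iz n K → ℝ := fun a =>
  match a with
  | (j, Sum.inl i) => if j = 0 then -(2 * Real.pi * Real.sin (2 * Real.pi * t (0, Sum.inl i)))
      else 0
  | (j, Sum.inr i) => if j = Model_la K then
      -(2 * Real.pi * Real.sin (2 * Real.pi * t (Model_la K, Sum.inr i))) else 0

section
variable {n K : ℕ} [NeZero K]

theorem Model_cos_smooth (b : Iz n K) :
    ContDiff ℝ 2 fun t : Iz n K → ℝ => Real.cos (2 * Real.pi * t b) :=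
  Real.contDiff_cos.comp (contDiff_const.mul (contDiff_apply ℝ ℝ b))

theorem Model_cos_fderiv (b : Iz n K) (t : Iz n K → ℝ) (a : Iz n K) :
    fderiv ℝ (fun t : Iz n K → ℝ => Real.cos (2 * Real.pi * t b)) t (Pi.single a 1) =
      if a = b then -(2 * Real.pi * Real.sin (2 * Real.pi * t b)) else 0 := by
  have h1 : HasFDerivAt (fun t : Iz n K → ℝ => t b)
      (ContinuousLinearMap.proj (R := ℝ) (φ := fun _ : Iz n K => ℝ) b) t :=
    (ContinuousLinearMap.proj (R := ℝ) (φ := fun _ : Iz n K => ℝ) b).hasFDerivAt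
  have h2 := (h1.const_mul (2 * Real.pi)).cos
  rw [h2.fderiv]
  simp only [ContinuousLinearMap.smul_apply, ContinuousLinearMap.proj_apply, smul_eq_mul]
  by_cases h : a = b
  · subst h
    simp
    ring
  · rw [if_neg h, Pi.single_eq_of_ne (fun h' => h h'.symm)]
    ring

theorem Model_QK_smooth : ContDiff ℝ 2 (QK n K) := by
  unfold QK
  refine ContDiff.sum fun j _ => ContDiff.sum fun i _ => ?_
  exact (contDiff_apply ℝ ℝ _).mul ((contDiff_apply ℝ ℝ _).sub (contDiff_apply ℝ ℝ _))

theorem Model_P_smooth : ContDiff ℝ 2 (Model_P n K) := by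
  unfold Model_P
  exact ContDiff.sum fun i _ => (Model_cos_smooth _).add (Model_cos_smooth _)

theorem Model_f_smooth : ContDiff ℝ 2 (Model_f n K) := by
  have h := (Model_QK_smooth (n := n) (K := K)).add (Model_P_smooth (n := n) (K := K))
  exact h

theorem Model_P_fderiv (t : Iz n K → ℝ) (a : Iz n K) :
    fderiv ℝ (Model_P n K) t (Pi.single a 1) = Model_G n K t a := by
  have hd : ∀ b : Iz n K, DifferentiableAt ℝ
      (fun t : Iz n K → ℝ => Real.cos (2 * Real.pi * t b)) t := fun b =>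
    (Model_cos_smooth b).differentiable (by norm_num) t
  have h1 : fderiv ℝ (Model_P n K) t = ∑ i : Fin n,
      (fderiv ℝ (fun t : Iz n K → ℝ => Real.cos (2 * Real.pi * t (0, Sum.inl i))) t +
       fderiv ℝ (fun t : Iz n K → ℝ => Real.cos (2 * Real.pi * t (Model_la K, Sum.inr i))) t) := by
    have h2 : HasFDerivAt (Model_P n K) (∑ i : Fin n,
      (fderiv ℝ (fun t : Iz n K → ℝ => Real.cos (2 * Real.pi * t (0, Sum.inl i))) t +
       fderiv ℝ (fun t : Iz n K → ℝ => Real.cos (2 * Real.pi * t (Model_la K, Sum.inr i))) t)) t := by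
      unfold Model_P
      exact HasFDerivAt.fun_sum fun i _ => (hd _).hasFDerivAt.add (hd _).hasFDerivAt
    exact h2.fderiv
  rw [h1, ContinuousLinearMap.sum_apply]
  simp only [ContinuousLinearMap.add_apply, Model_cos_fderiv]
  obtain ⟨j, i | i⟩ := a
  · simp only [Prod.mk.injEq, Sum.inl.injEq, reduceCtorEq, and_false, if_false, add_zero, Model_G]
    by_cases hj : j = 0
    · simp [hj]
    · simp [hj]
  · simp only [Prod.mk.injEq, Sum.inr.injEq, reduceCtorEq, and_false, if_false, zero_add, Model_G]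
    by_cases hj : j = Model_la K
    · simp [hj]
    · simp [hj]

theorem Model_f_fderiv (t : Iz n K → ℝ) (a : Iz n K) :
    fderiv ℝ (Model_f n K) t (Pi.single a 1) = DK n K t a + Model_G n K t a := by
  have h1 : fderiv ℝ (Model_f n K) t = fderiv ℝ (QK n K) t + fderiv ℝ (Model_P n K) t := by
    have h2 : HasFDerivAt (Model_f n K) (fderiv ℝ (QK n K) t + fderiv ℝ (Model_P n K) t) t :=
      ((Model_QK_smooth.differentiable (by norm_num) t).hasFDerivAt).add
        ((Model_P_smooth.differentiable (by norm_num) t).hasFDerivAt)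
    exact h2.fderiv
  rw [h1, ContinuousLinearMap.add_apply, QK_fderiv, Model_P_fderiv]

theorem Model_G_le (t : Iz n K → ℝ) (a : Iz n K) : |Model_G n K t a| ≤ 2 * Real.pi := by
  have hp := Real.pi_pos
  have h : ∀ x : ℝ, |-(2 * Real.pi * Real.sin x)| ≤ 2 * Real.pi := by
    intro x
    rw [abs_neg, abs_mul, abs_of_pos (by positivity : (0 : ℝ) < 2 * Real.pi)]
    have := Real.abs_sin_le_one x
    nlinarith
  obtain ⟨j, i | i⟩ := a
  · simp only [Model_G]
    split_ifs
    · exact h _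
    · rw [abs_zero]; positivity
  · simp only [Model_G]
    split_ifs
    · exact h _
    · rw [abs_zero]; positivity

theorem Model_f_per : PerL (Lc n K) (Model_f n K) := by
  intro l hl y
  unfold Model_f
  have h1 : QK n K (y + rl l) = QK n K y := by
    have h2 := (dom_Dm n K one_pos 0 0).Qp l hl y
    simpa using h2
  have hc : ∀ (x : ℝ) (k : ℤ), Real.cos (2 * Real.pi * (x + k)) = Real.cos (2 * Real.pi * x) := by
    intro x k
    rw [show 2 * Real.pi * (x + k) = 2 * Real.pi * x + k * (2 * Real.pi) by ring,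
      Real.cos_add_int_mul_two_pi]
  have h3 : Model_P n K (y + rl l) = Model_P n K y := by
    unfold Model_P
    refine Finset.sum_congr rfl fun i _ => ?_
    simp only [Pi.add_apply, rl, hc]
  rw [h1, h3]

/-! ### Critical points -/

theorem Model_const {m : ℕ} (x : Fin (m + 1) → ℝ) (h : ∀ j, x (j + 1) = x j) (j : Fin (m + 1)) :
    x j = x 0 := by
  induction j using Fin.induction with
  | zero => rfl
  | succ k ih => rw [← Fin.coeSucc_eq_succ, h, ih]

theorem Model_const' (x : Fin K → ℝ) (h : ∀ j, x (j + 1) = x j) (j j' : Fin K) : x j = x j' := by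
  obtain ⟨m, rfl⟩ : ∃ m, K = m + 1 := ⟨K - 1, by have := NeZero.pos K; omega⟩
  have e1 := Model_const x h j
  have e2 := Model_const x h j'
  rw [e1, e2]

theorem Model_sum_l (t : Iz n K → ℝ) (i : Fin n) : ∑ j, DK n K t (j, Sum.inl i) = 0 := by
  simp only [DK]
  rw [Finset.sum_sub_distrib, sub_eq_zero]
  exact Equiv.sum_comp (Equiv.subRight (1 : Fin K)) (fun j => t (j, Sum.inr i))

theorem Model_sum_r (t : Iz n K → ℝ) (i : Fin n) : ∑ j, DK n K t (j, Sum.inr i) = 0 := by
  simp only [DK]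
  rw [Finset.sum_sub_distrib, sub_eq_zero]
  exact Equiv.sum_comp (Equiv.addRight (1 : Fin K)) (fun j => t (j, Sum.inl i))

theorem Model_sin_zero {x : ℝ} (h : Real.sin (2 * Real.pi * x) = 0) : ∃ k : ℤ, x = k / 2 := by
  obtain ⟨k, hk⟩ := Real.sin_eq_zero_iff.1 h
  refine ⟨k, ?_⟩
  have hp := Real.pi_pos.ne'
  have : (k : ℝ) * Real.pi = (2 * x) * Real.pi := by rw [hk]; ring
  have h2 := mul_right_cancel₀ hp this
  linarith

theorem Model_crit {t : Iz n K → ℝ} (h : fderiv ℝ (Model_f n K) t = 0) :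
    ∃ k : Fin n ⊕ Fin n → ℤ, ∀ j b, t (j, b) = k b / 2 := by
  have h0 : ∀ a, DK n K t a + Model_G n K t a = 0 := fun a => by
    rw [← Model_f_fderiv, h]; rfl
  have hp := Real.pi_pos
  -- the sines vanish
  have hl : ∀ i, Real.sin (2 * Real.pi * t (0, Sum.inl i)) = 0 := by
    intro i
    have h1 : ∑ j, (DK n K t (j, Sum.inl i) + Model_G n K t (j, Sum.inl i)) = 0 :=
      Finset.sum_eq_zero fun j _ => h0 _
    rw [Finset.sum_add_distrib, Model_sum_l, zero_add] at h1
    simp only [Model_G, Finset.sum_ite_eq', Finset.mem_univ, if_true] at h1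
    have h2 : 2 * Real.pi * Real.sin (2 * Real.pi * t (0, Sum.inl i)) = 0 := by linarith
    rcases mul_eq_zero.1 h2 with h3 | h3
    · linarith
    · exact h3
  have hr : ∀ i, Real.sin (2 * Real.pi * t (Model_la K, Sum.inr i)) = 0 := by
    intro i
    have h1 : ∑ j, (DK n K t (j, Sum.inr i) + Model_G n K t (j, Sum.inr i)) = 0 :=
      Finset.sum_eq_zero fun j _ => h0 _
    rw [Finset.sum_add_distrib, Model_sum_r, zero_add] at h1
    simp only [Model_G, Finset.sum_ite_eq', Finset.mem_univ, if_true] at h1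
    have h2 : 2 * Real.pi * Real.sin (2 * Real.pi * t (Model_la K, Sum.inr i)) = 0 := by linarith
    rcases mul_eq_zero.1 h2 with h3 | h3
    · linarith
    · exact h3
  have hG : ∀ a, Model_G n K t a = 0 := by
    rintro ⟨j, i | i⟩
    · simp [Model_G, hl i]
    · simp [Model_G, hr i]
  have hD : ∀ a, DK n K t a = 0 := fun a => by
    have := h0 a
    rw [hG a, add_zero] at this
    exact this
  have hx : ∀ (i : Fin n) (j : Fin K), t (j + 1, Sum.inl i) = t (j, Sum.inl i) := fun i j => by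
    have := hD (j, Sum.inr i)
    simp only [DK] at this
    linarith
  have hy : ∀ (i : Fin n) (j : Fin K), t (j + 1, Sum.inr i) = t (j, Sum.inr i) := fun i j => by
    have := hD (j + 1, Sum.inl i)
    simp only [DK, add_sub_cancel_right] at this
    linarith
  have hkx : ∀ i, ∃ k : ℤ, t (0, Sum.inl i) = k / 2 := fun i => Model_sin_zero (hl i)
  have hky : ∀ i, ∃ k : ℤ, t (Model_la K, Sum.inr i) = k / 2 := fun i => Model_sin_zero (hr i)
  choose kx hkx using hkx
  choose ky hky using hky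
  refine ⟨Sum.elim kx ky, ?_⟩
  rintro j (i | i)
  · rw [Sum.elim_inl, ← hkx i]
    exact Model_const' (fun j => t (j, Sum.inl i)) (hx i) j 0
  · rw [Sum.elim_inr, ← hky i]
    exact Model_const' (fun j => t (j, Sum.inr i)) (hy i) j (Model_la K)

/-- the representatives of the critical points -/
noncomputable def Model_z (n K : ℕ) (e : Fin n ⊕ Fin n → Fin 2) : Iz n K → ℝ :=
  fun a => ((e a.2 : ℕ) : ℝ) / 2

theorem Model_z_crit (e : Fin n ⊕ Fin n → Fin 2) :
    fderiv ℝ (Model_f n K) (Model_z n K e) = 0 := by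
  have hs : ∀ b : Fin 2, Real.sin (2 * Real.pi * (((b : ℕ) : ℝ) / 2)) = 0 := by
    intro b
    rw [show 2 * Real.pi * (((b : ℕ) : ℝ) / 2) = ((b : ℕ) : ℝ) * Real.pi by ring]
    exact Real.sin_nat_mul_pi _
  have h0 : ∀ a, fderiv ℝ (Model_f n K) (Model_z n K e) (Pi.single a 1) = 0 := by
    intro a
    rw [Model_f_fderiv]
    obtain ⟨j, i | i⟩ := a
    · simp [DK, Model_G, Model_z, hs]
    · simp [DK, Model_G, Model_z, hs]
  apply ContinuousLinearMap.coe_injective
  apply LinearMap.pi_ext'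
  intro a
  ext
  simpa using h0 a

/-! ### Index -/

/-- `u ↦ v` with `x_{j+1} - x_j = s u_j`, `y_j = u_j` -/
noncomputable def Model_phi (n K : ℕ) (s : ℝ) :
    (Fin (K - 1) × Fin n → ℝ) →ₗ[ℝ] (Iz n K → ℝ) where
  toFun u := fun a => match a with
    | (j, Sum.inl i) => ∑ l : Fin (K - 1), if (l : ℕ) < (j : ℕ) then s * u (l, i) else 0
    | (j, Sum.inr i) => if h : (j : ℕ) < K - 1 then u (⟨j, h⟩, i) else 0
  map_add' u v := by
    ext ⟨j, i | i⟩
    · simp only [Pi.add_apply]
      rw [← Finset.sum_add_distrib]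
      refine Finset.sum_congr rfl fun l _ => ?_
      split_ifs
      · ring
      · simp
    · simp only [Pi.add_apply]
      split_ifs
      · rfl
      · simp
  map_smul' c u := by
    ext ⟨j, i | i⟩
    · simp only [Pi.smul_apply, smul_eq_mul, RingHom.id_apply]
      rw [Finset.mul_sum]
      refine Finset.sum_congr rfl fun l _ => ?_
      split_ifs
      · ring
      · simp
    · simp only [Pi.smul_apply, smul_eq_mul, RingHom.id_apply]
      split_ifs
      · rfl
      · simp

theorem Model_phi_inj (s : ℝ) : Function.Injective (Model_phi n K s) := by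
  rw [← LinearMap.ker_eq_bot, LinearMap.ker_eq_bot']
  intro u hu
  ext ⟨l, i⟩
  have h1 := congrFun hu (⟨l, by omega⟩, Sum.inr i)
  simpa [Model_phi] using h1

theorem Model_phi_zero (s : ℝ) (u : Fin (K - 1) × Fin n → ℝ) (i : Fin n) :
    Model_phi n K s u (0, Sum.inl i) = 0 ∧ Model_phi n K s u (Model_la K, Sum.inr i) = 0 := by
  constructor
  · simp [Model_phi]
  · simp [Model_phi, Model_la]

theorem Model_phi_neg (u : Fin (K - 1) × Fin n → ℝ) :
    QK n K (Model_phi n K (-1) u) = -∑ l, u l ^ 2 := by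
  obtain ⟨m, rfl⟩ : ∃ m, K = m + 1 := ⟨K - 1, by have := NeZero.pos K; omega⟩
  unfold QK
  rw [Finset.sum_comm, Fintype.sum_prod_type_right, ← Finset.sum_neg_distrib]
  refine Finset.sum_congr rfl fun i _ => ?_
  have h1 := Pool.Agent.H47.QG.ActC_key (m := m) 0 0 (fun _ => 0) (fun l => u (l, i))
    (fun j => Model_phi n (m + 1) (-1) u (j, Sum.inl i))
    (fun j => Model_phi n (m + 1) (-1) u (j, Sum.inr i)) ?_ ?_
  · rw [h1, ← Finset.sum_neg_distrib]
    refine Finset.sum_congr rfl fun l _ => ?_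
    ring
  · intro j
    rw [zero_add]
    show (∑ l : Fin m, if (l : ℕ) < (j : ℕ) then -1 * u (l, i) else 0) = _
    refine Finset.sum_congr rfl fun l _ => ?_
    split_ifs
    · ring
    · rfl
  · intro j
    rw [zero_add]
    show (if h : (j : ℕ) < m then u (⟨j, h⟩, i) else 0) = _
    split_ifs
    · rw [zero_add]
    · rfl

theorem Model_phi_pos (u : Fin (K - 1) × Fin n → ℝ) :
    QK n K (Model_phi n K 1 u) = ∑ l, u l ^ 2 := by
  obtain ⟨m, rfl⟩ : ∃ m, K = m + 1 := ⟨K - 1, by have := NeZero.pos K; omega⟩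
  unfold QK
  rw [Finset.sum_comm, Fintype.sum_prod_type_right]
  refine Finset.sum_congr rfl fun i _ => ?_
  have h1 := Pool.Agent.H47.QG.ActC_key (m := m) 0 0 (fun l => u (l, i)) (fun _ => 0)
    (fun j => Model_phi n (m + 1) 1 u (j, Sum.inl i))
    (fun j => Model_phi n (m + 1) 1 u (j, Sum.inr i)) ?_ ?_
  · rw [h1]
    refine Finset.sum_congr rfl fun l _ => ?_
    ring
  · intro j
    rw [zero_add]
    show (∑ l : Fin m, if (l : ℕ) < (j : ℕ) then 1 * u (l, i) else 0) = _
    refine Finset.sum_congr rfl fun l _ => ?_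
    split_ifs
    · ring
    · rfl
  · intro j
    rw [zero_add]
    show (if h : (j : ℕ) < m then u (⟨j, h⟩, i) else 0) = _
    split_ifs
    · rw [add_zero]
    · rfl

theorem Model_QK_line (z v : Iz n K → ℝ) : ∃ c : ℝ, ∀ s : ℝ,
    QK n K (s • v + z) = QK n K z + s * c + s ^ 2 * QK n K v := by
  refine ⟨∑ j : Fin K, ∑ i : Fin n,
    (v (j, Sum.inr i) * (z (j + 1, Sum.inl i) - z (j, Sum.inl i)) +
      z (j, Sum.inr i) * (v (j + 1, Sum.inl i) - v (j, Sum.inl i))), fun s => ?_⟩
  unfold QK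
  simp only [Finset.mul_sum, ← Finset.sum_add_distrib]
  refine Finset.sum_congr rfl fun j _ => Finset.sum_congr rfl fun i _ => ?_
  simp only [Pi.add_apply, Pi.smul_apply, smul_eq_mul]
  ring

theorem Model_span (x : ℝ) :
    ContinuousLinearMap.toSpanSingleton ℝ x = x • ContinuousLinearMap.id ℝ ℝ := by
  apply ContinuousLinearMap.ext
  intro y
  simp [mul_comm]

theorem Model_poly (c0 c1 c2 : ℝ) :
    hess (fun s : ℝ => c0 + s * c1 + s ^ 2 * c2) 0 1 = 2 * c2 := by
  have h1 : ∀ s : ℝ, HasFDerivAt (fun s : ℝ => c0 + s * c1 + s ^ 2 * c2)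
      ((c1 + 2 * s * c2) • ContinuousLinearMap.id ℝ ℝ) s := by
    intro s
    have h3 : HasDerivAt (fun s : ℝ => c0 + s * c1 + s ^ 2 * c2) _ s :=
      (((hasDerivAt_id s).mul_const c1).const_add c0).add
        (((hasDerivAt_id s).pow 2).mul_const c2)
    have h2 : HasDerivAt (fun s : ℝ => c0 + s * c1 + s ^ 2 * c2) (c1 + 2 * s * c2) s :=
      h3.congr_deriv (by simp)
    have h4 := h2.hasFDerivAt
    rw [Model_span] at h4
    exact h4
  have h4 : fderiv ℝ (fun s : ℝ => c0 + s * c1 + s ^ 2 * c2) =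
      fun s => (c1 + 2 * s * c2) • ContinuousLinearMap.id ℝ ℝ := funext fun s => (h1 s).fderiv
  have h5 : HasFDerivAt (fun s : ℝ => c1 + 2 * s * c2)
      ((2 * c2) • ContinuousLinearMap.id ℝ ℝ) 0 := by
    have h7 : HasDerivAt (fun s : ℝ => c1 + 2 * s * c2) _ 0 :=
      (((hasDerivAt_id (0 : ℝ)).const_mul 2).mul_const c2).const_add c1
    have h6 : HasDerivAt (fun s : ℝ => c1 + 2 * s * c2) (2 * c2) 0 := h7.congr_deriv (by simp)
    have h8 := h6.hasFDerivAt
    rw [Model_span] at h8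
    exact h8
  have h8 := h5.smul_const (ContinuousLinearMap.id ℝ ℝ)
  rw [QG.hess_apply, h4, h8.fderiv]
  simp

theorem Model_hess (z v : Iz n K → ℝ) (hv : ∀ i, v (0, Sum.inl i) = 0 ∧
    v (Model_la K, Sum.inr i) = 0) : hess (Model_f n K) z v = 2 * QK n K v := by
  obtain ⟨c, hc⟩ := Model_QK_line z v
  have h1 := QG.hess_comp (Model_f n K) Model_f_smooth
    (ContinuousLinearMap.smulRight (ContinuousLinearMap.id ℝ ℝ) v) z 0 1
  have h2 : (fun s : ℝ => Model_f n K
      (ContinuousLinearMap.smulRight (ContinuousLinearMap.id ℝ ℝ) v s + z)) =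
      fun s => (QK n K z + Model_P n K z) + s * c + s ^ 2 * QK n K v := by
    funext s
    have h3 : ContinuousLinearMap.smulRight (ContinuousLinearMap.id ℝ ℝ) v s + z =
      s • v + z := by simp
    rw [h3]
    unfold Model_f
    rw [hc]
    have h4 : Model_P n K (s • v + z) = Model_P n K z := by
      unfold Model_P
      refine Finset.sum_congr rfl fun i _ => ?_
      simp [(hv i).1, (hv i).2]
    rw [h4]
    ring
  rw [h2, Model_poly] at h1
  rw [h1]
  simp

theorem Model_sigNeg (z : Iz n K → ℝ) : n * (K - 1) ≤ sigNeg (hess (Model_f n K) z) := by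
  have h1 := QG.le_sigNeg (hess (Model_f n K) z) (LinearMap.range (Model_phi n K (-1))) ?_
  · rw [LinearMap.finrank_range_of_inj (Model_phi_inj (-1)),
      Module.finrank_fintype_fun_eq_card, Fintype.card_prod, Fintype.card_fin,
      Fintype.card_fin, mul_comm] at h1
    exact h1
  · rintro _ ⟨u, rfl⟩ hne
    rw [Model_hess z _ (fun i => Model_phi_zero (-1) u i), Model_phi_neg]
    have h2 : ∃ l, u l ≠ 0 := by
      by_contra hc
      push Not at hc
      exact hne (by rw [show u = 0 from funext hc, map_zero])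
    obtain ⟨l, hl⟩ := h2
    have h3 : 0 < ∑ l, u l ^ 2 :=
      Finset.sum_pos' (fun _ _ => sq_nonneg _) ⟨l, Finset.mem_univ _, by positivity⟩
    linarith

theorem Model_sigPos (z : Iz n K → ℝ) : n * (K - 1) ≤ sigPos (hess (Model_f n K) z) := by
  have h1 := QG.le_sigNeg (-hess (Model_f n K) z) (LinearMap.range (Model_phi n K 1)) ?_
  · rw [LinearMap.finrank_range_of_inj (Model_phi_inj 1),
      Module.finrank_fintype_fun_eq_card, Fintype.card_prod, Fintype.card_fin,
      Fintype.card_fin, mul_comm, sigNeg_neg] at h1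
    exact h1
  · rintro _ ⟨u, rfl⟩ hne
    show -(hess (Model_f n K) z (Model_phi n K 1 u)) < 0
    rw [Model_hess z _ (fun i => Model_phi_zero 1 u i), Model_phi_pos]
    have h2 : ∃ l, u l ≠ 0 := by
      by_contra hc
      push Not at hc
      exact hne (by rw [show u = 0 from funext hc, map_zero])
    obtain ⟨l, hl⟩ := h2
    have h3 : 0 < ∑ l, u l ^ 2 :=
      Finset.sum_pos' (fun _ _ => sq_nonneg _) ⟨l, Finset.mem_univ _, by positivity⟩
    linarith

end

/-- **Total cohomology** of the pair `({q ≤ R}, {q ≤ R, Q ≤ -a})`: only in the dimensions between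
`n (K - 1)` and `n (K - 1) + 2 n`. -/
theorem total_K (F : Type*) [Field F] (n K : ℕ) [NeZero K] : ∃ R₀ : ℝ, ∀ R ≥ R₀, ∀ a ≥ R₀,
    ∀ᶠ M : ℕ in atTop, ∀ j, (j < n * (K - 1) ∨ n * (K - 1) + 2 * n < j) →
      HR F (lam (Lc n K) (2 ^ M)) (Xm (qK n K) R (2 ^ M)) (Am (qK n K) (QK n K) R a (2 ^ M))
        j 0 := by
  classical
  obtain ⟨R₀, hR₀, hbd⟩ := dom_Bd n K one_pos (2 * Real.pi)
  refine ⟨R₀, fun R hR a ha => ?_⟩
  have hdm : Dm (Lc n K) (qK n K) (QK n K) R a := by
    have h := dom_Dm n K one_pos R a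
    simp only [one_mul] at h
    exact h
  have hb := hbd R hR a ha (Model_f n K) (Model_f_smooth.differentiable (by norm_num))
    (fun y b => by
      rw [Model_f_fderiv, one_mul, add_sub_cancel_left]
      exact Model_G_le y b)
  simp only [one_mul] at hb
  obtain ⟨hb1, hb2⟩ := hb
  obtain ⟨α₀, hα₀⟩ := Lv_low hdm Model_f_smooth.continuous Model_f_per
  obtain ⟨β₀, hβ₀⟩ := Lv_high hdm Model_f_smooth.continuous Model_f_per
  have hα := hα₀ (min α₀ (β₀ - 1)) (min_le_left _ _)
  have hβ := hβ₀ β₀ le_rfl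
  set α := min α₀ (β₀ - 1) with hαdef
  have hlt : α < β₀ := lt_of_le_of_lt (min_le_right _ _) (by linarith)
  have hband : Band (Lc n K) (qK n K) (QK n K) (Model_f n K) R a α β₀
      (Finset.univ.image (Model_z n K)) := by
    refine ⟨hdm, Model_f_smooth, Model_f_per, hb1, hlt, ?_, ?_, ?_⟩
    · intro z hz
      obtain ⟨e, _, rfl⟩ := Finset.mem_image.1 hz
      have h1 := Model_z_crit (K := K) e
      have h2 := hb2 _ h1
      exact ⟨h1, h2.1, h2.2, hα.1 _ h2.1.le h2.2.le, hβ.1 _ h2.1.le h2.2.le⟩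
    · intro z hz z' hz' l hl h
      obtain ⟨e, _, rfl⟩ := Finset.mem_image.1 hz
      obtain ⟨e', _, rfl⟩ := Finset.mem_image.1 hz'
      have h1 : ∀ b, e' b = e b := by
        intro b
        have h2 := congrFun h (0, b)
        simp only [Model_z, Pi.add_apply, rl] at h2
        have h3 : ((e' b : ℕ) : ℤ) = (e b : ℕ) + 2 * l (0, b) := by
          have : (((e' b : ℕ) : ℤ) : ℝ) = (((e b : ℕ) + 2 * l (0, b) : ℤ) : ℝ) := by
            push_cast
            linarith
          exact_mod_cast this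
        apply Fin.ext
        have h4 := (e' b).isLt
        have h5 := (e b).isLt
        omega
      funext a
      simp only [Model_z, h1]
    · intro y h1 h2 _ _ h3
      obtain ⟨k, hk⟩ := Model_crit h3
      refine ⟨Model_z n K (fun b => ⟨(k b % 2).toNat, by omega⟩),
        Finset.mem_image_of_mem _ (Finset.mem_univ _), fun a => k a.2 / 2,
        ⟨fun b => k b / 2, fun j b => rfl⟩, ?_⟩
      funext ⟨j, b⟩
      rw [hk]
      simp only [Model_z, Pi.add_apply, rl]
      have h4 : ((k b % 2).toNat : ℤ) = k b % 2 := Int.toNat_of_nonneg (by omega)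
      have h5 : (((k b % 2).toNat : ℕ) : ℝ) = ((k b % 2 : ℤ) : ℝ) := by
        exact_mod_cast congrArg (Int.cast (R := ℝ)) h4
      rw [h5]
      have h6 : (k b : ℝ) = ((k b % 2 + 2 * (k b / 2) : ℤ) : ℝ) := by
        rw [Int.emod_add_mul_ediv]
      push_cast at h6 ⊢
      linarith
  have hw := window_out F hband
  filter_upwards [hw] with M hM j hj
  have h1 := hM j (by
    intro z _ ⟨h2, h3⟩
    have h4 := Model_sigNeg (n := n) (K := K) z
    have h5 := Model_sigPos (n := n) (K := K) z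
    have h6 : Fintype.card (Iz n K) = 2 * n + 2 * (n * (K - 1)) := by
      rw [Fintype.card_prod, Fintype.card_sum, Fintype.card_fin, Fintype.card_fin]
      obtain ⟨m, rfl⟩ : ∃ m, K = m + 1 := ⟨K - 1, by have := NeZero.pos K; omega⟩
      rw [Nat.add_sub_cancel]
      ring
    rw [h6] at h3
    omega)
  rw [hα.2, hβ.2] at h1
  exact h1

end Pool.Agent.H47.ST
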