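import Pool.Agent.H47.ST.Glue
import Pool.Agent.H47.QG.EqB

/-!
# Separation of the critical values
-/

set_option autoImplicit false

namespace Pool.Agent.H47.ST

open Filter Topology

variable {ι : Type*} [Fintype ι] [DecidableEq ι]

omit [Fintype ι] [DecidableEq ι] in
theorem Sep_rl_zero : rl (0 : ι → ℤ) = 0 := by
  funext i; simp [rl]

omit [Fintype ι] [DecidableEq ι] in
/-- representatives of the classes -/
theorem Sep_reps (L : AddSubgroup (ι → ℤ)) (Z : Finset (ι → ℝ)) :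
    ∃ Z' : Finset (ι → ℝ), (∀ y : ι → ℝ, (∃ z ∈ Z', ∃ l ∈ L, y = z + rl l) ↔
      ∃ z ∈ Z, ∃ l ∈ L, y = z + rl l) ∧
      ∀ z ∈ Z', ∀ z' ∈ Z', ∀ l ∈ L, z' = z + rl l → z' = z := by
  classical
  let s : Setoid (ι → ℝ) :=
    { r := fun z z' => ∃ l ∈ L, z' = z + rl l
      iseqv :=
        { refl := fun z => ⟨0, L.zero_mem, by rw [Sep_rl_zero, add_zero]⟩
          symm := by
            rintro z z' ⟨l, hl, rfl⟩
            exact ⟨-l, L.neg_mem hl, by rw [Glue_rl_neg]; abel⟩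
          trans := by
            rintro z z' z'' ⟨l, hl, rfl⟩ ⟨m, hm, rfl⟩
            exact ⟨l + m, L.add_mem hl hm, by rw [Glue_rl_add]; abel⟩ } }
  have hout : ∀ z : ι → ℝ, ∃ l ∈ L, z = (Quotient.mk s z).out + rl l := fun z =>
    Quotient.mk_out (s := s) z
  refine ⟨Z.image fun z => (Quotient.mk s z).out, ?_, ?_⟩
  · intro y
    constructor
    · rintro ⟨z', hz', l, hl, rfl⟩
      obtain ⟨z, hz, rfl⟩ := Finset.mem_image.mp hz'
      obtain ⟨m, hm, h⟩ := hout z
      refine ⟨z, hz, l - m, L.sub_mem hl hm, ?_⟩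
      rw [Glue_rl_sub]
      have h2 : (Quotient.mk s z).out = z - rl m := eq_sub_of_add_eq h.symm
      rw [h2]
      abel
    · rintro ⟨z, hz, l, hl, rfl⟩
      obtain ⟨m, hm, h⟩ := hout z
      refine ⟨(Quotient.mk s z).out, Finset.mem_image_of_mem _ hz, m + l, L.add_mem hm hl, ?_⟩
      rw [Glue_rl_add, ← add_assoc, ← h]
  · intro z1 h1 z2 h2 l hl h
    obtain ⟨w1, _, rfl⟩ := Finset.mem_image.mp h1
    obtain ⟨w2, _, rfl⟩ := Finset.mem_image.mp h2
    have h3 : Quotient.mk s (Quotient.mk s w1).out = Quotient.mk s (Quotient.mk s w2).out :=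
      Quotient.sound (s := s) ⟨l, hl, h⟩
    rw [Quotient.out_eq, Quotient.out_eq] at h3
    rw [h3]

/-- one-dimensional bump -/
theorem Sep_bump (r : ℝ) (hr : 0 < r) : ∃ β : ℝ → ℝ, ContDiff ℝ 2 β ∧
    (∀ t, |t| ≤ r / 4 → β t = 1) ∧ ∀ t, r / 2 < |t| → β t = 0 := by
  refine ⟨fun t => Real.smoothTransition (2 - 12 / r ^ 2 * t ^ 2 * (4 / 3)), ?_, ?_, ?_⟩
  · exact Real.smoothTransition.contDiff.comp
      (contDiff_const.sub ((contDiff_const.mul (contDiff_id.pow 2)).mul contDiff_const))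
  · intro t ht
    apply Real.smoothTransition.one_of_one_le
    have h1 : t ^ 2 ≤ (r / 4) ^ 2 := by
      rw [← sq_abs t]
      exact pow_le_pow_left₀ (abs_nonneg t) ht 2
    have h2 : 12 / r ^ 2 * t ^ 2 * (4 / 3) ≤ 12 / r ^ 2 * (r / 4) ^ 2 * (4 / 3) := by gcongr
    have h3 : 12 / r ^ 2 * (r / 4) ^ 2 * (4 / 3) = 1 := by field_simp; norm_num
    linarith
  · intro t ht
    apply Real.smoothTransition.zero_of_nonpos
    have h1 : (r / 2) ^ 2 ≤ t ^ 2 := by
      rw [← sq_abs t]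
      exact pow_le_pow_left₀ (by positivity) ht.le 2
    have h2 : 12 / r ^ 2 * (r / 2) ^ 2 * (4 / 3) ≤ 12 / r ^ 2 * t ^ 2 * (4 / 3) := by gcongr
    have h3 : 12 / r ^ 2 * (r / 2) ^ 2 * (4 / 3) = 4 := by field_simp; norm_num
    linarith

omit [DecidableEq ι] in
theorem Sep_crit (π : Equiv.Perm ι) (f : (ι → ℝ) → ℝ) (hf : ContDiff ℝ 2 f)
    (hfT : ∀ y, f (y ∘ π) = f y) (y : ι → ℝ) : fderiv ℝ f (y ∘ π) = 0 ↔ fderiv ℝ f y = 0 := by
  have h0 : ∀ u : ι → ℝ, fderiv ℝ f (y ∘ π) (u ∘ π) = fderiv ℝ f y u := fun u =>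
    Pool.Agent.H47.QG.EqB_fd f hf (LinearMap.funLeft ℝ ℝ π) hfT y u
  constructor
  · intro h
    ext u
    rw [← h0 u, h]
    simp
  · intro h
    ext u
    have h1 := h0 (u ∘ π.symm)
    have h2 : (u ∘ π.symm) ∘ π = u := by
      funext i
      simp
    rw [h2, h] at h1
    simpa using h1

omit [DecidableEq ι] in
theorem Sep_fderiv_per (L : AddSubgroup (ι → ℤ)) (f : (ι → ℝ) → ℝ) (hfp : PerL L f) (l : ι → ℤ)
    (hl : l ∈ L) (y : ι → ℝ) : fderiv ℝ f (y + rl l) = fderiv ℝ f y := by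
  have h := fderiv_comp_add_right (𝕜 := ℝ) (f := f) (x := y) (rl l)
  rw [← h]
  congr 1
  funext x
  exact hfp l hl x

omit [DecidableEq ι] in
theorem Sep_ball_pi (π : Equiv.Perm ι) (y z : ι → ℝ) (s : ℝ) :
    y ∘ π ∈ Metric.closedBall (z ∘ π) s ↔ y ∈ Metric.closedBall z s := by
  have h : dist (y ∘ π) (z ∘ π) = dist y z := by
    apply le_antisymm
    · rw [dist_pi_le_iff dist_nonneg]
      intro i
      exact dist_le_pi_dist y z (π i)
    · rw [dist_pi_le_iff dist_nonneg]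
      intro i
      have := dist_le_pi_dist (y ∘ π) (z ∘ π) (π.symm i)
      simpa using this
  rw [Metric.mem_closedBall, Metric.mem_closedBall, h]

/-- the modification -/
theorem Sep_chi (L : AddSubgroup (ι → ℤ)) (π : Equiv.Perm ι)
    (hLpi : ∀ l ∈ L, l ∘ π = l) (Z : Finset (ι → ℝ)) (r : ℝ) (hr : 0 < r) (hd : Disj L Z r)
    (hZpi : ∀ z ∈ Z, ∃ z' ∈ Z, ∃ l ∈ L, z ∘ π = z' + rl l)
    (hZpi' : ∀ z ∈ Z, ∃ z' ∈ Z, ∃ l ∈ L, z ∘ π.symm = z' + rl l)
    (P : (ι → ℝ) → Prop)
    (hP : ∀ z ∈ Z, ∀ z' ∈ Z, ∀ l ∈ L, z ∘ π = z' + rl l → (P z' ↔ P z)) :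
    ∃ χ : (ι → ℝ) → ℝ, ContDiff ℝ 2 χ ∧ PerL L χ ∧ (∀ y, χ (y ∘ π) = χ y) ∧
      (∀ y, (∀ z ∈ Z, ∀ l ∈ L, y ∉ Metric.closedBall (z + rl l) (r / 2)) →
        ∀ᶠ x in 𝓝 y, χ x = 0) ∧
      (∀ z ∈ Z, ∀ l ∈ L, ∀ y ∈ Metric.ball (z + rl l) (r / 4), P z → χ y = 1) ∧
      (∀ z ∈ Z, ∀ l ∈ L, ∀ y ∈ Metric.ball (z + rl l) (r / 4), ¬ P z → χ y = 0) := by
  classical
  obtain ⟨β, hβ, hβ1, hβ0⟩ := Sep_bump r hr
  let k : (ι → ℝ) → (ι → ℝ) → ℝ := fun z y => if P z then ∏ i, β (y i - z i) else 0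
  have hk : ∀ z ∈ Z, ContDiff ℝ 2 (k z) := by
    intro z _
    by_cases h : P z
    · have : k z = fun y => ∏ i, β (y i - z i) := by funext y; simp [k, h]
      rw [this]
      refine contDiff_prod fun i _ => hβ.comp ((contDiff_apply ℝ ℝ i).sub contDiff_const)
    · have : k z = fun _ => 0 := by funext y; simp [k, h]
      rw [this]
      exact contDiff_const
  have hk2 : ∀ z ∈ Z, ∀ y, y ∉ Metric.closedBall z (r / 2) → k z y = (fun _ => (0 : ℝ)) y := by
    intro z _ y hy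
    by_cases h : P z
    · rw [Metric.mem_closedBall, dist_pi_le_iff (by positivity)] at hy
      push Not at hy
      obtain ⟨i, hi⟩ := hy
      simp only [k, if_pos h]
      apply Finset.prod_eq_zero (Finset.mem_univ i)
      apply hβ0
      rwa [Real.dist_eq] at hi
    · simp [k, h]
  obtain ⟨χ, h1, h2, h3, h4⟩ := glue L 2 (fun _ => (0 : ℝ)) contDiff_const (fun _ _ _ => rfl) Z r hr
    hd k hk hk2
  refine ⟨χ, h1, h2, ?_, h3, ?_, ?_⟩
  · intro y
    by_cases h : ∃ z ∈ Z, ∃ l ∈ L, y ∈ Metric.closedBall (z + rl l) (r / 2)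
    · obtain ⟨z, hz, l, hl, hy⟩ := h
      obtain ⟨z', hz', l', hl', hzz⟩ := hZpi z hz
      have hrl : (rl l) ∘ π = rl l := by
        have := hLpi l hl
        funext i
        have := congrFun this i
        simp only [Function.comp_apply] at this
        simp [rl, this]
      have h5 : y ∘ π ∈ Metric.closedBall (z' + rl (l' + l)) (r / 2) := by
        have := (Sep_ball_pi π y (z + rl l) (r / 2)).mpr hy
        have h6 : (z + rl l) ∘ π = z' + rl (l' + l) := by
          rw [Glue_rl_add, ← add_assoc, ← hzz]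
          nth_rewrite 2 [← hrl]
          rfl
        rwa [h6] at this
      have hsub : ∀ c : ι → ℝ, Metric.closedBall c (r / 2) ⊆ Metric.ball c r := fun c =>
        Metric.closedBall_subset_ball (by linarith)
      rw [h4 z' hz' (l' + l) (L.add_mem hl' hl) _ (hsub _ h5), h4 z hz l hl y (hsub _ hy)]
      have hPP := hP z hz z' hz' l' hl' hzz
      by_cases hPz : P z
      · simp only [k, if_pos hPz, if_pos (hPP.mpr hPz)]
        rw [← Equiv.prod_comp π fun i => β ((y - rl l) i - z i)]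
        apply Finset.prod_congr rfl
        intro i _
        congr 1
        have h7 : z (π i) = z' i + rl l' i := congrFun hzz i
        have h8 : rl l (π i) = rl l i := congrFun hrl i
        simp only [Pi.sub_apply, Function.comp_apply, Glue_rl_add, Pi.add_apply]
        rw [h7, h8]
        ring
      · simp only [k, if_neg hPz, if_neg (fun h => hPz (hPP.mp h))]
    · push Not at h
      have h5 : ∀ z ∈ Z, ∀ l ∈ L, y ∘ π ∉ Metric.closedBall (z + rl l) (r / 2) := by
        intro z hz l hl hy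
        obtain ⟨z', hz', l', hl', hzz⟩ := hZpi' z hz
        apply h z' hz' (l' + l) (L.add_mem hl' hl)
        rw [← Sep_ball_pi π]
        have h6 : (z' + rl (l' + l)) ∘ π = z + rl l := by
          funext i
          have h7 := congrFun hzz (π i)
          have h8 := congrFun (hLpi l hl) i
          simp only [Function.comp_apply, Equiv.symm_apply_apply] at h7 h8
          simp only [Function.comp_apply, Pi.add_apply, Glue_rl_add]
          simp only [Pi.add_apply] at h7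
          rw [h7]
          simp only [rl]
          rw [h8]
          ring
        rwa [h6]
      rw [(h3 y h).self_of_nhds, (h3 _ h5).self_of_nhds]
  · intro z hz l hl y hy hPz
    have hsub : Metric.ball (z + rl l) (r / 4) ⊆ Metric.ball (z + rl l) r :=
      Metric.ball_subset_ball (by linarith)
    rw [h4 z hz l hl y (hsub hy)]
    simp only [k, if_pos hPz]
    apply Finset.prod_eq_one
    intro i _
    apply hβ1
    have h5 := (dist_le_pi_dist y (z + rl l) i).trans hy.le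
    rw [Real.dist_eq] at h5
    simp only [Pi.sub_apply]
    have : y i - rl l i - z i = y i - (z + rl l) i := by simp only [Pi.add_apply]; ring
    rwa [this]
  · intro z hz l hl y hy hPz
    have hsub : Metric.ball (z + rl l) (r / 4) ⊆ Metric.ball (z + rl l) r :=
      Metric.ball_subset_ball (by linarith)
    rw [h4 z hz l hl y (hsub hy)]
    simp only [k, if_neg hPz]

/-- A small `L`- and `π`-invariant modification near the critical points with property `P`, such
that the critical values of the points with and without property `P` are different. -/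
theorem separation (L : AddSubgroup (ι → ℤ)) (π : Equiv.Perm ι) {p : ℕ} (hp : 0 < p)
    (hpi : π ^ p = 1) (hLpi : ∀ l ∈ L, l ∘ π = l) (f : (ι → ℝ) → ℝ) (hf : ContDiff ℝ 2 f)
    (hfp : PerL L f) (hfT : ∀ y, f (y ∘ π) = f y) (Z : Finset (ι → ℝ))
    (hZ : ∀ y, fderiv ℝ f y = 0 ↔ ∃ z ∈ Z, ∃ l ∈ L, y = z + rl l)
    (P : (ι → ℝ) → Prop) (hP1 : ∀ y, fderiv ℝ f y = 0 → ∀ l ∈ L, P (y + rl l) ↔ P y)
    (hP2 : ∀ y, fderiv ℝ f y = 0 → (P (y ∘ π) ↔ P y)) :
    ∃ f' : (ι → ℝ) → ℝ, ContDiff ℝ 2 f' ∧ PerL L f' ∧ (∀ y, f' (y ∘ π) = f' y) ∧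
      (∀ y i, |fderiv ℝ f' y (Pi.single i 1) - fderiv ℝ f y (Pi.single i 1)| ≤ 1) ∧
      (∀ y, fderiv ℝ f' y = 0 ↔ fderiv ℝ f y = 0) ∧
      (∀ y, fderiv ℝ f y = 0 → ∃ c : ℝ, ∀ᶠ x in 𝓝 y, f' x = f x + c) ∧
      ∀ y y', fderiv ℝ f y = 0 → fderiv ℝ f y' = 0 → P y → ¬ P y' → f' y ≠ f' y' := by
  classical
  clear hp hpi
  obtain ⟨Z', hZ1, hZ2⟩ := Sep_reps L Z
  have hC : ∀ y, fderiv ℝ f y = 0 ↔ ∃ z ∈ Z', ∃ l ∈ L, y = z + rl l := fun y =>
    (hZ y).trans (hZ1 y).symm
  have hcz : ∀ z ∈ Z', fderiv ℝ f z = 0 := fun z hz =>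
    (hC z).mpr ⟨z, hz, 0, L.zero_mem, by rw [Sep_rl_zero, add_zero]⟩
  obtain ⟨r, hd, hr⟩ := ((Disj_small L Z' hZ2).and self_mem_nhdsWithin).exists
  have hr : 0 < r := hr
  obtain ⟨χ, hχ, hχp, hχpi, hχ0, hχ1, hχ2⟩ := Sep_chi L π hLpi Z' r hr hd
    (fun z hz => (hC _).mp ((Sep_crit π f hf hfT z).mpr (hcz z hz)))
    (fun z hz => (hC _).mp ((Sep_crit π f hf hfT _).mp (by
      have h : (z ∘ π.symm) ∘ π = z := by funext i; simp
      rw [h]
      exact hcz z hz))) P
    (fun z hz z' hz' l hl h => by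
      rw [← hP2 z (hcz z hz), h]
      exact (hP1 z' (hcz z' hz') l hl).symm)
  have hfd : Differentiable ℝ f := hf.differentiable (by norm_num)
  have hχd : Differentiable ℝ χ := hχ.differentiable (by norm_num)
  have hcf : Continuous (fderiv ℝ f) := hf.continuous_fderiv (by norm_num)
  have hcχ : Continuous (fderiv ℝ χ) := hχ.continuous_fderiv (by norm_num)
  -- local constancy
  have hloc : ∀ z ∈ Z', ∀ l ∈ L, ∀ y ∈ Metric.ball (z + rl l) (r / 4),
      ∀ᶠ x in 𝓝 y, χ x = χ y := by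
    intro z hz l hl y hy
    filter_upwards [Metric.isOpen_ball.mem_nhds hy] with x hx
    by_cases h : P z
    · rw [hχ1 z hz l hl x hx h, hχ1 z hz l hl y hy h]
    · rw [hχ2 z hz l hl x hx h, hχ2 z hz l hl y hy h]
  have hloc0 : ∀ z ∈ Z', ∀ l ∈ L, ∀ y ∈ Metric.ball (z + rl l) (r / 4), fderiv ℝ χ y = 0 := by
    intro z hz l hl y hy
    have h : χ =ᶠ[𝓝 y] fun _ => χ y := hloc z hz l hl y hy
    rw [h.fderiv_eq]
    simp
  have hout0 : ∀ y, (∀ z ∈ Z', ∀ l ∈ L, y ∉ Metric.closedBall (z + rl l) (r / 2)) →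
      fderiv ℝ χ y = 0 := by
    intro y hy
    have h : χ =ᶠ[𝓝 y] fun _ => (0 : ℝ) := hχ0 y hy
    rw [h.fderiv_eq]
    simp
  -- bound of the derivative of `χ`
  have hK : IsCompact (⋃ z ∈ Z', Metric.closedBall z (r / 2)) :=
    Z'.isCompact_biUnion fun z _ => isCompact_closedBall z (r / 2)
  obtain ⟨C, hCb⟩ : ∃ C : ℝ, ∀ y, ‖fderiv ℝ χ y‖ ≤ C := by
    obtain ⟨C, hC'⟩ := hK.exists_bound_of_continuousOn hcχ.continuousOn
    refine ⟨max C 0, fun y => ?_⟩
    by_cases h : ∃ z ∈ Z', ∃ l ∈ L, y ∈ Metric.closedBall (z + rl l) (r / 2)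
    · obtain ⟨z, hz, l, hl, hy⟩ := h
      have h1 : y - rl l ∈ Metric.closedBall z (r / 2) := by
        rw [Metric.mem_closedBall, dist_eq_norm] at hy ⊢
        have : y - rl l - z = y - (z + rl l) := by abel
        rwa [this]
      have h2 := Sep_fderiv_per L χ hχp l hl (y - rl l)
      rw [sub_add_cancel] at h2
      rw [h2]
      exact (hC' _ (Set.mem_biUnion hz h1)).trans (le_max_left _ _)
    · push Not at h
      rw [hout0 y h, norm_zero]
      exact le_max_right _ _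
  have hC0 : 0 ≤ C := (norm_nonneg _).trans (hCb 0)
  -- lower bound of the derivative of `f` on the shells
  obtain ⟨c, hc, hcb⟩ : ∃ c > 0, ∀ z ∈ Z', ∀ y ∈ Metric.closedBall z (r / 2),
      y ∉ Metric.ball z (r / 4) → c ≤ ‖fderiv ℝ f y‖ := by
    have hK2 : IsCompact (⋃ z ∈ Z', Metric.closedBall z (r / 2) \ Metric.ball z (r / 4)) :=
      Z'.isCompact_biUnion fun z _ => (isCompact_closedBall z (r / 2)).diff Metric.isOpen_ball
    rcases (⋃ z ∈ Z', Metric.closedBall z (r / 2) \ Metric.ball z (r / 4)).eq_empty_or_nonempty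
      with he | hne
    · refine ⟨1, one_pos, fun z hz y hy hy' => ?_⟩
      have : y ∈ (⋃ z ∈ Z', Metric.closedBall z (r / 2) \ Metric.ball z (r / 4)) :=
        Set.mem_biUnion hz ⟨hy, hy'⟩
      rw [he] at this
      exact absurd this (Set.notMem_empty _)
    · obtain ⟨y0, hy0, hmin⟩ := hK2.exists_isMinOn hne hcf.norm.continuousOn
      refine ⟨‖fderiv ℝ f y0‖, ?_, fun z hz y hy hy' => ?_⟩
      · rw [gt_iff_lt, norm_pos_iff]
        intro h0
        obtain ⟨z, hz, hy1, hy2⟩ := Set.mem_iUnion₂.mp hy0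
        obtain ⟨z', hz', l', hl', h1⟩ := (hC y0).mp h0
        have h2 : y0 ∈ Metric.closedBall (z' + rl l') r := by
          rw [h1]
          exact Metric.mem_closedBall_self hr.le
        obtain ⟨h3, h4⟩ := hd z' hz' z hz l' hl' y0 h2
          (Metric.closedBall_subset_closedBall (by linarith) hy1)
        apply hy2
        rw [h1, h4, Sep_rl_zero, add_zero, h3]
        exact Metric.mem_ball_self (by linarith)
      · exact hmin (Set.mem_biUnion hz ⟨hy, hy'⟩)
  -- the choice of `ε`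
  have hev1 : ∀ᶠ ε in 𝓝[>] (0 : ℝ), ε * C ≤ 1 ∧ ε * C < c := by
    have h1 : Filter.Tendsto (fun ε : ℝ => ε * C) (𝓝 0) (𝓝 0) := by
      have : Continuous fun ε : ℝ => ε * C := by fun_prop
      simpa using this.tendsto 0
    have h2 := (h1.eventually (gt_mem_nhds (show (0 : ℝ) < min 1 c from lt_min one_pos hc)))
    refine nhdsWithin_le_nhds (h2.mono fun ε h => ?_)
    exact ⟨(h.trans_le (min_le_left _ _)).le, h.trans_le (min_le_right _ _)⟩
  have hev2 : ∀ᶠ ε in 𝓝[>] (0 : ℝ), ∀ z ∈ Z', ∀ z' ∈ Z', ε ≠ f z' - f z := by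
    rw [Filter.eventually_all_finset]
    intro z _
    rw [Filter.eventually_all_finset]
    intro z' _
    rcases le_or_gt (f z' - f z) 0 with h | h
    · filter_upwards [self_mem_nhdsWithin] with ε hε
      exact (h.trans_lt hε).ne'
    · refine nhdsWithin_le_nhds ?_
      filter_upwards [gt_mem_nhds h] with ε hε
      exact hε.ne
  obtain ⟨ε, ⟨⟨hε1, hε2⟩, hε3⟩, hε0⟩ := ((hev1.and hev2).and self_mem_nhdsWithin).exists
  have hε0 : 0 < ε := hε0
  have hder : ∀ y, fderiv ℝ (fun x => f x + ε * χ x) y = fderiv ℝ f y + ε • fderiv ℝ χ y := by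
    intro y
    exact ((hfd y).hasFDerivAt.add ((hχd y).hasFDerivAt.const_mul ε)).fderiv
  refine ⟨fun x => f x + ε * χ x, hf.add (contDiff_const.mul hχ), ?_, ?_, ?_, ?_, ?_, ?_⟩
  · intro l hl y
    show f (y + rl l) + ε * χ (y + rl l) = f y + ε * χ y
    rw [hfp l hl, hχp l hl]
  · intro y
    show f (y ∘ π) + ε * χ (y ∘ π) = f y + ε * χ y
    rw [hfT, hχpi]
  · intro y i
    rw [hder]
    have h1 : (fderiv ℝ f y + ε • fderiv ℝ χ y) (Pi.single i 1) - fderiv ℝ f y (Pi.single i 1) =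
        ε * fderiv ℝ χ y (Pi.single i 1) := by
      simp
    rw [h1, abs_mul, abs_of_pos hε0]
    have h2 : |fderiv ℝ χ y (Pi.single i 1)| ≤ C := by
      have h3 := (fderiv ℝ χ y).le_opNorm (Pi.single i 1)
      have h4 : ‖(Pi.single i 1 : ι → ℝ)‖ ≤ 1 := by
        rw [pi_norm_le_iff_of_nonneg zero_le_one]
        intro j
        by_cases h : j = i
        · subst h; simp
        · simp [Pi.single_eq_of_ne h]
      rw [Real.norm_eq_abs] at h3
      calc |fderiv ℝ χ y (Pi.single i 1)| ≤ ‖fderiv ℝ χ y‖ * ‖(Pi.single i 1 : ι → ℝ)‖ := h3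
        _ ≤ C * 1 := mul_le_mul (hCb y) h4 (norm_nonneg _) hC0
        _ = C := mul_one C
    exact (mul_le_mul_of_nonneg_left h2 hε0.le).trans hε1
  · intro y
    rw [hder]
    constructor
    · intro h
      by_contra hne
      have hχy : fderiv ℝ χ y ≠ 0 := by
        intro h0
        rw [h0, smul_zero, add_zero] at h
        exact hne h
      by_cases hin : ∃ z ∈ Z', ∃ l ∈ L, y ∈ Metric.closedBall (z + rl l) (r / 2)
      · obtain ⟨z, hz, l, hl, hy⟩ := hin
        have h1 : y - rl l ∈ Metric.closedBall z (r / 2) := by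
          rw [Metric.mem_closedBall, dist_eq_norm] at hy ⊢
          have : y - rl l - z = y - (z + rl l) := by abel
          rwa [this]
        have h2 : y - rl l ∉ Metric.ball z (r / 4) := by
          intro h3
          apply hχy
          apply hloc0 z hz l hl
          rw [Metric.mem_ball, dist_eq_norm] at h3 ⊢
          have : y - (z + rl l) = y - rl l - z := by abel
          rwa [this]
        have h3 := hcb z hz _ h1 h2
        have h4 := Sep_fderiv_per L f hfp l hl (y - rl l)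
        rw [sub_add_cancel] at h4
        rw [← h4] at h3
        have h5 : fderiv ℝ f y = -(ε • fderiv ℝ χ y) := eq_neg_of_add_eq_zero_left h
        rw [h5, norm_neg, norm_smul, Real.norm_eq_abs, abs_of_pos hε0] at h3
        have h6 := mul_le_mul_of_nonneg_left (hCb y) hε0.le
        linarith
      · push Not at hin
        exact hχy (hout0 y hin)
    · intro h
      obtain ⟨z, hz, l, hl, rfl⟩ := (hC y).mp h
      rw [h, hloc0 z hz l hl _ (Metric.mem_ball_self (by linarith))]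
      simp
  · intro y h
    obtain ⟨z, hz, l, hl, rfl⟩ := (hC y).mp h
    refine ⟨ε * χ (z + rl l), ?_⟩
    filter_upwards [hloc z hz l hl _ (Metric.mem_ball_self (by linarith))] with x hx
    rw [hx]
  · intro y y' hy hy' hPy hPy'
    obtain ⟨z, hz, l, hl, rfl⟩ := (hC y).mp hy
    obtain ⟨z', hz', l', hl', rfl⟩ := (hC y').mp hy'
    have h1 : P z := (hP1 z (hcz z hz) l hl).mp hPy
    have h2 : ¬ P z' := fun h => hPy' ((hP1 z' (hcz z' hz') l' hl').mpr h)
    show f (z + rl l) + ε * χ (z + rl l) ≠ f (z' + rl l') + ε * χ (z' + rl l')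
    rw [hfp l hl, hfp l' hl', hχ1 z hz l hl _ (Metric.mem_ball_self (by linarith)) h1,
      hχ2 z' hz' l' hl' _ (Metric.mem_ball_self (by linarith)) h2]
    intro h
    apply hε3 z hz z' hz'
    linarith

/-- Levels separating finitely many values. -/
theorem exists_levels (V : Finset ℝ) (lo hi : ℝ) : ∃ (M : ℕ) (α : ℕ → ℝ), StrictMono α ∧
    α 0 ≤ lo ∧ hi ≤ α M ∧ (∀ i, α i ∉ V) ∧
    ∀ i, ∀ v ∈ V, ∀ v' ∈ V, α i < v → v < α (i + 1) → α i < v' → v' < α (i + 1) → v = v' := by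
  have hev : ∀ᶠ η in 𝓝[>] (0 : ℝ), ∀ v ∈ V, ∀ v' ∈ V, v ≠ v' → η < |v - v'| := by
    rw [Filter.eventually_all_finset]
    intro v _
    rw [Filter.eventually_all_finset]
    intro v' _
    by_cases h : v = v'
    · exact Filter.Eventually.of_forall fun η hne => absurd h hne
    · have : 0 < |v - v'| := abs_pos.mpr (sub_ne_zero.mpr h)
      refine nhdsWithin_le_nhds ?_
      filter_upwards [gt_mem_nhds this] with η hη _
      exact hη
  obtain ⟨η, hη1, hη0⟩ := (hev.and self_mem_nhdsWithin).exists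
  have hη0 : 0 < η := hη0
  have hcount : (⋃ i : ℕ, ⋃ v ∈ V, {v - i * η} : Set ℝ).Countable := by
    refine Set.countable_iUnion fun i => ?_
    refine Set.Countable.biUnion V.countable_toSet fun v _ => Set.countable_singleton _
  obtain ⟨t, ht1, ht2⟩ := (hcount.dense_compl ℝ).exists_mem_open (isOpen_Ioo (a := lo - 1) (b := lo))
    ⟨lo - 1 / 2, by constructor <;> linarith⟩
  obtain ⟨M, hM⟩ := exists_nat_ge ((hi - t) / η)
  refine ⟨M, fun i => t + i * η, ?_, ?_, ?_, ?_, ?_⟩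
  · intro i j hij
    have : (i : ℝ) < j := by exact_mod_cast hij
    have := mul_lt_mul_of_pos_right this hη0
    simp only
    linarith
  · simp only [Nat.cast_zero, zero_mul, add_zero]
    exact ht2.2.le
  · rw [div_le_iff₀ hη0] at hM
    simp only
    linarith
  · intro i hi'
    apply ht1
    refine Set.mem_iUnion.mpr ⟨i, Set.mem_iUnion₂.mpr ⟨t + i * η, hi', ?_⟩⟩
    simp
  · intro i v hv v' hv' h1 h2 h3 h4
    by_contra hne
    have h5 := hη1 v hv v' hv' hne
    have h6 : |v - v'| < η := by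
      simp only [Nat.cast_add, Nat.cast_one] at h1 h2 h3 h4
      rw [abs_lt]
      constructor <;> linarith
    linarith

end Pool.Agent.H47.ST
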