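import Pool.Agent.H47.ST.TransN
import Pool.Agent.H47.ST.DomK

/-!
# The shift of the sequence space
-/

set_option autoImplicit false

namespace Pool.Agent.H47.ST

variable {n p N : ℕ}

/-- shift by `N` steps -/
def shp (n p N : ℕ) [NeZero (p * N)] : Equiv.Perm (Iz n (p * N)) :=
  Equiv.prodCongr (Equiv.addRight (Fin.ofNat (p * N) N)) (Equiv.refl _)

/-- reduction of the position modulo `N` -/
def shs (n p N : ℕ) [NeZero N] : Iz n (p * N) → Iz n N := fun a => (Fin.ofNat N a.1, a.2)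

/-! ### Arithmetic of positions -/

theorem ShK_ofNat_congr {N : ℕ} [NeZero N] {a b : ℕ} (h : a % N = b % N) :
    Fin.ofNat N a = Fin.ofNat N b := by
  apply Fin.ext
  change a % N = b % N
  exact h

theorem ShK_ofNat_add (K : ℕ) [NeZero K] (a b : ℕ) :
    Fin.ofNat K (a + b) = Fin.ofNat K a + Fin.ofNat K b := by
  apply Fin.ext
  rw [Fin.val_add]
  change (a + b) % K = (a % K + b % K) % K
  rw [← Nat.add_mod]

theorem ShK_ofNat_self (K : ℕ) [NeZero K] : Fin.ofNat K K = 0 := by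
  apply Fin.ext
  change K % K = ((0 : Fin K) : ℕ)
  rw [Nat.mod_self]
  exact (Nat.zero_mod K).symm

theorem ShK_ofNat_val {K : ℕ} [NeZero K] (j : Fin K) : Fin.ofNat K (j : ℕ) = j := by
  apply Fin.ext
  exact Nat.mod_eq_of_lt j.2

theorem ShK_ofNat_one (K : ℕ) [NeZero K] : Fin.ofNat K 1 = 1 := by
  apply Fin.ext
  change 1 % K = ((1 : Fin K) : ℕ)
  rw [Fin.val_one']

/-- reduction modulo `N` after reduction modulo `p * N` -/
theorem ShK_red [NeZero N] [NeZero (p * N)] (a : ℕ) :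
    Fin.ofNat N (Fin.ofNat (p * N) a : ℕ) = Fin.ofNat N a := by
  apply ShK_ofNat_congr
  change (a % (p * N)) % N = a % N
  exact Nat.mod_mod_of_dvd _ (Dvd.intro_left p rfl)

/-- reduction modulo `N` is additive -/
theorem ShK_red_add [NeZero N] [NeZero (p * N)] (j k : Fin (p * N)) :
    Fin.ofNat N ((j + k : Fin (p * N)) : ℕ) = Fin.ofNat N (j : ℕ) + Fin.ofNat N (k : ℕ) := by
  rw [← ShK_ofNat_add]
  apply ShK_ofNat_congr
  rw [Fin.val_add]
  exact Nat.mod_mod_of_dvd _ (Dvd.intro_left p rfl)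

theorem ShK_red_one [NeZero N] [NeZero (p * N)] :
    Fin.ofNat N ((1 : Fin (p * N)) : ℕ) = 1 := by
  rw [← ShK_ofNat_one (p * N), ShK_red, ShK_ofNat_one]

theorem ShK_red_succ [NeZero N] [NeZero (p * N)] (j : Fin (p * N)) :
    Fin.ofNat N ((j + 1 : Fin (p * N)) : ℕ) = Fin.ofNat N (j : ℕ) + 1 := by
  rw [ShK_red_add, ShK_red_one]

theorem ShK_red_pred [NeZero N] [NeZero (p * N)] (j : Fin (p * N)) :
    Fin.ofNat N ((j - 1 : Fin (p * N)) : ℕ) = Fin.ofNat N (j : ℕ) - 1 := by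
  have h := ShK_red_succ (p := p) (N := N) (j - 1)
  rw [sub_add_cancel] at h
  rw [h, add_sub_cancel_right]

/-- sums over the positions of a function of the reduction -/
theorem ShK_sum_red {α : Type*} [AddCommMonoid α] [NeZero N] (g : Fin N → α) :
    ∑ j : Fin (p * N), g (Fin.ofNat N (j : ℕ)) = p • ∑ k : Fin N, g k := by
  have h1 : ∀ x : Fin p × Fin N, g (Fin.ofNat N ((finProdFinEquiv x : Fin (p * N)) : ℕ)) =
      g x.2 := by
    intro x
    congr 1
    apply Fin.ext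
    change ((x.2 : ℕ) + N * (x.1 : ℕ)) % N = x.2
    rw [Nat.add_mul_mod_self_left, Nat.mod_eq_of_lt x.2.2]
  rw [← Equiv.sum_comp finProdFinEquiv, Finset.sum_congr rfl fun x _ => h1 x,
    Fintype.sum_prod_type]
  simp only [Finset.sum_const, Finset.card_univ, Fintype.card_fin]

/-- sums over the coordinates of a function of the reduction -/
theorem ShK_sum_shs {α : Type*} [AddCommMonoid α] [NeZero N] (g : Iz n N → α) :
    ∑ a : Iz n (p * N), g (shs n p N a) = p • ∑ a : Iz n N, g a := by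
  rw [Fintype.sum_prod_type, Fintype.sum_prod_type,
    ← ShK_sum_red (p := p) (fun k : Fin N => ∑ b : Fin n ⊕ Fin n, g (k, b))]
  rfl

/-! ### The shift -/

theorem ShK_apply [NeZero (p * N)] (j : Fin (p * N)) (b : Fin n ⊕ Fin n) :
    shp n p N (j, b) = (j + Fin.ofNat (p * N) N, b) := rfl

theorem ShK_pow_apply [NeZero (p * N)] (i : ℕ) (j : Fin (p * N)) (b : Fin n ⊕ Fin n) :
    (shp n p N ^ i) (j, b) = (j + Fin.ofNat (p * N) (i * N), b) := by
  induction i generalizing j with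
  | zero =>
    rw [pow_zero, zero_mul, Equiv.Perm.one_apply]
    have h : Fin.ofNat (p * N) 0 = 0 := rfl
    rw [h, add_zero]
  | succ i ih =>
    rw [pow_succ, Equiv.Perm.mul_apply, ShK_apply, ih, add_assoc, ← ShK_ofNat_add,
      show N + i * N = (i + 1) * N by ring]

theorem shp_pow (n p N : ℕ) [NeZero (p * N)] : shp n p N ^ p = 1 := by
  ext1 a
  obtain ⟨j, b⟩ := a
  rw [ShK_pow_apply, ShK_ofNat_self, add_zero]
  rfl

theorem ShK_lam {K m : ℕ} {l : Iz n K → ℤ} :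
    l ∈ lam (Lc n K) m ↔ ∃ c : Fin n ⊕ Fin n → ℤ, ∀ j b, l (j, b) = m * c b := by
  constructor
  · rintro ⟨l', ⟨c, hc⟩, rfl⟩
    refine ⟨c, fun j b => ?_⟩
    rw [Pi.smul_apply, hc, smul_eq_mul]
  · rintro ⟨c, hc⟩
    refine ⟨fun a => c a.2, ⟨c, fun _ _ => rfl⟩, ?_⟩
    funext a
    obtain ⟨j, b⟩ := a
    rw [hc, Pi.smul_apply, smul_eq_mul]

/-- an integer `c` with `|K m c| ≤ K` is `0` -/
theorem ShK_zero {K m : ℕ} (hK : 0 < K) (hm : 2 ≤ m) {c : ℤ} (h : |(K : ℤ) * (m * c)| ≤ K) :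
    c = 0 := by
  by_contra hc
  have h1 : 1 ≤ |c| := Int.one_le_abs hc
  rw [abs_mul, abs_mul, Nat.abs_cast, Nat.abs_cast] at h
  have h2 : (0 : ℤ) < K := by exact_mod_cast hK
  have h3 : (2 : ℤ) ≤ m := by exact_mod_cast hm
  nlinarith [mul_le_mul h3 h1 (by norm_num) (by linarith)]

theorem ShK_sep {K m : ℕ} (hK : 0 < K) (hm : 2 ≤ m) {v w : Fin K → ℤ} (h1 : ∀ j, v j ≤ w j)
    (h2 : ∀ j, w j ≤ v j + 1) {c : ℤ} (hs : ∑ j, w j = ∑ j, v j + K * (m * c)) :
    ∀ j, w j = v j := by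
  have h3 : ∑ j, (w j - v j) = K * (m * c) := by
    rw [Finset.sum_sub_distrib, hs]
    ring
  have h4 : 0 ≤ ∑ j, (w j - v j) := Finset.sum_nonneg fun j _ => sub_nonneg.2 (h1 j)
  have h5 : ∑ j, (w j - v j) ≤ K := by
    refine (Finset.sum_le_sum fun j _ => (show w j - v j ≤ 1 by linarith [h2 j])).trans ?_
    simp
  have h6 : c = 0 := by
    apply ShK_zero hK hm
    rw [← h3, abs_of_nonneg h4]
    exact h5
  rw [h6, mul_zero, mul_zero] at h3
  intro j
  have h7 := (Finset.sum_eq_zero_iff_of_nonneg fun j _ => sub_nonneg.2 (h1 j)).1 h3 j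
    (Finset.mem_univ j)
  linarith

theorem Cyc_K [NeZero (p * N)] (hp : p.Prime) {m : ℕ} (hm : 2 ≤ m) :
    Cyc (shp n p N) p (lam (Lc n (p * N)) m) := by
  have hK : 0 < p * N := Nat.pos_of_ne_zero (NeZero.ne _)
  refine ⟨hp, shp_pow n p N, ?_, ?_, ?_⟩
  · intro l hl
    obtain ⟨c, hc⟩ := ShK_lam.1 hl
    funext a
    obtain ⟨j, b⟩ := a
    change l (shp n p N (j, b)) = l (j, b)
    rw [ShK_apply, hc, hc]
  · intro l hl h
    obtain ⟨c, hc⟩ := ShK_lam.1 hl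
    funext a
    obtain ⟨j, b⟩ := a
    have h1 := h (j, b)
    rw [hc] at h1
    have h2 : c b = 0 := by
      apply ShK_zero (K := 1) one_pos hm
      simpa using h1
    rw [hc, h2, mul_zero]
    rfl
  · intro v w l i hvw hl hw
    obtain ⟨c, hc⟩ := ShK_lam.1 hl
    have hsum : ∀ b, ∑ j, w (j, b) = ∑ j, v (j, b) + (p * N : ℕ) * (m * c b) := by
      intro b
      have h1 : ∀ j, w (j, b) = v (j + Fin.ofNat (p * N) (i * N), b) + m * c b := by
        intro j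
        rw [hw, Pi.add_apply, hc]
        change v ((shp n p N ^ i) (j, b)) + _ = _
        rw [ShK_pow_apply]
      rw [Finset.sum_congr rfl fun j _ => h1 j, Finset.sum_add_distrib, Finset.sum_const,
        Finset.card_univ, Fintype.card_fin, nsmul_eq_mul]
      congr 1
      exact Equiv.sum_comp (Equiv.addRight (Fin.ofNat (p * N) (i * N))) (fun j => v (j, b))
    funext a
    obtain ⟨j, b⟩ := a
    rcases hvw with ⟨h1, h2⟩ | ⟨h1, h2⟩
    · exact ShK_sep hK hm (v := fun j => v (j, b)) (w := fun j => w (j, b))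
        (fun j => h1 (j, b)) (fun j => h2 (j, b)) (hsum b) j
    · refine (ShK_sep hK hm (v := fun j => w (j, b)) (w := fun j => v (j, b))
        (fun j => h1 (j, b)) (fun j => h2 (j, b)) (c := - c b) ?_ j).symm
      rw [hsum b]
      ring

theorem shs_surj [NeZero N] (hp : 0 < p) : Function.Surjective (shs n p N) := by
  rintro ⟨k, b⟩
  refine ⟨(⟨k, lt_of_lt_of_le k.2 (Nat.le_mul_of_pos_left N hp)⟩, b), ?_⟩
  change (Fin.ofNat N (k : ℕ), b) = (k, b)
  rw [ShK_ofNat_val]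

theorem ShK_shs_shp [NeZero N] [NeZero (p * N)] (a : Iz n (p * N)) :
    shs n p N (shp n p N a) = shs n p N a := by
  obtain ⟨j, b⟩ := a
  change (Fin.ofNat N ((j + Fin.ofNat (p * N) N : Fin (p * N)) : ℕ), b) =
    (Fin.ofNat N (j : ℕ), b)
  rw [ShK_red_add, ShK_red, ShK_ofNat_self, add_zero]

theorem ShK_fixed {α : Type*} [NeZero N] [NeZero (p * N)] {v : Iz n (p * N) → α}
    (hv : v ∘ shp n p N = v) (b : Fin n ⊕ Fin n) (m : ℕ) :
    v (Fin.ofNat (p * N) m, b) = v (Fin.ofNat (p * N) (m % N), b) := by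
  have hN : 0 < N := Nat.pos_of_ne_zero (NeZero.ne N)
  induction m using Nat.strong_induction_on with
  | _ m ih =>
    by_cases h : m < N
    · rw [Nat.mod_eq_of_lt h]
    · push Not at h
      have h1 : m = (m - N) + N := by omega
      have h2 : m % N = (m - N) % N := by
        conv_lhs => rw [h1]
        exact Nat.add_mod_right _ _
      rw [h2, ← ih (m - N) (by omega)]
      have h3 := congrFun hv (Fin.ofNat (p * N) (m - N), b)
      rw [← h3]
      change _ = v (Fin.ofNat (p * N) (m - N) + Fin.ofNat (p * N) N, b)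
      rw [← ShK_ofNat_add, ← h1]

theorem shp_fix {α : Type*} [NeZero N] [NeZero (p * N)] (v : Iz n (p * N) → α) :
    v ∘ shp n p N = v ↔ ∃ y : Iz n N → α, v = y ∘ shs n p N := by
  constructor
  · intro hv
    refine ⟨fun a => v (Fin.ofNat (p * N) (a.1 : ℕ), a.2), ?_⟩
    funext a
    obtain ⟨j, b⟩ := a
    change v (j, b) = v (Fin.ofNat (p * N) ((j : ℕ) % N), b)
    rw [← ShK_fixed hv, ShK_ofNat_val]
  · rintro ⟨y, rfl⟩
    funext a
    change y (shs n p N (shp n p N a)) = y (shs n p N a)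
    rw [ShK_shs_shp]

theorem Fold_K [NeZero N] [NeZero (p * N)] {m : ℕ} :
    Fold (shp n p N) (shs n p N) (lam (Lc n (p * N)) m) (lam (Lc n N) m) := by
  have hp : 0 < p := Nat.pos_of_ne_zero fun h => NeZero.ne (p * N) (by rw [h, zero_mul])
  refine ⟨shs_surj hp, fun v => shp_fix v, fun l => ⟨fun hl => ?_, ?_⟩⟩
  · obtain ⟨c, hc⟩ := ShK_lam.1 hl
    refine ⟨fun a => m * c a.2, ShK_lam.2 ⟨c, fun _ _ => rfl⟩, ?_⟩
    funext a
    obtain ⟨j, b⟩ := a
    rw [hc]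
    rfl
  · rintro ⟨l', hl', rfl⟩
    obtain ⟨c, hc⟩ := ShK_lam.1 hl'
    exact ShK_lam.2 ⟨c, fun j b => hc _ _⟩

/-! ### The forms -/

theorem DK_fold [NeZero N] [NeZero (p * N)] (y : Iz n N → ℝ) (a : Iz n (p * N)) :
    DK n (p * N) (y ∘ shs n p N) a = DK n N y (shs n p N a) := by
  obtain ⟨j, b | b⟩ := a
  · change y (Fin.ofNat N ((j - 1 : Fin (p * N)) : ℕ), Sum.inr b) -
        y (Fin.ofNat N (j : ℕ), Sum.inr b) =
      y (Fin.ofNat N (j : ℕ) - 1, Sum.inr b) - y (Fin.ofNat N (j : ℕ), Sum.inr b)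
    rw [ShK_red_pred]
  · change y (Fin.ofNat N ((j + 1 : Fin (p * N)) : ℕ), Sum.inl b) -
        y (Fin.ofNat N (j : ℕ), Sum.inl b) =
      y (Fin.ofNat N (j : ℕ) + 1, Sum.inl b) - y (Fin.ofNat N (j : ℕ), Sum.inl b)
    rw [ShK_red_succ]

theorem QK_fold [NeZero N] [NeZero (p * N)] (y : Iz n N → ℝ) :
    QK n (p * N) (y ∘ shs n p N) = p * QK n N y := by
  unfold QK
  rw [← nsmul_eq_mul, ← ShK_sum_red (p := p)]
  refine Finset.sum_congr rfl fun j _ => Finset.sum_congr rfl fun i _ => ?_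
  change y (Fin.ofNat N (j : ℕ), Sum.inr i) *
      (y (Fin.ofNat N ((j + 1 : Fin (p * N)) : ℕ), Sum.inl i) -
        y (Fin.ofNat N (j : ℕ), Sum.inl i)) = _
  rw [ShK_red_succ]

theorem qK_fold [NeZero N] [NeZero (p * N)] (y : Iz n N → ℝ) :
    qK n (p * N) (y ∘ shs n p N) = p * qK n N y := by
  unfold qK
  rw [QK_fold, Finset.sum_congr rfl fun a _ => congrArg (· ^ 2) (DK_fold y a),
    ShK_sum_shs (fun a => DK n N y a ^ 2), nsmul_eq_mul]
  ring

/-- number of coordinates over a given one -/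
theorem card_fiber [NeZero N] [NeZero (p * N)] (b : Iz n N) :
    (Finset.univ.filter fun a : Iz n (p * N) => shs n p N a = b).card = p := by
  rw [Finset.card_filter, ShK_sum_shs (fun a => if a = b then 1 else 0),
    Finset.sum_ite_eq' Finset.univ b, if_pos (Finset.mem_univ b), smul_eq_mul, mul_one]

theorem Lc_even {K M : ℕ} (hM : 1 ≤ M) : ∀ l ∈ lam (Lc n K) (2 ^ M), ∀ i, Even (l i) := by
  intro l hl i
  obtain ⟨c, hc⟩ := ShK_lam.1 hl
  obtain ⟨j, b⟩ := i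
  rw [hc]
  obtain ⟨M, rfl⟩ := Nat.exists_eq_add_of_le' hM
  refine ⟨2 ^ M * c b, ?_⟩
  push_cast
  ring

theorem ShK_half {K M : ℕ} {v : Iz n K → ℤ} (h : v + v ∈ lam (Lc n K) (2 ^ (M + 1))) :
    ∃ c : Fin n ⊕ Fin n → ℤ, ∀ j b, v (j, b) = 2 ^ M * c b := by
  obtain ⟨c, hc⟩ := ShK_lam.1 h
  refine ⟨c, fun j b => ?_⟩
  have h1 := hc j b
  rw [Pi.add_apply] at h1
  push_cast at h1
  rw [pow_succ] at h1
  linarith

theorem ShK_const_zero {K : ℕ} [NeZero K] {t : Iz n K → ℝ} {c : Fin n ⊕ Fin n → ℝ}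
    (h : ∀ j b, t (j, b) = c b) : QK n K t = 0 ∧ qK n K t = 0 := by
  have h1 : QK n K t = 0 := by
    unfold QK
    refine Finset.sum_eq_zero fun j _ => Finset.sum_eq_zero fun i _ => ?_
    rw [h (j + 1), h j (Sum.inl i), sub_self, mul_zero]
  have h2 : ∀ a, DK n K t a = 0 := by
    rintro ⟨j, b | b⟩
    · change t (j - 1, Sum.inr b) - t (j, Sum.inr b) = 0
      rw [h, h, sub_self]
    · change t (j + 1, Sum.inl b) - t (j, Sum.inl b) = 0
      rw [h, h, sub_self]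
  refine ⟨h1, ?_⟩
  unfold qK
  rw [h1, Finset.sum_eq_zero fun a _ => by rw [h2 a, zero_pow two_ne_zero]]
  norm_num

/-- the half lattice vertices -/
theorem half_lattice (n K M : ℕ) [NeZero K] (hM : 1 ≤ M) : ∃ D : Finset (Iz n K → ℤ),
    D.card = 2 ^ (2 * n) ∧ (∀ v ∈ D, v + v ∈ lam (Lc n K) (2 ^ M)) ∧
    (∀ v, v + v ∈ lam (Lc n K) (2 ^ M) → ∃ c ∈ D, v - c ∈ lam (Lc n K) (2 ^ M)) ∧
    (∀ v ∈ D, ∀ c ∈ D, v - c ∈ lam (Lc n K) (2 ^ M) → v = c) ∧
    ∀ v, v + v ∈ lam (Lc n K) (2 ^ M) → QK n K (ps (2 ^ M) v) = 0 ∧ qK n K (ps (2 ^ M) v) = 0 := by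
  classical
  obtain ⟨M, rfl⟩ := Nat.exists_eq_add_of_le' hM
  have h2 : (2 : ℤ) ^ M ≠ 0 := pow_ne_zero _ two_ne_zero
  let g : (Fin n ⊕ Fin n → Fin 2) → Iz n K → ℤ := fun e a => 2 ^ M * ((e a.2 : ℕ) : ℤ)
  have hg : Function.Injective g := by
    intro e e' h
    funext b
    have h1 : (2 : ℤ) ^ M * ((e b : ℕ) : ℤ) = 2 ^ M * ((e' b : ℕ) : ℤ) :=
      congrFun h ((0 : Fin K), b)
    have h3 := mul_left_cancel₀ h2 h1
    exact Fin.ext (by exact_mod_cast h3)
  refine ⟨Finset.univ.image g, ?_, ?_, ?_, ?_, ?_⟩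
  · rw [Finset.card_image_of_injective _ hg, Finset.card_univ, Fintype.card_fun,
      Fintype.card_fin, Fintype.card_sum, Fintype.card_fin, two_mul]
  · intro v hv
    obtain ⟨e, -, rfl⟩ := Finset.mem_image.1 hv
    refine ShK_lam.2 ⟨fun b => ((e b : ℕ) : ℤ), fun j b => ?_⟩
    change (2 : ℤ) ^ M * ((e b : ℕ) : ℤ) + 2 ^ M * ((e b : ℕ) : ℤ) = _
    push_cast
    ring
  · intro v hv
    obtain ⟨c, hc⟩ := ShK_half hv
    have h3 : ∀ b, ∃ k : Fin 2, ∃ q : ℤ, c b = ((k : ℕ) : ℤ) + 2 * q := by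
      intro b
      rcases Int.emod_two_eq_zero_or_one (c b) with h | h
      · exact ⟨0, c b / 2, by
          have := Int.emod_add_mul_ediv (c b) 2
          rw [h] at this
          simpa using this.symm⟩
      · exact ⟨1, c b / 2, by
          have := Int.emod_add_mul_ediv (c b) 2
          rw [h] at this
          simpa using this.symm⟩
    choose e q heq using h3
    refine ⟨g e, Finset.mem_image_of_mem _ (Finset.mem_univ e), ShK_lam.2 ⟨q, fun j b => ?_⟩⟩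
    change v (j, b) - 2 ^ M * ((e b : ℕ) : ℤ) = _
    rw [hc, heq]
    push_cast
    ring
  · intro v hv c hc h
    obtain ⟨e, -, rfl⟩ := Finset.mem_image.1 hv
    obtain ⟨e', -, rfl⟩ := Finset.mem_image.1 hc
    congr 1
    funext b
    obtain ⟨q, hq⟩ := ShK_lam.1 h
    have h3 := hq 0 b
    change (2 : ℤ) ^ M * ((e b : ℕ) : ℤ) - 2 ^ M * ((e' b : ℕ) : ℤ) = _ at h3
    push_cast at h3
    have h4 : ((e b : ℕ) : ℤ) - ((e' b : ℕ) : ℤ) = 2 * q b := by
      apply mul_left_cancel₀ h2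
      rw [mul_sub, h3]
      ring
    have h5 := (e b).2
    have h6 := (e' b).2
    apply Fin.ext
    omega
  · intro v hv
    obtain ⟨c, hc⟩ := ShK_half hv
    apply ShK_const_zero (c := fun b => ((2 ^ M * c b : ℤ) : ℝ) / ((2 ^ (M + 1) : ℕ) : ℝ))
    intro j b
    change ((v (j, b) : ℤ) : ℝ) / _ = _
    rw [hc]

theorem QK_neg {K : ℕ} [NeZero K] (t : Iz n K → ℝ) : QK n K (-t) = QK n K t := by
  unfold QK
  refine Finset.sum_congr rfl fun j _ => Finset.sum_congr rfl fun i _ => ?_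
  rw [Pi.neg_apply, Pi.neg_apply, Pi.neg_apply]
  ring

theorem ShK_DK_neg {K : ℕ} [NeZero K] (t : Iz n K → ℝ) (a : Iz n K) :
    DK n K (-t) a = -DK n K t a := by
  obtain ⟨j, b | b⟩ := a
  · change -t (j - 1, Sum.inr b) - -t (j, Sum.inr b) = -(t (j - 1, Sum.inr b) - t (j, Sum.inr b))
    ring
  · change -t (j + 1, Sum.inl b) - -t (j, Sum.inl b) = -(t (j + 1, Sum.inl b) - t (j, Sum.inl b))
    ring

theorem qK_neg {K : ℕ} [NeZero K] (t : Iz n K → ℝ) : qK n K (-t) = qK n K t := by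
  unfold qK
  rw [QK_neg, Finset.sum_congr rfl fun a _ => by rw [ShK_DK_neg, neg_sq]]

end Pool.Agent.H47.ST
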