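import Pool.Agent.H47.ST.Grid
import Pool.Agent.H47.QG.Idx
import Pool.Agent.H47.QG.IdxS
import Pool.Agent.H47.QG.EqA
import Pool.Agent.H47.QG.Em

/-!
# Symmetric criticality, change of coordinates, transfer of local perturbations
-/

set_option autoImplicit false
set_option linter.unusedSectionVars false

namespace Pool.Agent.H47.ST

open Filter Topology QuadraticForm
open Pool.Agent.H47.QG (hess LD)

variable {ι κ : Type*} [Fintype ι] [DecidableEq ι] [Fintype κ] [DecidableEq κ]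

/-- composition with a map of the indices -/
noncomputable def SymC_pull (s : ι → κ) : (κ → ℝ) →L[ℝ] (ι → ℝ) :=
  ContinuousLinearMap.pi fun i => ContinuousLinearMap.proj (s i)

theorem SymC_pull_apply (s : ι → κ) (y : κ → ℝ) : SymC_pull s y = y ∘ s := rfl

/-- derivative of the restriction -/
theorem fold_fderiv (s : ι → κ) (f : (ι → ℝ) → ℝ) (hf : Differentiable ℝ f) (y u : κ → ℝ) :
    fderiv ℝ (fun y : κ → ℝ => f (y ∘ s)) y u = fderiv ℝ f (y ∘ s) (u ∘ s) := by
  have h1 : HasFDerivAt (fun y : κ → ℝ => f (y ∘ s))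
      ((fderiv ℝ f (y ∘ s)).comp (SymC_pull s)) y :=
    (hf (y ∘ s)).hasFDerivAt.comp y (SymC_pull s).hasFDerivAt
  rw [h1.fderiv]
  rfl

theorem fold_smooth (s : ι → κ) (n : WithTop ℕ∞) (f : (ι → ℝ) → ℝ) (hf : ContDiff ℝ n f) :
    ContDiff ℝ n (fun y : κ → ℝ => f (y ∘ s)) :=
  hf.comp (SymC_pull s).contDiff

theorem SymC_pull_pow (π : Equiv.Perm ι) (j : ℕ) (x : ι → ℝ) :
    ((SymC_pull (π : ι → ι)) ^ j) x = x ∘ ((π ^ j : Equiv.Perm ι) : ι → ι) := by
  induction j with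
  | zero => rfl
  | succ j ih =>
    rw [pow_succ']
    show SymC_pull (π : ι → ι) (((SymC_pull (π : ι → ι)) ^ j) x) = _
    rw [ih, SymC_pull_apply, pow_succ, Equiv.Perm.coe_mul]
    rfl

/-- symmetric criticality -/
theorem crit_of_fold (π : Equiv.Perm ι) {p : ℕ} (hp : 0 < p) (hpi : π ^ p = 1) (s : ι → κ)
    (hs : ∀ v : ι → ℝ, v ∘ π = v ↔ ∃ y : κ → ℝ, v = y ∘ s) (f : (ι → ℝ) → ℝ)
    (hf : Differentiable ℝ f) (hT : ∀ y, f (y ∘ π) = f y) (y : κ → ℝ) :
    fderiv ℝ (fun y : κ → ℝ => f (y ∘ s)) y = 0 ↔ fderiv ℝ f (y ∘ s) = 0 := by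
  constructor
  · intro h
    set T : (ι → ℝ) →L[ℝ] (ι → ℝ) := SymC_pull (π : ι → ι) with hTdef
    have hTp : T ^ p = 1 := by
      ext1 x
      rw [hTdef, SymC_pull_pow, hpi]
      rfl
    have hfix : T (y ∘ s) = y ∘ s := (hs (y ∘ s)).2 ⟨y, rfl⟩
    have hl : ∀ w, fderiv ℝ f (y ∘ s) (T w) = fderiv ℝ f (y ∘ s) w := by
      intro w
      have h1 := Pool.Agent.H47.QG.EqA_fderiv f hf T hT (y ∘ s) w
      rw [hfix] at h1
      exact h1
    ext1 w
    have h2 := Pool.Agent.H47.QG.EqA_avg_functional T p hp (fderiv ℝ f (y ∘ s)) hl w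
    rw [map_sub, sub_eq_zero] at h2
    obtain ⟨u, hu⟩ := (hs (Pool.Agent.H47.QG.EqA_avg T p w)).1
      (Pool.Agent.H47.QG.EqA_avg_fixed T p hTp w)
    rw [h2, hu, ← fold_fderiv s f hf y u, h]
    rfl
  · intro h
    ext1 u
    rw [fold_fderiv s f hf y u, h]
    rfl

/-- the partial derivatives of the restriction -/
theorem fold_partial (s : ι → κ) (f : (ι → ℝ) → ℝ) (hf : Differentiable ℝ f) (y : κ → ℝ)
    (b : κ) : fderiv ℝ (fun y : κ → ℝ => f (y ∘ s)) y (Pi.single b 1) =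
      ∑ a ∈ Finset.univ.filter (fun a => s a = b), fderiv ℝ f (y ∘ s) (Pi.single a 1) := by
  rw [fold_fderiv s f hf y, ← map_sum]
  congr 1
  funext i
  rw [Finset.sum_apply, Finset.sum_filter]
  show (Pi.single b (1 : ℝ) : κ → ℝ) (s i) = _
  rw [Finset.sum_eq_single i]
  · by_cases h : s i = b
    · rw [if_pos h, h, Pi.single_eq_same, Pi.single_eq_same]
    · rw [if_neg h, Pi.single_eq_of_ne h]
  · intro a _ ha
    split_ifs
    · exact Pi.single_eq_of_ne (Ne.symm ha) _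
    · rfl
  · intro h
    exact absurd (Finset.mem_univ _) h

/-- index and signature are invariant under permutations of the coordinates -/
theorem sig_perm (π : Equiv.Perm ι) (f : (ι → ℝ) → ℝ) (hf : ContDiff ℝ 2 f)
    (hT : ∀ y, f (y ∘ π) = f y) (y : ι → ℝ) :
    sigNeg (hess f (y ∘ π)) = sigNeg (hess f y) ∧ sigPos (hess f (y ∘ π)) = sigPos (hess f y) ∧
      (fderiv ℝ f (y ∘ π) = 0 ↔ fderiv ℝ f y = 0) := by
  let e : (ι → ℝ) ≃L[ℝ] (ι → ℝ) := (LinearEquiv.funCongrLeft ℝ ℝ π).toContinuousLinearEquiv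
  have he : ∀ x, e x + 0 = x ∘ π := by
    intro x
    rw [add_zero]
    rfl
  have h1 : (fun x => f (e x + 0)) = f := by
    funext x
    rw [he, hT]
  have h2 := Pool.Agent.H47.QG.em_sigNeg hf e 0 y
  have h3 := Pool.Agent.H47.QG.em_sigPos hf e 0 y
  have h4 := Pool.Agent.H47.QG.em_crit hf e 0 y
  rw [h1, he] at h2 h3 h4
  exact ⟨h2.symm, h3.symm, h4.symm⟩

theorem sig_per {L : AddSubgroup (ι → ℤ)} (f : (ι → ℝ) → ℝ) (hf : PerL L f) (y : ι → ℝ)
    {l : ι → ℤ} (hl : l ∈ L) : hess f (y + rl l) = hess f y ∧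
      fderiv ℝ f (y + rl l) = fderiv ℝ f y := by
  have h1 : (fun x => f (x + rl l)) = f := funext fun x => hf l hl x
  have h2 : ∀ x, fderiv ℝ f (x + rl l) = fderiv ℝ f x := by
    intro x
    rw [← fderiv_comp_add_right (rl l), h1]
  refine ⟨?_, h2 y⟩
  have h3 : fderiv ℝ (fderiv ℝ f) (y + rl l) = fderiv ℝ (fderiv ℝ f) y := by
    rw [← fderiv_comp_add_right (rl l)]
    congr 1
    funext x
    exact h2 x
  unfold hess
  rw [h3]

/-- derivatives of functions which differ by a constant near a point -/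
theorem SymC_congr {f f' : (ι → ℝ) → ℝ} {z : ι → ℝ} {c : ℝ}
    (hc : ∀ᶠ x in 𝓝 z, f' x = f x + c) :
    fderiv ℝ f' z = fderiv ℝ f z ∧ hess f' z = hess f z := by
  have h1 : f' =ᶠ[𝓝 z] fun x => f x + c := hc
  have h2 : fderiv ℝ (fun x => f x + c) = fderiv ℝ f := by
    funext x
    rw [fderiv_add_const]
  constructor
  · rw [h1.fderiv_eq, h2]
  · have h3 : fderiv ℝ f' =ᶠ[𝓝 z] fderiv ℝ f := by
      have h4 := h1.fderiv (𝕜 := ℝ)
      rwa [h2] at h4
    unfold hess
    rw [h3.fderiv_eq]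

/-- Transfer of a local perturbation to a function which differs by a constant near the point. -/
theorem LD_transfer (f f' : (ι → ℝ) → ℝ) (hf : ContDiff ℝ 2 f) (hf' : ContDiff ℝ 2 f')
    (z : ι → ℝ) (c : ℝ) (hc : ∀ᶠ x in 𝓝 z, f' x = f x + c) (m : ℕ)
    (h : ∀ r > 0, (∀ x ∈ Metric.closedBall z r, fderiv ℝ f x = 0 → x = z) →
      ∃ (g : (ι → ℝ) → ℝ) (X : Finset (ι → ℝ)), LD f z r g X ∧ X.card ≤ m)
    (r : ℝ) (hr : 0 < r) (hz : ∀ x ∈ Metric.closedBall z r, fderiv ℝ f' x = 0 → x = z) :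
    ∃ (g : (ι → ℝ) → ℝ) (X : Finset (ι → ℝ)), LD f' z r g X ∧ X.card ≤ m := by
  obtain ⟨r₀, hr₀, hb⟩ := Metric.eventually_nhds_iff_ball.1 hc
  have hloc : ∀ x ∈ Metric.ball z r₀, ∀ᶠ y in 𝓝 x, f' y = f y + c := by
    intro x hx
    filter_upwards [Metric.isOpen_ball.mem_nhds hx] with y hy using hb y hy
  set r' := min r (r₀ / 2) with hr'
  have hr'0 : 0 < r' := lt_min hr (half_pos hr₀)
  have hr'r : r' ≤ r := min_le_left _ _
  have hr'r₀ : r' < r₀ := lt_of_le_of_lt (min_le_right _ _) (half_lt_self hr₀)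
  have hsub : Metric.closedBall z r' ⊆ Metric.ball z r₀ := Metric.closedBall_subset_ball hr'r₀
  obtain ⟨g, X, hLD, hX⟩ := h r' hr'0 (by
    intro x hx h0
    refine hz x (Metric.closedBall_subset_closedBall hr'r hx) ?_
    rw [(SymC_congr (hloc x (hsub hx))).1, h0])
  have hhalf : r' / 2 ≤ r' := by linarith
  -- the new function near points of the small ball
  have hnear : ∀ x ∈ Metric.ball z r₀, ∀ᶠ y in 𝓝 x, f' y + (g y - f y) = g y + c := by
    intro x hx
    filter_upwards [hloc x hx] with y hy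
    rw [hy]
    ring
  have hfar : ∀ x, x ∉ Metric.closedBall z (r' / 2) →
      ∀ᶠ y in 𝓝 x, f' y + (g y - f y) = f' y + 0 := by
    intro x hx
    filter_upwards [Metric.isClosed_closedBall.isOpen_compl.mem_nhds hx] with y hy
    rw [hLD.eq y hy]
    ring
  have hXb : ∀ y ∈ X, y ∈ Metric.ball z r₀ := fun y hy =>
    hsub (Metric.closedBall_subset_closedBall hhalf (Metric.ball_subset_closedBall (hLD.mem y hy)))
  have hz0 : hess f' z = hess f z := (SymC_congr (hloc z (Metric.mem_ball_self hr₀))).2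
  refine ⟨fun y => f' y + (g y - f y), X, ?_, hX⟩
  refine ⟨hf'.add (hLD.smooth.sub hf), ?_, ?_, ?_, ?_, ?_, ?_⟩
  · intro y hy
    have h1 : y ∉ Metric.closedBall z (r' / 2) := fun h2 =>
      hy (Metric.closedBall_subset_closedBall (by linarith) h2)
    show f' y + (g y - f y) = f' y
    rw [hLD.eq y h1]
    ring
  · intro y hy
    by_cases hy' : y ∈ Metric.closedBall z r'
    · rw [(SymC_congr (hnear y (hsub hy'))).1]
      exact hLD.crit y hy'
    · have h1 : y ∉ Metric.closedBall z (r' / 2) := fun h2 =>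
        hy' (Metric.closedBall_subset_closedBall hhalf h2)
      rw [(SymC_congr (hfar y h1)).1]
      constructor
      · intro h0
        exfalso
        rw [hz y hy h0] at hy'
        exact hy' (Metric.mem_closedBall_self hr'0.le)
      · intro h0
        exact absurd (Metric.ball_subset_closedBall (hLD.mem y h0)) h1
  · intro y hy
    exact Metric.ball_subset_ball (by linarith) (hLD.mem y hy)
  · intro y hy
    rw [(SymC_congr (hnear y (hXb y hy))).2]
    exact hLD.nd y hy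
  · intro y hy
    rw [(SymC_congr (hnear y (hXb y hy))).2, hz0]
    exact hLD.lo y hy
  · intro y hy
    rw [(SymC_congr (hnear y (hXb y hy))).2, hz0]
    exact hLD.hi y hy

end Pool.Agent.H47.ST
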