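import Pool.Agent.H47.ST.Loc
import Pool.Agent.H47.ST.Model
import Pool.Agent.H47.ST.Sep
import Pool.Agent.H47.ST.ShK
import Pool.Agent.H47.ST.SymC

/-!
# The equivariant rank theorem
-/

set_option autoImplicit false

namespace Pool.Agent.H47.ST

open Filter Topology QuadraticForm
open Pool.Agent.H47.QG (hess LD)

variable {n p N : ℕ}

/-! ### Shift invariance of the forms -/

theorem EqM_QK_shp [NeZero (p * N)] (t : Iz n (p * N) → ℝ) :
    QK n (p * N) (t ∘ shp n p N) = QK n (p * N) t := by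
  unfold QK
  rw [← Equiv.sum_comp (Equiv.addRight (Fin.ofNat (p * N) N))
    (fun j : Fin (p * N) => ∑ i : Fin n, t (j, Sum.inr i) * (t (j + 1, Sum.inl i) - t (j, Sum.inl i)))]
  refine Finset.sum_congr rfl fun j _ => Finset.sum_congr rfl fun i _ => ?_
  change t (j + Fin.ofNat (p * N) N, Sum.inr i) *
      (t (j + 1 + Fin.ofNat (p * N) N, Sum.inl i) - t (j + Fin.ofNat (p * N) N, Sum.inl i)) =
    t (j + Fin.ofNat (p * N) N, Sum.inr i) *
      (t (j + Fin.ofNat (p * N) N + 1, Sum.inl i) - t (j + Fin.ofNat (p * N) N, Sum.inl i))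
  rw [add_right_comm]

theorem EqM_DK_shp [NeZero (p * N)] (t : Iz n (p * N) → ℝ) (a : Iz n (p * N)) :
    DK n (p * N) (t ∘ shp n p N) a = DK n (p * N) t (shp n p N a) := by
  obtain ⟨j, b | b⟩ := a
  · change t (j - 1 + Fin.ofNat (p * N) N, Sum.inr b) - t (j + Fin.ofNat (p * N) N, Sum.inr b) =
      t (j + Fin.ofNat (p * N) N - 1, Sum.inr b) - t (j + Fin.ofNat (p * N) N, Sum.inr b)
    rw [sub_add_eq_add_sub]
  · change t (j + 1 + Fin.ofNat (p * N) N, Sum.inl b) - t (j + Fin.ofNat (p * N) N, Sum.inl b) =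
      t (j + Fin.ofNat (p * N) N + 1, Sum.inl b) - t (j + Fin.ofNat (p * N) N, Sum.inl b)
    rw [add_right_comm]

theorem EqM_qK_shp [NeZero (p * N)] (t : Iz n (p * N) → ℝ) :
    qK n (p * N) (t ∘ shp n p N) = qK n (p * N) t := by
  unfold qK
  rw [EqM_QK_shp, Finset.sum_congr rfl fun a _ => by rw [EqM_DK_shp],
    Equiv.sum_comp (shp n p N) (fun a => DK n (p * N) t a ^ 2)]

theorem EqM_PInv [NeZero (p * N)] {f : (Iz n (p * N) → ℝ) → ℝ}
    (hfT : ∀ y, f (y ∘ shp n p N) = f y) (R a α : ℝ) (m : ℕ) :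
    PInv (shp n p N) (Lv (qK n (p * N)) (QK n (p * N)) f R a α m) := by
  intro v
  have h : ps m (v ∘ shp n p N) = ps m v ∘ shp n p N := rfl
  simp only [Lv, Set.mem_ofPred_eq]
  rw [h, EqM_qK_shp, EqM_QK_shp, hfT]

theorem EqM_ps_neg {ι : Type*} (m : ℕ) (v : ι → ℤ) : ps m (-v) = -ps m v := by
  funext i
  simp only [ps, Pi.neg_apply]
  push_cast
  ring

/-! ### Restriction to the shift invariant sequences -/

theorem EqM_per [NeZero N] {f : (Iz n (p * N) → ℝ) → ℝ} (h : PerL (Lc n (p * N)) f) :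
    PerL (Lc n N) (fun y : Iz n N → ℝ => f (y ∘ shs n p N)) := by
  intro l hl y
  obtain ⟨c, hc⟩ := hl
  have h1 : (l ∘ shs n p N) ∈ Lc n (p * N) := ⟨c, fun j b => hc _ _⟩
  exact h _ h1 (y ∘ shs n p N)

theorem EqM_partial [NeZero N] [NeZero (p * N)] {f : (Iz n (p * N) → ℝ) → ℝ}
    (hf : Differentiable ℝ f) {C : ℝ}
    (hC : ∀ y b, |fderiv ℝ f y (Pi.single b 1) - DK n (p * N) y b| ≤ C) (y : Iz n N → ℝ)
    (b : Iz n N) :
    |fderiv ℝ (fun y : Iz n N → ℝ => f (y ∘ shs n p N)) y (Pi.single b 1) -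
      p * DK n N y b| ≤ p * C := by
  classical
  have h1 : (p : ℝ) * DK n N y b =
      ∑ a ∈ Finset.univ.filter (fun a : Iz n (p * N) => shs n p N a = b),
        DK n (p * N) (y ∘ shs n p N) a := by
    rw [Finset.sum_congr rfl (fun a ha => by rw [DK_fold, (Finset.mem_filter.1 ha).2]),
      Finset.sum_const, card_fiber, nsmul_eq_mul]
  rw [fold_partial _ _ hf, h1, ← Finset.sum_sub_distrib]
  refine (Finset.abs_sum_le_sum_abs _ _).trans ?_
  refine (Finset.sum_le_sum fun a _ => hC _ _).trans ?_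
  rw [Finset.sum_const, card_fiber, nsmul_eq_mul]

theorem EqM_fo_Lv [NeZero N] [NeZero (p * N)] (f : (Iz n (p * N) → ℝ) → ℝ) (R a α : ℝ) (m : ℕ) :
    fo (shs n p N) (Lv (qK n (p * N)) (QK n (p * N)) f R a α m) =
      Lv (fun t => p * qK n N t) (fun t => p * QK n N t)
        (fun y : Iz n N → ℝ => f (y ∘ shs n p N)) R a α m := by
  ext v
  have h : ps m (v ∘ shs n p N) = ps m v ∘ shs n p N := rfl
  simp only [fo, Lv, Set.mem_ofPred_eq]
  rw [h, qK_fold, QK_fold]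

theorem EqM_fo_Xm [NeZero N] [NeZero (p * N)] (R : ℝ) (m : ℕ) :
    fo (shs n p N) (Xm (qK n (p * N)) R m) = Xm (fun t => p * qK n N t) R m := by
  ext v
  have h : ps m (v ∘ shs n p N) = ps m v ∘ shs n p N := rfl
  simp only [fo, Xm, Set.mem_ofPred_eq]
  rw [h, qK_fold]

theorem EqM_fo_Am [NeZero N] [NeZero (p * N)] (R a : ℝ) (m : ℕ) :
    fo (shs n p N) (Am (qK n (p * N)) (QK n (p * N)) R a m) =
      Am (fun t => p * qK n N t) (fun t => p * QK n N t) R a m := by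
  ext v
  have h : ps m (v ∘ shs n p N) = ps m v ∘ shs n p N := rfl
  simp only [fo, Am, Set.mem_ofPred_eq]
  rw [h, qK_fold, QK_fold]

/-- sums over the bands -/
theorem EqM_sum_bands {β : Type*} [DecidableEq β] (Cf : Finset β) (v : β → ℝ) (m : β → ℕ)
    {α : ℕ → ℝ} (hα : StrictMono α) (M : ℕ) :
    ∑ i ∈ Finset.range M, ∑ c ∈ Cf.filter (fun c => α i < v c ∧ v c < α (i + 1)), m c ≤
      ∑ c ∈ Cf, m c := by
  rw [← Finset.sum_biUnion]
  · refine Finset.sum_le_sum_of_subset ?_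
    intro c hc
    obtain ⟨i, _, hi⟩ := Finset.mem_biUnion.1 hc
    exact (Finset.mem_filter.1 hi).1
  · have key : ∀ i j : ℕ, i < j → ∀ c, ¬ (v c < α (i + 1) ∧ α j < v c) := by
      intro i j hij c ⟨h1, h2⟩
      have h3 : α (i + 1) ≤ α j := hα.monotone hij
      linarith
    intro i _ j _ hij
    rw [Function.onFun, Finset.disjoint_left]
    intro c hc hc'
    have h1 := (Finset.mem_filter.1 hc).2
    have h2 := (Finset.mem_filter.1 hc').2
    rcases lt_or_gt_of_ne hij with h | h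
    · exact key i j h c ⟨h1.2, h2.1⟩
    · exact key j i h c ⟨h2.2, h1.1⟩

/-! ### The theorem for functions with separated critical values -/

theorem EqM_core [NeZero N] [NeZero (p * N)] (hp : p.Prime) (hpb : 2 * 2 ^ (2 * n) < p)
    (f : (Iz n (p * N) → ℝ) → ℝ) (hf : ContDiff ℝ 2 f) (hfp : PerL (Lc n (p * N)) f)
    (hfT : ∀ y, f (y ∘ shp n p N) = f y) (C : ℝ)
    (hC : ∀ y b, |fderiv ℝ f y (Pi.single b 1) - DK n (p * N) y b| ≤ C)
    (W : Finset (Iz n (p * N) → ℝ))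
    (hW : ∀ y, fderiv ℝ f y = 0 ↔ ∃ z ∈ W, ∃ l ∈ Lc n (p * N), y = z + rl l)
    (hWd : ∀ z ∈ W, ∀ z' ∈ W, ∀ l ∈ Lc n (p * N), z' = z + rl l → z' = z)
    {g₁ g₂ : ℕ} (h1 : g₁ < n * (p * N - 1)) (h2 : n * (p * N - 1) + 2 * n < g₂)
    (hwin : ∀ z ∈ W, ∀ g, (g = g₁ ∨ g = g₂) →
      ¬ (sigNeg (hess f z) ≤ g ∧ g + sigPos (hess f z) ≤ Fintype.card (Iz n (p * N))))
    (hsep : ∀ z ∈ W, ∀ z' ∈ W, (g₁ < sigNeg (hess f z) ∧ sigNeg (hess f z) < g₂) →
      ¬ (g₁ < sigNeg (hess f z') ∧ sigNeg (hess f z') < g₂) → f z ≠ f z')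
    (Cf : Finset (Iz n N → ℝ)) (m : (Iz n N → ℝ) → ℕ)
    (hCf : ∀ y : Iz n N → ℝ, fderiv ℝ f (y ∘ shs n p N) = 0 →
      g₁ < sigNeg (hess f (y ∘ shs n p N)) → sigNeg (hess f (y ∘ shs n p N)) < g₂ →
      ∃ c ∈ Cf, ∃ l ∈ Lc n N, y = c + rl l)
    (hCf' : ∀ c ∈ Cf, fderiv ℝ f (c ∘ shs n p N) = 0)
    (hCfd : ∀ z ∈ Cf, ∀ z' ∈ Cf, ∀ l ∈ Lc n N, z' = z + rl l → z' = z)
    (hm : ∀ c ∈ Cf, ∀ r > 0, (∀ x ∈ Metric.closedBall c r,
        fderiv ℝ (fun y : Iz n N → ℝ => f (y ∘ shs n p N)) x = 0 → x = c) →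
      ∃ (g : (Iz n N → ℝ) → ℝ) (X : Finset (Iz n N → ℝ)),
        LD (fun y : Iz n N → ℝ => f (y ∘ shs n p N)) c r g X ∧ X.card ≤ m c) :
    2 ^ (2 * n) ≤ ∑ c ∈ Cf, m c := by
  classical
  haveI : Fact p.Prime := ⟨hp⟩
  have hp0 : (0 : ℝ) < p := by exact_mod_cast hp.pos
  have hfd : Differentiable ℝ f := hf.differentiable (by norm_num)
  have hfb : ContDiff ℝ 2 (fun y : Iz n N → ℝ => f (y ∘ shs n p N)) :=
    fold_smooth (shs n p N) 2 f hf
  -- the domain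
  obtain ⟨R₁, hR₁, hb1⟩ := dom_Bd n (p * N) one_pos C
  obtain ⟨R₂, hR₂, hb2⟩ := dom_Bd n N hp0 (p * C)
  obtain ⟨R₃, hb3⟩ := total_K (ZMod p) n (p * N)
  obtain ⟨R, hR1, hR2, hR3⟩ : ∃ R : ℝ, R₁ ≤ R ∧ R₂ ≤ R ∧ R₃ ≤ R :=
    ⟨max R₁ (max R₂ R₃), le_max_left _ _, (le_max_left _ _).trans (le_max_right _ _),
      (le_max_right _ _).trans (le_max_right _ _)⟩
  have hR0 : 0 < R := hR₁.trans_le hR1
  have hD : Dm (Lc n (p * N)) (qK n (p * N)) (QK n (p * N)) R R := by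
    have h := dom_Dm n (p * N) one_pos R R
    simp only [one_mul] at h
    exact h
  have hD' := dom_Dm n N hp0 R R
  have hB := hb1 R hR1 R hR1 f hfd (fun y b => by
    rw [one_mul]
    exact hC y b)
  simp only [one_mul] at hB
  obtain ⟨hB1, hB2⟩ := hB
  obtain ⟨hB1', hB2'⟩ := hb2 R hR2 R hR2 (fun y : Iz n N → ℝ => f (y ∘ shs n p N))
    (hfb.differentiable (by norm_num)) (EqM_partial hfd hC)
  -- the levels
  obtain ⟨α₀, hα₀⟩ := Lv_low hD hf.continuous hfp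
  obtain ⟨β₀, hβ₀⟩ := Lv_high hD hf.continuous hfp
  obtain ⟨M₀, α, hmono, hα0, hαM, hαV, hαs⟩ := exists_levels (W.image f) α₀ β₀
  have hWc : ∀ z ∈ W, fderiv ℝ f z = 0 := fun z hz =>
    (hW z).2 ⟨z, hz, 0, (Lc n (p * N)).zero_mem, by rw [Win_rl_zero, add_zero]⟩
  have hval : ∀ y, fderiv ℝ f y = 0 → ∃ z ∈ W, f y = f z ∧ ∃ l ∈ Lc n (p * N), y = z + rl l := by
    intro y hy
    obtain ⟨z, hz, l, hl, rfl⟩ := (hW y).1 hy
    exact ⟨z, hz, hfp l hl z, l, hl, rfl⟩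
  have hst : ∀ i, ∀ z ∈ W, α i ≤ f z → α i < f z := fun i z hz h =>
    lt_of_le_of_ne h fun h' => hαV i (by rw [h']; exact Finset.mem_image_of_mem f hz)
  have hst' : ∀ i, ∀ z ∈ W, f z ≤ α i → f z < α i := fun i z hz h =>
    lt_of_le_of_ne h fun h' => hαV i (by rw [← h']; exact Finset.mem_image_of_mem f hz)
  -- the bands
  have hband : ∀ i, Band (Lc n (p * N)) (qK n (p * N)) (QK n (p * N)) f R R (α i) (α (i + 1))
      (W.filter fun z => α i < f z ∧ f z < α (i + 1)) := by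
    intro i
    refine ⟨hD, hf, hfp, hB1, hmono (Nat.lt_succ_self i), ?_, ?_, ?_⟩
    · intro z hz
      obtain ⟨hz1, hz2, hz3⟩ := Finset.mem_filter.1 hz
      exact ⟨hWc z hz1, (hB2 z (hWc z hz1)).1, (hB2 z (hWc z hz1)).2, hz2, hz3⟩
    · intro z hz z' hz' l hl h
      exact hWd z (Finset.mem_filter.1 hz).1 z' (Finset.mem_filter.1 hz').1 l hl h
    · intro y _ _ h3 h4 h5
      obtain ⟨z, hz, hyz, l, hl, hy⟩ := hval y h5
      rw [hyz] at h3 h4
      exact ⟨z, Finset.mem_filter.2 ⟨hz, hst i z hz h3, hst' _ z hz h4⟩, l, hl, hy⟩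
  have hcf := crit_of_fold (shp n p N) hp.pos (shp_pow n p N) (shs n p N)
    (fun v => shp_fix v) f hfd hfT
  have hband' : ∀ i, (∀ z ∈ W, α i < f z → f z < α (i + 1) →
      g₁ < sigNeg (hess f z) ∧ sigNeg (hess f z) < g₂) →
      Band (Lc n N) (fun t => p * qK n N t) (fun t => p * QK n N t)
        (fun y : Iz n N → ℝ => f (y ∘ shs n p N)) R R (α i) (α (i + 1))
        (Cf.filter fun c => α i < f (c ∘ shs n p N) ∧ f (c ∘ shs n p N) < α (i + 1)) := by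
    intro i hPi
    refine ⟨hD', hfb, EqM_per hfp, hB1', hmono (Nat.lt_succ_self i), ?_, ?_, ?_⟩
    · intro c hc
      obtain ⟨hc1, hc2, hc3⟩ := Finset.mem_filter.1 hc
      have h5 := (hcf c).2 (hCf' c hc1)
      exact ⟨h5, (hB2' c h5).1, (hB2' c h5).2, hc2, hc3⟩
    · intro z hz z' hz' l hl h
      exact hCfd z (Finset.mem_filter.1 hz).1 z' (Finset.mem_filter.1 hz').1 l hl h
    · intro y _ _ h3 h4 h5
      have h6 := (hcf y).1 h5
      obtain ⟨z, hz, hyz, l, hl, hy⟩ := hval _ h6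
      rw [hyz] at h3 h4
      have e3 := hst i z hz h3
      have e4 := hst' _ z hz h4
      have h7 := hPi z hz e3 e4
      have h8 : hess f (y ∘ shs n p N) = hess f z := by
        rw [hy]
        exact (sig_per f hfp z hl).1
      obtain ⟨c, hc, l', hl', hyc⟩ := hCf y h6 (by rw [h8]; exact h7.1) (by rw [h8]; exact h7.2)
      have h9 : f (c ∘ shs n p N) = f z := by
        rw [← hyz, hyc]
        exact (EqM_per hfp l' hl' c).symm
      exact ⟨c, Finset.mem_filter.2 ⟨hc, by rw [h9]; exact e3, by rw [h9]; exact e4⟩, l', hl', hyc⟩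
  -- fine meshes
  have hev1 : ∀ᶠ M : ℕ in atTop, ∀ i ∈ Finset.range M₀, ∀ j,
      (∀ z ∈ W.filter fun z => α i < f z ∧ f z < α (i + 1),
        ¬ (sigNeg (hess f z) ≤ j ∧ j + sigPos (hess f z) ≤ Fintype.card (Iz n (p * N)))) →
      HR (ZMod p) (lam (Lc n (p * N)) (2 ^ M))
        (Lv (qK n (p * N)) (QK n (p * N)) f R R (α (i + 1)) (2 ^ M))
        (Lv (qK n (p * N)) (QK n (p * N)) f R R (α i) (2 ^ M)) j 0 :=
    (Filter.eventually_all_finset _).2 fun i _ => window_out (ZMod p) (hband i)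
  have hev2 : ∀ᶠ M : ℕ in atTop, ∀ i ∈ Finset.range M₀,
      (∀ z ∈ W, α i < f z → f z < α (i + 1) →
        g₁ < sigNeg (hess f z) ∧ sigNeg (hess f z) < g₂) →
      ∃ w : ℕ → ℕ, (∀ j, HR (ZMod p) (lam (Lc n N) (2 ^ M))
        (fo (shs n p N) (Lv (qK n (p * N)) (QK n (p * N)) f R R (α (i + 1)) (2 ^ M)))
        (fo (shs n p N) (Lv (qK n (p * N)) (QK n (p * N)) f R R (α i) (2 ^ M))) j (w j)) ∧
        ∀ J, ∑ j ∈ Finset.range J, w j ≤
          ∑ c ∈ Cf.filter (fun c => α i < f (c ∘ shs n p N) ∧ f (c ∘ shs n p N) < α (i + 1)),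
            m c := by
    refine (Filter.eventually_all_finset _).2 fun i _ => ?_
    by_cases hPi : ∀ z ∈ W, α i < f z → f z < α (i + 1) →
        g₁ < sigNeg (hess f z) ∧ sigNeg (hess f z) < g₂
    · filter_upwards [window_count (ZMod p) (hband' i hPi) m
        (fun c hc r hr hx => hm c (Finset.mem_filter.1 hc).1 r hr hx)] with M hM _
      obtain ⟨w, hw1, hw2⟩ := hM
      refine ⟨w, fun j => ?_, hw2⟩
      rw [EqM_fo_Lv, EqM_fo_Lv]
      exact hw1 j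
    · exact Filter.Eventually.of_forall fun M h => absurd h hPi
  obtain ⟨M, ⟨⟨hM1, hM2⟩, hM3⟩, hM4⟩ :=
    (((hev1.and hev2).and (hb3 R hR3 R hR3)).and (eventually_ge_atTop 1)).exists
  have hm2 : 2 ≤ 2 ^ M := by
    calc 2 = 2 ^ 1 := rfl
      _ ≤ 2 ^ M := Nat.pow_le_pow_right (by norm_num) hM4
  have hm0 : 0 < 2 ^ M := by omega
  have hA0 : Lv (qK n (p * N)) (QK n (p * N)) f R R (α 0) (2 ^ M) =
      Am (qK n (p * N)) (QK n (p * N)) R R (2 ^ M) := (hα₀ (α 0) hα0).2 _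
  have hAM : Lv (qK n (p * N)) (QK n (p * N)) f R R (α M₀) (2 ^ M) =
      Xm (qK n (p * N)) R (2 ^ M) := (hβ₀ (α M₀) hαM).2 _
  obtain ⟨D, hDc, hD1, hD2, hD3, hD4⟩ := half_lattice n N M hM4
  have hres := grid_rank (Cyc_K (n := n) (N := N) hp hm2) (Fold_K (n := n) (p := p) (m := 2 ^ M))
    (fun i => Lv (qK n (p * N)) (QK n (p * N)) f R R (α i) (2 ^ M)) M₀
    (fun i => Lv_mono _ _ _ _ _ (hmono.monotone (Nat.le_succ i)) _)
    (fun i => EqM_PInv hfT R R (α i) (2 ^ M))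
    (fun i => Lv_inv hD.qp hD.Qp hfp R R (α i) hm0) (g₁ := g₁) (g₂ := g₂) (by omega)
    (fun j hj => by
      rw [hA0, hAM]
      exact hM3 j (Or.inl (by omega)))
    (fun j hj => by
      rw [hA0, hAM]
      exact hM3 j (Or.inr (by omega)))
    (fun i => ∑ c ∈ Cf.filter (fun c => α i < f (c ∘ shs n p N) ∧
      f (c ∘ shs n p N) < α (i + 1)), m c)
    (fun i hi => by
      by_cases hPi : ∃ z ∈ W, α i < f z ∧ f z < α (i + 1) ∧
          g₁ < sigNeg (hess f z) ∧ sigNeg (hess f z) < g₂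
      · right
        obtain ⟨z₀, hz₀, e1, e2, e3⟩ := hPi
        have hall : ∀ z ∈ W, α i < f z → f z < α (i + 1) →
            g₁ < sigNeg (hess f z) ∧ sigNeg (hess f z) < g₂ := by
          intro z hz h3 h4
          by_contra hcon
          exact hsep z₀ hz₀ z hz e3 hcon (hαs i _ (Finset.mem_image_of_mem f hz₀) _
            (Finset.mem_image_of_mem f hz) e1 e2 h3 h4)
        refine ⟨fun j hj => hM1 i (Finset.mem_range.2 hi) j ?_, ?_⟩
        · intro z hz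
          obtain ⟨hz1, hz2, hz3⟩ := Finset.mem_filter.1 hz
          have h5 := hall z hz1 hz2 hz3
          have h6 := hwin z hz1 g₂ (Or.inr rfl)
          omega
        · obtain ⟨w, hw1, hw2⟩ := hM2 i (Finset.mem_range.2 hi) hall
          exact ⟨w, hw1, hw2 _⟩
      · left
        intro j hj1 hj2
        refine hM1 i (Finset.mem_range.2 hi) j ?_
        intro z hz
        obtain ⟨hz1, hz2, hz3⟩ := Finset.mem_filter.1 hz
        have h5 : ¬ (g₁ < sigNeg (hess f z) ∧ sigNeg (hess f z) < g₂) := fun h =>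
          hPi ⟨z, hz1, hz2, hz3, h⟩
        have h6 := hwin z hz1 g₂ (Or.inr rfl)
        have h7 := hwin z hz1 g₁ (Or.inl rfl)
        omega)
    (Lc_even hM4) (lam_wide _ hm2)
    (fun v => by
      have h5 : ps (2 ^ M) (-v) = -ps (2 ^ M) v := EqM_ps_neg _ v
      rw [hAM, EqM_fo_Xm]
      simp only [Xm, Set.mem_ofPred_eq]
      rw [h5, qK_neg])
    (fun v => by
      have h5 : ps (2 ^ M) (-v) = -ps (2 ^ M) v := EqM_ps_neg _ v
      rw [hA0, EqM_fo_Am]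
      simp only [Am, Set.mem_ofPred_eq]
      rw [h5, qK_neg, QK_neg])
    (by
      rw [hA0, hAM, EqM_fo_Am, EqM_fo_Xm]
      exact hD'.finMod hm0)
    D hD1 hD2 hD3
    (fun v hv => by
      obtain ⟨h5, h6⟩ := hD4 v hv
      rw [hA0, hAM, EqM_fo_Am, EqM_fo_Xm]
      simp only [Xm, Am, Set.mem_ofPred_eq]
      rw [h5, h6, mul_zero]
      exact ⟨hR0.le, fun h => by linarith [h.2]⟩)
    (by rw [hDc]; exact hpb)
  rw [hDc] at hres
  exact hres.trans (EqM_sum_bands Cf (fun c => f (c ∘ shs n p N)) m hmono M₀)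

/-- **Equivariant rank theorem.** -/
theorem eq_main [NeZero N] [NeZero (p * N)] (hp : p.Prime) (hpb : 2 * 2 ^ (2 * n) < p)
    (f : (Iz n (p * N) → ℝ) → ℝ) (hf : ContDiff ℝ 2 f) (hfp : PerL (Lc n (p * N)) f)
    (hfT : ∀ y, f (y ∘ shp n p N) = f y) (C : ℝ)
    (hC : ∀ y b, |fderiv ℝ f y (Pi.single b 1) - DK n (p * N) y b| ≤ C)
    (W : Finset (Iz n (p * N) → ℝ))
    (hW : ∀ y, fderiv ℝ f y = 0 ↔ ∃ z ∈ W, ∃ l ∈ Lc n (p * N), y = z + rl l)
    (hWd : ∀ z ∈ W, ∀ z' ∈ W, ∀ l ∈ Lc n (p * N), z' = z + rl l → z' = z)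
    {g₁ g₂ : ℕ} (h1 : g₁ < n * (p * N - 1)) (h2 : n * (p * N - 1) + 2 * n < g₂)
    (hwin : ∀ z ∈ W, ∀ g, (g = g₁ ∨ g = g₂) →
      ¬ (sigNeg (hess f z) ≤ g ∧ g + sigPos (hess f z) ≤ Fintype.card (Iz n (p * N))))
    (Cf : Finset (Iz n N → ℝ)) (m : (Iz n N → ℝ) → ℕ)
    (hCf : ∀ y : Iz n N → ℝ, fderiv ℝ f (y ∘ shs n p N) = 0 →
      g₁ < sigNeg (hess f (y ∘ shs n p N)) → sigNeg (hess f (y ∘ shs n p N)) < g₂ →
      ∃ c ∈ Cf, ∃ l ∈ Lc n N, y = c + rl l)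
    (hCf' : ∀ c ∈ Cf, fderiv ℝ f (c ∘ shs n p N) = 0)
    (hCfd : ∀ z ∈ Cf, ∀ z' ∈ Cf, ∀ l ∈ Lc n N, z' = z + rl l → z' = z)
    (hm : ∀ c ∈ Cf, ∀ r > 0, (∀ x ∈ Metric.closedBall c r,
        fderiv ℝ (fun y : Iz n N → ℝ => f (y ∘ shs n p N)) x = 0 → x = c) →
      ∃ (g : (Iz n N → ℝ) → ℝ) (X : Finset (Iz n N → ℝ)),
        LD (fun y : Iz n N → ℝ => f (y ∘ shs n p N)) c r g X ∧ X.card ≤ m c) :
    2 ^ (2 * n) ≤ ∑ c ∈ Cf, m c := by
  have hlat : ∀ l ∈ Lc n (p * N), l ∘ shp n p N = l := by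
    rintro l ⟨c, hc⟩
    funext a
    obtain ⟨j, b⟩ := a
    exact (hc _ _).trans (hc _ _).symm
  obtain ⟨f', hf', hfp', hfT', hd, hcr, hcon, hsep⟩ := separation (Lc n (p * N)) (shp n p N) hp.pos
    (shp_pow n p N) hlat f hf hfp hfT W hW
    (fun y => g₁ < sigNeg (hess f y) ∧ sigNeg (hess f y) < g₂)
    (fun y _ l hl => by
      show (g₁ < sigNeg (hess f (y + rl l)) ∧ sigNeg (hess f (y + rl l)) < g₂) ↔ _
      rw [(sig_per f hfp y hl).1])
    (fun y _ => by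
      show (g₁ < sigNeg (hess f (y ∘ shp n p N)) ∧ sigNeg (hess f (y ∘ shp n p N)) < g₂) ↔ _
      rw [(sig_perm (shp n p N) f hf hfT y).1])
  have hhess : ∀ y, fderiv ℝ f y = 0 → hess f' y = hess f y := by
    intro y hy
    obtain ⟨c, hc⟩ := hcon y hy
    exact (SymC_congr hc).2
  have hWc : ∀ z ∈ W, fderiv ℝ f z = 0 := fun z hz =>
    (hW z).2 ⟨z, hz, 0, (Lc n (p * N)).zero_mem, by rw [Win_rl_zero, add_zero]⟩
  refine EqM_core hp hpb f' hf' hfp' hfT' (C + 1) ?_ W ?_ hWd h1 h2 ?_ ?_ Cf m ?_ ?_ hCfd ?_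
  · intro y b
    have e1 := hC y b
    have e2 := hd y b
    have e3 : fderiv ℝ f' y (Pi.single b 1) - DK n (p * N) y b =
        (fderiv ℝ f' y (Pi.single b 1) - fderiv ℝ f y (Pi.single b 1)) +
        (fderiv ℝ f y (Pi.single b 1) - DK n (p * N) y b) := by ring
    rw [e3]
    exact (abs_add_le _ _).trans (by linarith)
  · intro y
    rw [hcr y]
    exact hW y
  · intro z hz g hg
    rw [hhess z (hWc z hz)]
    exact hwin z hz g hg
  · intro z hz z' hz' hP hnP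
    rw [hhess z (hWc z hz)] at hP
    rw [hhess z' (hWc z' hz')] at hnP
    exact hsep z z' (hWc z hz) (hWc z' hz') hP hnP
  · intro y hy e1 e2
    have hy' := (hcr _).1 hy
    rw [hhess _ hy'] at e1 e2
    exact hCf y hy' e1 e2
  · intro c hc
    exact (hcr _).2 (hCf' c hc)
  · intro c hc r hr hx
    obtain ⟨c₀, hc₀⟩ := hcon _ (hCf' c hc)
    refine LD_transfer (fun y : Iz n N → ℝ => f (y ∘ shs n p N))
      (fun y : Iz n N → ℝ => f' (y ∘ shs n p N)) (fold_smooth _ _ _ hf) (fold_smooth _ _ _ hf') c c₀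
      ?_ (m c) (hm c hc) r hr hx
    have hcont : Continuous fun y : Iz n N → ℝ => y ∘ shs n p N := (SymC_pull (shs n p N)).continuous
    exact (hcont.tendsto c).eventually hc₀

end Pool.Agent.H47.ST
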