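import Pool.Agent.H47.ST.ShK
import Pool.Agent.H47.QG.Main3
import Pool.Agent.H47.QG.LocT

/-!
# The action in the coordinates of the sequence space
-/

set_option autoImplicit false

namespace Pool.Agent.H47.ST

open Module QuadraticForm
open Pool.Agent.H47.QG (Pt action flw oseq Gen ind hess Zn)

variable {n : ℕ}

/-- coordinates of the sequence space -/
noncomputable def eK (n K : ℕ) : (Iz n K → ℝ) ≃L[ℝ] (Fin K → Pt n) :=
  LinearEquiv.toContinuousLinearEquiv
    { toFun := fun t j => (fun i => t (j, Sum.inl i), fun i => t (j, Sum.inr i))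
      map_add' := fun _ _ => rfl
      map_smul' := fun _ _ => rfl
      invFun := fun z a => match a with
        | (j, Sum.inl i) => (z j).1 i
        | (j, Sum.inr i) => (z j).2 i
      left_inv := by
        intro t
        ext ⟨j, i | i⟩ <;> rfl
      right_inv := fun _ => rfl }

theorem eK_apply (K : ℕ) (t : Iz n K → ℝ) (j : Fin K) :
    eK n K t j = (fun i => t (j, Sum.inl i), fun i => t (j, Sum.inr i)) := rfl

/-- the action in coordinates -/
noncomputable def fS (S : ℕ → Pt n → ℝ) (K : ℕ) [NeZero K] (t : Iz n K → ℝ) : ℝ :=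
  action S K (eK n K t)

/-- the point of the orbit of `w` -/
noncomputable def zw (f : ℕ → Pt n → Pt n) (K : ℕ) (w : Pt n) : Iz n K → ℝ :=
  (eK n K).symm (oseq f K w)

variable {S : ℕ → Pt n → ℝ} {f : ℕ → Pt n → Pt n}

/-! ### Lemmas -/

theorem ActZ_shift (p N : ℕ) [NeZero (p * N)] (y : Iz n (p * N) → ℝ) :
    eK n (p * N) (y ∘ shp n p N) = QG.shiftN n (p * N) N (eK n (p * N) y) := rfl

theorem ActZ_rep (p N : ℕ) [NeZero N] (y : Iz n N → ℝ) :
    eK n (p * N) (y ∘ shs n p N) = QG.LocT_rep n p N (eK n N y) := rfl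

theorem ActZ_zw (f : ℕ → Pt n → Pt n) (K : ℕ) (w : Pt n) : eK n K (zw f K w) = oseq f K w :=
  ContinuousLinearEquiv.apply_symm_apply _ _

theorem ActZ_oseq_zero (f : ℕ → Pt n → Pt n) (K : ℕ) [NeZero K] (w : Pt n) :
    oseq f K w 0 = w := by
  have h0 : ((0 : Fin K) : ℕ) = 0 := Fin.val_zero _
  change flw f ((0 : Fin K) : ℕ) w = w
  rw [h0]
  rfl

theorem ActZ_card (n K : ℕ) : Fintype.card (Iz n K) = finrank ℝ (Fin K → Pt n) := by
  have h := LinearEquiv.finrank_eq (eK n K).toLinearEquiv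
  rw [← h, Module.finrank_pi]

theorem ActZ_hess (hS : ∀ j, Gen (S j) (f j)) (K : ℕ) [NeZero K] (w : Pt n) :
    (hess (fS S K) (zw f K w)).Equivalent (hess (action S K) (oseq f K w)) := by
  refine ⟨⟨(eK n K).toLinearEquiv, fun v => ?_⟩⟩
  have h := QG.hess_comp (action S K) (QG.action_smooth S (fun j => (hS j).smooth) K)
    (eK n K : (Iz n K → ℝ) →L[ℝ] (Fin K → Pt n)) 0 (zw f K w) v
  simp only [add_zero] at h
  have h2 : (eK n K : (Iz n K → ℝ) →L[ℝ] (Fin K → Pt n)) (zw f K w) = oseq f K w := ActZ_zw f K w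
  rw [h2] at h
  exact h.symm

/-- the part of the action without the generating functions -/
theorem ActZ_split (S : ℕ → Pt n → ℝ) (K : ℕ) [NeZero K] (t : Iz n K → ℝ) :
    fS S K t = QK n K t - ∑ j : Fin K, S j (QG.ActH_P n K j (eK n K t)) := by
  unfold fS action QK
  rw [Finset.sum_sub_distrib]
  rfl

theorem ActZ_QK_diff (n K : ℕ) [NeZero K] : Differentiable ℝ (QK n K) := by
  unfold QK
  fun_prop

theorem fS_smooth (hS : ∀ j, Gen (S j) (f j)) (K : ℕ) [NeZero K] : ContDiff ℝ 2 (fS S K) :=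
  (QG.action_smooth S (fun j => (hS j).smooth) K).comp (eK n K).contDiff

theorem fS_per (hS : ∀ j, Gen (S j) (f j)) (K : ℕ) [NeZero K] : PerL (Lc n K) (fS S K) := by
  rintro l ⟨c, hc⟩ y
  have h1 : eK n K (y + rl l) = eK n K y + fun _ =>
      ((fun i => ((c (Sum.inl i) : ℤ) : ℝ)), (fun i => ((c (Sum.inr i) : ℤ) : ℝ))) := by
    funext j
    refine Prod.ext (funext fun i => ?_) (funext fun i => ?_)
    · change y (j, Sum.inl i) + ((l (j, Sum.inl i) : ℤ) : ℝ) = y (j, Sum.inl i) + _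
      rw [hc]
    · change y (j, Sum.inr i) + ((l (j, Sum.inr i) : ℤ) : ℝ) = y (j, Sum.inr i) + _
      rw [hc]
  unfold fS
  rw [h1]
  exact QG.IterT_action S f hS K (fun i => c (Sum.inl i)) (fun i => c (Sum.inr i)) (eK n K y)

theorem fS_grad (hS : ∀ j, Gen (S j) (f j)) (K : ℕ) [NeZero K] : ∃ C : ℝ, ∀ y b,
    |fderiv ℝ (fS S K) y (Pi.single b 1) - DK n K y b| ≤ C := by
  choose C hC using fun j => QG.ActQ_bdd (S j) (f j) (hS j)
  have hC0 : ∀ j, 0 ≤ C j := fun j => (norm_nonneg _).trans (hC j 0)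
  let L : Fin K → (Iz n K → ℝ) →L[ℝ] Pt n := fun j =>
    (QG.ActH_P n K j).comp (eK n K : (Iz n K → ℝ) →L[ℝ] (Fin K → Pt n))
  have hfun : fS S K = fun t => QK n K t - ∑ j : Fin K, S j (L j t) :=
    funext fun t => ActZ_split S K t
  have hd : ∀ t, HasFDerivAt (fS S K) (fderiv ℝ (QK n K) t -
      ∑ j : Fin K, (fderiv ℝ (S j) (L j t)).comp (L j)) t := by
    intro t
    rw [hfun]
    refine ((ActZ_QK_diff n K) t).hasFDerivAt.sub (HasFDerivAt.fun_sum fun j _ => ?_)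
    exact ((((hS j).smooth.differentiable (by norm_num)) (L j t)).hasFDerivAt).comp t
      (L j).hasFDerivAt
  refine ⟨∑ j : Fin K, C j * ‖L j‖, fun y b => ?_⟩
  rw [(hd y).fderiv, sub_apply, QK_fderiv, sub_sub_cancel_left, abs_neg,
    sum_apply]
  refine (Finset.abs_sum_le_sum_abs _ _).trans (Finset.sum_le_sum fun j _ => ?_)
  rw [← Real.norm_eq_abs, ContinuousLinearMap.comp_apply]
  refine ((fderiv ℝ (S j) (L j y)).le_opNorm _).trans ?_
  refine mul_le_mul (hC j _) ?_ (norm_nonneg _) (hC0 j)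
  refine ((L j).le_opNorm _).trans ?_
  have h1 : ‖(Pi.single b 1 : Iz n K → ℝ)‖ ≤ 1 := by
    refine (pi_norm_le_iff_of_nonneg zero_le_one).2 fun k => ?_
    by_cases h : k = b
    · subst h; simp
    · simp [h]
  calc ‖L j‖ * ‖(Pi.single b 1 : Iz n K → ℝ)‖ ≤ ‖L j‖ * 1 := by
        gcongr
    _ = ‖L j‖ := mul_one _

theorem fS_shift (p N : ℕ) [NeZero (p * N)] (hper : ∀ j, S (j + N) = S j)
    (y : Iz n (p * N) → ℝ) : fS S (p * N) (y ∘ shp n p N) = fS S (p * N) y := by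
  unfold fS
  rw [ActZ_shift, QG.action_shift S p N hper]

theorem fS_fold (p N : ℕ) [NeZero N] [NeZero (p * N)] (hper : ∀ j, S (j + N) = S j)
    (y : Iz n N → ℝ) : fS S (p * N) (y ∘ shs n p N) = p * fS S N y := by
  unfold fS
  rw [ActZ_rep, QG.LocT_action_rep hper]

theorem ActZ_crit (hS : ∀ j, Gen (S j) (f j)) (K : ℕ) [NeZero K] (t : Iz n K → ℝ) :
    fderiv ℝ (fS S K) t = 0 ↔ fderiv ℝ (action S K) (eK n K t) = 0 := by
  have h1 : fderiv ℝ (fS S K) t =
      (fderiv ℝ (action S K) (eK n K t)).comp (eK n K : (Iz n K → ℝ) →L[ℝ] (Fin K → Pt n)) := by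
    have h2 : DifferentiableAt ℝ (action S K) (eK n K t) :=
      (QG.action_smooth S (fun j => (hS j).smooth) K).differentiable (by norm_num) _
    exact (h2.hasFDerivAt.comp t (eK n K).hasFDerivAt).fderiv
  rw [h1]
  constructor
  · intro h
    ext1 v
    have := congrArg (fun L => L ((eK n K).symm v)) h
    simpa using this
  · intro h
    rw [h, ContinuousLinearMap.zero_comp]

theorem fS_crit (hS : ∀ j, Gen (S j) (f j)) (K : ℕ) [NeZero K] (t : Iz n K → ℝ) :
    fderiv ℝ (fS S K) t = 0 ↔ flw f K (eK n K t 0) = eK n K t 0 ∧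
      eK n K t = oseq f K (eK n K t 0) := by
  rw [ActZ_crit hS, QG.crit_iff S f hS]

theorem fS_sigNeg (hS : ∀ j, Gen (S j) (f j)) (K : ℕ) [NeZero K] (w : Pt n) :
    sigNeg (hess (fS S K) (zw f K w)) = ind S f K w := by
  rw [QG.ind_eq, (ActZ_hess hS K w).sigNeg_eq]

theorem fS_null (hS : ∀ j, Gen (S j) (f j)) (K : ℕ) [NeZero K] (w : Pt n) :
    Fintype.card (Iz n K) ≤ ind S f K w + sigPos (hess (fS S K) (zw f K w)) + 2 * n := by
  rw [ActZ_card, QG.ind_eq, (ActZ_hess hS K w).sigPos_eq]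
  exact QG.null_le S f hS K w

theorem lat_iff (K : ℕ) [NeZero K] (t t' : Iz n K → ℝ) :
    (∃ l ∈ Lc n K, t = t' + rl l) ↔ ∃ e ∈ Zn n, ∀ j, eK n K t j = eK n K t' j + e := by
  constructor
  · rintro ⟨l, ⟨c, hc⟩, rfl⟩
    refine ⟨_, ⟨fun i => c (Sum.inl i), fun i => c (Sum.inr i), rfl⟩, fun j => ?_⟩
    refine Prod.ext (funext fun i => ?_) (funext fun i => ?_)
    · change t' (j, Sum.inl i) + ((l (j, Sum.inl i) : ℤ) : ℝ) = t' (j, Sum.inl i) + _
      rw [hc]
    · change t' (j, Sum.inr i) + ((l (j, Sum.inr i) : ℤ) : ℝ) = t' (j, Sum.inr i) + _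
      rw [hc]
  · rintro ⟨e, ⟨a, b, rfl⟩, he⟩
    refine ⟨fun x => Sum.elim a b x.2, ⟨Sum.elim a b, fun _ _ => rfl⟩, ?_⟩
    funext x
    obtain ⟨j, i | i⟩ := x
    · exact congrFun (congrArg Prod.fst (he j)) i
    · exact congrFun (congrArg Prod.snd (he j)) i

theorem zw_add (hS : ∀ j, Gen (S j) (f j)) (K : ℕ) [NeZero K] (w w' : Pt n) :
    (∃ l ∈ Lc n K, zw f K w = zw f K w' + rl l) ↔ w - w' ∈ Zn n := by
  rw [lat_iff, ActZ_zw, ActZ_zw]
  constructor
  · rintro ⟨e, he, h⟩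
    have h0 := h 0
    rw [ActZ_oseq_zero, ActZ_oseq_zero] at h0
    rw [h0, add_sub_cancel_left]
    exact he
  · intro h
    refine ⟨w - w', h, fun j => ?_⟩
    have h1 := QG.flw_add_int hS j w' (w - w') h
    rw [add_sub_cancel] at h1
    exact h1

theorem zw_fold (p N : ℕ) [NeZero N] [NeZero (p * N)] (hfper : ∀ j, f (j + N) = f j) (w : Pt n)
    (hw : flw f N w = w) : zw f (p * N) w = zw f N w ∘ shs n p N := by
  apply (eK n (p * N)).injective
  rw [ActZ_rep, ActZ_zw, ActZ_zw]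
  funext j
  rw [QG.LocT_rep_apply]
  change flw f (j : ℕ) w = flw f ((j : ℕ) % N) w
  exact (QG.flw_mod hfper w hw _).symm

theorem eK_fold (p N : ℕ) [NeZero N] [NeZero (p * N)] (y : Iz n N → ℝ) :
    eK n (p * N) (y ∘ shs n p N) 0 = eK n N y 0 := by
  rw [ActZ_rep, QG.LocT_rep_apply]
  congr 1

end Pool.Agent.H47.ST
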