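import Pool.Agent.H47.ST.Grid

/-!
# Vertices near a standard critical point
-/

set_option autoImplicit false

namespace Pool.Agent.H47.ST

open Filter Topology
open Pool.Agent.H47.QG (sg neg)

variable {ι : Type*} [Fintype ι] [DecidableEq ι]

/-- the sign pattern of `c` -/
noncomputable def spat (c : ι → ℝ) : ι → Bool := fun i => decide (0 < c i)

theorem nm_spat (c : ι → ℝ) (hc : ∀ i, c i ≠ 0) : nm (spat c) = neg c := by
  classical
  unfold nm neg
  rw [Nat.card_eq_fintype_card, Fintype.card_subtype]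
  congr 1
  ext i
  simp only [Finset.mem_filter, Finset.mem_univ, true_and, spat, decide_eq_false_iff_not, not_lt]
  exact ⟨fun h => lt_of_le_of_ne h (hc i), fun h => h.le⟩

/-- the quadratic form in grid coordinates -/
noncomputable def FineC_E (c y : ι → ℝ) (m : ℕ) (w : ι → ℤ) : ℝ :=
  ∑ i, c i * ((w i : ℝ) - m * y i) ^ 2

omit [DecidableEq ι] in
theorem FineC_lt (c y : ι → ℝ) (m : ℕ) (w w' : ι → ℤ)
    (h : ∀ i, c i * ((w i : ℝ) - m * y i) ^ 2 ≤ c i * ((w' i : ℝ) - m * y i) ^ 2) (i : ι)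
    (hi : c i * ((w i : ℝ) - m * y i) ^ 2 < c i * ((w' i : ℝ) - m * y i) ^ 2) :
    FineC_E c y m w < FineC_E c y m w' :=
  Finset.sum_lt_sum (fun j _ => h j) ⟨i, Finset.mem_univ i, hi⟩

omit [Fintype ι] [DecidableEq ι] in
theorem FineC_cl (y : ι → ℝ) (r : ℝ) (m : ℕ) (hm : 0 < m) (v w : ι → ℤ) (k : ℕ)
    (hv : Cl y r (ps m v)) (h : ∀ i, |w i - v i| ≤ k) : Cl y (r + k / m) (ps m w) := by
  intro i
  have hm' : (0 : ℝ) < m := Nat.cast_pos.2 hm
  have h1 : ps m w i - y i = (ps m v i - y i) + ((w i - v i : ℤ) : ℝ) / m := by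
    unfold ps
    push_cast
    ring
  have h2 : |((w i - v i : ℤ) : ℝ) / m| ≤ k / m := by
    rw [abs_div, abs_of_pos hm']
    apply div_le_div_of_nonneg_right _ hm'.le
    have := h i
    rw [← Int.cast_abs]
    exact_mod_cast this
  rw [h1]
  calc |(ps m v i - y i) + ((w i - v i : ℤ) : ℝ) / m|
      ≤ |ps m v i - y i| + |((w i - v i : ℤ) : ℝ) / m| := abs_add_le _ _
    _ < r + k / m := by linarith [hv i]

theorem FineC_sz (s : Bool) : ((sz s : ℤ) : ℝ) = 1 ∨ ((sz s : ℤ) : ℝ) = -1 := by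
  cases s
  · right; simp [sz]
  · left; simp [sz]

theorem FineC_core (c y : ι → ℝ) (hc : ∀ i, c i ≠ 0) (ρ C0 : ℝ) (hρ : 0 < ρ) (m : ℕ) (hm : 0 < m)
    (hbig : 2 / (m : ℝ) < ρ / 2) (htie : ∀ i, ∀ a : ℤ, y i * (m : ℝ) ≠ a + 1 / 2)
    (A B : Set (ι → ℤ)) (g : (ι → ℤ) → ℝ)
    (hAB : ∀ w, Cl y ρ (ps m w) → w ∈ B ∧ w ∉ A)
    (hval : ∀ w, Cl y ρ (ps m w) → g w = C0 + FineC_E c y m w / (m : ℝ) ^ 2)
    (v : ι → ℤ) (hv : Cl y (ρ / 2) (ps m v)) :
    RegV A B g v ∨ (CriV A B g v (spat c) ∧ ∀ i, |(v i : ℝ) - m * y i| < 1 / 2) := by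
  have hm' : (0 : ℝ) < m := Nat.cast_pos.2 hm
  have hcl : ∀ w : ι → ℤ, ∀ k : ℕ, k ≤ 2 → (∀ i, |w i - v i| ≤ k) → Cl y ρ (ps m w) := by
    intro w k hk h i
    have h1 := FineC_cl y (ρ / 2) m hm v w k hv h i
    have h2 : (k : ℝ) / m ≤ 2 / m := by
      apply div_le_div_of_nonneg_right _ hm'.le
      exact_mod_cast hk
    linarith
  have hlt : ∀ w w' : ι → ℤ, Cl y ρ (ps m w) → Cl y ρ (ps m w') →
      FineC_E c y m w < FineC_E c y m w' → g w < g w' := by
    intro w w' h1 h2 h3
    rw [hval w h1, hval w' h2]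
    have : FineC_E c y m w / (m : ℝ) ^ 2 < FineC_E c y m w' / (m : ℝ) ^ 2 :=
      div_lt_div_of_pos_right h3 (by positivity)
    linarith
  have hnear : ∀ w, Nr v w → Cl y ρ (ps m w) := fun w hw => hcl w 1 (by norm_num) (by
    intro i; exact_mod_cast hw i)
  have hnear2 : ∀ w, Nr v w → ∀ i s, Cl y ρ (ps m (w + Pi.single i (sz s))) := by
    intro w hw i s
    refine hcl _ 2 le_rfl fun j => ?_
    have h1 := hw j
    by_cases hj : j = i
    · subst hj
      have h2 : (w + Pi.single j (sz s) : ι → ℤ) j - v j = (w j - v j) + sz s := by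
        simp only [Pi.add_apply, Pi.single_eq_same]
        ring
      rw [h2]
      have h3 := abs_le.1 h1
      rw [abs_le]
      rcases StarR_sz s with hs | hs <;> rw [hs] <;> constructor <;> push_cast <;> linarith [h3.1, h3.2]
    · have h2 : (w + Pi.single i (sz s) : ι → ℤ) j - v j = w j - v j := by
        simp [hj]
      rw [h2]
      push_cast
      linarith
  -- change of one coordinate
  have hstep : ∀ (w : ι → ℤ) (i : ι) (s : Bool),
      c i * (2 * (sz s : ℝ) * ((w i : ℝ) - m * y i) + 1) < 0 →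
      FineC_E c y m (w + Pi.single i (sz s)) < FineC_E c y m w := by
    intro w i s h
    have e1 : c i * (((w + Pi.single i (sz s) : ι → ℤ) i : ℝ) - m * y i) ^ 2 <
        c i * ((w i : ℝ) - m * y i) ^ 2 := by
      simp only [Pi.add_apply, Pi.single_eq_same]
      push_cast
      have : c i * ((w i : ℝ) + (sz s : ℝ) - m * y i) ^ 2 = c i * ((w i : ℝ) - m * y i) ^ 2 +
          c i * (2 * (sz s : ℝ) * ((w i : ℝ) - m * y i) + (sz s : ℝ) ^ 2) := by ring
      rw [this]
      have h2 : (sz s : ℝ) ^ 2 = 1 := by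
        rcases FineC_sz s with h3 | h3 <;> rw [h3] <;> norm_num
      rw [h2]
      linarith
    refine FineC_lt c y m _ _ (fun j => ?_) i e1
    by_cases hj : j = i
    · subst hj; exact e1.le
    · simp [hj]
  have hstep2 : ∀ (w : ι → ℤ) (i : ι) (s : Bool),
      0 < c i * (2 * (sz s : ℝ) * ((w i : ℝ) - m * y i) + 1) →
      FineC_E c y m w < FineC_E c y m (w + Pi.single i (sz s)) := by
    intro w i s h
    have e1 : c i * ((w i : ℝ) - m * y i) ^ 2 <
        c i * (((w + Pi.single i (sz s) : ι → ℤ) i : ℝ) - m * y i) ^ 2 := by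
      simp only [Pi.add_apply, Pi.single_eq_same]
      push_cast
      have : c i * ((w i : ℝ) + (sz s : ℝ) - m * y i) ^ 2 = c i * ((w i : ℝ) - m * y i) ^ 2 +
          c i * (2 * (sz s : ℝ) * ((w i : ℝ) - m * y i) + (sz s : ℝ) ^ 2) := by ring
      rw [this]
      have h2 : (sz s : ℝ) ^ 2 = 1 := by
        rcases FineC_sz s with h3 | h3 <;> rw [h3] <;> norm_num
      rw [h2]
      linarith
    refine FineC_lt c y m _ _ (fun j => ?_) i e1
    by_cases hj : j = i
    · subst hj; exact e1.le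
    · simp [hj]
  by_cases hall : ∀ i, |(v i : ℝ) - m * y i| < 1 / 2
  · right
    refine ⟨⟨fun w hw => hAB w (hnear w hw), ?_, ?_, ?_⟩, hall⟩
    · intro i hi s
      have hci : 0 < c i := by simpa [spat] using hi
      have hvn : Nr v v := fun j => by simp
      refine hlt _ _ (hnear v hvn) (hnear2 v hvn i s) (hstep2 v i s ?_)
      apply mul_pos hci
      have h2 := abs_lt.1 (hall i)
      rcases FineC_sz s with h3 | h3 <;> rw [h3] <;> linarith [h2.1, h2.2]
    · intro w hw i hi hne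
      have hci : 0 < c i := by simpa [spat] using hi
      have hup : Nr v (Function.update w i (v i)) := by
        intro j
        by_cases hj : j = i
        · subst hj; simp
        · rw [Function.update_of_ne hj]; exact hw j
      have e1 : c i * ((Function.update w i (v i) i : ℤ) - m * y i) ^ 2 <
          c i * ((w i : ℝ) - m * y i) ^ 2 := by
        rw [Function.update_self]
        apply mul_lt_mul_of_pos_left _ hci
        rw [sq_lt_sq]
        have h2 := hall i
        have h3 : (1 : ℝ) ≤ |(w i : ℝ) - v i| := by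
          have : (1 : ℤ) ≤ |w i - v i| := Int.one_le_abs (sub_ne_zero.2 hne)
          exact_mod_cast this
        have h4 : |(w i : ℝ) - v i| ≤ |(w i : ℝ) - m * y i| + |(v i : ℝ) - m * y i| := by
          have : (w i : ℝ) - v i = ((w i : ℝ) - m * y i) - ((v i : ℝ) - m * y i) := by ring
          rw [this]
          exact abs_sub _ _
        linarith
      refine hlt _ _ (hnear _ hup) (hnear w hw) (FineC_lt c y m _ _ (fun j => ?_) i e1)
      by_cases hj : j = i
      · subst hj; exact e1.le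
      · rw [Function.update_of_ne hj]
    · intro w hw hne hsame
      have hterm : ∀ j, c j * ((w j : ℝ) - m * y j) ^ 2 ≤ c j * ((v j : ℝ) - m * y j) ^ 2 ∧
          (w j ≠ v j → c j * ((w j : ℝ) - m * y j) ^ 2 < c j * ((v j : ℝ) - m * y j) ^ 2) := by
        intro j
        by_cases hj : w j = v j
        · rw [hj]
          exact ⟨le_rfl, fun h => absurd rfl h⟩
        · have hcj : c j < 0 := by
            rcases lt_or_gt_of_ne (hc j) with h | h
            · exact h
            · exact absurd (hsame j (by simpa [spat] using h)) hj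
          have h2 := hall j
          have h3 : (1 : ℝ) ≤ |(w j : ℝ) - v j| := by
            have : (1 : ℤ) ≤ |w j - v j| := Int.one_le_abs (sub_ne_zero.2 hj)
            exact_mod_cast this
          have h4 : |(w j : ℝ) - v j| ≤ |(w j : ℝ) - m * y j| + |(v j : ℝ) - m * y j| := by
            have : (w j : ℝ) - v j = ((w j : ℝ) - m * y j) - ((v j : ℝ) - m * y j) := by ring
            rw [this]
            exact abs_sub _ _
          have h5 : ((v j : ℝ) - m * y j) ^ 2 < ((w j : ℝ) - m * y j) ^ 2 := by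
            rw [sq_lt_sq]
            linarith
          have h6 := mul_lt_mul_of_neg_left h5 hcj
          exact ⟨h6.le, fun _ => h6⟩
      obtain ⟨j, hj⟩ : ∃ j, w j ≠ v j := by
        by_contra hcon
        push Not at hcon
        exact hne (funext hcon)
      have hvn : Nr v v := fun j => by simp
      exact hlt _ _ (hnear w hw) (hnear v hvn)
        (FineC_lt c y m _ _ (fun k => (hterm k).1) j ((hterm j).2 hj))
  · left
    push Not at hall
    obtain ⟨i, hi⟩ := hall
    have hne1 : (v i : ℝ) - m * y i ≠ 1 / 2 := by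
      intro h
      apply htie i (v i - 1)
      push_cast
      linarith
    have hne2 : (v i : ℝ) - m * y i ≠ -(1 / 2) := by
      intro h
      apply htie i (v i)
      linarith
    have hi' : 1 / 2 < |(v i : ℝ) - m * y i| := by
      rcases hi.lt_or_eq with h | h
      · exact h
      · exfalso
        rcases abs_choice ((v i : ℝ) - m * y i) with h2 | h2
        · rw [h2] at h; exact hne1 h.symm
        · rw [h2] at h; apply hne2; linarith
    -- the sign
    have key : ∃ s : Bool, ∀ w : ι → ℤ, Nr v w → sz s * (w i - v i) ≤ 0 →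
        c i * (2 * (sz s : ℝ) * ((w i : ℝ) - m * y i) + 1) < 0 := by
      have hsplit : ∀ (s : Bool) (w : ι → ℤ), Nr v w → sz s * (w i - v i) ≤ 0 →
          (sz s : ℝ) * ((w i : ℝ) - m * y i) ≤ (sz s : ℝ) * ((v i : ℝ) - m * y i) ∧
          (sz s : ℝ) * ((v i : ℝ) - m * y i) - 1 ≤ (sz s : ℝ) * ((w i : ℝ) - m * y i) := by
        intro s w hw hsw
        have h1 : ((sz s * (w i - v i) : ℤ) : ℝ) ≤ 0 := by exact_mod_cast hsw
        have h2 : (-1 : ℝ) ≤ ((sz s * (w i - v i) : ℤ) : ℝ) := by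
          have h3 := abs_le.1 (hw i)
          have h4 : (-1 : ℤ) ≤ sz s * (w i - v i) := by
            rcases StarR_sz s with hs | hs <;> rw [hs] <;> linarith [h3.1, h3.2]
          exact_mod_cast h4
        push_cast at h1 h2
        constructor <;> nlinarith [h1, h2]
      rcases lt_or_gt_of_ne (hc i) with hc' | hc'
      · -- move away
        rcases lt_abs.mp hi' with h1 | h1
        · refine ⟨true, fun w hw hsw => ?_⟩
          obtain ⟨_, h3⟩ := hsplit true w hw hsw
          apply mul_neg_of_neg_of_pos hc'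
          have hs : ((sz true : ℤ) : ℝ) = 1 := by simp [sz]
          rw [hs] at h3 ⊢
          linarith
        · refine ⟨false, fun w hw hsw => ?_⟩
          obtain ⟨_, h3⟩ := hsplit false w hw hsw
          apply mul_neg_of_neg_of_pos hc'
          have hs : ((sz false : ℤ) : ℝ) = -1 := by simp [sz]
          rw [hs] at h3 ⊢
          linarith
      · rcases lt_abs.mp hi' with h1 | h1
        · refine ⟨false, fun w hw hsw => ?_⟩
          obtain ⟨h3, _⟩ := hsplit false w hw hsw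
          apply mul_neg_of_pos_of_neg hc'
          have hs : ((sz false : ℤ) : ℝ) = -1 := by simp [sz]
          rw [hs] at h3 ⊢
          linarith
        · refine ⟨true, fun w hw hsw => ?_⟩
          obtain ⟨h3, _⟩ := hsplit true w hw hsw
          apply mul_neg_of_pos_of_neg hc'
          have hs : ((sz true : ℤ) : ℝ) = 1 := by simp [sz]
          rw [hs] at h3 ⊢
          linarith
    obtain ⟨s, hs⟩ := key
    refine ⟨i, s, fun w hw hsw hor => ?_⟩
    right
    refine ⟨(hAB _ (hnear2 w hw i s)).1, ?_⟩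
    have h1 : g (w + Pi.single i (sz s)) < g w :=
      hlt _ _ (hnear2 w hw i s) (hnear w hw) (hstep w i s (hs w hw hsw))
    rcases hor with h2 | h2 | h2
    · rw [h2] at h1 ⊢; exact h1
    · exact absurd h2 (hAB w (hnear w hw)).2
    · exact lt_of_lt_of_le h1 h2.2

omit [DecidableEq ι] in
theorem FineC_cont (q : (ι → ℝ) → ℝ) (hq : ContDiff ℝ 1 q) (y : ι → ℝ) (s : Set ℝ)
    (hs : IsOpen s) (hy : q y ∈ s) : ∃ δ > 0, ∀ x, Cl y δ x → q x ∈ s := by
  have h1 : q ⁻¹' s ∈ 𝓝 y := hq.continuous.continuousAt.preimage_mem_nhds (hs.mem_nhds hy)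
  obtain ⟨δ, hδ, h2⟩ := Metric.mem_nhds_iff.1 h1
  refine ⟨δ, hδ, fun x hx => h2 ?_⟩
  rw [Metric.mem_ball, dist_pi_lt_iff hδ]
  intro i
  rw [Real.dist_eq]
  exact hx i

/-- near a standard critical point between the levels -/
theorem fine_std (q Q f f' : (ι → ℝ) → ℝ) (R a α β : ℝ) (hq : ContDiff ℝ 1 q)
    (hQ : ContDiff ℝ 1 Q) (hf : ContDiff ℝ 1 f) (y c : ι → ℝ)
    (hqy : q y < R) (hQy : -a < Q y) (ha : α < f y) (hb : f y < β) (hs : StdAt f' y c) :
    ∃ r > 0, ∀ᶠ M : ℕ in atTop, ∀ v : ι → ℤ, Cl y r (ps (2 ^ M) v) →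
      RegV (Lv q Q f R a α (2 ^ M)) (Lv q Q f R a β (2 ^ M)) (fun v => f' (ps (2 ^ M) v)) v ∨
      (CriV (Lv q Q f R a α (2 ^ M)) (Lv q Q f R a β (2 ^ M)) (fun v => f' (ps (2 ^ M) v)) v
        (spat c) ∧ ∀ i, |(v i : ℝ) - 2 ^ M * y i| < 1 / 2) := by
  obtain ⟨hc, r0, hr0, hst⟩ := hs
  obtain ⟨d1, hd1, h1⟩ := FineC_cont q hq y (Set.Iio R) isOpen_Iio hqy
  obtain ⟨d2, hd2, h2⟩ := FineC_cont Q hQ y (Set.Ioi (-a)) isOpen_Ioi hQy
  obtain ⟨d3, hd3, h3⟩ := FineC_cont f hf y (Set.Ioo α β) isOpen_Ioo ⟨ha, hb⟩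
  set ρ := min (min r0 d1) (min d2 d3) with hρdef
  have hρ : 0 < ρ := lt_min (lt_min hr0 hd1) (lt_min hd2 hd3)
  have hρ0 : ρ ≤ r0 := (min_le_left _ _).trans (min_le_left _ _)
  have hρ1 : ρ ≤ d1 := (min_le_left _ _).trans (min_le_right _ _)
  have hρ2 : ρ ≤ d2 := (min_le_right _ _).trans (min_le_left _ _)
  have hρ3 : ρ ≤ d3 := (min_le_right _ _).trans (min_le_right _ _)
  refine ⟨ρ / 2, half_pos hρ, ?_⟩
  have hE1 : ∀ᶠ M : ℕ in atTop, 4 / ρ < (2 : ℝ) ^ M :=
    (tendsto_pow_atTop_atTop_of_one_lt (by norm_num : (1 : ℝ) < 2)).eventually_gt_atTop _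
  have hE2 : ∀ᶠ M : ℕ in atTop, ∀ i, ∀ b : ℤ, y i * 2 ^ M ≠ b + 1 / 2 :=
    Filter.eventually_all.2 fun i => Pool.Agent.H47.QG.no_tie (y i)
  filter_upwards [hE1, hE2] with M hM1 hM2 v hv
  have hcast : (((2 : ℕ) ^ M : ℕ) : ℝ) = 2 ^ M := by push_cast; rfl
  have hcore := FineC_core c y hc ρ (f' y) hρ (2 ^ M) (by positivity)
    (by
      rw [hcast, div_lt_iff₀ (by positivity)]
      rw [div_lt_iff₀ hρ] at hM1
      linarith)
    (by
      intro i b
      rw [hcast]
      exact hM2 i b)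
    (Lv q Q f R a α (2 ^ M)) (Lv q Q f R a β (2 ^ M)) (fun v => f' (ps (2 ^ M) v))
    (by
      intro w hw
      have e1 : q (ps (2 ^ M) w) < R := h1 _ fun i => lt_of_lt_of_le (hw i) hρ1
      have e2 : -a < Q (ps (2 ^ M) w) := h2 _ fun i => lt_of_lt_of_le (hw i) hρ2
      have e3 : f (ps (2 ^ M) w) ∈ Set.Ioo α β := h3 _ fun i => lt_of_lt_of_le (hw i) hρ3
      refine ⟨⟨e1.le, Or.inr e3.2.le⟩, ?_⟩
      rintro ⟨_, h5 | h5⟩
      · exact absurd h5 (not_le.2 e2)
      · exact absurd h5 (not_le.2 e3.1))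
    (by
      intro w hw
      show f' (ps (2 ^ M) w) = _
      rw [hst _ fun i => lt_of_lt_of_le (hw i) hρ0]
      congr 1
      unfold FineC_E
      rw [Finset.sum_div]
      refine Finset.sum_congr rfl fun i _ => ?_
      unfold ps
      have hm0 : (((2 : ℕ) ^ M : ℕ) : ℝ) ≠ 0 := by rw [hcast]; positivity
      field_simp)
    v hv
  rw [hcast] at hcore
  exact hcore

end Pool.Agent.H47.ST
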