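import Pool.Agent.H47.ST.FineR
import Pool.Agent.H47.ST.FineC

/-!
# Fine grids
-/

set_option autoImplicit false

namespace Pool.Agent.H47.ST

open Filter Topology
open Pool.Agent.H47.QG (sg neg)

variable {ι : Type*} [Fintype ι] [DecidableEq ι]

theorem lam_wide (L : AddSubgroup (ι → ℤ)) {m : ℕ} (hm : 2 ≤ m) : Wide (lam L m) := by
  rintro _ ⟨a, _, rfl⟩ h
  funext i
  have h1 := h i
  simp only [Pi.smul_apply, smul_eq_mul, abs_mul, Nat.abs_cast] at h1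
  have h2 : a i = 0 := by
    by_contra h3
    have h4 : 1 ≤ |a i| := Int.one_le_abs h3
    have h5 : (2 : ℤ) ≤ (m : ℤ) := by exact_mod_cast hm
    nlinarith
  simp [h2]

theorem Fine_ps_add {m : ℕ} (hm : 0 < m) (v a : ι → ℤ) :
    ps m (v + (m : ℤ) • a) = ps m v + rl a := by
  funext i
  have h : (m : ℝ) ≠ 0 := by exact_mod_cast hm.ne'
  simp only [ps, rl, Pi.add_apply, Pi.smul_apply, smul_eq_mul, Int.cast_add, Int.cast_mul,
    Int.cast_natCast]
  field_simp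

theorem Fine_inv {L : AddSubgroup (ι → ℤ)} {f : (ι → ℝ) → ℝ} (hf : PerL L f) {m : ℕ}
    (hm : 0 < m) {l : ι → ℤ} (hl : l ∈ lam L m) (v : ι → ℤ) :
    f (ps m (v + l)) = f (ps m v) := by
  obtain ⟨a, ha, rfl⟩ := hl
  rw [Fine_ps_add hm, hf a ha]

theorem Lv_inv {L : AddSubgroup (ι → ℤ)} {q Q f : (ι → ℝ) → ℝ} (hq : PerL L q) (hQ : PerL L Q)
    (hf : PerL L f) (R a α : ℝ) {m : ℕ} (hm : 0 < m) : Inv (lam L m) (Lv q Q f R a α m) := by
  intro l hl v
  simp only [Lv, Set.mem_ofPred_eq, Fine_inv hq hm hl, Fine_inv hQ hm hl, Fine_inv hf hm hl]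

theorem Xm_inv {L : AddSubgroup (ι → ℤ)} {q : (ι → ℝ) → ℝ} (hq : PerL L q) (R : ℝ) {m : ℕ}
    (hm : 0 < m) : Inv (lam L m) (Xm q R m) := by
  intro l hl v
  simp only [Xm, Set.mem_ofPred_eq, Fine_inv hq hm hl]

theorem Am_inv {L : AddSubgroup (ι → ℤ)} {q Q : (ι → ℝ) → ℝ} (hq : PerL L q) (hQ : PerL L Q)
    (R a : ℝ) {m : ℕ} (hm : 0 < m) : Inv (lam L m) (Am q Q R a m) := by
  intro l hl v
  simp only [Am, Set.mem_ofPred_eq, Fine_inv hq hm hl, Fine_inv hQ hm hl]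

theorem Lv_mono (q Q f : (ι → ℝ) → ℝ) (R a : ℝ) {α β : ℝ} (h : α ≤ β) (m : ℕ) :
    Lv q Q f R a α m ⊆ Lv q Q f R a β m := by
  rintro v ⟨h1, h2⟩
  refine ⟨h1, ?_⟩
  rcases h2 with h2 | h2
  · exact Or.inl h2
  · exact Or.inr (h2.trans h)

/-- the grid points of the domain are finite modulo the lattice -/
theorem Dm.finMod {L : AddSubgroup (ι → ℤ)} {q Q : (ι → ℝ) → ℝ} {R a : ℝ} (h : Dm L q Q R a)
    {m : ℕ} (hm : 0 < m) : FinMod (lam L m) (Xm q R m) (Am q Q R a m) := by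
  obtain ⟨K, hK, hK'⟩ := h.cpt
  obtain ⟨C, hC⟩ := hK.isBounded.exists_norm_le
  refine ⟨Finset.Icc (fun _ => -(⌈(m : ℝ) * C⌉)) (fun _ => ⌈(m : ℝ) * C⌉), ?_⟩
  intro v hv hv'
  have h1 : q (ps m v) ≤ R := hv
  have h2 : -a ≤ Q (ps m v) := by
    by_contra h3
    exact hv' ⟨h1, (not_le.1 h3).le⟩
  obtain ⟨l, hl, hlK⟩ := hK' _ h1 h2
  refine ⟨(m : ℤ) • l, ⟨l, hl, rfl⟩, ?_⟩
  rw [← Fine_ps_add hm] at hlK
  have h3 := hC _ hlK
  have hm' : (0 : ℝ) < m := by exact_mod_cast hm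
  have h4 : ∀ i, |((v + (m : ℤ) • l) i : ℝ)| ≤ m * C := by
    intro i
    have h5 := (norm_le_pi_norm (ps m (v + (m : ℤ) • l)) i).trans h3
    rw [Real.norm_eq_abs, ps, abs_div, Nat.abs_cast, div_le_iff₀ hm'] at h5
    rw [mul_comm]
    exact h5
  rw [Finset.mem_Icc]
  constructor
  · intro i
    have h5 := (abs_le.1 (h4 i)).1
    have h6 : ((-(⌈(m : ℝ) * C⌉) : ℤ) : ℝ) ≤ ((v + (m : ℤ) • l) i : ℝ) := by
      push_cast
      have := Int.le_ceil ((m : ℝ) * C)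
      have h7 : -(⌈(m : ℝ) * C⌉ : ℝ) ≤ -((m : ℝ) * C) := by linarith
      refine h7.trans ?_
      simpa using h5
    exact_mod_cast h6
  · intro i
    have h5 := (abs_le.1 (h4 i)).2
    have h6 : ((v + (m : ℤ) • l) i : ℝ) ≤ ((⌈(m : ℝ) * C⌉ : ℤ) : ℝ) :=
      h5.trans (Int.le_ceil _)
    exact_mod_cast h6

theorem Fine_nr {v l w : ι → ℤ} : Nr (v + l) (w + l) ↔ Nr v w := by
  unfold Nr
  refine forall_congr' fun i => ?_
  rw [Pi.add_apply, Pi.add_apply, add_sub_add_right_eq_sub]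

/-- translation of regular vertices -/
theorem Fine_regV {L : AddSubgroup (ι → ℤ)} {A B : Set (ι → ℤ)} {g : (ι → ℤ) → ℝ}
    (hA : Inv L A) (hB : Inv L B) (hg : ∀ l ∈ L, ∀ v, g (v + l) = g v) {l : ι → ℤ} (hl : l ∈ L)
    {v : ι → ℤ} (h : RegV A B g (v + l)) : RegV A B g v := by
  obtain ⟨i, s, h⟩ := h
  refine ⟨i, s, fun w hw hs hh => ?_⟩
  have h1 := h (w + l) (Fine_nr.2 hw) (by
    rw [Pi.add_apply, Pi.add_apply, add_sub_add_right_eq_sub]; exact hs) (by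
    rcases hh with hh | hh | hh
    · exact Or.inl (by rw [hh])
    · exact Or.inr (Or.inl ((hA l hl w).1 hh))
    · refine Or.inr (Or.inr ⟨(hB l hl w).1 hh.1, ?_⟩)
      rw [hg l hl, hg l hl]
      exact hh.2)
  have e : w + l + Pi.single i (sz s) = w + Pi.single i (sz s) + l := by abel
  rw [e, hg l hl, hg l hl] at h1
  rcases h1 with h1 | h1
  · exact Or.inl ((hA l hl _).2 h1)
  · exact Or.inr ⟨(hB l hl _).2 h1.1, h1.2⟩

/-- translation of critical vertices -/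
theorem Fine_criV {L : AddSubgroup (ι → ℤ)} {A B : Set (ι → ℤ)} {g : (ι → ℤ) → ℝ}
    (hA : Inv L A) (hB : Inv L B) (hg : ∀ l ∈ L, ∀ v, g (v + l) = g v) {l : ι → ℤ} (hl : l ∈ L)
    {v : ι → ℤ} {e : ι → Bool} (h : CriV A B g (v + l) e) : CriV A B g v e := by
  obtain ⟨h1, h2, h3, h4⟩ := h
  refine ⟨fun w hw => ?_, fun i hi s => ?_, fun w hw i hi hne => ?_, fun w hw hne hh => ?_⟩
  · have := h1 (w + l) (Fine_nr.2 hw)
    exact ⟨(hB l hl w).2 this.1, fun h5 => this.2 ((hA l hl w).1 h5)⟩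
  · have h5 := h2 i hi s
    have e : v + l + Pi.single i (sz s) = v + Pi.single i (sz s) + l := by abel
    rw [e, hg l hl, hg l hl] at h5
    exact h5
  · have h5 := h3 (w + l) (Fine_nr.2 hw) i hi (fun h6 => hne (by simpa using h6))
    have e : Function.update (w + l) i ((v + l) i) = Function.update w i (v i) + l := by
      funext j
      by_cases hj : j = i
      · subst hj
        simp
      · simp [Function.update_of_ne hj]
    rw [e, hg l hl, hg l hl] at h5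
    exact h5
  · have h5 := h4 (w + l) (Fine_nr.2 hw) (fun h6 => hne (by simpa using h6)) (fun i hi => by
      rw [Pi.add_apply, Pi.add_apply, hh i hi])
    rw [hg l hl, hg l hl] at h5
    exact h5

theorem Fine_nhds (y : ι → ℝ) {r : ℝ} (hr : 0 < r) : {x | Cl y r x} ∈ 𝓝 y := by
  rw [Metric.mem_nhds_iff]
  refine ⟨r, hr, fun x hx => ?_⟩
  intro i
  have h := (dist_le_pi_dist x y i).trans_lt (Metric.mem_ball.1 hx)
  rwa [Real.dist_eq] at h

theorem Fine_cl {y : ι → ℝ} {s : Set (ι → ℝ)} (hs : s ∈ 𝓝 y) : ∃ r > 0, ∀ x, Cl y r x → x ∈ s := by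
  rw [Metric.mem_nhds_iff] at hs
  obtain ⟨r, hr, h⟩ := hs
  refine ⟨r, hr, fun x hx => h ?_⟩
  rw [Metric.mem_ball, dist_pi_lt_iff hr]
  intro i
  rw [Real.dist_eq]
  exact hx i

theorem Fine_std {L : AddSubgroup (ι → ℤ)} {f : (ι → ℝ) → ℝ} (hf : PerL L f) {z c : ι → ℝ}
    (h : StdAt f z c) {l : ι → ℤ} (hl : l ∈ L) : StdAt f (z + rl l) c := by
  obtain ⟨h1, r, hr, h2⟩ := h
  refine ⟨h1, r, hr, fun y hy => ?_⟩
  have h3 := h2 (y - rl l) (fun i => by
    have := hy i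
    rw [Pi.add_apply] at this
    rw [Pi.sub_apply]
    have e : y i - rl l i - z i = y i - (z i + rl l i) := by ring
    rw [e]
    exact this)
  have h4 : f (y - rl l) = f y := by
    have := hf l hl (y - rl l)
    rw [sub_add_cancel] at this
    exact this.symm
  rw [h4] at h3
  rw [h3, hf l hl]
  congr 1
  refine Finset.sum_congr rfl fun i _ => ?_
  simp only [Pi.sub_apply, Pi.add_apply]
  ring

/-- the local statement -/
theorem Fine_local (L : AddSubgroup (ι → ℤ)) (q Q f f' : (ι → ℝ) → ℝ)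
    (R a α β : ℝ) (hD : Dm L q Q R a) (hf : ContDiff ℝ 1 f) (hf' : ContDiff ℝ 1 f')
    (hfp' : PerL L f') (hB : Bd q Q R a f)
    (hmod : ∀ y, q y ≤ R → -a ≤ Q y → (∀ᶠ x in 𝓝 y, f' x = f x) ∨
      (q y < R ∧ -a < Q y ∧ α < f y ∧ f y < β))
    (Z : Finset (ι → ℝ)) (c : (ι → ℝ) → ι → ℝ) (hZ : ∀ z ∈ Z, StdAt f' z (c z))
    (hcrit : ∀ y, q y < R → -a < Q y → α ≤ f y → f y ≤ β → fderiv ℝ f' y = 0 →
      α < f y ∧ f y < β ∧ ∃ z ∈ Z, ∃ l ∈ L, y = z + rl l) (y : ι → ℝ) :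
    ∃ r > 0, ∀ᶠ M : ℕ in atTop, ∀ v : ι → ℤ, Cl y r (ps (2 ^ M) v) →
      v ∈ Lv q Q f R a β (2 ^ M) → v ∉ Lv q Q f R a α (2 ^ M) →
      RegV (Lv q Q f R a α (2 ^ M)) (Lv q Q f R a β (2 ^ M)) (fun v => f' (ps (2 ^ M) v)) v ∨
      ∃ z ∈ Z, ∃ l ∈ L,
        CriV (Lv q Q f R a α (2 ^ M)) (Lv q Q f R a β (2 ^ M)) (fun v => f' (ps (2 ^ M) v)) v
          (spat (c z)) ∧ ∀ i, |(v i : ℝ) - 2 ^ M * (z + rl l) i| < 1 / 2 := by
  have hpow : Tendsto (fun M : ℕ => 2 ^ M) atTop atTop :=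
    tendsto_pow_atTop_atTop_of_one_lt one_lt_two
  -- reduction: a statement for all large meshes
  have key : (∃ r > 0, ∀ᶠ m : ℕ in atTop, ∀ v : ι → ℤ, Cl y r (ps m v) →
      v ∈ Lv q Q f R a β m → v ∉ Lv q Q f R a α m →
      RegV (Lv q Q f R a α m) (Lv q Q f R a β m) (fun v => f' (ps m v)) v) →
      ∃ r > 0, ∀ᶠ M : ℕ in atTop, ∀ v : ι → ℤ, Cl y r (ps (2 ^ M) v) →
      v ∈ Lv q Q f R a β (2 ^ M) → v ∉ Lv q Q f R a α (2 ^ M) →
      RegV (Lv q Q f R a α (2 ^ M)) (Lv q Q f R a β (2 ^ M)) (fun v => f' (ps (2 ^ M) v)) v ∨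
      ∃ z ∈ Z, ∃ l ∈ L,
        CriV (Lv q Q f R a α (2 ^ M)) (Lv q Q f R a β (2 ^ M)) (fun v => f' (ps (2 ^ M) v)) v
          (spat (c z)) ∧ ∀ i, |(v i : ℝ) - 2 ^ M * (z + rl l) i| < 1 / 2 := by
    rintro ⟨r, hr, h⟩
    refine ⟨r, hr, ?_⟩
    filter_upwards [hpow.eventually h] with M hM v h1 h2 h3
    exact Or.inl (hM v h1 h2 h3)
  -- points near which there is nothing between the levels
  have triv : (∀ᶠ x in 𝓝 y, ¬ (q x ≤ R ∧ (Q x ≤ -a ∨ f x ≤ β) ∧ ¬ (Q x ≤ -a ∨ f x ≤ α))) →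
      ∃ r > 0, ∀ᶠ m : ℕ in atTop, ∀ v : ι → ℤ, Cl y r (ps m v) →
      v ∈ Lv q Q f R a β m → v ∉ Lv q Q f R a α m →
      RegV (Lv q Q f R a α m) (Lv q Q f R a β m) (fun v => f' (ps m v)) v := by
    intro h
    obtain ⟨r, hr, h'⟩ := Fine_cl h
    refine ⟨r, hr, Eventually.of_forall fun m v h1 h2 h3 => ?_⟩
    exact absurd ⟨h2.1, h2.2, fun h4 => h3 ⟨h2.1, h4⟩⟩ (h' _ h1)
  have hqc : ContinuousAt q y := hD.q1.continuous.continuousAt
  have hQc : ContinuousAt Q y := hD.Q1.continuous.continuousAt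
  have hfc : ContinuousAt f y := hf.continuous.continuousAt
  by_cases h1 : q y ≤ R
  swap
  · apply key; apply triv
    filter_upwards [hqc.eventually (lt_mem_nhds (not_le.1 h1))] with x hx h
    exact absurd h.1 (not_le.2 hx)
  by_cases h2 : -a ≤ Q y
  swap
  · apply key; apply triv
    filter_upwards [hQc.eventually (gt_mem_nhds (not_le.1 h2))] with x hx h
    exact h.2.2 (Or.inl hx.le)
  by_cases h3 : q y = R ∨ Q y = -a
  · -- boundary
    have h4 : ∀ᶠ x in 𝓝 y, f' x = f x := by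
      rcases hmod y h1 h2 with h | h
      · exact h
      · rcases h3 with h3 | h3
        · exact absurd h.1 (by rw [h3]; exact lt_irrefl _)
        · exact absurd h.2.1 (by rw [h3]; exact lt_irrefl _)
    obtain ⟨i, s, h5, h6, h7⟩ := hB y h1 h2 h3
    exact key (fine_bd q Q f f' R a α β hD.q1 hD.Q1 hf y h4 i s h5 h6 h7)
  push Not at h3
  have h1' : q y < R := lt_of_le_of_ne h1 h3.1
  have h2' : -a < Q y := lt_of_le_of_ne h2 (Ne.symm h3.2)
  by_cases h4 : f y < α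
  · apply key; apply triv
    filter_upwards [hfc.eventually (gt_mem_nhds h4)] with x hx h
    exact h.2.2 (Or.inr hx.le)
  by_cases h5 : β < f y
  · apply key; apply triv
    filter_upwards [hfc.eventually (lt_mem_nhds h5), hQc.eventually (lt_mem_nhds h2')] with x hx hx' h
    rcases h.2.1 with h6 | h6
    · exact absurd h6 (not_le.2 hx')
    · exact absurd h6 (not_le.2 hx)
  rw [not_lt] at h4 h5
  by_cases h6 : fderiv ℝ f' y = 0
  · obtain ⟨h7, h8, z, hz, l, hl, rfl⟩ := hcrit y h1' h2' h4 h5 h6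
    obtain ⟨r, hr, h9⟩ := fine_std q Q f f' R a α β hD.q1 hD.Q1 hf (z + rl l) (c z) h1' h2' h7 h8
      (Fine_std hfp' (hZ z hz) hl)
    refine ⟨r, hr, ?_⟩
    filter_upwards [h9] with M hM v h10 _ _
    rcases hM v h10 with h11 | h11
    · exact Or.inl h11
    · exact Or.inr ⟨z, hz, l, hl, h11⟩
  · rcases hmod y h1 h2 with h | h
    · have h7 : fderiv ℝ f y ≠ 0 := by
        have : f' =ᶠ[𝓝 y] f := h
        rw [this.fderiv_eq] at h6
        exact h6
      exact key (fine_int q Q f f' R a α β hD.q1 hD.Q1 hf y h h1' h2' h7)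
    · exact key (fine_mid q Q f f' R a α β hD.q1 hD.Q1 hf hf' y h1' h2' h.2.2.1 h.2.2.2 h6)

/-- **Fine grids.** -/
theorem fine_grid (F : Type*) [Field F] (L : AddSubgroup (ι → ℤ)) (q Q f f' : (ι → ℝ) → ℝ)
    (R a α β : ℝ) (hD : Dm L q Q R a) (hf : ContDiff ℝ 1 f) (hf' : ContDiff ℝ 1 f')
    (hfp : PerL L f) (hfp' : PerL L f') (hαβ : α < β) (hB : Bd q Q R a f)
    -- `f' = f` except at points between the levels in the interior
    (hmod : ∀ y, q y ≤ R → -a ≤ Q y → (∀ᶠ x in 𝓝 y, f' x = f x) ∨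
      (q y < R ∧ -a < Q y ∧ α < f y ∧ f y < β))
    (Z : Finset (ι → ℝ)) (c : (ι → ℝ) → ι → ℝ) (hZ : ∀ z ∈ Z, StdAt f' z (c z))
    (hcrit : ∀ y, q y < R → -a < Q y → α ≤ f y → f y ≤ β → fderiv ℝ f' y = 0 →
      α < f y ∧ f y < β ∧ ∃ z ∈ Z, ∃ l ∈ L, y = z + rl l) :
    ∀ᶠ M : ℕ in atTop, ∀ j, HR F (lam L (2 ^ M)) (Lv q Q f R a β (2 ^ M))
      (Lv q Q f R a α (2 ^ M)) j (Z.filter fun z => neg (c z) = j).card := by
  classical
  obtain ⟨K, hK, hK'⟩ := hD.cpt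
  -- the compact set
  have hcov : ∀ᶠ M : ℕ in atTop, ∀ v : ι → ℤ, ps (2 ^ M) v ∈ K →
      v ∈ Lv q Q f R a β (2 ^ M) → v ∉ Lv q Q f R a α (2 ^ M) →
      RegV (Lv q Q f R a α (2 ^ M)) (Lv q Q f R a β (2 ^ M)) (fun v => f' (ps (2 ^ M) v)) v ∨
      ∃ z ∈ Z, ∃ l ∈ L,
        CriV (Lv q Q f R a α (2 ^ M)) (Lv q Q f R a β (2 ^ M)) (fun v => f' (ps (2 ^ M) v)) v
          (spat (c z)) ∧ ∀ i, |(v i : ℝ) - 2 ^ M * (z + rl l) i| < 1 / 2 := by
    refine hK.induction_on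
      (p := fun s => ∀ᶠ M : ℕ in atTop, ∀ v : ι → ℤ, ps (2 ^ M) v ∈ s →
      v ∈ Lv q Q f R a β (2 ^ M) → v ∉ Lv q Q f R a α (2 ^ M) →
      RegV (Lv q Q f R a α (2 ^ M)) (Lv q Q f R a β (2 ^ M)) (fun v => f' (ps (2 ^ M) v)) v ∨
      ∃ z ∈ Z, ∃ l ∈ L,
        CriV (Lv q Q f R a α (2 ^ M)) (Lv q Q f R a β (2 ^ M)) (fun v => f' (ps (2 ^ M) v)) v
          (spat (c z)) ∧ ∀ i, |(v i : ℝ) - 2 ^ M * (z + rl l) i| < 1 / 2) ?_ ?_ ?_ ?_
    · exact Eventually.of_forall fun M v hv => absurd hv (Set.notMem_empty _)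
    · intro s t hst ht
      filter_upwards [ht] with M hM v hv
      exact hM v (hst hv)
    · intro s t hs ht
      filter_upwards [hs, ht] with M hM hM' v hv
      rcases hv with hv | hv
      · exact hM v hv
      · exact hM' v hv
    · intro y _
      obtain ⟨r, hr, h⟩ := Fine_local L q Q f f' R a α β hD hf hf' hfp' hB hmod Z c hZ hcrit y
      exact ⟨{x | Cl y r x}, mem_nhdsWithin_of_mem_nhds (Fine_nhds y hr), h⟩
  -- rounding is injective on `Z` for large `M`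
  have hinj : ∀ᶠ M : ℕ in atTop,
      Set.InjOn (fun z : ι → ℝ => fun i => round ((2 : ℝ) ^ M * z i)) (Z : Set (ι → ℝ)) := by
    have h1 : ∀ z ∈ Z, ∀ z' ∈ Z, ∀ᶠ M : ℕ in atTop,
        (fun i => round ((2 : ℝ) ^ M * z i)) = (fun i => round ((2 : ℝ) ^ M * z' i)) → z = z' := by
      intro z _ z' _
      by_cases hzz : z = z'
      · exact Eventually.of_forall fun _ _ => hzz
      · obtain ⟨i, hi⟩ := Function.ne_iff.1 hzz
        have hpow : Tendsto (fun M : ℕ => (2 : ℝ) ^ M * |z i - z' i|) atTop atTop :=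
          (tendsto_pow_atTop_atTop_of_one_lt one_lt_two).atTop_mul_const (abs_pos.2 (sub_ne_zero.2 hi))
        filter_upwards [hpow.eventually_gt_atTop 1] with M hM h
        exfalso
        have h2 := congrFun h i
        have h3 := abs_sub_round ((2 : ℝ) ^ M * z i)
        have h4 := abs_sub_round ((2 : ℝ) ^ M * z' i)
        rw [h2] at h3
        have h5 : |(2 : ℝ) ^ M * z i - (2 : ℝ) ^ M * z' i| ≤ 1 := by
          have e : (2 : ℝ) ^ M * z i - (2 : ℝ) ^ M * z' i =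
            ((2 : ℝ) ^ M * z i - round ((2 : ℝ) ^ M * z' i)) -
              ((2 : ℝ) ^ M * z' i - round ((2 : ℝ) ^ M * z' i)) := by ring
          rw [e]
          refine (abs_sub _ _).trans ?_
          linarith
        rw [← mul_sub, abs_mul, abs_of_pos (by positivity : (0 : ℝ) < 2 ^ M)] at h5
        linarith
    have h2 : ∀ᶠ M : ℕ in atTop, ∀ z ∈ Z, ∀ z' ∈ Z,
        (fun i => round ((2 : ℝ) ^ M * z i)) = (fun i => round ((2 : ℝ) ^ M * z' i)) → z = z' := by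
      rw [Filter.eventually_all_finset]
      intro z hz
      rw [Filter.eventually_all_finset]
      intro z' hz'
      exact h1 z hz z' hz'
    filter_upwards [h2] with M hM z hz z' hz' h
    exact hM z hz z' hz' h
  filter_upwards [hcov, hinj, eventually_ge_atTop 1] with M hM hinjM hM1 j
  have h2M : 2 ≤ 2 ^ M := by
    calc 2 = 2 ^ 1 := by norm_num
      _ ≤ 2 ^ M := Nat.pow_le_pow_right (by norm_num) hM1
  have h0M : 0 < 2 ^ M := by omega
  have hAi := Lv_inv hD.qp hD.Qp hfp R a α h0M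
  have hBi := Lv_inv hD.qp hD.Qp hfp R a β h0M
  have hg : ∀ l ∈ lam L (2 ^ M), ∀ v, f' (ps (2 ^ M) (v + l)) = f' (ps (2 ^ M) v) :=
    fun l hl v => Fine_inv hfp' h0M hl v
  set rd : (ι → ℝ) → (ι → ℤ) := fun z => fun i => round ((2 : ℝ) ^ M * z i) with hrd
  set iv : (ι → ℤ) → (ι → ℝ) := Function.invFunOn rd (Z : Set (ι → ℝ)) with hiv
  have hiv' : ∀ z ∈ Z, iv (rd z) = z := fun z hz => hinjM.leftInvOn_invFunOn hz
  have hmain := band_HR (F := F) (lam L (2 ^ M)) (lam_wide L h2M) (Lv q Q f R a α (2 ^ M))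
    (Lv q Q f R a β (2 ^ M)) (Lv_mono q Q f R a hαβ.le (2 ^ M)) hAi hBi (by
      obtain ⟨D, hDD⟩ := hD.finMod h0M
      refine ⟨D, fun v hv hv' => hDD v hv.1 fun h => hv' ⟨h.1, Or.inl h.2⟩⟩)
    (fun v => f' (ps (2 ^ M) v)) hg (Z.image rd) (fun w => spat (c (iv w))) (by
      intro v hv hv'
      have h1 : q (ps (2 ^ M) v) ≤ R := hv.1
      have h2 : -a ≤ Q (ps (2 ^ M) v) := by
        by_contra h3
        exact hv' ⟨h1, Or.inl (not_le.1 h3).le⟩
      obtain ⟨l, hl, hlK⟩ := hK' _ h1 h2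
      have hll : ((2 ^ M : ℕ) : ℤ) • l ∈ lam L (2 ^ M) := ⟨l, hl, rfl⟩
      rw [← Fine_ps_add h0M] at hlK
      rcases hM (v + ((2 ^ M : ℕ) : ℤ) • l) hlK ((hBi _ hll v).1 hv)
        (fun h => hv' ((hAi _ hll v).2 h)) with h | ⟨z, hz, l', hl', hcr, hcl⟩
      · exact Or.inl (Fine_regV hAi hBi hg hll h)
      · refine Or.inr ⟨rd z, Finset.mem_image_of_mem _ hz, ?_, ?_⟩
        · have e : v - rd z = ((2 ^ M : ℕ) : ℤ) • (l' - l) := by
            funext i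
            have h3 := hcl i
            have h4 : round ((2 : ℝ) ^ M * z i) =
                v i + ((2 ^ M : ℕ) : ℤ) * l i - ((2 ^ M : ℕ) : ℤ) * l' i := by
              rw [round_eq_iff]
              rw [abs_lt] at h3
              simp only [Pi.add_apply, Pi.smul_apply, smul_eq_mul, rl] at h3
              push_cast at h3 ⊢
              constructor <;> nlinarith [h3.1, h3.2]
            simp only [hrd, Pi.sub_apply, Pi.smul_apply, smul_eq_mul]
            rw [h4]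
            ring
          rw [e]
          exact ⟨l' - l, L.sub_mem hl' hl, rfl⟩
        · rw [hiv' z hz]
          exact Fine_criV hAi hBi hg hll hcr) j
  have hcard : ((Z.image rd).filter fun w => nm (spat (c (iv w))) = j).card =
      (Z.filter fun z => neg (c z) = j).card := by
    have e : (Z.image rd).filter (fun w => nm (spat (c (iv w))) = j) =
        (Z.filter fun z => neg (c z) = j).image rd := by
      ext w
      simp only [Finset.mem_filter, Finset.mem_image]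
      constructor
      · rintro ⟨⟨z, hz, rfl⟩, h⟩
        rw [hiv' z hz, nm_spat (c z) (hZ z hz).1] at h
        exact ⟨z, ⟨hz, h⟩, rfl⟩
      · rintro ⟨z, ⟨hz, h⟩, rfl⟩
        refine ⟨⟨z, hz, rfl⟩, ?_⟩
        rw [hiv' z hz, nm_spat (c z) (hZ z hz).1]
        exact h
    rw [e, Finset.card_image_of_injOn]
    exact hinjM.mono (by
      intro z hz
      exact Finset.mem_coe.2 (Finset.mem_filter.1 (Finset.mem_coe.1 hz)).1)
  rw [← hcard]
  exact hmain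

end Pool.Agent.H47.ST
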