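import Pool.Agent.H47.ST.LMod
import Pool.Agent.H47.ST.Fine

/-!
# Bands of a `C^2` function
-/

set_option autoImplicit false

namespace Pool.Agent.H47.ST

open Filter Topology QuadraticForm
open Pool.Agent.H47.QG (sg neg hess LD)

variable {ι : Type*} [Fintype ι] [DecidableEq ι]

/-- The data of a band: `Z` are representatives of the critical points with values in
`[α, β]`; all of them are interior with values in `(α, β)`. -/
structure Band (L : AddSubgroup (ι → ℤ)) (q Q f : (ι → ℝ) → ℝ) (R a α β : ℝ)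
    (Z : Finset (ι → ℝ)) : Prop where
  dm : Dm L q Q R a
  smooth : ContDiff ℝ 2 f
  per : PerL L f
  bd : Bd q Q R a f
  lt : α < β
  mem : ∀ z ∈ Z, fderiv ℝ f z = 0 ∧ q z < R ∧ -a < Q z ∧ α < f z ∧ f z < β
  inj : ∀ z ∈ Z, ∀ z' ∈ Z, ∀ l ∈ L, z' = z + rl l → z' = z
  crit : ∀ y, q y ≤ R → -a ≤ Q y → α ≤ f y → f y ≤ β → fderiv ℝ f y = 0 →
    ∃ z ∈ Z, ∃ l ∈ L, y = z + rl l

omit [Fintype ι] [DecidableEq ι] in
theorem Win_rl_zero : rl (0 : ι → ℤ) = 0 := by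
  funext i
  simp [rl]

/-- small radii -/
theorem Win_rad {L : AddSubgroup (ι → ℤ)} {q Q f : (ι → ℝ) → ℝ} {R a α β : ℝ}
    {Z : Finset (ι → ℝ)} (h : Band L q Q f R a α β Z) :
    ∃ r > 0, Disj L Z r ∧ ∀ z ∈ Z, ∀ y ∈ Metric.closedBall z r,
      q y < R ∧ -a < Q y ∧ α < f y ∧ f y < β := by
  have h1 := Disj_small L Z h.inj
  have h2 : ∀ z ∈ Z, ∀ᶠ r in 𝓝[>] (0 : ℝ), ∀ y ∈ Metric.closedBall z r,
      q y < R ∧ -a < Q y ∧ α < f y ∧ f y < β := by
    intro z hz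
    obtain ⟨_, hq, hQ, hα, hβ⟩ := h.mem z hz
    have e1 : ∀ᶠ y in 𝓝 z, q y < R := h.dm.q1.continuous.continuousAt.eventually_lt_const hq
    have e2 : ∀ᶠ y in 𝓝 z, -a < Q y := h.dm.Q1.continuous.continuousAt.eventually_const_lt hQ
    have e3 : ∀ᶠ y in 𝓝 z, α < f y := h.smooth.continuous.continuousAt.eventually_const_lt hα
    have e4 : ∀ᶠ y in 𝓝 z, f y < β := h.smooth.continuous.continuousAt.eventually_lt_const hβ
    obtain ⟨ε, hε, hε'⟩ := Metric.nhds_basis_closedBall.eventually_iff.1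
      (e1.and (e2.and (e3.and e4)))
    filter_upwards [Ioo_mem_nhdsGT hε] with r hr y hy
    exact hε' (Metric.closedBall_subset_closedBall hr.2.le hy)
  have h3 : ∀ᶠ r in 𝓝[>] (0 : ℝ), ∀ z ∈ Z, ∀ y ∈ Metric.closedBall z r,
      q y < R ∧ -a < Q y ∧ α < f y ∧ f y < β := (Filter.eventually_all_finset Z).2 h2
  obtain ⟨r, ⟨hr1, hr2⟩, hr3⟩ := ((h1.and h3).and self_mem_nhdsWithin).exists
  exact ⟨r, hr3, hr1, hr2⟩

theorem Win_unique {L : AddSubgroup (ι → ℤ)} {q Q f : (ι → ℝ) → ℝ} {R a α β : ℝ}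
    {Z : Finset (ι → ℝ)} (h : Band L q Q f R a α β Z) {r : ℝ} (hr : 0 < r) (hd : Disj L Z r)
    (hin : ∀ z ∈ Z, ∀ y ∈ Metric.closedBall z r, q y < R ∧ -a < Q y ∧ α < f y ∧ f y < β)
    (z : ι → ℝ) (hz : z ∈ Z) (x : ι → ℝ) (hx : x ∈ Metric.closedBall z r)
    (hx0 : fderiv ℝ f x = 0) : x = z := by
  obtain ⟨e1, e2, e3, e4⟩ := hin z hz x hx
  obtain ⟨z', hz', l, hl, hxl⟩ := h.crit x e1.le e2.le e3.le e4.le hx0
  obtain ⟨e5, e6⟩ := hd z' hz' z hz l hl x (by rw [hxl]; exact Metric.mem_closedBall_self hr.le) hx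
  rw [hxl, e5, e6, Win_rl_zero, add_zero]

omit [Fintype ι] [DecidableEq ι] in
theorem Win_shift {L : AddSubgroup (ι → ℤ)} {f : (ι → ℝ) → ℝ} (hf : PerL L f) {l : ι → ℤ}
    (hl : l ∈ L) (y : ι → ℝ) : f (y - rl l) = f y := by
  have := hf l hl (y - rl l)
  rw [sub_add_cancel] at this
  exact this.symm

omit [DecidableEq ι] in
theorem Win_sub_mem {y z v : ι → ℝ} {r : ℝ} (hy : y ∈ Metric.closedBall (z + v) r) :
    y - v ∈ Metric.closedBall z r := by
  rw [Metric.mem_closedBall] at hy ⊢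
  rwa [dist_eq_norm, show y - v - z = y - (z + v) by abel, ← dist_eq_norm]

/-- the band theorem for given local perturbations -/
theorem Win_core (F : Type*) [Field F] {L : AddSubgroup (ι → ℤ)} {q Q f : (ι → ℝ) → ℝ}
    {R a α β : ℝ} {Z : Finset (ι → ℝ)} (h : Band L q Q f R a α β Z) {r : ℝ} (hr : 0 < r)
    (hd : Disj L Z r)
    (hin : ∀ z ∈ Z, ∀ y ∈ Metric.closedBall z r, q y < R ∧ -a < Q y ∧ α < f y ∧ f y < β)
    (g : (ι → ℝ) → (ι → ℝ) → ℝ) (X : (ι → ℝ) → Finset (ι → ℝ))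
    (hLD : ∀ z ∈ Z, LD f z r (g z) (X z)) :
    ∀ᶠ M : ℕ in atTop, ∀ j, HR F (lam L (2 ^ M)) (Lv q Q f R a β (2 ^ M))
        (Lv q Q f R a α (2 ^ M)) j
        (∑ z ∈ Z, ((X z).filter fun x => sigNeg (hess (g z) x) = j).card) := by
  have hex : ∀ z ∈ Z, ∃ (k : (ι → ℝ) → ℝ) (c : (ι → ℝ) → ι → ℝ), ContDiff ℝ 1 k ∧
      (∀ y, y ∉ Metric.closedBall z (r / 2) → k y = f y) ∧
      (∀ y ∈ Metric.closedBall z r, fderiv ℝ k y = 0 ↔ y ∈ X z) ∧
      ∀ x ∈ X z, StdAt k x (c x) ∧ neg (c x) = sigNeg (hess (g z) x) := fun z hz =>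
    LD_std f h.smooth z r hr (g z) (X z) (hLD z hz)
  choose! k c hk1 hk2 hk3 hk4 using hex
  have hf1 : ContDiff ℝ 1 f := h.smooth.of_le (by norm_num)
  obtain ⟨f', hf'1, hf'p, hfar, hnear⟩ := glue L 1 f hf1 h.per Z r hr hd k hk1 hk2
  have hnear0 : ∀ z ∈ Z, ∀ y ∈ Metric.ball z r, f' y = k z y := by
    intro z hz y hy
    have := hnear z hz 0 L.zero_mem y (by rwa [Win_rl_zero, add_zero])
    rwa [Win_rl_zero, sub_zero] at this
  have hXb : ∀ z ∈ Z, ∀ x ∈ X z, x ∈ Metric.ball z (r / 2) := fun z hz x hx => (hLD z hz).mem x hx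
  have huniq : ∀ z ∈ Z, ∀ z' ∈ Z, ∀ x, x ∈ X z → x ∈ X z' → z = z' := by
    intro z hz z' hz' x hx hx'
    refine (hd z hz z' hz' 0 L.zero_mem x ?_ ?_).1
    · rw [Win_rl_zero, add_zero]
      exact Metric.ball_subset_closedBall (Metric.ball_subset_ball (by linarith) (hXb z hz x hx))
    · exact Metric.ball_subset_closedBall (Metric.ball_subset_ball (by linarith) (hXb z' hz' x hx'))
  have hζ : ∀ x ∈ Z.biUnion X, ∃ z ∈ Z, x ∈ X z := fun x hx => Finset.mem_biUnion.1 hx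
  choose! ζ hζ1 hζ2 using hζ
  have hζ3 : ∀ z ∈ Z, ∀ x ∈ X z, ζ x = z := by
    intro z hz x hx
    have hx' : x ∈ Z.biUnion X := Finset.mem_biUnion.2 ⟨z, hz, hx⟩
    exact huniq _ (hζ1 x hx') z hz x (hζ2 x hx') hx
  -- between the levels near the points
  have hmid : ∀ z ∈ Z, ∀ l ∈ L, ∀ y ∈ Metric.closedBall (z + rl l) (r / 2),
      q y < R ∧ -a < Q y ∧ α < f y ∧ f y < β := by
    intro z hz l hl y hy
    have h1 := hin z hz (y - rl l)
      (Metric.closedBall_subset_closedBall (by linarith) (Win_sub_mem hy))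
    rwa [Win_shift h.dm.qp hl, Win_shift h.dm.Qp hl, Win_shift h.per hl] at h1
  have hmain := fine_grid F L q Q f f' R a α β h.dm hf1 hf'1 h.per hf'p h.lt h.bd
    (by
      intro y _ _
      by_cases hy : ∃ z ∈ Z, ∃ l ∈ L, y ∈ Metric.closedBall (z + rl l) (r / 2)
      · obtain ⟨z, hz, l, hl, hy'⟩ := hy
        exact Or.inr (hmid z hz l hl y hy')
      · push Not at hy
        exact Or.inl (hfar y hy))
    (Z.biUnion X) (fun x => c (ζ x) x)
    (by
      intro x hx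
      have hz := hζ1 x hx
      obtain ⟨⟨hc, ρ, hρ, hstd⟩, _⟩ := hk4 _ hz x (hζ2 x hx)
      have hxb := hXb _ hz x (hζ2 x hx)
      refine ⟨hc, min ρ (r / 2), lt_min hρ (half_pos hr), ?_⟩
      intro y hy
      have h1 : ∀ i, |y i - x i| < ρ := fun i => lt_of_lt_of_le (hy i) (min_le_left _ _)
      have h2 : dist y x < r / 2 := by
        rw [dist_pi_lt_iff (half_pos hr)]
        intro i
        rw [Real.dist_eq]
        exact lt_of_lt_of_le (hy i) (min_le_right _ _)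
      have h3 : y ∈ Metric.ball (ζ x) r := by
        rw [Metric.mem_ball] at hxb ⊢
        have := dist_triangle y x (ζ x)
        linarith
      rw [hnear0 _ hz y h3, hnear0 _ hz x (Metric.ball_subset_ball (by linarith) hxb)]
      exact hstd y h1)
    (by
      intro y hqy hQy hα hβ hy0
      by_cases hy : ∃ z ∈ Z, ∃ l ∈ L, y ∈ Metric.closedBall (z + rl l) (r / 2)
      · obtain ⟨z, hz, l, hl, hy'⟩ := hy
        obtain ⟨_, _, e3, e4⟩ := hmid z hz l hl y hy'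
        refine ⟨e3, e4, y - rl l, ?_, l, hl, by rw [sub_add_cancel]⟩
        have hyb : y ∈ Metric.ball (z + rl l) r :=
          Metric.closedBall_subset_ball (by linarith) hy'
        have h1 : f' =ᶠ[𝓝 y] fun x => k z (x - rl l) := by
          filter_upwards [Metric.isOpen_ball.mem_nhds hyb] with x hx
          exact hnear z hz l hl x hx
        have h2 : fderiv ℝ (k z) (y - rl l) = 0 := by
          rw [← fderiv_comp_sub, ← h1.fderiv_eq, hy0]
        have h3 := (hk3 z hz (y - rl l)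
          (Metric.closedBall_subset_closedBall (by linarith) (Win_sub_mem hy'))).1 h2
        exact Finset.mem_biUnion.2 ⟨z, hz, h3⟩
      · exfalso
        push Not at hy
        have h1 : f' =ᶠ[𝓝 y] f := hfar y hy
        have h2 : fderiv ℝ f y = 0 := by rw [← h1.fderiv_eq, hy0]
        obtain ⟨z, hz, l, hl, hyl⟩ := h.crit y hqy.le hQy.le hα hβ h2
        exact hy z hz l hl (by rw [hyl]; exact Metric.mem_closedBall_self (half_pos hr).le))
  filter_upwards [hmain] with M hM j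
  have hcard : ((Z.biUnion X).filter fun z => neg (c (ζ z) z) = j).card =
      ∑ z ∈ Z, ((X z).filter fun x => sigNeg (hess (g z) x) = j).card := by
    rw [Finset.filter_biUnion, Finset.card_biUnion]
    · refine Finset.sum_congr rfl fun z hz => ?_
      congr 1
      refine Finset.filter_congr fun x hx => ?_
      rw [hζ3 z hz x hx, (hk4 z hz x hx).2]
    · intro z hz z' hz' hne
      rw [Function.onFun, Finset.disjoint_left]
      intro x hx hx'
      exact hne (huniq z hz z' hz' x (Finset.mem_filter.1 hx).1 (Finset.mem_filter.1 hx').1)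
  rw [← hcard]
  exact hM j

/-- **Bands.** `P z X` is any property of the critical points of the perturbations. -/
theorem window (F : Type*) [Field F] {L : AddSubgroup (ι → ℤ)} {q Q f : (ι → ℝ) → ℝ}
    {R a α β : ℝ} {Z : Finset (ι → ℝ)} (h : Band L q Q f R a α β Z)
    (P : (ι → ℝ) → Finset (ι → ℝ) → Prop)
    (hP : ∀ z ∈ Z, ∀ r > 0, (∀ x ∈ Metric.closedBall z r, fderiv ℝ f x = 0 → x = z) →
      ∃ (g : (ι → ℝ) → ℝ) (X : Finset (ι → ℝ)), LD f z r g X ∧ P z X) :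
    ∃ (g : (ι → ℝ) → (ι → ℝ) → ℝ) (X : (ι → ℝ) → Finset (ι → ℝ)) (r : ℝ),
      (∀ z ∈ Z, LD f z r (g z) (X z) ∧ P z (X z)) ∧
      ∀ᶠ M : ℕ in atTop, ∀ j, HR F (lam L (2 ^ M)) (Lv q Q f R a β (2 ^ M))
        (Lv q Q f R a α (2 ^ M)) j
        (∑ z ∈ Z, ((X z).filter fun x => sigNeg (hess (g z) x) = j).card) := by
  obtain ⟨r, hr, hd, hin⟩ := Win_rad h
  have hex : ∀ z ∈ Z, ∃ (g : (ι → ℝ) → ℝ) (X : Finset (ι → ℝ)), LD f z r g X ∧ P z X :=
    fun z hz => hP z hz r hr (Win_unique h hr hd hin z hz)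
  choose! g X hg using hex
  exact ⟨g, X, r, hg, Win_core F h hr hd hin g X fun z hz => (hg z hz).1⟩

/-- no cohomology outside the windows -/
theorem window_out (F : Type*) [Field F] {L : AddSubgroup (ι → ℤ)} {q Q f : (ι → ℝ) → ℝ}
    {R a α β : ℝ} {Z : Finset (ι → ℝ)} (h : Band L q Q f R a α β Z) :
    ∀ᶠ M : ℕ in atTop, ∀ j,
      (∀ z ∈ Z, ¬ (sigNeg (hess f z) ≤ j ∧ j + sigPos (hess f z) ≤ Fintype.card ι)) →
      HR F (lam L (2 ^ M)) (Lv q Q f R a β (2 ^ M)) (Lv q Q f R a α (2 ^ M)) j 0 := by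
  obtain ⟨g, X, r, hg, hM⟩ := window F h (fun _ _ => True) (fun z _ r hr hz => by
    obtain ⟨g, X, hgX⟩ := QG.perturb f h.smooth z r hr hz
    exact ⟨g, X, hgX, trivial⟩)
  filter_upwards [hM] with M hM' j hj
  have h1 : ∑ z ∈ Z, ((X z).filter fun x => sigNeg (hess (g z) x) = j).card = 0 := by
    refine Finset.sum_eq_zero fun z hz => ?_
    rw [Finset.card_eq_zero, Finset.filter_eq_empty_iff]
    intro x hx hxj
    apply hj z hz
    rw [← hxj]
    exact ⟨(hg z hz).1.lo x hx, (hg z hz).1.hi x hx⟩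
  have h2 := hM' j
  rwa [h1] at h2

/-- total rank -/
theorem window_count (F : Type*) [Field F] {L : AddSubgroup (ι → ℤ)} {q Q f : (ι → ℝ) → ℝ}
    {R a α β : ℝ} {Z : Finset (ι → ℝ)} (h : Band L q Q f R a α β Z) (m : (ι → ℝ) → ℕ)
    (hm : ∀ z ∈ Z, ∀ r > 0, (∀ x ∈ Metric.closedBall z r, fderiv ℝ f x = 0 → x = z) →
      ∃ (g : (ι → ℝ) → ℝ) (X : Finset (ι → ℝ)), LD f z r g X ∧ X.card ≤ m z) :
    ∀ᶠ M : ℕ in atTop, ∃ w : ℕ → ℕ, (∀ j, HR F (lam L (2 ^ M)) (Lv q Q f R a β (2 ^ M))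
        (Lv q Q f R a α (2 ^ M)) j (w j)) ∧
      ∀ J, ∑ j ∈ Finset.range J, w j ≤ ∑ z ∈ Z, m z := by
  obtain ⟨g, X, r, hg, hM⟩ := window F h (fun z X => X.card ≤ m z) hm
  filter_upwards [hM] with M hM'
  refine ⟨fun j => ∑ z ∈ Z, ((X z).filter fun x => sigNeg (hess (g z) x) = j).card, hM', ?_⟩
  intro J
  rw [Finset.sum_comm]
  refine Finset.sum_le_sum fun z hz => ?_
  rw [Finset.sum_card_fiberwise_eq_card_filter]
  exact (Finset.card_filter_le _ _).trans (hg z hz).2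

end Pool.Agent.H47.ST
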