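import Pool.Agent.H47.ST.RK

/-!
# Elementary properties of `RK`
-/

set_option autoImplicit false

namespace Pool.Agent.H47.ST

variable {F E : Type*} [Field F] [AddCommGroup E] [Module F E]

/-- padding a linear map to `F ^ m` by zeros -/
theorem RKa_pad {m r : ℕ} (hmr : m ≤ r) (ℓ : E →ₗ[F] (Fin m → F)) :
    ∃ ℓ' : E →ₗ[F] (Fin r → F), ∀ x, ℓ' x = 0 → ℓ x = 0 := by
  refine ⟨LinearMap.pi fun i => if h : i.1 < m then (LinearMap.proj ⟨i.1, h⟩).comp ℓ else 0,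
    fun x hx => ?_⟩
  ext j
  have h := congrFun hx ⟨j.1, j.2.trans_le hmr⟩
  simpa using h

/-- the functional may take its values in any space of dimension at most `r` -/
theorem RKa_fin {d₁ d₂ : E →ₗ[F] E} {B0 B1 A1 A2 : Submodule F E} {r : ℕ} {G : Type*}
    [AddCommGroup G] [Module F G] [FiniteDimensional F G] (hr : Module.finrank F G ≤ r)
    (ℓ : E →ₗ[F] G)
    (h : ∀ x ∈ B1, d₂ x ∈ A2 → ℓ x = 0 → ∃ y ∈ B0, x - d₁ y ∈ A1) :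
    RK d₁ d₂ B0 B1 A1 A2 r := by
  obtain ⟨ℓ', hℓ'⟩ := RKa_pad hr ((Module.finBasis F G).equivFun.toLinearMap.comp ℓ)
  refine ⟨ℓ', fun x hx hx2 h0 => h x hx hx2 ?_⟩
  have h1 := hℓ' x h0
  rw [LinearMap.comp_apply] at h1
  exact (LinearEquiv.map_eq_zero_iff _).1 h1

/-- linear choice of a solution -/
theorem RKa_lift (Z C B : Submodule F E) (e d : E →ₗ[F] E)
    (h : ∀ x ∈ Z, ∃ y ∈ C, e x - d y ∈ B) :
    ∃ s : E →ₗ[F] E, ∀ x ∈ Z, s x ∈ C ∧ e x - d (s x) ∈ B := by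
  set P : Submodule F (E × E) := (Z.comap (LinearMap.fst F E E) ⊓ C.comap (LinearMap.snd F E E)) ⊓
    B.comap (e.comp (LinearMap.fst F E E) - d.comp (LinearMap.snd F E E)) with hP
  have hPm : ∀ p : E × E, p ∈ P ↔ (p.1 ∈ Z ∧ p.2 ∈ C) ∧ e p.1 - d p.2 ∈ B := by
    intro p
    simp [hP, Submodule.mem_inf, Submodule.mem_comap]
  set π : P →ₗ[F] Z := ((LinearMap.fst F E E).comp P.subtype).codRestrict Z
    (fun p => ((hPm p.1).1 p.2).1.1) with hπ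
  have hsur : Function.Surjective π := by
    rintro ⟨x, hx⟩
    obtain ⟨y, hy, hxy⟩ := h x hx
    exact ⟨⟨(x, y), (hPm _).2 ⟨⟨hx, hy⟩, hxy⟩⟩, rfl⟩
  obtain ⟨t, ht⟩ := LinearMap.exists_rightInverse_of_surjective π (LinearMap.range_eq_top.2 hsur)
  obtain ⟨s, hs⟩ := LinearMap.exists_extend
    (((LinearMap.snd F E E).comp P.subtype).comp t)
  refine ⟨s, fun x hx => ?_⟩
  have h1 : s x = (t ⟨x, hx⟩ : E × E).2 := by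
    have := LinearMap.congr_fun hs ⟨x, hx⟩
    simpa using this
  have h2 : (t ⟨x, hx⟩ : E × E).1 = x := by
    have := LinearMap.congr_fun ht ⟨x, hx⟩
    exact congrArg Subtype.val this
  have h3 := (hPm _).1 (t ⟨x, hx⟩).2
  rw [h1]
  refine ⟨h3.1.2, ?_⟩
  have h4 := h3.2
  rwa [h2] at h4

theorem RK.mono_r {d₁ d₂ : E →ₗ[F] E} {B0 B1 A1 A2 : Submodule F E} {r r' : ℕ}
    (h : RK d₁ d₂ B0 B1 A1 A2 r) (hr : r ≤ r') : RK d₁ d₂ B0 B1 A1 A2 r' := by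
  obtain ⟨ℓ, h⟩ := h
  obtain ⟨ℓ', hℓ'⟩ := RKa_pad hr ℓ
  exact ⟨ℓ', fun x hx hx2 h0 => h x hx hx2 (hℓ' x h0)⟩

/-- rank zero -/
theorem RK_zero {d₁ d₂ : E →ₗ[F] E} {B0 B1 A1 A2 : Submodule F E} :
    RK d₁ d₂ B0 B1 A1 A2 0 ↔ ∀ x ∈ B1, d₂ x ∈ A2 → ∃ y ∈ B0, x - d₁ y ∈ A1 := by
  constructor
  · rintro ⟨ℓ, h⟩ x hx hx2
    exact h x hx hx2 (Subsingleton.elim _ _)
  · intro h
    exact ⟨0, fun x hx hx2 _ => h x hx hx2⟩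

/-- the functional may be defined on the relative cocycles only, with values in any space of
dimension at most `r` -/
theorem RK_of {d₁ d₂ : E →ₗ[F] E} {B0 B1 A1 A2 : Submodule F E} {r : ℕ} {G : Type*}
    [AddCommGroup G] [Module F G] [FiniteDimensional F G] (hr : Module.finrank F G ≤ r)
    (Z : Submodule F E) (hZ : ∀ x ∈ B1, d₂ x ∈ A2 → x ∈ Z) (ℓ : Z →ₗ[F] G)
    (h : ∀ x (hx : x ∈ Z), x ∈ B1 → d₂ x ∈ A2 → ℓ ⟨x, hx⟩ = 0 → ∃ y ∈ B0, x - d₁ y ∈ A1) :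
    RK d₁ d₂ B0 B1 A1 A2 r := by
  obtain ⟨g, hg⟩ := LinearMap.exists_extend ℓ
  refine RKa_fin hr g fun x hx hx2 h0 => ?_
  refine h x (hZ x hx hx2) hx hx2 ?_
  rw [← hg]
  exact h0

/-- **Transitivity.** -/
theorem RK.trans {d₁ d₂ : E →ₗ[F] E} {C0 C1 B0 B1 B2 A1 A2 : Submodule F E} {r s : ℕ}
    (h1 : RK d₁ d₂ C0 C1 B1 B2 r) (h2 : RK d₁ d₂ B0 B1 A1 A2 s) (hA : A2 ≤ B2) (hB : B0 ≤ C0)
    (hd : ∀ y ∈ C0, d₂ (d₁ y) ∈ A2) : RK d₁ d₂ C0 C1 A1 A2 (r + s) := by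
  obtain ⟨ℓ1, h1⟩ := h1
  obtain ⟨ℓ2, h2⟩ := h2
  obtain ⟨σ, hσ⟩ := RKa_lift ((C1 ⊓ A2.comap d₂) ⊓ LinearMap.ker ℓ1) C0 B1 LinearMap.id d₁
    (fun x hx => h1 x hx.1.1 (hA hx.1.2) hx.2)
  refine RKa_fin (G := (Fin r → F) × (Fin s → F)) ?_
    (ℓ1.prod (ℓ2.comp (LinearMap.id - d₁.comp σ))) fun x hx hx2 h0 => ?_
  · simp
  · have h01 : ℓ1 x = 0 := congrArg Prod.fst h0
    have h02 : ℓ2 (x - d₁ (σ x)) = 0 := congrArg Prod.snd h0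
    obtain ⟨hs1, hs2⟩ := hσ x ⟨⟨hx, hx2⟩, h01⟩
    have hs3 : x - d₁ (σ x) ∈ B1 := hs2
    have hs4 : d₂ (x - d₁ (σ x)) ∈ A2 := by
      rw [map_sub]
      exact A2.sub_mem hx2 (hd _ hs1)
    obtain ⟨y, hy, hxy⟩ := h2 _ hs3 hs4 h02
    refine ⟨σ x + y, C0.add_mem hs1 (hB hy), ?_⟩
    rw [map_add, ← sub_sub]
    exact hxy

/-- Dividing by an exact subcomplex, three-term form: `d₀` precedes `d₁`. -/
theorem RK.quot {d₁ d₂ d₃ : E →ₗ[F] E} {C0 C1 B1 B2 A1 A2 A3 : Submodule F E} {r : ℕ}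
    (h1 : RK d₂ d₃ B1 B2 A2 A3 0) (h2 : RK d₁ d₂ C0 C1 A1 A2 r) (hd : ∀ x ∈ C1, d₃ (d₂ x) ∈ A3)
    (hBC : B1 ≤ C1) (hAB : A1 ≤ B1) : RK d₁ d₂ C0 C1 B1 B2 r := by
  rw [RK_zero] at h1
  obtain ⟨ℓ, h2⟩ := h2
  obtain ⟨σ, hσ⟩ := RKa_lift (C1 ⊓ B2.comap d₂) B1 A2 d₂ d₂
    (fun x hx => h1 (d₂ x) hx.2 (hd x hx.1))
  refine ⟨ℓ.comp (LinearMap.id - σ), fun x hx hx2 h0 => ?_⟩
  obtain ⟨hs1, hs2⟩ := hσ x ⟨hx, hx2⟩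
  have h3 : ℓ (x - σ x) = 0 := h0
  obtain ⟨y, hy, hxy⟩ := h2 (x - σ x) (C1.sub_mem hx (hBC hs1)) (by rwa [map_sub]) h3
  refine ⟨y, hy, ?_⟩
  have h4 := B1.add_mem (hAB hxy) hs1
  rwa [sub_right_comm, sub_add_cancel] at h4

/-- Passing to a subcomplex with exact quotient. -/
theorem RK.sub {d₀ d₁ d₂ : E →ₗ[F] E} {C₀ C0 C1 B0 B1 A1 A2 : Submodule F E} {r : ℕ}
    (h1 : RK d₀ d₁ C₀ C0 B0 B1 0) (h2 : RK d₁ d₂ C0 C1 A1 A2 r) (hB : B1 ≤ C1) (hA : A1 ≤ B1)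
    (hd : ∀ y ∈ C₀, d₁ (d₀ y) = 0) : RK d₁ d₂ B0 B1 A1 A2 r := by
  rw [RK_zero] at h1
  obtain ⟨ℓ, h2⟩ := h2
  refine ⟨ℓ, fun x hx hx2 h0 => ?_⟩
  obtain ⟨y, hy, hxy⟩ := h2 x (hB hx) hx2 h0
  have h3 : d₁ y ∈ B1 := by
    have := B1.sub_mem hx (hA hxy)
    rwa [sub_sub_cancel] at this
  obtain ⟨z, hz, hyz⟩ := h1 y hy h3
  refine ⟨y - d₀ z, hyz, ?_⟩
  rw [map_sub, hd z hz, sub_zero]
  exact hxy

end Pool.Agent.H47.ST
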