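import Pool.Agent.H47.ST.Cell
import Pool.Agent.H47.ST.RKa

/-!
# Basic properties of the cochain spaces
-/

set_option autoImplicit false

namespace Pool.Agent.H47.ST

variable {ι : Type*} [Fintype ι] {F : Type*} [Field F]

theorem Adj.symm {v w : ι → ℤ} (h : Adj v w) : Adj w v := Or.symm h

theorem Simp.mono {σ τ : Finset (ι → ℤ)} (h : Simp τ) (hs : σ ⊆ τ) : Simp σ :=
  fun v hv w hw => h v (hs hv) w (hs hw)

theorem CellA_sgn_lt {σ : Finset (ι → ℤ)} {v w : ι → ℤ} (hv : v ∈ σ) (hlt : v < w) :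
    sgn F σ v * sgn F (σ.erase v) w = -(sgn F σ w * sgn F (σ.erase w) v) := by
  classical
  have h1 : ((σ.erase w).filter (fun u => u < v)) = σ.filter (fun u => u < v) := by
    ext u
    simp only [Finset.mem_filter, Finset.mem_erase]
    constructor
    · rintro ⟨⟨-, h⟩, h'⟩
      exact ⟨h, h'⟩
    · rintro ⟨h, h'⟩
      exact ⟨⟨(h'.trans hlt).ne, h⟩, h'⟩
  have h2 : σ.filter (fun u => u < w) = insert v ((σ.erase v).filter (fun u => u < w)) := by
    ext u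
    simp only [Finset.mem_filter, Finset.mem_erase, Finset.mem_insert]
    constructor
    · rintro ⟨h, h'⟩
      by_cases hu : u = v
      · exact Or.inl hu
      · exact Or.inr ⟨⟨hu, h⟩, h'⟩
    · rintro (rfl | ⟨⟨-, h⟩, h'⟩)
      · exact ⟨hv, hlt⟩
      · exact ⟨h, h'⟩
  have h3 : v ∉ (σ.erase v).filter (fun u => u < w) := by simp
  have h4 : (σ.filter (fun u => u < w)).card = ((σ.erase v).filter (fun u => u < w)).card + 1 := by
    rw [h2, Finset.card_insert_of_notMem h3]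
  unfold sgn
  rw [h1, h4, pow_succ]
  ring

/-- signs of two vertices of a simplex -/
theorem sgn_erase {σ : Finset (ι → ℤ)} (h : Simp σ) {v w : ι → ℤ} (hv : v ∈ σ) (hw : w ∈ σ)
    (hne : v ≠ w) : sgn F σ v * sgn F (σ.erase v) w = -(sgn F σ w * sgn F (σ.erase w) v) := by
  rcases h v hv w hw with h' | h'
  · exact CellA_sgn_lt hv (lt_of_le_of_ne h'.1 hne)
  · rw [CellA_sgn_lt hw (lt_of_le_of_ne h'.1 hne.symm), neg_neg]

theorem CellA_In_erase {X : Set (ι → ℤ)} {σ : Finset (ι → ℤ)} (h : In X σ) (v : ι → ℤ)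
    [DecidableEq (ι → ℤ)] : In X (σ.erase v) :=
  ⟨h.1.mono (Finset.erase_subset _ _), fun w hw => h.2 w (Finset.mem_of_mem_erase hw)⟩

theorem dX_dX (X : Set (ι → ℤ)) (c : Co ι F) : dX X (dX X c) = 0 := by
  classical
  ext σ
  rw [dX_apply]
  split_ifs with h
  · have h1 : ∀ v ∈ σ, sgn F σ v * dX X c (σ.erase v) =
        ∑ w ∈ σ.erase v, sgn F σ v * (sgn F (σ.erase v) w * c ((σ.erase v).erase w)) := by
      intro v _
      rw [dX_apply, if_pos (CellA_In_erase h v), Finset.mul_sum]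
    have h2 : ∑ v ∈ σ, sgn F σ v * dX X c (σ.erase v) = ∑ p ∈ σ.offDiag,
        sgn F σ p.1 * (sgn F (σ.erase p.1) p.2 * c ((σ.erase p.1).erase p.2)) := by
      rw [Finset.sum_congr rfl h1]
      have h6 := Finset.sum_finset_product σ.offDiag σ (fun v => σ.erase v) (f := fun p =>
        sgn F σ p.1 * (sgn F (σ.erase p.1) p.2 * c ((σ.erase p.1).erase p.2))) ?_
      · exact h6.symm
      rintro ⟨v, w⟩
      simp only [Finset.mem_offDiag, Finset.mem_erase]
      constructor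
      · rintro ⟨hv, hw, hne⟩
        exact ⟨hv, hne.symm, hw⟩
      · rintro ⟨hv, hne, hw⟩
        exact ⟨hv, hw, hne.symm⟩
    have h3 : ∑ p ∈ σ.offDiag,
        sgn F σ p.1 * (sgn F (σ.erase p.1) p.2 * c ((σ.erase p.1).erase p.2)) = 0 := by
      refine Finset.sum_involution
        (fun (p : (ι → ℤ) × (ι → ℤ)) _ => ((p.2, p.1) : (ι → ℤ) × (ι → ℤ))) ?_ ?_ ?_ ?_
      · rintro ⟨v, w⟩ hp
        obtain ⟨hv, hw, hne⟩ := Finset.mem_offDiag.1 hp
        have h4 := sgn_erase (F := F) h.1 hv hw hne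
        change sgn F σ v * (sgn F (σ.erase v) w * c ((σ.erase v).erase w)) +
          sgn F σ w * (sgn F (σ.erase w) v * c ((σ.erase w).erase v)) = 0
        rw [← mul_assoc, ← mul_assoc, Finset.erase_right_comm (a := w) (b := v), ← add_mul, h4,
          neg_add_cancel, zero_mul]
      · rintro ⟨v, w⟩ hp _
        obtain ⟨hv, hw, hne⟩ := Finset.mem_offDiag.1 hp
        intro he
        exact hne (congrArg Prod.snd he)
      · rintro ⟨v, w⟩ hp
        obtain ⟨hv, hw, hne⟩ := Finset.mem_offDiag.1 hp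
        exact Finset.mem_offDiag.2 ⟨hw, hv, hne.symm⟩
      · rintro ⟨v, w⟩ _
        rfl
    have h5 : ∑ v ∈ σ, sgn F σ v * dX X c (σ.erase v) = 0 := h2.trans h3
    exact h5
  · rfl

omit [Fintype ι] in
theorem CellA_tr_mem {l : ι → ℤ} {σ : Finset (ι → ℤ)} {w : ι → ℤ} :
    w ∈ tr l σ ↔ ∃ v ∈ σ, v + l = w := Finset.mem_map

omit [Fintype ι] in
theorem CellA_tr_Simp {l : ι → ℤ} {σ : Finset (ι → ℤ)} : Simp (tr l σ) ↔ Simp σ := by
  have hA : ∀ v w : ι → ℤ, Adj (v + l) (w + l) ↔ Adj v w := by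
    intro v w
    unfold Adj
    rw [add_le_add_iff_right, add_le_add_iff_right, add_right_comm w l 1, add_right_comm v l 1,
      add_le_add_iff_right, add_le_add_iff_right]
  constructor
  · intro h v hv w hw
    exact (hA v w).1 (h _ (CellA_tr_mem.2 ⟨v, hv, rfl⟩) _ (CellA_tr_mem.2 ⟨w, hw, rfl⟩))
  · intro h v hv w hw
    obtain ⟨v', hv', rfl⟩ := CellA_tr_mem.1 hv
    obtain ⟨w', hw', rfl⟩ := CellA_tr_mem.1 hw
    exact (hA v' w').2 (h v' hv' w' hw')

omit [Fintype ι] in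
theorem CellA_tr_In {L : AddSubgroup (ι → ℤ)} {X : Set (ι → ℤ)} (hX : Inv L X) {l : ι → ℤ}
    (hl : l ∈ L) {σ : Finset (ι → ℤ)} : In X (tr l σ) ↔ In X σ := by
  unfold In
  rw [CellA_tr_Simp]
  refine and_congr_right fun _ => ⟨fun h v hv => ?_, fun h w hw => ?_⟩
  · exact (hX l hl v).2 (h _ (CellA_tr_mem.2 ⟨v, hv, rfl⟩))
  · obtain ⟨v, hv, rfl⟩ := CellA_tr_mem.1 hw
    exact (hX l hl v).1 (h v hv)

omit [Fintype ι] in
theorem CellA_tr_sgn {l : ι → ℤ} {σ : Finset (ι → ℤ)} (v : ι → ℤ) :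
    sgn F (tr l σ) (v + l) = sgn F σ v := by
  classical
  have h : (tr l σ).filter (fun w => w < v + l) = tr l (σ.filter (fun w => w < v)) := by
    ext w
    simp only [Finset.mem_filter, CellA_tr_mem]
    constructor
    · rintro ⟨⟨u, hu, rfl⟩, h⟩
      exact ⟨u, ⟨hu, (add_lt_add_iff_right l).1 h⟩, rfl⟩
    · rintro ⟨u, ⟨hu, h⟩, rfl⟩
      exact ⟨⟨u, hu, rfl⟩, (add_lt_add_iff_right l).2 h⟩
  have h' : ((tr l σ).filter (fun w => w < v + l)).card = (σ.filter (fun w => w < v)).card := by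
    rw [h]
    exact Finset.card_map _
  unfold sgn
  rw [h']

omit [Fintype ι] in
theorem CellA_tr_erase [DecidableEq (ι → ℤ)] {l : ι → ℤ} {σ : Finset (ι → ℤ)} (v : ι → ℤ) :
    (tr l σ).erase (v + l) = tr l (σ.erase v) := by
  ext w
  simp only [Finset.mem_erase, CellA_tr_mem]
  constructor
  · rintro ⟨h, u, hu, rfl⟩
    exact ⟨u, ⟨fun h' => h (by rw [h']), hu⟩, rfl⟩
  · rintro ⟨u, ⟨h, hu⟩, rfl⟩
    exact ⟨fun h' => h (add_right_cancel h'), u, hu, rfl⟩

theorem dX_mem {L : AddSubgroup (ι → ℤ)} {X A : Set (ι → ℤ)} {j : ℕ} {c : Co ι F}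
    (hX : Inv L X) (hc : c ∈ co (F := F) L X A j) : dX X c ∈ co (F := F) L X A (j + 1) := by
  classical
  obtain ⟨hc1, hc2⟩ := hc
  refine ⟨fun l hl σ => ?_, fun σ h => ?_⟩
  · rw [dX_apply, dX_apply]
    by_cases h : In X σ
    · rw [if_pos h, if_pos ((CellA_tr_In hX hl).2 h)]
      conv_lhs => rw [tr]
      rw [Finset.sum_map]
      refine Finset.sum_congr rfl fun v _ => ?_
      change sgn F (tr l σ) (v + l) * c ((tr l σ).erase (v + l)) = _
      rw [CellA_tr_sgn, CellA_tr_erase, hc1 l hl]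
    · rw [if_neg h, if_neg (fun h' => h ((CellA_tr_In hX hl).1 h'))]
  · rw [dX_apply] at h
    have hIn : In X σ := by
      by_contra h'
      exact h (if_neg h')
    rw [if_pos hIn] at h
    obtain ⟨v, hv, hv'⟩ := Finset.exists_ne_zero_of_sum_ne_zero h
    obtain ⟨-, h2, h3⟩ := hc2 _ (right_ne_zero_of_mul hv')
    refine ⟨hIn, fun h4 => h2 fun u hu => h4 u (Finset.mem_of_mem_erase hu), ?_⟩
    rw [← Finset.card_erase_add_one hv, h3]

theorem co_anti {L : AddSubgroup (ι → ℤ)} {X A B : Set (ι → ℤ)} (h : A ⊆ B) (j : ℕ) :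
    co (F := F) L X B j ≤ co (F := F) L X A j := by
  rintro c ⟨hc1, hc2⟩
  refine ⟨hc1, fun σ hσ => ?_⟩
  obtain ⟨h1, h2, h3⟩ := hc2 σ hσ
  exact ⟨h1, fun h4 => h2 fun v hv => h (h4 v hv), h3⟩

theorem co_self (L : AddSubgroup (ι → ℤ)) (X : Set (ι → ℤ)) (j : ℕ) :
    co (F := F) L X X j = ⊥ := by
  rw [eq_bot_iff]
  rintro c ⟨-, hc2⟩
  rw [Submodule.mem_bot]
  ext σ
  by_contra hσ
  obtain ⟨h1, h2, -⟩ := hc2 σ hσ
  exact h2 h1.2

theorem co_zero (L : AddSubgroup (ι → ℤ)) (X A : Set (ι → ℤ)) :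
    co (F := F) L X A 0 = ⊥ := by
  rw [eq_bot_iff]
  rintro c ⟨-, hc2⟩
  rw [Submodule.mem_bot]
  ext σ
  by_contra hσ
  obtain ⟨-, h2, h3⟩ := hc2 σ hσ
  rw [Finset.card_eq_zero] at h3
  subst h3
  exact h2 fun v hv => absurd hv (Finset.notMem_empty v)

/-- a simplex has at most `card ι + 1` vertices -/
theorem Simp.card_le {σ : Finset (ι → ℤ)} (h : Simp σ) : σ.card ≤ Fintype.card ι + 1 := by
  rcases σ.eq_empty_or_nonempty with rfl | hne
  · simp
  obtain ⟨m, hm, hmin⟩ := Finset.exists_min_image σ (fun v => ∑ i, v i) hne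
  have hmono : ∀ v w : ι → ℤ, v ≤ w → ∑ i, v i ≤ ∑ i, w i := fun v w hvw =>
    Finset.sum_le_sum fun i _ => hvw i
  have heq : ∀ v w : ι → ℤ, v ≤ w → ∑ i, v i = ∑ i, w i → v = w := by
    intro v w hvw he
    funext i
    exact (Finset.sum_eq_sum_iff_of_le fun i _ => hvw i).1 he i (Finset.mem_univ i)
  have hup : ∀ w ∈ σ, ∑ i, w i ≤ ∑ i, m i + (Fintype.card ι : ℤ) := by
    intro w hw
    rcases h m hm w hw with h' | h'
    · refine (hmono w (m + 1) h'.2).trans ?_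
      simp [Finset.sum_add_distrib]
    · have := hmono w m h'.1
      have h0 : (0 : ℤ) ≤ (Fintype.card ι : ℤ) := Int.natCast_nonneg _
      linarith
  have hcard : σ.card ≤ (Finset.Icc (∑ i, m i) (∑ i, m i + (Fintype.card ι : ℤ))).card := by
    refine Finset.card_le_card_of_injOn (fun v => ∑ i, v i) (fun w hw => ?_) ?_
    · exact Finset.mem_coe.2 (Finset.mem_Icc.2 ⟨hmin w hw, hup w hw⟩)
    · intro v hv w hw he
      rcases h v hv w hw with h' | h'
      · exact heq v w h'.1 he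
      · exact (heq w v h'.1 he.symm).symm
  rw [Int.card_Icc] at hcard
  refine hcard.trans ?_
  have : (∑ i, m i + (Fintype.card ι : ℤ) + 1 - ∑ i, m i) = ((Fintype.card ι + 1 : ℕ) : ℤ) := by
    push_cast
    ring
  rw [this, Int.toNat_natCast]

theorem co_big (L : AddSubgroup (ι → ℤ)) (X A : Set (ι → ℤ)) {j : ℕ}
    (hj : Fintype.card ι + 1 < j) : co (F := F) L X A j = ⊥ := by
  rw [eq_bot_iff]
  rintro c ⟨-, hc2⟩
  rw [Submodule.mem_bot]
  ext σ
  by_contra hσ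
  obtain ⟨h1, -, h3⟩ := hc2 σ hσ
  have := h1.1.card_le
  omega

/-- Rank at most `r` of the cohomology in dimension `j` of the simplices in `B`, not in `A`. -/
def HR (F : Type*) [Field F] (L : AddSubgroup (ι → ℤ)) (B A : Set (ι → ℤ)) (j r : ℕ) : Prop :=
  RK (dX B) (dX B) (co (F := F) L B A j) (co (F := F) L B A (j + 1)) ⊥ ⊥ r

/-- The relative version inside a larger complex. -/
theorem HR.rel {L : AddSubgroup (ι → ℤ)} {X B A : Set (ι → ℤ)} (hX : Inv L X) (hB : Inv L B)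
    (hAB : A ⊆ B) (hBX : B ⊆ X) {j r : ℕ} (h : HR F L B A j r) :
    HK (dX X) (co (F := F) L X A) (co (F := F) L X B) (j + 1) r := by
  classical
  obtain ⟨ℓ, h⟩ := h
  have hIn : ∀ σ : Finset (ι → ℤ), In B σ → In X σ := fun σ hσ => ⟨hσ.1, fun v hv => hBX (hσ.2 v hv)⟩
  refine ⟨ℓ.comp (cut (In B)), fun x hx hdx h0 => ?_⟩
  obtain ⟨hx1, hx2⟩ := id hx
  have hx' : cut (In B) x ∈ co (F := F) L B A (j + 1) := by
    refine ⟨fun l hl σ => ?_, fun σ hσ => ?_⟩
    · rw [cut_apply, cut_apply]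
      by_cases h1 : In B σ
      · rw [if_pos h1, if_pos ((CellA_tr_In hB hl).2 h1), hx1 l hl]
      · rw [if_neg h1, if_neg (fun h' => h1 ((CellA_tr_In hB hl).1 h'))]
    · rw [cut_apply] at hσ
      have h1 : In B σ := by
        by_contra h'
        exact hσ (if_neg h')
      rw [if_pos h1] at hσ
      exact ⟨h1, (hx2 σ hσ).2⟩
  have hd' : dX B (cut (In B) x) ∈ (⊥ : Submodule F (Co ι F)) := by
    rw [Submodule.mem_bot]
    ext σ
    rw [dX_apply]
    split_ifs with h1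
    · have h2 : dX X x σ = 0 := by
        by_contra h3
        exact (hdx.2 σ h3).2.1 h1.2
      rw [dX_apply, if_pos (hIn σ h1)] at h2
      rw [Pi.zero_apply, ← h2]
      refine Finset.sum_congr rfl fun v _ => ?_
      rw [cut_apply, if_pos (CellA_In_erase h1 v)]
    · rfl
  obtain ⟨y, hy, hxy⟩ := h _ hx' hd' h0
  rw [Submodule.mem_bot, sub_eq_zero] at hxy
  have hyX : y ∈ co (F := F) L X A j :=
    ⟨hy.1, fun σ hσ => ⟨hIn σ (hy.2 σ hσ).1, (hy.2 σ hσ).2⟩⟩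
  refine ⟨y, hyX, ?_⟩
  have h1 : x - dX X y ∈ co (F := F) L X A (j + 1) := Submodule.sub_mem _ hx (dX_mem hX hyX)
  refine ⟨h1.1, fun σ hσ => ⟨(h1.2 σ hσ).1, fun h2 => hσ ?_, (h1.2 σ hσ).2.2⟩⟩
  have h3 : In B σ := ⟨(h1.2 σ hσ).1.1, h2⟩
  have h4 := congrFun hxy σ
  rw [cut_apply, if_pos h3, dX_apply, if_pos h3] at h4
  rw [Pi.sub_apply, dX_apply, if_pos (hIn σ h3), h4, sub_self]

theorem HK_co_zero {L : AddSubgroup (ι → ℤ)} {X B A : Set (ι → ℤ)} (r : ℕ) :
    HK (dX X) (co (F := F) L X A) (co (F := F) L X B) 0 r := by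
  refine ⟨0, fun x hx _ _ => ⟨0, Submodule.zero_mem _, ?_⟩⟩
  rw [co_zero, Submodule.mem_bot] at hx
  rw [hx, map_zero, sub_zero]
  exact Submodule.zero_mem _

end Pool.Agent.H47.ST
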