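import Pool.Agent.H47.ST.GrowA
import Pool.Agent.H47.QG.Stmt

/-!
# Growth of the number of periodic orbits
-/

set_option autoImplicit false

open Module QuadraticForm Filter Topology Function
open Pool.Agent.H47.QG (Pt action flw oseq Gen ind hess Zn MeanIdx Sys orbs Decomp QuadGrowth dir
  dir2 NondegAt flw_mul flw_add_int ind_map ind_translate growth almost_additive exists_reps
  ind_add quadGrowth_of nondegAt_iff dir_eq_iff dir_eq_zero_iff)

namespace Pool.Agent.H47.ST

variable {n : ℕ}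

/-- **Growth theorem.** -/
theorem growth_ST {S : ℕ → Pt n → ℝ} {f : ℕ → Pt n → Pt n} (hS : ∀ j, Gen (S j) (f j))
    (hn : 0 < n) {N : ℕ} (hN : 0 < N) (hper : ∀ j, S (j + N) = S j)
    (hfper : ∀ j, f (j + N) = f j) {X : Type*} {φ : X → X} {π : Pt n → X}
    (hsys : Sys (flw f N) φ π (Zn n)) (k : ℕ) [hkN : NeZero (k * N)] (C : Finset (Pt n))
    (hC : ∀ w, (flw f (k * N) w = w ∧ MeanIdx S f (k * N) w 0) ↔ ∃ c ∈ C, w - c ∈ Zn n)
    (hCd : ∀ c ∈ C, ∀ c' ∈ C, c - c' ∈ Zn n → c = c') (m : Pt n → ℕ)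
    (hm : ∀ c ∈ C, LocNum (action S (k * N)) (oseq f (k * N) c) (m c))
    (hsum : ∑ c ∈ C, m c < 2 ^ (2 * n)) :
    ∃ c' > 0, ∀ᶠ T : ℝ in atTop,
      ENNReal.ofReal (c' * T ^ 2 / Real.log T) ≤ ((orbs φ T).encard : ENNReal) := by
  classical
  have hk : 0 < k := Nat.pos_of_ne_zero (fun h0 => hkN.out (by rw [h0, zero_mul]))
  set N' := k * N with hN'
  have hN'0 : 0 < N' := Nat.mul_pos hk hN
  have hperK : ∀ (g : ℕ → Pt n → ℝ), (∀ j, g (j + N) = g j) → ∀ m j, g (j + m * N) = g j := by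
    intro g hg m
    induction m with
    | zero => intro j; rw [zero_mul, add_zero]
    | succ m ih => intro j; rw [Nat.succ_mul, ← add_assoc, hg, ih]
  have hperK' : ∀ (g : ℕ → Pt n → Pt n), (∀ j, g (j + N) = g j) → ∀ m j, g (j + m * N) = g j := by
    intro g hg m
    induction m with
    | zero => intro j; rw [zero_mul, add_zero]
    | succ m ih => intro j; rw [Nat.succ_mul, ← add_assoc, hg, ih]
  have hper' : ∀ j, S (j + N') = S j := hperK S hper k
  have hfper' : ∀ j, f (j + N') = f j := hperK' f hfper k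
  have hit : ∀ (p : ℕ) (w : Pt n), flw f (p * N') w = (flw f N)^[k * p] w := by
    intro p w
    have e1 : p * N' = (k * p) * N := by rw [hN']; ring
    rw [e1, flw_mul hfper]
  have hitk : ∀ w : Pt n, flw f N' w = (flw f N)^[k] w := by
    intro w
    rw [← flw_mul hfper]
  have hiso : ∀ (m : ℕ) (w e : Pt n), e ∈ Zn n → (flw f N)^[m] (w + e) = (flw f N)^[m] w + e := by
    intro m w e he
    rw [← flw_mul hfper, ← flw_mul hfper, flw_add_int hS _ _ _ he]
  have hfixA : ∀ m : ℕ, ∀ w ∈ {w : Pt n | (flw f N)^[m] w = w}, ∀ e ∈ Zn n,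
      w + e ∈ {w : Pt n | (flw f N)^[m] w = w} := by
    intro m w hw e he
    change (flw f N)^[m] (w + e) = w + e
    rw [hiso m w e he]
    rw [show (flw f N)^[m] w = w from hw]
  have hmono : ∀ p : ℕ, {w : Pt n | (flw f N)^[k] w = w} ⊆ {w | (flw f N)^[k * p] w = w} := by
    intro p w hw
    change (flw f N)^[k * p] w = w
    rw [Function.iterate_mul]
    exact Function.iterate_fixed hw p
  have hvmap : ∀ p w, (flw f N)^[k * p] w = w →
      ind S f (p * N') (flw f N w) = ind S f (p * N') w := by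
    intro p w hw
    have e1 : p * N' = (p * k) * N := by rw [hN']; ring
    rw [e1]
    refine ind_map S f hS N hN hper hfper w (p * k) ?_
    rw [← e1, hit]; exact hw
  have hvtr : ∀ p w, ∀ e ∈ Zn n, (flw f N)^[k * p] w = w →
      ind S f (p * N') (w + e) = ind S f (p * N') w := by
    rintro p w _ ⟨a, b, rfl⟩ _
    exact ind_translate S f hS _ w a b
  by_cases hfin : (π '' {w | (flw f N)^[k] w = w}).Finite
  swap
  · refine growth hsys k hk (fun p w => ind S f (p * N') w) hvmap hvtr 1 0 one_pos ?_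
    intro p hp _ hf
    exact absurd (hf.subset (Set.image_mono (hmono p))) hfin
  -- limits
  have hlim : ∀ w : Pt n, flw f N' w = w → ∃ L : ℝ,
      (∀ p : ℕ, 0 < p → |(ind S f (p * N') w : ℝ) - p * L| ≤ 2 * n) ∧
      Tendsto (fun p : ℕ => (ind S f (p * N') w : ℝ) / p) atTop (𝓝 L) := by
    intro w hw
    exact almost_additive (fun p => (ind S f (p * N') w : ℝ)) (2 * n)
      (fun p q hp hq => ind_add S f hS N' hN'0 hper' hfper' w hw p q hp hq)
  have hlim' : ∀ w : Pt n, ∃ L : ℝ, flw f N' w = w →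
      (∀ p : ℕ, 0 < p → |(ind S f (p * N') w : ℝ) - p * L| ≤ 2 * n) ∧
      Tendsto (fun p : ℕ => (ind S f (p * N') w : ℝ) / p) atTop (𝓝 L) := by
    intro w
    by_cases hw : flw f N' w = w
    · obtain ⟨L, hL⟩ := hlim w hw
      exact ⟨L, fun _ => hL⟩
    · exact ⟨0, fun h => absurd h hw⟩
  choose Lf hLf using hlim'
  have hCfix : ∀ c ∈ C, flw f N' c = c ∧ MeanIdx S f N' c 0 := fun c hc =>
    (hC c).2 ⟨c, hc, by rw [sub_self]; exact (Zn n).zero_mem⟩
  obtain ⟨Fx, hCF, hFx, hFxd⟩ := exists_reps hsys.ker {w | (flw f N)^[k] w = w} (hfixA k) hfin C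
    (fun c hc => by
      change (flw f N)^[k] c = c
      rw [← hitk]; exact (hCfix c hc).1) hCd
  have hFxfix : ∀ w ∈ Fx, flw f N' w = w := by
    intro w hw
    rw [hitk]
    exact (hFx w).2 ⟨w, hw, by rw [sub_self]; exact (Zn n).zero_mem⟩
  have hcl : ∀ w, flw f N' w = w → (Lf w = n * N' ↔ MeanIdx S f N' w 0) := by
    intro w hw
    constructor
    · intro h
      have := (hLf w hw).2
      rw [h] at this
      unfold MeanIdx
      rw [zero_add]
      exact this
    · intro h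
      unfold MeanIdx at h
      rw [zero_add] at h
      exact tendsto_nhds_unique (hLf w hw).2 h
  have hfilter : Fx.filter (fun w => Lf w = n * N') = C := by
    ext w
    rw [Finset.mem_filter]
    constructor
    · rintro ⟨hw, h⟩
      have hfw := hFxfix w hw
      obtain ⟨c, hc, he⟩ := (hC w).1 ⟨hfw, (hcl w hfw).1 h⟩
      rw [hFxd w hw c (hCF hc) he]
      exact hc
    · intro hw
      exact ⟨hCF hw, (hcl w (hCfix w hw).1).2 (hCfix w hw).2⟩
  obtain ⟨c, hc, D, hcD⟩ := values_ST hS hn hper' hfper' Lf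
    (fun w hw => (hLf w hw).1) Fx hFxfix m
    (fun w hw h => hm w (by rw [← hfilter]; exact Finset.mem_filter.2 ⟨hw, h⟩))
    (by rw [hfilter]; exact hsum)
  refine growth hsys k hk (fun p w => ind S f (p * N') w) hvmap hvtr c D hc ?_
  intro p hp hD hpf
  obtain ⟨W, hFW, hW, hWd⟩ := exists_reps hsys.ker {w | (flw f N)^[k * p] w = w} (hfixA (k * p))
    hpf Fx (fun w hw => by
      refine hmono p ?_
      change (flw f N)^[k] w = w
      rw [← hitk]; exact hFxfix w hw) hFxd
  obtain ⟨A, hA, hA'⟩ := hcD p hp hD W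
    (fun w => by rw [hit]; exact hW w) hWd
    (fun w => by
      constructor
      · intro hw
        exact ⟨hFW hw, hFxfix w hw⟩
      · rintro ⟨hw, hfw⟩
        rw [hitk] at hfw
        obtain ⟨w', hw', he⟩ := (hFx w).1 hfw
        rw [hWd w hw w' (hFW hw') he]
        exact hw')
  refine ⟨A, hA, fun a ha => ?_⟩
  obtain ⟨w, h1, h2, h3⟩ := hA' a ha
  rw [hit] at h1
  rw [hitk] at h2
  exact ⟨w, h1, h2, h3⟩

/-- version for decompositions -/
theorem quad_ST {φ : Pool.Agent.H60.QG.Torus n → Pool.Agent.H60.QG.Torus n} (hn : 0 < n) {N : ℕ}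
    {S : ℕ → Pt n → ℝ} {ψ : ℕ → Pt n → Pt n} (h : Decomp φ N S ψ) (k : ℕ)
    [hk : NeZero (k * N)] (C : Finset (Pt n))
    (hC : ∀ w, (flw ψ (k * N) w = w ∧ MeanIdx S ψ (k * N) w 0) ↔ ∃ c ∈ C, w - c ∈ Zn n)
    (hCd : ∀ c ∈ C, ∀ c' ∈ C, c - c' ∈ Zn n → c = c') (m : Pt n → ℕ)
    (hm : ∀ c ∈ C, LocNum (action S (k * N)) (oseq ψ (k * N) c) (m c))
    (hsum : ∑ c ∈ C, m c < 2 ^ (2 * n)) : QuadGrowth φ :=
  quadGrowth_of (growth_ST h.gen hn h.pos h.perS h.perψ h.sys k C hC hCd m hm hsum)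

/-- The isolated critical point `z` of `A` can be perturbed to at most `m` nondegenerate ones:
`z` is the only critical point in some closed ball, and there are arbitrarily small linear
functionals `a`, regular values of the derivative of `A` in the open ball, for which at most `m`
points of the ball satisfy `dA = a`. -/
def IsLocNum {E : Type*} [NormedAddCommGroup E] [NormedSpace ℝ E] (A : E → ℝ) (z : E) (m : ℕ) :
    Prop :=
  ∃ r > 0, (∀ y ∈ Metric.closedBall z r, (∀ v, dir A y v = 0) → y = z) ∧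
    ∀ δ > 0, ∃ a : E →L[ℝ] ℝ, ‖a‖ < δ ∧
    (∀ y ∈ Metric.ball z r, (∀ v, dir A y v = a v) → NondegAt A y) ∧
      ∃ X : Finset E, (∀ y, y ∈ X ↔ y ∈ Metric.ball z r ∧ ∀ v, dir A y v = a v) ∧ X.card ≤ m

theorem isLocNum_iff {E : Type*} [NormedAddCommGroup E] [NormedSpace ℝ E] {A : E → ℝ}
    (hA : ContDiff ℝ 2 A) (z : E) (m : ℕ) : IsLocNum A z m ↔ LocNum A z m := by
  unfold IsLocNum LocNum
  simp only [dir_eq_iff, dir_eq_zero_iff, nondegAt_iff hA]

end Pool.Agent.H47.ST
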