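import Pool.Agent.H47.ST.TKb

/-!
# Truncation of a filtered complex
-/

set_option autoImplicit false

namespace Pool.Agent.H47.ST

variable {F E : Type*} [Field F] [AddCommGroup E] [Module F E] {d τ ν : E →ₗ[F] E}

/-- The truncation: `V` below degree `g`, the cocycles in degree `g`, zero above. -/
def trun (d : E →ₗ[F] E) (V : ℕ → Submodule F E) (g : ℕ) : ℕ → Submodule F E := fun j =>
  if j < g then V j else if j = g then V j ⊓ LinearMap.ker d else ⊥

/-- the truncated filtration -/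
def trf (d : E →ₗ[F] E) (V : ℕ → Submodule F E) (g₁ g₂ : ℕ) (G : ℕ → Submodule F E) :
    ℕ → Submodule F E := fun j => trun d V g₁ j ⊔ (trun d V g₂ j ⊓ G j)

theorem Trunc_lt {V : ℕ → Submodule F E} {g j : ℕ} (hj : j < g) : trun d V g j = V j := by
  simp [trun, hj]

theorem Trunc_eq {V : ℕ → Submodule F E} {g : ℕ} :
    trun d V g g = V g ⊓ LinearMap.ker d := by
  simp [trun]

theorem Trunc_gt {V : ℕ → Submodule F E} {g j : ℕ} (hj : g < j) : trun d V g j = ⊥ := by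
  have h1 : ¬ j < g := by omega
  have h2 : j ≠ g := by omega
  simp [trun, h1, h2]

theorem Trunc_le {V : ℕ → Submodule F E} (g j : ℕ) : trun d V g j ≤ V j := by
  rcases lt_trichotomy j g with hj | rfl | hj
  · rw [Trunc_lt hj]
  · rw [Trunc_eq]; exact inf_le_left
  · rw [Trunc_gt hj]; exact bot_le

theorem Trunc_mono {V : ℕ → Submodule F E} {g₁ g₂ : ℕ} (h12 : g₁ < g₂) (j : ℕ) :
    trun d V g₁ j ≤ trun d V g₂ j := by
  rcases lt_trichotomy j g₁ with hj | rfl | hj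
  · rw [Trunc_lt hj, Trunc_lt (hj.trans h12)]
  · rw [Trunc_eq, Trunc_lt h12]; exact inf_le_left
  · rw [Trunc_gt hj]; exact bot_le

theorem Trunc_bot : Sub d τ ν (fun _ => (⊥ : Submodule F E)) where
  d j x hx := by
    rw [Submodule.mem_bot] at hx ⊢
    rw [hx, map_zero]
  t j x hx := by
    rw [Submodule.mem_bot] at hx ⊢
    rw [hx, map_zero]
  n j x hx := by
    rw [Submodule.mem_bot] at hx ⊢
    rw [hx, map_zero]

theorem Trunc_inf {A B : ℕ → Submodule F E} (hA : Sub d τ ν A) (hB : Sub d τ ν B) :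
    Sub d τ ν (fun j => A j ⊓ B j) where
  d j x hx := ⟨hA.d j x hx.1, hB.d j x hx.2⟩
  t j x hx := ⟨hA.t j x hx.1, hB.t j x hx.2⟩
  n j x hx := ⟨hA.n j x hx.1, hB.n j x hx.2⟩

theorem Trunc_sup {A B : ℕ → Submodule F E} (hA : Sub d τ ν A) (hB : Sub d τ ν B) :
    Sub d τ ν (fun j => A j ⊔ B j) where
  d j x hx := by
    obtain ⟨a, ha, b, hb, rfl⟩ := Submodule.mem_sup.1 hx
    rw [map_add]
    exact Submodule.add_mem_sup (hA.d j a ha) (hB.d j b hb)
  t j x hx := by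
    obtain ⟨a, ha, b, hb, rfl⟩ := Submodule.mem_sup.1 hx
    rw [map_add]
    exact Submodule.add_mem_sup (hA.t j a ha) (hB.t j b hb)
  n j x hx := by
    obtain ⟨a, ha, b, hb, rfl⟩ := Submodule.mem_sup.1 hx
    rw [map_add]
    exact Submodule.add_mem_sup (hA.n j a ha) (hB.n j b hb)

theorem Sub.trun (h : Ops d τ ν) {V : ℕ → Submodule F E} (hV : Sub d τ ν V) (g : ℕ) :
    Sub d τ ν (ST.trun d V g) where
  d j x hx := by
    rcases lt_trichotomy j g with hj | rfl | hj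
    · rw [Trunc_lt hj] at hx
      rcases lt_or_eq_of_le (Nat.succ_le_of_lt hj) with hj' | hj'
      · rw [Trunc_lt hj']
        exact hV.d j x hx
      · subst hj'
        have : ST.trun d V (j + 1) (j + 1) = V (j + 1) ⊓ LinearMap.ker d := Trunc_eq
        rw [this]
        exact ⟨hV.d j x hx, LinearMap.mem_ker.2 (h.dd x)⟩
    · rw [Trunc_eq] at hx
      rw [LinearMap.mem_ker.1 hx.2]
      exact Submodule.zero_mem _
    · rw [Trunc_gt hj, Submodule.mem_bot] at hx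
      rw [hx, map_zero]
      exact Submodule.zero_mem _
  t j x hx := by
    rcases lt_trichotomy j g with hj | rfl | hj
    · rw [Trunc_lt hj] at hx ⊢
      exact hV.t j x hx
    · rw [Trunc_eq] at hx ⊢
      refine ⟨hV.t j x hx.1, LinearMap.mem_ker.2 ?_⟩
      rw [h.dt, LinearMap.mem_ker.1 hx.2, map_zero]
    · rw [Trunc_gt hj, Submodule.mem_bot] at hx
      rw [hx, map_zero]
      exact Submodule.zero_mem _
  n j x hx := by
    rcases lt_trichotomy j g with hj | rfl | hj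
    · rw [Trunc_lt hj] at hx ⊢
      exact hV.n j x hx
    · rw [Trunc_eq] at hx ⊢
      refine ⟨hV.n j x hx.1, LinearMap.mem_ker.2 ?_⟩
      rw [h.dn, LinearMap.mem_ker.1 hx.2, map_zero]
    · rw [Trunc_gt hj, Submodule.mem_bot] at hx
      rw [hx, map_zero]
      exact Submodule.zero_mem _

theorem Sub.trf (h : Ops d τ ν) {V G : ℕ → Submodule F E} (hV : Sub d τ ν V) (hG : Sub d τ ν G)
    (g₁ g₂ : ℕ) : Sub d τ ν (ST.trf d V g₁ g₂ G) :=
  Trunc_sup (hV.trun h g₁) (Trunc_inf (hV.trun h g₂) hG)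

/-- exactness in each degree gives exactness of the Tate complex -/
theorem Trunc_TK_zero (h : Ops d τ ν) {A B : ℕ → Submodule F E} (hA : Sub d τ ν A)
    (hB : Sub d τ ν B) (hAB : ∀ j, A j ≤ B j) (J : ℕ) (hJ : ∀ j, J ≤ j → B j ≤ A j)
    (hr : ∀ j, ∀ x ∈ B j, d x ∈ A (j + 1) → ∃ y ∈ pr B j, x - d y ∈ A j) (k : ℕ) :
    TK d τ ν k B A 0 := by
  have h1 := TK_of_HK h hA hB hAB J hJ (fun _ => 0) (fun j _ => RK_zero.2 (hr j)) k
  simpa using h1

theorem Trunc_pr_mono {A B : ℕ → Submodule F E} {j : ℕ} (h : ∀ i, i + 1 = j → A i ≤ B i) :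
    pr A j ≤ pr B j := by
  cases j with
  | zero => exact le_rfl
  | succ j => exact h j rfl

/-- below the truncation -/
theorem TK_trun_bot (h : Ops d τ ν) {V : ℕ → Submodule F E} (hV : Sub d τ ν V) (g : ℕ)
    (hlow : ∀ j ≤ g, HK d V (fun _ => ⊥) j 0) (k : ℕ) :
    TK d τ ν k (trun d V g) (fun _ => ⊥) 0 := by
  refine Trunc_TK_zero h Trunc_bot (hV.trun h g) (fun _ => bot_le) (g + 1)
    (fun j hj => (Trunc_gt hj).le) (fun j x hx hdx => ?_) k
  rcases Nat.lt_or_ge g j with hj | hj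
  · rw [Trunc_gt hj] at hx
    refine ⟨0, Submodule.zero_mem _, ?_⟩
    rwa [map_zero, sub_zero]
  · obtain ⟨y, hy, hxy⟩ := RK_zero.1 (hlow j hj) x (Trunc_le g j hx) hdx
    refine ⟨y, Trunc_pr_mono (fun i hi => ?_) hy, hxy⟩
    rw [Trunc_lt (show i < g by omega)]

/-- above the truncation -/
theorem TK_trun_top (h : Ops d τ ν) {V : ℕ → Submodule F E} (hV : Sub d τ ν V) (g J : ℕ)
    (hJ : ∀ j, J ≤ j → V j = ⊥) (hup : ∀ j, g < j → HK d V (fun _ => ⊥) j 0) (k : ℕ) :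
    TK d τ ν k V (trun d V g) 0 := by
  refine Trunc_TK_zero h (hV.trun h g) hV (Trunc_le g) J
    (fun j hj => (hJ j hj).le.trans bot_le) (fun j x hx hdx => ?_) k
  rcases lt_trichotomy j g with hj | rfl | hj
  · refine ⟨0, Submodule.zero_mem _, ?_⟩
    rwa [map_zero, sub_zero, Trunc_lt hj]
  · refine ⟨0, Submodule.zero_mem _, ?_⟩
    rw [map_zero, sub_zero, Trunc_eq]
    rw [Trunc_gt (Nat.lt_succ_self j), Submodule.mem_bot] at hdx
    exact ⟨hx, LinearMap.mem_ker.2 hdx⟩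
  · rw [Trunc_gt (show g < j + 1 by omega)] at hdx
    obtain ⟨y, hy, hxy⟩ := RK_zero.1 (hup j hj) x hx hdx
    refine ⟨y, hy, ?_⟩
    rw [Trunc_gt hj]
    exact hxy

theorem Trunc_trf_le {V G : ℕ → Submodule F E} (g₁ g₂ j : ℕ) : trf d V g₁ g₂ G j ≤ V j :=
  sup_le (Trunc_le g₁ j) (inf_le_left.trans (Trunc_le g₂ j))

theorem Trunc_trf_mono {V G G' : ℕ → Submodule F E} (hGG : ∀ j, G' j ≤ G j) (g₁ g₂ j : ℕ) :
    trf d V g₁ g₂ G' j ≤ trf d V g₁ g₂ G j :=
  sup_le_sup_left (inf_le_inf_left _ (hGG j)) _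

/-- a band without cohomology in the degrees from `g₁` to `g₂` -/
theorem TK_band_out (h : Ops d τ ν) {V G G' : ℕ → Submodule F E} (hV : Sub d τ ν V)
    (hG : Sub d τ ν G) (hG' : Sub d τ ν G') (hGG : ∀ j, G' j ≤ G j) (hGV : ∀ j, G j ≤ V j)
    (J : ℕ) (hJ : ∀ j, J ≤ j → V j = ⊥) {g₁ g₂ : ℕ} (h12 : g₁ < g₂)
    (hb : ∀ j, g₁ ≤ j → j ≤ g₂ → HK d G G' j 0) (k : ℕ) :
    TK d τ ν k (trf d V g₁ g₂ G) (trf d V g₁ g₂ G') 0 := by
  refine Trunc_TK_zero h (hV.trf h hG' g₁ g₂) (hV.trf h hG g₁ g₂) (Trunc_trf_mono hGG g₁ g₂) J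
    (fun j hj => (Trunc_trf_le g₁ g₂ j).trans ((hJ j hj).le.trans bot_le)) (fun j c hc hdc => ?_) k
  rcases Nat.lt_or_ge j g₁ with hj | hj
  · -- below `g₁`
    refine ⟨0, Submodule.zero_mem _, ?_⟩
    rw [map_zero, sub_zero]
    have h1 : c ∈ trun d V g₁ j := by
      rw [Trunc_lt hj]
      exact Trunc_trf_le g₁ g₂ j hc
    exact Submodule.mem_sup_left h1
  rcases Nat.lt_or_ge g₂ j with hj2 | hj2
  · -- above `g₂`
    refine ⟨0, Submodule.zero_mem _, ?_⟩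
    rw [map_zero, sub_zero]
    have h1 : trf d V g₁ g₂ G j = ⊥ := by
      unfold trf
      rw [Trunc_gt hj2, Trunc_gt (h12.trans hj2)]
      simp
    rw [h1, Submodule.mem_bot] at hc
    rw [hc]
    exact Submodule.zero_mem _
  -- the middle
  obtain ⟨l, hl, b, hb', rfl⟩ := Submodule.mem_sup.1 hc
  have hdl : d l = 0 := by
    rcases Nat.lt_or_ge g₁ j with hj3 | hj3
    · rw [Trunc_gt hj3, Submodule.mem_bot] at hl
      rw [hl, map_zero]
    · obtain rfl : j = g₁ := le_antisymm hj3 hj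
      rw [Trunc_eq] at hl
      exact LinearMap.mem_ker.1 hl.2
  have hdb : d b ∈ G' (j + 1) := by
    rw [map_add, hdl, zero_add] at hdc
    have h1 : trf d V g₁ g₂ G' (j + 1) ≤ G' (j + 1) := by
      unfold trf
      rw [Trunc_gt (show g₁ < j + 1 by omega), bot_sup_eq]
      exact inf_le_right
    exact h1 hdc
  obtain ⟨y, hy, hxy⟩ := RK_zero.1 (hb j hj hj2) b hb'.2 hdb
  refine ⟨y, ?_, ?_⟩
  · refine Trunc_pr_mono (fun i hi => ?_) hy
    refine le_trans ?_ (le_sup_right : _ ≤ trf d V g₁ g₂ G i)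
    refine le_inf ?_ le_rfl
    rw [Trunc_lt (show i < g₂ by omega)]
    exact hGV i
  · have hdy : d y ∈ trun d V g₂ j := by
      cases j with
      | zero =>
        have h0 : y = 0 := by simpa [pr] using hy
        rw [h0, map_zero]
        exact Submodule.zero_mem _
      | succ i =>
        refine (hV.trun h g₂).d i y ?_
        rw [Trunc_lt (show i < g₂ by omega)]
        exact hGV i hy
    rw [add_sub_assoc]
    exact Submodule.add_mem_sup hl ⟨Submodule.sub_mem _ hb'.1 hdy, hxy⟩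

/-- a band with cohomology only in the degrees between `g₁` and `g₂` -/
theorem TK_band_in (h : Ops d τ ν) {V G G' : ℕ → Submodule F E} (hV : Sub d τ ν V)
    (hG : Sub d τ ν G) (hG' : Sub d τ ν G') (hGG : ∀ j, G' j ≤ G j) (hGV : ∀ j, G j ≤ V j)
    (J : ℕ) (hJ : ∀ j, J ≤ j → V j = ⊥) {g₁ g₂ : ℕ} (h12 : g₁ < g₂)
    (hb : ∀ j, (j ≤ g₁ ∨ g₂ ≤ j) → HK d G G' j 0) {r : ℕ}
    (hr : ∀ k, TK d τ ν k G G' r) (k : ℕ) :
    TK d τ ν k (trf d V g₁ g₂ G) (trf d V g₁ g₂ G') r := by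
  set L := trun d V g₁ with hL
  set B := trun d V g₂ with hB
  have hLS : Sub d τ ν L := hV.trun h g₁
  have hBS : Sub d τ ν B := hV.trun h g₂
  have hLB : ∀ j, L j ≤ B j := fun j => Trunc_mono h12 j
  -- `P = G' + (B ⊓ G)`
  have hPS : Sub d τ ν (fun j => G' j ⊔ (B j ⊓ G j)) := Trunc_sup hG' (Trunc_inf hBS hG)
  have h1 : ∀ k, TK d τ ν k G (fun j => G' j ⊔ (B j ⊓ G j)) 0 := by
    refine fun k => Trunc_TK_zero h hPS hG (fun j => sup_le (hGG j) inf_le_right) J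
      (fun j hj => (hGV j).trans ((hJ j hj).le.trans bot_le)) (fun j x hx hdx => ?_) k
    rcases Nat.lt_or_ge j g₂ with hj | hj
    · refine ⟨0, Submodule.zero_mem _, ?_⟩
      rw [map_zero, sub_zero]
      refine Submodule.mem_sup_right ⟨?_, hx⟩
      rw [hB, Trunc_lt hj]
      exact hGV j hx
    · have h2 : d x ∈ G' (j + 1) := by
        have h3 : B (j + 1) = ⊥ := Trunc_gt (show g₂ < j + 1 by omega)
        simp only [h3, bot_inf_eq, sup_bot_eq] at hdx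
        exact hdx
      obtain ⟨y, hy, hxy⟩ := RK_zero.1 (hb j (Or.inr hj)) x hx h2
      exact ⟨y, hy, Submodule.mem_sup_left hxy⟩
  have h2 : ∀ k, TK d τ ν k (fun j => G' j ⊔ (B j ⊓ G j)) G' r := fun k =>
    TK.sub h hPS (fun j => le_sup_left) (fun j => sup_le (hGG j) inf_le_right) (h1 (k + 1)) (hr k)
  -- `B ⊓ G` modulo `B ⊓ G'`
  have h3 : ∀ k, TK d τ ν k (fun j => B j ⊓ G j) (fun j => B j ⊓ G' j) r := by
    intro k
    obtain ⟨ℓ, hℓ⟩ := h2 k
    refine ⟨ℓ, fun x hx hdx h0 => ?_⟩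
    obtain ⟨y, hy, hxy⟩ := hℓ x (mem_sq.2 fun j => Submodule.mem_sup_right (mem_sq.1 hx j))
      (mem_sq.2 fun j => (mem_sq.1 hdx j).2) h0
    have hy' : ∀ j, ∃ b ∈ B j ⊓ G j, y j - b ∈ G' j := by
      intro j
      obtain ⟨g, hg, b, hb', hgb⟩ := Submodule.mem_sup.1 (mem_sq.1 hy j)
      refine ⟨b, hb', ?_⟩
      rw [← hgb, add_sub_cancel_right]
      exact hg
    choose b hb1 hb2 using hy'
    have hbs : b ∈ sq (fun j => B j ⊓ G j) := mem_sq.2 hb1
    refine ⟨b, hbs, ?_⟩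
    have h4 : x - del d τ ν (k + 1) b =
        (x - del d τ ν (k + 1) y) + del d τ ν (k + 1) (y - b) := by
      rw [map_sub]; abel
    refine mem_sq.2 fun j => ⟨?_, ?_⟩
    · have h5 : del d τ ν (k + 1) b ∈ sq B :=
        hBS.del (k + 1) (mem_sq.2 fun j => (hb1 j).1)
      exact Submodule.sub_mem _ (mem_sq.1 hx j).1 (mem_sq.1 h5 j)
    · rw [h4]
      have h5 : del d τ ν (k + 1) (y - b) ∈ sq G' := hG'.del (k + 1) (mem_sq.2 hb2)
      exact Submodule.add_mem _ (mem_sq.1 hxy j) (mem_sq.1 h5 j)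
  -- `M = (L ⊓ G) + (B ⊓ G')`
  have hMS : Sub d τ ν (fun j => (L j ⊓ G j) ⊔ (B j ⊓ G' j)) :=
    Trunc_sup (Trunc_inf hLS hG) (Trunc_inf hBS hG')
  have hMG : ∀ j, (L j ⊓ G j) ⊔ (B j ⊓ G' j) ≤ B j ⊓ G j := fun j =>
    sup_le (inf_le_inf_right _ (hLB j)) (inf_le_inf_left _ (hGG j))
  have h4 : ∀ k, TK d τ ν k (fun j => (L j ⊓ G j) ⊔ (B j ⊓ G' j)) (fun j => B j ⊓ G' j) 0 := by
    refine fun k => Trunc_TK_zero h (Trunc_inf hBS hG') hMS (fun j => le_sup_right) J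
      (fun j hj => ((hMG j).trans (inf_le_right.trans (hGV j))).trans ((hJ j hj).le.trans bot_le))
      (fun j x hx hdx => ?_) k
    rcases Nat.lt_or_ge g₁ j with hj | hj
    · refine ⟨0, Submodule.zero_mem _, ?_⟩
      rw [map_zero, sub_zero]
      have h5 : L j = ⊥ := Trunc_gt hj
      simp only [h5, bot_inf_eq, bot_sup_eq] at hx
      exact hx
    · have hxG : x ∈ B j ⊓ G j := hMG j hx
      obtain ⟨y, hy, hxy⟩ := RK_zero.1 (hb j (Or.inl hj)) x hxG.2 hdx.2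
      have hyL : ∀ i, i + 1 = j → G i ≤ L i ⊓ G i := fun i hi => by
        refine le_inf ?_ le_rfl
        rw [hL, Trunc_lt (show i < g₁ by omega)]
        exact hGV i
      refine ⟨y, Trunc_pr_mono (fun i hi => (hyL i hi).trans le_sup_left) hy, ?_, hxy⟩
      refine Submodule.sub_mem _ hxG.1 ?_
      cases j with
      | zero =>
        have h0 : y = 0 := by simpa [pr] using hy
        rw [h0, map_zero]
        exact Submodule.zero_mem _
      | succ i => exact hBS.d i y (hLB i ((hyL i rfl) hy).1)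
  have h5 : TK d τ ν k (fun j => B j ⊓ G j) (fun j => (L j ⊓ G j) ⊔ (B j ⊓ G' j)) r :=
    TK.quot h (Trunc_inf hBS hG') (fun j => le_sup_right) hMG (h4 (k + 1)) (h3 k)
  -- the last step
  obtain ⟨ℓ, hℓ⟩ := h5
  have hs : ∀ j, ∃ s : E →ₗ[F] E, ∀ x ∈ trf d V g₁ g₂ G j,
      s x ∈ B j ⊓ G j ∧ x - s x ∈ L j := by
    intro j
    obtain ⟨s, hs⟩ := RKa_lift (trf d V g₁ g₂ G j) (B j ⊓ G j) (L j) LinearMap.id LinearMap.id
      (fun x hx => by
        obtain ⟨l, hl, b, hb', rfl⟩ := Submodule.mem_sup.1 hx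
        refine ⟨b, hb', ?_⟩
        simpa using hl)
    exact ⟨s, fun x hx => by simpa using hs x hx⟩
  choose s hs1 using hs
  refine ⟨ℓ.comp (LinearMap.pi fun j => (s j).comp (LinearMap.proj j)), fun x hx hdx h0 => ?_⟩
  set x' : ℕ → E := fun j => s j (x j) with hx'
  have hx'1 : ∀ j, x' j ∈ B j ⊓ G j := fun j => (hs1 j (x j) (mem_sq.1 hx j)).1
  have hx'2 : ∀ j, (x - x') j ∈ L j := fun j => (hs1 j (x j) (mem_sq.1 hx j)).2
  have h0' : ℓ x' = 0 := h0
  have hx's : x' ∈ sq (fun j => B j ⊓ G j) := mem_sq.2 hx'1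
  have hd' : del d τ ν k x' ∈ sq (fun j => (L j ⊓ G j) ⊔ (B j ⊓ G' j)) := by
    refine mem_sq.2 fun j => ?_
    have h6 : del d τ ν k x' j ∈ B j ⊓ G j :=
      mem_sq.1 ((Trunc_inf hBS hG).del k hx's) j
    have h7 : del d τ ν k (x - x') j ∈ L j := mem_sq.1 (hLS.del k (mem_sq.2 hx'2)) j
    have h8 : del d τ ν k x' j = del d τ ν k x j - del d τ ν k (x - x') j := by
      rw [map_sub, Pi.sub_apply, sub_sub_cancel]
    obtain ⟨l, hl, b, hb', hlb⟩ := Submodule.mem_sup.1 (mem_sq.1 hdx j)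
    have hlb' : del d τ ν k x j = l + b := hlb.symm
    have h9 : del d τ ν k x' j = (l - del d τ ν k (x - x') j) + b := by
      rw [h8, hlb']; abel
    have h10 : l - del d τ ν k (x - x') j ∈ G j := by
      have : l - del d τ ν k (x - x') j = del d τ ν k x' j - b := by
        rw [h9, add_sub_cancel_right]
      rw [this]
      exact Submodule.sub_mem _ h6.2 (hGG j hb'.2)
    rw [h9]
    exact Submodule.add_mem_sup ⟨Submodule.sub_mem _ hl h7, h10⟩ hb'
  obtain ⟨y, hy, hxy⟩ := hℓ x' hx's hd' h0'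
  refine ⟨y, mem_sq.2 fun j => Submodule.mem_sup_right (mem_sq.1 hy j), mem_sq.2 fun j => ?_⟩
  have h11 : (x - del d τ ν (k + 1) y) j = (x - x') j + (x' - del d τ ν (k + 1) y) j := by
    simp only [Pi.sub_apply]; abel
  rw [h11]
  obtain ⟨m, hm, b, hb', hmb⟩ := Submodule.mem_sup.1 (mem_sq.1 hxy j)
  rw [← hmb, ← add_assoc]
  exact Submodule.add_mem_sup (Submodule.add_mem _ (hx'2 j) hm.1) hb'

/-- **Algebraic main theorem.** A filtered complex whose bands have cohomology either outside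
`[g₁, g₂]`, or inside `(g₁, g₂)` with Tate cohomology of rank at most `r i`; total cohomology only
strictly between `g₁` and `g₂`. -/
theorem alg_main (h : Ops d τ ν) (Fi : ℕ → ℕ → Submodule F E) (M : ℕ)
    (hsub : ∀ i, Sub d τ ν (Fi i)) (hmono : ∀ i j, Fi (i + 1) j ≤ Fi i j)
    (hM : ∀ j, Fi M j = ⊥) (J : ℕ) (hJ : ∀ j, J ≤ j → Fi 0 j = ⊥)
    {g₁ g₂ : ℕ} (h12 : g₁ < g₂) (hlow : ∀ j ≤ g₁, HK d (Fi 0) (fun _ => ⊥) j 0)
    (hup : ∀ j, g₂ < j → HK d (Fi 0) (fun _ => ⊥) j 0) (r : ℕ → ℕ)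
    (hband : ∀ i < M, (∀ j, g₁ ≤ j → j ≤ g₂ → HK d (Fi i) (Fi (i + 1)) j 0) ∨
      ((∀ j, (j ≤ g₁ ∨ g₂ ≤ j) → HK d (Fi i) (Fi (i + 1)) j 0) ∧
        ∀ k, TK d τ ν k (Fi i) (Fi (i + 1)) (r i))) (k : ℕ) :
    TK d τ ν k (Fi 0) (fun _ => ⊥) (∑ i ∈ Finset.range M, r i) := by
  have hV : ∀ i j, Fi i j ≤ Fi 0 j := by
    intro i j
    induction i with
    | zero => exact le_rfl
    | succ i ih => exact (hmono i j).trans ih
  have hT0 : ∀ j, trf d (Fi 0) g₁ g₂ (Fi 0) j = trun d (Fi 0) g₂ j := by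
    intro j
    unfold trf
    rw [inf_eq_left.2 (Trunc_le g₂ j), sup_eq_right]
    exact Trunc_mono h12 j
  have hTM : ∀ j, trf d (Fi 0) g₁ g₂ (Fi M) j = trun d (Fi 0) g₁ j := by
    intro j
    unfold trf
    rw [hM j, inf_bot_eq, sup_bot_eq]
  have hT0' : trf d (Fi 0) g₁ g₂ (Fi 0) = trun d (Fi 0) g₂ := funext hT0
  have hTM' : trf d (Fi 0) g₁ g₂ (Fi M) = trun d (Fi 0) g₁ := funext hTM
  have hstep : ∀ m ≤ M, TK d τ ν k (trf d (Fi 0) g₁ g₂ (Fi 0)) (trf d (Fi 0) g₁ g₂ (Fi m))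
      (∑ i ∈ Finset.range m, r i) := by
    intro m
    induction m with
    | zero =>
      intro _
      refine RK_zero.2 fun x hx _ => ⟨0, Submodule.zero_mem _, ?_⟩
      rwa [map_zero, sub_zero]
    | succ m ih =>
      intro hm
      rw [Finset.sum_range_succ]
      refine TK.trans h ((hsub 0).trf h (hsub (m + 1)) g₁ g₂)
        (Trunc_trf_mono (hmono m) g₁ g₂) (Trunc_trf_mono (hV m) g₁ g₂) (ih (by omega)) ?_
      rcases hband m (by omega) with hb | ⟨hb, hr⟩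
      · exact (TK_band_out h (hsub 0) (hsub m) (hsub (m + 1)) (hmono m) (hV m) J hJ h12 hb
          k).mono_r (Nat.zero_le _)
      · exact TK_band_in h (hsub 0) (hsub m) (hsub (m + 1)) (hmono m) (hV m) J hJ h12 hb hr k
  have h1 := hstep M le_rfl
  rw [hT0', hTM'] at h1
  have h2 := TK_trun_top h (hsub 0) g₂ J hJ hup k
  have h3 := TK_trun_bot h (hsub 0) g₁ hlow k
  have h4 := TK.trans h ((hsub 0).trun h g₁) (Trunc_mono h12) (Trunc_le g₂) h2 h1
  have h5 := TK.trans h Trunc_bot (fun _ => bot_le) (Trunc_le g₁) h4 h3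
  rwa [zero_add, add_zero] at h5

end Pool.Agent.H47.ST
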