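import Pool.Agent.H47.ST.Free
import Pool.Agent.H47.ST.Trunc
import Pool.Agent.H47.ST.Sym
import Pool.Agent.H47.ST.Lev

/-!
# The equivariant rank theorem for filtered grids
-/

set_option autoImplicit false

namespace Pool.Agent.H47.ST

variable {ι κ : Type*} [Fintype ι] [Fintype κ]

/-- The functions vanishing on the fixed simplices form a subcomplex. -/
theorem Loc_Pv_le {F : Type*} [Field F] {π : Equiv.Perm ι} {L : AddSubgroup (ι → ℤ)}
    {X A B : Set (ι → ℤ)} (hAB : A ⊆ B) (j : ℕ) :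
    Pv F π L X A B j ≤ co (F := F) L X A j :=
  sup_le (co_anti hAB j) inf_le_left

/-- In degree zero there is nothing. -/
theorem Loc_HK_zero {F : Type*} [Field F] {L : AddSubgroup (ι → ℤ)} {X A : Set (ι → ℤ)}
    {d : Co ι F →ₗ[F] Co ι F} (G : ℕ → Submodule F (Co ι F)) (r : ℕ) :
    HK d (co (F := F) L X A) G 0 r := by
  refine ⟨0, fun x hx _ _ => ⟨0, Submodule.zero_mem _, ?_⟩⟩
  rw [co_zero, Submodule.mem_bot] at hx
  rw [hx, map_zero, sub_zero]
  exact Submodule.zero_mem _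

/-- Localisation for one band. -/
theorem loc_band {p : ℕ} [Fact p.Prime] {π : Equiv.Perm ι} {s : ι → κ}
    {L : AddSubgroup (ι → ℤ)} {L' : AddSubgroup (κ → ℤ)} (hc : Cyc π p L) (hs : Fold π s L L')
    {X A B : Set (ι → ℤ)} (hX : PInv π X) (hA : PInv π A) (hB : PInv π B) (hXL : Inv L X)
    (hAL : Inv L A) (hBL : Inv L B) (hAB : A ⊆ B) (hBX : B ⊆ X) (r : ℕ → ℕ)
    (hr : ∀ j, HR (ZMod p) L' (fo s B) (fo s A) j (r j)) (k : ℕ) :
    TK (dX (F := ZMod p) X) (ta (ZMod p) π) (nu (ZMod p) π p) k (co (F := ZMod p) L X A)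
      (co (F := ZMod p) L X B) (∑ j ∈ Finset.range (Fintype.card ι + 2), r j) := by
  have h := Cyc_ops hc hX
  have hP := Cyc_subP hc hX hA hB hXL
  have hsA := Cyc_sub hc hX hA hXL
  have hsB := Cyc_sub hc hX hB hXL
  have h1 : TK (dX (F := ZMod p) X) (ta (ZMod p) π) (nu (ZMod p) π p) k
      (co (F := ZMod p) L X A) (Pv (ZMod p) π L X A B)
      (∑ j ∈ Finset.range (Fintype.card ι + 2), Nat.casesOn (motive := fun _ => ℕ) j 0 r) := by
    refine TK_of_HK h hP hsA (Loc_Pv_le hAB) (Fintype.card ι + 2) (fun j hj => ?_) _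
      (fun j _ => ?_) k
    · rw [co_big L X A (by omega)]
      exact bot_le
    · cases j with
      | zero => exact Loc_HK_zero _ _
      | succ j => exact HR.fold hs hc.wide hXL hAL hBL hAB hBX (hr j)
  have h2 := free_TK hc hX hA hB hXL hAL hBL hAB hBX k
  have h3 := TK.trans h hsB (fun j => le_sup_left) (Loc_Pv_le hAB) h1 h2
  refine RK.mono_r h3 ?_
  have e : (∑ j ∈ Finset.range (Fintype.card ι + 2), Nat.casesOn (motive := fun _ => ℕ) j 0 r) =
      ∑ j ∈ Finset.range (Fintype.card ι + 1), r j := by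
    rw [Finset.sum_range_succ']
    change (∑ j ∈ Finset.range (Fintype.card ι + 1), r j) + 0 = _
    rw [add_zero]
  rw [add_zero, e, Finset.sum_range_succ r (Fintype.card ι + 1)]
  exact Nat.le_add_right _ _

omit [Fintype ι] [Fintype κ] in
/-- invariance of the vertex sets of the smaller grid -/
theorem Loc_Inv_fo {π : Equiv.Perm ι} {s : ι → κ} {L : AddSubgroup (ι → ℤ)}
    {L' : AddSubgroup (κ → ℤ)} (hs : Fold π s L L') {X : Set (ι → ℤ)} (hX : Inv L X) :
    Inv L' (fo s X) := fun l hl v => hX (l ∘ s) ((hs.lat _).2 ⟨l, hl, rfl⟩) (v ∘ s)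

/-- **Equivariant rank theorem for filtered grids.** `A 0 ⊆ A 1 ⊆ … ⊆ A M = X`. Dimensions
`g₁ < g₂`. -/
theorem grid_rank {p : ℕ} [Fact p.Prime] {π : Equiv.Perm ι} {s : ι → κ}
    {L : AddSubgroup (ι → ℤ)} {L' : AddSubgroup (κ → ℤ)} (hc : Cyc π p L) (hs : Fold π s L L')
    (A : ℕ → Set (ι → ℤ)) (M : ℕ) (hmono : ∀ i, A i ⊆ A (i + 1)) (hA : ∀ i, PInv π (A i))
    (hAL : ∀ i, Inv L (A i)) {g₁ g₂ : ℕ} (h12 : g₁ < g₂)
    (hlow : ∀ j ≤ g₁, HR (ZMod p) L (A M) (A 0) j 0)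
    (hup : ∀ j, g₂ < j → HR (ZMod p) L (A M) (A 0) j 0) (r : ℕ → ℕ)
    (hband : ∀ i < M, (∀ j, g₁ ≤ j → j ≤ g₂ → HR (ZMod p) L (A (i + 1)) (A i) j 0) ∨
      ((∀ j, (j ≤ g₁ ∨ g₂ ≤ j) → HR (ZMod p) L (A (i + 1)) (A i) j 0) ∧
        ∃ q : ℕ → ℕ, (∀ j, HR (ZMod p) L' (fo s (A (i + 1))) (fo s (A i)) j (q j)) ∧
          ∑ j ∈ Finset.range (Fintype.card ι + 2), q j ≤ r i))
    -- symmetry of the pair (A M, A 0) in the smaller grid
    (heven : ∀ l ∈ L', ∀ i, Even (l i)) (hW' : Wide L')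
    (hXs : ∀ v, v ∈ fo s (A M) ↔ -v ∈ fo s (A M)) (hAs : ∀ v, v ∈ fo s (A 0) ↔ -v ∈ fo s (A 0))
    (hfin : FinMod L' (fo s (A M)) (fo s (A 0))) (D : Finset (κ → ℤ)) (hD : ∀ v ∈ D, v + v ∈ L')
    (hD' : ∀ v, v + v ∈ L' → ∃ c ∈ D, v - c ∈ L')
    (hDd : ∀ v ∈ D, ∀ c ∈ D, v - c ∈ L' → v = c)
    (hDX : ∀ v, v + v ∈ L' → v ∈ fo s (A M) ∧ v ∉ fo s (A 0)) (hp : 2 * D.card < p) :
    D.card ≤ ∑ i ∈ Finset.range M, r i := by
  have hle : ∀ m, ∀ i ≤ m, A i ⊆ A m := by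
    intro m
    induction m with
    | zero =>
      intro i hi
      rw [Nat.le_zero.1 hi]
    | succ m ih =>
      intro i hi
      rcases Nat.lt_or_ge m i with h | h
      · rw [show i = m + 1 by omega]
      · exact (ih i h).trans (hmono m)
  have h0M : A 0 ⊆ A M := hle M 0 (Nat.zero_le _)
  have h := Cyc_ops hc (hA M)
  have hbot : (fun j => co (F := ZMod p) L (A M) (A M) j) = fun _ => ⊥ :=
    funext fun j => co_self L (A M) j
  have hbot' : co (F := ZMod p) L (A M) (A M) = fun _ => ⊥ := hbot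
  have hrel : ∀ i < M, ∀ j, HR (ZMod p) L (A (i + 1)) (A i) j 0 →
      HK (dX (A M)) (co (F := ZMod p) L (A M) (A i)) (co (F := ZMod p) L (A M) (A (i + 1)))
        (j + 1) 0 := fun i hi j hj => HR.rel (hAL M) (hAL (i + 1)) (hmono i) (hle M (i + 1) hi) hj
  have hrel' : ∀ j, HR (ZMod p) L (A M) (A 0) j 0 →
      HK (dX (A M)) (co (F := ZMod p) L (A M) (A 0)) (fun _ => ⊥) (j + 1) 0 := by
    intro j hj
    have h1 := HR.rel (hAL M) (hAL M) h0M (Set.Subset.refl (A M)) hj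
    rwa [hbot'] at h1
  have hmain := alg_main h (fun i => co (F := ZMod p) L (A M) (A i)) M
    (fun i => Cyc_sub hc (hA M) (hA i) (hAL M)) (fun i j => co_anti (hmono i) j)
    (fun j => co_self L (A M) j) (Fintype.card ι + 2) (fun j hj => co_big L (A M) (A 0) (by omega))
    (Nat.succ_lt_succ h12) (fun j hj => ?_) (fun j hj => ?_) r (fun i hi => ?_) 0
  · have h4 := free_TK hc (hA M) (hA 0) (hA M) (hAL M) (hAL 0) (hAL M) h0M
      (Set.Subset.refl (A M)) (0 + 1)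
    rw [hbot'] at h4
    have h5 := TK.quot h Trunc_bot (fun j => bot_le) (Loc_Pv_le h0M) h4 hmain
    have h6 := tot_of_TK hs hc.wide hc.pow (hAL M) (hAL 0) h0M h5
    exact sym_bound hW' heven (TransN_fo_mono s h0M) (Loc_Inv_fo hs (hAL M))
      (Loc_Inv_fo hs (hAL 0)) hXs hAs hfin D hD hD' hDd hDX hp h6
  · cases j with
    | zero => exact Loc_HK_zero _ _
    | succ j => exact hrel' j (hlow j (Nat.le_of_succ_le_succ hj))
  · cases j with
    | zero => exact absurd hj (Nat.not_lt_zero _)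
    | succ j => exact hrel' j (hup j (Nat.lt_of_succ_lt_succ hj))
  · rcases hband i hi with hb | ⟨hb, q, hq, hqr⟩
    · left
      intro j hj1 hj2
      cases j with
      | zero => exact Loc_HK_zero _ _
      | succ j => exact hrel i hi j (hb j (Nat.le_of_succ_le_succ hj1) (Nat.le_of_succ_le_succ hj2))
    · right
      refine ⟨fun j hj => ?_, fun k => ?_⟩
      · cases j with
        | zero => exact Loc_HK_zero _ _
        | succ j =>
          exact hrel i hi j (hb j (hj.imp Nat.le_of_succ_le_succ Nat.le_of_succ_le_succ))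
      · exact RK.mono_r (loc_band hc hs (hA M) (hA i) (hA (i + 1)) (hAL M) (hAL i) (hAL (i + 1))
          (hmono i) (hle M (i + 1) hi) q hq k) hqr

end Pool.Agent.H47.ST
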