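import Pool.Agent.H47.ST.Defs

/-! Project ST: powers of a sum of signs, moments of character sums. -/

namespace Pool.Agent.H47.ST

open Finset Pool.Agent.H46.SR
open scoped Classical

variable {D : Type*}

/-- coefficients of the powers of a sum of signs -/
noncomputable def alpha (X : Finset D) (co : D → ℝ) : ℕ → Finset D → ℝ
  | 0, F => if F = ∅ then 1 else 0
  | p + 1, F => ∑ ψ ∈ X, co ψ * alpha X co p (symmDiff F {ψ})

theorem Alpha_sd_mem {F : Finset D} {ψ : D} (h : ψ ∈ F) : symmDiff F {ψ} = F.erase ψ := by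
  ext x
  simp only [mem_symmDiff, mem_singleton, mem_erase]
  constructor
  · rintro (⟨h1, h2⟩ | ⟨h1, h2⟩)
    · exact ⟨h2, h1⟩
    · subst h1; exact absurd h h2
  · rintro ⟨h1, h2⟩
    exact Or.inl ⟨h2, h1⟩

theorem Alpha_sd_not_mem {F : Finset D} {ψ : D} (h : ψ ∉ F) : symmDiff F {ψ} = insert ψ F := by
  ext x
  simp only [mem_symmDiff, mem_singleton, mem_insert]
  constructor
  · rintro (⟨h1, h2⟩ | ⟨h1, h2⟩)
    · exact Or.inr h1
    · exact Or.inl h1
  · rintro (h1 | h1)
    · exact Or.inr ⟨h1, by rw [h1]; exact h⟩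
    · refine Or.inl ⟨h1, ?_⟩
      intro h2
      subst h2
      exact h h1

theorem Alpha_sd_sd (F : Finset D) (ψ : D) : symmDiff (symmDiff F {ψ}) {ψ} = F :=
  symmDiff_symmDiff_cancel_right _ _

theorem Alpha_sd_subset {X F : Finset D} {ψ : D} (hψ : ψ ∈ X) (hF : F ⊆ X) :
    symmDiff F {ψ} ⊆ X := by
  intro x hx
  rw [mem_symmDiff, mem_singleton] at hx
  rcases hx with ⟨h1, _⟩ | ⟨h1, _⟩
  · exact hF h1
  · rw [h1]; exact hψ

theorem Alpha_prod_sd (t : D → ℝ) (ht : ∀ ψ, t ψ ^ 2 = 1) (F : Finset D) (ψ : D) :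
    ∏ χ ∈ symmDiff F {ψ}, t χ = (∏ χ ∈ F, t χ) * t ψ := by
  by_cases h : ψ ∈ F
  · rw [Alpha_sd_mem h, ← Finset.mul_prod_erase F t h]
    have := ht ψ
    calc ∏ χ ∈ F.erase ψ, t χ = t ψ ^ 2 * ∏ χ ∈ F.erase ψ, t χ := by rw [this, one_mul]
      _ = _ := by ring
  · rw [Alpha_sd_not_mem h, Finset.prod_insert h, mul_comm]

/-- `s_ψ s_F = s_(F △ ψ)`; induction on `p` -/
theorem sum_pow_eq (X : Finset D) (co t : D → ℝ) (ht : ∀ ψ, t ψ ^ 2 = 1) (p : ℕ) :
    (∑ ψ ∈ X, co ψ * t ψ) ^ p = ∑ F ∈ X.powerset, alpha X co p F * ∏ ψ ∈ F, t ψ := by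
  induction p with
  | zero =>
    rw [pow_zero, Finset.sum_eq_single (∅ : Finset D)]
    · simp [alpha]
    · intro F _ hF
      simp [alpha, hF]
    · intro h
      exact absurd (Finset.empty_mem_powerset X) h
  | succ p ih =>
    rw [pow_succ, ih, Finset.mul_sum]
    have h1 : ∀ ψ ∈ X, (∑ F ∈ X.powerset, alpha X co p F * ∏ χ ∈ F, t χ) * (co ψ * t ψ) =
        ∑ F ∈ X.powerset, co ψ * alpha X co p (symmDiff F {ψ}) * ∏ χ ∈ F, t χ := by
      intro ψ hψ
      rw [Finset.sum_mul]
      refine Finset.sum_nbij' (fun F => symmDiff F {ψ}) (fun F => symmDiff F {ψ}) ?_ ?_ ?_ ?_ ?_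
      · intro F hF
        rw [Finset.mem_powerset] at hF ⊢
        exact Alpha_sd_subset hψ hF
      · intro F hF
        rw [Finset.mem_powerset] at hF ⊢
        exact Alpha_sd_subset hψ hF
      · intro F _
        exact Alpha_sd_sd F ψ
      · intro F _
        exact Alpha_sd_sd F ψ
      · intro F _
        rw [Alpha_sd_sd, Alpha_prod_sd t ht]
        ring
    rw [Finset.sum_congr rfl h1, Finset.sum_comm]
    apply Finset.sum_congr rfl
    intro F _
    rw [alpha, Finset.sum_mul]

theorem Alpha_card_sd_ge (F : Finset D) (ψ : D) : F.card ≤ (symmDiff F {ψ}).card + 1 := by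
  by_cases h : ψ ∈ F
  · rw [Alpha_sd_mem h, Finset.card_erase_of_mem h]
    omega
  · rw [Alpha_sd_not_mem h, Finset.card_insert_of_notMem h]
    omega

theorem alpha_eq_zero (X : Finset D) (co : D → ℝ) (p : ℕ) (F : Finset D) (h : p < F.card) :
    alpha X co p F = 0 := by
  induction p generalizing F with
  | zero =>
    have hF : F ≠ ∅ := by
      intro h0
      rw [h0] at h
      simp at h
    simp [alpha, hF]
  | succ p ih =>
    rw [alpha]
    apply Finset.sum_eq_zero
    intro ψ _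
    rw [ih, mul_zero]
    have := Alpha_card_sd_ge F ψ
    omega

/-- by induction on `p`:
`|α_(p+1)(F)| r^g ≤ K ∑_(ψ in F) |α_p(F - ψ)| r^(g-1) r + K ∑_(ψ not in F) |α_p(F + ψ)| r^(g+1) / r
≤ K (g + 1) r (K p r)^p` if `g = |F| ≤ p`; for `g = p + 1` the second sum vanishes, for `g > p + 1`
everything vanishes -/
theorem abs_alpha_le (X : Finset D) (co : D → ℝ) {K r : ℝ} (hK0 : 0 ≤ K)
    (hK : ∀ ψ ∈ X, |co ψ| ≤ K) (hr : 0 < r) (hX : (X.card : ℝ) ≤ r ^ 2) (p : ℕ)
    (F : Finset D) (hF : F ⊆ X) : |alpha X co p F| * r ^ F.card ≤ (K * p * r) ^ p := by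
  induction p generalizing F with
  | zero =>
    rw [pow_zero]
    by_cases h : F = ∅
    · simp [alpha, h]
    · simp [alpha, h]
  | succ p ih =>
    have hB0 : 0 ≤ (K * p * r) ^ p := by positivity
    rcases Nat.lt_or_ge (p + 1) F.card with hlt | hge
    · rw [alpha_eq_zero X co (p + 1) F hlt]
      simp only [abs_zero, zero_mul]
      positivity
    -- bounds for the two kinds of terms
    have hin : ∀ ψ ∈ F, |alpha X co p (symmDiff F {ψ})| * r ^ F.card ≤ (K * p * r) ^ p * r := by
      intro ψ hψ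
      have h1 := ih (symmDiff F {ψ}) (Alpha_sd_subset (hF hψ) hF)
      have h2 : (symmDiff F {ψ}).card + 1 = F.card := by
        rw [Alpha_sd_mem hψ, Finset.card_erase_of_mem hψ]
        have := Finset.card_pos.2 ⟨ψ, hψ⟩
        omega
      rw [← h2, pow_succ, ← mul_assoc]
      exact mul_le_mul_of_nonneg_right h1 hr.le
    have hout : ∀ ψ ∈ X \ F, |alpha X co p (symmDiff F {ψ})| * r ^ F.card ≤
        (if F.card = p + 1 then 0 else (K * p * r) ^ p / r) := by
      intro ψ hψ
      rw [Finset.mem_sdiff] at hψ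
      have h2 : (symmDiff F {ψ}).card = F.card + 1 := by
        rw [Alpha_sd_not_mem hψ.2, Finset.card_insert_of_notMem hψ.2]
      split_ifs with hc
      · rw [alpha_eq_zero X co p _ (by omega)]
        simp
      · have h1 := ih (symmDiff F {ψ}) (Alpha_sd_subset hψ.1 hF)
        rw [h2, pow_succ, ← mul_assoc] at h1
        rw [le_div_iff₀ hr]
        exact h1
    have hsum : |alpha X co (p + 1) F| * r ^ F.card ≤
        K * ∑ ψ ∈ X, |alpha X co p (symmDiff F {ψ})| * r ^ F.card := by
      rw [alpha]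
      have h1 : |∑ ψ ∈ X, co ψ * alpha X co p (symmDiff F {ψ})| ≤
          ∑ ψ ∈ X, K * |alpha X co p (symmDiff F {ψ})| := by
        refine (Finset.abs_sum_le_sum_abs _ _).trans ?_
        apply Finset.sum_le_sum
        intro ψ hψ
        rw [abs_mul]
        exact mul_le_mul_of_nonneg_right (hK ψ hψ) (abs_nonneg _)
      refine (mul_le_mul_of_nonneg_right h1 (by positivity)).trans ?_
      rw [Finset.sum_mul, Finset.mul_sum]
      apply Finset.sum_le_sum
      intro ψ _
      exact le_of_eq (by ring)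
    have hsplit : ∑ ψ ∈ X, |alpha X co p (symmDiff F {ψ})| * r ^ F.card ≤
        (F.card : ℝ) * ((K * p * r) ^ p * r) +
          ((X \ F).card : ℝ) * (if F.card = p + 1 then 0 else (K * p * r) ^ p / r) := by
      rw [← Finset.sum_sdiff hF, add_comm]
      apply add_le_add
      · refine (Finset.sum_le_sum hin).trans ?_
        rw [Finset.sum_const, nsmul_eq_mul]
      · refine (Finset.sum_le_sum hout).trans ?_
        rw [Finset.sum_const, nsmul_eq_mul]
    have hmain : ∑ ψ ∈ X, |alpha X co p (symmDiff F {ψ})| * r ^ F.card ≤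
        ((p : ℝ) + 1) * r * (K * p * r) ^ p := by
      refine hsplit.trans ?_
      split_ifs with hc
      · rw [hc, mul_zero, add_zero]
        push_cast
        exact le_of_eq (by ring)
      · have h3 : ((X \ F).card : ℝ) * ((K * p * r) ^ p / r) ≤ r * (K * p * r) ^ p := by
          have h4 : ((X \ F).card : ℝ) ≤ r ^ 2 :=
            le_trans (by exact_mod_cast Finset.card_le_card Finset.sdiff_subset) hX
          calc ((X \ F).card : ℝ) * ((K * p * r) ^ p / r) ≤ r ^ 2 * ((K * p * r) ^ p / r) :=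
                mul_le_mul_of_nonneg_right h4 (by positivity)
            _ = r * (K * p * r) ^ p := by
                field_simp
        have h5 : (F.card : ℝ) ≤ p := by
          have : F.card ≤ p := by omega
          exact_mod_cast this
        have h6 : (F.card : ℝ) * ((K * p * r) ^ p * r) ≤ p * ((K * p * r) ^ p * r) :=
          mul_le_mul_of_nonneg_right h5 (by positivity)
        calc _ ≤ p * ((K * p * r) ^ p * r) + r * (K * p * r) ^ p := add_le_add h6 h3
          _ = _ := by ring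
    refine hsum.trans ((mul_le_mul_of_nonneg_left hmain hK0).trans ?_)
    have h7 : (K * p * r) ^ p ≤ (K * ((p + 1 : ℕ) : ℝ) * r) ^ p := by
      apply pow_le_pow_left₀ (by positivity)
      apply mul_le_mul_of_nonneg_right _ hr.le
      apply mul_le_mul_of_nonneg_left _ hK0
      push_cast
      linarith
    calc K * (((p : ℝ) + 1) * r * (K * p * r) ^ p)
        = (K * ((p + 1 : ℕ) : ℝ) * r) * (K * p * r) ^ p := by push_cast; ring
      _ ≤ (K * ((p + 1 : ℕ) : ℝ) * r) * (K * ((p + 1 : ℕ) : ℝ) * r) ^ p :=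
          mul_le_mul_of_nonneg_left h7 (by positivity)
      _ = _ := by rw [pow_succ, mul_comm]

section W
variable {W : Type*} [AddCommGroup W] [Module (ZMod 2) W] [Fintype W]

/-- orthogonality: a nonzero functional is balanced -/
theorem av_sg (ψ : Module.Dual (ZMod 2) W) :
    av (fun x : W => sg (ψ x)) = if ψ = 0 then 1 else 0 := by
  split_ifs with h
  · subst h
    have h1 : (fun x : W => sg ((0 : Module.Dual (ZMod 2) W) x)) = fun _ => 1 := by
      funext x
      rw [LinearMap.zero_apply, sg_zero]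
    rw [h1]
    exact av_const _
  · have h1 : ∃ x0 : W, ψ x0 = 1 := by
      by_contra hc
      push Not at hc
      apply h
      ext x
      rcases zmod_two_cases (ψ x) with h2 | h2
      · rw [h2, LinearMap.zero_apply]
      · exact absurd h2 (hc x)
    obtain ⟨x0, hx0⟩ := h1
    have h2 : av (fun x : W => sg (ψ x)) = av (fun x : W => sg (ψ (Equiv.addRight x0 x))) :=
      (av_equiv (Equiv.addRight x0) (fun x : W => sg (ψ x))).symm
    have h3 : av (fun x : W => sg (ψ (Equiv.addRight x0 x))) =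
        av (fun x : W => sg (ψ x) * (-1)) := by
      apply av_congr
      intro x
      rw [Equiv.coe_addRight, map_add, sg_add, hx0, sg_one]
    rw [av_mul_right] at h3
    linarith

theorem prod_sg (F : Finset (Module.Dual (ZMod 2) W)) (x : W) :
    ∏ ψ ∈ F, sg (ψ x) = sg ((∑ ψ ∈ F, ψ) x) := by
  induction F using Finset.induction_on with
  | empty => simp [sg_zero]
  | insert a s ha ih =>
    rw [Finset.prod_insert ha, Finset.sum_insert ha, LinearMap.add_apply, sg_add, ih]

theorem av_csum_pow (X : Finset (Module.Dual (ZMod 2) W)) (co : Module.Dual (ZMod 2) W → ℝ)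
    (p : ℕ) : av (fun x : W => csum X co x ^ p) =
      ∑ F ∈ X.powerset.filter (fun F => ∑ ψ ∈ F, ψ = 0), alpha X co p F := by
  have h1 : ∀ x : W, csum X co x ^ p =
      ∑ F ∈ X.powerset, alpha X co p F * sg ((∑ ψ ∈ F, ψ) x) := by
    intro x
    unfold csum
    rw [sum_pow_eq X co (fun ψ => sg (ψ x)) (fun ψ => sg_sq _) p]
    apply Finset.sum_congr rfl
    intro F _
    rw [prod_sg]
  rw [av_congr h1, av_sum, Finset.sum_filter]
  apply Finset.sum_congr rfl
  intro F _
  have h2 : av (fun x : W => alpha X co p F * sg ((∑ ψ ∈ F, ψ) x)) =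
      alpha X co p F * av (fun x : W => sg ((∑ ψ ∈ F, ψ) x)) := av_mul_left _ _
  rw [h2, av_sg]
  split_ifs <;> simp

omit [Fintype W] in
theorem Alpha_add_self (ψ : Module.Dual (ZMod 2) W) : ψ + ψ = 0 := by
  ext x
  rw [LinearMap.add_apply, LinearMap.zero_apply]
  exact CharTwo.add_self_eq_zero _

/-- second moment -/
theorem av_csum_sq (X : Finset (Module.Dual (ZMod 2) W)) (co : Module.Dual (ZMod 2) W → ℝ) :
    av (fun x : W => csum X co x ^ 2) = ∑ ψ ∈ X, co ψ ^ 2 := by
  have h1 : ∀ x : W, csum X co x ^ 2 =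
      ∑ ψ ∈ X, ∑ χ ∈ X, co ψ * co χ * sg ((ψ + χ) x) := by
    intro x
    unfold csum
    rw [sq, Finset.sum_mul_sum]
    apply Finset.sum_congr rfl
    intro ψ _
    apply Finset.sum_congr rfl
    intro χ _
    rw [LinearMap.add_apply, sg_add]
    ring
  rw [av_congr h1, av_sum]
  apply Finset.sum_congr rfl
  intro ψ hψ
  rw [av_sum, Finset.sum_eq_single ψ]
  · have h2 : av (fun x : W => co ψ * co ψ * sg ((ψ + ψ) x)) =
        co ψ * co ψ * av (fun x : W => sg ((ψ + ψ) x)) := av_mul_left _ _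
    rw [h2, av_sg, if_pos (Alpha_add_self ψ)]
    ring
  · intro χ _ hne
    have h2 : av (fun x : W => co ψ * co χ * sg ((ψ + χ) x)) =
        co ψ * co χ * av (fun x : W => sg ((ψ + χ) x)) := av_mul_left _ _
    rw [h2, av_sg, if_neg, mul_zero]
    intro h0
    apply hne
    have h3 : χ = ψ + (ψ + χ) := by
      rw [← add_assoc, Alpha_add_self, zero_add]
    rw [h3, h0, add_zero]
  · intro h
    exact absurd hψ h

theorem moment_diff (X : Finset (Module.Dual (ZMod 2) W)) (co : Module.Dual (ZMod 2) W → ℝ)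
    {K r : ℝ} (hK0 : 0 ≤ K) (hK : ∀ ψ ∈ X, |co ψ| ≤ K) (hr : 0 < r)
    (hX : (X.card : ℝ) ≤ r ^ 2) (h1 : rels X 0 1 = ∅) (h2 : rels X 0 2 = ∅) (p : ℕ) :
    |av (fun x : W => csum X co x ^ p) - alpha X co p ∅| ≤
      (K * p * r) ^ p * ∑ g ∈ Finset.Icc 3 p, ((rels X 0 g).card : ℝ) / r ^ g := by
  set Z : Finset (Finset (Module.Dual (ZMod 2) W)) :=
    X.powerset.filter (fun F => ∑ ψ ∈ F, ψ = 0) with hZ
  have hmemZ : ∀ F, F ∈ Z ↔ F ⊆ X ∧ ∑ ψ ∈ F, ψ = 0 := by
    intro F
    rw [hZ, Finset.mem_filter, Finset.mem_powerset]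
  have h0 : (∅ : Finset (Module.Dual (ZMod 2) W)) ∈ Z := by
    rw [hmemZ]
    exact ⟨Finset.empty_subset _, Finset.sum_empty⟩
  have e1 : av (fun x : W => csum X co x ^ p) - alpha X co p ∅ =
      ∑ F ∈ Z.erase ∅, alpha X co p F := by
    rw [av_csum_pow, ← hZ, ← Finset.add_sum_erase Z _ h0]
    ring
  have e2 : ∑ F ∈ Z.erase ∅, |alpha X co p F| ≤
      ∑ g ∈ Finset.Icc 3 p, ∑ F ∈ rels X 0 g, |alpha X co p F| := by
    have hd : ∀ g ∈ Finset.Icc 3 p, ∑ F ∈ rels X 0 g, |alpha X co p F| =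
        ∑ F ∈ ((Z.erase ∅).filter (fun F => F.card ∈ Finset.Icc 3 p)).filter
          (fun F => F.card = g), |alpha X co p F| := by
      intro g hg
      apply Finset.sum_congr _ (fun _ _ => rfl)
      ext F
      rw [mem_rels, Finset.mem_filter, Finset.mem_filter, Finset.mem_erase, hmemZ]
      constructor
      · rintro ⟨a, b, c⟩
        refine ⟨⟨⟨?_, a, c⟩, ?_⟩, b⟩
        · intro h
          rw [h] at b
          rw [Finset.mem_Icc] at hg
          simp at b
          omega
        · rw [b]; exact hg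
      · rintro ⟨⟨⟨_, a, c⟩, _⟩, b⟩
        exact ⟨a, b, c⟩
    rw [Finset.sum_congr rfl hd]
    rw [Finset.sum_fiberwise_of_maps_to (s := (Z.erase ∅).filter (fun F => F.card ∈ Finset.Icc 3 p))
      (t := Finset.Icc 3 p) (g := fun F => F.card) (fun F hF => (Finset.mem_filter.1 hF).2)]
    apply le_of_eq
    symm
    apply Finset.sum_subset (Finset.filter_subset _ _)
    intro F hF hF2
    rw [Finset.mem_erase, hmemZ] at hF
    have hcard : F.card ∉ Finset.Icc 3 p := by
      intro h
      exact hF2 (Finset.mem_filter.2 ⟨by rw [Finset.mem_erase, hmemZ]; exact hF, h⟩)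
    rw [Finset.mem_Icc, not_and, not_le] at hcard
    by_cases h3 : 3 ≤ F.card
    · rw [alpha_eq_zero X co p F (hcard h3), abs_zero]
    · exfalso
      have hpos : 0 < F.card := Finset.card_pos.2 (Finset.nonempty_iff_ne_empty.2 hF.1)
      have h4 : F.card = 1 ∨ F.card = 2 := by omega
      rcases h4 with h4 | h4
      · have : F ∈ rels X 0 1 := mem_rels.2 ⟨hF.2.1, h4, hF.2.2⟩
        rw [h1] at this
        exact absurd this (Finset.notMem_empty _)
      · have : F ∈ rels X 0 2 := mem_rels.2 ⟨hF.2.1, h4, hF.2.2⟩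
        rw [h2] at this
        exact absurd this (Finset.notMem_empty _)
  rw [e1]
  refine (Finset.abs_sum_le_sum_abs _ _).trans (e2.trans ?_)
  rw [Finset.mul_sum]
  apply Finset.sum_le_sum
  intro g _
  have h5 : ∀ F ∈ rels X 0 g, |alpha X co p F| ≤ (K * p * r) ^ p / r ^ g := by
    intro F hF
    rw [mem_rels] at hF
    rw [le_div_iff₀ (by positivity)]
    have := abs_alpha_le X co hK0 hK hr hX p F hF.1
    rw [hF.2.1] at this
    exact this
  refine (Finset.sum_le_sum h5).trans ?_
  rw [Finset.sum_const, nsmul_eq_mul]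
  exact le_of_eq (by ring)

end W

end Pool.Agent.H47.ST
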