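import Mathlib

/-!
# Kuhn triangulation: simplices, cochains, differential

Vertices are the points of `ι → ℤ`, simplices are finite sets of vertices which are pairwise
adjacent (chains `v₀ < … < v_k ≤ v₀ + 1`). A simplex of dimension `k` has `card = k + 1`.
-/

set_option autoImplicit false

namespace Pool.Agent.H47.ST

variable {ι : Type*} [Fintype ι] {F : Type*} [Field F]

/-- Two vertices of one simplex. -/
def Adj (v w : ι → ℤ) : Prop := (v ≤ w ∧ w ≤ v + 1) ∨ (w ≤ v ∧ v ≤ w + 1)

/-- Simplices of the Kuhn triangulation (the empty set is included). -/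
def Simp (σ : Finset (ι → ℤ)) : Prop := ∀ v ∈ σ, ∀ w ∈ σ, Adj v w

/-- Functions on the finite sets of vertices. -/
abbrev Co (ι F : Type*) := Finset (ι → ℤ) → F

open Classical in
/-- the sign of the vertex `v` of `σ` -/
noncomputable def sgn (F : Type*) [Field F] (σ : Finset (ι → ℤ)) (v : ι → ℤ) : F :=
  (-1) ^ (σ.filter (fun w => w < v)).card

/-- the coboundary without restriction -/
noncomputable def dd : Co ι F →ₗ[F] Co ι F where
  toFun c σ := ∑ v ∈ σ, sgn F σ v * c (σ.erase v)
  map_add' c c' := by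
    ext σ
    simp only [Pi.add_apply, mul_add, Finset.sum_add_distrib]
  map_smul' a c := by
    ext σ
    simp only [Pi.smul_apply, smul_eq_mul, RingHom.id_apply, Finset.mul_sum]
    exact Finset.sum_congr rfl fun v _ => by ring

theorem dd_apply (c : Co ι F) (σ : Finset (ι → ℤ)) :
    dd c σ = ∑ v ∈ σ, sgn F σ v * c (σ.erase v) := rfl

open Classical in
/-- restriction to the finite sets with the property `P` -/
noncomputable def cut (P : Finset (ι → ℤ) → Prop) : Co ι F →ₗ[F] Co ι F where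
  toFun c σ := if P σ then c σ else 0
  map_add' c c' := by
    ext σ
    by_cases h : P σ <;> simp [h]
  map_smul' a c := by
    ext σ
    by_cases h : P σ <;> simp [h]

open Classical in
theorem cut_apply (P : Finset (ι → ℤ) → Prop) (c : Co ι F) (σ : Finset (ι → ℤ)) :
    cut P c σ = if P σ then c σ else 0 := rfl

/-- simplex with vertices in `X` -/
def In (X : Set (ι → ℤ)) (σ : Finset (ι → ℤ)) : Prop := Simp σ ∧ ∀ v ∈ σ, v ∈ X

/-- the coboundary of the complex of the simplices with vertices in `X` -/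
noncomputable def dX (X : Set (ι → ℤ)) : Co ι F →ₗ[F] Co ι F := (cut (In X)).comp dd

open Classical in
theorem dX_apply (X : Set (ι → ℤ)) (c : Co ι F) (σ : Finset (ι → ℤ)) :
    dX X c σ = if In X σ then ∑ v ∈ σ, sgn F σ v * c (σ.erase v) else 0 := rfl

/-- translation of finite sets -/
def tr (l : ι → ℤ) (σ : Finset (ι → ℤ)) : Finset (ι → ℤ) := σ.map (Equiv.addRight l).toEmbedding

/-- `L`-invariant cochains on the simplices with `j` vertices in `X`, not all in `A`. -/
def co (L : AddSubgroup (ι → ℤ)) (X A : Set (ι → ℤ)) (j : ℕ) : Submodule F (Co ι F) where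
  carrier := {c | (∀ l ∈ L, ∀ σ, c (tr l σ) = c σ) ∧
    ∀ σ, c σ ≠ 0 → In X σ ∧ ¬ (∀ v ∈ σ, v ∈ A) ∧ σ.card = j}
  zero_mem' := ⟨fun _ _ _ => rfl, fun _ h => absurd rfl h⟩
  add_mem' := by
    rintro a b ⟨ha, ha'⟩ ⟨hb, hb'⟩
    refine ⟨fun l hl σ => ?_, fun σ h => ?_⟩
    · rw [Pi.add_apply, Pi.add_apply, ha l hl, hb l hl]
    · by_cases h1 : a σ = 0
      · refine hb' σ fun h2 => h ?_
        rw [Pi.add_apply, h1, h2, add_zero]
      · exact ha' σ h1
  smul_mem' := by
    rintro t a ⟨ha, ha'⟩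
    refine ⟨fun l hl σ => ?_, fun σ h => ?_⟩
    · rw [Pi.smul_apply, Pi.smul_apply, ha l hl]
    · refine ha' σ fun h2 => h ?_
      rw [Pi.smul_apply, h2, smul_zero]

/-- invariance of a set of vertices -/
def Inv (L : AddSubgroup (ι → ℤ)) (X : Set (ι → ℤ)) : Prop := ∀ l ∈ L, ∀ v, v ∈ X ↔ v + l ∈ X

/-- The lattice is not too fine: two different vertices of one simplex are not equivalent. -/
def Wide (L : AddSubgroup (ι → ℤ)) : Prop := ∀ l ∈ L, (∀ i, |l i| ≤ 1) → l = 0

/-- `B \ A` is finite modulo `L`. -/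
def FinMod (L : AddSubgroup (ι → ℤ)) (X A : Set (ι → ℤ)) : Prop :=
  ∃ D : Finset (ι → ℤ), ∀ v ∈ X, v ∉ A → ∃ l ∈ L, v + l ∈ D

end Pool.Agent.H47.ST
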