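import Pool.Agent.H47.ST.Alpha

/-! Project ST: the cube (independent signs) and Taylor polynomials of the cosine. -/

namespace Pool.Agent.H47.ST

open Finset Pool.Agent.H46.SR
open scoped Classical

variable {D : Type*}

theorem cube_av_sg : av (fun b : ZMod 2 => sg b) = 0 := by
  unfold av
  have h : (∑ b : ZMod 2, sg b) = sg 0 + sg 1 := Fin.sum_univ_two _
  rw [h, sg_zero, sg_one]
  norm_num

/-- use `sum_pow_eq` with the sign function of the point `ξ` and `av_pi_prod` -/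
theorem cube_moment (X : Finset D) (co : D → ℝ) (p : ℕ) :
    av (fun ξ : X → ZMod 2 => (∑ ψ : X, co ψ * sg (ξ ψ)) ^ p) = alpha X co p ∅ := by
  have h1 : ∀ ξ : X → ZMod 2, (∑ ψ : X, co ψ * sg (ξ ψ)) ^ p =
      ∑ F ∈ X.powerset, alpha X co p F *
        ∏ ψ : X, (if (ψ : D) ∈ F then sg (ξ ψ) else 1) := by
    intro ξ
    set t : D → ℝ := fun ψ => if h : ψ ∈ X then sg (ξ ⟨ψ, h⟩) else 1 with ht
    have ht2 : ∀ ψ, t ψ ^ 2 = 1 := by
      intro ψ
      rw [ht]
      by_cases h : ψ ∈ X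
      · simp only [dif_pos h]; exact sg_sq _
      · simp only [dif_neg h]; norm_num
    have ht3 : ∀ ψ : X, t ψ = sg (ξ ψ) := by
      intro ψ
      rw [ht]
      simp only [dif_pos ψ.2]
    have h2 : (∑ ψ : X, co ψ * sg (ξ ψ)) = ∑ ψ ∈ X, co ψ * t ψ := by
      rw [← Finset.sum_coe_sort X (fun ψ => co ψ * t ψ)]
      exact Finset.sum_congr rfl (fun ψ _ => by rw [ht3])
    rw [h2, sum_pow_eq X co t ht2 p]
    refine Finset.sum_congr rfl (fun F hF => ?_)
    have hFX : F ⊆ X := Finset.mem_powerset.1 hF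
    congr 1
    have h3 : (∏ ψ : X, (if (ψ : D) ∈ F then sg (ξ ψ) else 1)) =
        ∏ ψ : X, (fun ψ : D => if ψ ∈ F then t ψ else 1) ψ := by
      refine Finset.prod_congr rfl (fun ψ _ => ?_)
      simp only [ht3]
    rw [h3, Finset.prod_coe_sort X (fun ψ : D => if ψ ∈ F then t ψ else 1)]
    rw [← Finset.prod_filter, Finset.filter_mem_eq_inter, Finset.inter_eq_right.2 hFX]
  rw [av_congr h1, av_sum]
  have h4 : ∀ F ∈ X.powerset, av (fun ξ : X → ZMod 2 => alpha X co p F *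
      ∏ ψ : X, (if (ψ : D) ∈ F then sg (ξ ψ) else 1)) =
      if F = ∅ then alpha X co p ∅ else 0 := by
    intro F hF
    have hFX : F ⊆ X := Finset.mem_powerset.1 hF
    rw [av_mul_left, av_pi_prod (fun (ψ : X) (b : ZMod 2) => if (ψ : D) ∈ F then sg b else 1)]
    split_ifs with h
    · subst h
      rw [Finset.prod_eq_one, mul_one]
      intro ψ _
      simp only [Finset.notMem_empty, if_false]
      exact av_const (Ω := ZMod 2) 1
    · obtain ⟨ψ, hψ⟩ := Finset.nonempty_iff_ne_empty.2 h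
      rw [Finset.prod_eq_zero (Finset.mem_univ (⟨ψ, hFX hψ⟩ : X)), mul_zero]
      simp only [hψ, if_true]
      exact cube_av_sg
  rw [Finset.sum_congr rfl h4, Finset.sum_ite_eq' X.powerset ∅, if_pos (Finset.empty_mem_powerset X)]

theorem cube_sum_prod {ι R : Type*} [Fintype ι] [DecidableEq ι] [CommSemiring R]
    (f : ι → ZMod 2 → R) :
    (∑ ξ : ι → ZMod 2, ∏ i, f i (ξ i)) = ∏ i, (f i 0 + f i 1) := by
  have h : ∀ i, (∑ b : ZMod 2, f i b) = f i 0 + f i 1 := fun i => Fin.sum_univ_two (f i)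
  simp only [← h]
  rw [Finset.prod_univ_sum]
  simp

/-- `E exp(i (θ T - φ)) = exp(-i φ) ∏ cos(θ c)` -/
theorem cube_cos (X : Finset D) (co : D → ℝ) (θ φ : ℝ) :
    av (fun ξ : X → ZMod 2 => Real.cos (θ * (∑ ψ : X, co ψ * sg (ξ ψ)) - φ)) =
      Real.cos φ * ∏ ψ ∈ X, Real.cos (θ * co ψ) := by
  have key : (∑ ξ : X → ZMod 2, Complex.exp ((θ * (∑ ψ : X, co ψ * sg (ξ ψ)) : ℝ) * Complex.I)) =
      ∏ ψ : X, ((2 * Real.cos (θ * co ψ) : ℝ) : ℂ) := by
    have h1 : ∀ ξ : X → ZMod 2,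
        Complex.exp ((θ * (∑ ψ : X, co ψ * sg (ξ ψ)) : ℝ) * Complex.I) =
        ∏ ψ : X, Complex.exp ((θ * co ψ * sg (ξ ψ) : ℝ) * Complex.I) := by
      intro ξ
      rw [← Complex.exp_sum]
      congr 1
      rw [Finset.mul_sum]
      push_cast
      rw [Finset.sum_mul]
      refine Finset.sum_congr rfl (fun ψ _ => ?_)
      ring
    rw [Finset.sum_congr rfl (fun ξ _ => h1 ξ)]
    rw [cube_sum_prod (fun (ψ : X) (b : ZMod 2) =>
      Complex.exp ((θ * co ψ * sg b : ℝ) * Complex.I))]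
    refine Finset.prod_congr rfl (fun ψ _ => ?_)
    simp only [sg_zero, sg_one]
    push_cast
    rw [Complex.two_cos]
    congr 1
    · congr 1; ring
    · congr 1; ring
  have key2 : (∑ ξ : X → ZMod 2, Complex.exp ((θ * (∑ ψ : X, co ψ * sg (ξ ψ)) - φ : ℝ) *
      Complex.I)) = Complex.exp ((-φ : ℝ) * Complex.I) *
        ((∏ ψ : X, (2 * Real.cos (θ * co ψ)) : ℝ) : ℂ) := by
    have h2 : ∀ ξ : X → ZMod 2,
        Complex.exp ((θ * (∑ ψ : X, co ψ * sg (ξ ψ)) - φ : ℝ) * Complex.I) =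
        Complex.exp ((-φ : ℝ) * Complex.I) *
          Complex.exp ((θ * (∑ ψ : X, co ψ * sg (ξ ψ)) : ℝ) * Complex.I) := by
      intro ξ
      rw [← Complex.exp_add]
      congr 1
      push_cast
      ring
    rw [Finset.sum_congr rfl (fun ξ _ => h2 ξ), ← Finset.mul_sum, key]
    push_cast
    rfl
  have key3 := congrArg Complex.re key2
  rw [Complex.re_sum, Complex.re_mul_ofReal] at key3
  simp only [Complex.exp_ofReal_mul_I_re] at key3
  unfold av
  rw [key3, Real.cos_neg, Finset.prod_mul_distrib, Finset.prod_const, Finset.card_univ,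
    Fintype.card_fun, ZMod.card, Finset.prod_coe_sort X (fun ψ => Real.cos (θ * co ψ))]
  push_cast
  field_simp

theorem cube_cosh (X : Finset D) (co : D → ℝ) (t : ℝ) :
    av (fun ξ : X → ZMod 2 => Real.cosh (t * (∑ ψ : X, co ψ * sg (ξ ψ)))) =
      ∏ ψ ∈ X, Real.cosh (t * co ψ) := by
  have key : ∀ t : ℝ, (∑ ξ : X → ZMod 2, Real.exp (t * (∑ ψ : X, co ψ * sg (ξ ψ)))) =
      ∏ ψ : X, (2 * Real.cosh (t * co ψ)) := by
    intro t
    have h1 : ∀ ξ : X → ZMod 2, Real.exp (t * (∑ ψ : X, co ψ * sg (ξ ψ))) =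
        ∏ ψ : X, Real.exp (t * co ψ * sg (ξ ψ)) := by
      intro ξ
      rw [← Real.exp_sum]
      congr 1
      rw [Finset.mul_sum]
      refine Finset.sum_congr rfl (fun ψ _ => ?_)
      ring
    rw [Finset.sum_congr rfl (fun ξ _ => h1 ξ)]
    rw [cube_sum_prod (fun (ψ : X) (b : ZMod 2) => Real.exp (t * co ψ * sg b))]
    refine Finset.prod_congr rfl (fun ψ _ => ?_)
    simp only [sg_zero, sg_one]
    rw [Real.cosh_eq]
    ring_nf
  have h2 : ∀ ξ : X → ZMod 2, Real.cosh (t * (∑ ψ : X, co ψ * sg (ξ ψ))) =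
      (Real.exp (t * (∑ ψ : X, co ψ * sg (ξ ψ))) +
        Real.exp ((-t) * (∑ ψ : X, co ψ * sg (ξ ψ)))) / 2 := by
    intro ξ
    rw [Real.cosh_eq, neg_mul]
  unfold av
  rw [Finset.sum_congr rfl (fun ξ _ => h2 ξ), ← Finset.sum_div, Finset.sum_add_distrib, key, key]
  have h3 : (∏ ψ : X, (2 * Real.cosh (-t * co ψ))) = ∏ ψ : X, (2 * Real.cosh (t * co ψ)) := by
    refine Finset.prod_congr rfl (fun ψ _ => ?_)
    rw [neg_mul, Real.cosh_neg]
  rw [h3, Finset.prod_mul_distrib, Finset.prod_const, Finset.card_univ,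
    Fintype.card_fun, ZMod.card, Finset.prod_coe_sort X (fun ψ => Real.cosh (t * co ψ))]
  push_cast
  field_simp
  ring

theorem cube_pow_le_cosh (p : ℕ) (y : ℝ) : y ^ (2 * p) / (2 * p).factorial ≤ Real.cosh y := by
  have h := Real.hasSum_cosh y
  refine le_hasSum h p (fun q _ => ?_)
  apply div_nonneg _ (Nat.cast_nonneg _)
  rw [pow_mul]
  positivity

/-- sub-Gaussian moments: `T^(2p) / (2p)! ≤ cosh(t T) / t^(2p)` with `t = √(2p) / (K r)` and
`cosh y ≤ exp(y^2 / 2)` -/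
theorem cube_moment_le (X : Finset D) (co : D → ℝ) {K r : ℝ} (hK0 : 0 < K)
    (hK : ∀ ψ ∈ X, |co ψ| ≤ K) (hr : 0 < r) (hX : (X.card : ℝ) ≤ r ^ 2) {p : ℕ} (hp : 1 ≤ p) :
    alpha X co (2 * p) ∅ / (2 * p).factorial ≤ (3 * (K * r) ^ 2 / (2 * p)) ^ p := by
  have hp' : (0 : ℝ) < p := by exact_mod_cast hp
  set t : ℝ := Real.sqrt (2 * p) / (K * r) with ht
  have ht0 : 0 < t := by positivity
  have ht2 : t ^ 2 = 2 * p / (K * r) ^ 2 := by
    rw [ht, div_pow, Real.sq_sqrt (by positivity)]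
  rw [← cube_moment]
  have h1 : av (fun ξ : X → ZMod 2 => (∑ ψ : X, co ψ * sg (ξ ψ)) ^ (2 * p)) *
      (t ^ (2 * p) / (2 * p).factorial) ≤ ∏ ψ ∈ X, Real.cosh (t * co ψ) := by
    rw [← cube_cosh, ← av_mul_right]
    apply av_mono
    intro ξ
    have := cube_pow_le_cosh p (t * ∑ ψ : X, co ψ * sg (ξ ψ))
    rw [mul_pow] at this
    calc _ = t ^ (2 * p) * (∑ ψ : X, co ψ * sg (ξ ψ)) ^ (2 * p) / (2 * p).factorial := by ring
      _ ≤ _ := this
  have h2 : (∏ ψ ∈ X, Real.cosh (t * co ψ)) ≤ Real.exp p := by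
    calc (∏ ψ ∈ X, Real.cosh (t * co ψ)) ≤ ∏ ψ ∈ X, Real.exp (t ^ 2 * K ^ 2 / 2) := by
          apply Finset.prod_le_prod
          · intro ψ _
            exact (Real.cosh_pos _).le
          · intro ψ hψ
            refine (Real.cosh_le_exp_half_sq _).trans ?_
            apply Real.exp_le_exp.2
            have h3 : (co ψ) ^ 2 ≤ K ^ 2 := by
              rw [← sq_abs]
              exact pow_le_pow_left₀ (abs_nonneg _) (hK ψ hψ) 2
            rw [mul_pow]
            have h4 : 0 ≤ t ^ 2 := sq_nonneg t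
            nlinarith [mul_le_mul_of_nonneg_left h3 h4]
      _ = Real.exp (X.card * (t ^ 2 * K ^ 2 / 2)) := by
          rw [Finset.prod_const, ← Real.exp_nat_mul]
      _ ≤ Real.exp p := by
          apply Real.exp_le_exp.2
          have h5 : (X.card : ℝ) * (t ^ 2 * K ^ 2 / 2) ≤ r ^ 2 * (t ^ 2 * K ^ 2 / 2) :=
            mul_le_mul_of_nonneg_right hX (by positivity)
          refine h5.trans (le_of_eq ?_)
          rw [ht2]
          field_simp
  have h6 : Real.exp p ≤ 3 ^ p := by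
    have h7 : Real.exp p = Real.exp 1 ^ p := by rw [← Real.exp_nat_mul, mul_one]
    rw [h7]
    exact pow_le_pow_left₀ (Real.exp_pos 1).le (by
      have := Real.exp_one_lt_d9
      linarith) p
  have h8 := (h1.trans h2).trans h6
  have h9 : t ^ (2 * p) = (2 * p / (K * r) ^ 2) ^ p := by rw [pow_mul, ht2]
  rw [h9] at h8
  have h10 : 0 < (2 * (p : ℝ) / (K * r) ^ 2) ^ p := by positivity
  have h11 : (3 * (K * r) ^ 2 / (2 * p)) ^ p = 3 ^ p / (2 * (p : ℝ) / (K * r) ^ 2) ^ p := by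
    rw [← div_pow]
    congr 1
    field_simp
  rw [h11, le_div_iff₀ h10]
  calc _ = av (fun ξ : X → ZMod 2 => (∑ ψ : X, co ψ * sg (ξ ψ)) ^ (2 * p)) *
        ((2 * (p : ℝ) / (K * r) ^ 2) ^ p / (2 * p).factorial) := by ring
    _ ≤ _ := h8

/-- Gaussian decay of the characteristic function, from `cos y ≤ 1 - 2 y^2 / π^2`
(`Real.cos_quadratic_upper_bound`) for `|y| ≤ 1` -/
theorem abs_prod_cos_le (X : Finset D) (co : D → ℝ) {K θ N : ℝ} (hK : ∀ ψ ∈ X, |co ψ| ≤ K)
    (h1 : ∀ ψ ∈ X, 1 ≤ |co ψ|) (hθ : |θ| * K ≤ 1) (hN : N ≤ X.card) :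
    |∏ ψ ∈ X, Real.cos (θ * co ψ)| ≤ Real.exp (-(θ ^ 2 * N / 5)) := by
  rw [Finset.abs_prod]
  have hpi : Real.pi ^ 2 < 10 := by
    have h2 := Real.pi_lt_d2
    have h3 := Real.pi_pos
    nlinarith
  have h4 : ∀ ψ ∈ X, |Real.cos (θ * co ψ)| ≤ Real.exp (-(θ ^ 2 / 5)) := by
    intro ψ hψ
    have hy : |θ * co ψ| ≤ 1 := by
      rw [abs_mul]
      exact (mul_le_mul_of_nonneg_left (hK ψ hψ) (abs_nonneg _)).trans hθ
    have hcos : 0 < Real.cos (θ * co ψ) := by
      apply Real.cos_pos_of_mem_Ioo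
      have := Real.pi_gt_three
      have h5 := abs_le.1 hy
      constructor <;> linarith [h5.1, h5.2]
    rw [abs_of_pos hcos]
    have h6 := Real.cos_le_one_sub_mul_cos_sq (x := θ * co ψ) (by
      have := Real.pi_gt_three
      linarith)
    refine h6.trans ?_
    have h7 := Real.add_one_le_exp (-(θ ^ 2 / 5))
    refine le_trans ?_ h7
    have h8 : 1 ≤ (co ψ) ^ 2 := by
      rw [← sq_abs]
      have := h1 ψ hψ
      nlinarith
    have h9 : θ ^ 2 ≤ (θ * co ψ) ^ 2 := by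
      rw [mul_pow]
      nlinarith [sq_nonneg θ]
    have h10 : (1 : ℝ) / 5 ≤ 2 / Real.pi ^ 2 := by
      rw [div_le_div_iff₀ (by norm_num) (by positivity)]
      linarith
    have h11 : θ ^ 2 / 5 ≤ 2 / Real.pi ^ 2 * (θ * co ψ) ^ 2 := by
      calc θ ^ 2 / 5 = 1 / 5 * θ ^ 2 := by ring
        _ ≤ 1 / 5 * (θ * co ψ) ^ 2 := mul_le_mul_of_nonneg_left h9 (by norm_num)
        _ ≤ _ := mul_le_mul_of_nonneg_right h10 (sq_nonneg _)
    linarith
  calc (∏ ψ ∈ X, |Real.cos (θ * co ψ)|) ≤ ∏ ψ ∈ X, Real.exp (-(θ ^ 2 / 5)) :=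
        Finset.prod_le_prod (fun ψ _ => abs_nonneg _) h4
    _ = Real.exp (X.card * -(θ ^ 2 / 5)) := by
        rw [Finset.prod_const, ← Real.exp_nat_mul]
    _ ≤ _ := by
        apply Real.exp_le_exp.2
        nlinarith [mul_le_mul_of_nonneg_left hN (sq_nonneg θ)]

/-- the Taylor coefficients -/
noncomputable def cube_a (φ : ℝ) (p : ℕ) : ℝ := Real.cos (p * (Real.pi / 2) - φ)

theorem cube_a_succ (φ : ℝ) (p : ℕ) : cube_a φ (p + 1) = cube_a (φ - Real.pi / 2) p := by
  unfold cube_a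
  congr 1
  push_cast
  ring

theorem cube_a_neg (φ : ℝ) (p : ℕ) : cube_a (-φ) p = (-1) ^ p * cube_a φ p := by
  unfold cube_a
  have h := Real.cos_add_nat_mul_pi (-(p * (Real.pi / 2) - φ)) p
  rw [Real.cos_neg] at h
  rw [← h]
  congr 1
  ring

/-- the remainder -/
noncomputable def cube_R (P : ℕ) (φ y : ℝ) : ℝ :=
  Real.cos (y - φ) - ∑ p ∈ range P, cube_a φ p * y ^ p / p.factorial

theorem cube_R_deriv (P : ℕ) (φ y : ℝ) :
    HasDerivAt (cube_R (P + 1) φ) (cube_R P (φ - Real.pi / 2) y) y := by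
  have h1 : HasDerivAt (fun y : ℝ => Real.cos (y - φ)) (-Real.sin (y - φ)) y := by
    have := ((hasDerivAt_id y).sub_const φ).cos
    simpa using this
  have h2 : ∀ p ∈ range P, HasDerivAt (fun y : ℝ => cube_a φ (p + 1) * y ^ (p + 1) /
      (p + 1).factorial) (cube_a φ (p + 1) * y ^ p / p.factorial) y := by
    intro p _
    have := (((hasDerivAt_pow (p + 1) y).const_mul (cube_a φ (p + 1))).div_const
      ((p + 1).factorial : ℝ))
    refine this.congr_deriv ?_
    rw [Nat.factorial_succ, Nat.add_sub_cancel]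
    push_cast
    have hf : (p.factorial : ℝ) ≠ 0 := by exact_mod_cast p.factorial_ne_zero
    have hp : (p : ℝ) + 1 ≠ 0 := by positivity
    field_simp
  have h3 := HasDerivAt.fun_sum h2
  have h4 : HasDerivAt (fun y : ℝ => ∑ p ∈ range (P + 1), cube_a φ p * y ^ p / p.factorial)
      (∑ p ∈ range P, cube_a φ (p + 1) * y ^ p / p.factorial) y := by
    have h5 : (fun y : ℝ => ∑ p ∈ range (P + 1), cube_a φ p * y ^ p / p.factorial) =
        fun y : ℝ => (∑ p ∈ range P, cube_a φ (p + 1) * y ^ (p + 1) / (p + 1).factorial) +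
          cube_a φ 0 := by
      funext y
      rw [Finset.sum_range_succ']
      simp
    rw [h5]
    exact h3.add_const _
  have h6 := h1.sub h4
  have h7 : cube_R P (φ - Real.pi / 2) y = -Real.sin (y - φ) -
      ∑ p ∈ range P, cube_a φ (p + 1) * y ^ p / p.factorial := by
    unfold cube_R
    congr 1
    · rw [← Real.cos_add_pi_div_two]
      congr 1
      ring
    · refine Finset.sum_congr rfl (fun p _ => ?_)
      rw [cube_a_succ]
  rw [h7]
  exact h6

theorem cube_R_bound (P : ℕ) : ∀ (φ y : ℝ), 0 ≤ y → |cube_R P φ y| ≤ y ^ P / P.factorial := by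
  induction P with
  | zero =>
    intro φ y _
    unfold cube_R
    simp [Real.abs_cos_le_one]
  | succ P ih =>
    intro φ y hy
    have hB : ∀ x : ℝ, HasDerivAt (fun x : ℝ => x ^ (P + 1) / (P + 1).factorial)
        (x ^ P / P.factorial) x := by
      intro x
      have := ((hasDerivAt_pow (P + 1) x).div_const ((P + 1).factorial : ℝ))
      refine this.congr_deriv ?_
      rw [Nat.factorial_succ, Nat.add_sub_cancel]
      push_cast
      have hf : (P.factorial : ℝ) ≠ 0 := by exact_mod_cast P.factorial_ne_zero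
      have hp : (P : ℝ) + 1 ≠ 0 := by positivity
      field_simp
    have h := image_norm_le_of_norm_deriv_right_le_deriv_boundary
      (f := cube_R (P + 1) φ) (f' := fun x => cube_R P (φ - Real.pi / 2) x) (a := 0) (b := y)
      (B := fun x : ℝ => x ^ (P + 1) / (P + 1).factorial) (B' := fun x => x ^ P / P.factorial)
      (fun x _ => (cube_R_deriv P φ x).continuousAt.continuousWithinAt)
      (fun x _ => (cube_R_deriv P φ x).hasDerivWithinAt)
      (by
        have h0 : cube_R (P + 1) φ 0 = 0 := by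
          unfold cube_R
          rw [Finset.sum_range_succ']
          simp [cube_a]
        rw [h0]
        simp)
      hB
      (fun x hx => by
        rw [Real.norm_eq_abs]
        exact ih _ _ hx.1)
    have h2 := h (x := y) ⟨hy, le_rfl⟩
    rw [Real.norm_eq_abs] at h2
    exact h2

/-- Taylor polynomials of `cos (y - φ)` at `0` with the bound `|y|^P / P!` for the remainder -/
theorem cos_taylor (φ : ℝ) : ∃ a : ℕ → ℝ, (∀ p, |a p| ≤ 1) ∧ ∀ (P : ℕ) (y : ℝ),
    |Real.cos (y - φ) - ∑ p ∈ range P, a p * y ^ p / p.factorial| ≤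
      |y| ^ P / P.factorial := by
  refine ⟨cube_a φ, fun p => Real.abs_cos_le_one _, fun P y => ?_⟩
  rcases le_or_gt 0 y with hy | hy
  · rw [abs_of_nonneg hy]
    exact cube_R_bound P φ y hy
  · have h := cube_R_bound P (-φ) (-y) (by linarith)
    rw [abs_of_neg hy]
    have h2 : cube_R P (-φ) (-y) =
        Real.cos (y - φ) - ∑ p ∈ range P, cube_a φ p * y ^ p / p.factorial := by
      unfold cube_R
      congr 1
      · rw [← Real.cos_neg]
        congr 1
        ring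
      · refine Finset.sum_congr rfl (fun p _ => ?_)
        rw [cube_a_neg, neg_pow y]
        have h3 : ((-1 : ℝ) ^ p) * (-1) ^ p = 1 := by
          rw [← mul_pow]; norm_num
        calc (-1 : ℝ) ^ p * cube_a φ p * ((-1) ^ p * y ^ p) / p.factorial =
            ((-1 : ℝ) ^ p * (-1) ^ p) * (cube_a φ p * y ^ p / p.factorial) := by ring
          _ = _ := by rw [h3, one_mul]
    rw [← h2]
    exact h

end Pool.Agent.H47.ST
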