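import Mathlib
import Pool.Agent.H46.SR.Av

/-! Project ST (note 2790): definitions. -/

namespace Pool.Agent.H47.ST

open Finset Pool.Agent.H46.SR

open scoped Classical in
/-- probability of `p` on a finite type -/
noncomputable def pr {Ω : Type*} [Fintype Ω] (p : Ω → Prop) : ℝ :=
  av (fun ω => if p ω then (1 : ℝ) else 0)

/-- the sign of a bit -/
noncomputable def sg (t : ZMod 2) : ℝ := if t = 0 then 1 else -1

theorem zmod_two_cases (t : ZMod 2) : t = 0 ∨ t = 1 := by
  revert t; decide

theorem sg_zero : sg 0 = 1 := by simp [sg]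

theorem sg_one : sg 1 = -1 := by simp [sg]

theorem sg_add (a b : ZMod 2) : sg (a + b) = sg a * sg b := by
  rcases zmod_two_cases a with h | h <;> rcases zmod_two_cases b with h' | h' <;> subst h <;>
    subst h'
  · simp [sg_zero]
  · simp [sg_zero]
  · simp [sg_zero]
  · have : (1 : ZMod 2) + 1 = 0 := by decide
    rw [this, sg_zero, sg_one]; norm_num

theorem sg_sq (a : ZMod 2) : sg a ^ 2 = 1 := by
  rcases zmod_two_cases a with h | h <;> subst h <;> simp [sg_zero, sg_one]

theorem abs_sg (a : ZMod 2) : |sg a| = 1 := by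
  rcases zmod_two_cases a with h | h <;> subst h <;> simp [sg_zero, sg_one]

section pr
variable {Ω : Type*} [Fintype Ω]

theorem pr_nonneg (p : Ω → Prop) : 0 ≤ pr p := av_nonneg (fun ω => by split_ifs <;> norm_num)

theorem pr_mono {p p' : Ω → Prop} (h : ∀ ω, p ω → p' ω) : pr p ≤ pr p' := by
  apply av_mono
  intro ω
  by_cases h1 : p ω
  · rw [if_pos h1, if_pos (h ω h1)]
  · rw [if_neg h1]; split_ifs <;> norm_num

theorem pr_le_one (p : Ω → Prop) : pr p ≤ 1 := by
  classical
  unfold pr av
  apply div_le_one_of_le₀ _ (Nat.cast_nonneg _)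
  refine (Finset.sum_le_sum (g := fun _ => (1 : ℝ))
    (fun ω _ => by split_ifs <;> norm_num)).trans ?_
  simp

theorem pr_or_le (p p' : Ω → Prop) : pr (fun ω => p ω ∨ p' ω) ≤ pr p + pr p' := by
  unfold pr
  rw [← av_add]
  apply av_mono
  intro ω
  by_cases h1 : p ω <;> by_cases h2 : p' ω <;> simp [h1, h2]

theorem pr_not [Nonempty Ω] (p : Ω → Prop) : pr (fun ω => ¬ p ω) = 1 - pr p := by
  have h : pr (fun ω => ¬ p ω) + pr p = 1 := by
    unfold pr
    rw [← av_add]
    refine Eq.trans (av_congr (g := fun _ => (1 : ℝ)) ?_) (av_const (Ω := Ω) 1)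
    intro ω
    by_cases h1 : p ω <;> simp [h1]
  linarith

/-- Markov inequality -/
theorem pr_markov {f : Ω → ℝ} (hf : ∀ ω, 0 ≤ f ω) {t : ℝ} (ht : 0 < t) :
    pr (fun ω => t ≤ f ω) ≤ av f / t := by
  rw [le_div_iff₀ ht]
  unfold pr
  rw [← av_mul_right]
  apply av_mono
  intro ω
  by_cases h : t ≤ f ω
  · rw [if_pos h]; linarith
  · rw [if_neg h]; simpa using hf ω

/-- an event of probability greater than that of another one -/
theorem pr_exists {p p' : Ω → Prop} (h : pr p' < pr p) : ∃ ω, p ω ∧ ¬ p' ω := by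
  by_contra hc
  push Not at hc
  exact absurd (pr_mono hc) (not_le.2 h)

end pr

/-- the subsets of size `g` of `X` with sum `z` -/
noncomputable def rels {D : Type*} [AddCommGroup D] (X : Finset D) (z : D) (g : ℕ) :
    Finset (Finset D) :=
  open scoped Classical in (X.powersetCard g).filter (fun F => ∑ ψ ∈ F, ψ = z)

theorem mem_rels {D : Type*} [AddCommGroup D] {X : Finset D} {z : D} {g : ℕ} {F : Finset D} :
    F ∈ rels X z g ↔ F ⊆ X ∧ F.card = g ∧ ∑ ψ ∈ F, ψ = z := by
  unfold rels
  simp [Finset.mem_powersetCard, and_assoc]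

section W
variable {W : Type*} [AddCommGroup W] [Module (ZMod 2) W]

/-- sum of characters with coefficients -/
noncomputable def csum (X : Finset (Module.Dual (ZMod 2) W)) (co : Module.Dual (ZMod 2) W → ℝ)
    (x : W) : ℝ :=
  ∑ ψ ∈ X, co ψ * sg (ψ x)

variable {ι : Type*}

/-- `z` vanishes at all vectors killed by the `E i`, `f i = 0` -/
def Capt {q : ℕ} (E : ι → Module.Dual (ZMod 2) W) (f : ι → Fin (q + 1))
    (z : Module.Dual (ZMod 2) W) : Prop :=
  ∀ x : W, (∀ i, f i = 0 → E i x = 0) → z x = 0

open scoped Classical in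
/-- the probability that `z` is captured by a random set (each point has probability
`1 / (q + 1)`) -/
noncomputable def cap [Fintype ι] (q : ℕ) (E : ι → Module.Dual (ZMod 2) W)
    (z : Module.Dual (ZMod 2) W) : ℝ :=
  pr (fun f : ι → Fin (q + 1) => Capt E f z)

end W

section G
variable {G ι : Type*} [AddCommGroup G] [Module (ZMod 2) G]

/-- restriction of `e i` to `W` -/
noncomputable def res (e : ι → Module.Dual (ZMod 2) G) (W : Submodule (ZMod 2) G) (i : ι) :
    Module.Dual (ZMod 2) W :=
  (e i).comp W.subtype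

open scoped Classical in
/-- the coefficient of the character `ψ` of `W` on the coset `a + W` -/
noncomputable def cc [Fintype ι] (e : ι → Module.Dual (ZMod 2) G) (W : Submodule (ZMod 2) G)
    (a : G) (ψ : Module.Dual (ZMod 2) W) : ℝ :=
  ∑ i ∈ univ.filter (fun i => res e W i = ψ), sg (e i a)

open scoped Classical in
/-- the nontrivial characters of `W` with coefficient different from `0` on `a + W` -/
noncomputable def NN [Fintype ι] (e : ι → Module.Dual (ZMod 2) G) (W : Submodule (ZMod 2) G)
    (a : G) : Finset (Module.Dual (ZMod 2) W) :=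
  (univ.image (res e W)).filter (fun ψ => ψ ≠ 0 ∧ cc e W a ψ ≠ 0)

end G

end Pool.Agent.H47.ST
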