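import Pool.Agent.H47.ST.Grid

/-!
# The quadratic forms of the sequence space
-/

set_option autoImplicit false

namespace Pool.Agent.H47.ST

/-- coordinates of the sequences of length `K` in `ℝ^{2n}`: `(j, inl i)` is `x_{j,i}`,
`(j, inr i)` is `y_{j,i}` -/
abbrev Iz (n K : ℕ) := Fin K × (Fin n ⊕ Fin n)

variable {n K : ℕ} [NeZero K]

/-- the quadratic form `∑ y_j (x_{j+1} - x_j)` -/
def QK (n K : ℕ) [NeZero K] (t : Iz n K → ℝ) : ℝ :=
  ∑ j : Fin K, ∑ i : Fin n, t (j, Sum.inr i) * (t (j + 1, Sum.inl i) - t (j, Sum.inl i))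

/-- its gradient: first differences -/
def DK (n K : ℕ) [NeZero K] (t : Iz n K → ℝ) : Iz n K → ℝ := fun a =>
  match a with
  | (j, Sum.inl i) => t (j - 1, Sum.inr i) - t (j, Sum.inr i)
  | (j, Sum.inr i) => t (j + 1, Sum.inl i) - t (j, Sum.inl i)

/-- the quadratic form `2 Q + |D|^2 / 4` -/
noncomputable def qK (n K : ℕ) [NeZero K] (t : Iz n K → ℝ) : ℝ :=
  2 * QK n K t + (∑ a, DK n K t a ^ 2) / 4

/-- the lattice of the constant sequences -/
def Lc (n K : ℕ) : AddSubgroup (Iz n K → ℤ) where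
  carrier := {v | ∃ c : Fin n ⊕ Fin n → ℤ, ∀ j b, v (j, b) = c b}
  zero_mem' := ⟨0, fun _ _ => rfl⟩
  add_mem' := by
    rintro _ _ ⟨c, hc⟩ ⟨c', hc'⟩
    exact ⟨c + c', fun j b => by rw [Pi.add_apply, Pi.add_apply, hc, hc']⟩
  neg_mem' := by
    rintro _ ⟨c, hc⟩
    exact ⟨-c, fun j b => by rw [Pi.neg_apply, Pi.neg_apply, hc]⟩

end Pool.Agent.H47.ST
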