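import Pool.Agent.H47.ST.Grid

/-!
# Regular vertices of fine grids
-/

set_option autoImplicit false

namespace Pool.Agent.H47.ST

open Filter Topology
open Pool.Agent.H47.QG (sg neg)

variable {ι : Type*} [Fintype ι] [DecidableEq ι]

omit [Fintype ι] [DecidableEq ι] in
theorem FineR_mono {y : ι → ℝ} {r r' : ℝ} (h : r ≤ r') {x : ι → ℝ} (hx : Cl y r x) : Cl y r' x :=
  fun i => (hx i).trans_le h

theorem FineR_sz (s : Bool) : ((sz s : ℤ) : ℝ) = sg s := by
  cases s <;> simp [sz, sg]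

omit [Fintype ι] in
theorem FineR_ps (m : ℕ) (w : ι → ℤ) (i : ι) (s : Bool) :
    ps m (w + Pi.single i (sz s)) = ps m w + Pi.single i (sg s * (1 / (m : ℝ))) := by
  ext j
  by_cases hj : j = i
  · subst hj
    simp only [ps, Pi.add_apply, Pi.single_eq_same]
    push_cast
    rw [FineR_sz, add_div]
    ring
  · simp [ps, Pi.single_eq_of_ne hj]

omit [DecidableEq ι] in
/-- neighbourhoods in terms of `Cl` -/
theorem FineR_nhd {y : ι → ℝ} {P : (ι → ℝ) → Prop} (h : ∀ᶠ x in 𝓝 y, P x) :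
    ∃ r > 0, ∀ x, Cl y r x → P x := by
  obtain ⟨r, hr, hP⟩ := Metric.eventually_nhds_iff.1 h
  refine ⟨r, hr, fun x hx => hP ?_⟩
  rw [dist_pi_lt_iff hr]
  intro j
  rw [Real.dist_eq]
  exact hx j

/-- a direction in which a function with nonzero differential decreases -/
theorem FineR_dir {f : (ι → ℝ) → ℝ} {y : ι → ℝ} (hd : fderiv ℝ f y ≠ 0) :
    ∃ (i : ι) (s : Bool), sg s * fderiv ℝ f y (Pi.single i 1) < 0 := by
  by_contra hcon
  push Not at hcon
  apply hd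
  apply ContinuousLinearMap.coe_injective
  refine (Pi.basisFun ℝ ι).ext fun i => ?_
  have h1 := hcon i true
  have h2 := hcon i false
  simp only [sg, if_true] at h1
  simp only [sg, Bool.false_eq_true, if_false] at h2
  simp only [Pi.basisFun_apply]
  show fderiv ℝ f y (Pi.single i 1) = 0
  linarith

/-- A function decreases along one step of the grid in the direction `(i, s)`. -/
theorem fine_step (h : (ι → ℝ) → ℝ) (hh : ContDiff ℝ 1 h) (y : ι → ℝ) (i : ι) (s : Bool)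
    (hd : sg s * fderiv ℝ h y (Pi.single i 1) < 0) :
    ∃ r > 0, ∀ m : ℕ, 0 < m → ∀ w : ι → ℤ, Cl y r (ps m w) →
      Cl y r (ps m (w + Pi.single i (sz s))) →
      h (ps m (w + Pi.single i (sz s))) < h (ps m w) := by
  have hc : Continuous fun x => sg s * fderiv ℝ h x (Pi.single i 1) :=
    continuous_const.mul ((hh.continuous_fderiv one_ne_zero).clm_apply continuous_const)
  obtain ⟨r, hr, hP⟩ := FineR_nhd (hc.continuousAt.eventually_lt continuousAt_const hd)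
  refine ⟨r / 3, by positivity, fun m hm w h1 h2 => ?_⟩
  have hm' : (0 : ℝ) < m := by exact_mod_cast hm
  have hm1 : (0 : ℝ) < 1 / (m : ℝ) := by positivity
  have h3 : (1 : ℝ) / m < 2 * (r / 3) := by
    have h4 := h1 i
    have h5 := h2 i
    rw [FineR_ps, Pi.add_apply, Pi.single_eq_same] at h5
    rw [abs_lt] at h4 h5
    rcases Pool.Agent.H47.QG.DiscQ_sg s with h6 | h6 <;> rw [h6] at h5 <;> linarith [h4.1, h4.2,
      h5.1, h5.2]
  have h4 := (Pool.Agent.H47.QG.grad_reg h hh (ps m w) (1 / (m : ℝ)) hm1 i s (fun x hx => by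
    refine hP x fun j => ?_
    have h5 : x j - y j = (x j - ps m w j) + (ps m w j - y j) := by ring
    rw [h5]
    calc |(x j - ps m w j) + (ps m w j - y j)| ≤ |x j - ps m w j| + |ps m w j - y j| :=
          abs_add_le _ _
      _ < r := by linarith [hx j, h1 j])).1 0 rfl (fun j => by simp)
  rw [add_zero] at h4
  rw [FineR_ps]
  exact h4

/-- general form -/
theorem FineR_gen (A B : ℕ → Set (ι → ℤ)) (g : ℕ → (ι → ℤ) → ℝ) (y : ι → ℝ) (i : ι) (s : Bool)
    (r : ℝ) (hr : 0 < r)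
    (h : ∀ m : ℕ, 0 < m → ∀ w : ι → ℤ, Cl y r (ps m w) → Cl y r (ps m (w + Pi.single i (sz s))) →
      (w ∈ A m → w + Pi.single i (sz s) ∈ A m) ∧ (w ∈ B m → w + Pi.single i (sz s) ∈ B m) ∧
        g m (w + Pi.single i (sz s)) < g m w) :
    ∃ r > 0, ∀ᶠ m : ℕ in atTop, ∀ v : ι → ℤ, Cl y r (ps m v) → v ∈ B m → v ∉ A m →
      RegV (A m) (B m) (g m) v := by
  obtain ⟨n, hn⟩ := exists_nat_gt (4 / r)
  refine ⟨r / 2, by positivity, ?_⟩
  filter_upwards [eventually_ge_atTop (max n 1)] with m hm v hv hvB _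
  have hm0 : 0 < m := lt_of_lt_of_le one_pos ((le_max_right _ _).trans hm)
  have hmn : (n : ℝ) ≤ m := by exact_mod_cast (le_max_left _ _).trans hm
  have hm' : (0 : ℝ) < m := by exact_mod_cast hm0
  have hm1 : (0 : ℝ) < 1 / (m : ℝ) := by positivity
  have hmr : 1 / (m : ℝ) < r / 4 := by
    rw [div_lt_iff₀ hm']
    have h1 := hn.trans_le hmn
    rw [div_lt_iff₀ hr] at h1
    linarith
  refine ⟨i, s, fun w hw _ hor => ?_⟩
  have hcl : Cl y (3 * r / 4) (ps m w) := by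
    intro j
    have h1 : ps m w j - y j = ((w j - v j : ℤ) : ℝ) / m + (ps m v j - y j) := by
      simp only [ps]
      push_cast
      ring
    have h2 : |((w j - v j : ℤ) : ℝ) / m| ≤ 1 / m := by
      rw [abs_div, abs_of_pos hm']
      gcongr
      rw [← Int.cast_abs]
      exact_mod_cast hw j
    rw [h1]
    calc |((w j - v j : ℤ) : ℝ) / m + (ps m v j - y j)|
        ≤ |((w j - v j : ℤ) : ℝ) / m| + |ps m v j - y j| := abs_add_le _ _
      _ < 3 * r / 4 := by linarith [hv j]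
  have hcl1 : Cl y r (ps m w) := FineR_mono (by linarith) hcl
  have hcl2 : Cl y r (ps m (w + Pi.single i (sz s))) := by
    intro j
    rw [FineR_ps]
    by_cases hj : j = i
    · subst hj
      rw [Pi.add_apply, Pi.single_eq_same]
      have h1 := hcl j
      rw [abs_lt] at h1 ⊢
      rcases Pool.Agent.H47.QG.DiscQ_sg s with h6 | h6 <;> rw [h6] <;>
        constructor <;> linarith [h1.1, h1.2]
    · rw [Pi.add_apply, Pi.single_eq_of_ne hj, add_zero]
      exact hcl1 j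
  obtain ⟨h1, h2, h3⟩ := h m hm0 w hcl1 hcl2
  rcases hor with rfl | hA | ⟨hB, hg⟩
  · exact Or.inr ⟨h2 hvB, h3⟩
  · exact Or.inl (h1 hA)
  · exact Or.inr ⟨h2 hB, h3.trans_le hg⟩

/-- boundary points -/
theorem fine_bd (q Q f f' : (ι → ℝ) → ℝ) (R a α β : ℝ) (hq : ContDiff ℝ 1 q)
    (hQ : ContDiff ℝ 1 Q) (hf : ContDiff ℝ 1 f) (y : ι → ℝ) (hff : ∀ᶠ x in 𝓝 y, f' x = f x)
    (i : ι) (s : Bool) (h1 : sg s * fderiv ℝ f y (Pi.single i 1) < 0)
    (h2 : sg s * fderiv ℝ q y (Pi.single i 1) < 0)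
    (h3 : sg s * fderiv ℝ Q y (Pi.single i 1) < 0) :
    ∃ r > 0, ∀ᶠ m : ℕ in atTop, ∀ v : ι → ℤ, Cl y r (ps m v) → v ∈ Lv q Q f R a β m →
      v ∉ Lv q Q f R a α m → RegV (Lv q Q f R a α m) (Lv q Q f R a β m) (fun v => f' (ps m v)) v := by
  obtain ⟨r1, hr1, H1⟩ := fine_step f hf y i s h1
  obtain ⟨r2, hr2, H2⟩ := fine_step q hq y i s h2
  obtain ⟨r3, hr3, H3⟩ := fine_step Q hQ y i s h3
  obtain ⟨r4, hr4, H4⟩ := FineR_nhd hff
  set r := min (min r1 r2) (min r3 r4) with hr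
  have e1 : r ≤ r1 := (min_le_left _ _).trans (min_le_left _ _)
  have e2 : r ≤ r2 := (min_le_left _ _).trans (min_le_right _ _)
  have e3 : r ≤ r3 := (min_le_right _ _).trans (min_le_left _ _)
  have e4 : r ≤ r4 := (min_le_right _ _).trans (min_le_right _ _)
  refine FineR_gen (fun m => Lv q Q f R a α m) (fun m => Lv q Q f R a β m)
    (fun m v => f' (ps m v)) y i s r (lt_min (lt_min hr1 hr2) (lt_min hr3 hr4))
    fun m hm w hw hw' => ?_
  have k1 := H1 m hm w (FineR_mono e1 hw) (FineR_mono e1 hw')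
  have k2 := H2 m hm w (FineR_mono e2 hw) (FineR_mono e2 hw')
  have k3 := H3 m hm w (FineR_mono e3 hw) (FineR_mono e3 hw')
  refine ⟨fun h => ⟨k2.le.trans h.1, h.2.imp (fun h => k3.le.trans h) fun h => k1.le.trans h⟩,
    fun h => ⟨k2.le.trans h.1, h.2.imp (fun h => k3.le.trans h) fun h => k1.le.trans h⟩, ?_⟩
  show f' (ps m (w + Pi.single i (sz s))) < f' (ps m w)
  rw [H4 _ (FineR_mono e4 hw), H4 _ (FineR_mono e4 hw')]
  exact k1

/-- interior points where `f' = f` -/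
theorem fine_int (q Q f f' : (ι → ℝ) → ℝ) (R a α β : ℝ) (hq : ContDiff ℝ 1 q)
    (hQ : ContDiff ℝ 1 Q) (hf : ContDiff ℝ 1 f) (y : ι → ℝ) (hff : ∀ᶠ x in 𝓝 y, f' x = f x)
    (hqy : q y < R) (hQy : -a < Q y) (hd : fderiv ℝ f y ≠ 0) :
    ∃ r > 0, ∀ᶠ m : ℕ in atTop, ∀ v : ι → ℤ, Cl y r (ps m v) → v ∈ Lv q Q f R a β m →
      v ∉ Lv q Q f R a α m → RegV (Lv q Q f R a α m) (Lv q Q f R a β m) (fun v => f' (ps m v)) v := by
  obtain ⟨i, s, h1⟩ := FineR_dir hd
  obtain ⟨r1, hr1, H1⟩ := fine_step f hf y i s h1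
  obtain ⟨r2, hr2, H2⟩ := FineR_nhd
    (hq.continuous.continuousAt.eventually_lt continuousAt_const hqy : ∀ᶠ x in 𝓝 y, q x < R)
  obtain ⟨r3, hr3, H3⟩ := FineR_nhd
    (continuousAt_const.eventually_lt hQ.continuous.continuousAt hQy : ∀ᶠ x in 𝓝 y, -a < Q x)
  obtain ⟨r4, hr4, H4⟩ := FineR_nhd hff
  set r := min (min r1 r2) (min r3 r4) with hr
  have e1 : r ≤ r1 := (min_le_left _ _).trans (min_le_left _ _)
  have e2 : r ≤ r2 := (min_le_left _ _).trans (min_le_right _ _)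
  have e3 : r ≤ r3 := (min_le_right _ _).trans (min_le_left _ _)
  have e4 : r ≤ r4 := (min_le_right _ _).trans (min_le_right _ _)
  refine FineR_gen (fun m => Lv q Q f R a α m) (fun m => Lv q Q f R a β m)
    (fun m v => f' (ps m v)) y i s r (lt_min (lt_min hr1 hr2) (lt_min hr3 hr4))
    fun m hm w hw hw' => ?_
  have k1 := H1 m hm w (FineR_mono e1 hw) (FineR_mono e1 hw')
  have k2 := H2 _ (FineR_mono e2 hw')
  have k3 := H3 _ (FineR_mono e3 hw)
  refine ⟨fun h => ⟨k2.le, Or.inr ?_⟩, fun h => ⟨k2.le, Or.inr ?_⟩, ?_⟩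
  · rcases h.2 with h | h
    · exact absurd h (not_le.2 k3)
    · exact k1.le.trans h
  · rcases h.2 with h | h
    · exact absurd h (not_le.2 k3)
    · exact k1.le.trans h
  · show f' (ps m (w + Pi.single i (sz s))) < f' (ps m w)
    rw [H4 _ (FineR_mono e4 hw), H4 _ (FineR_mono e4 hw')]
    exact k1

/-- interior points between the levels -/
theorem fine_mid (q Q f f' : (ι → ℝ) → ℝ) (R a α β : ℝ) (hq : ContDiff ℝ 1 q)
    (hQ : ContDiff ℝ 1 Q) (hf : ContDiff ℝ 1 f) (hf' : ContDiff ℝ 1 f') (y : ι → ℝ)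
    (hqy : q y < R) (hQy : -a < Q y) (ha : α < f y) (hb : f y < β) (hd : fderiv ℝ f' y ≠ 0) :
    ∃ r > 0, ∀ᶠ m : ℕ in atTop, ∀ v : ι → ℤ, Cl y r (ps m v) → v ∈ Lv q Q f R a β m →
      v ∉ Lv q Q f R a α m → RegV (Lv q Q f R a α m) (Lv q Q f R a β m) (fun v => f' (ps m v)) v := by
  obtain ⟨i, s, h1⟩ := FineR_dir hd
  obtain ⟨r1, hr1, H1⟩ := fine_step f' hf' y i s h1
  obtain ⟨r2, hr2, H2⟩ := FineR_nhd
    (hq.continuous.continuousAt.eventually_lt continuousAt_const hqy : ∀ᶠ x in 𝓝 y, q x < R)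
  obtain ⟨r3, hr3, H3⟩ := FineR_nhd
    (continuousAt_const.eventually_lt hQ.continuous.continuousAt hQy : ∀ᶠ x in 𝓝 y, -a < Q x)
  obtain ⟨r4, hr4, H4⟩ := FineR_nhd
    (continuousAt_const.eventually_lt hf.continuous.continuousAt ha : ∀ᶠ x in 𝓝 y, α < f x)
  obtain ⟨r5, hr5, H5⟩ := FineR_nhd
    (hf.continuous.continuousAt.eventually_lt continuousAt_const hb : ∀ᶠ x in 𝓝 y, f x < β)
  set r := min (min r1 r2) (min r3 (min r4 r5)) with hr
  have e1 : r ≤ r1 := (min_le_left _ _).trans (min_le_left _ _)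
  have e2 : r ≤ r2 := (min_le_left _ _).trans (min_le_right _ _)
  have e3 : r ≤ r3 := (min_le_right _ _).trans (min_le_left _ _)
  have e4 : r ≤ r4 := (min_le_right _ _).trans ((min_le_right _ _).trans (min_le_left _ _))
  have e5 : r ≤ r5 := (min_le_right _ _).trans ((min_le_right _ _).trans (min_le_right _ _))
  refine FineR_gen (fun m => Lv q Q f R a α m) (fun m => Lv q Q f R a β m)
    (fun m v => f' (ps m v)) y i s r (lt_min (lt_min hr1 hr2) (lt_min hr3 (lt_min hr4 hr5)))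
    fun m hm w hw hw' => ?_
  refine ⟨fun h => ?_, fun _ => ⟨(H2 _ (FineR_mono e2 hw')).le,
    Or.inr (H5 _ (FineR_mono e5 hw')).le⟩, H1 m hm w (FineR_mono e1 hw) (FineR_mono e1 hw')⟩
  exfalso
  rcases h.2 with h | h
  · exact absurd h (not_le.2 (H3 _ (FineR_mono e3 hw)))
  · exact absurd h (not_le.2 (H4 _ (FineR_mono e4 hw)))

end Pool.Agent.H47.ST
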