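import Pool.Agent.H47.ST.Grid

/-!
# Gluing local modifications
-/

set_option autoImplicit false

namespace Pool.Agent.H47.ST

open Filter Topology

variable {ι : Type*} [Fintype ι] [DecidableEq ι]

/-- the closed balls of radius `r` about the points `z + l` are pairwise disjoint -/
def Disj (L : AddSubgroup (ι → ℤ)) (Z : Finset (ι → ℝ)) (r : ℝ) : Prop :=
  ∀ z ∈ Z, ∀ z' ∈ Z, ∀ l ∈ L, ∀ y, y ∈ Metric.closedBall (z + rl l) r →
    y ∈ Metric.closedBall z' r → z = z' ∧ l = 0

omit [Fintype ι] [DecidableEq ι] in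
theorem Glue_rl_add (l m : ι → ℤ) : rl (l + m) = rl l + rl m := by
  funext i; simp [rl]

omit [Fintype ι] [DecidableEq ι] in
theorem Glue_rl_neg (l : ι → ℤ) : rl (-l) = -rl l := by
  funext i; simp [rl]

omit [Fintype ι] [DecidableEq ι] in
theorem Glue_rl_sub (l m : ι → ℤ) : rl (l - m) = rl l - rl m := by
  funext i; simp [rl]

omit [Fintype ι] [DecidableEq ι] in
theorem Glue_rl_eq_zero (l : ι → ℤ) (h : rl l = 0) : l = 0 := by
  funext i
  have := congrFun h i
  simpa [rl] using this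

omit [DecidableEq ι] in
/-- only finitely many integer vectors are close to a point -/
theorem Glue_finite (y : ι → ℝ) (R : ℝ) : {l : ι → ℤ | dist (rl l) y ≤ R}.Finite := by
  classical
  refine Set.Finite.subset (Set.finite_Icc (fun i => ⌊y i - R⌋) (fun i => ⌈y i + R⌉)) ?_
  intro l hl
  have h : ∀ i, |(l i : ℝ) - y i| ≤ R := fun i => by
    have h1 := dist_le_pi_dist (rl l) y i
    rw [Real.dist_eq] at h1
    exact h1.trans hl
  rw [Set.mem_Icc]
  refine ⟨fun i => ?_, fun i => ?_⟩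
  · have h2 := (abs_le.mp (h i)).1
    have h3 : (⌊y i - R⌋ : ℝ) ≤ y i - R := Int.floor_le _
    have h4 : (⌊y i - R⌋ : ℝ) ≤ (l i : ℝ) := by linarith
    exact_mod_cast h4
  · have h2 := (abs_le.mp (h i)).2
    have h3 : y i + R ≤ (⌈y i + R⌉ : ℝ) := Int.le_ceil _
    have h4 : (l i : ℝ) ≤ (⌈y i + R⌉ : ℝ) := by linarith
    exact_mod_cast h4

omit [DecidableEq ι] in
theorem Glue_finite2 (z y : ι → ℝ) (R : ℝ) : {l : ι → ℤ | dist (z + rl l) y ≤ R}.Finite := by
  refine (Glue_finite (y - z) R).subset fun l hl => ?_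
  have : dist (rl l) (y - z) = dist (z + rl l) y := by
    rw [dist_eq_norm, dist_eq_norm]
    congr 1
    abel
  show dist (rl l) (y - z) ≤ R
  rw [this]
  exact hl

/-- the balls are disjoint for small radius -/
theorem Disj_small (L : AddSubgroup (ι → ℤ)) (Z : Finset (ι → ℝ))
    (hZ : ∀ z ∈ Z, ∀ z' ∈ Z, ∀ l ∈ L, z' = z + rl l → z' = z) :
    ∀ᶠ r in 𝓝[>] (0 : ℝ), Disj L Z r := by
  classical
  have h1 : ∀ᶠ r in 𝓝[>] (0 : ℝ), r < 1 :=
    nhdsWithin_le_nhds (gt_mem_nhds one_pos)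
  have h2 : ∀ᶠ r in 𝓝[>] (0 : ℝ), ∀ z ∈ Z, ∀ z' ∈ Z,
      ∀ l ∈ {l : ι → ℤ | dist (z + rl l) z' ≤ 2}, z + rl l ≠ z' → 2 * r < dist (z + rl l) z' := by
    rw [Filter.eventually_all_finset]
    intro z _
    rw [Filter.eventually_all_finset]
    intro z' _
    rw [Filter.eventually_all_finite (Glue_finite2 z z' 2)]
    intro l _
    by_cases h : z + rl l = z'
    · exact Filter.Eventually.of_forall fun r hr => absurd h hr
    · have hpos : 0 < dist (z + rl l) z' / 2 := by
        have := dist_pos.mpr h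
        linarith
      refine nhdsWithin_le_nhds ?_
      filter_upwards [gt_mem_nhds hpos] with r hr _
      linarith
  filter_upwards [h1, h2] with r hr1 hr2
  intro z hz z' hz' l hl y hy hy'
  have h3 : dist (z + rl l) z' ≤ 2 * r := by
    rw [Metric.mem_closedBall] at hy hy'
    have := dist_triangle_left (z + rl l) z' y
    linarith
  have h4 : z + rl l = z' := by
    by_contra h
    have := hr2 z hz z' hz' l (show dist (z + rl l) z' ≤ 2 by linarith) h
    linarith
  have h5 := hZ z hz z' hz' l hl h4.symm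
  refine ⟨h5.symm, Glue_rl_eq_zero l ?_⟩
  rw [h5] at h4
  simpa using h4

omit [DecidableEq ι] in
theorem Glue_unique (L : AddSubgroup (ι → ℤ)) (Z : Finset (ι → ℝ)) (r : ℝ) (hd : Disj L Z r)
    (z : ι → ℝ) (hz : z ∈ Z) (z' : ι → ℝ) (hz' : z' ∈ Z) (l : ι → ℤ) (hl : l ∈ L) (l' : ι → ℤ)
    (hl' : l' ∈ L) (y : ι → ℝ) (hy : y ∈ Metric.closedBall (z + rl l) r)
    (hy' : y ∈ Metric.closedBall (z' + rl l') r) : z = z' ∧ l = l' := by
  have h1 : y - rl l' ∈ Metric.closedBall (z + rl (l - l')) r := by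
    rw [Metric.mem_closedBall, dist_eq_norm] at hy ⊢
    rw [Glue_rl_sub]
    have : y - rl l' - (z + (rl l - rl l')) = y - (z + rl l) := by abel
    rwa [this]
  have h2 : y - rl l' ∈ Metric.closedBall z' r := by
    rw [Metric.mem_closedBall, dist_eq_norm] at hy' ⊢
    have : y - rl l' - z' = y - (z' + rl l') := by abel
    rwa [this]
  obtain ⟨h3, h4⟩ := hd z hz z' hz' (l - l') (L.sub_mem hl hl') _ h1 h2
  exact ⟨h3, sub_eq_zero.mp h4⟩

omit [DecidableEq ι] in
/-- near a point outside all closed balls one is outside all of them -/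
theorem Glue_far (L : AddSubgroup (ι → ℤ)) (Z : Finset (ι → ℝ)) (s : ℝ) (y : ι → ℝ)
    (hy : ∀ z ∈ Z, ∀ l ∈ L, y ∉ Metric.closedBall (z + rl l) s) :
    ∀ᶠ x in 𝓝 y, ∀ z ∈ Z, ∀ l ∈ L, x ∉ Metric.closedBall (z + rl l) s := by
  classical
  have h1 : ∀ᶠ x in 𝓝 y, dist x y < 1 := Metric.ball_mem_nhds y one_pos
  have h2 : ∀ᶠ x in 𝓝 y, ∀ z ∈ Z, ∀ l ∈ {l : ι → ℤ | dist (z + rl l) y ≤ s + 1}, l ∈ L →
      x ∉ Metric.closedBall (z + rl l) s := by
    rw [Filter.eventually_all_finset]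
    intro z hz
    rw [Filter.eventually_all_finite (Glue_finite2 z y (s + 1))]
    intro l _
    by_cases hl : l ∈ L
    · have : (Metric.closedBall (z + rl l) s)ᶜ ∈ 𝓝 y :=
        Metric.isClosed_closedBall.isOpen_compl.mem_nhds (hy z hz l hl)
      filter_upwards [this] with x hx _
      exact hx
    · exact Filter.Eventually.of_forall fun x h => absurd h hl
  filter_upwards [h1, h2] with x hx1 hx2
  intro z hz l hl hx
  refine hx2 z hz l ?_ hl hx
  show dist (z + rl l) y ≤ s + 1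
  rw [Metric.mem_closedBall] at hx
  have := dist_triangle_left (z + rl l) y x
  linarith

/-- **Gluing.** -/
theorem glue (L : AddSubgroup (ι → ℤ)) (n : WithTop ℕ∞) (f : (ι → ℝ) → ℝ) (hf : ContDiff ℝ n f)
    (hfp : PerL L f) (Z : Finset (ι → ℝ)) (r : ℝ) (hr : 0 < r) (hd : Disj L Z r)
    (k : (ι → ℝ) → (ι → ℝ) → ℝ) (hk : ∀ z ∈ Z, ContDiff ℝ n (k z))
    (hk2 : ∀ z ∈ Z, ∀ y, y ∉ Metric.closedBall z (r / 2) → k z y = f y) :
    ∃ f' : (ι → ℝ) → ℝ, ContDiff ℝ n f' ∧ PerL L f' ∧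
      (∀ y, (∀ z ∈ Z, ∀ l ∈ L, y ∉ Metric.closedBall (z + rl l) (r / 2)) →
        ∀ᶠ x in 𝓝 y, f' x = f x) ∧
      ∀ z ∈ Z, ∀ l ∈ L, ∀ y ∈ Metric.ball (z + rl l) r, f' y = k z (y - rl l) := by
  classical
  let P : (ι → ℝ) → (ι → ℝ) × (ι → ℤ) → Prop := fun y p =>
    p.1 ∈ Z ∧ p.2 ∈ L ∧ y ∈ Metric.closedBall (p.1 + rl p.2) (r / 2)
  let f' : (ι → ℝ) → ℝ := fun y =>
    if h : ∃ p, P y p then k h.choose.1 (y - rl h.choose.2) else f y
  have hhalf : ∀ c : ι → ℝ, Metric.closedBall c (r / 2) ⊆ Metric.closedBall c r := fun c =>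
    Metric.closedBall_subset_closedBall (by linarith)
  have hout : ∀ y, (∀ z ∈ Z, ∀ l ∈ L, y ∉ Metric.closedBall (z + rl l) (r / 2)) → f' y = f y := by
    intro y hy
    have h : ¬ ∃ p, P y p := by
      rintro ⟨p, h1, h2, h3⟩
      exact hy p.1 h1 p.2 h2 h3
    simp only [f', dif_neg h]
  have hin : ∀ z ∈ Z, ∀ l ∈ L, ∀ y ∈ Metric.closedBall (z + rl l) r, f' y = k z (y - rl l) := by
    intro z hz l hl y hy
    by_cases h : ∃ p, P y p
    · obtain ⟨h1, h2, h3⟩ := h.choose_spec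
      obtain ⟨h4, h5⟩ := Glue_unique L Z r hd _ h1 z hz _ h2 l hl y (hhalf _ h3) hy
      simp only [f', dif_pos h]
      rw [h4, h5]
    · have h6 : ¬ y ∈ Metric.closedBall (z + rl l) (r / 2) := fun h7 => h ⟨(z, l), hz, hl, h7⟩
      have h8 : y - rl l ∉ Metric.closedBall z (r / 2) := by
        intro h9
        apply h6
        rw [Metric.mem_closedBall, dist_eq_norm] at h9 ⊢
        have : y - (z + rl l) = y - rl l - z := by abel
        rwa [this]
      simp only [f', dif_neg h]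
      rw [hk2 z hz _ h8]
      have := hfp l hl (y - rl l)
      rw [sub_add_cancel] at this
      exact this
  have hfar : ∀ y, (∀ z ∈ Z, ∀ l ∈ L, y ∉ Metric.closedBall (z + rl l) (r / 2)) →
      ∀ᶠ x in 𝓝 y, f' x = f x := by
    intro y hy
    filter_upwards [Glue_far L Z (r / 2) y hy] with x hx
    exact hout x hx
  refine ⟨f', ?_, ?_, hfar, fun z hz l hl y hy => hin z hz l hl y (Metric.ball_subset_closedBall hy)⟩
  · rw [contDiff_iff_contDiffAt]
    intro y
    by_cases h : ∃ z ∈ Z, ∃ l ∈ L, y ∈ Metric.closedBall (z + rl l) (r / 2)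
    · obtain ⟨z, hz, l, hl, hy⟩ := h
      have hy2 : y ∈ Metric.ball (z + rl l) r := by
        rw [Metric.mem_closedBall] at hy
        rw [Metric.mem_ball]
        linarith
      have h1 : f' =ᶠ[𝓝 y] fun x => k z (x - rl l) := by
        filter_upwards [Metric.isOpen_ball.mem_nhds hy2] with x hx
        exact hin z hz l hl x (Metric.ball_subset_closedBall hx)
      have h2 : ContDiffAt ℝ n (fun x => k z (x - rl l)) y :=
        ((hk z hz).comp (contDiff_id.sub contDiff_const)).contDiffAt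
      exact h2.congr_of_eventuallyEq h1
    · push Not at h
      exact hf.contDiffAt.congr_of_eventuallyEq (hfar y fun z hz l hl => h z hz l hl)
  · intro m hm y
    by_cases h : ∃ z ∈ Z, ∃ l ∈ L, y ∈ Metric.closedBall (z + rl l) (r / 2)
    · obtain ⟨z, hz, l, hl, hy⟩ := h
      have h1 : y + rl m ∈ Metric.closedBall (z + rl (l + m)) (r / 2) := by
        rw [Metric.mem_closedBall, dist_eq_norm] at hy ⊢
        rw [Glue_rl_add]
        have : y + rl m - (z + (rl l + rl m)) = y - (z + rl l) := by abel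
        rwa [this]
      rw [hin z hz (l + m) (L.add_mem hl hm) _ (hhalf _ h1), hin z hz l hl y (hhalf _ hy)]
      congr 1
      rw [Glue_rl_add]
      abel
    · push Not at h
      have h2 : ∀ z ∈ Z, ∀ l ∈ L, y + rl m ∉ Metric.closedBall (z + rl l) (r / 2) := by
        intro z hz l hl h3
        refine h z hz (l - m) (L.sub_mem hl hm) ?_
        rw [Metric.mem_closedBall, dist_eq_norm] at h3 ⊢
        rw [Glue_rl_sub]
        have : y - (z + (rl l - rl m)) = y + rl m - (z + rl l) := by abel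
        rwa [this]
      rw [hout _ h2, hout y fun z hz l hl => h z hz l hl]
      exact hfp m hm y

end Pool.Agent.H47.ST
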