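import Pool.Agent.H47.ST.Lev
import Pool.Agent.H47.QG.DiscQ
import Pool.Agent.H47.QG.DiscK
import Pool.Agent.H47.QG.Idx

/-!
# Grids of mesh `1/m`: definitions
-/

set_option autoImplicit false

namespace Pool.Agent.H47.ST

open Pool.Agent.H47.QG (sg neg)

variable {ι : Type*} [Fintype ι] [DecidableEq ι]

/-- the point of the vertex `v` of the grid of mesh `1/m` -/
noncomputable def ps (m : ℕ) (v : ι → ℤ) : ι → ℝ := fun i => (v i : ℝ) / m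

/-- real version of an integer vector -/
def rl (l : ι → ℤ) : ι → ℝ := fun i => (l i : ℝ)

/-- the lattice `m L` -/
def lam (L : AddSubgroup (ι → ℤ)) (m : ℕ) : AddSubgroup (ι → ℤ) where
  carrier := {v | ∃ l ∈ L, v = (m : ℤ) • l}
  zero_mem' := ⟨0, L.zero_mem, by simp⟩
  add_mem' := by
    rintro _ _ ⟨a, ha, rfl⟩ ⟨b, hb, rfl⟩
    exact ⟨a + b, L.add_mem ha hb, by rw [smul_add]⟩
  neg_mem' := by
    rintro _ ⟨a, ha, rfl⟩
    exact ⟨-a, L.neg_mem ha, by rw [smul_neg]⟩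

/-- invariance under the integer translations of `L` -/
def PerL (L : AddSubgroup (ι → ℤ)) (f : (ι → ℝ) → ℝ) : Prop := ∀ l ∈ L, ∀ y, f (y + rl l) = f y

/-- the vertices `v` with `q ≤ R` and (`Q ≤ -a` or `f ≤ α`) -/
def Lv (q Q f : (ι → ℝ) → ℝ) (R a α : ℝ) (m : ℕ) : Set (ι → ℤ) :=
  {v | q (ps m v) ≤ R ∧ (Q (ps m v) ≤ -a ∨ f (ps m v) ≤ α)}

/-- the vertices with `q ≤ R` -/
def Xm (q : (ι → ℝ) → ℝ) (R : ℝ) (m : ℕ) : Set (ι → ℤ) := {v | q (ps m v) ≤ R}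

/-- the vertices with `q ≤ R`, `Q ≤ -a` -/
def Am (q Q : (ι → ℝ) → ℝ) (R a : ℝ) (m : ℕ) : Set (ι → ℤ) :=
  {v | q (ps m v) ≤ R ∧ Q (ps m v) ≤ -a}

/-- the domain -/
structure Dm (L : AddSubgroup (ι → ℤ)) (q Q : (ι → ℝ) → ℝ) (R a : ℝ) : Prop where
  q1 : ContDiff ℝ 1 q
  Q1 : ContDiff ℝ 1 Q
  qp : PerL L q
  Qp : PerL L Q
  cpt : ∃ K : Set (ι → ℝ), IsCompact K ∧ ∀ y, q y ≤ R → -a ≤ Q y → ∃ l ∈ L, y + rl l ∈ K

/-- At the boundary of the domain some coordinate direction decreases `f`, `q` and `Q`. -/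
def Bd (q Q : (ι → ℝ) → ℝ) (R a : ℝ) (f : (ι → ℝ) → ℝ) : Prop :=
  ∀ y, q y ≤ R → -a ≤ Q y → (q y = R ∨ Q y = -a) → ∃ (i : ι) (s : Bool),
    sg s * fderiv ℝ f y (Pi.single i 1) < 0 ∧ sg s * fderiv ℝ q y (Pi.single i 1) < 0 ∧
      sg s * fderiv ℝ Q y (Pi.single i 1) < 0

/-- `z` is a standard critical point of `f` -/
def StdAt (f : (ι → ℝ) → ℝ) (z c : ι → ℝ) : Prop :=
  (∀ i, c i ≠ 0) ∧ ∃ r > 0, ∀ y, (∀ i, |y i - z i| < r) → f y = f z + ∑ i, c i * (y i - z i) ^ 2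

/-- close to `y` (sup norm) -/
def Cl (y : ι → ℝ) (r : ℝ) (x : ι → ℝ) : Prop := ∀ i, |x i - y i| < r

end Pool.Agent.H47.ST
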