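import Pool.Agent.H47.QG.Stmt

/-!
# Local multiplicity of an isolated critical point
-/

set_option autoImplicit false

namespace Pool.Agent.H47.ST

open Module QuadraticForm Filter Topology
open Pool.Agent.H47.QG (hess LD)

/-- The isolated critical point `z` of `A` can be perturbed to at most `m` nondegenerate ones:
there are arbitrarily small linear functionals `a`, regular values of the derivative of `A` in the
ball, for which at most `m` points of the ball satisfy `dA = a`. -/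
def LocNum {E : Type*} [NormedAddCommGroup E] [NormedSpace ℝ E] (A : E → ℝ) (z : E) (m : ℕ) :
    Prop :=
  ∃ r > 0, (∀ y ∈ Metric.closedBall z r, fderiv ℝ A y = 0 → y = z) ∧
    ∀ δ > 0, ∃ a : E →L[ℝ] ℝ, ‖a‖ < δ ∧
    (∀ y ∈ Metric.ball z r, fderiv ℝ A y = a → ∀ v, fderiv ℝ (fderiv ℝ A) y v = 0 → v = 0) ∧
      ∃ X : Finset E, (∀ y, y ∈ X ↔ y ∈ Metric.ball z r ∧ fderiv ℝ A y = a) ∧ X.card ≤ m

/-- the derivative of the perturbed function -/
theorem LocM_fderiv {E : Type*} [NormedAddCommGroup E] [NormedSpace ℝ E] {f χ : E → ℝ}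
    (hf : ContDiff ℝ 2 f) (hχ : ContDiff ℝ 2 χ) (z : E) (a : E →L[ℝ] ℝ) (y : E) :
    fderiv ℝ (fun x => f x - χ x * a (x - z)) y =
      fderiv ℝ f y - (χ y • a + a (y - z) • fderiv ℝ χ y) := by
  have h1 : HasFDerivAt f (fderiv ℝ f y) y := (hf.differentiable two_ne_zero y).hasFDerivAt
  have h2 : HasFDerivAt χ (fderiv ℝ χ y) y := (hχ.differentiable two_ne_zero y).hasFDerivAt
  have h3 : HasFDerivAt (fun x => a (x - z)) a y := by
    have h4 := a.hasFDerivAt.comp y ((hasFDerivAt_id y).sub_const z)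
    rwa [ContinuousLinearMap.comp_id] at h4
  exact (h1.sub (h2.mul h3)).fderiv

theorem LocNum_LD {ι : Type*} [Fintype ι] [DecidableEq ι] (A : (ι → ℝ) → ℝ)
    (hA : ContDiff ℝ 2 A) (z : ι → ℝ) (m : ℕ) (h : LocNum A z m) (r : ℝ) (hr : 0 < r)
    (hiso : ∀ x ∈ Metric.closedBall z r, fderiv ℝ A x = 0 → x = z) :
    ∃ (g : (ι → ℝ) → ℝ) (X : Finset (ι → ℝ)), LD A z r g X ∧ X.card ≤ m := by
  by_cases hcrit : fderiv ℝ A z = 0
  swap
  · refine ⟨A, ∅, ⟨hA, fun _ _ => rfl, fun y hy => ⟨fun h => ?_, fun h => ?_⟩, ?_, ?_, ?_, ?_⟩, ?_⟩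
    · rw [hiso y hy h] at h
      exact absurd h hcrit
    · simp at h
    all_goals simp
  obtain ⟨r0, hr0, hiso0, hpert⟩ := h
  obtain ⟨δ, hδ, hsemi⟩ := QG.sigNeg_semicont (hess A z)
  obtain ⟨ρ₀, hρ₀, hcont⟩ := QG.Sard_hess_cont hA z δ hδ
  -- the radius
  let ρ : ℝ := min ρ₀ (min (r / 8) r0)
  have hρ : 0 < ρ := lt_min hρ₀ (lt_min (by linarith) hr0)
  have hρ1 : ρ ≤ ρ₀ := min_le_left _ _
  have hρ2 : ρ ≤ r / 8 := (min_le_right _ _).trans (min_le_left _ _)
  have hρ3 : ρ ≤ r0 := (min_le_right _ _).trans (min_le_right _ _)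
  -- cut-off function
  let χ : ContDiffBump z := ⟨r / 8, r / 4, by linarith, by linarith⟩
  have hχ : ContDiff ℝ 2 (χ : (ι → ℝ) → ℝ) := χ.contDiff
  obtain ⟨C, hC⟩ := (isCompact_closedBall z r).exists_bound_of_continuousOn
    (hχ.continuous_fderiv two_ne_zero).continuousOn
  have hC0 : 0 ≤ C := (norm_nonneg _).trans (hC z (Metric.mem_closedBall_self hr.le))
  -- the lower bound on the shell
  obtain ⟨c, hc, hshell⟩ : ∃ c > 0, ∀ y ∈ Metric.closedBall z (max r r0), ρ ≤ dist y z →
      c ≤ ‖fderiv ℝ A y‖ := by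
    let K : Set (ι → ℝ) := {y | y ∈ Metric.closedBall z (max r r0) ∧ ρ ≤ dist y z}
    have hK : IsCompact K := (isCompact_closedBall z (max r r0)).inter_right
      (isClosed_le continuous_const (continuous_id.dist continuous_const))
    rcases K.eq_empty_or_nonempty with hE | hE
    · refine ⟨1, one_pos, fun y hy1 hy2 => ?_⟩
      have h1 : y ∈ K := ⟨hy1, hy2⟩
      rw [hE] at h1
      exact absurd h1 (Set.notMem_empty y)
    · obtain ⟨y₀, hy₀, hmin⟩ := hK.exists_isMinOn hE
        ((hA.continuous_fderiv two_ne_zero).norm.continuousOn)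
      refine ⟨‖fderiv ℝ A y₀‖, ?_, fun y hy1 hy2 => hmin (a := y) ⟨hy1, hy2⟩⟩
      rw [gt_iff_lt, norm_pos_iff]
      intro h0
      have h1 : y₀ = z := by
        have h2 := hy₀.1
        rw [Metric.mem_closedBall, le_max_iff] at h2
        rcases h2 with h2 | h2
        · exact hiso y₀ (Metric.mem_closedBall.2 h2) h0
        · exact hiso0 y₀ (Metric.mem_closedBall.2 h2) h0
      have h2 := hy₀.2
      rw [h1, dist_self] at h2
      linarith
  -- the regular value
  have hD : 0 < 1 + r * C := by positivity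
  obtain ⟨a, ha1, ha2, X, hX, hXm⟩ := hpert (c / (1 + r * C)) (div_pos hc hD)
  have hal : ‖a‖ * (1 + r * C) < c := by
    rwa [lt_div_iff₀ hD] at ha1
  have hac : ‖a‖ < c := by
    have h1 : 0 ≤ ‖a‖ * (r * C) := by positivity
    nlinarith
  let g : (ι → ℝ) → ℝ := fun x => A x - χ x * a (x - z)
  have hg : ContDiff ℝ 2 g := by
    refine hA.sub (hχ.mul ?_)
    exact a.contDiff.comp (contDiff_id.sub contDiff_const)
  have hgd : ∀ y, fderiv ℝ g y =
      fderiv ℝ A y - (χ y • a + a (y - z) • fderiv ℝ χ y) :=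
    LocM_fderiv hA hχ z a
  -- outside
  have hout : ∀ y ∈ Metric.closedBall z r, ρ ≤ dist y z → fderiv ℝ g y ≠ 0 := by
    intro y hy hy2 h0
    rw [hgd, sub_eq_zero] at h0
    have h1 := hshell y (Metric.closedBall_subset_closedBall (le_max_left _ _) hy) hy2
    rw [h0] at h1
    have h2 : ‖χ y • a + a (y - z) • fderiv ℝ χ y‖ ≤ ‖a‖ * (1 + r * C) := by
      refine (norm_add_le _ _).trans ?_
      rw [norm_smul, norm_smul]
      have h3 : ‖χ y‖ ≤ 1 := by
        rw [Real.norm_eq_abs, abs_of_nonneg χ.nonneg]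
        exact χ.le_one
      have h4 : ‖a (y - z)‖ ≤ ‖a‖ * r := by
        refine (a.le_opNorm _).trans ?_
        rw [Metric.mem_closedBall, dist_eq_norm] at hy
        gcongr
      have h5 := hC y hy
      calc ‖χ y‖ * ‖a‖ + ‖a (y - z)‖ * ‖fderiv ℝ χ y‖
          ≤ 1 * ‖a‖ + (‖a‖ * r) * C := by gcongr
        _ = ‖a‖ * (1 + r * C) := by ring
    linarith
  -- inside
  have hin : ∀ y ∈ Metric.ball z ρ, fderiv ℝ g y = fderiv ℝ A y - a := by
    intro y hy
    have h1 : (χ : (ι → ℝ) → ℝ) =ᶠ[nhds y] fun _ => (1 : ℝ) := by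
      filter_upwards [Metric.isOpen_ball.mem_nhds hy] with w hw
      apply χ.one_of_mem_closedBall
      rw [Metric.mem_ball] at hw
      rw [Metric.mem_closedBall]
      exact hw.le.trans hρ2
    have h2 : χ y = 1 := h1.self_of_nhds
    rw [hgd, h1.fderiv_eq, h2, fderiv_const_apply, one_smul, smul_zero, add_zero]
  have hhess : ∀ y ∈ Metric.ball z ρ, hess g y = hess A y := by
    intro y hy
    apply QG.Sard_hess_sub (L := a)
    filter_upwards [Metric.isOpen_ball.mem_nhds hy] with w hw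
    exact hin w hw
  -- all solutions are close
  have hXρ : ∀ y ∈ X, y ∈ Metric.ball z ρ := by
    intro y hy
    obtain ⟨h1, h2⟩ := (hX y).1 hy
    by_contra h3
    rw [Metric.mem_ball, not_lt] at h3
    have h4 := hshell y (Metric.closedBall_subset_closedBall (le_max_right _ _)
      (Metric.ball_subset_closedBall h1)) h3
    rw [h2] at h4
    linarith
  have hlo : ∀ y ∈ Metric.ball z ρ, sigNeg (hess A z) ≤ sigNeg (hess g y) ∧
      sigPos (hess A z) ≤ sigPos (hess g y) := by
    intro y hy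
    rw [hhess y hy]
    apply hsemi
    apply hcont
    rw [Metric.mem_ball] at hy
    linarith
  have hnd : ∀ y ∈ X, sigNeg (hess g y) + sigPos (hess g y) = Fintype.card ι := by
    intro y hy
    rw [hhess y (hXρ y hy)]
    obtain ⟨h1, h2⟩ := (hX y).1 hy
    have h3 := QG.LocN_sig A hA y (ha2 y h1 h2)
    rw [Module.finrank_fintype_fun_eq_card] at h3
    omega
  refine ⟨g, X, ⟨hg, ?_, ?_, ?_, hnd, ?_, ?_⟩, hXm⟩
  · intro y hy
    have h1 : χ y = 0 := by
      apply χ.zero_of_le_dist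
      rw [Metric.mem_closedBall, not_le] at hy
      change r / 4 ≤ dist y z
      linarith
    simp only [g]
    rw [h1, zero_mul, sub_zero]
  · intro y hy
    constructor
    · intro h0
      have h1 : y ∈ Metric.ball z ρ := by
        by_contra h
        rw [Metric.mem_ball, not_lt] at h
        exact hout y hy h h0
      rw [hin y h1, sub_eq_zero] at h0
      exact (hX y).2 ⟨Metric.ball_subset_ball hρ3 h1, h0⟩
    · intro h1
      rw [hin y (hXρ y h1), ((hX y).1 h1).2, sub_self]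
  · intro y hy
    have h1 := hXρ y hy
    rw [Metric.mem_ball] at h1 ⊢
    linarith
  · intro y hy
    exact (hlo y (hXρ y hy)).1
  · intro y hy
    have h1 := hnd y hy
    have h2 := (hlo y (hXρ y hy)).2
    omega

theorem LocNum_comp {E F : Type*} [NormedAddCommGroup E] [NormedSpace ℝ E]
    [FiniteDimensional ℝ E] [NormedAddCommGroup F] [NormedSpace ℝ F] [FiniteDimensional ℝ F]
    (A : E → ℝ) (hA : ContDiff ℝ 2 A) (z : E) (m : ℕ) (h : LocNum A z m)
    (e : F ≃L[ℝ] E) (c : ℝ) (hc : 0 < c) :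
    LocNum (fun y => c * A (e y)) (e.symm z) m := by
  classical
  obtain ⟨r, hr, hcrit, hX⟩ := h
  have hc0 : c ≠ 0 := hc.ne'
  -- the radius in F
  have hce : ContinuousAt (e : F → E) (e.symm z) := e.continuous.continuousAt
  obtain ⟨r1, hr1, hr1'⟩ := Metric.continuousAt_iff.1 hce r hr
  have hez : (e : F → E) (e.symm z) = z := e.apply_symm_apply z
  have hball : ∀ y ∈ Metric.closedBall (e.symm z) (r1 / 2), e y ∈ Metric.ball z r := by
    intro y hy
    have h1 : dist y (e.symm z) < r1 := by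
      have := Metric.mem_closedBall.1 hy
      linarith
    have h2 := hr1' h1
    rw [hez] at h2
    exact h2
  -- a lower bound for the derivative away from z
  have hGc : Continuous (fderiv ℝ A) := (QG.LocN_c1 A hA).continuous
  have hm : ∃ μ > 0, ∀ x ∈ Metric.closedBall z r, ‖fderiv ℝ A x‖ < μ →
      e.symm x ∈ Metric.ball (e.symm z) (r1 / 2) := by
    have hK : IsCompact (Metric.closedBall z r \ (e.symm ⁻¹' Metric.ball (e.symm z) (r1 / 2))) :=
      (isCompact_closedBall z r).diff (Metric.isOpen_ball.preimage e.symm.continuous)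
    rcases Set.eq_empty_or_nonempty
      (Metric.closedBall z r \ (e.symm ⁻¹' Metric.ball (e.symm z) (r1 / 2))) with hem | hne
    · refine ⟨1, one_pos, fun x hx _ => ?_⟩
      by_contra hcon
      have : x ∈ Metric.closedBall z r \ (e.symm ⁻¹' Metric.ball (e.symm z) (r1 / 2)) := ⟨hx, hcon⟩
      rw [hem] at this
      exact this
    · obtain ⟨x0, hx0, hmin⟩ := hK.exists_isMinOn hne (f := fun x => ‖fderiv ℝ A x‖)
        hGc.norm.continuousOn
      have hpos : 0 < ‖fderiv ℝ A x0‖ := by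
        rw [norm_pos_iff]
        intro h0
        have h1 := hcrit x0 hx0.1 h0
        apply hx0.2
        rw [h1]
        exact Metric.mem_ball_self (half_pos hr1)
      refine ⟨‖fderiv ℝ A x0‖, hpos, fun x hx hlt => ?_⟩
      by_contra hcon
      exact absurd hlt (not_lt.2 (hmin ⟨hx, hcon⟩))
  obtain ⟨μ, hm0, hm1⟩ := hm
  refine ⟨r1 / 2, half_pos hr1, ?_, ?_⟩
  · intro y hy hy0
    rw [QG.LocN_fderiv A hA e c] at hy0
    have h1 : fderiv ℝ A (e y) = 0 := by
      ext w
      have h2 := DFunLike.congr_fun hy0 (e.symm w)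
      simp only [smul_apply, ContinuousLinearMap.comp_apply,
        ContinuousLinearEquiv.coe_coe, ContinuousLinearEquiv.apply_symm_apply, smul_eq_mul,
        zero_apply, mul_eq_zero] at h2
      rcases h2 with h2 | h2
      · exact absurd h2 hc0
      · simpa using h2
    have h2 := hcrit (e y) (Metric.ball_subset_closedBall (hball y hy)) h1
    rw [← h2, e.symm_apply_apply]
  · intro δ hδ
    have hk : 0 < ‖(e : F →L[ℝ] E)‖ + 1 := by positivity
    obtain ⟨a, ha1, ha2, X, hX1, hX2⟩ := hX (min μ (δ / (c * (‖(e : F →L[ℝ] E)‖ + 1))))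
      (lt_min hm0 (by positivity))
    have hiff : ∀ y : F, fderiv ℝ (fun y => c * A (e y)) y = c • a.comp (e : F →L[ℝ] E) ↔
        fderiv ℝ A (e y) = a := by
      intro y
      rw [QG.LocN_fderiv A hA e c]
      constructor
      · intro h1
        ext w
        have h2 := DFunLike.congr_fun h1 (e.symm w)
        simp only [smul_apply, ContinuousLinearMap.comp_apply,
          ContinuousLinearEquiv.coe_coe, ContinuousLinearEquiv.apply_symm_apply,
          smul_eq_mul] at h2
        exact mul_left_cancel₀ hc0 h2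
      · intro h1
        show c • (fderiv ℝ A (e y)).comp (e : F →L[ℝ] E) = c • a.comp (e : F →L[ℝ] E)
        rw [h1]
    have hin : ∀ x ∈ Metric.ball z r, fderiv ℝ A x = a →
        e.symm x ∈ Metric.ball (e.symm z) (r1 / 2) := by
      intro x hx hxa
      apply hm1 x (Metric.ball_subset_closedBall hx)
      rw [hxa]
      exact lt_of_lt_of_le ha1 (min_le_left _ _)
    refine ⟨c • a.comp (e : F →L[ℝ] E), ?_, ?_, X.image e.symm, ?_, Finset.card_image_le.trans hX2⟩
    · rw [norm_smul, Real.norm_eq_abs, abs_of_pos hc]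
      have h1 : ‖a.comp (e : F →L[ℝ] E)‖ ≤ ‖a‖ * ‖(e : F →L[ℝ] E)‖ :=
        ContinuousLinearMap.opNorm_comp_le _ _
      have h2 : ‖a‖ * ‖(e : F →L[ℝ] E)‖ ≤ ‖a‖ * (‖(e : F →L[ℝ] E)‖ + 1) := by
        apply mul_le_mul_of_nonneg_left _ (norm_nonneg _)
        linarith
      have h3 : ‖a‖ < δ / (c * (‖(e : F →L[ℝ] E)‖ + 1)) := lt_of_lt_of_le ha1 (min_le_right _ _)
      rw [lt_div_iff₀ (by positivity)] at h3
      calc c * ‖a.comp (e : F →L[ℝ] E)‖ ≤ c * (‖a‖ * (‖(e : F →L[ℝ] E)‖ + 1)) :=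
            mul_le_mul_of_nonneg_left (h1.trans h2) hc.le
        _ = ‖a‖ * (c * (‖(e : F →L[ℝ] E)‖ + 1)) := by ring
        _ < δ := h3
    · intro y hy hya v hv
      have h1 := ha2 (e y) (hball y (Metric.ball_subset_closedBall hy)) ((hiff y).1 hya) (e v) (by
        ext w
        have h2 := DFunLike.congr_fun hv (e.symm w)
        rw [QG.LocN_fderiv2 A hA e c, e.apply_symm_apply] at h2
        simp only [zero_apply, mul_eq_zero] at h2
        rcases h2 with h2 | h2
        · exact absurd h2 hc0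
        · simpa using h2)
      exact (map_eq_zero_iff e e.injective).1 h1
    · intro y
      rw [Finset.mem_image]
      constructor
      · rintro ⟨x, hx, rfl⟩
        obtain ⟨hx1, hx2⟩ := (hX1 x).1 hx
        refine ⟨hin x hx1 hx2, ?_⟩
        rw [hiff, e.apply_symm_apply]
        exact hx2
      · rintro ⟨hy1, hy2⟩
        refine ⟨e y, (hX1 _).2 ⟨hball y (Metric.ball_subset_closedBall hy1), (hiff y).1 hy2⟩, ?_⟩
        rw [e.symm_apply_apply]

theorem LocNum_nondeg {E : Type*} [NormedAddCommGroup E] [NormedSpace ℝ E]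
    [FiniteDimensional ℝ E] (A : E → ℝ) (hA : ContDiff ℝ 2 A) (z : E) (hz : fderiv ℝ A z = 0)
    (hnd : ∀ v, fderiv ℝ (fderiv ℝ A) z v = 0 → v = 0) : LocNum A z 1 := by
  classical
  have hG := QG.LocN_c1 A hA
  -- the derivative as an equivalence
  have hinj : Function.Injective (fderiv ℝ (fderiv ℝ A) z : E →ₗ[ℝ] (E →L[ℝ] ℝ)) := by
    rw [← LinearMap.ker_eq_bot, LinearMap.ker_eq_bot']
    intro v hv
    exact hnd v hv
  let L₀ : E ≃ₗ[ℝ] (E →L[ℝ] ℝ) := LinearEquiv.ofInjectiveOfFinrankEq _ hinj QG.LocN_finrank.symm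
  let L : E ≃L[ℝ] (E →L[ℝ] ℝ) := L₀.toContinuousLinearEquiv
  have hL : (L : E →L[ℝ] (E →L[ℝ] ℝ)) = fderiv ℝ (fderiv ℝ A) z := by
    ext v w
    rfl
  have hs : HasStrictFDerivAt (fderiv ℝ A) (L : E →L[ℝ] (E →L[ℝ] ℝ)) z := by
    rw [hL]
    exact hG.contDiffAt.hasStrictFDerivAt one_ne_zero
  let e := hs.toOpenPartialHomeomorph (fderiv ℝ A)
  have he : (e : E → (E →L[ℝ] ℝ)) = fderiv ℝ A := hs.toOpenPartialHomeomorph_coe
  have hze : z ∈ e.source := hs.mem_toOpenPartialHomeomorph_source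
  obtain ⟨r2, hr2, hr2'⟩ := Metric.isOpen_iff.1 e.open_source z hze
  have hsrc : Metric.closedBall z (r2 / 2) ⊆ e.source :=
    (Metric.closedBall_subset_ball (by linarith)).trans hr2'
  have huniq : ∀ x ∈ Metric.closedBall z (r2 / 2), ∀ y ∈ Metric.closedBall z (r2 / 2),
      fderiv ℝ A x = fderiv ℝ A y → x = y := by
    intro x hx y hy hxy
    apply e.injOn (hsrc hx) (hsrc hy)
    rw [he, hxy]
  refine ⟨r2 / 2, half_pos hr2, ?_, ?_⟩
  · intro y hy hy0
    exact huniq y hy z (Metric.mem_closedBall_self (half_pos hr2).le) (by rw [hy0, hz])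
  · intro δ hδ
    obtain ⟨a, ha1, ha2⟩ := QG.exists_regular_dual A hA δ hδ
    refine ⟨a, ha1, fun y _ hya => ha2 y hya, ?_⟩
    by_cases hex : ∃ y ∈ Metric.ball z (r2 / 2), fderiv ℝ A y = a
    · obtain ⟨y0, hy0, hya⟩ := hex
      refine ⟨{y0}, ?_, by simp⟩
      intro y
      rw [Finset.mem_singleton]
      constructor
      · rintro rfl
        exact ⟨hy0, hya⟩
      · rintro ⟨hy, hy'⟩
        exact huniq y (Metric.ball_subset_closedBall hy) y0 (Metric.ball_subset_closedBall hy0)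
          (by rw [hy', hya])
    · refine ⟨∅, ?_, by simp⟩
      intro y
      constructor
      · intro h
        simp at h
      · rintro ⟨hy, hy'⟩
        exact absurd ⟨y, hy, hy'⟩ hex

end Pool.Agent.H47.ST
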