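import Pool.Agent.H47.ST.EqM
import Pool.Agent.H47.ST.ActZ
import Pool.Agent.H47.ST.LocM
import Pool.Agent.H47.QG.Main4

/-!
# Counting the values of the index on primitive orbits of prime period
-/

set_option autoImplicit false

open Module QuadraticForm Filter
open Pool.Agent.H47.QG (Pt action flw oseq Gen ind hess Zn)

namespace Pool.Agent.H47.ST

variable {n : ℕ}

theorem GrowA_oseq0 (f : ℕ → Pt n → Pt n) (K : ℕ) [NeZero K] (w : Pt n) : oseq f K w 0 = w := by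
  have h0 : ((0 : Fin K) : ℕ) = 0 := Fin.val_zero _
  change flw f ((0 : Fin K) : ℕ) w = w
  rw [h0]; rfl

theorem GrowA_eK_zw (f : ℕ → Pt n → Pt n) (K : ℕ) (w : Pt n) :
    eK n K (zw f K w) = oseq f K w := ContinuousLinearEquiv.apply_symm_apply _ _

theorem GrowA_eK_zw0 (f : ℕ → Pt n → Pt n) (K : ℕ) [NeZero K] (w : Pt n) :
    eK n K (zw f K w) 0 = w := by
  rw [GrowA_eK_zw, GrowA_oseq0]

theorem GrowA_zw_inj (f : ℕ → Pt n → Pt n) (K : ℕ) [NeZero K] :
    Function.Injective (zw (n := n) f K) := fun w w' h => by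
  rw [← GrowA_eK_zw0 f K w, h, GrowA_eK_zw0]

theorem GrowA_zw_of (f : ℕ → Pt n → Pt n) (K : ℕ) (t : Iz n K → ℝ) (w : Pt n)
    (h : eK n K t = oseq f K w) : t = zw f K w := by
  unfold zw
  rw [← h, ContinuousLinearEquiv.symm_apply_apply]

/-- the critical points of the action -/
theorem GrowA_crit {S : ℕ → Pt n → ℝ} {f : ℕ → Pt n → Pt n} (hS : ∀ j, Gen (S j) (f j)) (K : ℕ)
    [NeZero K] (W : Finset (Pt n)) (hW : ∀ w, flw f K w = w ↔ ∃ w' ∈ W, w - w' ∈ Zn n)
    (Z : Finset (Iz n K → ℝ)) (hZ : ∀ z, z ∈ Z ↔ ∃ w ∈ W, zw f K w = z) (y : Iz n K → ℝ) :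
    fderiv ℝ (fS S K) y = 0 ↔ ∃ z ∈ Z, ∃ l ∈ Lc n K, y = z + rl l := by
  rw [fS_crit hS]
  constructor
  · rintro ⟨h1, h2⟩
    obtain ⟨w', hw', he⟩ := (hW _).1 h1
    obtain ⟨l, hl, h3⟩ := (zw_add hS K _ w').2 he
    exact ⟨zw f K w', (hZ _).2 ⟨w', hw', rfl⟩, l, hl, by
      rw [← h3]; exact GrowA_zw_of _ _ _ _ h2⟩
  · rintro ⟨z, hz, l, hl, he⟩
    obtain ⟨w', hw', rfl⟩ := (hZ z).1 hz
    obtain ⟨e, he', hj⟩ := (lat_iff K y (zw f K w')).1 ⟨l, hl, he⟩
    have h0 : eK n K y 0 = w' + e := by rw [hj 0, GrowA_eK_zw0]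
    rw [h0]
    refine ⟨(hW _).2 ⟨w', hw', by rw [add_sub_cancel_left]; exact he'⟩, ?_⟩
    ext1 j
    rw [hj j, GrowA_eK_zw]
    exact (Pool.Agent.H47.QG.flw_add_int hS _ w' e he').symm

/-- an invariant critical point is a fixed orbit -/
theorem GrowA_fold {S : ℕ → Pt n → ℝ} {f : ℕ → Pt n → Pt n} (hS : ∀ j, Gen (S j) (f j))
    {N p : ℕ} [NeZero N] [NeZero (p * N)] (hp : 2 ≤ p) (hfper : ∀ j, f (j + N) = f j)
    (y : Iz n N → ℝ) (hy : fderiv ℝ (fS S (p * N)) (y ∘ shs n p N) = 0) :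
    ∃ w, flw f N w = w ∧ flw f (p * N) w = w ∧ y = zw f N w ∧
      y ∘ shs n p N = zw f (p * N) w := by
  obtain ⟨h1, h2⟩ := (fS_crit hS (p * N) _).1 hy
  set w := eK n (p * N) (y ∘ shs n p N) 0 with hw
  have hN : 0 < N := Nat.pos_of_ne_zero (NeZero.ne N)
  have hlt : N < p * N := by nlinarith
  have hfix : flw f N w = w := by
    have h3 := congrFun h2 ⟨N, hlt⟩
    have h4 : oseq f (p * N) w ⟨N, hlt⟩ = flw f N w := rfl
    rw [h4] at h3
    rw [← h3, hw, eK_fold, eK_apply, eK_apply]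
    have h5 : (Fin.ofNat N N : Fin N) = 0 := by
      apply Fin.ext
      simp [Fin.ofNat]
    have h6 : ∀ b, (y ∘ shs n p N) (⟨N, hlt⟩, b) = y (0, b) := by
      intro b
      change y (Fin.ofNat N N, b) = y (0, b)
      rw [h5]
    simp only [h6]
  have h7 : y ∘ shs n p N = zw f (p * N) w := GrowA_zw_of _ _ _ _ h2
  refine ⟨w, hfix, h1, ?_, h7⟩
  have h8 := zw_fold p N hfper w hfix
  rw [h8] at h7
  exact (shs_surj (n := n) (p := p) (N := N) (by omega)).injective_comp_right h7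

/-- **Values of the index on primitive orbits of prime period.** -/
theorem values_ST {S : ℕ → Pt n → ℝ} {f : ℕ → Pt n → Pt n} (hS : ∀ j, Gen (S j) (f j))
    (hn : 0 < n) {N : ℕ} [NeZero N] (hper : ∀ j, S (j + N) = S j)
    (hfper : ∀ j, f (j + N) = f j) (Lf : Pt n → ℝ)
    (hL : ∀ w, flw f N w = w → ∀ p : ℕ, 0 < p → |(ind S f (p * N) w : ℝ) - p * Lf w| ≤ 2 * n)
    (Fx : Finset (Pt n)) (hFx : ∀ w ∈ Fx, flw f N w = w) (m : Pt n → ℕ)
    (hm : ∀ w ∈ Fx, Lf w = n * N → LocNum (action S N) (oseq f N w) (m w))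
    (hsum : ∑ w ∈ Fx.filter (fun w => Lf w = n * N), m w < 2 ^ (2 * n)) :
    ∃ c > 0, ∃ D : ℝ, ∀ p : ℕ, p.Prime → D ≤ c * p → ∀ W : Finset (Pt n),
      (∀ w, flw f (p * N) w = w ↔ ∃ w' ∈ W, w - w' ∈ Zn n) →
      (∀ w ∈ W, ∀ w' ∈ W, w - w' ∈ Zn n → w = w') →
      (∀ w, w ∈ Fx ↔ w ∈ W ∧ flw f N w = w) →
      ∃ A : Finset ℕ, c * p - D ≤ A.card ∧
        ∀ a ∈ A, ∃ w, flw f (p * N) w = w ∧ flw f N w ≠ w ∧ ind S f (p * N) w = a := by
  classical
  have hN : 0 < N := Nat.pos_of_ne_zero (NeZero.ne N)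
  set L₀ : ℝ := n * N with hL₀
  have hL0 : 0 < L₀ := by
    have h1 : (0 : ℝ) < n := by exact_mod_cast hn
    have h2 : (0 : ℝ) < N := by exact_mod_cast hN
    positivity
  -- choice of epsilon
  have hev : ∀ x : ℝ, ∀ᶠ e in nhdsWithin (0 : ℝ) (Set.Ioi 0), x = L₀ ∨ 8 * e ≤ |x - L₀| := by
    intro x
    by_cases h : x = L₀
    · exact Eventually.of_forall fun _ => Or.inl h
    · have h1 : 0 < |x - L₀| / 8 := by
        have := abs_pos.2 (sub_ne_zero.2 h)
        linarith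
      filter_upwards [Ioo_mem_nhdsGT h1] with e he
      right
      have := he.2
      linarith
  have hev2 : ∀ᶠ e in nhdsWithin (0 : ℝ) (Set.Ioi 0), (∀ w ∈ Fx, Lf w = L₀ ∨ 8 * e ≤ |Lf w - L₀|) ∧
      ((0 : ℝ) = L₀ ∨ 8 * e ≤ |(0 : ℝ) - L₀|) ∧ 0 < e := by
    refine Eventually.and ?_ (Eventually.and (hev _) ?_)
    · rw [Filter.eventually_all_finset]
      intro w _
      exact hev _
    · exact self_mem_nhdsWithin
  obtain ⟨e, he1, he3, he0⟩ := hev2.exists
  have he3' : 8 * e ≤ L₀ := by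
    rcases he3 with h | h
    · exact absurd h hL0.ne
    · rw [zero_sub, abs_neg, abs_of_pos hL0] at h
      exact h
  obtain ⟨P₁, hP₁⟩ := exists_nat_gt ((10 * n + 10 : ℝ) / e)
  set P₂ : ℕ := P₁ + 2 * 2 ^ (2 * n) + 3 with hP₂
  have hm0 : (0 : ℝ) < 2 * n + 1 := by positivity
  set c : ℝ := e / (2 * n + 1) with hc
  have hcpos : 0 < c := div_pos he0 hm0
  refine ⟨c, hcpos, 1 + c * P₂, fun p hp hD W hW hWd hFW => ?_⟩
  have hpP : (P₂ : ℝ) < p := by
    by_contra h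
    push Not at h
    have : c * p ≤ c * P₂ := by gcongr
    linarith
  have hpP' : P₂ < p := by exact_mod_cast hpP
  have hp0 : 0 < p := hp.pos
  have hpr : (0 : ℝ) < p := by exact_mod_cast hp0
  have hne : NeZero (p * N) := ⟨Nat.mul_ne_zero hp0.ne' hN.ne'⟩
  have hpe : (10 * n + 10 : ℝ) < p * e := by
    have h1 : ((P₁ : ℕ) : ℝ) < p := by
      have : P₁ < p := by omega
      exact_mod_cast this
    rw [div_lt_iff₀ he0] at hP₁
    nlinarith
  have hnr : (0 : ℝ) ≤ n := Nat.cast_nonneg n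
  refine ⟨(W.filter (fun w => flw f N w ≠ w)).image (ind S f (p * N)), ?_, ?_⟩
  swap
  · intro a ha
    obtain ⟨w, hw, rfl⟩ := Finset.mem_image.1 ha
    rw [Finset.mem_filter] at hw
    exact ⟨w, (hW w).2 ⟨w, hw.1, by rw [sub_self]; exact (Zn n).zero_mem⟩, hw.2, rfl⟩
  set A := (W.filter (fun w => flw f N w ≠ w)).image (ind S f (p * N)) with hA
  -- it is enough that a long interval is blocked
  have hfin : ∀ J : Finset ℕ, p * e - 1 ≤ J.card → (∀ a ∈ J, ∃ v ∈ A, v ≤ a ∧ a ≤ v + 2 * n) →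
      c * p - (1 + c * P₂) ≤ A.card := by
    intro J hJ hb
    have h1 := Pool.Agent.H47.QG.card_blocked J A (2 * n) hb
    have h2 : (J.card : ℝ) ≤ (2 * n + 1) * A.card := by exact_mod_cast h1
    have h3 : c * p * (2 * n + 1) = p * e := by
      rw [hc]; field_simp
    have h4 : 0 ≤ c * P₂ := by positivity
    have h5 : (c * p - 1) * (2 * n + 1) ≤ A.card * (2 * n + 1) := by
      have : (c * p - 1) * (2 * n + 1) = p * e - (2 * n + 1) := by rw [sub_mul, h3, one_mul]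
      rw [this]
      nlinarith
    have h6 := le_of_mul_le_mul_right h5 hm0
    linarith
  obtain ⟨J₂, hJ₂, hJ₂'⟩ := Pool.Agent.H47.QG.exists_nats (p * (L₀ + e)) (p * (L₀ + 2 * e))
    (by positivity)
  by_cases hb2 : ∀ a ∈ J₂, ∃ v ∈ A, v ≤ a ∧ a ≤ v + 2 * n
  · exact hfin J₂ (by nlinarith) hb2
  push Not at hb2
  obtain ⟨g₂, hg₂, hg₂'⟩ := hb2
  have hg₂J := hJ₂' g₂ hg₂
  obtain ⟨J₁, hJ₁, hJ₁'⟩ := Pool.Agent.H47.QG.exists_nats (p * (L₀ - 2 * e)) (p * (L₀ - e))
    (by have : 0 ≤ L₀ - 2 * e := by linarith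
        positivity)
  by_cases hb1 : ∀ a ∈ J₁, ∃ v ∈ A, v ≤ a ∧ a ≤ v + 2 * n
  · exact hfin J₁ (by nlinarith) hb1
  push Not at hb1
  obtain ⟨g₁, hg₁, hg₁'⟩ := hb1
  have hg₁J := hJ₁' g₁ hg₁
  exfalso
  -- positions of the fixed windows
  have hfixpos : ∀ w ∈ W, flw f N w = w → (Lf w = L₀ ∧ |(ind S f (p * N) w : ℝ) - p * L₀| ≤ 2 * n) ∨
      (Lf w ≠ L₀ ∧ 8 * (p * e) - 2 * n ≤ |(ind S f (p * N) w : ℝ) - p * L₀|) := by
    intro w hw hfw
    have hwF : w ∈ Fx := (hFW w).2 ⟨hw, hfw⟩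
    have h1 := hL w hfw p hp0
    by_cases h : Lf w = L₀
    · left; exact ⟨h, by rw [← h]; exact h1⟩
    · right
      refine ⟨h, ?_⟩
      have h2 : 8 * e ≤ |Lf w - L₀| := (he1 w hwF).resolve_left h
      have h3 : |(p : ℝ) * Lf w - p * L₀| = p * |Lf w - L₀| := by
        rw [← mul_sub, abs_mul, abs_of_pos hpr]
      have h4 : |(p : ℝ) * Lf w - p * L₀| ≤ |(ind S f (p * N) w : ℝ) - p * Lf w| +
          |(ind S f (p * N) w : ℝ) - p * L₀| := by
        have := abs_sub_le ((p : ℝ) * Lf w) (ind S f (p * N) w) (p * L₀)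
        rw [abs_sub_comm ((p : ℝ) * Lf w) (ind S f (p * N) w)] at this
        exact this
      nlinarith
  -- the two levels
  have hgd : ∀ g : ℕ, g = g₁ ∨ g = g₂ →
      p * e ≤ |(g : ℝ) - p * L₀| ∧ |(g : ℝ) - p * L₀| ≤ 2 * (p * e) := by
    intro g hg
    rcases hg with rfl | rfl
    · rw [abs_of_nonpos (by nlinarith [hg₁J.2])]
      constructor <;> nlinarith [hg₁J.1, hg₁J.2]
    · rw [abs_of_nonneg (by nlinarith [hg₂J.1])]
      constructor <;> nlinarith [hg₂J.1, hg₂J.2]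
  have hK1 : 1 ≤ p * N := Nat.one_le_iff_ne_zero.2 hne.ne
  have hb : ((n * (p * N - 1) : ℕ) : ℝ) = p * L₀ - n := by
    rw [hL₀, Nat.cast_mul, Nat.cast_sub hK1]
    push_cast
    ring
  obtain ⟨C, hC⟩ := fS_grad hS (p * N)
  have hZ : ∀ z, z ∈ W.image (zw f (p * N)) ↔ ∃ w ∈ W, zw f (p * N) w = z := fun z =>
    Finset.mem_image
  -- restriction of the action
  have hfold : (fun y : Iz n N → ℝ => fS S (p * N) (y ∘ shs n p N)) =
      fun y => (p : ℝ) * action S N (eK n N y) := by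
    ext y
    rw [fS_fold p N hper]
    rfl
  have key := eq_main (n := n) (p := p) (N := N) hp (by omega) (fS S (p * N))
    (fS_smooth hS _) (fS_per hS _) (fS_shift p N hper) C hC (W.image (zw f (p * N)))
    (GrowA_crit hS (p * N) W hW _ hZ)
    (by
      intro z hz z' hz' l hl he
      obtain ⟨w, hw, rfl⟩ := Finset.mem_image.1 hz
      obtain ⟨w', hw', rfl⟩ := Finset.mem_image.1 hz'
      rw [hWd w' hw' w hw ((zw_add hS _ w' w).1 ⟨l, hl, he⟩)])
    (g₁ := g₁) (g₂ := g₂)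
    (by
      have : (g₁ : ℝ) < ((n * (p * N - 1) : ℕ) : ℝ) := by
        rw [hb]
        nlinarith [hg₁J.2]
      exact_mod_cast this)
    (by
      have : ((n * (p * N - 1) + 2 * n : ℕ) : ℝ) < g₂ := by
        rw [Nat.cast_add, hb]
        push_cast
        nlinarith [hg₂J.1]
      exact_mod_cast this)
    (by
      intro z hz g hg
      obtain ⟨w, hw, rfl⟩ := Finset.mem_image.1 hz
      rintro ⟨h1, h2⟩
      rw [fS_sigNeg hS] at h1
      have h3 := fS_null hS (p * N) w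
      have h2 : g ≤ ind S f (p * N) w + 2 * n := by omega
      have h1' : (ind S f (p * N) w : ℝ) ≤ g := by exact_mod_cast h1
      have h2' : (g : ℝ) ≤ ind S f (p * N) w + 2 * n := by exact_mod_cast h2
      obtain ⟨hd1, hd2⟩ := hgd g hg
      by_cases hfw : flw f N w = w
      · have h5 : |(g : ℝ) - ind S f (p * N) w| ≤ 2 * n := by
          rw [abs_le]; constructor <;> linarith
        rcases hfixpos w hw hfw with ⟨_, h3⟩ | ⟨_, h3⟩
        · have h4 : |(g : ℝ) - p * L₀| ≤ |(g : ℝ) - ind S f (p * N) w| +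
            |(ind S f (p * N) w : ℝ) - p * L₀| := abs_sub_le _ _ _
          linarith
        · have h4 : |(ind S f (p * N) w : ℝ) - p * L₀| ≤ |(g : ℝ) - ind S f (p * N) w| +
              |(g : ℝ) - p * L₀| := by
            have := abs_sub_le (ind S f (p * N) w : ℝ) g (p * L₀)
            rw [abs_sub_comm (ind S f (p * N) w : ℝ) (g : ℝ)] at this
            exact this
          linarith
      · have hv : ind S f (p * N) w ∈ A :=
          Finset.mem_image_of_mem _ (Finset.mem_filter.2 ⟨hw, hfw⟩)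
        rcases hg with rfl | rfl
        · have := hg₁' _ hv h1
          omega
        · have := hg₂' _ hv h1
          omega)
    ((Fx.filter (fun w => Lf w = L₀)).image (zw f N)) (fun t => m (eK n N t 0))
    (by
      intro y hy h1 h2
      obtain ⟨w, hfw, hpw, hyw, hyw'⟩ := GrowA_fold hS hp.two_le hfper y hy
      obtain ⟨w', hw', hww⟩ := (hW w).1 hpw
      have hfw' : flw f N w' = w' := by
        have h3 := Pool.Agent.H47.QG.flw_add_int hS N w (w' - w)
          (by rw [← neg_sub]; exact (Zn n).neg_mem hww)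
        rw [add_sub_cancel, hfw, add_sub_cancel] at h3
        exact h3
      obtain ⟨l, hl, hl'⟩ := (zw_add hS (p * N) w w').2 hww
      have hidx : sigNeg (hess (fS S (p * N)) (y ∘ shs n p N)) = ind S f (p * N) w' := by
        rw [hyw', hl', (sig_per _ (fS_per hS (p * N)) _ hl).1, fS_sigNeg hS]
      rw [hidx] at h1 h2
      have hcl : Lf w' = L₀ := by
        rcases hfixpos w' hw' hfw' with ⟨h3, _⟩ | ⟨_, h3⟩
        · exact h3
        · exfalso
          have h1' : (g₁ : ℝ) < ind S f (p * N) w' := by exact_mod_cast h1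
          have h2' : (ind S f (p * N) w' : ℝ) < g₂ := by exact_mod_cast h2
          have h4 : |(ind S f (p * N) w' : ℝ) - p * L₀| ≤ 2 * (p * e) := by
            rw [abs_le]
            constructor
            · nlinarith [hg₁J.1]
            · nlinarith [hg₂J.2]
          linarith
      obtain ⟨l', hl1, hl2⟩ := (zw_add hS N w w').2 hww
      refine ⟨zw f N w', Finset.mem_image_of_mem _ (Finset.mem_filter.2
        ⟨(hFW w').2 ⟨hw', hfw'⟩, hcl⟩), l', hl1, ?_⟩
      rw [hyw]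
      exact hl2)
    (by
      intro t ht
      obtain ⟨w, hw, rfl⟩ := Finset.mem_image.1 ht
      have hfw := hFx w (Finset.mem_filter.1 hw).1
      rw [← zw_fold p N hfper w hfw, fS_crit hS, GrowA_eK_zw0, GrowA_eK_zw]
      refine ⟨?_, rfl⟩
      exact (hW w).2 ⟨w, ((hFW w).1 (Finset.mem_filter.1 hw).1).1,
        by rw [sub_self]; exact (Zn n).zero_mem⟩)
    (by
      intro z hz z' hz' l hl he
      obtain ⟨w, hw, rfl⟩ := Finset.mem_image.1 hz
      obtain ⟨w', hw', rfl⟩ := Finset.mem_image.1 hz'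
      rw [hWd w' ((hFW w').1 (Finset.mem_filter.1 hw').1).1 w
        ((hFW w).1 (Finset.mem_filter.1 hw).1).1 ((zw_add hS _ w' w).1 ⟨l, hl, he⟩)])
    (by
      intro t ht r hr hiso
      obtain ⟨w, hw, rfl⟩ := Finset.mem_image.1 ht
      rw [Finset.mem_filter] at hw
      have h1 : LocNum (fun y : Iz n N → ℝ => (p : ℝ) * action S N (eK n N y)) (zw f N w) (m w) :=
        LocNum_comp _ (Pool.Agent.H47.QG.action_smooth S (fun j => (hS j).smooth) N) _ _
          (hm w hw.1 hw.2) (eK n N) (p : ℝ) hpr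
      rw [hfold] at hiso ⊢
      rw [GrowA_eK_zw0]
      refine LocNum_LD _ ?_ _ _ h1 r hr hiso
      exact contDiff_const.mul (fS_smooth hS N))
  rw [Finset.sum_image (fun a _ b _ h => GrowA_zw_inj f N h)] at key
  simp only [GrowA_eK_zw0] at key
  exact absurd hsum (not_lt.2 key)

end Pool.Agent.H47.ST
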