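import Pool.Agent.H47.ST.RS

/-! Project ST: the minimal subspace and its typical characters. -/

namespace Pool.Agent.H47.ST

open Finset Pool.Agent.H46.SR
open scoped Classical

section basic
variable {G ι : Type*} [AddCommGroup G] [Module (ZMod 2) G]

/-- restriction of functionals -/
noncomputable def rs {W' W : Submodule (ZMod 2) G} (h : W' ≤ W) (ψ : Module.Dual (ZMod 2) W) :
    Module.Dual (ZMod 2) W' := ψ.comp (Submodule.inclusion h)

theorem rs_res (e : ι → Module.Dual (ZMod 2) G) {W' W : Submodule (ZMod 2) G} (h : W' ≤ W)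
    (i : ι) : rs h (res e W i) = res e W' i := by
  ext x
  rfl

theorem rs_zero {W' W : Submodule (ZMod 2) G} (h : W' ≤ W) : rs h 0 = 0 := by
  ext x
  rfl

theorem rs_add {W' W : Submodule (ZMod 2) G} (h : W' ≤ W) (ψ φ : Module.Dual (ZMod 2) W) :
    rs h (ψ + φ) = rs h ψ + rs h φ := by
  ext x
  rfl

variable [Fintype ι]

theorem cc_rs (e : ι → Module.Dual (ZMod 2) G) {W' W : Submodule (ZMod 2) G} (h : W' ≤ W)
    (a : G) (ψ' : Module.Dual (ZMod 2) W') :
    cc e W' a ψ' = ∑ ψ ∈ (univ.image (res e W)).filter (fun ψ => rs h ψ = ψ'), cc e W a ψ := by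
  unfold cc
  rw [← Finset.sum_fiberwise_of_maps_to (s := univ.filter (fun i => res e W' i = ψ'))
    (t := (univ.image (res e W)).filter (fun ψ => rs h ψ = ψ')) (g := res e W)]
  · apply Finset.sum_congr rfl
    intro ψ hψ
    apply Finset.sum_congr _ (fun _ _ => rfl)
    ext i
    simp only [Finset.mem_filter, Finset.mem_univ, true_and]
    constructor
    · rintro ⟨_, h2⟩
      exact h2
    · intro h2
      refine ⟨?_, h2⟩
      rw [← rs_res e h, h2]
      exact (Finset.mem_filter.1 hψ).2
  · intro i hi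
    rw [Finset.mem_filter] at hi ⊢
    exact ⟨Finset.mem_image_of_mem _ (Finset.mem_univ i), by rw [rs_res, hi.2]⟩

theorem NN_sub (e : ι → Module.Dual (ZMod 2) G) {W' W : Submodule (ZMod 2) G} (h : W' ≤ W)
    (a : G) : NN e W' a ⊆ ((NN e W a).image (rs h)).erase 0 := by
  intro ψ' hψ'
  unfold NN at hψ'
  rw [Finset.mem_filter] at hψ'
  obtain ⟨_, h0, hc⟩ := hψ'
  rw [cc_rs e h] at hc
  obtain ⟨ψ, hψ, hne⟩ := Finset.exists_ne_zero_of_sum_ne_zero hc
  rw [Finset.mem_filter] at hψ
  rw [Finset.mem_erase]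
  refine ⟨h0, Finset.mem_image.2 ⟨ψ, ?_, hψ.2⟩⟩
  unfold NN
  rw [Finset.mem_filter]
  refine ⟨hψ.1, ?_, hne⟩
  rintro rfl
  exact h0 (by rw [← hψ.2, rs_zero])

theorem NN_card_le (e : ι → Module.Dual (ZMod 2) G) (W : Submodule (ZMod 2) G) (a : G) :
    (NN e W a).card ≤ Fintype.card ι := by
  unfold NN
  exact (Finset.card_filter_le _ _).trans Finset.card_image_le

theorem NN_card_mono (e : ι → Module.Dual (ZMod 2) G) {W' W : Submodule (ZMod 2) G}
    (h : W' ≤ W) (a : G) : (NN e W' a).card ≤ (NN e W a).card :=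
  (Finset.card_le_card (NN_sub e h a)).trans ((Finset.card_erase_le).trans Finset.card_image_le)

/-- number of elements not killed by `W` -/
noncomputable def UU (e : ι → Module.Dual (ZMod 2) G) (W : Submodule (ZMod 2) G) : ℕ :=
  (univ.filter (fun i => res e W i ≠ 0)).card

theorem UU_mono (e : ι → Module.Dual (ZMod 2) G) {W' W : Submodule (ZMod 2) G}
    (h : W' ≤ W) : UU e W' ≤ UU e W := by
  unfold UU
  apply Finset.card_le_card
  intro i hi
  rw [Finset.mem_filter] at hi ⊢
  refine ⟨hi.1, fun h0 => hi.2 ?_⟩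
  rw [← rs_res e h, h0, rs_zero]

/-- a class -/
noncomputable def cls (e : ι → Module.Dual (ZMod 2) G) (W : Submodule (ZMod 2) G)
    (ψ : Module.Dual (ZMod 2) W) : Finset ι := univ.filter (fun i => res e W i = ψ)

theorem mem_cls {e : ι → Module.Dual (ZMod 2) G} {W : Submodule (ZMod 2) G}
    {ψ : Module.Dual (ZMod 2) W} {i : ι} : i ∈ cls e W ψ ↔ res e W i = ψ := by
  unfold cls
  simp

theorem UU_class (e : ι → Module.Dual (ZMod 2) G) {W' W : Submodule (ZMod 2) G} (hle : W' ≤ W)
    {ψ : Module.Dual (ZMod 2) W} (hψ : ψ ≠ 0) (hψ' : rs hle ψ = 0) :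
    UU e W' + (cls e W ψ).card ≤ UU e W := by
  unfold UU
  rw [← Finset.card_union_of_disjoint]
  · apply Finset.card_le_card
    intro i hi
    rw [Finset.mem_union, mem_cls] at hi
    rw [Finset.mem_filter]
    refine ⟨Finset.mem_univ _, ?_⟩
    rcases hi with hi | hi
    · intro h0
      apply (Finset.mem_filter.1 hi).2
      rw [← rs_res e hle, h0, rs_zero]
    · rw [hi]
      exact hψ
  · rw [Finset.disjoint_left]
    intro i hi hi'
    apply (Finset.mem_filter.1 hi).2
    rw [← rs_res e hle, mem_cls.1 hi', hψ']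

theorem ker_finrank [FiniteDimensional (ZMod 2) G] {W : Submodule (ZMod 2) G}
    (ψ : Module.Dual (ZMod 2) W) : Module.finrank (ZMod 2) W ≤
      Module.finrank (ZMod 2) ((LinearMap.ker ψ).map W.subtype) + 1 := by
  have e1 : Module.finrank (ZMod 2) ((LinearMap.ker ψ).map W.subtype) =
      Module.finrank (ZMod 2) (LinearMap.ker ψ) :=
    Submodule.finrank_map_subtype_eq _ _
  have e2 := LinearMap.finrank_range_add_finrank_ker ψ
  have e3 : Module.finrank (ZMod 2) (LinearMap.range ψ) ≤ 1 := by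
    have := Submodule.finrank_le (LinearMap.range ψ)
    rwa [Module.finrank_self] at this
  omega

/-- the vectors of `W` killed by the `e i`, `i ∈ R` -/
noncomputable def WR (e : ι → Module.Dual (ZMod 2) G) (W : Submodule (ZMod 2) G)
    (R : Finset ι) : Submodule (ZMod 2) G :=
  (LinearMap.ker (LinearMap.pi (fun i : R => res e W i))).map W.subtype

theorem WR_le (e : ι → Module.Dual (ZMod 2) G) (W : Submodule (ZMod 2) G)
    (R : Finset ι) : WR e W R ≤ W := Submodule.map_subtype_le _ _

theorem mem_WR {e : ι → Module.Dual (ZMod 2) G} {W : Submodule (ZMod 2) G} {R : Finset ι}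
    {x : G} : x ∈ WR e W R ↔ x ∈ W ∧ ∀ i ∈ R, e i x = 0 := by
  unfold WR
  rw [Submodule.mem_map]
  constructor
  · rintro ⟨y, hy, rfl⟩
    refine ⟨y.2, ?_⟩
    intro i hi
    rw [LinearMap.mem_ker] at hy
    exact congrFun hy ⟨i, hi⟩
  · rintro ⟨h1, h2⟩
    refine ⟨⟨x, h1⟩, ?_, rfl⟩
    rw [LinearMap.mem_ker]
    funext i
    exact h2 i i.2

theorem WR_finrank [FiniteDimensional (ZMod 2) G] (e : ι → Module.Dual (ZMod 2) G)
    (W : Submodule (ZMod 2) G) (R : Finset ι) :
    Module.finrank (ZMod 2) W ≤ Module.finrank (ZMod 2) (WR e W R) + R.card := by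
  have e1 : Module.finrank (ZMod 2) (WR e W R) =
      Module.finrank (ZMod 2) (LinearMap.ker (LinearMap.pi (fun i : R => res e W i))) :=
    Submodule.finrank_map_subtype_eq _ _
  have e2 := LinearMap.finrank_range_add_finrank_ker (LinearMap.pi (fun i : R => res e W i))
  have e3 : Module.finrank (ZMod 2)
      (LinearMap.range (LinearMap.pi (fun i : R => res e W i))) ≤ R.card := by
    have := Submodule.finrank_le (LinearMap.range (LinearMap.pi (fun i : R => res e W i)))
    rwa [Module.finrank_fintype_fun_eq_card, Fintype.card_coe] at this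
  omega

/-- the nonzero restrictions of the characters in `NN e W a` to `WR e W R` -/
noncomputable def imm (e : ι → Module.Dual (ZMod 2) G) (W : Submodule (ZMod 2) G)
    (R : Finset ι) (a : G) : Finset (Module.Dual (ZMod 2) (WR e W R)) :=
  ((NN e W a).image (rs (WR_le e W R))).erase 0

theorem NN_imm (e : ι → Module.Dual (ZMod 2) G) (W : Submodule (ZMod 2) G)
    (R : Finset ι) (a : G) : (NN e (WR e W R) a).card ≤ (imm e W R a).card :=
  Finset.card_le_card (NN_sub e (WR_le e W R) a)

end basic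

section minimal
variable {G ι : Type*} [AddCommGroup G] [Module (ZMod 2) G] [Fintype G] [Fintype ι]

/-- the potential -/
noncomputable def Phi (e : ι → Module.Dual (ZMod 2) G) (K : ℝ) (W : Submodule (ZMod 2) G) : ℝ :=
  av (fun a : G => ((NN e W a).card : ℝ)) + UU e W +
    K * (Module.finrank (ZMod 2) G - Module.finrank (ZMod 2) W : ℝ)

theorem exists_min (e : ι → Module.Dual (ZMod 2) G) (K : ℝ) :
    ∃ W : Submodule (ZMod 2) G, ∀ W', Phi e K W ≤ Phi e K W' := by
  have : Finite (Submodule (ZMod 2) G) :=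
    Finite.of_injective (fun W : Submodule (ZMod 2) G => (W : Set G)) SetLike.coe_injective
  have : Nonempty (Submodule (ZMod 2) G) := ⟨⊤⟩
  exact Finite.exists_min (Phi e K)

variable {e : ι → Module.Dual (ZMod 2) G} {K : ℝ} {W : Submodule (ZMod 2) G}

theorem min_codim (hmin : ∀ W', Phi e K W ≤ Phi e K W') :
    K * (Module.finrank (ZMod 2) G - Module.finrank (ZMod 2) W : ℝ) ≤ 2 * Fintype.card ι := by
  have h := hmin ⊤
  unfold Phi at h
  rw [finrank_top] at h
  have h1 : av (fun a : G => ((NN e (⊤ : Submodule (ZMod 2) G) a).card : ℝ)) ≤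
      Fintype.card ι := by
    refine (av_mono (g := fun _ => (Fintype.card ι : ℝ)) ?_).trans (le_of_eq (av_const _))
    intro a
    exact_mod_cast NN_card_le e ⊤ a
  have h2 : (UU e (⊤ : Submodule (ZMod 2) G) : ℝ) ≤ Fintype.card ι := by
    unfold UU
    exact_mod_cast Finset.card_le_univ _
  have h3 : 0 ≤ av (fun a : G => ((NN e W a).card : ℝ)) := av_nonneg (fun a => Nat.cast_nonneg _)
  have h4 : (0 : ℝ) ≤ UU e W := Nat.cast_nonneg _
  linarith

theorem min_class (hK : 0 ≤ K) (hmin : ∀ W', Phi e K W ≤ Phi e K W')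
    {ψ : Module.Dual (ZMod 2) W} (hψ : ψ ≠ 0) : ((cls e W ψ).card : ℝ) ≤ K := by
  set W' : Submodule (ZMod 2) G := (LinearMap.ker ψ).map W.subtype with hW'
  have hle : W' ≤ W := Submodule.map_subtype_le _ _
  have h := hmin W'
  unfold Phi at h
  have h1 : av (fun a : G => ((NN e W' a).card : ℝ)) ≤ av (fun a : G => ((NN e W a).card : ℝ)) :=
    av_mono (fun a => by exact_mod_cast NN_card_mono e hle a)
  have h2 : UU e W' + (cls e W ψ).card ≤ UU e W := by
    apply UU_class e hle hψ
    ext ⟨x, hx⟩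
    have hx' := hx
    rw [hW', Submodule.mem_map] at hx'
    obtain ⟨y, hy, rfl⟩ := hx'
    exact hy
  have h3 : Module.finrank (ZMod 2) W ≤ Module.finrank (ZMod 2) W' + 1 := ker_finrank ψ
  have h2' : (UU e W' : ℝ) + (cls e W ψ).card ≤ UU e W := by
    exact_mod_cast h2
  have h3' : (Module.finrank (ZMod 2) W : ℝ) ≤ Module.finrank (ZMod 2) W' + 1 := by
    exact_mod_cast h3
  nlinarith [mul_le_mul_of_nonneg_left h3' hK]

theorem min_loss (hK : 0 ≤ K) (hmin : ∀ W', Phi e K W ≤ Phi e K W') (R : Finset ι) :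
    av (fun a : G => ((NN e W a).card : ℝ) - (imm e W R a).card) ≤ K * R.card := by
  have h := hmin (WR e W R)
  unfold Phi at h
  have h1 : av (fun a : G => ((NN e (WR e W R) a).card : ℝ)) ≤
      av (fun a : G => ((imm e W R a).card : ℝ)) :=
    av_mono (fun a => by exact_mod_cast NN_imm e W R a)
  have h2 : (UU e (WR e W R) : ℝ) ≤ UU e W := by exact_mod_cast UU_mono e (WR_le e W R)
  have h3 : (Module.finrank (ZMod 2) W : ℝ) ≤ Module.finrank (ZMod 2) (WR e W R) + R.card := by
    exact_mod_cast WR_finrank e W R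
  have h4 : av (fun a : G => ((NN e W a).card : ℝ) - (imm e W R a).card) =
      av (fun a : G => ((NN e W a).card : ℝ)) - av (fun a : G => ((imm e W R a).card : ℝ)) := by
    unfold av
    rw [Finset.sum_sub_distrib, sub_div]
  rw [h4]
  nlinarith [mul_le_mul_of_nonneg_left h3 hK]

end minimal

/-- elements which die or merge under a map: at most twice the loss -/
theorem hit_le {α β : Type*} (s : Finset α) (g : α → β) (b : β) :
    ((s.filter (fun x => g x = b ∨ ∃ y ∈ s, y ≠ x ∧ g y = g x)).card : ℝ) ≤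
      2 * ((s.card : ℝ) - ((s.image g).erase b).card) := by
  set H := s.filter (fun x => g x = b ∨ ∃ y ∈ s, y ≠ x ∧ g y = g x) with hH
  set A := s \ H with hA
  have hcard : A.card + H.card = s.card := by
    rw [hA, Finset.card_sdiff_add_card_eq_card]
    exact Finset.filter_subset _ _
  have h1 : ((s.image g).erase b) ⊆ A.image g ∪ (H.image g).erase b := by
    intro z hz
    rw [Finset.mem_erase, Finset.mem_image] at hz
    obtain ⟨hzb, x, hx, rfl⟩ := hz
    rw [Finset.mem_union]
    by_cases hxH : x ∈ H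
    · right
      rw [Finset.mem_erase]
      exact ⟨hzb, Finset.mem_image_of_mem _ hxH⟩
    · left
      exact Finset.mem_image_of_mem _ (Finset.mem_sdiff.2 ⟨hx, hxH⟩)
  have h2 : 2 * ((H.image g).erase b).card ≤ H.card := by
    have h3 : ∑ z ∈ (H.image g).erase b, 2 ≤ ∑ z ∈ (H.image g).erase b,
        (H.filter (fun x => g x = z)).card := by
      apply Finset.sum_le_sum
      intro z hz
      rw [Finset.mem_erase, Finset.mem_image] at hz
      obtain ⟨hzb, x, hx, rfl⟩ := hz
      have hx' := hx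
      rw [hH, Finset.mem_filter] at hx'
      rcases hx'.2 with h4 | ⟨y, hy, hyx, hgy⟩
      · exact absurd h4 hzb
      · have hyH : y ∈ H := by
          rw [hH, Finset.mem_filter]
          exact ⟨hy, Or.inr ⟨x, hx'.1, hyx.symm, hgy.symm⟩⟩
        have : ({x, y} : Finset α) ⊆ H.filter (fun x' => g x' = g x) := by
          intro t ht
          rw [Finset.mem_insert, Finset.mem_singleton] at ht
          rw [Finset.mem_filter]
          rcases ht with rfl | rfl
          · exact ⟨hx, rfl⟩
          · exact ⟨hyH, hgy⟩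
        have h5 := Finset.card_le_card this
        rwa [Finset.card_pair hyx.symm] at h5
    rw [Finset.sum_const, smul_eq_mul, mul_comm] at h3
    refine h3.trans ?_
    rw [← Finset.card_biUnion]
    · apply Finset.card_le_card
      intro x hx
      rw [Finset.mem_biUnion] at hx
      obtain ⟨z, _, hz⟩ := hx
      exact (Finset.mem_filter.1 hz).1
    · intro z _ z' _ hne
      rw [Function.onFun, Finset.disjoint_left]
      intro x hx hx'
      exact hne ((Finset.mem_filter.1 hx).2.symm.trans (Finset.mem_filter.1 hx').2)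
  have h6 : ((s.image g).erase b).card ≤ A.card + ((H.image g).erase b).card :=
    (Finset.card_le_card h1).trans ((Finset.card_union_le _ _).trans
      (Nat.add_le_add_right Finset.card_image_le _))
  have h7 : H.card + 2 * ((s.image g).erase b).card ≤ 2 * s.card := by omega
  have h8 : (H.card : ℝ) + 2 * ((s.image g).erase b).card ≤ 2 * s.card := by exact_mod_cast h7
  linarith

section typical
variable {G ι : Type*} [AddCommGroup G] [Module (ZMod 2) G] [Fintype ι]

theorem dual_add_self {W : Type*} [AddCommGroup W] [Module (ZMod 2) W]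
    (z : Module.Dual (ZMod 2) W) : z + z = 0 := by
  ext x
  have : ∀ t : ZMod 2, t + t = 0 := by decide
  exact this _

theorem capt_iff (e : ι → Module.Dual (ZMod 2) G) (W : Submodule (ZMod 2) G) {q : ℕ}
    (f : ι → Fin (q + 1)) (z : Module.Dual (ZMod 2) W) :
    Capt (res e W) f z ↔ rs (WR_le e W (univ.filter (fun i => f i = 0))) z = 0 := by
  constructor
  · intro h
    ext ⟨x, hx⟩
    rw [mem_WR] at hx
    apply h ⟨x, hx.1⟩
    intro i hi
    exact hx.2 i (Finset.mem_filter.2 ⟨Finset.mem_univ _, hi⟩)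
  · intro h x hx
    have hx' : (x : G) ∈ WR e W (univ.filter (fun i => f i = 0)) := by
      rw [mem_WR]
      refine ⟨x.2, ?_⟩
      intro i hi
      exact hx i (Finset.mem_filter.1 hi).2
    have := congrArg (fun φ => φ ⟨(x : G), hx'⟩) h
    exact this

/-- the atypical characters -/
noncomputable def YY (e : ι → Module.Dual (ZMod 2) G) (W : Submodule (ZMod 2) G) (q : ℕ)
    (a : G) : Finset (Module.Dual (ZMod 2) W) :=
  (NN e W a).filter (fun ψ => 1 / 2 ≤ cap q (res e W) ψ ∨
    ∃ φ ∈ NN e W a, φ ≠ ψ ∧ 1 / 2 ≤ cap q (res e W) (ψ + φ))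

/-- the characters which are hit -/
noncomputable def HH (e : ι → Module.Dual (ZMod 2) G) (W : Submodule (ZMod 2) G) {q : ℕ}
    (f : ι → Fin (q + 1)) (a : G) : Finset (Module.Dual (ZMod 2) W) :=
  (NN e W a).filter (fun ψ => Capt (res e W) f ψ ∨
    ∃ φ ∈ NN e W a, φ ≠ ψ ∧ Capt (res e W) f (ψ + φ))

theorem HH_card_le (e : ι → Module.Dual (ZMod 2) G) (W : Submodule (ZMod 2) G) {q : ℕ}
    (f : ι → Fin (q + 1)) (a : G) : ((HH e W f a).card : ℝ) ≤
      2 * (((NN e W a).card : ℝ) - (imm e W (univ.filter (fun i => f i = 0)) a).card) := by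
  unfold imm
  refine le_trans ?_ (hit_le (NN e W a) (rs (WR_le e W (univ.filter (fun i => f i = 0)))) 0)
  have : (HH e W f a).card ≤ ((NN e W a).filter (fun ψ =>
      rs (WR_le e W (univ.filter (fun i => f i = 0))) ψ = 0 ∨
      ∃ φ ∈ NN e W a, φ ≠ ψ ∧ rs (WR_le e W (univ.filter (fun i => f i = 0))) φ =
        rs (WR_le e W (univ.filter (fun i => f i = 0))) ψ)).card := by
    apply Finset.card_le_card
    intro ψ hψ
    unfold HH at hψ
    rw [Finset.mem_filter] at hψ ⊢
    refine ⟨hψ.1, ?_⟩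
    rcases hψ.2 with h | ⟨φ, h1, h2, h3⟩
    · exact Or.inl ((capt_iff e W f ψ).1 h)
    · refine Or.inr ⟨φ, h1, h2, ?_⟩
      rw [capt_iff, rs_add] at h3
      have h4 := dual_add_self (rs (WR_le e W (univ.filter (fun i => f i = 0))) ψ)
      rw [← h4] at h3
      exact add_left_cancel h3
  exact_mod_cast this

theorem YY_card_le (e : ι → Module.Dual (ZMod 2) G) (W : Submodule (ZMod 2) G) (q : ℕ)
    (a : G) : ((YY e W q a).card : ℝ) ≤
      2 * av (fun f : ι → Fin (q + 1) => ((HH e W f a).card : ℝ)) := by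
  have h1 : ∀ ψ ∈ YY e W q a, 1 / 2 ≤ pr (fun f : ι → Fin (q + 1) => ψ ∈ HH e W f a) := by
    intro ψ hψ
    unfold YY at hψ
    rw [Finset.mem_filter] at hψ
    obtain ⟨hN, h | ⟨φ, hφ, hne, h⟩⟩ := hψ
    · refine h.trans (pr_mono ?_)
      intro f hf
      unfold HH
      rw [Finset.mem_filter]
      exact ⟨hN, Or.inl hf⟩
    · refine h.trans (pr_mono ?_)
      intro f hf
      unfold HH
      rw [Finset.mem_filter]
      exact ⟨hN, Or.inr ⟨φ, hφ, hne, hf⟩⟩
  have h2 : av (fun f : ι → Fin (q + 1) => ((HH e W f a).card : ℝ)) =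
      ∑ ψ ∈ NN e W a, pr (fun f : ι → Fin (q + 1) => ψ ∈ HH e W f a) := by
    unfold pr
    rw [← av_sum]
    apply av_congr
    intro f
    have hsub : HH e W f a ⊆ NN e W a := Finset.filter_subset _ _
    have h5 : ((HH e W f a).card : ℝ) = ∑ _i ∈ HH e W f a, (1 : ℝ) := by simp
    rw [h5]
    refine Eq.trans (Finset.sum_congr rfl (fun i hi => ?_))
      (Finset.sum_subset hsub (fun i _ hi => ?_))
    · rw [if_pos hi]
    · rw [if_neg hi]
  have h3 : ∑ ψ ∈ YY e W q a, (1 / 2 : ℝ) ≤
      ∑ ψ ∈ NN e W a, pr (fun f : ι → Fin (q + 1) => ψ ∈ HH e W f a) := by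
    refine (Finset.sum_le_sum h1).trans ?_
    apply Finset.sum_le_sum_of_subset_of_nonneg
    · exact Finset.filter_subset _ _
    · intro ψ _ _
      exact pr_nonneg _
  rw [h2]
  rw [Finset.sum_const, nsmul_eq_mul] at h3
  linarith

theorem av_YY_le [Fintype G] {e : ι → Module.Dual (ZMod 2) G} {K : ℝ} {W : Submodule (ZMod 2) G}
    (hK : 0 ≤ K) (hmin : ∀ W', Phi e K W ≤ Phi e K W') (q : ℕ) :
    av (fun a : G => ((YY e W q a).card : ℝ)) ≤ 4 * K * (Fintype.card ι : ℝ) / (q + 1) := by
  have h1 : av (fun a : G => ((YY e W q a).card : ℝ)) ≤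
      2 * av (fun f : ι → Fin (q + 1) => av (fun a : G => ((HH e W f a).card : ℝ))) := by
    refine (av_mono (YY_card_le e W q)).trans (le_of_eq ?_)
    rw [av_mul_left]
    congr 1
    unfold av
    rw [← Finset.sum_div, ← Finset.sum_div, Finset.sum_comm, div_div, div_div, mul_comm]
  have h2 : ∀ f : ι → Fin (q + 1), av (fun a : G => ((HH e W f a).card : ℝ)) ≤
      2 * K * ((univ.filter (fun i => f i = 0)).card : ℝ) := by
    intro f
    refine (av_mono (HH_card_le e W f)).trans ?_
    rw [av_mul_left, mul_assoc]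
    exact mul_le_mul_of_nonneg_left (min_loss hK hmin _) (by norm_num)
  have h3 : av (fun f : ι → Fin (q + 1) => av (fun a : G => ((HH e W f a).card : ℝ))) ≤
      2 * K * ((Fintype.card ι : ℝ) / (q + 1)) := by
    refine (av_mono h2).trans ?_
    rw [av_mul_left, av_card_zero]
  calc av (fun a : G => ((YY e W q a).card : ℝ))
      ≤ 2 * av (fun f : ι → Fin (q + 1) => av (fun a : G => ((HH e W f a).card : ℝ))) := h1
    _ ≤ 2 * (2 * K * ((Fintype.card ι : ℝ) / (q + 1))) := by linarith
    _ = 4 * K * (Fintype.card ι : ℝ) / (q + 1) := by ring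

end typical

end Pool.Agent.H47.ST
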