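import Pool.Agent.H47.ST.Defs

/-! Project ST: counting relations between typical characters (pure combinatorics). -/

namespace Pool.Agent.H47.ST

open Finset
open scoped Classical

/-- a maximal pairwise disjoint subfamily -/
theorem rc_maximal {D : Type*} (𝒞 : Finset (Finset D)) :
    ∃ ℳ ⊆ 𝒞, (∀ F ∈ ℳ, ∀ F' ∈ ℳ, F ≠ F' → Disjoint F F') ∧
      ∀ G ∈ 𝒞, G.Nonempty → ∃ F ∈ ℳ, ¬ Disjoint G F := by
  have hne : (𝒞.powerset.filter (fun ℳ : Finset (Finset D) =>
      ∀ F ∈ ℳ, ∀ F' ∈ ℳ, F ≠ F' → Disjoint F F')).Nonempty := by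
    refine ⟨∅, ?_⟩
    rw [mem_filter]
    exact ⟨empty_mem_powerset _, fun F hF => absurd hF (notMem_empty F)⟩
  obtain ⟨ℳ, hm, hmax⟩ := exists_max_image _ (fun ℳ : Finset (Finset D) => ℳ.card) hne
  rw [mem_filter, mem_powerset] at hm
  refine ⟨ℳ, hm.1, hm.2, ?_⟩
  intro G hG hGne
  by_contra hcon
  push Not at hcon
  have hGn : G ∉ ℳ := fun h => by
    have h1 := hcon G h
    rw [disjoint_self] at h1
    exact hGne.ne_empty h1
  have hins : insert G ℳ ∈ 𝒞.powerset.filter (fun ℳ : Finset (Finset D) =>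
      ∀ F ∈ ℳ, ∀ F' ∈ ℳ, F ≠ F' → Disjoint F F') := by
    rw [mem_filter, mem_powerset]
    refine ⟨insert_subset hG hm.1, ?_⟩
    intro F hF F' hF' hne'
    rw [mem_insert] at hF hF'
    rcases hF with rfl | hF <;> rcases hF' with rfl | hF'
    · exact absurd rfl hne'
    · exact hcon F' hF'
    · exact (hcon F hF).symm
    · exact hm.2 F hF F' hF' hne'
  have h2 := hmax _ hins
  rw [card_insert_of_notMem hGn] at h2
  omega

/-- no relation of size `1` or `2` with a captured sum -/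
theorem rc_small {D : Type*} [AddCommGroup D] {X : Finset D} {cap : D → ℝ}
    (ht1 : ∀ ψ ∈ X, cap ψ < 1 / 2)
    (ht2 : ∀ ψ ∈ X, ∀ φ ∈ X, ψ ≠ φ → cap (ψ + φ) < 1 / 2) {F : Finset D} (hF : F ⊆ X)
    (hc : F.card = 1 ∨ F.card = 2) : cap (∑ ψ ∈ F, ψ) < 1 / 2 := by
  rcases hc with hc | hc
  · obtain ⟨a, rfl⟩ := card_eq_one.1 hc
    rw [sum_singleton]
    exact ht1 a (hF (mem_singleton_self a))
  · obtain ⟨a, b, hab, rfl⟩ := card_eq_two.1 hc
    rw [sum_pair hab]
    exact ht2 a (hF (by simp)) b (hF (by simp)) hab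

/-- the relations containing `F` -/
theorem rc_step {D : Type*} [AddCommGroup D] {X : Finset D} {cap : D → ℝ} {P C : ℕ} {Q r : ℝ}
    (h2 : ∀ z : D, z + z = 0)
    (hadd : ∀ a b, 1 - cap (a + b) ≤ (1 - cap a) + (1 - cap b))
    (ht1 : ∀ ψ ∈ X, cap ψ < 1 / 2)
    (ht2 : ∀ ψ ∈ X, ∀ φ ∈ X, ψ ≠ φ → cap (ψ + φ) < 1 / 2)
    (hC : ∀ (z : D) (𝒢 : Finset (Finset D)),
      (∀ F ∈ 𝒢, F ⊆ X ∧ 1 ≤ F.card ∧ F.card ≤ P ∧ ∑ ψ ∈ F, ψ = z) →
      (∀ F ∈ 𝒢, ∀ F' ∈ 𝒢, F ≠ F' → Disjoint F F') → C ≤ 𝒢.card →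
      1 - cap z ≤ (1 / 4) ^ (P + 1))
    (hQ : 1 ≤ Q) (hQC : ((C * P : ℕ) : ℝ) ≤ Q) (hr : 1 ≤ r) {g : ℕ} (hg : g ≤ P) {z : D}
    (hz : 1 - cap z ≤ (1 / 4) ^ (P + 1))
    (ih : ∀ g' < g, ∀ y, 1 - cap y ≤ (1 / 4) ^ (P + 1) →
      ((rels X y g').card : ℝ) ≤ Q ^ (g' * P) * r ^ g') (m : ℕ) :
    ∀ F : Finset D, F ⊆ X → F.Nonempty → F.card + m = g →
      (((rels X z g).filter (fun G => F ⊆ G)).card : ℝ) ≤
        Q ^ m * (Q ^ ((g - 3) * P) * r ^ (g - 3)) := by
  have hM : 1 ≤ Q ^ ((g - 3) * P) * r ^ (g - 3) := by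
    have h1 : 1 ≤ Q ^ ((g - 3) * P) := one_le_pow₀ hQ
    have h3 : 1 ≤ r ^ (g - 3) := one_le_pow₀ hr
    nlinarith
  have hquarter : ((1 : ℝ) / 4) ^ (P + 1) ≤ 1 / 4 := by
    have h1 : ((1 : ℝ) / 4) ^ (P + 1) ≤ (1 / 4) ^ 1 :=
      pow_le_pow_of_le_one (by norm_num) (by norm_num) (by omega)
    simpa using h1
  induction m with
  | zero =>
    intro F hF hFne hc
    have hle : ((rels X z g).filter (fun G => F ⊆ G)).card ≤ 1 := by
      rw [card_le_one]
      have key : ∀ G ∈ (rels X z g).filter (fun G => F ⊆ G), G = F := by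
        intro G hG
        rw [mem_filter, mem_rels] at hG
        exact (eq_of_subset_of_card_le hG.2 (by omega)).symm
      intro a ha b hb
      rw [key a ha, key b hb]
    have h1 : (((rels X z g).filter (fun G => F ⊆ G)).card : ℝ) ≤ 1 := by exact_mod_cast hle
    rw [pow_zero, one_mul]
    exact h1.trans hM
  | succ m ihm =>
    intro F hF hFne hc
    -- the completions
    set 𝒞 : Finset (Finset D) := ((rels X z g).filter (fun G => F ⊆ G)).image (fun G => G \ F)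
      with h𝒞
    have h𝒞mem : ∀ K ∈ 𝒞, K ⊆ X ∧ K.card = m + 1 ∧ ∑ ψ ∈ K, ψ = z + ∑ ψ ∈ F, ψ ∧
        Disjoint K F := by
      intro K hK
      rw [h𝒞, mem_image] at hK
      obtain ⟨G, hG, rfl⟩ := hK
      rw [mem_filter, mem_rels] at hG
      refine ⟨sdiff_subset.trans hG.1.1, ?_, ?_, sdiff_disjoint⟩
      · rw [card_sdiff_of_subset hG.2]
        omega
      · have hs := sum_sdiff (f := fun ψ : D => ψ) hG.2
        rw [hG.1.2.2] at hs
        rw [← hs, add_assoc, h2, add_zero]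
    have hinj : ((rels X z g).filter (fun G => F ⊆ G)).card = 𝒞.card := by
      rw [h𝒞, card_image_of_injOn]
      intro G hG G' hG' he
      rw [mem_coe, mem_filter] at hG hG'
      have he' : G \ F = G' \ F := he
      rw [← sdiff_union_of_subset hG.2, he', sdiff_union_of_subset hG'.2]
    obtain ⟨ℳ, hℳ, hdis, hmax⟩ := rc_maximal 𝒞
    by_cases hcase : C ≤ ℳ.card
    · -- many disjoint completions
      have hy : 1 - cap (z + ∑ ψ ∈ F, ψ) ≤ (1 / 4) ^ (P + 1) := by
        refine hC _ ℳ (fun K hK => ?_) hdis hcase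
        obtain ⟨h1, h3, h4, _⟩ := h𝒞mem K (hℳ hK)
        exact ⟨h1, by omega, by omega, h4⟩
      have hF3 : 3 ≤ F.card := by
        by_contra hlt
        have hFc : 1 ≤ F.card := hFne.card_pos
        have h1 := rc_small ht1 ht2 hF (by omega)
        have h3 := hadd z (z + ∑ ψ ∈ F, ψ)
        rw [← add_assoc, h2, zero_add] at h3
        linarith
      have hsub : 𝒞 ⊆ rels X (z + ∑ ψ ∈ F, ψ) (m + 1) := by
        intro K hK
        obtain ⟨h1, h3, h4, _⟩ := h𝒞mem K hK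
        exact mem_rels.2 ⟨h1, h3, h4⟩
      have h5 := ih (m + 1) (by omega) _ hy
      have h6 : (𝒞.card : ℝ) ≤ ((rels X (z + ∑ ψ ∈ F, ψ) (m + 1)).card : ℝ) := by
        exact_mod_cast card_le_card hsub
      rw [hinj]
      have h7 : Q ^ ((m + 1) * P) ≤ Q ^ ((g - 3) * P) :=
        pow_le_pow_right₀ hQ (Nat.mul_le_mul_right P (by omega))
      have h8 : r ^ (m + 1) ≤ r ^ (g - 3) := pow_le_pow_right₀ hr (by omega)
      have h9 : Q ^ ((m + 1) * P) * r ^ (m + 1) ≤ Q ^ ((g - 3) * P) * r ^ (g - 3) :=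
        mul_le_mul h7 h8 (by positivity) (by positivity)
      have h10 : 1 ≤ Q ^ (m + 1) := one_le_pow₀ hQ
      have h11 : Q ^ ((g - 3) * P) * r ^ (g - 3) ≤
          Q ^ (m + 1) * (Q ^ ((g - 3) * P) * r ^ (g - 3)) := by nlinarith
      linarith
    · -- few points meet every completion
      set H : Finset D := ℳ.biUnion id with hH
      have hHcard : H.card ≤ C * P := by
        have h1 : H.card ≤ ℳ.card * P := by
          rw [hH]
          refine card_biUnion_le_card_mul _ _ _ (fun K hK => ?_)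
          have h3 := (h𝒞mem K (hℳ hK)).2.1
          rw [id]
          omega
        exact h1.trans (Nat.mul_le_mul_right P (by omega))
      have hHX : H ⊆ X := by
        intro x hx
        rw [hH, mem_biUnion] at hx
        obtain ⟨K, hK, hxK⟩ := hx
        exact (h𝒞mem K (hℳ hK)).1 hxK
      have hHF : Disjoint H F := by
        rw [Finset.disjoint_left]
        intro x hx hxF
        rw [hH, mem_biUnion] at hx
        obtain ⟨K, hK, hxK⟩ := hx
        exact (Finset.disjoint_left.1 (h𝒞mem K (hℳ hK)).2.2.2 hxK) hxF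
      have hcov : (rels X z g).filter (fun G => F ⊆ G) ⊆
          H.biUnion (fun x => (rels X z g).filter (fun G => insert x F ⊆ G)) := by
        intro G hG
        have hGC : G \ F ∈ 𝒞 := mem_image_of_mem _ hG
        have hGne : (G \ F).Nonempty := by
          rw [← card_pos]
          have h3 := (h𝒞mem _ hGC).2.1
          omega
        obtain ⟨K, hK, hnd⟩ := hmax _ hGC hGne
        rw [Finset.not_disjoint_iff] at hnd
        obtain ⟨x, hx1, hx2⟩ := hnd
        rw [mem_filter] at hG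
        rw [mem_biUnion]
        refine ⟨x, ?_, ?_⟩
        · rw [hH, mem_biUnion]
          exact ⟨K, hK, hx2⟩
        · rw [mem_filter]
          exact ⟨hG.1, insert_subset (mem_sdiff.1 hx1).1 hG.2⟩
      have h1 : ((rels X z g).filter (fun G => F ⊆ G)).card ≤
          ∑ x ∈ H, ((rels X z g).filter (fun G => insert x F ⊆ G)).card :=
        (card_le_card hcov).trans card_biUnion_le
      have h3 : (((rels X z g).filter (fun G => F ⊆ G)).card : ℝ) ≤
          ∑ x ∈ H, (((rels X z g).filter (fun G => insert x F ⊆ G)).card : ℝ) := by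
        exact_mod_cast h1
      have h4 : ∑ x ∈ H, (((rels X z g).filter (fun G => insert x F ⊆ G)).card : ℝ) ≤
          ∑ _x ∈ H, Q ^ m * (Q ^ ((g - 3) * P) * r ^ (g - 3)) := by
        refine sum_le_sum (fun x hx => ?_)
        refine ihm _ (insert_subset (hHX hx) hF) (insert_nonempty _ _) ?_
        rw [card_insert_of_notMem (Finset.disjoint_left.1 hHF hx)]
        omega
      rw [sum_const, nsmul_eq_mul] at h4
      have h5 : (H.card : ℝ) ≤ Q := by
        have h6 : (H.card : ℝ) ≤ ((C * P : ℕ) : ℝ) := by exact_mod_cast hHcard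
        exact h6.trans hQC
      have h7 : (H.card : ℝ) * (Q ^ m * (Q ^ ((g - 3) * P) * r ^ (g - 3))) ≤
          Q * (Q ^ m * (Q ^ ((g - 3) * P) * r ^ (g - 3))) :=
        mul_le_mul_of_nonneg_right h5 (by positivity)
      calc (((rels X z g).filter (fun G => F ⊆ G)).card : ℝ)
          ≤ Q * (Q ^ m * (Q ^ ((g - 3) * P) * r ^ (g - 3))) := by linarith
        _ = Q ^ (m + 1) * (Q ^ ((g - 3) * P) * r ^ (g - 3)) := by ring

/-- relations with a captured sum -/
theorem rc_main {D : Type*} [AddCommGroup D] {X : Finset D} {cap : D → ℝ} {P C : ℕ} {Q r : ℝ}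
    (h2 : ∀ z : D, z + z = 0)
    (hadd : ∀ a b, 1 - cap (a + b) ≤ (1 - cap a) + (1 - cap b))
    (ht1 : ∀ ψ ∈ X, cap ψ < 1 / 2)
    (ht2 : ∀ ψ ∈ X, ∀ φ ∈ X, ψ ≠ φ → cap (ψ + φ) < 1 / 2)
    (hC : ∀ (z : D) (𝒢 : Finset (Finset D)),
      (∀ F ∈ 𝒢, F ⊆ X ∧ 1 ≤ F.card ∧ F.card ≤ P ∧ ∑ ψ ∈ F, ψ = z) →
      (∀ F ∈ 𝒢, ∀ F' ∈ 𝒢, F ≠ F' → Disjoint F F') → C ≤ 𝒢.card →
      1 - cap z ≤ (1 / 4) ^ (P + 1))
    (hQ : 1 ≤ Q) (hQC : ((C * P : ℕ) : ℝ) ≤ Q) (hr : 1 ≤ r) (hX : (X.card : ℝ) ≤ r ^ 3)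
    (g : ℕ) : g ≤ P → ∀ z, 1 - cap z ≤ (1 / 4) ^ (P + 1) →
      ((rels X z g).card : ℝ) ≤ Q ^ (g * P) * r ^ g := by
  have hquarter : ((1 : ℝ) / 4) ^ (P + 1) ≤ 1 / 4 := by
    have h1 : ((1 : ℝ) / 4) ^ (P + 1) ≤ (1 / 4) ^ 1 :=
      pow_le_pow_of_le_one (by norm_num) (by norm_num) (by omega)
    simpa using h1
  induction g using Nat.strong_induction_on with
  | _ g ih =>
    intro hg z hz
    have hpos : 0 ≤ Q ^ (g * P) * r ^ g := by positivity
    rcases Nat.lt_or_ge g 3 with hlt | hge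
    · rcases Nat.eq_zero_or_pos g with h0 | hgp
      · subst h0
        have hle : (rels X z 0).card ≤ 1 := by
          rw [card_le_one]
          have key : ∀ G ∈ rels X z 0, G = ∅ := by
            intro G hG
            rw [mem_rels] at hG
            exact card_eq_zero.1 hG.2.1
          intro a ha b hb
          rw [key a ha, key b hb]
        have h1 : ((rels X z 0).card : ℝ) ≤ 1 := by exact_mod_cast hle
        simpa using h1
      · have hemp : rels X z g = ∅ := by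
          rw [Finset.eq_empty_iff_forall_notMem]
          intro F hF
          rw [mem_rels] at hF
          have h1 := rc_small ht1 ht2 hF.1 (by omega)
          rw [hF.2.2] at h1
          linarith
        rw [hemp, card_empty, Nat.cast_zero]
        exact hpos
    · have hcov : rels X z g ⊆
          X.biUnion (fun x => (rels X z g).filter (fun G => {x} ⊆ G)) := by
        intro G hG
        have hG' := hG
        rw [mem_rels] at hG'
        have hGne : G.Nonempty := by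
          rw [← card_pos]
          omega
        obtain ⟨x, hx⟩ := hGne
        rw [mem_biUnion]
        refine ⟨x, hG'.1 hx, ?_⟩
        rw [mem_filter, singleton_subset_iff]
        exact ⟨hG, hx⟩
      have h1 : (rels X z g).card ≤
          ∑ x ∈ X, ((rels X z g).filter (fun G => {x} ⊆ G)).card :=
        (card_le_card hcov).trans card_biUnion_le
      have h3 : ((rels X z g).card : ℝ) ≤
          ∑ x ∈ X, (((rels X z g).filter (fun G => {x} ⊆ G)).card : ℝ) := by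
        exact_mod_cast h1
      have h4 : ∑ x ∈ X, (((rels X z g).filter (fun G => {x} ⊆ G)).card : ℝ) ≤
          ∑ _x ∈ X, Q ^ (g - 1) * (Q ^ ((g - 3) * P) * r ^ (g - 3)) := by
        refine sum_le_sum (fun x hx => ?_)
        refine rc_step h2 hadd ht1 ht2 hC hQ hQC hr hg hz
          (fun g' hg' y hy => ih g' hg' (by omega) y hy) (g - 1) {x}
          (singleton_subset_iff.2 hx) (singleton_nonempty x) ?_
        rw [card_singleton]
        omega
      rw [sum_const, nsmul_eq_mul] at h4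
      have h5 : (X.card : ℝ) * (Q ^ (g - 1) * (Q ^ ((g - 3) * P) * r ^ (g - 3))) ≤
          r ^ 3 * (Q ^ (g - 1) * (Q ^ ((g - 3) * P) * r ^ (g - 3))) :=
        mul_le_mul_of_nonneg_right hX (by positivity)
      have h6 : r ^ 3 * (Q ^ (g - 1) * (Q ^ ((g - 3) * P) * r ^ (g - 3))) =
          Q ^ (g - 1 + (g - 3) * P) * r ^ g := by
        have h7 : r ^ g = r ^ 3 * r ^ (g - 3) := by
          rw [← pow_add]
          congr 1
          omega
        rw [h7, pow_add]
        ring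
      have h8 : Q ^ (g - 1 + (g - 3) * P) ≤ Q ^ (g * P) := by
        refine pow_le_pow_right₀ hQ ?_
        obtain ⟨t, rfl⟩ : ∃ t, g = t + 3 := ⟨g - 3, by omega⟩
        have h9 : t + 3 - 3 = t := by omega
        have h10 : (t + 3) * P = t * P + 3 * P := by ring
        rw [h9, h10]
        omega
      have h11 : Q ^ (g - 1 + (g - 3) * P) * r ^ g ≤ Q ^ (g * P) * r ^ g :=
        mul_le_mul_of_nonneg_right h8 (by positivity)
      linarith

/-- Let `cap` satisfy `1 - cap (a + b) ≤ (1 - cap a) + (1 - cap b)`, let single elements of `X`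
and sums of two different elements of `X` have `cap < 1/2`, and let `z` have `cap z` very close
to `1` if `z` has `C` pairwise disjoint representations as a sum of at most `P` elements of `X`.
Then there are few relations. Proof (induction on `g`): for `g ≤ P` and
`1 - cap z ≤ (2 ^ (P - g) - 1) / 4 ^ (P + 1)` (or similar) the number `N` of `G ⊆ X`, `|G| = g`,
sum `z`, satisfies `N ^ 3 ≤ ((C P + 1) ^ (g P)) ^ 3 n ^ g` and `N = 0` for `g = 1, 2`. For `F ≠ ∅`,
`F ⊆ X`, let `N_F` be the number of those `G` which contain `F`; downward induction on `|F|`: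
if the sets `G \ F` contain `C` pairwise disjoint ones then `cap (∑ F)` is close to `1`
(`∑ F = z + ∑ (G \ F)`), so `|F| ≥ 3` and `N_F ≤` the count for `g - |F|` and `z - ∑ F`;
otherwise the union `H` of a maximal disjoint subfamily has `< C P` points and meets every
`G \ F`, so `N_F ≤ ∑_(x ∈ H) N_(F ∪ x)`. Finally `N ≤ ∑_(x ∈ X) N_x`. -/
theorem rel_count {D : Type*} [AddCommGroup D] {X : Finset D} {cap : D → ℝ} {P C n : ℕ}
    (h2 : ∀ z : D, z + z = 0) (h0 : cap 0 = 1)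
    (hadd : ∀ a b, 1 - cap (a + b) ≤ (1 - cap a) + (1 - cap b))
    (ht1 : ∀ ψ ∈ X, cap ψ < 1 / 2)
    (ht2 : ∀ ψ ∈ X, ∀ φ ∈ X, ψ ≠ φ → cap (ψ + φ) < 1 / 2)
    (hC : ∀ (z : D) (𝒢 : Finset (Finset D)),
      (∀ F ∈ 𝒢, F ⊆ X ∧ 1 ≤ F.card ∧ F.card ≤ P ∧ ∑ ψ ∈ F, ψ = z) →
      (∀ F ∈ 𝒢, ∀ F' ∈ 𝒢, F ≠ F' → Disjoint F F') → C ≤ 𝒢.card →
      1 - cap z ≤ (1 / 4) ^ (P + 1))
    (hn : X.card ≤ n) (hn1 : 1 ≤ n) (hC1 : 1 ≤ C) :
    rels X 0 1 = ∅ ∧ rels X 0 2 = ∅ ∧ ∀ g ≤ P, ((rels X 0 g).card : ℝ) ^ 3 ≤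
      (((C * P + 1 : ℕ) : ℝ) ^ (P * P)) ^ 3 * (n : ℝ) ^ g := by
  have hhalf : ∀ (F : Finset D), F ⊆ X → (F.card = 1 ∨ F.card = 2) → ∑ ψ ∈ F, ψ = 0 → False := by
    intro F hF hc hs
    have h1 := rc_small ht1 ht2 hF hc
    rw [hs, h0] at h1
    norm_num at h1
  refine ⟨?_, ?_, ?_⟩
  · rw [Finset.eq_empty_iff_forall_notMem]
    intro F hF
    rw [mem_rels] at hF
    exact hhalf F hF.1 (Or.inl hF.2.1) hF.2.2
  · rw [Finset.eq_empty_iff_forall_notMem]
    intro F hF
    rw [mem_rels] at hF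
    exact hhalf F hF.1 (Or.inr hF.2.1) hF.2.2
  · intro g hg
    set Q : ℝ := ((C * P + 1 : ℕ) : ℝ) with hQdef
    have hQ : 1 ≤ Q := by
      rw [hQdef]
      exact_mod_cast Nat.le_add_left 1 (C * P)
    have hQC : ((C * P : ℕ) : ℝ) ≤ Q := by
      rw [hQdef]
      exact_mod_cast Nat.le_succ (C * P)
    have hn1' : (1 : ℝ) ≤ (n : ℝ) := by exact_mod_cast hn1
    set r : ℝ := (n : ℝ) ^ ((1 : ℝ) / 3) with hrdef
    have hr3 : r ^ 3 = (n : ℝ) := by
      rw [hrdef, ← Real.rpow_natCast, ← Real.rpow_mul (by positivity)]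
      norm_num
    have hr : 1 ≤ r := by
      rw [hrdef]
      exact Real.one_le_rpow hn1' (by norm_num)
    have hX : (X.card : ℝ) ≤ r ^ 3 := by
      rw [hr3]
      exact_mod_cast hn
    have hz : 1 - cap 0 ≤ (1 / 4) ^ (P + 1) := by
      rw [h0]
      have h1 : (0 : ℝ) ≤ (1 / 4) ^ (P + 1) := by positivity
      linarith
    have h1 := rc_main h2 hadd ht1 ht2 hC hQ hQC hr hX g hg 0 hz
    have h3 : Q ^ (g * P) ≤ Q ^ (P * P) := pow_le_pow_right₀ hQ (Nat.mul_le_mul_right P hg)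
    have h4 : ((rels X 0 g).card : ℝ) ≤ Q ^ (P * P) * r ^ g :=
      h1.trans (mul_le_mul_of_nonneg_right h3 (by positivity))
    calc ((rels X 0 g).card : ℝ) ^ 3 ≤ (Q ^ (P * P) * r ^ g) ^ 3 :=
          pow_le_pow_left₀ (Nat.cast_nonneg _) h4 3
      _ = (Q ^ (P * P)) ^ 3 * (n : ℝ) ^ g := by
          rw [← hr3]
          ring

end Pool.Agent.H47.ST
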