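import Pool.Agent.H47.ST.SB
import Pool.Agent.H47.ST.RC
import Pool.Agent.H47.ST.PH

/-! Project ST: the inverse theorem. -/

namespace Pool.Agent.H47.ST

open Finset Pool.Agent.H46.SR
open scoped Classical

section prep
variable {G ι : Type*} [AddCommGroup G] [Module (ZMod 2) G] [Fintype ι]

theorem mem_NN {e : ι → Module.Dual (ZMod 2) G} {W : Submodule (ZMod 2) G} {a : G}
    {ψ : Module.Dual (ZMod 2) W} :
    ψ ∈ NN e W a ↔ (∃ i, res e W i = ψ) ∧ ψ ≠ 0 ∧ cc e W a ψ ≠ 0 := by
  unfold NN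
  rw [Finset.mem_filter, Finset.mem_image]
  simp

theorem cc_int (e : ι → Module.Dual (ZMod 2) G) (W : Submodule (ZMod 2) G) (a : G)
    (ψ : Module.Dual (ZMod 2) W) : ∃ z : ℤ, cc e W a ψ = z := by
  refine ⟨∑ i ∈ univ.filter (fun i => res e W i = ψ), if e i a = 0 then 1 else -1, ?_⟩
  unfold cc
  push_cast
  apply Finset.sum_congr rfl
  intro i _
  unfold sg
  rfl

theorem one_le_abs_cc {e : ι → Module.Dual (ZMod 2) G} {W : Submodule (ZMod 2) G} {a : G}
    {ψ : Module.Dual (ZMod 2) W} (h : cc e W a ψ ≠ 0) : 1 ≤ |cc e W a ψ| := by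
  obtain ⟨z, hz⟩ := cc_int e W a ψ
  rw [hz] at h ⊢
  have h1 : z ≠ 0 := by
    rintro rfl
    exact h (by simp)
  have h2 : 1 ≤ |z| := Int.one_le_abs h1
  exact_mod_cast h2

theorem abs_cc_le (e : ι → Module.Dual (ZMod 2) G) (W : Submodule (ZMod 2) G) (a : G)
    (ψ : Module.Dual (ZMod 2) W) : |cc e W a ψ| ≤ (cls e W ψ).card := by
  unfold cc cls
  refine (Finset.abs_sum_le_sum_abs _ _).trans ?_
  simp [abs_sg]

theorem sum_split (e : ι → Module.Dual (ZMod 2) G) (W : Submodule (ZMod 2) G) (a : G) :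
    ∃ s₀ : ℝ, ∀ x : W, ∑ i, sg (e i (a + x)) = s₀ + csum (NN e W a) (cc e W a) x := by
  refine ⟨∑ ψ ∈ (univ.image (res e W)).filter (fun ψ => ¬ (ψ ≠ 0 ∧ cc e W a ψ ≠ 0)),
    cc e W a ψ, ?_⟩
  intro x
  have h1 : ∑ i, sg (e i (a + x)) =
      ∑ ψ ∈ univ.image (res e W), cc e W a ψ * sg (ψ x) := by
    rw [← Finset.sum_fiberwise_of_maps_to (s := (univ : Finset ι))
      (t := univ.image (res e W)) (g := res e W)
      (fun i _ => Finset.mem_image_of_mem _ (Finset.mem_univ i))]
    apply Finset.sum_congr rfl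
    intro ψ _
    unfold cc
    rw [Finset.sum_mul]
    apply Finset.sum_congr rfl
    intro i hi
    rw [map_add, sg_add, ← (Finset.mem_filter.1 hi).2]
    rfl
  rw [h1, ← Finset.sum_filter_not_add_sum_filter (univ.image (res e W))
    (fun ψ => ψ ≠ 0 ∧ cc e W a ψ ≠ 0)]
  congr 1
  apply Finset.sum_congr rfl
  intro ψ hψ
  have h2 := (Finset.mem_filter.1 hψ).2
  by_cases h3 : ψ = 0
  · subst h3
    have : (0 : Module.Dual (ZMod 2) W) x = 0 := rfl
    rw [this, sg_zero, mul_one]
  · have h4 : cc e W a ψ = 0 := by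
      by_contra h5
      exact h2 ⟨h3, h5⟩
    rw [h4, zero_mul]

theorem YY_sub (e : ι → Module.Dual (ZMod 2) G) (W : Submodule (ZMod 2) G) (q : ℕ) (a : G) :
    YY e W q a ⊆ NN e W a := Finset.filter_subset _ _

/-- the typical characters -/
noncomputable def XX (e : ι → Module.Dual (ZMod 2) G) (W : Submodule (ZMod 2) G) (q : ℕ)
    (a : G) : Finset (Module.Dual (ZMod 2) W) := NN e W a \ YY e W q a

theorem XX_sub (e : ι → Module.Dual (ZMod 2) G) (W : Submodule (ZMod 2) G) (q : ℕ) (a : G) :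
    XX e W q a ⊆ NN e W a := Finset.sdiff_subset

theorem XX_card (e : ι → Module.Dual (ZMod 2) G) (W : Submodule (ZMod 2) G) (q : ℕ) (a : G) :
    (XX e W q a).card + (YY e W q a).card = (NN e W a).card :=
  Finset.card_sdiff_add_card_eq_card (YY_sub e W q a)

theorem csum_union (e : ι → Module.Dual (ZMod 2) G) (W : Submodule (ZMod 2) G) (q : ℕ) (a : G)
    (co : Module.Dual (ZMod 2) W → ℝ) (x : W) :
    csum (NN e W a) co x = csum (XX e W q a) co x + csum (YY e W q a) co x := by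
  unfold csum XX
  rw [Finset.sum_sdiff (YY_sub e W q a)]

/-- the typical characters have few relations -/
theorem typical_rels (e : ι → Module.Dual (ZMod 2) G) (W : Submodule (ZMod 2) G) (q : ℕ) (a : G)
    (P : ℕ) (hn : 1 ≤ Fintype.card ι) :
    rels (XX e W q a) 0 1 = ∅ ∧ rels (XX e W q a) 0 2 = ∅ ∧
    ∀ g ≤ P, ((rels (XX e W q a) 0 g).card : ℝ) ^ 3 ≤
      ((((4 ^ (P + 1) * (q + 1) ^ P) * P + 1 : ℕ) : ℝ) ^ (P * P)) ^ 3 *
        (Fintype.card ι : ℝ) ^ g := by
  apply rel_count (cap := cap q (res e W))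
  · exact dual_add_self
  · exact cap_zero q _
  · exact cap_add q _
  · intro ψ hψ
    unfold XX at hψ
    rw [Finset.mem_sdiff] at hψ
    by_contra h
    apply hψ.2
    unfold YY
    rw [Finset.mem_filter]
    exact ⟨hψ.1, Or.inl (not_lt.1 h)⟩
  · intro ψ hψ φ hφ hne
    unfold XX at hψ hφ
    rw [Finset.mem_sdiff] at hψ hφ
    by_contra h
    apply hψ.2
    unfold YY
    rw [Finset.mem_filter]
    exact ⟨hψ.1, Or.inr ⟨φ, hφ.1, hne.symm, not_lt.1 h⟩⟩
  · intro z 𝒢 hG hd hC
    have h1 := cap_disjoint q (res e W) (X := XX e W q a) (P := P)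
      (C := 4 ^ (P + 1) * (q + 1) ^ P) (fun ψ hψ => (mem_NN.1 (XX_sub e W q a hψ)).1)
      (Nat.succ_le_of_lt (by positivity)) z 𝒢
      (fun F hF => ⟨(hG F hF).1, (hG F hF).2.2.1, (hG F hF).2.2.2⟩) hd hC
    refine h1.trans (le_of_eq ?_)
    push_cast
    rw [div_eq_iff (by positivity), one_div, inv_pow]
    field_simp
  · refine (Finset.card_le_card (XX_sub e W q a)).trans (NN_card_le e W a)
  · exact hn
  · exact Nat.succ_le_of_lt (by positivity)

end prep

theorem inverse_cls {M ε c : ℝ} (hM : 1 ≤ M) (hε : 0 < ε) (hc : 0 < c) : ∃ n₀ : ℕ,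
    ∀ (G ι : Type) [AddCommGroup G] [Module (ZMod 2) G] [Fintype G] [Fintype ι]
      (e : ι → Module.Dual (ZMod 2) G), n₀ ≤ Fintype.card ι →
      ∃ W : Submodule (ZMod 2) G,
        (Module.finrank (ZMod 2) G : ℝ) ≤
          Module.finrank (ZMod 2) W + 2 / M * Fintype.card ι ∧
        (∀ ψ : Module.Dual (ZMod 2) W, ψ ≠ 0 → ((cls e W ψ).card : ℝ) ≤ M) ∧
        pr (fun a : G => ε * Fintype.card ι < (NN e W a).card ∧
          ∃ s : ℝ, c < pr (fun x : W => ∑ i, sg (e i (a + x)) = s)) ≤ c := by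
  obtain ⟨P, lam, hlam, hsb⟩ := small_ball (K := M) (ε := ε / 2) (c := c / 2) hM
    (by positivity) (by positivity)
  obtain ⟨q, hq⟩ := exists_nat_ge (max (8 * M / (c * (ε / 2)))
    (8 * M ^ 3 / (c * lam ^ 2 * (c / 2))))
  have hM0 : 0 < M := by linarith
  have hq1 : 8 * M / (c * (q + 1)) ≤ ε / 2 := by
    have h1 := (le_max_left _ _).trans hq
    rw [div_le_iff₀ (by positivity)] at h1
    rw [div_le_iff₀ (by positivity)]
    nlinarith [mul_pos hc hε]
  have hq2 : 8 * M ^ 3 / (c * (q + 1)) / lam ^ 2 ≤ c / 2 := by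
    have h1 := (le_max_right _ _).trans hq
    rw [div_le_iff₀ (by positivity)] at h1
    rw [div_div, div_le_iff₀ (by positivity)]
    have : 0 < c * lam ^ 2 * (c / 2) := by positivity
    nlinarith
  obtain ⟨n₀, hn₀⟩ := hsb
    (((((4 ^ (P + 1) * (q + 1) ^ P) * P + 1 : ℕ) : ℝ) ^ (P * P)) ^ 3)
  refine ⟨max n₀ 1, ?_⟩
  intro G ι _ _ _ _ e hn
  have hn1 : n₀ ≤ Fintype.card ι := (le_max_left _ _).trans hn
  have hn2 : 1 ≤ Fintype.card ι := (le_max_right _ _).trans hn
  have hnR : (0 : ℝ) < Fintype.card ι := by exact_mod_cast hn2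
  obtain ⟨W, hmin⟩ := exists_min e M
  refine ⟨W, ?_, ?_, ?_⟩
  · have h1 := min_codim hmin
    have h2 : (Module.finrank (ZMod 2) G : ℝ) - Module.finrank (ZMod 2) W ≤
        2 / M * Fintype.card ι := by
      rw [div_mul_eq_mul_div, le_div_iff₀ hM0]
      linarith
    linarith
  · intro ψ hψ
    exact min_class hM0.le hmin hψ
  · set t : ℝ := 8 * M / (c * (q + 1)) * Fintype.card ι with ht
    have ht0 : 0 < t := by positivity
    have hmk : pr (fun a : G => t ≤ ((YY e W q a).card : ℝ)) ≤ c := by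
      refine (pr_markov (fun a => Nat.cast_nonneg _) ht0).trans ?_
      rw [div_le_iff₀ ht0]
      refine (av_YY_le hM0.le hmin q).trans ?_
      have e1 : c * t = 8 * M * (Fintype.card ι : ℝ) / (q + 1) := by
        rw [ht]; field_simp
      rw [e1]
      apply div_le_div_of_nonneg_right _ (by positivity)
      nlinarith [mul_pos hM0 hnR]
    refine (pr_mono ?_).trans hmk
    rintro a ⟨ha, s, hs⟩
    by_contra hcon
    push Not at hcon
    refine absurd hs (not_lt.2 ?_)
    obtain ⟨s₀, hs₀⟩ := sum_split e W a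
    obtain ⟨r1, r2, r3⟩ := typical_rels e W q a P hn2
    have hXc : (XX e W q a).card ≤ Fintype.card ι :=
      (Finset.card_le_card (XX_sub e W q a)).trans (NN_card_le e W a)
    have hXl : ε / 2 * Fintype.card ι ≤ (XX e W q a).card := by
      have h1 : ((XX e W q a).card : ℝ) = (NN e W a).card - (YY e W q a).card := by
        rw [eq_sub_iff_add_eq]
        exact_mod_cast XX_card e W q a
      rw [h1]
      have h2 : t ≤ ε / 2 * Fintype.card ι := by
        rw [ht]
        exact mul_le_mul_of_nonneg_right hq1 hnR.le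
      linarith
    have key1 : pr (fun x : W => |csum (XX e W q a) (cc e W a) x - (s - s₀)| ≤
        lam * √(Fintype.card ι : ℝ)) ≤ c / 2 := by
      apply hn₀ (Fintype.card ι) hn1 W (XX e W q a) (cc e W a)
      · intro ψ hψ
        exact one_le_abs_cc (mem_NN.1 (XX_sub e W q a hψ)).2.2
      · intro ψ hψ
        exact (abs_cc_le e W a ψ).trans
          (min_class hM0.le hmin (mem_NN.1 (XX_sub e W q a hψ)).2.1)
      · exact hXc
      · exact hXl
      · exact r1
      · exact r2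
      · exact r3
    have key2 : pr (fun x : W => lam ^ 2 * (Fintype.card ι : ℝ) ≤
        csum (YY e W q a) (cc e W a) x ^ 2) ≤ c / 2 := by
      refine (pr_markov (fun x => sq_nonneg _) (by positivity)).trans ?_
      rw [av_csum_sq, div_le_iff₀ (by positivity)]
      have h1 : ∑ ψ ∈ YY e W q a, cc e W a ψ ^ 2 ≤ ∑ _ψ ∈ YY e W q a, M ^ 2 := by
        apply Finset.sum_le_sum
        intro ψ hψ
        rw [← sq_abs]
        apply pow_le_pow_left₀ (abs_nonneg _)
        exact (abs_cc_le e W a ψ).trans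
          (min_class hM0.le hmin (mem_NN.1 (YY_sub e W q a hψ)).2.1)
      rw [Finset.sum_const, nsmul_eq_mul] at h1
      refine h1.trans ?_
      have h2 : ((YY e W q a).card : ℝ) * M ^ 2 ≤ t * M ^ 2 :=
        mul_le_mul_of_nonneg_right hcon.le (by positivity)
      refine h2.trans ?_
      rw [div_le_iff₀ (by positivity)] at hq2
      have e1 : t * M ^ 2 = 8 * M ^ 3 / (c * (q + 1)) * Fintype.card ι := by
        rw [ht]; ring
      rw [e1]
      have := mul_le_mul_of_nonneg_right hq2 hnR.le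
      linarith
    have key3 : pr (fun x : W => ∑ i, sg (e i (a + x)) = s) ≤ c / 2 + c / 2 := by
      refine (pr_mono ?_).trans ((pr_or_le _ _).trans (add_le_add key1 key2))
      intro x hx
      by_cases h : |csum (XX e W q a) (cc e W a) x - (s - s₀)| ≤ lam * √(Fintype.card ι : ℝ)
      · exact Or.inl h
      · right
        push Not at h
        have h1 : csum (XX e W q a) (cc e W a) x - (s - s₀) = - csum (YY e W q a) (cc e W a) x := by
          have h2 := hs₀ x
          rw [hx, csum_union e W q a (cc e W a) x] at h2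
          linarith
        rw [h1, abs_neg] at h
        have h3 : 0 ≤ lam * √(Fintype.card ι : ℝ) := by positivity
        have h4 : (lam * √(Fintype.card ι : ℝ)) ^ 2 ≤
            |csum (YY e W q a) (cc e W a) x| ^ 2 := pow_le_pow_left₀ h3 h.le 2
        rw [sq_abs, mul_pow, Real.sq_sqrt hnR.le] at h4
        exact h4
    linarith

theorem inverse {ε c : ℝ} (hε : 0 < ε) (hc : 0 < c) : ∃ n₀ : ℕ,
    ∀ (G ι : Type) [AddCommGroup G] [Module (ZMod 2) G] [Fintype G] [Fintype ι]
      (e : ι → Module.Dual (ZMod 2) G), n₀ ≤ Fintype.card ι →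
      ∃ W : Submodule (ZMod 2) G,
        (Module.finrank (ZMod 2) G : ℝ) ≤ Module.finrank (ZMod 2) W + ε * Fintype.card ι ∧
        pr (fun a : G => ε * Fintype.card ι < (NN e W a).card ∧
          ∃ s : ℝ, c < pr (fun x : W => ∑ i, sg (e i (a + x)) = s)) ≤ c := by
  obtain ⟨n₀, h⟩ := inverse_cls (M := 2 / ε + 1) (by have : 0 < 2 / ε := by positivity
                                                     linarith) hε hc
  refine ⟨n₀, ?_⟩
  intro G ι _ _ _ _ e hn
  obtain ⟨W, h1, _, h3⟩ := h G ι e hn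
  refine ⟨W, h1.trans ?_, h3⟩
  have h4 : 2 / (2 / ε + 1) ≤ ε := by
    rw [div_le_iff₀ (by positivity)]
    have : ε * (2 / ε + 1) = 2 + ε := by field_simp
    linarith
  have := mul_le_mul_of_nonneg_right h4 (Nat.cast_nonneg (α := ℝ) (Fintype.card ι))
  linarith

end Pool.Agent.H47.ST
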