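import Pool.Agent.H47.ST.Glue
import Pool.Agent.H47.QG.Mod
import Pool.Agent.H47.QG.Sard
import Pool.Agent.H47.QG.EmL

/-!
# Local models with standard critical points
-/

set_option autoImplicit false

namespace Pool.Agent.H47.ST

open Filter Topology QuadraticForm
open Pool.Agent.H47.QG (sg neg hess LD)

variable {ι : Type*} [Fintype ι] [DecidableEq ι]

/-- From a perturbation with nondegenerate critical points to one with standard critical points. -/
theorem LD_std (f : (ι → ℝ) → ℝ) (hf : ContDiff ℝ 2 f) (z : ι → ℝ) (r : ℝ) (hr : 0 < r)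
    (g : (ι → ℝ) → ℝ) (X : Finset (ι → ℝ)) (h : LD f z r g X) :
    ∃ (k : (ι → ℝ) → ℝ) (c : (ι → ℝ) → ι → ℝ), ContDiff ℝ 1 k ∧
      (∀ y, y ∉ Metric.closedBall z (r / 2) → k y = f y) ∧
      (∀ y ∈ Metric.closedBall z r, fderiv ℝ k y = 0 ↔ y ∈ X) ∧
      ∀ x ∈ X, StdAt k x (c x) ∧ neg (c x) = sigNeg (hess g x) := by
  classical
  obtain ⟨ρ, hρ, hρX⟩ := Pool.Agent.H47.QG.EmL_radius {z} (fun _ => X) (r / 2)
    (fun z' hz' y hy => by rw [Finset.mem_singleton.1 hz']; exact h.mem y hy)
  have hsub : ∀ x ∈ X, Metric.closedBall x ρ ⊆ Metric.ball z (r / 2) := fun x hx =>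
    (hρX z (Finset.mem_singleton_self z) x hx).1
  have hdis : ∀ x ∈ X, ∀ y, y ∈ Metric.closedBall x ρ → ∀ x' ∈ X, y ∈ Metric.closedBall x' ρ →
      x' = x := by
    intro x hx y hy x' hx' hy'
    by_contra hne
    exact Set.disjoint_left.1 ((hρX z (Finset.mem_singleton_self z) x hx).2 x' hx' hne) hy hy'
  have hbig : Metric.ball z (r / 2) ⊆ Metric.closedBall z r :=
    (Metric.ball_subset_ball (by linarith)).trans Metric.ball_subset_closedBall
  have hmod : ∀ x : ι → ℝ, ∃ (K : (ι → ℝ) → ℝ) (c : ι → ℝ), x ∈ X → (ContDiff ℝ 1 K ∧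
      (∀ y, y ∉ Metric.closedBall x (ρ / 2) → K y = g y) ∧
      (∀ y ∈ Metric.closedBall x ρ, fderiv ℝ K y = 0 ↔ y = x) ∧
      (∀ i, c i ≠ 0) ∧ neg c = sigNeg (hess g x) ∧
      ∃ r' > 0, ∀ y, (∀ i, |y i - x i| < r') → K y = K x + ∑ i, c i * (y i - x i) ^ 2) := by
    intro x
    by_cases hx : x ∈ X
    · have h0 : fderiv ℝ g x = 0 := (h.crit x (hbig (h.mem x hx))).2 hx
      have hu : ∀ y ∈ Metric.closedBall x ρ, fderiv ℝ g y = 0 → y = x := by
        intro y hy hy0
        have h1 : y ∈ X := (h.crit y (hbig (hsub x hx hy))).1 hy0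
        exact hdis x hx y hy y h1 (Metric.mem_closedBall_self hρ.le)
      obtain ⟨K, c, hK⟩ := Pool.Agent.H47.QG.modify g h.smooth x ρ hρ h0 hu (h.nd x hx)
      exact ⟨K, c, fun _ => hK⟩
    · exact ⟨0, 0, fun h1 => absurd h1 hx⟩
  choose K c hK using hmod
  have hhalf : ∀ x : ι → ℝ, Metric.closedBall x (ρ / 2) ⊆ Metric.ball x ρ := fun x =>
    Metric.closedBall_subset_ball (by linarith)
  set k : (ι → ℝ) → ℝ := fun y => g y + ∑ x ∈ X, (K x y - g y) with hk
  -- outside the small balls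
  have hout : ∀ y, (∀ x ∈ X, y ∉ Metric.closedBall x (ρ / 2)) → k y = g y := by
    intro y hy
    rw [hk]
    show g y + ∑ x ∈ X, (K x y - g y) = g y
    rw [Finset.sum_eq_zero, add_zero]
    intro x hx
    rw [(hK x hx).2.1 y (hy x hx), sub_self]
  -- inside
  have hin : ∀ x ∈ X, ∀ y ∈ Metric.closedBall x ρ, k y = K x y := by
    intro x hx y hy
    rw [hk]
    show g y + ∑ x ∈ X, (K x y - g y) = K x y
    rw [Finset.sum_eq_single x]
    · ring
    · intro x' hx' hne
      rw [(hK x' hx').2.1 y, sub_self]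
      intro hy'
      exact hne (hdis x hx y hy x' hx' (Metric.ball_subset_closedBall (hhalf x' hy')))
    · intro hx'
      exact absurd hx hx'
  refine ⟨k, c, ?_, ?_, ?_, ?_⟩
  · have hg1 : ContDiff ℝ 1 g := h.smooth.of_le one_le_two
    exact hg1.add (ContDiff.sum fun x hx => (hK x hx).1.sub hg1)
  · intro y hy
    rw [hout y, h.eq y hy]
    intro x hx hy'
    exact hy (Metric.ball_subset_closedBall
      (hsub x hx (Metric.ball_subset_closedBall (hhalf x hy'))))
  · intro y hy
    by_cases hex : ∃ x ∈ X, y ∈ Metric.ball x ρ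
    · obtain ⟨x, hx, hyx⟩ := hex
      have hev : k =ᶠ[𝓝 y] K x := by
        filter_upwards [Metric.isOpen_ball.mem_nhds hyx] with u hu
        exact hin x hx u (Metric.ball_subset_closedBall hu)
      rw [hev.fderiv_eq, (hK x hx).2.2.1 y (Metric.ball_subset_closedBall hyx)]
      constructor
      · rintro rfl
        exact hx
      · intro hyX
        exact hdis x hx y (Metric.ball_subset_closedBall hyx) y hyX (Metric.mem_closedBall_self hρ.le)
    · push Not at hex
      have hev : k =ᶠ[𝓝 y] g := by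
        have h1 : ∀ᶠ u in 𝓝 y, ∀ x ∈ X, u ∉ Metric.closedBall x (ρ / 2) := by
          rw [Filter.eventually_all_finset]
          intro x hx
          exact Metric.isClosed_closedBall.isOpen_compl.mem_nhds
            (fun hy' => hex x hx (hhalf x hy'))
        filter_upwards [h1] with u hu
        exact hout u hu
      rw [hev.fderiv_eq]
      exact h.crit y hy
  · intro x hx
    obtain ⟨_, _, _, hc, hneg, r', hr', hst⟩ := hK x hx
    refine ⟨⟨hc, min r' ρ, lt_min hr' hρ, fun y hy => ?_⟩, hneg⟩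
    have hyb : y ∈ Metric.closedBall x ρ := by
      rw [Metric.mem_closedBall, dist_pi_le_iff hρ.le]
      intro i
      rw [Real.dist_eq]
      exact ((hy i).trans_le (min_le_right _ _)).le
    rw [hin x hx y hyb, hin x hx x (Metric.mem_closedBall_self hρ.le)]
    exact hst y fun i => (hy i).trans_le (min_le_left _ _)

end Pool.Agent.H47.ST
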