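import Pool.Agent.H47.ST.CellA

/-!
# Matching lemma
-/

set_option autoImplicit false

namespace Pool.Agent.H47.ST

variable {ι : Type*} [Fintype ι] {F : Type*} [Field F]

/-- functions supported on the sets with the property `S` with `j` elements -/
def su (F : Type*) [Field F] (S : Finset (ι → ℤ) → Prop) (j : ℕ) : Submodule F (Co ι F) where
  carrier := {c | ∀ σ, c σ ≠ 0 → S σ ∧ σ.card = j}
  zero_mem' := fun _ h => absurd rfl h
  add_mem' := by
    rintro a b ha hb σ h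
    by_cases h1 : a σ = 0
    · refine hb σ fun h2 => h ?_
      rw [Pi.add_apply, h1, h2, add_zero]
    · exact ha σ h1
  smul_mem' := by
    rintro t a ha σ h
    refine ha σ fun h2 => h ?_
    rw [Pi.smul_apply, h2, smul_zero]

/-- the coboundary on the sets with the property `S` -/
noncomputable def dS (S : Finset (ι → ℤ) → Prop) : Co ι F →ₗ[F] Co ι F := (cut S).comp dd

open Classical in
theorem dS_apply (S : Finset (ι → ℤ) → Prop) (c : Co ι F) (σ : Finset (ι → ℤ)) :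
    dS S c σ = if S σ then ∑ v ∈ σ, sgn F σ v * c (σ.erase v) else 0 := rfl

/-- Rank at most `r` of the cohomology of `S` in dimension `j`. -/
def EX (F : Type*) [Field F] (S : Finset (ι → ℤ) → Prop) (j r : ℕ) : Prop :=
  RK (dS S) (dS S) (su F S j) (su F S (j + 1)) ⊥ ⊥ r

theorem dS_dS (S : Finset (ι → ℤ) → Prop) (hS : ∀ σ, S σ → Simp σ)
    (hconv : ∀ σ τ ρ : Finset (ι → ℤ), σ ⊆ τ → τ ⊆ ρ → S σ → S ρ → S τ) (c : Co ι F)
    (hc : ∀ σ, c σ ≠ 0 → S σ) : dS S (dS S c) = 0 := by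
  classical
  ext σ
  rw [dS_apply]
  split_ifs with h
  · have hs := hS σ h
    have hIn : In (Set.univ : Set (ι → ℤ)) σ := ⟨hs, fun v _ => Set.mem_univ v⟩
    have h0 := congrFun (dX_dX (F := F) (Set.univ : Set (ι → ℤ)) c) σ
    rw [dX_apply, if_pos hIn] at h0
    rw [← h0]
    refine Finset.sum_congr rfl fun v hv => ?_
    rw [dX_apply, if_pos (CellA_In_erase hIn v), dS_apply]
    split_ifs with h1
    · rfl
    · congr 1
      refine (Finset.sum_eq_zero fun w hw => ?_).symm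
      by_cases h2 : c ((σ.erase v).erase w) = 0
      · rw [h2, mul_zero]
      · exact absurd (hconv _ _ _ (Finset.erase_subset w (σ.erase v)) (Finset.erase_subset v σ)
          (hc _ h2) h) h1
  · rfl

theorem Match_sgn_ne (σ : Finset (ι → ℤ)) (v : ι → ℤ) : sgn F σ v ≠ 0 := by
  unfold sgn
  exact pow_ne_zero _ (neg_ne_zero.2 one_ne_zero)

theorem Match_rec {A B W : Type*} [Preorder W] [WellFoundedLT W] (μ : A → W)
    (G : (a : A) → ((b : A) → μ b < μ a → B) → B) :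
    ∃ y : A → B, ∀ a, y a = G a (fun b _ => y b) :=
  ⟨(InvImage.wf μ wellFounded_lt).fix G, fun _ => WellFounded.fix_eq _ _ _⟩

theorem Match_dS_mem (S : Finset (ι → ℤ) → Prop) (j : ℕ) {y : Co ι F} (hy : y ∈ su F S j) :
    dS S y ∈ su F S (j + 1) := by
  classical
  intro σ h
  rw [dS_apply] at h
  have hσ : S σ := by
    by_contra h'
    exact h (if_neg h')
  rw [if_pos hσ] at h
  obtain ⟨v, hv, hv'⟩ := Finset.exists_ne_zero_of_sum_ne_zero h
  have h3 := (hy _ (right_ne_zero_of_mul hv')).2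
  exact ⟨hσ, by rw [← Finset.card_erase_add_one hv, h3]⟩

/-- the value of the coboundary on a cell `insert t σ` -/
theorem Match_dS_insert (S : Finset (ι → ℤ) → Prop) (c : Co ι F) {σ : Finset (ι → ℤ)}
    {t : ι → ℤ} (ht : t ∉ σ) (hS : S (insert t σ)) :
    dS S c (insert t σ) = sgn F (insert t σ) t * c σ +
      ∑ w ∈ σ, sgn F (insert t σ) w * c ((insert t σ).erase w) := by
  classical
  rw [dS_apply, if_pos hS, Finset.sum_insert ht, Finset.erase_insert ht]

/-- the cochains which vanish on the cells which contain their vertex `t` -/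
def Match_B (F : Type*) [Field F] (S cr : Finset (ι → ℤ) → Prop)
    (t : Finset (ι → ℤ) → (ι → ℤ)) (j : ℕ) : Submodule F (Co ι F) where
  carrier := {c | c ∈ su F S j ∧ ∀ τ, S τ → ¬ cr τ → t τ ∈ τ → c τ = 0}
  zero_mem' := ⟨Submodule.zero_mem _, fun _ _ _ _ => rfl⟩
  add_mem' := by
    rintro a b ⟨ha, ha'⟩ ⟨hb, hb'⟩
    refine ⟨Submodule.add_mem _ ha hb, fun τ h1 h2 h3 => ?_⟩
    rw [Pi.add_apply, ha' τ h1 h2 h3, hb' τ h1 h2 h3, add_zero]
  smul_mem' := by
    rintro s a ⟨ha, ha'⟩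
    refine ⟨Submodule.smul_mem _ s ha, fun τ h1 h2 h3 => ?_⟩
    rw [Pi.smul_apply, ha' τ h1 h2 h3, smul_zero]

/-- first step: make the cochain vanish on the cells which contain their vertex `t` -/
theorem Match_step1 (S : Finset (ι → ℤ) → Prop)
    (cr : Finset (ι → ℤ) → Prop) (t : Finset (ι → ℤ) → (ι → ℤ))
    (h1 : ∀ σ, S σ → ¬ cr σ →
      (S (insert (t σ) σ) ∧ ¬ cr (insert (t σ) σ) ∧ t (insert (t σ) σ) = t σ) ∧
      (S (σ.erase (t σ)) ∧ ¬ cr (σ.erase (t σ)) ∧ t (σ.erase (t σ)) = t σ))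
    {W : Type*} [Preorder W] [WellFoundedLT W] (μ : Finset (ι → ℤ) → W)
    (h2 : ∀ σ, S σ → ¬ cr σ → t σ ∉ σ → ∀ w ∈ σ, S ((insert (t σ) σ).erase w) →
      ¬ cr ((insert (t σ) σ).erase w) →
      t ((insert (t σ) σ).erase w) ∉ (insert (t σ) σ).erase w →
      μ ((insert (t σ) σ).erase w) < μ σ)
    (j : ℕ) {x : Co ι F} (hx : x ∈ su F S (j + 1)) :
    ∃ y ∈ su F S j, x - dS S y ∈ Match_B F S cr t (j + 1) := by
  classical
  set N : Finset (ι → ℤ) → Prop := fun σ => S σ ∧ ¬ cr σ ∧ t σ ∉ σ ∧ σ.card = j with hN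
  obtain ⟨y, hy⟩ := Match_rec (B := F) μ (fun σ rec => if N σ then
    (sgn F (insert (t σ) σ) (t σ))⁻¹ * (x (insert (t σ) σ) - ∑ w ∈ σ,
      sgn F (insert (t σ) σ) w * (if h : μ ((insert (t σ) σ).erase w) < μ σ ∧
        N ((insert (t σ) σ).erase w) then rec _ h.1 else 0)) else 0)
  have hy0 : ∀ σ, ¬ N σ → y σ = 0 := fun σ h => by rw [hy σ, if_neg h]
  have hysu : y ∈ su F S j := by
    intro σ h
    have h3 : N σ := by
      by_contra h'
      exact h (hy0 σ h')
    exact ⟨h3.1, h3.2.2.2⟩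
  refine ⟨y, hysu, Submodule.sub_mem _ hx (Match_dS_mem S j hysu), fun τ hτ hcr hmem => ?_⟩
  by_cases hcard : τ.card = j + 1
  · obtain ⟨-, hS', hcr', ht'⟩ := h1 τ hτ hcr
    set σ := τ.erase (t τ) with hσ
    have hins : insert (t σ) σ = τ := by rw [ht', hσ, Finset.insert_erase hmem]
    have htn : t σ ∉ σ := by rw [ht', hσ]; exact Finset.notMem_erase _ _
    have hNσ : N σ := by
      refine ⟨hS', hcr', htn, ?_⟩
      rw [hσ, Finset.card_erase_of_mem hmem, hcard, Nat.add_sub_cancel]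
    have hval := hy σ
    rw [if_pos hNσ] at hval
    have hsum : ∑ w ∈ σ, sgn F (insert (t σ) σ) w * (if h : μ ((insert (t σ) σ).erase w) < μ σ ∧
        N ((insert (t σ) σ).erase w) then y ((insert (t σ) σ).erase w) else 0) =
        ∑ w ∈ σ, sgn F (insert (t σ) σ) w * y ((insert (t σ) σ).erase w) := by
      refine Finset.sum_congr rfl fun w hw => ?_
      by_cases h4 : N ((insert (t σ) σ).erase w)
      · have h5 := h2 σ hS' hcr' htn w hw h4.1 h4.2.1 h4.2.2.1
        rw [dif_pos ⟨h5, h4⟩]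
      · rw [dif_neg (fun h => h4 h.2), hy0 _ h4]
    rw [hsum] at hval
    have hd := Match_dS_insert S y htn (by rw [hins]; exact hτ)
    rw [hval, ← mul_assoc, mul_inv_cancel₀ (Match_sgn_ne _ _), one_mul, sub_add_cancel, hins] at hd
    rw [Pi.sub_apply, hd, sub_self]
  · have hz : (x - dS S y) ∈ su F S (j + 1) := Submodule.sub_mem _ hx (Match_dS_mem S j hysu)
    by_contra h
    exact hcard (hz τ h).2

/-- second step: a cocycle which vanishes on the critical cells and on the cells which contain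
their vertex `t` is zero -/
theorem Match_step2 (S : Finset (ι → ℤ) → Prop)
    (cr : Finset (ι → ℤ) → Prop) (t : Finset (ι → ℤ) → (ι → ℤ))
    (h1 : ∀ σ, S σ → ¬ cr σ →
      (S (insert (t σ) σ) ∧ ¬ cr (insert (t σ) σ) ∧ t (insert (t σ) σ) = t σ) ∧
      (S (σ.erase (t σ)) ∧ ¬ cr (σ.erase (t σ)) ∧ t (σ.erase (t σ)) = t σ))
    {W : Type*} [Preorder W] [WellFoundedLT W] (μ : Finset (ι → ℤ) → W)
    (h2 : ∀ σ, S σ → ¬ cr σ → t σ ∉ σ → ∀ w ∈ σ, S ((insert (t σ) σ).erase w) →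
      ¬ cr ((insert (t σ) σ).erase w) →
      t ((insert (t σ) σ).erase w) ∉ (insert (t σ) σ).erase w →
      μ ((insert (t σ) σ).erase w) < μ σ)
    (j : ℕ) {x : Co ι F} (hx : x ∈ Match_B F S cr t j) (hd : dS S x = 0)
    (hcr : ∀ σ, S σ → cr σ → σ.card = j → x σ = 0) : x = 0 := by
  classical
  have key : ∀ σ, x σ = 0 := by
    intro σ
    refine (InvImage.wf μ wellFounded_lt).induction (C := fun σ => x σ = 0) σ fun σ ih => ?_
    by_contra hne
    obtain ⟨hSσ, hcard⟩ := hx.1 σ hne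
    have hncr : ¬ cr σ := fun h => hne (hcr σ hSσ h hcard)
    have htn : t σ ∉ σ := fun h => hne (hx.2 σ hSσ hncr h)
    have hd' := Match_dS_insert S x htn (h1 σ hSσ hncr).1.1
    rw [hd, Pi.zero_apply, Finset.sum_eq_zero, add_zero] at hd'
    · exact hne ((mul_eq_zero.1 hd'.symm).resolve_left (Match_sgn_ne _ _))
    · intro w hw
      have h0 : x ((insert (t σ) σ).erase w) = 0 := by
        by_contra hne'
        obtain ⟨hS', hcard'⟩ := hx.1 _ hne'
        have hncr' : ¬ cr ((insert (t σ) σ).erase w) := fun h => hne' (hcr _ hS' h hcard')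
        have htn' : t ((insert (t σ) σ).erase w) ∉ (insert (t σ) σ).erase w :=
          fun h => hne' (hx.2 _ hS' hncr' h)
        exact hne' (ih _ (h2 σ hSσ hncr htn w hw hS' hncr' htn'))
      rw [h0, mul_zero]
  funext σ
  exact key σ

/-- **Matching lemma.** The cohomology of `S` in dimension `j` has rank at most the number of
unmatched cells of dimension `j`. -/
theorem matching (S : Finset (ι → ℤ) → Prop) (hS : ∀ σ, S σ → Simp σ)
    (hconv : ∀ σ τ ρ : Finset (ι → ℤ), σ ⊆ τ → τ ⊆ ρ → S σ → S ρ → S τ)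
    (cr : Finset (ι → ℤ) → Prop) (t : Finset (ι → ℤ) → (ι → ℤ))
    (h1 : ∀ σ, S σ → ¬ cr σ →
      (S (insert (t σ) σ) ∧ ¬ cr (insert (t σ) σ) ∧ t (insert (t σ) σ) = t σ) ∧
      (S (σ.erase (t σ)) ∧ ¬ cr (σ.erase (t σ)) ∧ t (σ.erase (t σ)) = t σ))
    {W : Type*} [Preorder W] [WellFoundedLT W] (μ : Finset (ι → ℤ) → W)
    (h2 : ∀ σ, S σ → ¬ cr σ → t σ ∉ σ → ∀ w ∈ σ, S ((insert (t σ) σ).erase w) →
      ¬ cr ((insert (t σ) σ).erase w) →
      t ((insert (t σ) σ).erase w) ∉ (insert (t σ) σ).erase w →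
      μ ((insert (t σ) σ).erase w) < μ σ)
    (j : ℕ) (C : Finset (Finset (ι → ℤ))) (hC : ∀ σ, S σ → cr σ → σ.card = j + 1 → σ ∈ C) :
    EX F S j C.card := by
  have hA : RK (dS S) (dS S) (su F S j) (su F S (j + 1)) (Match_B F S cr t (j + 1)) ⊥ 0 :=
    RK_zero.2 fun x hx _ => Match_step1 S cr t h1 μ h2 j hx
  have hB : RK (dS S) (dS S) (⊥ : Submodule F (Co ι F)) (Match_B F S cr t (j + 1)) ⊥ ⊥
      C.card := by
    refine RKa_fin (G := C → F) (by simp) (LinearMap.pi fun σ => LinearMap.proj σ.1)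
      fun x hx hd h0 => ⟨0, Submodule.zero_mem _, ?_⟩
    have hx0 : x = 0 := by
      refine Match_step2 S cr t h1 μ h2 (j + 1) hx ((Submodule.mem_bot F).1 hd) ?_
      intro σ hs hc hcard
      exact congrFun h0 ⟨σ, hC σ hs hc hcard⟩
    rw [hx0, map_zero, sub_zero]
    exact Submodule.zero_mem _
  have h := hA.trans hB le_rfl bot_le (fun y hy => by
    rw [dS_dS S hS hconv y (fun σ h => (hy σ h).1)]
    exact Submodule.zero_mem _)
  rw [zero_add] at h
  exact h

end Pool.Agent.H47.ST
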