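import Mathlib

/-!
# Relative cohomology of bounded rank
-/

set_option autoImplicit false

namespace Pool.Agent.H47.ST

variable {F E : Type*} [Field F] [AddCommGroup E] [Module F E]

/-- Relative cocycles `x ∈ B1`, `d₂ x ∈ A2` are relative coboundaries `x - d₁ y ∈ A1`, `y ∈ B0`, up
to `r` linear conditions. -/
def RK (d₁ d₂ : E →ₗ[F] E) (B0 B1 A1 A2 : Submodule F E) (r : ℕ) : Prop :=
  ∃ ℓ : E →ₗ[F] (Fin r → F), ∀ x ∈ B1, d₂ x ∈ A2 → ℓ x = 0 → ∃ y ∈ B0, x - d₁ y ∈ A1

/-- the preceding term of a sequence of submodules -/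
def pr (B : ℕ → Submodule F E) : ℕ → Submodule F E
  | 0 => ⊥
  | j + 1 => B j

/-- Rank at most `r` of the relative cohomology of the graded modules `A ≤ B` in degree `j`. -/
def HK (d : E →ₗ[F] E) (B A : ℕ → Submodule F E) (j r : ℕ) : Prop :=
  RK d d (pr B j) (B j) (A j) (A (j + 1)) r

/-- sequences with `x j ∈ B j` -/
def sq (B : ℕ → Submodule F E) : Submodule F (ℕ → E) := Submodule.pi Set.univ B

/-- `τ` or `ν`, according to the parity of `m` -/
def the (τ ν : E →ₗ[F] E) (m : ℕ) : E →ₗ[F] E := if Even m then τ else ν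

/-- the differentials of the Tate total complex: `(del k x) j = d (x (j-1)) + (-1)^j θ (x j)`,
`θ = τ` if `k + j` is even and `θ = ν` if `k + j` is odd -/
noncomputable def del (d τ ν : E →ₗ[F] E) (k : ℕ) : (ℕ → E) →ₗ[F] (ℕ → E) where
  toFun x j := (match j with
    | 0 => 0
    | j + 1 => d (x j)) + (-1 : F) ^ j • the τ ν (k + j) (x j)
  map_add' x y := by
    ext j
    cases j with
    | zero => simp only [Pi.add_apply, map_add, smul_add]; abel
    | succ j => simp only [Pi.add_apply, map_add, smul_add]; abel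
  map_smul' a x := by
    ext j
    cases j with
    | zero =>
      simp only [Pi.smul_apply, map_smul, RingHom.id_apply, smul_add, smul_zero]
      rw [smul_comm]
    | succ j =>
      simp only [Pi.smul_apply, map_smul, RingHom.id_apply, smul_add]
      rw [smul_comm]

theorem del_zero (d τ ν : E →ₗ[F] E) (k : ℕ) (x : ℕ → E) :
    del d τ ν k x 0 = the τ ν k (x 0) := by
  simp [del]

theorem del_succ (d τ ν : E →ₗ[F] E) (k : ℕ) (x : ℕ → E) (j : ℕ) :
    del d τ ν k x (j + 1) = d (x j) +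
      (-1 : F) ^ (j + 1) • the τ ν (k + (j + 1)) (x (j + 1)) := rfl

/-- Rank at most `r` of the relative cohomology of the Tate total complex. -/
def TK (d τ ν : E →ₗ[F] E) (k : ℕ) (B A : ℕ → Submodule F E) (r : ℕ) : Prop :=
  RK (del d τ ν (k + 1)) (del d τ ν k) (sq B) (sq B) (sq A) (sq A) r

/-- compatibility of the operators -/
structure Ops (d τ ν : E →ₗ[F] E) : Prop where
  dd : ∀ x, d (d x) = 0
  dt : ∀ x, d (τ x) = τ (d x)
  dn : ∀ x, d (ν x) = ν (d x)
  tn : ∀ x, τ (ν x) = 0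
  nt : ∀ x, ν (τ x) = 0

/-- a graded submodule stable under the operators -/
structure Sub (d τ ν : E →ₗ[F] E) (B : ℕ → Submodule F E) : Prop where
  d : ∀ j, ∀ x ∈ B j, d x ∈ B (j + 1)
  t : ∀ j, ∀ x ∈ B j, τ x ∈ B j
  n : ∀ j, ∀ x ∈ B j, ν x ∈ B j

end Pool.Agent.H47.ST
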