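import Pool.Agent.H47.ST.Defs

/-! Project ST: the probability of being captured by a random set. -/

namespace Pool.Agent.H47.ST

open Finset Pool.Agent.H46.SR
open scoped Classical

variable {W ι : Type*} [AddCommGroup W] [Module (ZMod 2) W] [Fintype ι]

theorem RS_pr_true {Ω : Type*} [Fintype Ω] [Nonempty Ω] {p : Ω → Prop} (h : ∀ ω, p ω) :
    pr p = 1 := by
  unfold pr
  refine Eq.trans (av_congr (g := fun _ => (1 : ℝ)) ?_) (av_const (Ω := Ω) 1)
  intro ω
  rw [if_pos (h ω)]

theorem cap_zero (q : ℕ) (E : ι → Module.Dual (ZMod 2) W) : cap q E 0 = 1 := by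
  unfold cap
  apply RS_pr_true
  intro f x _
  rfl

theorem RS_one_sub_cap (q : ℕ) (E : ι → Module.Dual (ZMod 2) W) (a : Module.Dual (ZMod 2) W) :
    1 - cap q E a = pr (fun f : ι → Fin (q + 1) => ¬ Capt E f a) := by
  rw [pr_not]
  rfl

theorem cap_add (q : ℕ) (E : ι → Module.Dual (ZMod 2) W) (a b : Module.Dual (ZMod 2) W) :
    1 - cap q E (a + b) ≤ (1 - cap q E a) + (1 - cap q E b) := by
  rw [RS_one_sub_cap, RS_one_sub_cap, RS_one_sub_cap]
  refine (pr_mono ?_).trans (pr_or_le _ _)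
  intro f hf
  by_contra hc
  push Not at hc
  apply hf
  intro x hx
  rw [LinearMap.add_apply, hc.1 x hx, hc.2 x hx, add_zero]

theorem RS_one (q : ℕ) :
    av (fun b : Fin (q + 1) => if b = 0 then (1 : ℝ) else 0) = 1 / (q + 1 : ℝ) := by
  unfold av
  rw [Finset.sum_ite_eq' Finset.univ (0 : Fin (q + 1)) (fun _ => (1 : ℝ)), Fintype.card_fin]
  simp

theorem RS_pr_eq {Ω : Type*} [Fintype Ω] {p : Ω → Prop} {A : Ω → ℝ}
    (h1 : ∀ ω, p ω → A ω = 1) (h0 : ∀ ω, ¬ p ω → A ω = 0) : pr p = av A := by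
  unfold pr
  apply av_congr
  intro ω
  by_cases h : p ω
  · rw [if_pos h, h1 ω h]
  · rw [if_neg h, h0 ω h]

/-- probability that `f = 0` on a given set -/
theorem pr_zero_on (q : ℕ) (T : Finset ι) :
    pr (fun f : ι → Fin (q + 1) => ∀ i ∈ T, f i = 0) = (1 / (q + 1 : ℝ)) ^ T.card := by
  have h1 : pr (fun f : ι → Fin (q + 1) => ∀ i ∈ T, f i = 0) =
      av (fun f : ι → Fin (q + 1) => ∏ i, (fun (i : ι) (b : Fin (q + 1)) =>
        if i ∈ T then (if b = 0 then (1 : ℝ) else 0) else 1) i (f i)) := by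
    apply RS_pr_eq
    · intro f h
      apply Finset.prod_eq_one
      intro i _
      by_cases hi : i ∈ T
      · simp [hi, h i hi]
      · simp [hi]
    · intro f h
      push Not at h
      obtain ⟨i, hi, hfi⟩ := h
      apply Finset.prod_eq_zero (Finset.mem_univ i)
      simp [hi, hfi]
  rw [h1]
  refine (av_pi_prod (fun (i : ι) (b : Fin (q + 1)) =>
        if i ∈ T then (if b = 0 then (1 : ℝ) else 0) else 1)).trans ?_
  have h2 : ∀ i : ι, av ((fun (i : ι) (b : Fin (q + 1)) =>
      if i ∈ T then (if b = 0 then (1 : ℝ) else 0) else 1) i) =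
      if i ∈ T then 1 / (q + 1 : ℝ) else 1 := by
    intro i
    by_cases hi : i ∈ T
    · simp only [hi, if_true]
      exact RS_one q
    · simp only [hi, if_false]
      exact av_const _
  rw [Finset.prod_congr rfl (fun i _ => h2 i), Finset.prod_ite_mem, Finset.univ_inter,
    Finset.prod_const]

/-- mean of the size of the random set -/
theorem av_card_zero (q : ℕ) :
    av (fun f : ι → Fin (q + 1) => ((univ.filter (fun i => f i = 0)).card : ℝ)) =
      (Fintype.card ι : ℝ) / (q + 1) := by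
  have h1 : ∀ f : ι → Fin (q + 1), ((univ.filter (fun i => f i = 0)).card : ℝ) =
      ∑ i : ι, (fun (i : ι) (f : ι → Fin (q + 1)) => if f i = 0 then (1 : ℝ) else 0) i f := by
    intro f
    rw [Finset.card_filter]
    push_cast
    rfl
  rw [av_congr h1, av_sum]
  have h2 : ∀ i : ι, av ((fun (i : ι) (f : ι → Fin (q + 1)) =>
      if f i = 0 then (1 : ℝ) else 0) i) = 1 / (q + 1 : ℝ) := by
    intro i
    have h3 := pr_zero_on q ({i} : Finset ι)
    rw [Finset.card_singleton, pow_one] at h3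
    rw [← h3]
    symm
    apply RS_pr_eq
    · intro f h
      exact if_pos (h i (Finset.mem_singleton_self i))
    · intro f h
      apply if_neg
      intro h4
      apply h
      intro j hj
      rw [Finset.mem_singleton] at hj
      rw [hj, h4]
  rw [Finset.sum_congr rfl (fun i _ => h2 i), Finset.sum_const, nsmul_eq_mul, Finset.card_univ]
  ring

/-- second moment method for events `f = 0 on T a` with disjoint sets `T a` -/
theorem RS_cheb (q : ℕ) {β : Type*} (𝒢 : Finset β) (T : β → Finset ι) {P C : ℕ} (hC1 : 1 ≤ C)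
    (hP : ∀ F ∈ 𝒢, (T F).card ≤ P)
    (hd : ∀ F ∈ 𝒢, ∀ F' ∈ 𝒢, F ≠ F' → Disjoint (T F) (T F')) (hC : C ≤ 𝒢.card) :
    pr (fun f : ι → Fin (q + 1) => ∀ F ∈ 𝒢, ¬ ∀ i ∈ T F, f i = 0) ≤ ((q : ℝ) + 1) ^ P / C := by
  set A : β → (ι → Fin (q + 1)) → ℝ := fun F f => if ∀ i ∈ T F, f i = 0 then 1 else 0 with hA
  set Z : (ι → Fin (q + 1)) → ℝ := fun f => ∑ F ∈ 𝒢, A F f with hZ
  set u : ℝ := 1 / (q + 1 : ℝ) with hu
  have hq : (0 : ℝ) < (q : ℝ) + 1 := by positivity
  have hu0 : 0 < u := by positivity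
  have hu1 : u ≤ 1 := by
    rw [hu, div_le_one hq]
    have : (0 : ℝ) ≤ q := Nat.cast_nonneg _
    linarith
  have hAv : ∀ F, av (A F) = u ^ (T F).card := by
    intro F
    rw [hu, ← pr_zero_on q (T F)]
    symm
    apply RS_pr_eq
    · intro f h
      exact if_pos h
    · intro f h
      exact if_neg h
  set μ : ℝ := ∑ F ∈ 𝒢, u ^ (T F).card with hμ
  have hZv : av Z = μ := by
    rw [hZ, av_sum, hμ]
    exact Finset.sum_congr rfl (fun F _ => hAv F)
  have hμC : (C : ℝ) * u ^ P ≤ μ := by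
    rw [hμ]
    calc (C : ℝ) * u ^ P ≤ (𝒢.card : ℝ) * u ^ P := by
          apply mul_le_mul_of_nonneg_right _ (by positivity)
          exact_mod_cast hC
      _ = ∑ _F ∈ 𝒢, u ^ P := by rw [Finset.sum_const, nsmul_eq_mul]
      _ ≤ ∑ F ∈ 𝒢, u ^ (T F).card := by
          apply Finset.sum_le_sum
          intro F hF
          exact pow_le_pow_of_le_one hu0.le hu1 (hP F hF)
  have hC0 : (0 : ℝ) < C := by exact_mod_cast hC1
  have hμ0 : 0 < μ := lt_of_lt_of_le (by positivity) hμC
  -- second moment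
  have hpair : ∀ F ∈ 𝒢, ∀ F' ∈ 𝒢, av (fun f => A F f * A F' f) ≤
      u ^ (T F).card * u ^ (T F').card + (if F = F' then u ^ (T F).card else 0) := by
    intro F hF F' hF'
    by_cases hFF : F = F'
    · subst hFF
      rw [if_pos rfl]
      have h1 : av (fun f => A F f * A F f) = av (A F) := by
        apply av_congr
        intro f
        simp only [hA]
        split_ifs <;> norm_num
      rw [h1, hAv]
      have : 0 ≤ u ^ (T F).card * u ^ (T F).card := by positivity
      linarith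
    · rw [if_neg hFF, add_zero]
      have h1 : av (fun f => A F f * A F' f) =
          pr (fun f : ι → Fin (q + 1) => ∀ i ∈ T F ∪ T F', f i = 0) := by
        symm
        apply RS_pr_eq
        · intro f h
          simp only [hA]
          rw [if_pos (fun i hi => h i (Finset.mem_union_left _ hi)),
            if_pos (fun i hi => h i (Finset.mem_union_right _ hi)), one_mul]
        · intro f h
          simp only [hA]
          by_cases h1 : ∀ i ∈ T F, f i = 0
          · by_cases h2 : ∀ i ∈ T F', f i = 0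
            · exfalso
              apply h
              intro i hi
              rw [Finset.mem_union] at hi
              rcases hi with hi | hi
              · exact h1 i hi
              · exact h2 i hi
            · rw [if_neg h2, mul_zero]
          · rw [if_neg h1, zero_mul]
      rw [h1, pr_zero_on, Finset.card_union_of_disjoint (hd F hF F' hF' hFF), pow_add]
  have hZ2 : av (fun f => Z f * Z f) ≤ μ * μ + μ := by
    have h1 : ∀ f, Z f * Z f = ∑ F ∈ 𝒢, ∑ F' ∈ 𝒢, A F f * A F' f := by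
      intro f
      simp only [hZ]
      rw [Finset.sum_mul_sum]
    rw [av_congr h1, av_sum]
    have h2 : ∀ F ∈ 𝒢, av (fun f => ∑ F' ∈ 𝒢, A F f * A F' f) ≤
        u ^ (T F).card * μ + u ^ (T F).card := by
      intro F hF
      rw [av_sum 𝒢 (fun F' f => A F f * A F' f)]
      refine (Finset.sum_le_sum (fun F' hF' => hpair F hF F' hF')).trans ?_
      rw [Finset.sum_add_distrib, ← Finset.mul_sum, Finset.sum_ite_eq 𝒢 F, if_pos hF]
    refine (Finset.sum_le_sum h2).trans ?_
    rw [Finset.sum_add_distrib, ← Finset.sum_mul]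
  -- Chebyshev
  have hvar : av (fun f => (Z f - μ) ^ 2) ≤ μ := by
    have h1 : av (fun f => (Z f - μ) ^ 2) =
        av (fun f => Z f * Z f) + ((-2 * μ) * av Z + μ ^ 2) := by
      have e : ∀ f, (Z f - μ) ^ 2 = Z f * Z f + ((-2 * μ) * Z f + μ ^ 2) := fun f => by ring
      rw [av_congr e, av_add, av_add, av_mul_left, av_const]
    rw [h1, hZv]
    nlinarith
  have hM := pr_markov (f := fun f : ι → Fin (q + 1) => (Z f - μ) ^ 2)
    (fun f => sq_nonneg _) (t := μ ^ 2) (by positivity)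
  have hsub : pr (fun f : ι → Fin (q + 1) => ∀ F ∈ 𝒢, ¬ ∀ i ∈ T F, f i = 0) ≤
      pr (fun f : ι → Fin (q + 1) => μ ^ 2 ≤ (Z f - μ) ^ 2) := by
    apply pr_mono
    intro f hf
    have hz : Z f = 0 := by
      simp only [hZ, hA]
      apply Finset.sum_eq_zero
      intro F hF
      exact if_neg (hf F hF)
    rw [hz]
    nlinarith
  refine hsub.trans (hM.trans ?_)
  calc av (fun f => (Z f - μ) ^ 2) / μ ^ 2 ≤ μ / μ ^ 2 :=
        div_le_div_of_nonneg_right hvar (by positivity)
    _ = 1 / μ := by field_simp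
    _ ≤ 1 / ((C : ℝ) * u ^ P) := one_div_le_one_div_of_le (by positivity) hμC
    _ = ((q : ℝ) + 1) ^ P / C := by
        have e1 : u ^ P * ((q : ℝ) + 1) ^ P = 1 := by
          rw [← mul_pow, hu, one_div_mul_cancel hq.ne', one_pow]
        have hup : u ^ P ≠ 0 := by positivity
        rw [div_eq_div_iff (by positivity) (by positivity), one_mul]
        calc (C : ℝ) = C * (u ^ P * ((q : ℝ) + 1) ^ P) := by rw [e1, mul_one]
          _ = ((q : ℝ) + 1) ^ P * (C * u ^ P) := by ring

/-- Chebyshev: with representatives `r ψ`, `E (r ψ) = ψ`, let `Z f` be the number of the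
`F ∈ 𝒢` with `f (r ψ) = 0` for all `ψ ∈ F`; `Z f > 0` implies that `z` is captured,
`E Z ≥ C / (q+1)^P`, `Var Z ≤ E Z` (disjoint sets of representatives). -/
theorem cap_disjoint (q : ℕ) (E : ι → Module.Dual (ZMod 2) W)
    {X : Finset (Module.Dual (ZMod 2) W)} (hX : ∀ ψ ∈ X, ∃ i, E i = ψ) {P C : ℕ}
    (hC1 : 1 ≤ C) (z : Module.Dual (ZMod 2) W)
    (𝒢 : Finset (Finset (Module.Dual (ZMod 2) W)))
    (hG : ∀ F ∈ 𝒢, F ⊆ X ∧ F.card ≤ P ∧ ∑ ψ ∈ F, ψ = z)
    (hd : ∀ F ∈ 𝒢, ∀ F' ∈ 𝒢, F ≠ F' → Disjoint F F') (hC : C ≤ 𝒢.card) :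
    1 - cap q E z ≤ ((q : ℝ) + 1) ^ P / C := by
  rcases isEmpty_or_nonempty ι with hι | hι
  · have h𝒢 : 𝒢.Nonempty := by
      rw [← Finset.card_pos]; omega
    obtain ⟨F, hF⟩ := h𝒢
    have hF0 : F = ∅ := by
      rw [Finset.eq_empty_iff_forall_notMem]
      intro ψ hψ
      obtain ⟨i, _⟩ := hX ψ ((hG F hF).1 hψ)
      exact hι.elim i
    have hz := (hG F hF).2.2
    rw [hF0, Finset.sum_empty] at hz
    rw [← hz, cap_zero, sub_self]
    positivity
  · choose! r hr using hX
    have hinj : ∀ ψ ∈ X, ∀ ψ' ∈ X, r ψ = r ψ' → ψ = ψ' := by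
      intro ψ h ψ' h' e
      rw [← hr ψ h, ← hr ψ' h', e]
    rw [RS_one_sub_cap]
    refine (pr_mono (p' := fun f : ι → Fin (q + 1) => ∀ F ∈ 𝒢, ¬ ∀ i ∈ F.image r, f i = 0)
      ?_).trans (RS_cheb q 𝒢 (fun F => F.image r) hC1 ?_ ?_ hC)
    · intro f hf F hF hall
      apply hf
      intro x hx
      rw [← (hG F hF).2.2, LinearMap.sum_apply]
      apply Finset.sum_eq_zero
      intro ψ hψ
      rw [← hr ψ ((hG F hF).1 hψ)]
      exact hx _ (hall _ (Finset.mem_image_of_mem r hψ))
    · intro F hF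
      exact Finset.card_image_le.trans (hG F hF).2.1
    · intro F hF F' hF' hne
      have h1 := hd F hF F' hF' hne
      rw [Finset.disjoint_left] at h1 ⊢
      intro i hi hi'
      rw [Finset.mem_image] at hi hi'
      obtain ⟨ψ, hψ, rfl⟩ := hi
      obtain ⟨ψ', hψ', e⟩ := hi'
      have := hinj ψ' ((hG F' hF').1 hψ') ψ ((hG F hF).1 hψ) e
      subst this
      exact h1 hψ hψ'

end Pool.Agent.H47.ST
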