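import Pool.Agent.H47.ST.Cube

/-! Project ST: small ball inequality for character sums with few short relations. -/

namespace Pool.Agent.H47.ST

open Finset Pool.Agent.H46.SR
open scoped Classical

/-- Fejer kernel: `|(1/L) ∑_(l < L) exp(i l θ y)|^2 ≥ 1/4` for `|y| ≤ 1 / (L θ)` -/
theorem fejer_ge {L : ℕ} (hL : 1 ≤ L) {θ y : ℝ} (h : |θ * y| * L ≤ 1) :
    (1 : ℝ) / 4 ≤ (∑ l ∈ range L, ∑ l' ∈ range L, Real.cos (((l : ℝ) - l') * (θ * y))) / L ^ 2 := by
  have hL0 : (0 : ℝ) < L := by exact_mod_cast hL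
  rw [le_div_iff₀ (by positivity)]
  have h1 : ∀ l ∈ range L, ∀ l' ∈ range L, (1 : ℝ) / 4 ≤ Real.cos (((l : ℝ) - l') * (θ * y)) := by
    intro l hl l' hl'
    rw [mem_range] at hl hl'
    have h2 : |((l : ℝ) - l') * (θ * y)| ≤ 1 := by
      rw [abs_mul]
      have h3 : |(l : ℝ) - l'| ≤ L := by
        rw [abs_le]
        have h4 : (l : ℝ) < L := by exact_mod_cast hl
        have h5 : (l' : ℝ) < L := by exact_mod_cast hl'
        have h6 : (0 : ℝ) ≤ l := Nat.cast_nonneg _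
        have h7 : (0 : ℝ) ≤ l' := Nat.cast_nonneg _
        constructor <;> linarith
      calc |(l : ℝ) - l'| * |θ * y| ≤ L * |θ * y| :=
            mul_le_mul_of_nonneg_right h3 (abs_nonneg _)
        _ = |θ * y| * L := mul_comm _ _
        _ ≤ 1 := h
    have h3 := Real.one_sub_sq_div_two_le_cos (x := ((l : ℝ) - l') * (θ * y))
    have h4 : (((l : ℝ) - l') * (θ * y)) ^ 2 ≤ 1 := by
      rw [← sq_abs]
      have := abs_nonneg (((l : ℝ) - l') * (θ * y))
      nlinarith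
    linarith
  have h2 : ∑ l ∈ range L, ∑ l' ∈ range L, (1 : ℝ) / 4 ≤
      ∑ l ∈ range L, ∑ l' ∈ range L, Real.cos (((l : ℝ) - l') * (θ * y)) :=
    sum_le_sum (fun l hl => sum_le_sum (fun l' hl' => h1 l hl l' hl'))
  refine le_trans (le_of_eq ?_) h2
  simp only [sum_const, card_range, nsmul_eq_mul]
  ring

theorem fejer_eq (L : ℕ) (y : ℝ) :
    ∑ l ∈ range L, ∑ l' ∈ range L, Real.cos (((l : ℝ) - l') * y) =
      (∑ l ∈ range L, Real.cos (l * y)) ^ 2 + (∑ l ∈ range L, Real.sin (l * y)) ^ 2 := by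
  rw [sq, sq, sum_mul_sum, sum_mul_sum, ← sum_add_distrib]
  refine sum_congr rfl (fun l _ => ?_)
  rw [← sum_add_distrib]
  refine sum_congr rfl (fun l' _ => ?_)
  rw [sub_mul, Real.cos_sub]

theorem fejer_nonneg (L : ℕ) (y : ℝ) :
    0 ≤ ∑ l ∈ range L, ∑ l' ∈ range L, Real.cos (((l : ℝ) - l') * y) := by
  rw [fejer_eq]
  positivity

section aux
variable {Ω : Type*} [Fintype Ω]

theorem SB_abs_av_le (f : Ω → ℝ) : |av f| ≤ av (fun ω => |f ω|) := by
  unfold av
  rw [abs_div, abs_of_nonneg (Nat.cast_nonneg (α := ℝ) (Fintype.card Ω))]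
  exact div_le_div_of_nonneg_right (Finset.abs_sum_le_sum_abs _ _) (Nat.cast_nonneg _)

theorem SB_av_sub (f g : Ω → ℝ) : av (fun ω => f ω - g ω) = av f - av g := by
  unfold av
  rw [Finset.sum_sub_distrib, sub_div]

/-- Taylor comparison for a random variable -/
theorem SB_taylor {a : ℕ → ℝ} {φ : ℝ}
    (ha : ∀ (P : ℕ) (y : ℝ), |Real.cos (y - φ) - ∑ p ∈ range P, a p * y ^ p / p.factorial| ≤
      |y| ^ P / P.factorial) (S : Ω → ℝ) (θ : ℝ) (p : ℕ) :
    |av (fun x => Real.cos (θ * S x - φ)) -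
        ∑ q ∈ range (2 * p), a q * θ ^ q / q.factorial * av (fun x => S x ^ q)| ≤
      θ ^ (2 * p) / (2 * p).factorial * av (fun x => S x ^ (2 * p)) := by
  have h1 : ∑ q ∈ range (2 * p), a q * θ ^ q / q.factorial * av (fun x => S x ^ q) =
      av (fun x => ∑ q ∈ range (2 * p), a q * (θ * S x) ^ q / q.factorial) := by
    rw [av_sum]
    refine sum_congr rfl (fun q _ => ?_)
    rw [← av_mul_left]
    apply av_congr
    intro x
    rw [mul_pow]
    ring
  rw [h1, ← SB_av_sub]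
  refine (SB_abs_av_le _).trans ?_
  rw [← av_mul_left]
  apply av_mono
  intro x
  refine (ha (2 * p) (θ * S x)).trans (le_of_eq ?_)
  rw [pow_mul, sq_abs, ← pow_mul, mul_pow]
  ring

end aux

theorem SB_taylor_cube {D : Type*} (X : Finset D) (co : D → ℝ) {a : ℕ → ℝ} {φ : ℝ}
    (ha : ∀ (P : ℕ) (y : ℝ), |Real.cos (y - φ) - ∑ p ∈ range P, a p * y ^ p / p.factorial| ≤
      |y| ^ P / P.factorial) (θ : ℝ) (p : ℕ) :
    |Real.cos φ * ∏ ψ ∈ X, Real.cos (θ * co ψ) -
        ∑ q ∈ range (2 * p), a q * θ ^ q / q.factorial * alpha X co q ∅| ≤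
      θ ^ (2 * p) / (2 * p).factorial * alpha X co (2 * p) ∅ := by
  have hT2 := SB_taylor ha (fun ξ : X → ZMod 2 => ∑ ψ : X, co ψ * sg (ξ ψ)) θ p
  simp only [cube_moment] at hT2
  rw [cube_cos] at hT2
  exact hT2

/-- the choice of `p` -/
theorem SB_exists_p {M δ : ℝ} (hM : 0 ≤ M) (hδ : 0 < δ) :
    ∃ p : ℕ, 1 ≤ p ∧ 2 * (3 * M ^ 2 / (2 * p)) ^ p ≤ δ / 2 := by
  obtain ⟨k, hk⟩ := exists_pow_lt_of_lt_one (show (0 : ℝ) < δ / 4 by positivity)
    (show (1 : ℝ) / 2 < 1 by norm_num)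
  obtain ⟨m, hm⟩ := exists_nat_ge (3 * M ^ 2)
  refine ⟨max (max k m) 1, le_max_right _ _, ?_⟩
  set p := max (max k m) 1 with hp
  have hp1 : 1 ≤ p := le_max_right _ _
  have hpk : k ≤ p := (le_max_left _ _).trans (le_max_left _ _)
  have hpm : m ≤ p := (le_max_right _ _).trans (le_max_left _ _)
  have hp0 : (0 : ℝ) < p := by exact_mod_cast hp1
  have h1 : 3 * M ^ 2 / (2 * p) ≤ 1 / 2 := by
    rw [div_le_div_iff₀ (by positivity) (by norm_num)]
    have : (m : ℝ) ≤ p := by exact_mod_cast hpm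
    linarith
  have h2 : (3 * M ^ 2 / (2 * p)) ^ p ≤ (1 / 2) ^ p :=
    pow_le_pow_left₀ (by positivity) h1 p
  have h3 : ((1 : ℝ) / 2) ^ p ≤ (1 / 2) ^ k :=
    pow_le_pow_of_le_one (by norm_num) (by norm_num) hpk
  linarith

theorem SB_rels_le {R B n r : ℝ} {g : ℕ} (hr : 1 ≤ r) (hn : n = r ^ 2) (hR : 0 ≤ R)
    (h : R ^ 3 ≤ B * n ^ g) (hg : 3 ≤ g) : R / r ^ g ≤ max B 1 / r := by
  have hr0 : 0 < r := by linarith
  have h1 : (R / r ^ g) ^ 3 ≤ (max B 1 / r) ^ 3 := by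
    rw [div_pow, div_pow, div_le_div_iff₀ (by positivity) (by positivity)]
    have h2 : r ^ 3 ≤ r ^ g := pow_le_pow_right₀ hr hg
    have h3 : B ≤ (max B 1) ^ 3 := by
      have h4 : 1 ≤ max B 1 := le_max_right _ _
      have h5 : B ≤ max B 1 := le_max_left _ _
      calc B ≤ max B 1 := h5
        _ = (max B 1) ^ 1 := (pow_one _).symm
        _ ≤ (max B 1) ^ 3 := pow_le_pow_right₀ h4 (by norm_num)
    subst hn
    calc R ^ 3 * r ^ 3 ≤ (B * (r ^ 2) ^ g) * r ^ 3 :=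
          mul_le_mul_of_nonneg_right h (by positivity)
      _ ≤ ((max B 1) ^ 3 * (r ^ 2) ^ g) * r ^ 3 := by
          apply mul_le_mul_of_nonneg_right _ (by positivity)
          exact mul_le_mul_of_nonneg_right h3 (by positivity)
      _ ≤ ((max B 1) ^ 3 * (r ^ 2) ^ g) * r ^ g := by
          apply mul_le_mul_of_nonneg_left h2
          have : 0 ≤ max B 1 := le_trans zero_le_one (le_max_right _ _)
          positivity
      _ = (max B 1) ^ 3 * (r ^ g) ^ 3 := by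
          rw [mul_assoc, ← pow_mul, ← pow_add, ← pow_mul]
          congr 2
          ring
  have h0 : 0 ≤ max B 1 / r := div_nonneg (le_trans zero_le_one (le_max_right _ _)) hr0.le
  exact le_of_pow_le_pow_left₀ (by norm_num) h0 h1

/-- the characteristic function at `θ`, `|θ| ≤ Θ / √n`: Taylor polynomial of degree `P` of
`cos (θ S - φ)`, `moment_diff`, `cube_moment`, `cube_moment_le`, `cube_cos`, `abs_prod_cos_le` -/
theorem char_le {K ε Θ δ : ℝ} (hK : 1 ≤ K) (hε : 0 < ε) (hΘ : 0 < Θ) (hδ : 0 < δ) :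
    ∃ P : ℕ, ∀ B : ℝ, ∃ n₀ : ℕ, ∀ n : ℕ, n₀ ≤ n →
      ∀ (W : Type) [AddCommGroup W] [Module (ZMod 2) W] [Fintype W]
        (X : Finset (Module.Dual (ZMod 2) W)) (co : Module.Dual (ZMod 2) W → ℝ),
        (∀ ψ ∈ X, 1 ≤ |co ψ|) → (∀ ψ ∈ X, |co ψ| ≤ K) → X.card ≤ n → ε * n ≤ X.card →
        rels X 0 1 = ∅ → rels X 0 2 = ∅ →
        (∀ g ≤ P, ((rels X 0 g).card : ℝ) ^ 3 ≤ B * (n : ℝ) ^ g) →
        ∀ θ φ : ℝ, |θ| * √n ≤ Θ →
          |av (fun x : W => Real.cos (θ * csum X co x - φ))| ≤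
            Real.exp (-(θ ^ 2 * (ε * n) / 5)) + δ := by
  have hK0 : (0 : ℝ) < K := by linarith
  obtain ⟨p, hp1, hp⟩ := SB_exists_p (M := K * Θ) (δ := δ) (by positivity) hδ
  refine ⟨2 * p, fun B => ?_⟩
  -- the constant of the error
  set C : ℝ := ∑ q ∈ range (2 * p + 1), (K * q * Θ) ^ q * ((2 * p : ℕ) * max B 1) with hC
  have hB1 : 0 ≤ max B 1 := le_trans zero_le_one (le_max_right _ _)
  have hC0 : 0 ≤ C := by
    rw [hC]
    apply sum_nonneg
    intro q _
    positivity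
  obtain ⟨n₀, hn₀⟩ := exists_nat_ge (max (max 1 ((Θ * K) ^ 2)) ((2 * C / δ) ^ 2))
  refine ⟨n₀, fun n hn W _ _ _ X co h1 hKX hXn hεX hr1 hr2 hrel θ φ hθ => ?_⟩
  have hn' : max (max 1 ((Θ * K) ^ 2)) ((2 * C / δ) ^ 2) ≤ (n : ℝ) :=
    hn₀.trans (by exact_mod_cast hn)
  have hn1 : (1 : ℝ) ≤ n := (le_max_left _ _).trans ((le_max_left _ _).trans hn')
  have hn2 : (Θ * K) ^ 2 ≤ (n : ℝ) := (le_max_right _ _).trans ((le_max_left _ _).trans hn')
  have hn3 : (2 * C / δ) ^ 2 ≤ (n : ℝ) := (le_max_right _ _).trans hn'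
  set r : ℝ := √n with hr
  have hrsq : r ^ 2 = n := Real.sq_sqrt (by linarith)
  have hrge : 1 ≤ r := by
    rw [hr]
    exact Real.one_le_sqrt.2 hn1
  have hr0 : 0 < r := by linarith
  have hΘK : Θ * K ≤ r := by
    rw [hr]
    exact Real.le_sqrt_of_sq_le hn2
  have hCr : 2 * C / δ ≤ r := by
    rw [hr]
    exact Real.le_sqrt_of_sq_le hn3
  have hXr : (X.card : ℝ) ≤ r ^ 2 := by rw [hrsq]; exact_mod_cast hXn
  have hθK : |θ| * K ≤ 1 := by
    have h2 : |θ| * r * K ≤ r := (mul_le_mul_of_nonneg_right hθ hK0.le).trans hΘK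
    have h3 : |θ| * K * r ≤ 1 * r := by linarith
    exact le_of_mul_le_mul_right h3 hr0
  -- Taylor
  obtain ⟨a, ha1, ha⟩ := cos_taylor φ
  have hT1 := SB_taylor ha (csum X co) θ p
  have hT2 := SB_taylor_cube X co ha θ p
  -- moments
  have hE : ∀ q ≤ 2 * p, ∑ g ∈ Finset.Icc 3 q, ((rels X 0 g).card : ℝ) / r ^ g ≤
      ((2 * p : ℕ) * max B 1) / r := by
    intro q hq
    have h2 : ∑ g ∈ Finset.Icc 3 q, ((rels X 0 g).card : ℝ) / r ^ g ≤
        ∑ g ∈ Finset.Icc 3 q, max B 1 / r := by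
      apply sum_le_sum
      intro g hg
      rw [mem_Icc] at hg
      exact SB_rels_le hrge hrsq.symm (Nat.cast_nonneg _) (hrel g (hg.2.trans hq)) hg.1
    refine h2.trans ?_
    rw [sum_const, nsmul_eq_mul, Nat.card_Icc, mul_div_assoc]
    apply mul_le_mul_of_nonneg_right _ (by positivity)
    have : q + 1 - 3 ≤ 2 * p := by omega
    exact_mod_cast this
  have hM : ∀ q ≤ 2 * p, |θ| ^ q / q.factorial *
      |av (fun x : W => csum X co x ^ q) - alpha X co q ∅| ≤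
      (K * q * Θ) ^ q * ((2 * p : ℕ) * max B 1) / r := by
    intro q hq
    have h2 := moment_diff X co hK0.le hKX hr0 hXr hr1 hr2 q
    have h3 : |θ| ^ q / q.factorial ≤ |θ| ^ q := by
      apply div_le_self (by positivity)
      exact_mod_cast Nat.one_le_iff_ne_zero.2 (Nat.factorial_ne_zero q)
    have h4 : |av (fun x : W => csum X co x ^ q) - alpha X co q ∅| ≤
        (K * q * r) ^ q * (((2 * p : ℕ) * max B 1) / r) :=
      h2.trans (mul_le_mul_of_nonneg_left (hE q hq) (by positivity))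
    calc |θ| ^ q / q.factorial * |av (fun x : W => csum X co x ^ q) - alpha X co q ∅|
        ≤ |θ| ^ q * ((K * q * r) ^ q * (((2 * p : ℕ) * max B 1) / r)) :=
          mul_le_mul h3 h4 (abs_nonneg _) (by positivity)
      _ = (K * q * (|θ| * r)) ^ q * ((2 * p : ℕ) * max B 1) / r := by
          rw [show K * q * (|θ| * r) = |θ| * (K * q * r) by ring, mul_pow |θ|]
          ring
      _ ≤ (K * q * Θ) ^ q * ((2 * p : ℕ) * max B 1) / r := by
          apply div_le_div_of_nonneg_right _ hr0.le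
          apply mul_le_mul_of_nonneg_right _ (by positivity)
          apply pow_le_pow_left₀ (by positivity)
          exact mul_le_mul_of_nonneg_left hθ (by positivity)
  -- the sum of the differences of the moments
  have hsum : |∑ q ∈ range (2 * p), a q * θ ^ q / q.factorial * av (fun x : W => csum X co x ^ q) -
      ∑ q ∈ range (2 * p), a q * θ ^ q / q.factorial * alpha X co q ∅| ≤
      ∑ q ∈ range (2 * p), (K * q * Θ) ^ q * ((2 * p : ℕ) * max B 1) / r := by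
    rw [← sum_sub_distrib]
    refine (abs_sum_le_sum_abs _ _).trans (sum_le_sum (fun q hq => ?_))
    rw [mem_range] at hq
    rw [← mul_sub, abs_mul]
    refine le_trans ?_ (hM q hq.le)
    apply mul_le_mul_of_nonneg_right _ (abs_nonneg _)
    rw [abs_div, abs_mul, abs_pow, abs_of_nonneg (Nat.cast_nonneg (α := ℝ) q.factorial)]
    apply div_le_div_of_nonneg_right _ (Nat.cast_nonneg _)
    have := mul_le_mul_of_nonneg_right (ha1 q) (pow_nonneg (abs_nonneg θ) q)
    linarith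
  -- the remainder terms
  have hcube : θ ^ (2 * p) / (2 * p).factorial * alpha X co (2 * p) ∅ ≤
      (3 * (K * Θ) ^ 2 / (2 * p)) ^ p := by
    have h2 := cube_moment_le X co hK0 hKX hr0 hXr hp1
    have h3 : θ ^ (2 * p) / (2 * p).factorial * alpha X co (2 * p) ∅ =
        (θ ^ 2) ^ p * (alpha X co (2 * p) ∅ / (2 * p).factorial) := by
      rw [pow_mul]; ring
    rw [h3]
    refine (mul_le_mul_of_nonneg_left h2 (by positivity)).trans ?_
    rw [← mul_pow]
    have hp0 : (0 : ℝ) < p := by exact_mod_cast hp1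
    apply pow_le_pow_left₀ (by positivity)
    have h4 : θ ^ 2 * (3 * (K * r) ^ 2 / (2 * p)) = 3 * (K * (|θ| * r)) ^ 2 / (2 * p) := by
      rw [← sq_abs θ]; ring
    rw [h4]
    apply div_le_div_of_nonneg_right _ (by positivity)
    have h5 : (K * (|θ| * r)) ^ 2 ≤ (K * Θ) ^ 2 := by
      apply pow_le_pow_left₀ (by positivity)
      exact mul_le_mul_of_nonneg_left hθ hK0.le
    linarith
  have hrem : θ ^ (2 * p) / (2 * p).factorial * av (fun x : W => csum X co x ^ (2 * p)) ≤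
      (3 * (K * Θ) ^ 2 / (2 * p)) ^ p +
        (K * (2 * p : ℕ) * Θ) ^ (2 * p) * ((2 * p : ℕ) * max B 1) / r := by
    have h2 := hM (2 * p) le_rfl
    have h3 : θ ^ (2 * p) / (2 * p).factorial *
        (av (fun x : W => csum X co x ^ (2 * p)) - alpha X co (2 * p) ∅) ≤
        |θ| ^ (2 * p) / (2 * p).factorial *
          |av (fun x : W => csum X co x ^ (2 * p)) - alpha X co (2 * p) ∅| := by
      have h4 : |θ| ^ (2 * p) = θ ^ (2 * p) := by
        rw [pow_mul, sq_abs, ← pow_mul]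
      rw [h4]
      apply mul_le_mul_of_nonneg_left (le_abs_self _)
      rw [pow_mul]; positivity
    have h5 := h3.trans h2
    rw [mul_sub] at h5
    linarith
  have hprod : |Real.cos φ * ∏ ψ ∈ X, Real.cos (θ * co ψ)| ≤
      Real.exp (-(θ ^ 2 * (ε * n) / 5)) := by
    rw [abs_mul]
    have h2 := abs_prod_cos_le X co (N := ε * n) hKX h1 hθK hεX
    have h3 : |Real.cos φ| ≤ 1 := Real.abs_cos_le_one φ
    calc |Real.cos φ| * |∏ ψ ∈ X, Real.cos (θ * co ψ)|
        ≤ 1 * |∏ ψ ∈ X, Real.cos (θ * co ψ)| := mul_le_mul_of_nonneg_right h3 (abs_nonneg _)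
      _ ≤ Real.exp (-(θ ^ 2 * (ε * n) / 5)) := by rw [one_mul]; exact h2
  have hCsum : ∑ q ∈ range (2 * p), (K * q * Θ) ^ q * ((2 * p : ℕ) * max B 1) / r +
      (K * (2 * p : ℕ) * Θ) ^ (2 * p) * ((2 * p : ℕ) * max B 1) / r = C / r := by
    rw [hC, sum_range_succ, add_div, sum_div]
  have hCr' : C / r ≤ δ / 2 := by
    rw [div_le_iff₀ hr0]
    rw [div_le_iff₀ hδ] at hCr
    linarith
  -- the end
  have e1 := abs_le.1 hT1
  have e2 := abs_le.1 hT2
  have e3 := abs_le.1 hsum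
  have e4 := abs_le.1 hprod
  rw [abs_le]
  constructor <;> linarith [e1.1, e1.2, e2.1, e2.2, e3.1, e3.2, e4.1, e4.2]

/-- the geometric sum -/
theorem SB_geom (l L : ℕ) (hl : l < L) :
    ∑ l' ∈ range L, Real.exp (-(2 * ((l : ℝ) - l') ^ 2)) ≤ 3 := by
  have hexp : ∀ m : ℕ, Real.exp (-(2 * (m : ℝ) ^ 2)) ≤ (1 / 2 : ℝ) ^ m := by
    intro m
    have h1 : (1 / 2 : ℝ) ^ m = Real.exp (-(Real.log 2 * m)) := by
      rw [Real.exp_neg, Real.exp_mul, Real.exp_log (by norm_num), Real.rpow_natCast, one_div,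
        inv_pow]
    rw [h1]
    apply Real.exp_le_exp.2
    have h2 : Real.log 2 ≤ 1 := by
      have := Real.log_two_lt_d9
      linarith
    have h3 : (0 : ℝ) ≤ m := Nat.cast_nonneg _
    have h4 : (m : ℝ) ≤ (m : ℝ) ^ 2 := by
      have : m ≤ m ^ 2 := Nat.le_self_pow (by norm_num) m
      exact_mod_cast this
    nlinarith
  have hsplit : range L = range (l + 1) ∪ Ico (l + 1) L := by
    ext x
    simp only [mem_range, mem_union, mem_Ico]
    omega
  have hdisj : Disjoint (range (l + 1)) (Ico (l + 1) L) := by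
    rw [Finset.disjoint_left]
    intro x hx hx'
    rw [mem_range] at hx
    rw [mem_Ico] at hx'
    omega
  rw [hsplit, sum_union hdisj]
  have hg : ∀ k : ℕ, ∑ j ∈ range k, (1 / 2 : ℝ) ^ j ≤ 2 := by
    intro k
    have := sum_geometric_two_le k
    simpa using this
  have h1 : ∑ l' ∈ range (l + 1), Real.exp (-(2 * ((l : ℝ) - l') ^ 2)) ≤ 2 := by
    have h2 : ∑ l' ∈ range (l + 1), Real.exp (-(2 * ((l : ℝ) - l') ^ 2)) ≤
        ∑ l' ∈ range (l + 1), (1 / 2 : ℝ) ^ (l + 1 - 1 - l') := by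
      apply sum_le_sum
      intro l' hl'
      rw [mem_range] at hl'
      have h3 := hexp (l + 1 - 1 - l')
      have h4 : ((l + 1 - 1 - l' : ℕ) : ℝ) = (l : ℝ) - l' := by
        rw [Nat.add_sub_cancel, Nat.cast_sub (by omega)]
      rw [h4] at h3
      exact h3
    refine h2.trans ?_
    rw [sum_range_reflect (fun j => (1 / 2 : ℝ) ^ j)]
    exact hg _
  have h2 : ∑ l' ∈ Ico (l + 1) L, Real.exp (-(2 * ((l : ℝ) - l') ^ 2)) ≤ 1 := by
    rw [sum_Ico_eq_sum_range]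
    have h3 : ∑ k ∈ range (L - (l + 1)), Real.exp (-(2 * ((l : ℝ) - ((l + 1 + k : ℕ) : ℝ)) ^ 2)) ≤
        ∑ k ∈ range (L - (l + 1)), (1 / 2 : ℝ) ^ k * (1 / 2) := by
      apply sum_le_sum
      intro k _
      have h4 := hexp (k + 1)
      rw [pow_succ (1 / 2 : ℝ)] at h4
      have h5 : ((k + 1 : ℕ) : ℝ) ^ 2 = ((l : ℝ) - ((l + 1 + k : ℕ) : ℝ)) ^ 2 := by
        push_cast; ring
      rw [h5] at h4
      exact h4
    refine h3.trans ?_
    rw [← sum_mul]
    have := hg (L - (l + 1))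
    linarith
  linarith

/-- small ball inequality: `θ₀ = √(10 / (ε n))`, `L ≥ 48 / c`, `lam = √(ε / 10) / L`,
`Θ = L √(10 / ε)`, `δ = c / 16` -/
theorem small_ball {K ε c : ℝ} (hK : 1 ≤ K) (hε : 0 < ε) (hc : 0 < c) :
    ∃ (P : ℕ) (lam : ℝ), 0 < lam ∧ ∀ B : ℝ, ∃ n₀ : ℕ, ∀ n : ℕ, n₀ ≤ n →
      ∀ (W : Type) [AddCommGroup W] [Module (ZMod 2) W] [Fintype W]
        (X : Finset (Module.Dual (ZMod 2) W)) (co : Module.Dual (ZMod 2) W → ℝ),
        (∀ ψ ∈ X, 1 ≤ |co ψ|) → (∀ ψ ∈ X, |co ψ| ≤ K) → X.card ≤ n → ε * n ≤ X.card →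
        rels X 0 1 = ∅ → rels X 0 2 = ∅ →
        (∀ g ≤ P, ((rels X 0 g).card : ℝ) ^ 3 ≤ B * (n : ℝ) ^ g) →
        ∀ s : ℝ, pr (fun x : W => |csum X co x - s| ≤ lam * √n) ≤ c := by
  obtain ⟨L, hL⟩ := exists_nat_ge (max 1 (48 / c))
  have hL1 : (1 : ℝ) ≤ L := (le_max_left _ _).trans hL
  have hLc : 48 / c ≤ L := (le_max_right _ _).trans hL
  have hL0 : (0 : ℝ) < L := by linarith
  have hL1' : 1 ≤ L := by exact_mod_cast hL1
  have hΘ : 0 < L * √(10 / ε) := by positivity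
  obtain ⟨P, hP⟩ := char_le (K := K) (ε := ε) (Θ := L * √(10 / ε)) (δ := c / 16) hK hε hΘ
    (by positivity)
  refine ⟨P, √(ε / 10) / L, by positivity, fun B => ?_⟩
  obtain ⟨n₀, hn₀⟩ := hP B
  refine ⟨max n₀ 1, fun n hn W _ _ _ X co h1 hKX hXn hεX hr1 hr2 hrel s => ?_⟩
  have hn0 : n₀ ≤ n := (le_max_left _ _).trans hn
  have hn1 : 1 ≤ n := (le_max_right _ _).trans hn
  have hn1' : (0 : ℝ) < n := by exact_mod_cast hn1
  have hchar := hn₀ n hn0 W X co h1 hKX hXn hεX hr1 hr2 hrel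
  set θ₀ : ℝ := √(10 / (ε * n)) with hθ₀
  have hθ₀pos : 0 < θ₀ := by rw [hθ₀]; positivity
  have hθn : θ₀ * √n = √(10 / ε) := by
    rw [hθ₀, ← Real.sqrt_mul (by positivity)]
    congr 1
    field_simp
  have hθsq : θ₀ ^ 2 = 10 / (ε * n) := by
    rw [hθ₀]
    exact Real.sq_sqrt (by positivity)
  -- the Fejer bound
  have hF : pr (fun x : W => |csum X co x - s| ≤ √(ε / 10) / L * √n) ≤
      av (fun x : W => 4 * ((∑ l ∈ range L, ∑ l' ∈ range L,
        Real.cos (((l : ℝ) - l') * (θ₀ * (csum X co x - s)))) / L ^ 2)) := by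
    unfold pr
    apply av_mono
    intro x
    by_cases h : |csum X co x - s| ≤ √(ε / 10) / L * √n
    · rw [if_pos h]
      have h2 : |θ₀ * (csum X co x - s)| * L ≤ 1 := by
        rw [abs_mul, abs_of_pos hθ₀pos]
        have h3 : θ₀ * |csum X co x - s| * L ≤ θ₀ * (√(ε / 10) / L * √n) * L := by
          apply mul_le_mul_of_nonneg_right _ hL0.le
          exact mul_le_mul_of_nonneg_left h hθ₀pos.le
        refine h3.trans (le_of_eq ?_)
        have h4 : θ₀ * (√(ε / 10) / L * √n) * L = (θ₀ * √n) * √(ε / 10) := by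
          field_simp
        rw [h4, hθn, ← Real.sqrt_mul (by positivity)]
        rw [show 10 / ε * (ε / 10) = 1 by field_simp, Real.sqrt_one]
      have h3 := fejer_ge hL1' h2
      linarith
    · rw [if_neg h]
      have h2 := fejer_nonneg L (θ₀ * (csum X co x - s))
      positivity
  refine hF.trans ?_
  have hav : av (fun x : W => 4 * ((∑ l ∈ range L, ∑ l' ∈ range L,
        Real.cos (((l : ℝ) - l') * (θ₀ * (csum X co x - s)))) / L ^ 2)) =
      4 / L ^ 2 * ∑ l ∈ range L, ∑ l' ∈ range L, av (fun x : W =>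
        Real.cos ((((l : ℝ) - l') * θ₀) * csum X co x - ((l : ℝ) - l') * θ₀ * s)) := by
    have h2 : ∀ l ∈ range L, ∑ l' ∈ range L, av (fun x : W =>
        Real.cos ((((l : ℝ) - l') * θ₀) * csum X co x - ((l : ℝ) - l') * θ₀ * s)) =
        av (fun x : W => ∑ l' ∈ range L,
          Real.cos ((((l : ℝ) - l') * θ₀) * csum X co x - ((l : ℝ) - l') * θ₀ * s)) := by
      intro l _
      rw [av_sum]
    rw [sum_congr rfl h2, ← av_sum, ← av_mul_left]
    apply av_congr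
    intro x
    have h3 : ∀ l ∈ range L, ∀ l' ∈ range L,
        Real.cos (((l : ℝ) - l') * (θ₀ * (csum X co x - s))) =
        Real.cos ((((l : ℝ) - l') * θ₀) * csum X co x - ((l : ℝ) - l') * θ₀ * s) := by
      intro l _ l' _
      congr 1
      ring
    rw [sum_congr rfl (fun l hl => sum_congr rfl (h3 l hl))]
    ring
  rw [hav]
  have hterm : ∀ l ∈ range L, ∀ l' ∈ range L, av (fun x : W =>
        Real.cos ((((l : ℝ) - l') * θ₀) * csum X co x - ((l : ℝ) - l') * θ₀ * s)) ≤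
      Real.exp (-(2 * ((l : ℝ) - l') ^ 2)) + c / 16 := by
    intro l hl l' hl'
    rw [mem_range] at hl hl'
    have h2 : |((l : ℝ) - l') * θ₀| * √n ≤ L * √(10 / ε) := by
      rw [abs_mul, abs_of_pos hθ₀pos, mul_assoc, hθn]
      apply mul_le_mul_of_nonneg_right _ (Real.sqrt_nonneg _)
      rw [abs_le]
      have h4 : (l : ℝ) < L := by exact_mod_cast hl
      have h5 : (l' : ℝ) < L := by exact_mod_cast hl'
      have h6 : (0 : ℝ) ≤ l := Nat.cast_nonneg _
      have h7 : (0 : ℝ) ≤ l' := Nat.cast_nonneg _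
      constructor <;> linarith
    have h3 := hchar (((l : ℝ) - l') * θ₀) (((l : ℝ) - l') * θ₀ * s) h2
    refine (le_abs_self _).trans (h3.trans (le_of_eq ?_))
    congr 2
    rw [mul_pow, hθsq]
    field_simp
    ring
  have hsum : ∑ l ∈ range L, ∑ l' ∈ range L, av (fun x : W =>
        Real.cos ((((l : ℝ) - l') * θ₀) * csum X co x - ((l : ℝ) - l') * θ₀ * s)) ≤
      3 * L + c / 16 * L ^ 2 := by
    have h2 : ∀ l ∈ range L, ∑ l' ∈ range L, av (fun x : W =>
        Real.cos ((((l : ℝ) - l') * θ₀) * csum X co x - ((l : ℝ) - l') * θ₀ * s)) ≤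
        3 + c / 16 * L := by
      intro l hl
      refine (sum_le_sum (hterm l hl)).trans ?_
      rw [sum_add_distrib, sum_const, card_range, nsmul_eq_mul]
      have := SB_geom l L (mem_range.1 hl)
      linarith
    refine (sum_le_sum h2).trans (le_of_eq ?_)
    rw [sum_const, card_range, nsmul_eq_mul]
    ring
  have hfin : 4 / (L : ℝ) ^ 2 * (3 * L + c / 16 * L ^ 2) ≤ c := by
    have h2 : 4 / (L : ℝ) ^ 2 * (3 * L + c / 16 * L ^ 2) = 12 / L + c / 4 := by
      field_simp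
      ring
    rw [h2]
    have h3 : 12 / (L : ℝ) ≤ c / 4 := by
      rw [div_le_iff₀ hL0]
      rw [div_le_iff₀ hc] at hLc
      linarith
    linarith
  exact (mul_le_mul_of_nonneg_left hsum (by positivity)).trans hfin

end Pool.Agent.H47.ST
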