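import Pool.Agent.H47.ST.StarR

/-!
# Lower star of a critical vertex
-/

set_option autoImplicit false

namespace Pool.Agent.H47.ST

variable {ι : Type*} [Fintype ι] [DecidableEq ι] {F : Type*} [Field F]

/-- number of minus signs -/
def nm (e : ι → Bool) : ℕ := (Finset.univ.filter fun i => e i = false).card

/-- the position of a coordinate -/
noncomputable def StarC_ka (i : ι) : ℕ := (Fintype.equivFin ι i).val

omit [DecidableEq ι] in
theorem StarC_ka_inj {i k : ι} (h : StarC_ka i = StarC_ka k) : i = k :=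
  (Fintype.equivFin ι).injective (Fin.ext h)

/-- the first coordinate with a property -/
def StarC_first (P : ι → Prop) (i : ι) : Prop := P i ∧ ∀ k, P k → StarC_ka i ≤ StarC_ka k

omit [DecidableEq ι] in
theorem StarC_first_exists {P : ι → Prop} (h : ∃ i, P i) : ∃ i, StarC_first P i := by
  classical
  obtain ⟨i, hi, hm⟩ := (Finset.univ.filter fun i => P i).exists_min_image StarC_ka (by
    obtain ⟨i, hi⟩ := h
    exact ⟨i, by simpa using hi⟩)
  exact ⟨i, by simpa using hi, fun k hk => hm k (by simpa using hk)⟩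

omit [DecidableEq ι] in
theorem StarC_first_unique {P : ι → Prop} {i k : ι} (hi : StarC_first P i)
    (hk : StarC_first P k) : i = k :=
  StarC_ka_inj (le_antisymm (hi.2 k hk.1) (hk.2 i hi.1))

/-- a plus coordinate which is used by `σ` -/
def StarC_used (v : ι → ℤ) (e : ι → Bool) (σ : Finset (ι → ℤ)) (i : ι) : Prop :=
  e i = true ∧ ∃ w ∈ σ, w i ≠ v i

/-- the flag -/
noncomputable def StarC_U (v : ι → ℤ) (e : ι → Bool) (i : ι) : ι → ℤ :=
  fun k => if e k = false ∧ StarC_ka k ≤ StarC_ka i then v k - 1 else v k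

/-- a minus coordinate whose flag vertex is missing in `σ` -/
def StarC_miss (v : ι → ℤ) (e : ι → Bool) (σ : Finset (ι → ℤ)) (i : ι) : Prop :=
  e i = false ∧ StarC_U v e i ∉ σ

/-- the direction of `σ` is `(i, s)` -/
def StarC_D (v : ι → ℤ) (e : ι → Bool) (σ : Finset (ι → ℤ)) (i : ι) (s : Bool) : Prop :=
  (StarC_first (StarC_used v e σ) i ∧ (s = true ↔ ∃ w ∈ σ, w i < v i)) ∨
  ((∀ k, ¬ StarC_used v e σ k) ∧ StarC_first (StarC_miss v e σ) i ∧ s = true)

omit [DecidableEq ι] in
theorem StarC_D_unique {v : ι → ℤ} {e : ι → Bool} {σ : Finset (ι → ℤ)} {i k : ι} {s s' : Bool}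
    (h : StarC_D v e σ i s) (h' : StarC_D v e σ k s') : i = k ∧ s = s' := by
  rcases h with ⟨h1, h2⟩ | ⟨h1, h2, h3⟩ <;> rcases h' with ⟨h1', h2'⟩ | ⟨h1', h2', h3'⟩
  · have := StarC_first_unique h1 h1'
    subst this
    refine ⟨rfl, ?_⟩
    rw [← h2'] at h2
    exact Bool.eq_iff_iff.2 h2
  · exact absurd h1.1 (h1' i)
  · exact absurd h1'.1 (h1 k)
  · exact ⟨StarC_first_unique h2 h2', h3.trans h3'.symm⟩

open Classical in
/-- the vertex which is toggled -/
noncomputable def StarC_t (v : ι → ℤ) (e : ι → Bool) (σ : Finset (ι → ℤ)) : ι → ℤ :=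
  if h : ∃ p : ι × Bool, StarC_D v e σ p.1 p.2 then
    StarR_a v (Classical.choose h).1 (Classical.choose h).2 σ +
      Pi.single (Classical.choose h).1 (sz (Classical.choose h).2)
  else v

theorem StarC_t_eq {v : ι → ℤ} {e : ι → Bool} {σ : Finset (ι → ℤ)} {i : ι} {s : Bool}
    (h : StarC_D v e σ i s) :
    StarC_t v e σ = StarR_a v i s σ + Pi.single i (sz s) := by
  have h' : ∃ p : ι × Bool, StarC_D v e σ p.1 p.2 := ⟨(i, s), h⟩
  obtain ⟨h1, h2⟩ := StarC_D_unique (Classical.choose_spec h') h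
  unfold StarC_t
  rw [dif_pos h', h1, h2]

section
variable {Lo : Set (ι → ℤ)} {v : ι → ℤ} {e : ι → Bool} {σ : Finset (ι → ℤ)} {i : ι} {s : Bool}

theorem StarC_near (hσ : LS Lo v σ) {w : ι → ℤ} (hw : w ∈ σ) : Nr v w :=
  StarR_near (hσ.1 _ hσ.2.1 _ hw)

theorem StarC_a_mem (hσ : LS Lo v σ) (i : ι) (s : Bool) : StarR_a v i s σ ∈ σ :=
  (StarR_a_spec v i s ⟨v, hσ.2.1⟩).1

theorem StarC_a_min (hσ : LS Lo v σ) (i : ι) (s : Bool) {w : ι → ℤ} (hw : w ∈ σ) :
    StarR_key i s (StarR_a v i s σ) ≤ StarR_key i s w :=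
  (StarR_a_spec v i s ⟨v, hσ.2.1⟩).2 w hw

theorem StarC_a_ile (hσ : LS Lo v σ) (i : ι) (s : Bool) {w : ι → ℤ} (hw : w ∈ σ) :
    sz s * (StarR_a v i s σ i - w i) ≤ 0 :=
  StarR_ile (hσ.1 _ (StarC_a_mem hσ i s) _ hw) (StarC_a_min hσ i s hw)

theorem StarC_adj (hσ : LS Lo v σ) (i : ι) (s : Bool) {w : ι → ℤ} (hw : w ∈ σ) :
    Adj (StarR_a v i s σ + Pi.single i (sz s)) w :=
  StarR_adj (hσ.1 _ (StarC_a_mem hσ i s) _ hw) (StarC_a_min hσ i s hw)

theorem StarC_key_lt (v : ι → ℤ) (i : ι) (s : Bool) (σ : Finset (ι → ℤ)) :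
    StarR_key i s (StarR_a v i s σ) <
      StarR_key i s (StarR_a v i s σ + Pi.single i (sz s)) := by
  have hc : (0 : ℤ) ≤ Fintype.card ι := Int.natCast_nonneg _
  rw [StarR_key_t]
  linarith

theorem StarC_t_ne_a (v : ι → ℤ) (i : ι) (s : Bool) (σ : Finset (ι → ℤ)) :
    StarR_a v i s σ + Pi.single i (sz s) ≠ StarR_a v i s σ := fun h => by
  have := StarC_key_lt v i s σ
  rw [h] at this
  exact lt_irrefl _ this

/-- the pivot does not change -/
theorem StarC_a_stable (hσ : LS Lo v σ) {ρ : Finset (ι → ℤ)}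
    (hρ : ρ ⊆ insert (StarR_a v i s σ + Pi.single i (sz s)) σ) (hS : Simp ρ)
    (ha : StarR_a v i s σ ∈ ρ) : StarR_a v i s ρ = StarR_a v i s σ := by
  refine StarR_a_eq v i s hS ha fun w hw => ?_
  rcases Finset.mem_insert.1 (hρ hw) with hw' | hw'
  · rw [hw']; exact (StarC_key_lt v i s σ).le
  · exact StarC_a_min hσ i s hw'

/-- simplices after toggling -/
theorem StarC_ins (hσ : LS Lo v σ) (hL : StarR_a v i s σ + Pi.single i (sz s) ∈ Lo) :
    LS Lo v (insert (StarR_a v i s σ + Pi.single i (sz s)) σ) := by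
  refine ⟨?_, Finset.mem_insert_of_mem hσ.2.1, ?_⟩
  · intro x hx y hy
    rcases Finset.mem_insert.1 hx with hx | hx <;> rcases Finset.mem_insert.1 hy with hy | hy
    · rw [hx, hy]
      left
      exact ⟨le_rfl, fun k => by simp⟩
    · rw [hx]; exact StarC_adj hσ i s hy
    · rw [hy]; exact (StarC_adj hσ i s hx).symm
    · exact hσ.1 x hx y hy
  · intro w hw hne
    rcases Finset.mem_insert.1 hw with hw | hw
    · rw [hw]; exact hL
    · exact hσ.2.2 w hw hne

theorem StarC_er (hσ : LS Lo v σ) (hv : StarR_a v i s σ + Pi.single i (sz s) ≠ v) :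
    LS Lo v (σ.erase (StarR_a v i s σ + Pi.single i (sz s))) :=
  ⟨hσ.1.mono (Finset.erase_subset _ _), Finset.mem_erase.2 ⟨hv.symm, hσ.2.1⟩,
    fun w hw hne => hσ.2.2 w (Finset.mem_of_mem_erase hw) hne⟩

/-- coordinates of the toggled vertex -/
theorem StarC_t_same (v : ι → ℤ) (i : ι) (s : Bool) (σ : Finset (ι → ℤ)) :
    (StarR_a v i s σ + Pi.single i (sz s) : ι → ℤ) i = StarR_a v i s σ i + sz s := by
  simp

theorem StarC_t_other (v : ι → ℤ) {i k : ι} (s : Bool) (σ : Finset (ι → ℤ)) (h : k ≠ i) :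
    (StarR_a v i s σ + Pi.single i (sz s) : ι → ℤ) k = StarR_a v i s σ k := by
  simp [h]

/-- case 1: the pivot is on the side of the sign -/
theorem StarC_one_side (hσ : LS Lo v σ) (h1 : StarC_first (StarC_used v e σ) i)
    (h2 : s = true ↔ ∃ w ∈ σ, w i < v i) : StarR_a v i s σ i + sz s = v i := by
  have hn := abs_le.1 (StarC_near hσ (StarC_a_mem hσ i s) i)
  cases s
  · obtain ⟨w, hw, hne⟩ := h1.1.2
    have h3 : ¬ w i < v i := fun h => by
      have := h2.2 ⟨w, hw, h⟩
      exact absurd this (by decide)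
    have h4 := StarC_a_ile hσ i false hw
    have h5 : sz false = -1 := rfl
    rw [h5] at h4 ⊢
    omega
  · obtain ⟨w, hw, hlt⟩ := h2.1 rfl
    have h4 := StarC_a_ile hσ i true hw
    have h5 : sz true = 1 := rfl
    rw [h5] at h4 ⊢
    omega

theorem StarC_one_ne (hσ : LS Lo v σ) (h1 : StarC_first (StarC_used v e σ) i)
    (h2 : s = true ↔ ∃ w ∈ σ, w i < v i) : StarR_a v i s σ i ≠ v i := by
  have h3 := StarC_one_side hσ h1 h2
  rcases StarR_sz s with hs | hs <;> rw [hs] at h3 <;> omega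

/-- case 1: the direction does not change as long as the pivot stays -/
theorem StarC_one_stable (hσ : LS Lo v σ) (h1 : StarC_first (StarC_used v e σ) i)
    (h2 : s = true ↔ ∃ w ∈ σ, w i < v i) {ρ : Finset (ι → ℤ)}
    (hρ : ρ ⊆ insert (StarR_a v i s σ + Pi.single i (sz s)) σ)
    (ha : StarR_a v i s σ ∈ ρ) : StarC_D v e ρ i s := by
  have h3 := StarC_one_side hσ h1 h2
  have h4 := StarC_one_ne hσ h1 h2
  have h5 := StarC_a_mem hσ i s
  left
  refine ⟨⟨⟨h1.1.1, _, ha, h4⟩, fun k hk => ?_⟩, fun h => ?_, fun h => ?_⟩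
  · obtain ⟨hk1, w, hw, hne⟩ := hk
    rcases Finset.mem_insert.1 (hρ hw) with hw' | hw'
    · by_cases hki : k = i
      · rw [hki]
      · refine h1.2 k ⟨hk1, _, h5, ?_⟩
        rw [hw', StarC_t_other v s σ hki] at hne
        exact hne
    · exact h1.2 k ⟨hk1, w, hw', hne⟩
  · refine ⟨_, ha, ?_⟩
    subst h
    have h6 : sz true = 1 := rfl
    rw [h6] at h3
    omega
  · obtain ⟨w, hw, hlt⟩ := h
    rcases Finset.mem_insert.1 (hρ hw) with hw' | hw'
    · rw [hw', StarC_t_same, h3] at hlt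
      exact absurd hlt (lt_irrefl _)
    · exact h2.2 ⟨w, hw', hlt⟩

/-- case 1: the toggled vertex is low -/
theorem StarC_one_low (hb : ∀ w, Nr v w → w ∈ Lo → ∀ i, e i = true → w i ≠ v i →
      Function.update w i (v i) ∈ Lo) (hσ : LS Lo v σ)
    (h1 : StarC_first (StarC_used v e σ) i)
    (h2 : s = true ↔ ∃ w ∈ σ, w i < v i) : StarR_a v i s σ + Pi.single i (sz s) ∈ Lo := by
  have h3 := StarC_one_side hσ h1 h2
  have h4 := StarC_one_ne hσ h1 h2
  have h5 := StarC_a_mem hσ i s
  have h6 : StarR_a v i s σ ≠ v := fun h => h4 (by rw [h])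
  have h7 := hb _ (StarC_near hσ h5) (hσ.2.2 _ h5 h6) i h1.1.1 h4
  convert h7 using 1
  funext k
  by_cases hk : k = i
  · subst hk
    rw [StarC_t_same, h3, Function.update_self]
  · rw [StarC_t_other v s σ hk, Function.update_of_ne hk]

/-- case 2: bounds of the pivot coordinate -/
theorem StarC_two_side (hσ : LS Lo v σ) (i : ι) :
    v i - 1 ≤ StarR_a v i true σ i ∧ StarR_a v i true σ i ≤ v i := by
  have hn := abs_le.1 (StarC_near hσ (StarC_a_mem hσ i true) i)
  have h4 := StarC_a_ile hσ i true hσ.2.1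
  have h5 : sz true = 1 := rfl
  rw [h5] at h4
  omega

/-- case 2: the toggled vertex is not in the flag -/
theorem StarC_two_ne (hσ : LS Lo v σ) (h0 : ∀ k, ¬ StarC_used v e σ k)
    (h1 : StarC_first (StarC_miss v e σ) i)
    (h : ∀ k, (e k = false → StarC_ka i < StarC_ka k) →
      (StarR_a v i true σ + Pi.single i (sz true) : ι → ℤ) k = v k)
    (hi : (StarR_a v i true σ + Pi.single i (sz true) : ι → ℤ) i = v i) : False := by
  have h5 := StarC_a_mem hσ i true
  have hs : sz true = 1 := rfl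
  rw [StarC_t_same, hs] at hi
  apply h1.1.2
  have : StarC_U v e i = StarR_a v i true σ := by
    funext k
    unfold StarC_U
    by_cases hk : e k = false ∧ StarC_ka k ≤ StarC_ka i
    · rw [if_pos hk]
      by_cases hki : k = i
      · subst hki; omega
      · have hlt : StarC_ka k < StarC_ka i :=
          lt_of_le_of_ne hk.2 fun h => hki (StarC_ka_inj h)
        have hU : StarC_U v e k ∈ σ := by
          by_contra hcon
          exact absurd (h1.2 k ⟨hk.1, hcon⟩) (not_le.2 hlt)
        have hn := abs_le.1 (StarC_near hσ h5 k)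
        have e1 : StarC_U v e k k = v k - 1 := by
          unfold StarC_U
          rw [if_pos ⟨hk.1, le_rfl⟩]
        have e2 : StarC_U v e k i = v i := by
          unfold StarC_U
          rw [if_neg fun h => absurd h.2 (not_le.2 hlt)]
        rcases hσ.1 _ h5 _ hU with h6 | h6
        · have h7 : StarR_a v i true σ k ≤ StarC_U v e k k := h6.1 k
          rw [e1] at h7
          linarith [hn.1]
        · have h7 : StarC_U v e k i ≤ StarR_a v i true σ i := h6.1 i
          rw [e2] at h7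
          omega
    · rw [if_neg hk]
      have h6 := h k fun hek => by
        by_contra hcon
        exact hk ⟨hek, not_lt.1 hcon⟩
      have hki : k ≠ i := fun h => hk (by rw [h]; exact ⟨h1.1.1, le_rfl⟩)
      rw [StarC_t_other v true σ hki] at h6
      exact h6.symm
  rw [this]
  exact h5

theorem StarC_two_ne_v (hσ : LS Lo v σ) (h0 : ∀ k, ¬ StarC_used v e σ k)
    (h1 : StarC_first (StarC_miss v e σ) i) :
    StarR_a v i true σ + Pi.single i (sz true) ≠ v := fun h =>
  StarC_two_ne hσ h0 h1 (fun k _ => by rw [h]) (by rw [h])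

theorem StarC_two_ne_U (hσ : LS Lo v σ) (h0 : ∀ k, ¬ StarC_used v e σ k)
    (h1 : StarC_first (StarC_miss v e σ) i) {l : ι} (hl : StarC_ka l < StarC_ka i) :
    StarR_a v i true σ + Pi.single i (sz true) ≠ StarC_U v e l := fun h =>
  StarC_two_ne hσ h0 h1 (fun k hk => by
    rw [h]
    unfold StarC_U
    rw [if_neg]
    rintro ⟨h2, h3⟩
    have := hk h2
    omega) (by
    rw [h]
    unfold StarC_U
    rw [if_neg]
    rintro ⟨_, h3⟩
    omega)

theorem StarC_two_ne_Ui (hσ : LS Lo v σ) (h1 : e i = false) :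
    StarR_a v i true σ + Pi.single i (sz true) ≠ StarC_U v e i := fun h => by
  have h2 := congrFun h i
  have hs : sz true = 1 := rfl
  rw [StarC_t_same, hs] at h2
  unfold StarC_U at h2
  rw [if_pos ⟨h1, le_rfl⟩] at h2
  have := StarC_two_side hσ i
  omega

/-- case 2: plus coordinates of all vertices -/
theorem StarC_two_plus (hσ : LS Lo v σ) (h0 : ∀ k, ¬ StarC_used v e σ k) (hi : e i = false)
    {w : ι → ℤ} (hw : w ∈ insert (StarR_a v i true σ + Pi.single i (sz true)) σ)
    {k : ι} (hk : e k = true) : w k = v k := by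
  have h5 := StarC_a_mem hσ i true
  have key : ∀ x ∈ σ, x k = v k := fun x hx => by
    by_contra hne
    exact h0 k ⟨hk, x, hx, hne⟩
  rcases Finset.mem_insert.1 hw with hw' | hw'
  · have hki : k ≠ i := fun h => by rw [h, hi] at hk; exact absurd hk (by decide)
    rw [hw', StarC_t_other v true σ hki]
    exact key _ h5
  · exact key _ hw'

/-- case 2: the direction does not change as long as the flag stays -/
theorem StarC_two_stable (hσ : LS Lo v σ) (h0 : ∀ k, ¬ StarC_used v e σ k)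
    (h1 : StarC_first (StarC_miss v e σ) i) {ρ : Finset (ι → ℤ)}
    (hρ : ρ ⊆ insert (StarR_a v i true σ + Pi.single i (sz true)) σ)
    (hU : ∀ l, e l = false → StarC_ka l < StarC_ka i → StarC_U v e l ∈ ρ) :
    StarC_D v e ρ i true := by
  right
  refine ⟨fun k hk => ?_, ⟨⟨h1.1.1, fun h => ?_⟩, fun k hk => ?_⟩, rfl⟩
  · obtain ⟨hk1, w, hw, hne⟩ := hk
    exact hne (StarC_two_plus hσ h0 h1.1.1 (hρ hw) hk1)
  · rcases Finset.mem_insert.1 (hρ h) with h2 | h2
    · exact StarC_two_ne_Ui hσ h1.1.1 h2.symm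
    · exact h1.1.2 h2
  · by_contra hlt
    exact hk.2 (hU k hk.1 (not_le.1 hlt))

/-- case 2: the toggled vertex is low -/
theorem StarC_two_low (hc : ∀ w, Nr v w → w ≠ v → (∀ i, e i = true → w i = v i) → w ∈ Lo)
    (hσ : LS Lo v σ) (h0 : ∀ k, ¬ StarC_used v e σ k)
    (h1 : StarC_first (StarC_miss v e σ) i) :
    StarR_a v i true σ + Pi.single i (sz true) ∈ Lo :=
  hc _ (StarR_near (StarC_adj hσ i true hσ.2.1).symm) (StarC_two_ne_v hσ h0 h1)
    fun k hk => StarC_two_plus hσ h0 h1.1.1 (Finset.mem_insert_self _ _) hk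

/-- the flag as a simplex -/
noncomputable def StarC_F (v : ι → ℤ) (e : ι → Bool) : Finset (ι → ℤ) :=
  insert v ((Finset.univ.filter fun i => e i = false).image (StarC_U v e))

theorem StarC_F_card (v : ι → ℤ) (e : ι → Bool) : (StarC_F v e).card = nm e + 1 := by
  unfold StarC_F
  rw [Finset.card_insert_of_notMem, Finset.card_image_of_injOn]
  · rfl
  · intro i hi k hk h
    have hi' : e i = false := by simpa using hi
    have hk' : e k = false := by simpa using hk
    have key : ∀ a b : ι, e a = false → e b = false → StarC_U v e a = StarC_U v e b →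
        StarC_ka a ≤ StarC_ka b := by
      intro a b ha hb hab
      by_contra hcon
      have h1 := congrFun hab a
      unfold StarC_U at h1
      rw [if_pos ⟨ha, le_rfl⟩, if_neg fun h => hcon h.2] at h1
      omega
    exact StarC_ka_inj (le_antisymm (key i k hi' hk' h) (key k i hk' hi' h.symm))
  · intro h
    obtain ⟨i, hi, h1⟩ := Finset.mem_image.1 h
    have hi' : e i = false := by simpa using hi
    have h2 := congrFun h1 i
    unfold StarC_U at h2
    rw [if_pos ⟨hi', le_rfl⟩] at h2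
    omega

/-- the critical simplex -/
theorem StarC_crit (hσ : LS Lo v σ) (hn : ¬ ∃ p : ι × Bool, StarC_D v e σ p.1 p.2) :
    σ = StarC_F v e := by
  have h0 : ∀ k, ¬ StarC_used v e σ k := by
    intro k hk
    obtain ⟨i, hi⟩ := StarC_first_exists ⟨k, hk⟩
    by_cases hs : ∃ w ∈ σ, w i < v i
    · exact hn ⟨(i, true), Or.inl ⟨hi, by simpa using hs⟩⟩
    · exact hn ⟨(i, false), Or.inl ⟨hi, by simpa using hs⟩⟩
  have h1 : ∀ k, e k = false → StarC_U v e k ∈ σ := by
    intro k hk
    by_contra hcon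
    obtain ⟨i, hi⟩ := StarC_first_exists (P := StarC_miss v e σ) ⟨k, hk, hcon⟩
    exact hn ⟨(i, true), Or.inr ⟨h0, hi, rfl⟩⟩
  ext w
  unfold StarC_F
  rw [Finset.mem_insert, Finset.mem_image]
  constructor
  · intro hw
    by_cases hwv : w = v
    · exact Or.inl hwv
    right
    have hU : ∀ k, StarC_U v e k k = if e k = false then v k - 1 else v k := by
      intro k
      unfold StarC_U
      by_cases hk : e k = false
      · rw [if_pos ⟨hk, le_rfl⟩, if_pos hk]
      · rw [if_neg fun h => hk h.1, if_neg hk]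
    have hplus : ∀ k, e k = true → w k = v k := by
      intro k hk
      by_contra hne
      exact h0 k ⟨hk, w, hw, hne⟩
    have hle : ∀ k, w k ≤ v k := by
      intro k
      by_cases hk : e k = false
      · have h2 : StarC_U v e k k = v k - 1 := by rw [hU, if_pos hk]
        have h3 := StarR_near (hσ.1 _ (h1 k hk) _ hw) k
        rw [h2] at h3
        have := abs_le.1 h3
        linarith [this.2]
      · exact (hplus k (by simpa using hk)).le
    have hex : ∃ k, e k = false ∧ w k ≠ v k := by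
      by_contra hcon
      apply hwv
      funext k
      by_cases hk : e k = false
      · by_contra hne
        exact hcon ⟨k, hk, hne⟩
      · exact hplus k (by simpa using hk)
    obtain ⟨i, hi, hmax⟩ := (Finset.univ.filter fun k => e k = false ∧ w k ≠ v k).exists_max_image
      StarC_ka (by
        obtain ⟨k, hk⟩ := hex
        exact ⟨k, by simpa using hk⟩)
    have hi' : e i = false ∧ w i ≠ v i := by simpa using hi
    refine ⟨i, by simpa using hi'.1, ?_⟩
    have hlt : w i < v i := lt_of_le_of_ne (hle i) hi'.2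
    funext k
    have hnk := abs_le.1 (StarC_near hσ hw k)
    by_cases hk : e k = false ∧ StarC_ka k ≤ StarC_ka i
    · have e0 : StarC_U v e i k = v k - 1 := by
        unfold StarC_U
        rw [if_pos hk]
      rw [e0]
      by_cases hki : k = i
      · subst hki
        omega
      · have hlt' : StarC_ka k < StarC_ka i :=
          lt_of_le_of_ne hk.2 fun h => hki (StarC_ka_inj h)
        have e1 : StarC_U v e k k = v k - 1 := by rw [hU, if_pos hk.1]
        have e2 : StarC_U v e k i = v i := by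
          unfold StarC_U
          rw [if_neg fun h => absurd h.2 (not_le.2 hlt')]
        rcases hσ.1 _ hw _ (h1 k hk.1) with h6 | h6
        · have h7 : w k ≤ StarC_U v e k k := h6.1 k
          rw [e1] at h7
          linarith [hnk.1]
        · have h7 : StarC_U v e k i ≤ w i := h6.1 i
          rw [e2] at h7
          omega
    · have e0 : StarC_U v e i k = v k := by
        unfold StarC_U
        rw [if_neg hk]
      rw [e0]
      by_cases hek : e k = false
      · by_contra hne
        exact hk ⟨hek, hmax k (by simpa using ⟨hek, fun h => hne h.symm⟩)⟩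
      · exact (hplus k (by simpa using hek)).symm
  · rintro (hw | ⟨k, hk, hw⟩)
    · rw [hw]; exact hσ.2.1
    · rw [← hw]; exact h1 k (by simpa using hk)

end

/-- first component of the potential -/
def StarC_f (v : ι → ℤ) (e : ι → Bool) (w : ι → ℤ) : ℕ :=
  ∑ k, if e k = true then (w k - v k).natAbs else 0

/-- third component of the potential -/
def StarC_g (v : ι → ℤ) (e : ι → Bool) (w : ι → ℤ) : ℕ :=
  ∑ k, if e k = false then (v k + 1 - w k).toNat else 0

/-- second component of the potential -/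
noncomputable def StarC_r (v : ι → ℤ) (e : ι → Bool) (σ : Finset (ι → ℤ)) : ℕ :=
  sInf {n | ∃ k, StarC_miss v e σ k ∧ StarC_ka k = n}

omit [DecidableEq ι] in
theorem StarC_r_le {v : ι → ℤ} {e : ι → Bool} {σ : Finset (ι → ℤ)} {k : ι}
    (h : StarC_miss v e σ k) : StarC_r v e σ ≤ StarC_ka k :=
  Nat.sInf_le ⟨k, h, rfl⟩

omit [DecidableEq ι] in
theorem StarC_r_eq {v : ι → ℤ} {e : ι → Bool} {σ : Finset (ι → ℤ)} {k : ι}
    (h : StarC_first (StarC_miss v e σ) k) : StarC_r v e σ = StarC_ka k := by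
  refine le_antisymm (StarC_r_le h.1) ?_
  refine le_csInf ⟨_, k, h.1, rfl⟩ ?_
  rintro n ⟨l, hl, rfl⟩
  exact h.2 l hl

/-- the potential -/
noncomputable def StarC_mu (v : ι → ℤ) (e : ι → Bool) (σ : Finset (ι → ℤ)) : ℕ ×ₗ ℕ ×ₗ ℕ :=
  toLex (∑ w ∈ σ, StarC_f v e w, toLex (StarC_r v e σ, ∑ w ∈ σ, StarC_g v e w))

omit [DecidableEq ι] in
theorem StarC_mu_lt {v : ι → ℤ} {e : ι → Bool} {ρ σ : Finset (ι → ℤ)}
    (h : ∑ w ∈ ρ, StarC_f v e w < ∑ w ∈ σ, StarC_f v e w ∨
      (∑ w ∈ ρ, StarC_f v e w = ∑ w ∈ σ, StarC_f v e w ∧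
        (StarC_r v e ρ < StarC_r v e σ ∨ (StarC_r v e ρ = StarC_r v e σ ∧
          ∑ w ∈ ρ, StarC_g v e w < ∑ w ∈ σ, StarC_g v e w)))) :
    StarC_mu v e ρ < StarC_mu v e σ := by
  unfold StarC_mu
  rw [Prod.Lex.toLex_lt_toLex]
  rcases h with h | ⟨h1, h2⟩
  · exact Or.inl h
  · refine Or.inr ⟨h1, ?_⟩
    rw [Prod.Lex.toLex_lt_toLex]
    exact h2

section
variable {Lo : Set (ι → ℤ)} {v : ι → ℤ} {e : ι → Bool} {σ ρ : Finset (ι → ℤ)} {i : ι} {s : Bool}
  {w : ι → ℤ}

theorem StarC_pot_one (hσ : LS Lo v σ) (h1 : StarC_first (StarC_used v e σ) i)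
    (h2 : s = true ↔ ∃ w ∈ σ, w i < v i)
    (hsub : ρ ⊆ insert (StarR_a v i s σ + Pi.single i (sz s)) σ)
    (hmem : w ≠ StarR_a v i s σ → StarR_a v i s σ ∈ ρ)
    (hG : w ≠ StarR_a v i s σ → StarC_D v e ρ i s → False)
    (hsum : ∀ f : (ι → ℤ) → ℕ, (∑ x ∈ ρ, f x) + f w =
      f (StarR_a v i s σ + Pi.single i (sz s)) + ∑ x ∈ σ, f x) :
    StarC_mu v e ρ < StarC_mu v e σ := by
  by_cases hwa : w = StarR_a v i s σ
  · have hf : StarC_f v e (StarR_a v i s σ + Pi.single i (sz s)) <
        StarC_f v e (StarR_a v i s σ) := by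
      have e1 := StarC_one_side hσ h1 h2
      have e2 := StarC_one_ne hσ h1 h2
      unfold StarC_f
      refine Finset.sum_lt_sum (fun k _ => ?_) ⟨i, Finset.mem_univ _, ?_⟩
      · by_cases hk : e k = true
        · rw [if_pos hk, if_pos hk]
          by_cases hki : k = i
          · subst hki
            rw [StarC_t_same, e1]
            simp
          · rw [StarC_t_other v s σ hki]
        · rw [if_neg hk, if_neg hk]
      · rw [if_pos h1.1.1, if_pos h1.1.1, StarC_t_same, e1]
        omega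
    have h5 := hsum (StarC_f v e)
    refine StarC_mu_lt (Or.inl ?_)
    rw [hwa] at h5
    omega
  · exact (hG hwa (StarC_one_stable hσ h1 h2 hsub (hmem hwa))).elim

theorem StarC_pot_two (hσ : LS Lo v σ) (h1 : ∀ k, ¬ StarC_used v e σ k)
    (h2 : StarC_first (StarC_miss v e σ) i)
    (hsub : ρ ⊆ insert (StarR_a v i true σ + Pi.single i (sz true)) σ)
    (hG : w ≠ StarR_a v i true σ → StarC_D v e ρ i true → False)
    (hsum : ∀ f : (ι → ℤ) → ℕ, (∑ x ∈ ρ, f x) + f w =
      f (StarR_a v i true σ + Pi.single i (sz true)) + ∑ x ∈ σ, f x) :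
    StarC_mu v e ρ < StarC_mu v e σ := by
  have hz : ∀ x ∈ insert (StarR_a v i true σ + Pi.single i (sz true)) σ,
      StarC_f v e x = 0 := by
    intro x hx
    unfold StarC_f
    refine Finset.sum_eq_zero fun k _ => ?_
    by_cases hk : e k = true
    · rw [if_pos hk, StarC_two_plus hσ h1 h2.1.1 hx hk]
      simp
    · rw [if_neg hk]
  have hP : ∑ x ∈ ρ, StarC_f v e x = ∑ x ∈ σ, StarC_f v e x := by
    rw [Finset.sum_eq_zero fun x hx => hz x (hsub hx),
      Finset.sum_eq_zero fun x hx => hz x (Finset.mem_insert_of_mem hx)]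
  refine StarC_mu_lt (Or.inr ⟨hP, ?_⟩)
  have hri : StarC_r v e ρ ≤ StarC_r v e σ := by
    rw [StarC_r_eq h2]
    refine StarC_r_le ⟨h2.1.1, fun h => ?_⟩
    rcases Finset.mem_insert.1 (hsub h) with h5 | h5
    · exact StarC_two_ne_Ui hσ h2.1.1 h5.symm
    · exact h2.1.2 h5
  by_cases hwa : w = StarR_a v i true σ
  · have hg : StarC_g v e (StarR_a v i true σ + Pi.single i (sz true)) <
        StarC_g v e (StarR_a v i true σ) := by
      have e1 := StarC_two_side hσ i
      have hs : sz true = 1 := rfl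
      unfold StarC_g
      refine Finset.sum_lt_sum (fun k _ => ?_) ⟨i, Finset.mem_univ _, ?_⟩
      · by_cases hk : e k = false
        · rw [if_pos hk, if_pos hk]
          by_cases hki : k = i
          · subst hki
            rw [StarC_t_same, hs]
            omega
          · rw [StarC_t_other v true σ hki]
        · rw [if_neg hk, if_neg hk]
      · rw [if_pos h2.1.1, if_pos h2.1.1, StarC_t_same, hs]
        omega
    have h5 := hsum (StarC_g v e)
    rcases lt_or_eq_of_le hri with h6 | h6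
    · exact Or.inl h6
    · right
      refine ⟨h6, ?_⟩
      rw [hwa] at h5
      omega
  · left
    by_contra hcon
    refine hG hwa (StarC_two_stable hσ h1 h2 hsub fun l hl hlt => ?_)
    by_contra hl2
    have h7 : StarC_r v e ρ ≤ StarC_ka l := StarC_r_le ⟨hl, hl2⟩
    rw [StarC_r_eq h2] at hcon
    omega

end

/-- The lower star of a critical vertex with `m` minus signs has cohomology of rank at most one
in dimension `m` and no other cohomology. -/
theorem EX_critical (Lo : Set (ι → ℤ)) (v : ι → ℤ) (e : ι → Bool) (hv : v ∉ Lo)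
    (ha : ∀ i, e i = true → ∀ s, v + Pi.single i (sz s) ∉ Lo)
    (hb : ∀ w, Nr v w → w ∈ Lo → ∀ i, e i = true → w i ≠ v i → Function.update w i (v i) ∈ Lo)
    (hc : ∀ w, Nr v w → w ≠ v → (∀ i, e i = true → w i = v i) → w ∈ Lo) (j : ℕ) :
    EX F (LS Lo v) j (if j = nm e then 1 else 0) := by
  have hlow : ∀ σ, LS Lo v σ → ∀ i s, StarC_D v e σ i s →
      StarR_a v i s σ + Pi.single i (sz s) ∈ Lo := by
    intro σ hσ i s hD
    rcases hD with ⟨h1, h2⟩ | ⟨h1, h2, h3⟩
    · exact StarC_one_low hb hσ h1 h2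
    · subst h3
      exact StarC_two_low hc hσ h1 h2
  have hne : ∀ σ, LS Lo v σ → ∀ i s, StarC_D v e σ i s →
      StarR_a v i s σ + Pi.single i (sz s) ≠ v := fun σ hσ i s hD h => hv (h ▸ hlow σ hσ i s hD)
  have hinsD : ∀ σ, LS Lo v σ → ∀ i s, StarC_D v e σ i s →
      StarC_D v e (insert (StarR_a v i s σ + Pi.single i (sz s)) σ) i s := by
    intro σ hσ i s hD
    rcases hD with ⟨h1, h2⟩ | ⟨h1, h2, h3⟩
    · exact StarC_one_stable hσ h1 h2 subset_rfl
        (Finset.mem_insert_of_mem (StarC_a_mem hσ i s))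
    · subst h3
      refine StarC_two_stable hσ h1 h2 subset_rfl fun l hl hlt => ?_
      refine Finset.mem_insert_of_mem ?_
      by_contra hcon
      exact absurd (h2.2 l ⟨hl, hcon⟩) (not_le.2 hlt)
  have herD : ∀ σ, LS Lo v σ → ∀ i s, StarC_D v e σ i s →
      StarC_D v e (σ.erase (StarR_a v i s σ + Pi.single i (sz s))) i s := by
    intro σ hσ i s hD
    rcases hD with ⟨h1, h2⟩ | ⟨h1, h2, h3⟩
    · exact StarC_one_stable hσ h1 h2 ((Finset.erase_subset _ _).trans (Finset.subset_insert _ _))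
        (Finset.mem_erase.2 ⟨(StarC_t_ne_a v i s σ).symm, StarC_a_mem hσ i s⟩)
    · subst h3
      refine StarC_two_stable hσ h1 h2
        ((Finset.erase_subset _ _).trans (Finset.subset_insert _ _)) fun l hl hlt => ?_
      refine Finset.mem_erase.2 ⟨(StarC_two_ne_U hσ h1 h2 hlt).symm, ?_⟩
      by_contra hcon
      exact absurd (h2.2 l ⟨hl, hcon⟩) (not_le.2 hlt)
  have hpot : ∀ σ, LS Lo v σ → ∀ i s, StarC_D v e σ i s →
      StarR_a v i s σ + Pi.single i (sz s) ∉ σ → ∀ w ∈ σ, ∀ ρ,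
      ρ = (insert (StarR_a v i s σ + Pi.single i (sz s)) σ).erase w → LS Lo v ρ →
      StarC_t v e ρ ∉ ρ → StarC_mu v e ρ < StarC_mu v e σ := by
    intro σ hσ i s hD ht w hw ρ hρ hS hnot
    have hsub : ρ ⊆ insert (StarR_a v i s σ + Pi.single i (sz s)) σ := by
      rw [hρ]; exact Finset.erase_subset _ _
    have ham := StarC_a_mem hσ i s
    have hmem : w ≠ StarR_a v i s σ → StarR_a v i s σ ∈ ρ := fun h => by
      rw [hρ]
      exact Finset.mem_erase.2 ⟨h.symm, Finset.mem_insert_of_mem ham⟩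
    have hG : w ≠ StarR_a v i s σ → StarC_D v e ρ i s → False := by
      intro hwa hD2
      apply hnot
      rw [StarC_t_eq hD2, StarC_a_stable hσ hsub hS.1 (hmem hwa), hρ]
      exact Finset.mem_erase.2 ⟨fun h => ht (h ▸ hw), Finset.mem_insert_self _ _⟩
    have hsum : ∀ f : (ι → ℤ) → ℕ, (∑ x ∈ ρ, f x) + f w =
        f (StarR_a v i s σ + Pi.single i (sz s)) + ∑ x ∈ σ, f x := by
      intro f
      rw [hρ, Finset.sum_erase_add _ _ (Finset.mem_insert_of_mem hw), Finset.sum_insert ht]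
    rcases hD with ⟨h1, h2⟩ | ⟨h1, h2, h3⟩
    · exact StarC_pot_one hσ h1 h2 hsub hmem hG hsum
    · subst h3
      exact StarC_pot_two hσ h1 h2 hsub hG hsum
  have hmain := matching (F := F) (LS Lo v) (fun σ hσ => hσ.1) (LS_conv Lo v)
    (fun σ => ¬ ∃ p : ι × Bool, StarC_D v e σ p.1 p.2) (StarC_t v e)
    (fun σ hσ hcr => by
      obtain ⟨⟨i, s⟩, hD⟩ := not_not.1 hcr
      have hD' : StarC_D v e σ i s := hD
      have h1 := StarC_ins hσ (hlow σ hσ i s hD')
      have h2 := StarC_er (i := i) (s := s) hσ (hne σ hσ i s hD')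
      have h3 := hinsD σ hσ i s hD'
      have h4 := herD σ hσ i s hD'
      rw [StarC_t_eq hD']
      refine ⟨⟨h1, fun h => h ⟨(i, s), h3⟩, ?_⟩, h2, fun h => h ⟨(i, s), h4⟩, ?_⟩
      · rw [StarC_t_eq h3, StarC_a_stable hσ subset_rfl h1.1
          (Finset.mem_insert_of_mem (StarC_a_mem hσ i s))]
      · rw [StarC_t_eq h4, StarC_a_stable hσ
          ((Finset.erase_subset _ _).trans (Finset.subset_insert _ _)) h2.1
          (Finset.mem_erase.2 ⟨(StarC_t_ne_a v i s σ).symm, StarC_a_mem hσ i s⟩)])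
    (StarC_mu v e)
    (fun σ hσ hcr htσ w hw hS hcr' hnot => by
      obtain ⟨⟨i, s⟩, hD⟩ := not_not.1 hcr
      have hD' : StarC_D v e σ i s := hD
      have e1 := StarC_t_eq hD'
      rw [e1] at htσ
      exact hpot σ hσ i s hD' htσ w hw _ (by rw [e1]) hS hnot)
    j
  by_cases hj : j = nm e
  · rw [if_pos hj]
    have := hmain {StarC_F v e} (fun σ hσ hcr _ => by
      rw [Finset.mem_singleton]
      exact StarC_crit hσ hcr)
    simpa using this
  · rw [if_neg hj]
    have := hmain ∅ (fun σ hσ hcr hcard => by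
      exfalso
      rw [StarC_crit hσ hcr, StarC_F_card] at hcard
      omega)
    simpa using this

end Pool.Agent.H47.ST
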