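import Pool.Agent.H47.ST.Match

/-!
# Lower star of a regular vertex
-/

set_option autoImplicit false

namespace Pool.Agent.H47.ST

variable {ι : Type*} [Fintype ι] [DecidableEq ι] {F : Type*} [Field F]

/-- `w` is near `v` -/
def Nr (v w : ι → ℤ) : Prop := ∀ i, |w i - v i| ≤ 1

/-- the sign `1` or `-1` -/
def sz (s : Bool) : ℤ := if s then 1 else -1

/-- The simplices containing `v` whose other vertices are in `Lo`. -/
def LS (Lo : Set (ι → ℤ)) (v : ι → ℤ) (σ : Finset (ι → ℤ)) : Prop :=
  Simp σ ∧ v ∈ σ ∧ ∀ w ∈ σ, w ≠ v → w ∈ Lo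

theorem LS_conv (Lo : Set (ι → ℤ)) (v : ι → ℤ) (σ τ ρ : Finset (ι → ℤ)) (h1 : σ ⊆ τ) (h2 : τ ⊆ ρ)
    (hs : LS Lo v σ) (hr : LS Lo v ρ) : LS Lo v τ :=
  ⟨hr.1.mono h2, h1 hs.2.1, fun w hw hne => hr.2.2 w (h2 hw) hne⟩

omit [DecidableEq ι] in
theorem StarR_sum_le {v w : ι → ℤ} (h : v ≤ w) (h' : w ≤ v + 1) :
    0 ≤ (∑ k, w k) - ∑ k, v k ∧ (∑ k, w k) - ∑ k, v k ≤ Fintype.card ι := by
  rw [← Finset.sum_sub_distrib]
  refine ⟨Finset.sum_nonneg fun k _ => sub_nonneg.2 (h k), ?_⟩
  calc ∑ k, (w k - v k) ≤ ∑ _k : ι, (1 : ℤ) := by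
        refine Finset.sum_le_sum fun k _ => ?_
        have := h' k
        simp only [Pi.add_apply, Pi.one_apply] at this
        linarith
    _ = Fintype.card ι := by simp

omit [DecidableEq ι] in
theorem StarR_sum_abs {v w : ι → ℤ} (h : Adj v w) :
    |(∑ k, w k) - ∑ k, v k| ≤ Fintype.card ι := by
  rcases h with ⟨h1, h2⟩ | ⟨h1, h2⟩
  · obtain ⟨h3, h4⟩ := StarR_sum_le h1 h2
    rw [abs_le]
    constructor <;> linarith
  · obtain ⟨h3, h4⟩ := StarR_sum_le h1 h2
    rw [abs_le]
    constructor <;> linarith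

omit [DecidableEq ι] in
theorem StarR_eq {v w : ι → ℤ} (h : Adj v w) (hs : (∑ k, w k) = ∑ k, v k) : v = w := by
  rcases h with ⟨h1, _⟩ | ⟨h1, _⟩
  · funext k
    exact (Finset.sum_eq_sum_iff_of_le fun i _ => h1 i).1 hs.symm k (Finset.mem_univ k)
  · funext k
    exact ((Finset.sum_eq_sum_iff_of_le fun i _ => h1 i).1 hs k (Finset.mem_univ k)).symm

/-- the key function -/
def StarR_key (i : ι) (s : Bool) (w : ι → ℤ) : ℤ :=
  sz s * (((Fintype.card ι : ℤ) + 2) * w i - ∑ k, w k)

theorem StarR_sz (s : Bool) : sz s = 1 ∨ sz s = -1 := by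
  cases s
  · right; rfl
  · left; rfl

omit [DecidableEq ι] in
theorem StarR_ile {i : ι} {s : Bool} {a w : ι → ℤ} (h : Adj a w)
    (hk : StarR_key i s a ≤ StarR_key i s w) : sz s * (a i - w i) ≤ 0 := by
  by_contra hcon
  have hcon' : 1 ≤ sz s * (a i - w i) := by
    have := not_le.1 hcon
    omega
  have h1 := abs_le.1 (StarR_sum_abs h)
  have hc : (0 : ℤ) ≤ Fintype.card ι := Int.natCast_nonneg _
  unfold StarR_key at hk
  have h2 : sz s * ((∑ k, a k) - ∑ k, w k) ≤ Fintype.card ι := by
    rcases StarR_sz s with hs | hs <;> rw [hs] <;> linarith [h1.1, h1.2]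
  have h3 : ((Fintype.card ι : ℤ) + 2) * (sz s * (a i - w i)) ≤
      sz s * ((∑ k, a k) - ∑ k, w k) := by
    linarith [hk]
  nlinarith [h2, h3, hcon', hc]

omit [DecidableEq ι] in
theorem StarR_inj {i : ι} {s : Bool} {a w : ι → ℤ} (h : Adj a w)
    (hk : StarR_key i s a = StarR_key i s w) : a = w := by
  have h1 := StarR_ile h hk.le
  have h2 := StarR_ile h.symm hk.ge
  have h3 : a i = w i := by
    rcases StarR_sz s with hs | hs <;> rw [hs] at h1 h2 <;> linarith
  refine StarR_eq h ?_
  unfold StarR_key at hk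
  rw [h3] at hk
  rcases StarR_sz s with hs | hs <;> rw [hs] at hk <;> linarith

theorem StarR_adj_true {i : ι} {a w : ι → ℤ} (h : Adj a w)
    (hk : StarR_key i true a ≤ StarR_key i true w) : Adj (a + Pi.single i 1) w := by
  have h1 := StarR_ile h hk
  have hs : sz true = 1 := rfl
  rw [hs, one_mul] at h1
  by_cases haw : a = w
  · subst haw
    right
    constructor
    · intro k
      by_cases hki : k = i
      · subst hki; simp
      · simp [hki]
    · intro k
      by_cases hki : k = i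
      · subst hki; simp
      · simp [hki]
  rcases h with ⟨h2, h3⟩ | ⟨h2, h3⟩
  · have h4 : w i = a i + 1 := by
      have h5 := h3 i
      simp only [Pi.add_apply, Pi.one_apply] at h5
      by_contra hne
      have h6 : w i = a i := by
        have := h2 i
        omega
      apply haw
      refine StarR_eq (Or.inl ⟨h2, h3⟩) ?_
      unfold StarR_key at hk
      rw [h6, hs] at hk
      have := (StarR_sum_le h2 h3).1
      linarith
    left
    constructor
    · intro k
      by_cases hki : k = i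
      · subst hki; simp [h4]
      · simpa [hki] using h2 k
    · intro k
      have h5 := h3 k
      simp only [Pi.add_apply, Pi.one_apply] at h5 ⊢
      by_cases hki : k = i
      · subst hki
        simp only [Pi.single_eq_same]
        linarith
      · simp only [Pi.single_eq_of_ne hki]
        linarith
  · right
    constructor
    · intro k
      have h5 := h2 k
      by_cases hki : k = i
      · subst hki
        simp only [Pi.add_apply, Pi.single_eq_same]
        linarith
      · simpa [hki] using h5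
    · intro k
      have h5 := h3 k
      simp only [Pi.add_apply, Pi.one_apply] at h5 ⊢
      by_cases hki : k = i
      · subst hki
        simp only [Pi.single_eq_same]
        linarith
      · simp only [Pi.single_eq_of_ne hki]
        linarith

omit [DecidableEq ι] in
theorem StarR_neg {a w : ι → ℤ} (h : Adj a w) : Adj (-a) (-w) := by
  rcases h with ⟨h1, h2⟩ | ⟨h1, h2⟩
  · right
    refine ⟨neg_le_neg h1, fun k => ?_⟩
    have := h2 k
    simp only [Pi.add_apply, Pi.one_apply, Pi.neg_apply] at this ⊢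
    linarith
  · left
    refine ⟨neg_le_neg h1, fun k => ?_⟩
    have := h2 k
    simp only [Pi.add_apply, Pi.one_apply, Pi.neg_apply] at this ⊢
    linarith

omit [DecidableEq ι] in
theorem StarR_key_neg (i : ι) (w : ι → ℤ) : StarR_key i true (-w) = StarR_key i false w := by
  unfold StarR_key
  have h1 : sz true = 1 := rfl
  have h2 : sz false = -1 := rfl
  rw [h1, h2]
  simp only [Pi.neg_apply, Finset.sum_neg_distrib]
  ring

theorem StarR_adj {i : ι} {s : Bool} {a w : ι → ℤ} (h : Adj a w)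
    (hk : StarR_key i s a ≤ StarR_key i s w) : Adj (a + Pi.single i (sz s)) w := by
  cases s
  · rw [← StarR_key_neg, ← StarR_key_neg] at hk
    have h1 := StarR_neg (StarR_adj_true (StarR_neg h) hk)
    rw [neg_neg] at h1
    have h2 : -(-a + Pi.single i (1 : ℤ)) = a + Pi.single i (sz false) := by
      have h3 : sz false = -1 := rfl
      rw [h3, neg_add, neg_neg, Pi.single_neg]
    rwa [h2] at h1
  · exact StarR_adj_true h hk

open Classical in
/-- the pivot -/
noncomputable def StarR_a (v : ι → ℤ) (i : ι) (s : Bool) (σ : Finset (ι → ℤ)) : ι → ℤ :=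
  if h : ∃ a ∈ σ, ∀ w ∈ σ, StarR_key i s a ≤ StarR_key i s w then Classical.choose h else v

omit [DecidableEq ι] in
theorem StarR_a_spec (v : ι → ℤ) (i : ι) (s : Bool) {σ : Finset (ι → ℤ)} (hσ : σ.Nonempty) :
    StarR_a v i s σ ∈ σ ∧ ∀ w ∈ σ, StarR_key i s (StarR_a v i s σ) ≤ StarR_key i s w := by
  have h : ∃ a ∈ σ, ∀ w ∈ σ, StarR_key i s a ≤ StarR_key i s w :=
    σ.exists_min_image (StarR_key i s) hσ
  unfold StarR_a
  rw [dif_pos h]
  exact Classical.choose_spec h

omit [DecidableEq ι] in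
theorem StarR_a_eq (v : ι → ℤ) (i : ι) (s : Bool) {σ : Finset (ι → ℤ)} (hS : Simp σ) {a : ι → ℤ}
    (ha : a ∈ σ) (hmin : ∀ w ∈ σ, StarR_key i s a ≤ StarR_key i s w) : StarR_a v i s σ = a := by
  obtain ⟨h1, h2⟩ := StarR_a_spec v i s ⟨a, ha⟩
  exact StarR_inj (hS _ h1 _ ha) (le_antisymm (h2 a ha) (hmin _ h1))

omit [Fintype ι] [DecidableEq ι] in
theorem StarR_near {v w : ι → ℤ} (h : Adj v w) : Nr v w := by
  intro k
  rcases h with ⟨h1, h2⟩ | ⟨h1, h2⟩
  · have h3 := h1 k
    have h4 := h2 k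
    simp only [Pi.add_apply, Pi.one_apply] at h4
    rw [abs_le]
    constructor <;> linarith
  · have h3 := h1 k
    have h4 := h2 k
    simp only [Pi.add_apply, Pi.one_apply] at h4
    rw [abs_le]
    constructor <;> linarith

theorem StarR_key_t (i : ι) (s : Bool) (a : ι → ℤ) :
    StarR_key i s (a + Pi.single i (sz s)) = StarR_key i s a + ((Fintype.card ι : ℤ) + 1) := by
  unfold StarR_key
  have h1 : ∑ k, (a + Pi.single i (sz s) : ι → ℤ) k = (∑ k, a k) + sz s := by
    simp only [Pi.add_apply, Finset.sum_add_distrib]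
    congr 1
    exact Fintype.sum_pi_single' i (sz s)
  rw [h1]
  simp only [Pi.add_apply, Pi.single_eq_same]
  rcases StarR_sz s with hs | hs <;> rw [hs] <;> ring

/-- The lower star of a regular vertex is acyclic. -/
theorem EX_regular (Lo : Set (ι → ℤ)) (v : ι → ℤ) (i : ι) (s : Bool) (hv : v ∉ Lo)
    (h1 : ∀ w, Nr v w → sz s * (w i - v i) ≤ 0 → (w = v ∨ w ∈ Lo) →
      w + Pi.single i (sz s) ∈ Lo) (j : ℕ) : EX F (LS Lo v) j 0 := by
  have hc : (0 : ℤ) ≤ Fintype.card ι := Int.natCast_nonneg _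
  set t : Finset (ι → ℤ) → (ι → ℤ) := fun σ => StarR_a v i s σ + Pi.single i (sz s) with ht
  -- basic facts
  have hsp : ∀ σ, LS Lo v σ → StarR_a v i s σ ∈ σ ∧
      (∀ w ∈ σ, StarR_key i s (StarR_a v i s σ) ≤ StarR_key i s w) ∧
      sz s * (StarR_a v i s σ i - v i) ≤ 0 := by
    intro σ hσ
    obtain ⟨h2, h3⟩ := StarR_a_spec v i s ⟨v, hσ.2.1⟩
    exact ⟨h2, h3, StarR_ile (hσ.1 _ h2 _ hσ.2.1) (h3 v hσ.2.1)⟩
  have htLo : ∀ σ, LS Lo v σ → t σ ∈ Lo := by
    intro σ hσ
    obtain ⟨h2, _, h4⟩ := hsp σ hσ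
    refine h1 _ (StarR_near (hσ.1 _ hσ.2.1 _ h2)) h4 ?_
    by_cases h : StarR_a v i s σ = v
    · exact Or.inl h
    · exact Or.inr (hσ.2.2 _ h2 h)
  have htv : ∀ σ, LS Lo v σ → t σ ≠ v := fun σ hσ h => hv (h ▸ htLo σ hσ)
  have hkey : ∀ σ, StarR_key i s (StarR_a v i s σ) < StarR_key i s (t σ) := by
    intro σ
    have := StarR_key_t i s (StarR_a v i s σ)
    simp only [ht]
    rw [this]
    linarith
  have hta : ∀ σ, t σ ≠ StarR_a v i s σ := fun σ h => by
    have := hkey σ
    rw [h] at this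
    exact lt_irrefl _ this
  have hins : ∀ σ, LS Lo v σ → LS Lo v (insert (t σ) σ) := by
    intro σ hσ
    obtain ⟨h2, h3, _⟩ := hsp σ hσ
    have hadj : ∀ w ∈ σ, Adj (t σ) w := fun w hw => StarR_adj (hσ.1 _ h2 _ hw) (h3 w hw)
    refine ⟨?_, Finset.mem_insert_of_mem hσ.2.1, ?_⟩
    · intro x hx y hy
      rcases Finset.mem_insert.1 hx with hx | hx <;> rcases Finset.mem_insert.1 hy with hy | hy
      · rw [hx, hy]
        left
        exact ⟨le_rfl, fun k => by simp⟩
      · rw [hx]; exact hadj y hy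
      · rw [hy]; exact (hadj x hx).symm
      · exact hσ.1 x hx y hy
    · intro w hw hne
      rcases Finset.mem_insert.1 hw with hw | hw
      · rw [hw]; exact htLo σ hσ
      · exact hσ.2.2 w hw hne
  have hains : ∀ σ, LS Lo v σ → ∀ ρ, ρ ⊆ insert (t σ) σ → Simp ρ → StarR_a v i s σ ∈ ρ →
      StarR_a v i s ρ = StarR_a v i s σ := by
    intro σ hσ ρ hρ hρS haρ
    refine StarR_a_eq v i s hρS haρ fun w hw => ?_
    rcases Finset.mem_insert.1 (hρ hw) with hw' | hw'
    · rw [hw']; exact (hkey σ).le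
    · exact (hsp σ hσ).2.1 w hw'
  have hmain := matching (F := F) (LS Lo v) (fun σ hσ => hσ.1) (LS_conv Lo v) (fun _ => False) t
    (fun σ hσ _ => by
      obtain ⟨h2, h3, _⟩ := hsp σ hσ
      refine ⟨⟨hins σ hσ, fun h => h, ?_⟩, ?_, fun h => h, ?_⟩
      · have := hains σ hσ (insert (t σ) σ) subset_rfl (hins σ hσ).1
          (Finset.mem_insert_of_mem h2)
        simp only [ht] at this ⊢
        rw [this]
      · refine ⟨hσ.1.mono (Finset.erase_subset _ _), Finset.mem_erase.2 ⟨(htv σ hσ).symm, hσ.2.1⟩,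
          fun w hw hne => hσ.2.2 w (Finset.mem_of_mem_erase hw) hne⟩
      · have := hains σ hσ (σ.erase (t σ))
          ((Finset.erase_subset _ _).trans (Finset.subset_insert _ _))
          (hσ.1.mono (Finset.erase_subset _ _))
          (Finset.mem_erase.2 ⟨(hta σ).symm, h2⟩)
        simp only [ht] at this ⊢
        rw [this])
    (fun σ => ∑ w ∈ σ, (sz s * (v i - w i) + 1).toNat)
    (fun σ hσ _ htσ w hw hS _ hnot => by
      obtain ⟨h2, h3, h4⟩ := hsp σ hσ
      by_cases hwa : w = StarR_a v i s σ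
      · subst hwa
        have e1 : (∑ x ∈ (insert (t σ) σ).erase (StarR_a v i s σ),
            (sz s * (v i - x i) + 1).toNat) +
            (sz s * (v i - StarR_a v i s σ i) + 1).toNat =
            (sz s * (v i - t σ i) + 1).toNat + ∑ x ∈ σ, (sz s * (v i - x i) + 1).toNat := by
          rw [Finset.sum_erase_add _ _ (Finset.mem_insert_of_mem h2),
            Finset.sum_insert htσ]
        have e2 : (sz s * (v i - t σ i) + 1) = sz s * (v i - StarR_a v i s σ i) := by
          simp only [ht, Pi.add_apply, Pi.single_eq_same]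
          rcases StarR_sz s with hs | hs <;> rw [hs] <;> ring
        have e3 : 0 ≤ sz s * (v i - StarR_a v i s σ i) := by
          have : sz s * (v i - StarR_a v i s σ i) = -(sz s * (StarR_a v i s σ i - v i)) := by ring
          rw [this]
          linarith
        rw [e2] at e1
        show (∑ x ∈ (insert (t σ) σ).erase (StarR_a v i s σ),
            (sz s * (v i - x i) + 1).toNat) < ∑ x ∈ σ, (sz s * (v i - x i) + 1).toNat
        omega
      · exfalso
        have hsub : (insert (t σ) σ).erase w ⊆ insert (t σ) σ := Finset.erase_subset _ _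
        have e1 := hains σ hσ _ hsub hS.1
          (Finset.mem_erase.2 ⟨fun h => hwa h.symm, Finset.mem_insert_of_mem h2⟩)
        apply hnot
        have e2 : t ((insert (t σ) σ).erase w) = t σ := by
          simp only [ht] at e1 ⊢
          rw [e1]
        rw [e2]
        refine Finset.mem_erase.2 ⟨fun h => htσ (h ▸ hw), Finset.mem_insert_self _ _⟩)
    j ∅ (fun σ _ h => absurd h not_false)
  simpa using hmain

end Pool.Agent.H47.ST
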