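import Pool.Agent.H47.ST.Defs

/-! Project ST: zeros of sums of characters. -/

namespace Pool.Agent.H47.ST

open Finset Pool.Agent.H46.SR
open scoped Classical

theorem zd_and {Ω : Type*} [Fintype Ω] [Nonempty Ω] (p p' : Ω → Prop) :
    pr p + pr p' - 1 ≤ pr (fun ω => p ω ∧ p' ω) := by
  have h1 := pr_not (fun ω => p ω ∧ p' ω)
  have h2 := pr_or_le (fun ω => ¬ p ω) (fun ω => ¬ p' ω)
  have h3 : pr (fun ω => ¬ (p ω ∧ p' ω)) ≤ pr (fun ω => ¬ p ω ∨ ¬ p' ω) :=
    pr_mono (fun ω hω => not_and_or.mp hω)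
  have h4 := pr_not p
  have h5 := pr_not p'
  linarith

theorem zd_equiv {Ω : Type*} [Fintype Ω] (f : Ω ≃ Ω) (p : Ω → Prop) :
    pr (fun ω => p (f ω)) = pr p := by
  unfold pr
  exact av_equiv f (fun ω => if p ω then (1 : ℝ) else 0)

/-- Bose-Burton type lemma. Induction on `j`: `P (f = 0) > 0` so the number of terms is even
and positive (`j = 0`); for the step not all `e i`, `i ∈ s`, are equal (otherwise `f` has no zero),
choose `h` with `e i h ≠ e i' h` and split `s` by the value at `h`: if `f x = f (x + h) = 0` then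
both partial sums vanish at `x`. -/
theorem zero_density {G ι : Type*} [AddCommGroup G] [Module (ZMod 2) G] [Fintype G] (j : ℕ)
    (e : ι → Module.Dual (ZMod 2) G) (s : Finset ι) (hs : s.Nonempty)
    (h : 1 - (1 / 2 : ℝ) ^ j < pr (fun x : G => ∑ i ∈ s, sg (e i x) = 0)) :
    2 ^ (j + 1) ≤ s.card := by
  induction j generalizing s with
  | zero =>
    have h0 : pr (fun _ : G => False) < pr (fun x : G => ∑ i ∈ s, sg (e i x) = 0) := by
      refine lt_of_le_of_lt ?_ h
      unfold pr av
      simp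
    obtain ⟨x, hx, -⟩ := pr_exists h0
    have hpos := hs.card_pos
    rcases Nat.lt_or_ge s.card 2 with h2 | h2
    · exfalso
      have h1 : s.card = 1 := by omega
      obtain ⟨i, hi⟩ := Finset.card_eq_one.mp h1
      rw [hi, Finset.sum_singleton] at hx
      have := abs_sg (e i x)
      rw [hx] at this
      norm_num at this
    · simpa using h2
  | succ j ih =>
    -- not all functionals are equal
    have hne : ∃ i ∈ s, ∃ i' ∈ s, e i ≠ e i' := by
      by_contra hcon
      push Not at hcon
      obtain ⟨i0, hi0⟩ := hs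
      have h0 : pr (fun _ : G => False) < pr (fun x : G => ∑ i ∈ s, sg (e i x) = 0) := by
        refine lt_of_le_of_lt ?_ h
        have : (1 / 2 : ℝ) ^ (j + 1) ≤ 1 := pow_le_one₀ (by norm_num) (by norm_num)
        unfold pr av
        simp only [if_false, Finset.sum_const_zero, zero_div]
        linarith
      obtain ⟨x, hx, -⟩ := pr_exists h0
      have h1 : ∑ i ∈ s, sg (e i x) = s.card * sg (e i0 x) := by
        rw [Finset.sum_congr rfl (fun i hi => by rw [hcon i hi i0 hi0]), Finset.sum_const,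
          nsmul_eq_mul]
      rw [h1] at hx
      have h2 := abs_sg (e i0 x)
      rcases mul_eq_zero.mp hx with h3 | h3
      · have h4 : s.card = 0 := by exact_mod_cast h3
        rw [Finset.card_eq_zero] at h4
        rw [h4] at hi0
        simp at hi0
      · rw [h3] at h2
        norm_num at h2
    obtain ⟨i, hi, i', hi', hii⟩ := hne
    obtain ⟨u, hu⟩ : ∃ u, e i u ≠ e i' u := by
      by_contra hcon
      push Not at hcon
      exact hii (LinearMap.ext hcon)
    -- split
    set sp := s.filter (fun l => e l u = 0) with hsp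
    set sm := s.filter (fun l => ¬ e l u = 0) with hsm
    have hcard : sp.card + sm.card = s.card := Finset.card_filter_add_card_filter_not _
    have hsum : ∀ x : G, ∑ l ∈ s, sg (e l x) = ∑ l ∈ sp, sg (e l x) + ∑ l ∈ sm, sg (e l x) :=
      fun x => (Finset.sum_filter_add_sum_filter_not s _ _).symm
    have hsp' : ∀ x : G, ∑ l ∈ sp, sg (e l (x + u)) = ∑ l ∈ sp, sg (e l x) := by
      intro x
      apply Finset.sum_congr rfl
      intro l hl
      rw [hsp, Finset.mem_filter] at hl
      rw [map_add, hl.2, add_zero]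
    have hsm' : ∀ x : G, ∑ l ∈ sm, sg (e l (x + u)) = - ∑ l ∈ sm, sg (e l x) := by
      intro x
      rw [← Finset.sum_neg_distrib]
      apply Finset.sum_congr rfl
      intro l hl
      rw [hsm, Finset.mem_filter] at hl
      have h1 : e l u = 1 := (zmod_two_cases _).resolve_left hl.2
      rw [map_add, h1, sg_add, sg_one]
      ring
    have hA : 1 - (1 / 2 : ℝ) ^ j < pr (fun x : G => ∑ l ∈ s, sg (e l x) = 0 ∧
        ∑ l ∈ s, sg (e l (x + u)) = 0) := by
      have h1 := zd_and (fun x : G => ∑ l ∈ s, sg (e l x) = 0)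
        (fun x : G => ∑ l ∈ s, sg (e l (x + u)) = 0)
      have h2 := zd_equiv (Equiv.addRight u) (fun x : G => ∑ l ∈ s, sg (e l x) = 0)
      simp only [Equiv.coe_addRight] at h2
      rw [h2] at h1
      have h3 : (1 / 2 : ℝ) ^ (j + 1) = (1 / 2 : ℝ) ^ j / 2 := by
        rw [pow_succ]; ring
      rw [h3] at h
      linarith
    have key : ∀ x : G, (∑ l ∈ s, sg (e l x) = 0 ∧ ∑ l ∈ s, sg (e l (x + u)) = 0) →
        ∑ l ∈ sp, sg (e l x) = 0 ∧ ∑ l ∈ sm, sg (e l x) = 0 := by
      rintro x ⟨h1, h2⟩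
      rw [hsum x] at h1
      rw [hsum (x + u), hsp', hsm'] at h2
      constructor <;> linarith
    have hne1 : sp.Nonempty ∧ sm.Nonempty := by
      rcases zmod_two_cases (e i u) with h1 | h1
      · refine ⟨⟨i, ?_⟩, ⟨i', ?_⟩⟩
        · rw [hsp, Finset.mem_filter]; exact ⟨hi, h1⟩
        · rw [hsm, Finset.mem_filter]; exact ⟨hi', fun h2 => hu (h1.trans h2.symm)⟩
      · refine ⟨⟨i', ?_⟩, ⟨i, ?_⟩⟩
        · rw [hsp, Finset.mem_filter]
          refine ⟨hi', ?_⟩
          rcases zmod_two_cases (e i' u) with h2 | h2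
          · exact h2
          · exact absurd (h1.trans h2.symm) hu
        · rw [hsm, Finset.mem_filter]
          refine ⟨hi, ?_⟩
          rw [h1]
          decide
    have hp : 2 ^ (j + 1) ≤ sp.card :=
      ih sp hne1.1 (lt_of_lt_of_le hA (pr_mono fun x hx => (key x hx).1))
    have hm : 2 ^ (j + 1) ≤ sm.card :=
      ih sm hne1.2 (lt_of_lt_of_le hA (pr_mono fun x hx => (key x hx).2))
    have : 2 ^ (j + 1 + 1) = 2 ^ (j + 1) + 2 ^ (j + 1) := by ring
    omega

end Pool.Agent.H47.ST
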