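import Pool.Agent.H47.ST.IT
import Pool.Agent.H47.ST.ZD

/-! Project ST: the upper bound. -/

namespace Pool.Agent.H47.ST

open Finset Pool.Agent.H46.SR
open scoped Classical

section
variable {G ι : Type*} [AddCommGroup G] [Module (ZMod 2) G] [Fintype G] [Fintype ι]

/-- the number of coordinates equal to `1` -/
noncomputable def UPh (e : ι → Module.Dual (ZMod 2) G) (a : G) : ℕ :=
  (univ.filter (fun i => e i a = 1)).card

theorem UP_sum_sg (e : ι → Module.Dual (ZMod 2) G) (s : Finset ι) (a : G) :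
    ∑ i ∈ s, sg (e i a) = (s.card : ℝ) - 2 * ((s.filter (fun i => e i a = 1)).card : ℝ) := by
  have h1 : ∀ i ∈ s, sg (e i a) = 1 - 2 * (if e i a = 1 then (1 : ℝ) else 0) := by
    intro i _
    rcases zmod_two_cases (e i a) with h | h
    · rw [h, sg_zero, if_neg (by decide)]; norm_num
    · rw [h, sg_one, if_pos rfl]; norm_num
  rw [Finset.sum_congr rfl h1, Finset.sum_sub_distrib, ← Finset.mul_sum, Finset.sum_boole]
  simp

theorem UP_half (φ : Module.Dual (ZMod 2) G) (hφ : φ ≠ 0) : pr (fun a : G => φ a = 1) = 1 / 2 := by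
  obtain ⟨u, hu⟩ : ∃ u, φ u ≠ 0 := by
    by_contra hcon
    push Not at hcon
    exact hφ (LinearMap.ext hcon)
  have hu1 : φ u = 1 := (zmod_two_cases _).resolve_left hu
  have h1 := zd_equiv (Equiv.addRight u) (fun a : G => φ a = 1)
  have h2 : pr (fun a : G => φ (Equiv.addRight u a) = 1) = pr (fun a : G => ¬ φ a = 1) := by
    congr 1
    funext a
    rw [Equiv.coe_addRight, map_add, hu1, eq_iff_iff]
    generalize φ a = t
    revert t
    decide
  rw [h2, pr_not] at h1
  linarith

theorem UP_comm {Ω Ω' : Type*} [Fintype Ω] [Fintype Ω'] (f : Ω → Ω' → ℝ) :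
    av (fun a => av (fun b => f a b)) = av (fun b => av (fun a => f a b)) := by
  rw [← av_prod (fun p : Ω × Ω' => f p.1 p.2), ← av_prod (fun p : Ω' × Ω => f p.2 p.1)]
  exact (av_equiv (Equiv.prodComm Ω' Ω) (fun p : Ω × Ω' => f p.1 p.2)).symm

theorem UP_coset (W : Submodule (ZMod 2) G) (f : G → ℝ) :
    av (fun a : G => av (fun x : W => f (a + x))) = av f := by
  rw [UP_comm]
  have h : ∀ x : W, av (fun a : G => f (a + x)) = av f :=
    fun x => av_equiv (Equiv.addRight (x : G)) f
  rw [av_congr h]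
  exact av_const _

/-- indicator -/
noncomputable def UPi (p : Prop) : ℝ := if p then 1 else 0

theorem UP_pr (p : G → Prop) : pr p = av (fun a => UPi (p a)) := rfl

theorem UP_pr_card (p : G → Prop) : pr p = ((univ.filter p).card : ℝ) / Fintype.card G := by
  rw [UP_pr]
  unfold av UPi
  congr 1
  exact Finset.sum_boole _ _

theorem UP_cc_def (e : ι → Module.Dual (ZMod 2) G) (W : Submodule (ZMod 2) G) (a : G)
    (ψ : Module.Dual (ZMod 2) W) :
    cc e W a ψ = ∑ i ∈ univ.filter (fun i => res e W i = ψ), sg (e i a) := by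
  unfold cc
  refine Finset.sum_congr ?_ (fun _ _ => rfl)
  ext i
  simp only [Finset.mem_filter]

theorem UP_cc (e : ι → Module.Dual (ZMod 2) G) (W : Submodule (ZMod 2) G) (a : G) (x : W)
    (ψ : Module.Dual (ZMod 2) W) : cc e W (a + x) ψ = sg (ψ x) * cc e W a ψ := by
  rw [UP_cc_def, UP_cc_def, Finset.mul_sum]
  apply Finset.sum_congr rfl
  intro i hi
  simp only [Finset.mem_filter, Finset.mem_univ, true_and] at hi
  rw [map_add, sg_add, mul_comm, ← hi]
  rfl

theorem UP_NN (e : ι → Module.Dual (ZMod 2) G) (W : Submodule (ZMod 2) G) (a : G) (x : W) :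
    NN e W (a + x) = NN e W a := by
  unfold NN
  ext ψ
  simp only [Finset.mem_filter, UP_cc]
  have h : sg (ψ x) ≠ 0 := by
    have := abs_sg (ψ x)
    intro h0
    rw [h0] at this
    norm_num at this
  simp [h]

/-- the nonzero restrictions -/
noncomputable def UPpsi (e : ι → Module.Dual (ZMod 2) G) (W : Submodule (ZMod 2) G) :
    Finset (Module.Dual (ZMod 2) W) := (univ.image (res e W)).filter (fun ψ => ψ ≠ 0)

theorem UP_NN_eq (e : ι → Module.Dual (ZMod 2) G) (W : Submodule (ZMod 2) G) (a : G) :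
    NN e W a = (UPpsi e W).filter (fun ψ => cc e W a ψ ≠ 0) := by
  unfold NN UPpsi
  ext ψ
  simp only [Finset.mem_filter, Finset.mem_image, and_assoc]

theorem UP_rank (e : ι → Module.Dual (ZMod 2) G) (hsep : ∀ x, (∀ i, e i x = 0) → x = 0)
    (W : Submodule (ZMod 2) G) : Module.finrank (ZMod 2) W ≤ (UPpsi e W).card := by
  let L : W →ₗ[ZMod 2] (UPpsi e W → ZMod 2) := LinearMap.pi (fun ψ => ψ.val)
  have hL : Function.Injective L := by
    rw [← LinearMap.ker_eq_bot, LinearMap.ker_eq_bot']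
    intro x hx
    apply Subtype.ext
    apply hsep
    intro i
    by_cases h0 : res e W i = 0
    · have := congrArg (fun φ : Module.Dual (ZMod 2) W => φ x) h0
      exact this
    · have hmem : res e W i ∈ UPpsi e W := by
        unfold UPpsi
        rw [Finset.mem_filter]
        exact ⟨Finset.mem_image_of_mem _ (Finset.mem_univ i), h0⟩
      exact congrFun hx ⟨res e W i, hmem⟩
  have h := LinearMap.finrank_le_finrank_of_injective hL
  simpa using h

theorem UP_rank_all (e : ι → Module.Dual (ZMod 2) G) (hsep : ∀ x, (∀ i, e i x = 0) → x = 0) :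
    Module.finrank (ZMod 2) G ≤ Fintype.card ι := by
  let L : G →ₗ[ZMod 2] (ι → ZMod 2) := LinearMap.pi e
  have hL : Function.Injective L := by
    rw [← LinearMap.ker_eq_bot, LinearMap.ker_eq_bot']
    intro x hx
    exact hsep x (fun i => congrFun hx i)
  have h := LinearMap.finrank_le_finrank_of_injective hL
  simpa using h

/-- the number of nonconstant coordinates is at most `w / ε` -/
theorem UP_card (e : ι → Module.Dual (ZMod 2) G) (hne : ∀ i, e i ≠ 0) {ε : ℝ} {w : ℕ}
    (h : 1 / 2 + ε ≤ pr (fun a : G => UPh e a = w)) : ε * Fintype.card ι ≤ w := by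
  have h1 : ∀ i, ε ≤ pr (fun a : G => e i a = 1 ∧ UPh e a = w) := by
    intro i
    have h2 := zd_and (fun a : G => e i a = 1) (fun a : G => UPh e a = w)
    rw [UP_half _ (hne i)] at h2
    linarith
  have h3 : ∑ i : ι, ε ≤ ∑ i : ι, pr (fun a : G => e i a = 1 ∧ UPh e a = w) :=
    Finset.sum_le_sum (fun i _ => h1 i)
  rw [Finset.sum_const, Finset.card_univ, nsmul_eq_mul] at h3
  have h4 : ∑ i : ι, pr (fun a : G => e i a = 1 ∧ UPh e a = w) ≤ w := by
    unfold pr
    rw [← av_sum]
    refine le_trans (av_mono (g := fun _ => (w : ℝ)) ?_) (av_const (Ω := G) (w : ℝ)).le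
    intro a
    by_cases hw : UPh e a = w
    · simp only [hw, and_true]
      rw [Finset.sum_boole]
      have : ((univ.filter (fun i => e i a = 1)).card : ℝ) = w := by
        exact_mod_cast hw
      exact this.le
    · simp only [hw, and_false, if_false, Finset.sum_const_zero]
      positivity
  linarith

/-- the bad part of the event has small probability -/
theorem UP_bad (e : ι → Module.Dual (ZMod 2) G) (W : Submodule (ZMod 2) G) {ε' c : ℝ} (hc : 0 ≤ c)
    (w : ℕ) (h : pr (fun a : G => ε' * Fintype.card ι < (NN e W a).card ∧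
          ∃ s : ℝ, c < pr (fun x : W => ∑ i, sg (e i (a + x)) = s)) ≤ c) :
    pr (fun a : G => UPh e a = w ∧ ε' * Fintype.card ι < (NN e W a).card) ≤ 2 * c := by
  have h2 := UP_coset W (fun a : G => UPi (UPh e a = w ∧ ε' * Fintype.card ι < (NN e W a).card))
  have h1 : pr (fun a : G => UPh e a = w ∧ ε' * Fintype.card ι < (NN e W a).card) ≤
      av (fun a : G => UPi (ε' * Fintype.card ι < (NN e W a).card ∧
          ∃ s : ℝ, c < pr (fun x : W => ∑ i, sg (e i (a + x)) = s)) + c) := by
    rw [UP_pr, ← h2]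
    apply av_mono
    intro a
    by_cases hB : ε' * Fintype.card ι < (NN e W a).card
    · by_cases hF : ∃ s : ℝ, c < pr (fun x : W => ∑ i, sg (e i (a + x)) = s)
      · have h4 : UPi (ε' * Fintype.card ι < (NN e W a).card ∧
          ∃ s : ℝ, c < pr (fun x : W => ∑ i, sg (e i (a + x)) = s)) = 1 := if_pos ⟨hB, hF⟩
        rw [h4]
        have h5 : av (fun x : W => UPi (UPh e (a + x) = w ∧
            ε' * Fintype.card ι < (NN e W (a + x)).card)) ≤ 1 :=
          pr_le_one (fun x : W => UPh e (a + x) = w ∧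
            ε' * Fintype.card ι < (NN e W (a + x)).card)
        linarith
      · have h4 : UPi (ε' * Fintype.card ι < (NN e W a).card ∧
          ∃ s : ℝ, c < pr (fun x : W => ∑ i, sg (e i (a + x)) = s)) = 0 :=
          if_neg (fun h => hF h.2)
        rw [h4]
        push Not at hF
        have h6 := hF ((Fintype.card ι : ℝ) - 2 * w)
        have h5 : av (fun x : W => UPi (UPh e (a + x) = w ∧
            ε' * Fintype.card ι < (NN e W (a + x)).card)) ≤
            pr (fun x : W => ∑ i, sg (e i (a + x)) = (Fintype.card ι : ℝ) - 2 * w) := by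
          refine pr_mono (p := fun x : W => UPh e (a + x) = w ∧
            ε' * Fintype.card ι < (NN e W (a + x)).card)
            (p' := fun x : W => ∑ i, sg (e i (a + x)) = (Fintype.card ι : ℝ) - 2 * w) ?_
          rintro x ⟨hx, -⟩
          rw [UP_sum_sg e univ (a + x), ← hx]
          simp [UPh]
        linarith
    · have h4 : UPi (ε' * Fintype.card ι < (NN e W a).card ∧
          ∃ s : ℝ, c < pr (fun x : W => ∑ i, sg (e i (a + x)) = s)) = 0 :=
          if_neg (fun h => hB h.1)
      rw [h4]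
      have h5 : ∀ x : W, UPi (UPh e (a + x) = w ∧
            ε' * Fintype.card ι < (NN e W (a + x)).card) = 0 := by
        intro x
        rw [UP_NN]
        exact if_neg (fun h => hB h.2)
      rw [av_congr h5, av_const]
      linarith
  rw [av_add, av_const, ← UP_pr] at h1
  linarith

theorem UP_abs {ε : ℝ} (hε : 0 < ε) : ∃ w₀ : ℕ, ∀ w ≥ w₀, ∀ (G ι : Type)
    [AddCommGroup G] [Module (ZMod 2) G] [Fintype G] [Fintype ι]
    (e : ι → Module.Dual (ZMod 2) G), (∀ x, (∀ i, e i x = 0) → x = 0) → (∀ i, e i ≠ 0) →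
    ∀ k j : ℕ, 1 ≤ j → Module.finrank (ZMod 2) G = k → ((1 / 2 : ℝ) ^ j + ε) * w ≤ k →
    pr (fun a : G => UPh e a = w) ≤ 1 - (1 / 2 : ℝ) ^ j + ε := by
  set θ : ℝ := ε ^ 2 / 4 with hθ
  have hθ0 : 0 < θ := by positivity
  obtain ⟨n₀, hn₀⟩ := inverse (ε := θ ^ 2) (c := ε / 4) (by positivity) (by positivity)
  obtain ⟨N, hN⟩ := exists_nat_gt ((n₀ : ℝ) / ε)
  refine ⟨N + 1, ?_⟩
  intro w hw G ι _ _ _ _ e hsep hne k j hj hk hkw
  by_contra hcon
  push Not at hcon
  -- parameters
  have hj2 : (1 / 2 : ℝ) ^ j ≤ 1 / 2 := by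
    calc (1 / 2 : ℝ) ^ j ≤ (1 / 2 : ℝ) ^ 1 := pow_le_pow_of_le_one (by norm_num) (by norm_num) hj
      _ = 1 / 2 := by norm_num
  have hjpos : (0 : ℝ) < (1 / 2 : ℝ) ^ j := by positivity
  have hε1 : ε < (1 / 2 : ℝ) ^ j := by
    have := pr_le_one (fun a : G => UPh e a = w)
    linarith
  have hε2 : ε < 1 / 2 := by linarith
  have hθε : 3 * θ < ε ^ 2 := by
    have : 0 < ε ^ 2 := by positivity
    rw [hθ]; linarith
  have hθ1 : θ < 1 := by
    rw [hθ]; nlinarith
  have hθ2 : θ ≤ ε / 4 := by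
    rw [hθ]; nlinarith
  have hw0 : (0 : ℝ) < w := by
    have : 0 < w := by omega
    exact_mod_cast this
  -- size of `ι`
  have hcard := UP_card e hne (ε := ε) (w := w) (by linarith)
  have hkι : (k : ℝ) ≤ Fintype.card ι := by
    have := UP_rank_all e hsep
    rw [hk] at this
    exact_mod_cast this
  have hnι : n₀ ≤ Fintype.card ι := by
    have h1 : (N : ℝ) ≤ w := by
      have : N ≤ w := by omega
      exact_mod_cast this
    have h2 : (n₀ : ℝ) < ε * w := by
      rw [div_lt_iff₀ hε] at hN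
      nlinarith
    have h3 : ε * w ≤ k := by
      have : 0 ≤ (1 / 2 : ℝ) ^ j * w := by positivity
      nlinarith
    have h4 : (n₀ : ℝ) ≤ Fintype.card ι := by linarith
    exact_mod_cast h4
  obtain ⟨W, hW1, hW2⟩ := hn₀ G ι e hnι
  have hbad := UP_bad e W (by positivity) w hW2
  set M : ℝ := (Fintype.card ι : ℝ) with hM
  have hM0 : 0 ≤ M := by positivity
  -- good points
  let Good : G → Prop := fun a => UPh e a = w ∧ ¬ (θ ^ 2 * M < (NN e W a).card)
  have hgood : pr (fun a : G => UPh e a = w) - ε / 2 ≤ pr Good := by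
    have h1 := pr_or_le Good (fun a : G => UPh e a = w ∧ θ ^ 2 * M < (NN e W a).card)
    have h2 : pr (fun a : G => UPh e a = w) ≤
        pr (fun a => Good a ∨ (UPh e a = w ∧ θ ^ 2 * M < (NN e W a).card)) := by
      apply pr_mono
      intro a ha
      by_cases hb : θ ^ 2 * M < (NN e W a).card
      · exact Or.inr ⟨ha, hb⟩
      · exact Or.inl ⟨ha, hb⟩
    linarith
  -- the bad classes
  let Pb := (UPpsi e W).filter (fun ψ => θ < pr (fun a : G => Good a ∧ cc e W a ψ ≠ 0))
  have hPb : (Pb.card : ℝ) ≤ θ * M := by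
    have h1 : ∑ ψ ∈ UPpsi e W, pr (fun a : G => Good a ∧ cc e W a ψ ≠ 0) ≤ θ ^ 2 * M := by
      unfold pr
      rw [← av_sum]
      refine le_trans (av_mono (g := fun _ => θ ^ 2 * M) ?_) (av_const (Ω := G) (θ ^ 2 * M)).le
      intro a
      by_cases hg : Good a
      · simp only [hg, true_and]
        rw [Finset.sum_boole, ← UP_NN_eq]
        exact not_lt.mp hg.2
      · simp only [hg, false_and, if_false, Finset.sum_const_zero]
        positivity
    have h2 : (Pb.card : ℝ) * θ ≤ ∑ ψ ∈ Pb, pr (fun a : G => Good a ∧ cc e W a ψ ≠ 0) := by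
      rw [← nsmul_eq_mul]
      apply Finset.card_nsmul_le_sum
      intro ψ hψ
      exact (Finset.mem_filter.mp hψ).2.le
    have h3 : ∑ ψ ∈ Pb, pr (fun a : G => Good a ∧ cc e W a ψ ≠ 0) ≤
        ∑ ψ ∈ UPpsi e W, pr (fun a : G => Good a ∧ cc e W a ψ ≠ 0) :=
      Finset.sum_le_sum_of_subset_of_nonneg (Finset.filter_subset _ _)
        (fun ψ _ _ => pr_nonneg _)
    have h4 : (Pb.card : ℝ) * θ ≤ (θ * M) * θ := by nlinarith
    exact le_of_mul_le_mul_right h4 hθ0
  -- good classes are large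
  have hlarge : ∀ ψ ∈ UPpsi e W, ψ ∉ Pb →
      2 ^ (j + 1) ≤ (univ.filter (fun i => res e W i = ψ)).card := by
    intro ψ hψ hψb
    have h1 : pr (fun a : G => Good a ∧ cc e W a ψ ≠ 0) ≤ θ := by
      by_contra h
      push Not at h
      exact hψb (Finset.mem_filter.mpr ⟨hψ, h⟩)
    have hne' : (univ.filter (fun i => res e W i = ψ)).Nonempty := by
      unfold UPpsi at hψ
      rw [Finset.mem_filter, Finset.mem_image] at hψ
      obtain ⟨⟨i, -, hi⟩, -⟩ := hψ
      exact ⟨i, Finset.mem_filter.mpr ⟨Finset.mem_univ _, hi⟩⟩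
    apply zero_density j e _ hne'
    have h2 : pr Good ≤ pr (fun a : G => Good a ∧ cc e W a ψ ≠ 0) +
        pr (fun a : G => cc e W a ψ = 0) := by
      refine le_trans (pr_mono ?_) (pr_or_le _ _)
      intro a ha
      by_cases h0 : cc e W a ψ = 0
      · exact Or.inr h0
      · exact Or.inl ⟨ha, h0⟩
    have h3 : pr (fun a : G => cc e W a ψ = 0) =
        pr (fun x : G => ∑ i ∈ univ.filter (fun i => res e W i = ψ), sg (e i x) = 0) := by
      congr 1
      funext a
      rw [UP_cc_def]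
    rw [← h3]
    linarith
  -- one good point
  obtain ⟨a, ha, -⟩ : ∃ a, Good a ∧ ¬ False := by
    apply pr_exists
    have h0 : pr (fun _ : G => False) = 0 := by
      unfold pr av
      simp
    rw [h0]
    linarith
  let Pg := ((UPpsi e W).filter (fun ψ => ψ ∉ Pb)).filter (fun ψ => cc e W a ψ = 0)
  have hPg : ((UPpsi e W).card : ℝ) ≤ Pg.card + θ * M + θ ^ 2 * M := by
    have h1 : UPpsi e W ⊆ Pg ∪ Pb ∪ NN e W a := by
      intro ψ hψ
      rw [Finset.mem_union, Finset.mem_union]
      by_cases h0 : cc e W a ψ = 0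
      · by_cases hb : ψ ∈ Pb
        · exact Or.inl (Or.inr hb)
        · exact Or.inl (Or.inl (Finset.mem_filter.mpr ⟨Finset.mem_filter.mpr ⟨hψ, hb⟩, h0⟩))
      · right
        rw [UP_NN_eq]
        exact Finset.mem_filter.mpr ⟨hψ, h0⟩
    have h2 : (UPpsi e W).card ≤ Pg.card + Pb.card + (NN e W a).card :=
      le_trans (Finset.card_le_card h1) (le_trans (Finset.card_union_le _ _)
        (Nat.add_le_add_right (Finset.card_union_le _ _) _))
    have h3 : ((UPpsi e W).card : ℝ) ≤ Pg.card + Pb.card + (NN e W a).card := by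
      exact_mod_cast h2
    have h4 : ((NN e W a).card : ℝ) ≤ θ ^ 2 * M := not_lt.mp ha.2
    linarith
  -- half of the coordinates of a good class are `1`
  have hhalf : ∀ ψ ∈ Pg,
      2 ^ j ≤ ((univ.filter (fun i => e i a = 1)).filter (fun i => res e W i = ψ)).card := by
    intro ψ hψ
    have hψ' := Finset.mem_filter.mp hψ
    have hψ'' := Finset.mem_filter.mp hψ'.1
    have h1 := hlarge ψ hψ''.1 hψ''.2
    have h2 : cc e W a ψ = 0 := hψ'.2
    rw [UP_cc_def, UP_sum_sg] at h2
    have h3 : (univ.filter (fun i => e i a = 1)).filter (fun i => res e W i = ψ) =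
        (univ.filter (fun i => res e W i = ψ)).filter (fun i => e i a = 1) := by
      ext i
      simp only [Finset.mem_filter, Finset.mem_univ, true_and]
      tauto
    rw [h3]
    have h4 : (univ.filter (fun i => res e W i = ψ)).card =
        2 * ((univ.filter (fun i => res e W i = ψ)).filter (fun i => e i a = 1)).card := by
      have : ((univ.filter (fun i => res e W i = ψ)).card : ℝ) =
        2 * ((univ.filter (fun i => res e W i = ψ)).filter (fun i => e i a = 1)).card := by
        linarith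
      exact_mod_cast this
    rw [h4, pow_succ] at h1
    omega
  have hw1 : Pg.card * 2 ^ j ≤ w := by
    have h1 : ∑ ψ ∈ Pg, 2 ^ j ≤ ∑ ψ ∈ Pg,
        ((univ.filter (fun i => e i a = 1)).filter (fun i => res e W i = ψ)).card :=
      Finset.sum_le_sum hhalf
    have h2 : ∑ ψ ∈ Pg,
        ((univ.filter (fun i => e i a = 1)).filter (fun i => res e W i = ψ)).card ≤
        (univ.filter (fun i => e i a = 1)).card := by
      have h3 : ∑ ψ ∈ Pg,
          ((univ.filter (fun i => e i a = 1)).filter (fun i => res e W i = ψ)).card =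
          (Pg.biUnion (fun ψ =>
            (univ.filter (fun i => e i a = 1)).filter (fun i => res e W i = ψ))).card := by
        rw [Finset.card_biUnion]
        intro ψ _ ψ' _ hne2
        rw [Function.onFun, Finset.disjoint_left]
        intro i hi hi'
        exact hne2 ((Finset.mem_filter.mp hi).2.symm.trans (Finset.mem_filter.mp hi').2)
      rw [h3]
      apply Finset.card_le_card
      intro i hi
      rw [Finset.mem_biUnion] at hi
      obtain ⟨ψ, -, hi⟩ := hi
      exact (Finset.mem_filter.mp hi).1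
    rw [Finset.sum_const, smul_eq_mul] at h1
    have h4 : (univ.filter (fun i => e i a = 1)).card = w := ha.1
    omega
  -- final computation
  have h2j : (0 : ℝ) < 2 ^ j := by positivity
  have hw2 : (Pg.card : ℝ) * 2 ^ j ≤ w := by exact_mod_cast hw1
  have hrk : (Module.finrank (ZMod 2) W : ℝ) ≤ (UPpsi e W).card := by
    exact_mod_cast UP_rank e hsep W
  rw [hk] at hW1
  have h5 : (k : ℝ) ≤ Pg.card + (θ + 2 * θ ^ 2) * M := by nlinarith
  have h6 : (θ + 2 * θ ^ 2) * M ≤ (3 * θ) * M := by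
    apply mul_le_mul_of_nonneg_right _ hM0
    nlinarith
  have h7 : (3 * θ) * M ≤ (3 * θ / ε) * w := by
    have : (3 * θ) * M = (3 * θ / ε) * (ε * M) := by field_simp
    rw [this]
    exact mul_le_mul_of_nonneg_left hcard (by positivity)
  have h8 : 3 * θ / ε < ε := by
    rw [div_lt_iff₀ hε]
    nlinarith
  have h9 : ((1 / 2 : ℝ) ^ j) * w + (ε - 3 * θ / ε) * w ≤ Pg.card := by nlinarith
  have h10 : (1 / 2 : ℝ) ^ j * 2 ^ j = 1 := by
    rw [← mul_pow]; norm_num
  have h11 : ((1 / 2 : ℝ) ^ j * w + (ε - 3 * θ / ε) * w) * 2 ^ j ≤ w :=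
    le_trans (mul_le_mul_of_nonneg_right h9 h2j.le) hw2
  have h12 : ((1 / 2 : ℝ) ^ j * w + (ε - 3 * θ / ε) * w) * 2 ^ j =
      ((1 / 2 : ℝ) ^ j * 2 ^ j) * w + (ε - 3 * θ / ε) * w * 2 ^ j := by ring
  rw [h12, h10, one_mul] at h11
  have h13 : 0 < (ε - 3 * θ / ε) * w * 2 ^ j :=
    mul_pos (mul_pos (by linarith) hw0) h2j
  linarith

end

/-- The deduction in the note 2790 (section UPPER BOUND). `G = U`, `ι` = the nonconstant
coordinates `{i // ∃ x ∈ U, x i ≠ 0}`, `e i` = the coordinate. If the count is bigger, then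
`|ι| ≤ w / ε` and `k ≤ |ι|`; use `inverse` with small parameters. -/
theorem upper {ε : ℝ} (hε : 0 < ε) : ∃ w₀ : ℕ, ∀ w ≥ w₀, ∀ (n k j : ℕ)
    (U : Submodule (ZMod 2) (Fin n → ZMod 2)), 1 ≤ j → Module.finrank (ZMod 2) U = k →
    ((1 / 2 : ℝ) ^ j + ε) * w ≤ k →
    ({x : Fin n → ZMod 2 | x ∈ U ∧ hammingNorm x = w}.ncard : ℝ) ≤
      (1 - (1 / 2 : ℝ) ^ j + ε) * 2 ^ k := by
  obtain ⟨w₀, hw₀⟩ := UP_abs hε
  refine ⟨w₀, ?_⟩
  intro w hw n k j U hj hk hkw
  let ι : Type := {i : Fin n // ∃ x ∈ U, x i ≠ 0}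
  let e : ι → Module.Dual (ZMod 2) U := fun i => (LinearMap.proj i.val).comp U.subtype
  have he : ∀ (i : ι) (x : U), e i x = (x : Fin n → ZMod 2) i.val := fun _ _ => rfl
  have hsep : ∀ x : U, (∀ i, e i x = 0) → x = 0 := by
    intro x hx
    apply Subtype.ext
    funext i
    by_contra h0
    exact h0 (hx ⟨i, x, x.2, h0⟩)
  have hne : ∀ i, e i ≠ 0 := by
    rintro ⟨i, x, hx, hxi⟩ h0
    exact hxi (congrArg (fun φ : Module.Dual (ZMod 2) U => φ ⟨x, hx⟩) h0)
  have hmain := hw₀ w hw U ι e hsep hne k j hj hk hkw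
  have hnorm : ∀ x : U, UPh e x = hammingNorm (x : Fin n → ZMod 2) := by
    intro x
    unfold UPh hammingNorm
    apply Finset.card_bij (fun (i : ι) _ => i.val)
    · intro i hi
      rw [Finset.mem_filter] at hi ⊢
      refine ⟨Finset.mem_univ _, ?_⟩
      have h1 := hi.2
      rw [he] at h1
      rw [h1]
      exact one_ne_zero
    · intro i _ i' _ h
      exact Subtype.ext h
    · intro i hi
      rw [Finset.mem_filter] at hi
      refine ⟨⟨i, x, x.2, hi.2⟩, ?_, rfl⟩
      rw [Finset.mem_filter]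
      exact ⟨Finset.mem_univ _, (zmod_two_cases _).resolve_left hi.2⟩
  have hcard : (Fintype.card U : ℝ) = 2 ^ k := by
    have h1 := Module.card_eq_pow_finrank (K := ZMod 2) (V := U)
    rw [ZMod.card, hk] at h1
    exact_mod_cast h1
  have hcount : ({x : Fin n → ZMod 2 | x ∈ U ∧ hammingNorm x = w}.ncard : ℝ) =
      pr (fun a : U => UPh e a = w) * 2 ^ k := by
    have h1 : {x : Fin n → ZMod 2 | x ∈ U ∧ hammingNorm x = w} =
        Subtype.val '' {x : U | UPh e x = w} := by
      ext x
      simp only [Set.mem_ofPred_eq, Set.mem_image]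
      constructor
      · rintro ⟨hx, hxw⟩
        exact ⟨⟨x, hx⟩, by rw [hnorm]; exact hxw, rfl⟩
      · rintro ⟨y, hy, rfl⟩
        rw [hnorm] at hy
        exact ⟨y.2, hy⟩
    rw [h1, Set.ncard_image_of_injective _ Subtype.val_injective, Set.ncard_eq_toFinset_card']
    rw [UP_pr_card, hcard, div_mul_cancel₀ _ (by positivity)]
    congr 2
    ext x
    simp
  rw [hcount]
  exact mul_le_mul_of_nonneg_right hmain (by positivity)

end Pool.Agent.H47.ST
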