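import Pool.Agent.H47.ST.ZD

/-! Project ST: sums of characters which are close to a nonpositive constant on a large set. -/

namespace Pool.Agent.H47.ST

open Finset Pool.Agent.H46.SR
open scoped Classical

/-- If a sum of `|s|` characters is `-D + O(t)` on a set of density greater than `1 - 2⁻ʲ`, then
`|s| ≥ (2^(j+1) - 1) (D - t)`. Induction on `j`: take a point `u` with `f u = -D + O(t)` and the
terms which are `+1` at `u`. -/
theorem zero_density_shift {G ι : Type*} [AddCommGroup G] [Module (ZMod 2) G] [Fintype G] (j : ℕ)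
    (e : ι → Module.Dual (ZMod 2) G) (s : Finset ι) {D t : ℝ}
    (h : 1 - (1 / 2 : ℝ) ^ j < pr (fun x : G => |∑ i ∈ s, sg (e i x) + D| ≤ t)) :
    (2 ^ (j + 1) - 1) * (D - t) ≤ s.card := by
  have hfalse : pr (fun _ : G => False) = 0 := by
    unfold pr av
    simp
  have hpow : ∀ j : ℕ, (0 : ℝ) ≤ 1 - (1 / 2 : ℝ) ^ j := by
    intro j
    have : (1 / 2 : ℝ) ^ j ≤ 1 := pow_le_one₀ (by norm_num) (by norm_num)
    linarith
  induction j generalizing s with
  | zero =>
    obtain ⟨x, hx, -⟩ := pr_exists (hfalse.trans_lt (lt_of_le_of_lt (hpow 0) h))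
    have h1 : |∑ i ∈ s, sg (e i x)| ≤ s.card := by
      refine (Finset.abs_sum_le_sum_abs _ _).trans (le_of_eq ?_)
      rw [Finset.sum_congr rfl (fun i _ => abs_sg (e i x))]
      simp
    have h2 := (abs_le.1 hx).2
    have h3 := (abs_le.1 h1).1
    norm_num
    linarith
  | succ j ih =>
    obtain ⟨u, hu, -⟩ := pr_exists (hfalse.trans_lt (lt_of_le_of_lt (hpow (j + 1)) h))
    set sp := s.filter (fun l => e l u = 0) with hsp
    set sm := s.filter (fun l => ¬ e l u = 0) with hsm
    have hcard : sp.card + sm.card = s.card := Finset.card_filter_add_card_filter_not _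
    have hsum : ∀ x : G, ∑ l ∈ s, sg (e l x) = ∑ l ∈ sp, sg (e l x) + ∑ l ∈ sm, sg (e l x) :=
      fun x => (Finset.sum_filter_add_sum_filter_not s _ _).symm
    have hsp' : ∀ x : G, ∑ l ∈ sp, sg (e l (x + u)) = ∑ l ∈ sp, sg (e l x) := by
      intro x
      apply Finset.sum_congr rfl
      intro l hl
      rw [hsp, Finset.mem_filter] at hl
      rw [map_add, hl.2, add_zero]
    have hsm' : ∀ x : G, ∑ l ∈ sm, sg (e l (x + u)) = - ∑ l ∈ sm, sg (e l x) := by
      intro x
      rw [← Finset.sum_neg_distrib]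
      apply Finset.sum_congr rfl
      intro l hl
      rw [hsm, Finset.mem_filter] at hl
      have h1 : e l u = 1 := (zmod_two_cases _).resolve_left hl.2
      rw [map_add, h1, sg_add, sg_one]
      ring
    have hA : 1 - (1 / 2 : ℝ) ^ j < pr (fun x : G => |∑ l ∈ s, sg (e l x) + D| ≤ t ∧
        |∑ l ∈ s, sg (e l (x + u)) + D| ≤ t) := by
      have h1 := zd_and (fun x : G => |∑ l ∈ s, sg (e l x) + D| ≤ t)
        (fun x : G => |∑ l ∈ s, sg (e l (x + u)) + D| ≤ t)
      have h2 := zd_equiv (Equiv.addRight u) (fun x : G => |∑ l ∈ s, sg (e l x) + D| ≤ t)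
      simp only [Equiv.coe_addRight] at h2
      rw [h2] at h1
      have h3 : (1 / 2 : ℝ) ^ (j + 1) = (1 / 2 : ℝ) ^ j / 2 := by
        rw [pow_succ]; ring
      rw [h3] at h
      linarith
    have key : ∀ x : G, (|∑ l ∈ s, sg (e l x) + D| ≤ t ∧ |∑ l ∈ s, sg (e l (x + u)) + D| ≤ t) →
        |∑ l ∈ sp, sg (e l x) + D| ≤ t := by
      rintro x ⟨h1, h2⟩
      rw [hsum x] at h1
      rw [hsum (x + u), hsp', hsm'] at h2
      rw [abs_le] at h1 h2 ⊢
      constructor <;> linarith
    have hp : (2 ^ (j + 1) - 1) * (D - t) ≤ (sp.card : ℝ) :=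
      ih sp (lt_of_lt_of_le hA (pr_mono fun x hx => key x hx))
    -- the value at `u`
    have hu1 : ∑ l ∈ s, sg (e l u) = (sp.card : ℝ) - sm.card := by
      rw [hsum u]
      have h1 : ∑ l ∈ sp, sg (e l u) = sp.card := by
        rw [Finset.sum_congr rfl (g := fun _ => (1 : ℝ))]
        · simp
        · intro l hl
          rw [hsp, Finset.mem_filter] at hl
          rw [hl.2, sg_zero]
      have h2 : ∑ l ∈ sm, sg (e l u) = - (sm.card : ℝ) := by
        rw [Finset.sum_congr rfl (g := fun _ => (-1 : ℝ))]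
        · simp
        · intro l hl
          rw [hsm, Finset.mem_filter] at hl
          have h1 : e l u = 1 := (zmod_two_cases _).resolve_left hl.2
          rw [h1, sg_one]
      rw [h1, h2]
      ring
    rw [hu1, abs_le] at hu
    have hc : (sp.card : ℝ) + sm.card = s.card := by exact_mod_cast hcard
    have h2 : (2 : ℝ) ^ (j + 1 + 1) = 2 * 2 ^ (j + 1) := by ring
    rw [h2]
    nlinarith [hu.1, hu.2]

end Pool.Agent.H47.ST
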