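import Pool.Agent.H47.ST.UP
import Pool.Agent.H47.ST.ZD2

/-! Project ST: the upper bound for all lengths. -/

namespace Pool.Agent.H47.ST

open Finset Pool.Agent.H46.SR
open scoped Classical

section
variable {G ι : Type*} [AddCommGroup G] [Module (ZMod 2) G] [Fintype G] [Fintype ι]

/-- splitting of the full sum at a point: zero class and the characters of `NN` -/
theorem UPX_split (e : ι → Module.Dual (ZMod 2) G) (W : Submodule (ZMod 2) G) (a : G) :
    ∑ i, sg (e i a) = ∑ i ∈ univ.filter (fun i => res e W i = 0), sg (e i a) +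
      ∑ ψ ∈ NN e W a, cc e W a ψ := by
  rw [← Finset.sum_filter_add_sum_filter_not univ (fun i => res e W i = 0)]
  congr 1
  have h1 : ∑ i ∈ univ.filter (fun i => ¬ res e W i = 0), sg (e i a) =
      ∑ ψ ∈ UPpsi e W, cc e W a ψ := by
    rw [← Finset.sum_fiberwise_of_maps_to (t := UPpsi e W) (g := res e W)]
    · apply Finset.sum_congr rfl
      intro ψ hψ
      rw [UP_cc_def]
      apply Finset.sum_congr _ (fun _ _ => rfl)
      ext i
      simp only [Finset.mem_filter, Finset.mem_univ, true_and]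
      constructor
      · exact fun h => h.2
      · intro h
        refine ⟨?_, h⟩
        rw [h]
        unfold UPpsi at hψ
        exact (Finset.mem_filter.1 hψ).2
    · intro i hi
      unfold UPpsi
      rw [Finset.mem_filter] at hi ⊢
      exact ⟨Finset.mem_image_of_mem _ (Finset.mem_univ i), hi.2⟩
  rw [h1, UP_NN_eq]
  symm
  apply Finset.sum_subset (Finset.filter_subset _ _)
  intro ψ h2 h3
  by_contra h4
  exact h3 (Finset.mem_filter.2 ⟨h2, h4⟩)

theorem UPX_cc_le (e : ι → Module.Dual (ZMod 2) G) (W : Submodule (ZMod 2) G) (a : G)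
    (ψ : Module.Dual (ZMod 2) W) : |cc e W a ψ| ≤ (cls e W ψ).card := by
  rw [UP_cc_def]
  refine (Finset.abs_sum_le_sum_abs _ _).trans (le_of_eq ?_)
  rw [Finset.sum_congr rfl (fun i _ => abs_sg (e i a)), Finset.sum_const, nsmul_eq_mul, mul_one]
  unfold cls
  congr 2
  ext i
  simp only [Finset.mem_filter]

theorem UPX_abs {ε : ℝ} (hε : 0 < ε) : ∃ w₀ : ℕ, ∀ w ≥ w₀, ∀ (G ι : Type)
    [AddCommGroup G] [Module (ZMod 2) G] [Fintype G] [Fintype ι]
    (e : ι → Module.Dual (ZMod 2) G), (∀ x, (∀ i, e i x = 0) → x = 0) → (∀ i, e i ≠ 0) →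
    ∀ k j : ℕ, 1 ≤ j → Module.finrank (ZMod 2) G = k →
    ((1 / 2 : ℝ) ^ j + ε) * w ≤ k + ((2 * w - Fintype.card ι : ℕ) : ℝ) →
    pr (fun a : G => UPh e a = w) ≤ 1 - (1 / 2 : ℝ) ^ j + ε := by
  set θ : ℝ := ε ^ 2 / 8 with hθ
  have hθ0 : 0 < θ := by positivity
  set K : ℝ := 2 / θ + 1 with hKdef
  have hK1 : 1 ≤ K := by
    have : 0 < 2 / θ := by positivity
    linarith
  have hK0 : 0 < K := by linarith
  have hK2 : 2 / K ≤ θ := by
    rw [div_le_iff₀ hK0, hKdef]
    have : θ * (2 / θ + 1) = 2 + θ := by field_simp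
    linarith
  set ε' : ℝ := θ ^ 2 / K with hε'
  have hε'0 : 0 < ε' := by positivity
  have hε'K : ε' * K = θ ^ 2 := by
    rw [hε']; field_simp
  have hε'θ : ε' ≤ θ ^ 2 := by
    rw [hε']
    exact div_le_self (by positivity) hK1
  obtain ⟨n₀, hn₀⟩ := inverse_cls (M := K) (ε := ε') (c := ε / 4) hK1 hε'0 (by positivity)
  refine ⟨n₀ + 1, ?_⟩
  intro w hw G ι _ _ _ _ e hsep hne k j hj hk hkw
  by_contra hcon
  push Not at hcon
  -- parameters
  have hj2 : (1 / 2 : ℝ) ^ j ≤ 1 / 2 := by
    calc (1 / 2 : ℝ) ^ j ≤ (1 / 2 : ℝ) ^ 1 := pow_le_pow_of_le_one (by norm_num) (by norm_num) hj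
      _ = 1 / 2 := by norm_num
  have hjpos : (0 : ℝ) < (1 / 2 : ℝ) ^ j := by positivity
  have hε1 : ε < (1 / 2 : ℝ) ^ j := by
    have := pr_le_one (fun a : G => UPh e a = w)
    linarith
  have hε2 : ε < 1 / 2 := by linarith
  have hθ1 : θ < 1 := by
    rw [hθ]; nlinarith
  have hθ2 : θ ≤ ε / 4 := by
    rw [hθ]; nlinarith
  have hθsq : θ ^ 2 ≤ θ := by nlinarith
  have hw0 : (0 : ℝ) < w := by
    have : 0 < w := by omega
    exact_mod_cast this
  -- size of `ι`
  have hcard := UP_card e hne (ε := ε) (w := w) (by linarith)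
  have hfalse : pr (fun _ : G => False) = 0 := by
    unfold pr av
    simp
  have hwι : w ≤ Fintype.card ι := by
    obtain ⟨a, ha, -⟩ := pr_exists (p := fun a : G => UPh e a = w) (p' := fun _ : G => False)
      (by rw [hfalse]; linarith)
    rw [← ha]
    unfold UPh
    exact Finset.card_le_univ _
  have hnι : n₀ ≤ Fintype.card ι := by omega
  obtain ⟨W, hW1, hWc, hW2⟩ := hn₀ G ι e hnι
  have hbad := UP_bad e W (by positivity) w hW2
  set M : ℝ := (Fintype.card ι : ℝ) with hM
  have hM0 : 0 ≤ M := by positivity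
  -- good points
  let Good : G → Prop := fun a => UPh e a = w ∧ ¬ (ε' * M < (NN e W a).card)
  have hgood : pr (fun a : G => UPh e a = w) - ε / 2 ≤ pr Good := by
    have h1 := pr_or_le Good (fun a : G => UPh e a = w ∧ ε' * M < (NN e W a).card)
    have h2 : pr (fun a : G => UPh e a = w) ≤
        pr (fun a => Good a ∨ (UPh e a = w ∧ ε' * M < (NN e W a).card)) := by
      apply pr_mono
      intro a ha
      by_cases hb : ε' * M < (NN e W a).card
      · exact Or.inr ⟨ha, hb⟩
      · exact Or.inl ⟨ha, hb⟩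
    linarith
  -- the bad classes
  let Pb := (UPpsi e W).filter (fun ψ => θ < pr (fun a : G => Good a ∧ cc e W a ψ ≠ 0))
  have hPb : (Pb.card : ℝ) ≤ θ * M := by
    have h1 : ∑ ψ ∈ UPpsi e W, pr (fun a : G => Good a ∧ cc e W a ψ ≠ 0) ≤ ε' * M := by
      unfold pr
      rw [← av_sum]
      refine le_trans (av_mono (g := fun _ => ε' * M) ?_) (av_const (Ω := G) (ε' * M)).le
      intro a
      by_cases hg : Good a
      · simp only [hg, true_and]
        rw [Finset.sum_boole, ← UP_NN_eq]
        exact not_lt.mp hg.2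
      · simp only [hg, false_and, if_false, Finset.sum_const_zero]
        positivity
    have h2 : (Pb.card : ℝ) * θ ≤ ∑ ψ ∈ Pb, pr (fun a : G => Good a ∧ cc e W a ψ ≠ 0) := by
      rw [← nsmul_eq_mul]
      apply Finset.card_nsmul_le_sum
      intro ψ hψ
      exact (Finset.mem_filter.mp hψ).2.le
    have h3 : ∑ ψ ∈ Pb, pr (fun a : G => Good a ∧ cc e W a ψ ≠ 0) ≤
        ∑ ψ ∈ UPpsi e W, pr (fun a : G => Good a ∧ cc e W a ψ ≠ 0) :=
      Finset.sum_le_sum_of_subset_of_nonneg (Finset.filter_subset _ _)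
        (fun ψ _ _ => pr_nonneg _)
    have h5 : ε' * M ≤ θ ^ 2 * M := mul_le_mul_of_nonneg_right hε'θ hM0
    have h4 : (Pb.card : ℝ) * θ ≤ (θ * M) * θ := by nlinarith
    exact le_of_mul_le_mul_right h4 hθ0
  -- good classes are large
  have hlarge : ∀ ψ ∈ UPpsi e W, ψ ∉ Pb →
      2 ^ (j + 1) ≤ (univ.filter (fun i => res e W i = ψ)).card := by
    intro ψ hψ hψb
    have h1 : pr (fun a : G => Good a ∧ cc e W a ψ ≠ 0) ≤ θ := by
      by_contra h
      push Not at h
      exact hψb (Finset.mem_filter.mpr ⟨hψ, h⟩)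
    have hne' : (univ.filter (fun i => res e W i = ψ)).Nonempty := by
      unfold UPpsi at hψ
      rw [Finset.mem_filter, Finset.mem_image] at hψ
      obtain ⟨⟨i, -, hi⟩, -⟩ := hψ
      exact ⟨i, Finset.mem_filter.mpr ⟨Finset.mem_univ _, hi⟩⟩
    apply zero_density j e _ hne'
    have h2 : pr Good ≤ pr (fun a : G => Good a ∧ cc e W a ψ ≠ 0) +
        pr (fun a : G => cc e W a ψ = 0) := by
      refine le_trans (pr_mono ?_) (pr_or_le _ _)
      intro a ha
      by_cases h0 : cc e W a ψ = 0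
      · exact Or.inr h0
      · exact Or.inl ⟨ha, h0⟩
    have h3 : pr (fun a : G => cc e W a ψ = 0) =
        pr (fun x : G => ∑ i ∈ univ.filter (fun i => res e W i = ψ), sg (e i x) = 0) := by
      congr 1
      funext a
      rw [UP_cc_def]
    rw [← h3]
    linarith
  -- the zero class
  set Z : Finset ι := univ.filter (fun i => res e W i = 0) with hZ
  have hzero : ∀ a, Good a → |∑ i ∈ Z, sg (e i a) + (2 * w - M)| ≤ θ * M := by
    intro a ha
    have h1 := UP_sum_sg e univ a
    have h2 : ((univ.filter (fun i => e i a = 1)).card : ℝ) = w := by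
      have : UPh e a = w := ha.1
      unfold UPh at this
      exact_mod_cast this
    rw [h2, Finset.card_univ, ← hM, UPX_split e W a] at h1
    have h3 : |∑ ψ ∈ NN e W a, cc e W a ψ| ≤ θ * M := by
      calc |∑ ψ ∈ NN e W a, cc e W a ψ| ≤ ∑ ψ ∈ NN e W a, |cc e W a ψ| :=
            Finset.abs_sum_le_sum_abs _ _
        _ ≤ ∑ ψ ∈ NN e W a, K := by
            apply Finset.sum_le_sum
            intro ψ hψ
            refine (UPX_cc_le e W a ψ).trans (hWc ψ ?_)
            unfold NN at hψ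
            simp only [Finset.mem_filter] at hψ
            exact hψ.2.1
        _ = (NN e W a).card * K := by rw [Finset.sum_const, nsmul_eq_mul]
        _ ≤ (ε' * M) * K := mul_le_mul_of_nonneg_right (not_lt.mp ha.2) hK0.le
        _ = θ ^ 2 * M := by rw [← hε'K]; ring
        _ ≤ θ * M := mul_le_mul_of_nonneg_right hθsq hM0
    have h4 : ∑ i ∈ Z, sg (e i a) + (2 * w - M) = - ∑ ψ ∈ NN e W a, cc e W a ψ := by
      linarith
    rw [h4, abs_neg]
    exact h3
  have hZcard : (2 ^ (j + 1) - 1) * ((2 * w - M) - θ * M) ≤ (Z.card : ℝ) := by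
    apply zero_density_shift j e Z
    refine lt_of_lt_of_le ?_ (pr_mono (p := Good) fun a ha => hzero a ha)
    linarith
  -- one good point
  obtain ⟨a, ha, -⟩ : ∃ a, Good a ∧ ¬ False := by
    apply pr_exists
    rw [hfalse]
    linarith
  let Pg := ((UPpsi e W).filter (fun ψ => ψ ∉ Pb)).filter (fun ψ => cc e W a ψ = 0)
  have hPg : ((UPpsi e W).card : ℝ) ≤ Pg.card + θ * M + ε' * M := by
    have h1 : UPpsi e W ⊆ Pg ∪ Pb ∪ NN e W a := by
      intro ψ hψ
      rw [Finset.mem_union, Finset.mem_union]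
      by_cases h0 : cc e W a ψ = 0
      · by_cases hb : ψ ∈ Pb
        · exact Or.inl (Or.inr hb)
        · exact Or.inl (Or.inl (Finset.mem_filter.mpr ⟨Finset.mem_filter.mpr ⟨hψ, hb⟩, h0⟩))
      · right
        rw [UP_NN_eq]
        exact Finset.mem_filter.mpr ⟨hψ, h0⟩
    have h2 : (UPpsi e W).card ≤ Pg.card + Pb.card + (NN e W a).card :=
      le_trans (Finset.card_le_card h1) (le_trans (Finset.card_union_le _ _)
        (Nat.add_le_add_right (Finset.card_union_le _ _) _))
    have h3 : ((UPpsi e W).card : ℝ) ≤ Pg.card + Pb.card + (NN e W a).card := by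
      exact_mod_cast h2
    have h4 : ((NN e W a).card : ℝ) ≤ ε' * M := not_lt.mp ha.2
    linarith
  -- half of the coordinates of a good class are `1`
  have hhalf : ∀ ψ ∈ Pg,
      2 ^ j ≤ ((univ.filter (fun i => e i a = 1)).filter (fun i => res e W i = ψ)).card := by
    intro ψ hψ
    have hψ' := Finset.mem_filter.mp hψ
    have hψ'' := Finset.mem_filter.mp hψ'.1
    have h1 := hlarge ψ hψ''.1 hψ''.2
    have h2 : cc e W a ψ = 0 := hψ'.2
    rw [UP_cc_def, UP_sum_sg] at h2
    have h3 : (univ.filter (fun i => e i a = 1)).filter (fun i => res e W i = ψ) =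
        (univ.filter (fun i => res e W i = ψ)).filter (fun i => e i a = 1) := by
      ext i
      simp only [Finset.mem_filter, Finset.mem_univ, true_and]
      tauto
    rw [h3]
    have h4 : (univ.filter (fun i => res e W i = ψ)).card =
        2 * ((univ.filter (fun i => res e W i = ψ)).filter (fun i => e i a = 1)).card := by
      have : ((univ.filter (fun i => res e W i = ψ)).card : ℝ) =
        2 * ((univ.filter (fun i => res e W i = ψ)).filter (fun i => e i a = 1)).card := by
        linarith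
      exact_mod_cast this
    rw [h4, pow_succ] at h1
    omega
  have hw1 : Pg.card * 2 ^ j + (Z.filter (fun i => e i a = 1)).card ≤ w := by
    have h1 : ∑ ψ ∈ Pg, 2 ^ j ≤ ∑ ψ ∈ Pg,
        ((univ.filter (fun i => e i a = 1)).filter (fun i => res e W i = ψ)).card :=
      Finset.sum_le_sum hhalf
    have h2 : ∑ ψ ∈ Pg,
        ((univ.filter (fun i => e i a = 1)).filter (fun i => res e W i = ψ)).card +
        (Z.filter (fun i => e i a = 1)).card ≤
        (univ.filter (fun i => e i a = 1)).card := by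
      have h3 : ∑ ψ ∈ Pg,
          ((univ.filter (fun i => e i a = 1)).filter (fun i => res e W i = ψ)).card =
          (Pg.biUnion (fun ψ =>
            (univ.filter (fun i => e i a = 1)).filter (fun i => res e W i = ψ))).card := by
        rw [Finset.card_biUnion]
        intro ψ _ ψ' _ hne2
        rw [Function.onFun, Finset.disjoint_left]
        intro i hi hi'
        exact hne2 ((Finset.mem_filter.mp hi).2.symm.trans (Finset.mem_filter.mp hi').2)
      rw [h3, ← Finset.card_union_of_disjoint]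
      · apply Finset.card_le_card
        intro i hi
        rw [Finset.mem_union] at hi
        rcases hi with hi | hi
        · rw [Finset.mem_biUnion] at hi
          obtain ⟨ψ, -, hi⟩ := hi
          exact (Finset.mem_filter.mp hi).1
        · exact Finset.mem_filter.2 ⟨Finset.mem_univ _, (Finset.mem_filter.1 hi).2⟩
      · rw [Finset.disjoint_left]
        intro i hi hi'
        rw [Finset.mem_biUnion] at hi
        obtain ⟨ψ, hψ, hi⟩ := hi
        have h5 : res e W i = ψ := (Finset.mem_filter.mp hi).2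
        have h6 : res e W i = 0 := by
          have := (Finset.mem_filter.mp hi').1
          rw [hZ] at this
          exact (Finset.mem_filter.mp this).2
        have h7 : ψ ∈ UPpsi e W := (Finset.mem_filter.mp (Finset.mem_filter.mp hψ).1).1
        unfold UPpsi at h7
        exact (Finset.mem_filter.mp h7).2 (h5.symm.trans h6)
    rw [Finset.sum_const, smul_eq_mul] at h1
    have h4 : (univ.filter (fun i => e i a = 1)).card = w := ha.1
    omega
  -- the zero class contains many ones
  have h2j : (0 : ℝ) < 2 ^ j := by positivity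
  set D : ℝ := ((2 * w - Fintype.card ι : ℕ) : ℝ) with hD
  have hones : 2 ^ j * (D - θ * M) ≤ ((Z.filter (fun i => e i a = 1)).card : ℝ) := by
    rcases le_total (2 * w) (Fintype.card ι) with hle | hle
    · have hD0 : D = 0 := by
        rw [hD, Nat.sub_eq_zero_of_le hle, Nat.cast_zero]
      rw [hD0]
      have h1 : (0 : ℝ) ≤ ((Z.filter (fun i => e i a = 1)).card : ℝ) := Nat.cast_nonneg _
      have h2 : 0 ≤ θ * M := by positivity
      nlinarith
    · have hD0 : D = 2 * w - M := by
        rw [hD, Nat.cast_sub hle, hM]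
        push_cast
        ring
      have h1 := hzero a ha
      rw [UP_sum_sg e Z a, ← hD0, abs_le] at h1
      rw [← hD0] at hZcard
      have h2 : (2 : ℝ) ^ (j + 1) = 2 * 2 ^ j := by ring
      rw [h2] at hZcard
      nlinarith [h1.1, h1.2]
  -- final computation
  have hw2 : (Pg.card : ℝ) * 2 ^ j + ((Z.filter (fun i => e i a = 1)).card : ℝ) ≤ w := by
    exact_mod_cast hw1
  have hrk : (Module.finrank (ZMod 2) W : ℝ) ≤ (UPpsi e W).card := by
    exact_mod_cast UP_rank e hsep W
  rw [hk] at hW1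
  have hKM : 2 / K * M ≤ θ * M := mul_le_mul_of_nonneg_right hK2 hM0
  have hεM : ε' * M ≤ θ * M := mul_le_mul_of_nonneg_right (hε'θ.trans hθsq) hM0
  have h5 : (k : ℝ) ≤ Pg.card + 3 * θ * M := by linarith
  have h6 : 2 ^ j * (Pg.card + D - θ * M) ≤ w := by linarith
  have h7 : 4 * θ * M ≤ (ε / 2) * w := by
    have : 4 * θ * M = (ε / 2) * (ε * M) := by rw [hθ]; ring
    rw [this]
    exact mul_le_mul_of_nonneg_left hcard (by positivity)
  have h8 : ((1 / 2 : ℝ) ^ j) * w + (ε / 2) * w ≤ Pg.card + D - θ * M := by nlinarith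
  have h10 : (1 / 2 : ℝ) ^ j * 2 ^ j = 1 := by
    rw [← mul_pow]; norm_num
  have h11 : 2 ^ j * ((1 / 2 : ℝ) ^ j * w + (ε / 2) * w) ≤ w :=
    le_trans (mul_le_mul_of_nonneg_left h8 h2j.le) h6
  have h12 : 2 ^ j * ((1 / 2 : ℝ) ^ j * w + (ε / 2) * w) =
      ((1 / 2 : ℝ) ^ j * 2 ^ j) * w + (ε / 2) * w * 2 ^ j := by ring
  rw [h12, h10, one_mul] at h11
  have h13 : 0 < (ε / 2) * w * 2 ^ j :=
    mul_pos (mul_pos (by linarith) hw0) h2j
  linarith

end

/-- The upper bound for all lengths `n`: `k` is replaced by `k + (2 w - n)^+`. -/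
theorem upper_all {ε : ℝ} (hε : 0 < ε) : ∃ w₀ : ℕ, ∀ w ≥ w₀, ∀ (n k j : ℕ)
    (U : Submodule (ZMod 2) (Fin n → ZMod 2)), 1 ≤ j → Module.finrank (ZMod 2) U = k →
    ((1 / 2 : ℝ) ^ j + ε) * w ≤ k + ((2 * w - n : ℕ) : ℝ) →
    ({x : Fin n → ZMod 2 | x ∈ U ∧ hammingNorm x = w}.ncard : ℝ) ≤
      (1 - (1 / 2 : ℝ) ^ j + ε) * 2 ^ k := by
  obtain ⟨w₀, hw₀⟩ := UPX_abs hε
  refine ⟨w₀, ?_⟩
  intro w hw n k j U hj hk hkw
  let ι : Type := {i : Fin n // ∃ x ∈ U, x i ≠ 0}
  let e : ι → Module.Dual (ZMod 2) U := fun i => (LinearMap.proj i.val).comp U.subtype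
  have he : ∀ (i : ι) (x : U), e i x = (x : Fin n → ZMod 2) i.val := fun _ _ => rfl
  have hsep : ∀ x : U, (∀ i, e i x = 0) → x = 0 := by
    intro x hx
    apply Subtype.ext
    funext i
    by_contra h0
    exact h0 (hx ⟨i, x, x.2, h0⟩)
  have hne : ∀ i, e i ≠ 0 := by
    rintro ⟨i, x, hx, hxi⟩ h0
    exact hxi (congrArg (fun φ : Module.Dual (ZMod 2) U => φ ⟨x, hx⟩) h0)
  have hιn : Fintype.card ι ≤ n := by
    have := Fintype.card_subtype_le (fun i : Fin n => ∃ x ∈ U, x i ≠ 0)
    rwa [Fintype.card_fin] at this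
  have hkw' : ((1 / 2 : ℝ) ^ j + ε) * w ≤ k + ((2 * w - Fintype.card ι : ℕ) : ℝ) := by
    refine hkw.trans ?_
    have h1 : 2 * w - n ≤ 2 * w - Fintype.card ι := by omega
    have h2 : ((2 * w - n : ℕ) : ℝ) ≤ ((2 * w - Fintype.card ι : ℕ) : ℝ) := by exact_mod_cast h1
    linarith
  have hmain := hw₀ w hw U ι e hsep hne k j hj hk hkw'
  have hnorm : ∀ x : U, UPh e x = hammingNorm (x : Fin n → ZMod 2) := by
    intro x
    unfold UPh hammingNorm
    apply Finset.card_bij (fun (i : ι) _ => i.val)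
    · intro i hi
      rw [Finset.mem_filter] at hi ⊢
      refine ⟨Finset.mem_univ _, ?_⟩
      have h1 := hi.2
      rw [he] at h1
      rw [h1]
      exact one_ne_zero
    · intro i _ i' _ h
      exact Subtype.ext h
    · intro i hi
      rw [Finset.mem_filter] at hi
      refine ⟨⟨i, x, x.2, hi.2⟩, ?_, rfl⟩
      rw [Finset.mem_filter]
      exact ⟨Finset.mem_univ _, (zmod_two_cases _).resolve_left hi.2⟩
  have hcard : (Fintype.card U : ℝ) = 2 ^ k := by
    have h1 := Module.card_eq_pow_finrank (K := ZMod 2) (V := U)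
    rw [ZMod.card, hk] at h1
    exact_mod_cast h1
  have hcount : ({x : Fin n → ZMod 2 | x ∈ U ∧ hammingNorm x = w}.ncard : ℝ) =
      pr (fun a : U => UPh e a = w) * 2 ^ k := by
    have h1 : {x : Fin n → ZMod 2 | x ∈ U ∧ hammingNorm x = w} =
        Subtype.val '' {x : U | UPh e x = w} := by
      ext x
      simp only [Set.mem_ofPred_eq, Set.mem_image]
      constructor
      · rintro ⟨hx, hxw⟩
        exact ⟨⟨x, hx⟩, by rw [hnorm]; exact hxw, rfl⟩
      · rintro ⟨y, hy, rfl⟩
        rw [hnorm] at hy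
        exact ⟨y.2, hy⟩
    rw [h1, Set.ncard_image_of_injective _ Subtype.val_injective, Set.ncard_eq_toFinset_card']
    rw [UP_pr_card, hcard, div_mul_cancel₀ _ (by positivity)]
    congr 2
    ext x
    simp
  rw [hcount]
  exact mul_le_mul_of_nonneg_right hmain (by positivity)

end Pool.Agent.H47.ST
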