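import Pool.Agent.H59.MW.EvenUp
import Pool.Agent.H59.MW.EvenLow
import Pool.Agent.H59.MW.Odd

/-! Project ST: the case `j = 0`, the trivial bound, the lower bound. -/

namespace Pool.Agent.H47.ST

open Finset Pool.Agent.H59.CW Pool.Agent.H59.MW

/-- `C(2e, e) ≤ 4^e / √(2e+1)` -/
theorem Zero_binom (e : ℕ) : ((2 * e).choose e : ℝ) ^ 2 * (2 * e + 1) ≤ (4 ^ e) ^ 2 := by
  induction e with
  | zero => simp
  | succ e ih =>
    have h := Nat.succ_mul_centralBinom_succ e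
    rw [Nat.centralBinom_eq_two_mul_choose, Nat.centralBinom_eq_two_mul_choose] at h
    have h' : ((e : ℝ) + 1) * ((2 * (e + 1)).choose (e + 1) : ℕ) =
        2 * (2 * e + 1) * ((2 * e).choose e : ℕ) := by exact_mod_cast h
    have hp : (0 : ℝ) < (e : ℝ) + 1 := by positivity
    have e1 : (((2 * (e + 1)).choose (e + 1) : ℕ) : ℝ) =
        2 * (2 * e + 1) * ((2 * e).choose e : ℕ) / (e + 1) := by
      rw [eq_div_iff hp.ne']; linarith
    rw [e1]
    push_cast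
    rw [div_pow, div_mul_eq_mul_div, div_le_iff₀ (by positivity), pow_succ (4 : ℝ) e]
    have h2 : (2 * (2 * (e : ℝ) + 1) * ((2 * e).choose e : ℕ)) ^ 2 * (2 * (e + 1) + 1) =
        (((2 * e).choose e : ℝ) ^ 2 * (2 * e + 1)) * (4 * (2 * e + 1) * (2 * e + 3)) := by ring
    rw [h2]
    have h3 : (4 * (2 * (e : ℝ) + 1) * (2 * e + 3)) ≤ 16 * (e + 1) ^ 2 := by nlinarith
    have h4 := mul_le_mul ih h3 (by positivity) (by positivity)
    refine h4.trans (le_of_eq ?_)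
    ring

theorem Zero_flat {n : ℕ} {A : Finset (Finset (Fin n))} (hA : Flat A) {k v e : ℕ} {ε : ℝ}
    (hε : 0 < ε) (hd : A.card = 2 ^ k) (he : k + 1 = v + e) (h1 : 1 ≤ e)
    (h2 : 4 / ε ^ 2 ≤ 2 * e + 1) : (cnt A v : ℝ) ≤ ε * 2 ^ k := by
  have h := affine_bound hA hd he h1
  have h' : (cnt A v : ℝ) * 2 ^ e ≤ ((2 * e).choose e : ℕ) * 2 ^ v := by exact_mod_cast h
  have hb : ((2 * e).choose e : ℝ) ≤ ε / 2 * 4 ^ e := by
    have h3 := Zero_binom e
    rw [div_le_iff₀ (by positivity)] at h2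
    have h4 : (0 : ℝ) < 2 * e + 1 := by positivity
    have h5 : ((2 * e).choose e : ℝ) ^ 2 * 4 ≤ (ε * 4 ^ e) ^ 2 := by
      calc ((2 * e).choose e : ℝ) ^ 2 * 4
          ≤ ((2 * e).choose e : ℝ) ^ 2 * ((2 * e + 1) * ε ^ 2) :=
            mul_le_mul_of_nonneg_left h2 (by positivity)
        _ = (((2 * e).choose e : ℝ) ^ 2 * (2 * e + 1)) * ε ^ 2 := by ring
        _ ≤ (4 ^ e) ^ 2 * ε ^ 2 := mul_le_mul_of_nonneg_right h3 (by positivity)
        _ = (ε * 4 ^ e) ^ 2 := by ring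
    have h6 : (((2 * e).choose e : ℝ) * 2) ^ 2 ≤ (ε * 4 ^ e) ^ 2 := by
      calc (((2 * e).choose e : ℝ) * 2) ^ 2 = ((2 * e).choose e : ℝ) ^ 2 * 4 := by ring
        _ ≤ _ := h5
    have h7 := (sq_le_sq₀ (by positivity) (by positivity)).1 h6
    linarith
  have e1 : (2 : ℝ) ^ k * 2 = 2 ^ v * 2 ^ e := by
    rw [← pow_succ, ← pow_add, he]
  have e2 : (4 : ℝ) ^ e = 2 ^ e * 2 ^ e := by
    rw [← mul_pow]; norm_num
  have h8 : (cnt A v : ℝ) * 2 ^ e ≤ (ε * 2 ^ k) * 2 ^ e := by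
    calc (cnt A v : ℝ) * 2 ^ e ≤ ((2 * e).choose e : ℕ) * 2 ^ v := h'
      _ ≤ (ε / 2 * 4 ^ e) * 2 ^ v := mul_le_mul_of_nonneg_right hb (by positivity)
      _ = ε / 2 * (2 ^ v * 2 ^ e) * 2 ^ e := by rw [e2]; ring
      _ = (ε * 2 ^ k) * 2 ^ e := by rw [← e1]; ring
  exact le_of_mul_le_mul_right h8 (by positivity)

/-- the case `j = 0` -/
theorem upper_zero {ε : ℝ} (hε : 0 < ε) : ∃ w₀ : ℕ, ∀ w ≥ w₀, ∀ (n k : ℕ)
    (U : Submodule (ZMod 2) (Fin n → ZMod 2)), Module.finrank (ZMod 2) U = k →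
    (1 + ε) * w ≤ k + ((2 * w - n : ℕ) : ℝ) →
    ({x : Fin n → ZMod 2 | x ∈ U ∧ hammingNorm x = w}.ncard : ℝ) ≤ ε * 2 ^ k := by
  obtain ⟨w₀, hw₀⟩ := exists_nat_ge (4 / ε ^ 2 / ε + 1 / ε)
  refine ⟨w₀, ?_⟩
  intro w hw n k U hU hk
  have hwR : 4 / ε ^ 2 / ε + 1 / ε ≤ (w : ℝ) := hw₀.trans (by exact_mod_cast hw)
  have hεw : 4 / ε ^ 2 + 1 ≤ ε * w := by
    have := mul_le_mul_of_nonneg_left hwR hε.le
    have e1 : ε * (4 / ε ^ 2 / ε + 1 / ε) = 4 / ε ^ 2 + 1 := by field_simp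
    linarith
  have h4 : 0 ≤ 4 / ε ^ 2 := by positivity
  rw [fam_count]
  have hfl := fam_flat U
  have hc := card_of_finrank.1 hU
  rcases lt_or_ge n w with h | h
  · have : cnt (fam U) w = 0 := by
      unfold cnt
      rw [Finset.card_eq_zero]
      apply Finset.filter_eq_empty_iff.2
      intro x _ hx
      have := Finset.card_le_univ x
      rw [Fintype.card_fin] at this
      omega
    rw [this]
    push_cast
    positivity
  · rcases le_or_gt (2 * w) n with h2 | h2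
    · have e0 : 2 * w - n = 0 := by omega
      rw [e0, Nat.cast_zero, add_zero] at hk
      have hkw : w + 1 ≤ k := by
        have : (w : ℝ) + 1 ≤ k := by linarith
        exact_mod_cast this
      apply Zero_flat hfl hε hc (e := k + 1 - w) (by omega) (by omega)
      rw [Nat.cast_sub (by omega)]
      push_cast
      linarith
    · rw [Nat.cast_sub h2.le] at hk
      push_cast at hk
      have hkw : n - w + 1 ≤ k := by
        have : ((n - w + 1 : ℕ) : ℝ) ≤ k := by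
          push_cast [Nat.cast_sub h]
          linarith
        exact_mod_cast this
      obtain ⟨c1, c2, c3⟩ := compl_flat hfl hc h
      rw [← c3]
      apply Zero_flat c1 hε (by simpa using c2) (e := k + 1 - (n - w)) (by omega) (by omega)
      rw [Nat.cast_sub (by omega), Nat.cast_sub h]
      push_cast
      linarith

/-- the zero vector is not counted -/
theorem upper_triv {n k w : ℕ} (hw : 1 ≤ w) (U : Submodule (ZMod 2) (Fin n → ZMod 2))
    (hU : Module.finrank (ZMod 2) U = k) :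
    {x : Fin n → ZMod 2 | x ∈ U ∧ hammingNorm x = w}.ncard + 1 ≤ 2 ^ k := by
  rw [fam_count, ← card_of_finrank.1 hU]
  unfold cnt
  apply Nat.succ_le_of_lt
  apply Finset.card_lt_card
  rw [Finset.ssubset_iff_of_subset (Finset.filter_subset _ _)]
  refine ⟨∅, empty_mem_fam U, ?_⟩
  rw [Finset.mem_filter]
  rintro ⟨_, h⟩
  rw [Finset.card_empty] at h
  omega

/-- the lower bound -/
theorem lower_all {n k w m : ℕ} (hm : 1 ≤ m) (hmk : m ≤ k) (hw : 1 ≤ w) (hd : 2 ^ (m - 1) ∣ w)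
    (h : 2 ^ (m - 1) * (k + (2 * w - n)) ≤ w) :
    ∃ U : Submodule (ZMod 2) (Fin n → ZMod 2), Module.finrank (ZMod 2) U = k ∧
      2 ^ k - 2 ^ (k - m) ≤ {x : Fin n → ZMod 2 | x ∈ U ∧ hammingNorm x = w}.ncard := by
  obtain ⟨a, rfl⟩ : ∃ a, m = a + 1 := ⟨m - 1, by omega⟩
  rw [Nat.add_sub_cancel] at hd h
  obtain ⟨s, rfl⟩ := hd
  have hs : 0 < s := by
    rcases Nat.eq_zero_or_pos s with h0 | h0
    · subst h0; simp at hw
    · exact h0
  have h1 : k + (2 * (2 ^ a * s) - n) ≤ s := Nat.le_of_mul_le_mul_left h (by positivity)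
  have h2 : (2 ^ (a + 1) - 1) * s + s = 2 * (2 ^ a * s) := by
    have : 1 ≤ 2 ^ (a + 1) := Nat.one_le_two_pow
    have h3 : (2 ^ (a + 1) - 1) * s + s = (2 ^ (a + 1) - 1 + 1) * s := by ring
    rw [h3, Nat.sub_add_cancel this, pow_succ]
    ring
  obtain ⟨U, hU, hle⟩ := exists_small n a s (k - (a + 1)) hs (by omega) (by omega)
  have e1 : a + 1 + (k - (a + 1)) = k := by omega
  rw [e1] at hU hle
  exact ⟨U, hU, hle⟩

end Pool.Agent.H47.ST
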